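import Mathlib

/-!
# Two-dimensional Hausdorff measure of affine images of planar sets, and Hlawka's inequality
-/

namespace Q190.Area

open MeasureTheory Set Measure
open scoped InnerProductSpace ENNReal Pointwise

/-- Hlawka's inequality. -/
theorem hlawka {V : Type*} [NormedAddCommGroup V] [InnerProductSpace ℝ V] (a b c : V) :
    ‖a + b‖ + ‖b + c‖ + ‖c + a‖ ≤ ‖a‖ + ‖b‖ + ‖c‖ + ‖a + b + c‖ := by
  have h1 : ‖a + b‖ ≤ ‖a‖ + ‖b‖ := norm_add_le _ _
  have h2 : ‖b + c‖ ≤ ‖b‖ + ‖c‖ := norm_add_le _ _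
  have h3 : ‖c + a‖ ≤ ‖c‖ + ‖a‖ := norm_add_le _ _
  have k1 : ‖a + b‖ ≤ ‖a + b + c‖ + ‖c‖ := by
    have := norm_add_le (a + b + c) (-c)
    rwa [norm_neg, add_neg_cancel_right] at this
  have k2 : ‖b + c‖ ≤ ‖a + b + c‖ + ‖a‖ := by
    have := norm_add_le (a + b + c) (-a)
    rw [norm_neg] at this
    have e : a + b + c + -a = b + c := by abel
    rwa [e] at this
  have k3 : ‖c + a‖ ≤ ‖a + b + c‖ + ‖b‖ := by
    have := norm_add_le (a + b + c) (-b)
    rw [norm_neg] at this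
    have e : a + b + c + -b = c + a := by abel
    rwa [e] at this
  have hsq : ‖a + b‖ ^ 2 + ‖b + c‖ ^ 2 + ‖c + a‖ ^ 2 =
      ‖a‖ ^ 2 + ‖b‖ ^ 2 + ‖c‖ ^ 2 + ‖a + b + c‖ ^ 2 := by
    rw [norm_add_sq_real, norm_add_sq_real, norm_add_sq_real, norm_add_sq_real (a + b) c,
      norm_add_sq_real, inner_add_left, real_inner_comm a c]
    ring
  set s := ‖a + b + c‖
  have p1 := mul_nonneg (sub_nonneg.2 h1) (sub_nonneg.2 k1)
  have p2 := mul_nonneg (sub_nonneg.2 h2) (sub_nonneg.2 k2)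
  have p3 := mul_nonneg (sub_nonneg.2 h3) (sub_nonneg.2 k3)
  have hS : 0 ≤ ‖a‖ + ‖b‖ + ‖c‖ + s := by positivity
  rcases eq_or_lt_of_le hS with h0 | h0
  · have ha := norm_nonneg a
    have hb := norm_nonneg b
    have hc := norm_nonneg c
    have hs : 0 ≤ s := norm_nonneg _
    linarith
  · have key : (‖a + b‖ + ‖b + c‖ + ‖c + a‖) * (‖a‖ + ‖b‖ + ‖c‖ + s) ≤
        (‖a‖ + ‖b‖ + ‖c‖ + s) * (‖a‖ + ‖b‖ + ‖c‖ + s) := by
      nlinarith
    exact le_of_mul_le_mul_right key h0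

/-- The plane. -/
abbrev E2 := EuclideanSpace ℝ (Fin 2)

/-- The reference measure: two-dimensional Hausdorff measure on the plane. -/
noncomputable def m : Measure E2 := μH[2]

theorem m_haar : m.IsAddHaarMeasure := by
  have h := isAddHaarMeasure_hausdorffMeasure (E := E2)
  rw [finrank_euclideanSpace_fin] at h
  exact_mod_cast h

section

variable {V : Type*} [NormedAddCommGroup V] [InnerProductSpace ℝ V]

/-- Affine parametrisation of a plane. -/
def par (b p q : V) (v : E2) : V := b + (v 0 • p + v 1 • q)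

/-- The Gram determinant. -/
noncomputable def gram (p q : V) : ℝ := Real.sqrt (‖p‖ ^ 2 * ‖q‖ ^ 2 - ⟪p, q⟫_ℝ ^ 2)

variable [MeasurableSpace V] [BorelSpace V]

theorem area_par (b p q : V) (hpq : LinearIndependent ℝ ![p, q]) (G : Set E2) :
    (μH[2] : Measure V) (par b p q '' G) = ENNReal.ofReal (gram p q) * m G := by
  have hp : p ≠ 0 := hpq.ne_zero 0
  have hp' : 0 < ‖p‖ := norm_pos_iff.2 hp
  obtain ⟨u, hu⟩ : ∃ u : V, u = ‖p‖⁻¹ • p := ⟨_, rfl⟩
  have hun : ‖u‖ = 1 := by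
    rw [hu, norm_smul, norm_inv, norm_norm, inv_mul_cancel₀ hp'.ne']
  obtain ⟨w, hw⟩ : ∃ w : V, w = q - ⟪u, q⟫_ℝ • u := ⟨_, rfl⟩
  have huw : ⟪u, w⟫_ℝ = 0 := by
    rw [hw, inner_sub_right, inner_smul_right, real_inner_self_eq_norm_sq, hun]
    ring
  have hw0 : w ≠ 0 := by
    intro h0
    rw [LinearIndependent.pair_iff' hp] at hpq
    apply hpq (⟪u, q⟫_ℝ * ‖p‖⁻¹)
    rw [hw, sub_eq_zero] at h0
    rw [mul_smul, ← hu]
    exact h0.symm
  have hw' : 0 < ‖w‖ := norm_pos_iff.2 hw0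
  obtain ⟨v, hv⟩ : ∃ v : V, v = ‖w‖⁻¹ • w := ⟨_, rfl⟩
  have hvn : ‖v‖ = 1 := by
    rw [hv, norm_smul, norm_inv, norm_norm, inv_mul_cancel₀ hw'.ne']
  have huv : ⟪u, v⟫_ℝ = 0 := by
    rw [hv, inner_smul_right, huw, mul_zero]
  -- the isometry
  let ι : E2 → V := fun a => b + (a 0 • u + a 1 • v)
  have hι : Isometry ι := by
    refine Isometry.of_dist_eq fun a a' => ?_
    have e : ι a - ι a' = (a 0 - a' 0) • u + (a 1 - a' 1) • v := by
      simp only [ι, sub_smul]; abel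
    rw [dist_eq_norm, e, EuclideanSpace.dist_eq, Fin.sum_univ_two]
    rw [← Real.sqrt_sq (norm_nonneg ((a 0 - a' 0) • u + (a 1 - a' 1) • v))]
    congr 1
    rw [norm_add_sq_real, norm_smul, norm_smul, hun, hvn, inner_smul_left, inner_smul_right, huv,
      Real.dist_eq, Real.dist_eq]
    simp
  let g : E2 →ₗ[ℝ] E2 := Matrix.toLpLin 2 2 !![‖p‖, ⟪u, q⟫_ℝ; 0, ‖w‖]
  have hg0 : ∀ a, g a 0 = ‖p‖ * a 0 + ⟪u, q⟫_ℝ * a 1 := by
    intro a
    simp [g, Matrix.toLpLin_apply, dotProduct, Fin.sum_univ_two]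
  have hg1 : ∀ a, g a 1 = ‖w‖ * a 1 := by
    intro a
    simp [g, Matrix.toLpLin_apply, dotProduct, Fin.sum_univ_two]
  have hcomp : ∀ a, par b p q a = ι (g a) := by
    intro a
    simp only [par, ι, hg0, hg1]
    have hpe : p = ‖p‖ • u := by
      rw [hu, smul_smul, mul_inv_cancel₀ hp'.ne', one_smul]
    have hqe : q = ⟪u, q⟫_ℝ • u + ‖w‖ • v := by
      rw [hv, smul_smul, mul_inv_cancel₀ hw'.ne', one_smul]
      rw [hw]
      abel
    congr 1
    conv_lhs => rw [hqe]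
    nth_rewrite 1 [hpe]
    simp only [smul_add, smul_smul, add_smul]
    rw [mul_comm (a 0) ‖p‖, mul_comm (a 1) ⟪u, q⟫_ℝ, mul_comm (a 1) ‖w‖]
    abel
  have himg : par b p q '' G = ι '' (g '' G) := by
    rw [image_image]
    exact image_congr fun a _ => hcomp a
  have hdet : LinearMap.det g = ‖p‖ * ‖w‖ := by
    simp only [g]
    rw [Matrix.toLpLin_eq_toLin, LinearMap.det_toLin, Matrix.det_fin_two]
    simp
  have := m_haar
  rw [himg, hι.hausdorffMeasure_image (Or.inl (by norm_num))]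
  change m (g '' G) = _
  rw [addHaar_image_linearMap, hdet]
  congr 2
  rw [abs_of_nonneg (by positivity), gram, eq_comm]
  have e1 : ⟪p, q⟫_ℝ = ‖p‖ * ⟪u, q⟫_ℝ := by
    rw [hu, inner_smul_left, conj_trivial, ← mul_assoc, mul_inv_cancel₀ hp'.ne', one_mul]
  have e2 : ‖w‖ ^ 2 = ‖q‖ ^ 2 - ⟪u, q⟫_ℝ ^ 2 := by
    rw [hw, norm_sub_sq_real, norm_smul, hun, inner_smul_right, real_inner_comm]
    simp only [Real.norm_eq_abs, mul_one, sq_abs]
    ring
  have e3 : ‖p‖ ^ 2 * ‖q‖ ^ 2 - ⟪p, q⟫_ℝ ^ 2 = (‖p‖ * ‖w‖) ^ 2 := by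
    rw [e1, mul_pow, mul_pow, e2]; ring
  rw [e3, Real.sqrt_sq (by positivity)]

end

/-- The open triangle. -/
def T : Set E2 := {v | 0 < v 0 ∧ 0 < v 1 ∧ v 0 + v 1 < 1}

/-- The closed triangle. -/
def Tc : Set E2 := {v | 0 ≤ v 0 ∧ 0 ≤ v 1 ∧ v 0 + v 1 ≤ 1}

theorem T_open : IsOpen T := by
  have h0 : IsOpen {v : E2 | 0 < v 0} := isOpen_lt continuous_const (by fun_prop)
  have h1 : IsOpen {v : E2 | 0 < v 1} := isOpen_lt continuous_const (by fun_prop)
  have h2 : IsOpen {v : E2 | v 0 + v 1 < 1} := isOpen_lt (by fun_prop) continuous_const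
  exact h0.inter (h1.inter h2)

theorem T_convex : Convex ℝ T := by
  intro x hx y hy a b ha hb hab
  obtain ⟨x0, x1, x2⟩ := hx
  obtain ⟨y0, y1, y2⟩ := hy
  have ha1 : 0 < a ∨ 0 < b := by
    rcases eq_or_lt_of_le ha with h | h
    · right; linarith
    · left; exact h
  refine ⟨?_, ?_, ?_⟩ <;> simp only [PiLp.add_apply, PiLp.smul_apply, smul_eq_mul]
  · rcases ha1 with h | h
    · have := mul_pos h x0; have := mul_nonneg hb y0.le; linarith
    · have := mul_nonneg ha x0.le; have := mul_pos h y0; linarith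
  · rcases ha1 with h | h
    · have := mul_pos h x1; have := mul_nonneg hb y1.le; linarith
    · have := mul_nonneg ha x1.le; have := mul_pos h y1; linarith
  · have e : a * x 0 + b * y 0 + (a * x 1 + b * y 1) = a * (x 0 + x 1) + b * (y 0 + y 1) := by ring
    rw [e]
    rcases ha1 with h | h
    · have := mul_lt_mul_of_pos_left x2 h; have := mul_le_mul_of_nonneg_left y2.le hb; linarith
    · have := mul_le_mul_of_nonneg_left x2.le ha; have := mul_lt_mul_of_pos_left y2 h; linarith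

theorem Tc_sub : Tc ⊆ closure T := by
  intro v hv
  obtain ⟨v0, v1, v2⟩ := hv
  let c : E2 := !₂[1 / 3, 1 / 3]
  have hc0 : c 0 = 1 / 3 := by simp [c]
  have hc1 : c 1 = 1 / 3 := by simp [c]
  have hlim : Filter.Tendsto (fun t : ℝ => (1 - t) • v + t • c) (nhdsWithin 0 (Ioi 0)) (nhds v) := by
    have hcont : Continuous (fun t : ℝ => (1 - t) • v + t • c) := by fun_prop
    have := hcont.tendsto 0
    simp only [sub_zero, one_smul, zero_smul, add_zero] at this
    exact this.mono_left nhdsWithin_le_nhds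
  refine mem_closure_of_tendsto hlim ?_
  have : ∀ᶠ t : ℝ in nhdsWithin 0 (Ioi 0), t ∈ Ioo (0 : ℝ) 1 := Ioo_mem_nhdsGT (by norm_num)
  filter_upwards [this] with t ht
  obtain ⟨t0, t1⟩ := ht
  refine ⟨?_, ?_, ?_⟩ <;>
    simp only [PiLp.add_apply, PiLp.smul_apply, smul_eq_mul, hc0, hc1]
  · have := mul_nonneg (by linarith : 0 ≤ 1 - t) v0
    linarith
  · have := mul_nonneg (by linarith : 0 ≤ 1 - t) v1
    linarith
  · have := mul_le_mul_of_nonneg_left v2 (by linarith : 0 ≤ 1 - t)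
    linarith

theorem m_Tc : m Tc ≤ m T := by
  have := m_haar
  calc m Tc ≤ m (closure T) := measure_mono Tc_sub
    _ = m (T ∪ frontier T) := by rw [closure_eq_self_union_frontier]
    _ ≤ m T + m (frontier T) := measure_union_le _ _
    _ = m T := by rw [T_convex.addHaar_frontier m, add_zero]

theorem m_T_fin : m T ≠ ⊤ := by
  have := m_haar
  have hb : Bornology.IsBounded T := by
    rw [isBounded_iff_forall_norm_le]
    refine ⟨2, fun v hv => ?_⟩
    obtain ⟨v0, v1, v2⟩ := hv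
    rw [EuclideanSpace.norm_eq, Fin.sum_univ_two]
    apply Real.sqrt_le_iff.2
    refine ⟨by norm_num, ?_⟩
    simp only [Real.norm_eq_abs, sq_abs]
    nlinarith
  exact hb.measure_lt_top.ne

theorem m_smul (r : ℝ) (s : Set E2) : m (r • s) = ENNReal.ofReal (r ^ 2) * m s := by
  have := m_haar
  rw [addHaar_smul, finrank_euclideanSpace_fin, abs_of_nonneg (sq_nonneg r)]

/-- The hexagonal piece. -/
def H : Set E2 := {v | 0 ≤ v 0 ∧ 0 ≤ v 1 ∧ v 0 + v 1 ≤ 1 ∧ v 0 ≤ 8 / 13 ∧ v 1 ≤ 8 / 13 ∧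
  5 / 13 ≤ v 0 + v 1}

theorem m_H : m H + 3 * (ENNReal.ofReal (25 / 169) * m T) ≤ m T := by
  have := m_haar
  let c1 : E2 := !₂[8 / 13, 0]
  let c2 : E2 := !₂[0, 8 / 13]
  let C : Set E2 := (5 / 13 : ℝ) • T
  have hC : ∀ v, v ∈ C ↔ 0 < v 0 ∧ 0 < v 1 ∧ v 0 + v 1 < 5 / 13 := by
    intro v
    rw [mem_smul_set_iff_inv_smul_mem₀ (by norm_num)]
    simp only [T, mem_ofPred_eq, PiLp.smul_apply, smul_eq_mul]
    constructor
    · rintro ⟨a, b, c⟩
      refine ⟨by linarith, by linarith, by linarith⟩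
    · rintro ⟨a, b, c⟩
      refine ⟨by linarith, by linarith, by linarith⟩
  let C1 : Set E2 := (fun v => v + (-c1)) ⁻¹' C
  let C2 : Set E2 := (fun v => v + (-c2)) ⁻¹' C
  have hC1 : ∀ v, v ∈ C1 ↔ 8 / 13 < v 0 ∧ 0 < v 1 ∧ v 0 + v 1 < 1 := by
    intro v
    have k0 : c1 0 = 8 / 13 := by simp [c1]
    have k1 : c1 1 = 0 := by simp [c1]
    simp only [C1, mem_preimage, hC, PiLp.add_apply, PiLp.neg_apply, k0, k1]
    constructor
    · rintro ⟨a, b, c⟩
      refine ⟨by linarith, by linarith, by linarith⟩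
    · rintro ⟨a, b, c⟩
      refine ⟨by linarith, by linarith, by linarith⟩
  have hC2 : ∀ v, v ∈ C2 ↔ 0 < v 0 ∧ 8 / 13 < v 1 ∧ v 0 + v 1 < 1 := by
    intro v
    have k0 : c2 0 = 0 := by simp [c2]
    have k1 : c2 1 = 8 / 13 := by simp [c2]
    simp only [C2, mem_preimage, hC, PiLp.add_apply, PiLp.neg_apply, k0, k1]
    constructor
    · rintro ⟨a, b, c⟩
      refine ⟨by linarith, by linarith, by linarith⟩
    · rintro ⟨a, b, c⟩
      refine ⟨by linarith, by linarith, by linarith⟩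
  have hmC : MeasurableSet C := (T_open.smul₀ (by norm_num)).measurableSet
  have hmC1 : MeasurableSet C1 := (by fun_prop : Measurable fun v : E2 => v + (-c1)) hmC
  have hmC2 : MeasurableSet C2 := (by fun_prop : Measurable fun v : E2 => v + (-c2)) hmC
  have e1 : m C1 = m C := measure_preimage_add_right _ _ _
  have e2 : m C2 = m C := measure_preimage_add_right _ _ _
  have e0 : m C = ENNReal.ofReal (25 / 169) * m T := by
    rw [m_smul]; norm_num
  have d1 : Disjoint H C := by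
    rw [Set.disjoint_left]
    intro v hv hv'
    rw [hC] at hv'
    obtain ⟨_, _, _, _, _, h⟩ := hv
    linarith [hv'.2.2]
  have d2 : Disjoint (H ∪ C) C1 := by
    rw [Set.disjoint_left]
    intro v hv hv'
    rw [hC1] at hv'
    rcases hv with hv | hv
    · obtain ⟨_, _, _, h, _, _⟩ := hv
      linarith [hv'.1]
    · rw [hC] at hv
      linarith [hv'.1, hv.2.1, hv.2.2]
  have d3 : Disjoint (H ∪ C ∪ C1) C2 := by
    rw [Set.disjoint_left]
    intro v hv hv'
    rw [hC2] at hv'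
    rcases hv with (hv | hv) | hv
    · obtain ⟨_, _, _, _, h, _⟩ := hv
      linarith [hv'.2.1]
    · rw [hC] at hv
      linarith [hv'.2.1, hv.1, hv.2.2]
    · rw [hC1] at hv
      linarith [hv'.2.1, hv.1, hv.2.2]
  have hsub : H ∪ C ∪ C1 ∪ C2 ⊆ Tc := by
    intro v hv
    rcases hv with ((hv | hv) | hv) | hv
    · obtain ⟨h0, h1, h2, _, _, _⟩ := hv
      exact ⟨h0, h1, h2⟩
    · rw [hC] at hv
      exact ⟨hv.1.le, hv.2.1.le, by linarith [hv.2.2]⟩
    · rw [hC1] at hv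
      exact ⟨by linarith [hv.1], hv.2.1.le, by linarith [hv.2.2]⟩
    · rw [hC2] at hv
      exact ⟨hv.1.le, by linarith [hv.2.1], by linarith [hv.2.2]⟩
  calc m H + 3 * (ENNReal.ofReal (25 / 169) * m T) = m H + m C + m C1 + m C2 := by
        rw [e1, e2, e0]; ring
    _ = m (H ∪ C ∪ C1 ∪ C2) := by
        rw [measure_union d3 hmC2, measure_union d2 hmC1, measure_union d1 hmC]
    _ ≤ m Tc := measure_mono hsub
    _ ≤ m T := m_Tc

/-- The square piece. -/
def Q : Set E2 := {v | |v 0| + |v 1| ≤ 5}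

theorem m_Q : m Q ≤ 100 * m T := by
  have := m_haar
  let C : Set E2 := (5 : ℝ) • Tc
  have hC : ∀ v, v ∈ C ↔ 0 ≤ v 0 ∧ 0 ≤ v 1 ∧ v 0 + v 1 ≤ 5 := by
    intro v
    rw [mem_smul_set_iff_inv_smul_mem₀ (by norm_num)]
    simp only [Tc, mem_ofPred_eq, PiLp.smul_apply, smul_eq_mul]
    constructor
    · rintro ⟨a, b, c⟩
      refine ⟨by linarith, by linarith, by linarith⟩
    · rintro ⟨a, b, c⟩
      refine ⟨by linarith, by linarith, by linarith⟩
  let f : ℝ → ℝ → E2 → E2 := fun a b v => !₂[a * v 0, b * v 1]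
  have hf : ∀ a b : ℝ, a ^ 2 = 1 → b ^ 2 = 1 → Isometry (f a b) := by
    intro a b ha hb
    refine Isometry.of_dist_eq fun v w => ?_
    rw [EuclideanSpace.dist_eq, EuclideanSpace.dist_eq, Fin.sum_univ_two, Fin.sum_univ_two]
    congr 1
    simp only [f, Real.dist_eq, sq_abs]
    simp [← mul_sub, mul_pow, ha, hb]
  have hmf : ∀ a b : ℝ, a ^ 2 = 1 → b ^ 2 = 1 → m (f a b '' C) = m C := by
    intro a b ha hb
    exact (hf a b ha hb).hausdorffMeasure_image (Or.inl (by norm_num)) C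
  have e0 : m C ≤ 25 * m T := by
    rw [m_smul]
    have : ENNReal.ofReal (5 ^ 2) = 25 := by norm_num
    rw [this]
    gcongr 25 * ?_
    exact m_Tc
  have hcov : Q ⊆ f 1 1 '' C ∪ f 1 (-1) '' C ∪ f (-1) 1 '' C ∪ f (-1) (-1) '' C := by
    intro v hv
    have hv' : |v 0| + |v 1| ≤ 5 := hv
    have hmem : !₂[|v 0|, |v 1|] ∈ C := by
      rw [hC]
      simp
      exact hv'
    rcases le_total 0 (v 0) with h0 | h0 <;> rcases le_total 0 (v 1) with h1 | h1
    · left; left; left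
      refine ⟨_, hmem, ?_⟩
      ext i
      fin_cases i <;> simp [f, abs_of_nonneg h0, abs_of_nonneg h1]
    · left; left; right
      refine ⟨_, hmem, ?_⟩
      ext i
      fin_cases i <;> simp [f, abs_of_nonneg h0, abs_of_nonpos h1]
    · left; right
      refine ⟨_, hmem, ?_⟩
      ext i
      fin_cases i <;> simp [f, abs_of_nonpos h0, abs_of_nonneg h1]
    · right
      refine ⟨_, hmem, ?_⟩
      ext i
      fin_cases i <;> simp [f, abs_of_nonpos h0, abs_of_nonpos h1]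
  calc m Q ≤ m (f 1 1 '' C ∪ f 1 (-1) '' C ∪ f (-1) 1 '' C ∪ f (-1) (-1) '' C) :=
        measure_mono hcov
    _ ≤ m (f 1 1 '' C) + m (f 1 (-1) '' C) + m (f (-1) 1 '' C) + m (f (-1) (-1) '' C) :=
        (measure_union_le _ _).trans (add_le_add_left ((measure_union_le _ _).trans
          (add_le_add_left (measure_union_le _ _) _)) _)
    _ = 4 * m C := by
        rw [hmf 1 1 (by norm_num) (by norm_num), hmf 1 (-1) (by norm_num) (by norm_num),
          hmf (-1) 1 (by norm_num) (by norm_num), hmf (-1) (-1) (by norm_num) (by norm_num)]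
        ring
    _ ≤ 4 * (25 * m T) := by gcongr
    _ = 100 * m T := by rw [← mul_assoc]; norm_num

end Q190.Area
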