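import Mathlib

/-!
# Intersection bodies and the Banach-Mazur distance: definitions
-/

namespace Q190.BM

open MeasureTheory
open scoped Pointwise

variable {V : Type*} [NormedAddCommGroup V] [InnerProductSpace ℝ V] [FiniteDimensional ℝ V]
  [MeasurableSpace V] [BorelSpace V]

/-- Lebesgue measure on a Euclidean space (an orthonormal cube has measure one). -/
noncomputable def lebesgue (H : Type*) [NormedAddCommGroup H] [InnerProductSpace ℝ H]
    [FiniteDimensional ℝ H] [MeasurableSpace H] [BorelSpace H] : Measure H := volume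

/-- The volume of `K ∩ u^⊥` in the hyperplane `u^⊥` (for `u ≠ 0`). -/
noncomputable def sectionVolume (K : Set V) (u : V) : ℝ :=
  (lebesgue (ℝ ∙ u)ᗮ (Subtype.val ⁻¹' K)).toReal

/-- The intersection body: the star body with radial function
`ρ(u) = vol_{n-1}(K ∩ u^⊥)`, `|u| = 1`. -/
noncomputable def intersectionBody (K : Set V) : Set V :=
  {x | x = 0 ∨ ‖x‖ ≤ sectionVolume K (‖x‖⁻¹ • x)}

/-- The Banach-Mazur distance of `L` and `M`. -/
noncomputable def bmDist (L M : Set V) : ℝ :=
  sInf {r : ℝ | 1 ≤ r ∧ ∃ T : V ≃ₗ[ℝ] V, M ⊆ T '' L ∧ T '' L ⊆ r • M}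

end Q190.BM
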