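import Mathlib
import Pool.Agent.Q190.BMDefs

/-!
# A four-dimensional body whose intersection body is further away from the ball
-/

namespace Q190.BM

open MeasureTheory Set
open scoped Pointwise InnerProductSpace ENNReal

/-- Four-dimensional space. -/
abbrev E4 := EuclideanSpace ℝ (Fin 4)
/-- Three-dimensional space. -/
abbrev E3 := EuclideanSpace ℝ (Fin 3)

theorem norm_sq_E4 (x : E4) : ‖x‖ ^ 2 = x 0 ^ 2 + x 1 ^ 2 + x 2 ^ 2 + x 3 ^ 2 := by
  rw [EuclideanSpace.real_norm_sq_eq, Fin.sum_univ_four]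

theorem norm_sq_E3 (x : E3) : ‖x‖ ^ 2 = x 0 ^ 2 + x 1 ^ 2 + x 2 ^ 2 := by
  rw [EuclideanSpace.real_norm_sq_eq, Fin.sum_univ_three]

theorem inner_E4 (x y : E4) : ⟪x, y⟫_ℝ = x 0 * y 0 + x 1 * y 1 + x 2 * y 2 + x 3 * y 3 := by
  rw [PiLp.inner_apply, Fin.sum_univ_four]
  simp only [RCLike.inner_apply, conj_trivial]
  ring

theorem inner_E3 (x y : E3) : ⟪x, y⟫_ℝ = x 0 * y 0 + x 1 * y 1 + x 2 * y 2 := by
  rw [PiLp.inner_apply, Fin.sum_univ_three]
  simp only [RCLike.inner_apply, conj_trivial]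
  ring

/-- The body: the unit ball truncated by a cylinder. -/
def K : Set E4 := {x | ‖x‖ ^ 2 ≤ 1 ∧ x 1 ^ 2 + x 2 ^ 2 + x 3 ^ 2 ≤ 15 / 16}

/-- Parametrisation of the hyperplane orthogonal to `(c, s, 0, 0)`. -/
noncomputable def iota (c s : ℝ) : E3 →ₗ[ℝ] E4 where
  toFun x := !₂[-s * x 0, c * x 0, x 1, x 2]
  map_add' x y := by
    ext i; fin_cases i <;> simp [mul_add]
  map_smul' r x := by
    ext i; fin_cases i <;> simp [mul_left_comm]

/-- The isometry. -/
noncomputable def iotaI (c s : ℝ) (h : c ^ 2 + s ^ 2 = 1) : E3 →ₗᵢ[ℝ] E4 where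
  toLinearMap := iota c s
  norm_map' x := by
    rw [← sq_eq_sq₀ (norm_nonneg _) (norm_nonneg _), norm_sq_E4, norm_sq_E3]
    simp only [iota, LinearMap.coe_mk, AddHom.coe_mk]
    simp
    linear_combination (x 0 ^ 2) * h

/-- The vector `(c, s, 0, 0)`. -/
noncomputable def uu (c s : ℝ) : E4 := !₂[c, s, 0, 0]

theorem norm_uu (c s : ℝ) (h : c ^ 2 + s ^ 2 = 1) : ‖uu c s‖ = 1 := by
  rw [← sq_eq_sq₀ (norm_nonneg _) (by norm_num), norm_sq_E4]
  simp [uu, h]

theorem finrank_orth {u : E4} (hu : u ≠ 0) : Module.finrank ℝ (ℝ ∙ u)ᗮ = 3 := by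
  have h1 := Submodule.finrank_add_finrank_orthogonal (ℝ ∙ u)
  rw [finrank_span_singleton hu, finrank_euclideanSpace_fin] at h1
  omega

theorem section_eq (S : Set E4) {u : E4} (hu : u ≠ 0) (ι : E3 →ₗᵢ[ℝ] E4)
    (hι : ∀ x, ⟪u, ι x⟫_ℝ = 0) : sectionVolume S u = (volume (ι ⁻¹' S)).toReal := by
  have hmem : ∀ x, ι x ∈ (ℝ ∙ u)ᗮ := fun x => Submodule.mem_orthogonal_singleton_iff_inner_right.2
    (hι x)
  let j : E3 →ₗᵢ[ℝ] (ℝ ∙ u)ᗮ :=
    { toLinearMap := ι.toLinearMap.codRestrict _ hmem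
      norm_map' := fun x => ι.norm_map x }
  have hfin : Module.finrank ℝ E3 = Module.finrank ℝ (ℝ ∙ u)ᗮ := by
    rw [finrank_orth hu, finrank_euclideanSpace_fin]
  let ψ := j.toLinearIsometryEquiv hfin
  have hψ : ∀ x, ((ψ x : (ℝ ∙ u)ᗮ) : E4) = ι x := fun x => rfl
  have hpre : ι ⁻¹' S = ψ ⁻¹' (Subtype.val ⁻¹' S) := rfl
  have hmp : MeasurePreserving ψ (volume : Measure E3) (volume : Measure (ℝ ∙ u)ᗮ) :=
    ψ.measurePreserving
  rw [sectionVolume, lebesgue, hpre]
  congr 1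
  have he : MeasurableEmbedding ψ := ψ.toHomeomorph.measurableEmbedding
  exact (hmp.measure_preimage_emb he _).symm

/-- The section in coordinates. -/
def Sec (k : ℝ) : Set (Fin 3 → ℝ) :=
  {x | x 0 ^ 2 + (x 1 ^ 2 + x 2 ^ 2) ≤ 1 ∧ k * x 0 ^ 2 + (x 1 ^ 2 + x 2 ^ 2) ≤ 15 / 16}

theorem Sec_closed (k : ℝ) : IsClosed (Sec k) := by
  have c1 : Continuous fun x : Fin 3 → ℝ => x 0 ^ 2 + (x 1 ^ 2 + x 2 ^ 2) := by fun_prop
  have c2 : Continuous fun x : Fin 3 → ℝ => k * x 0 ^ 2 + (x 1 ^ 2 + x 2 ^ 2) := by fun_prop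
  exact (isClosed_le c1 continuous_const).inter (isClosed_le c2 continuous_const)

theorem section_K (c s : ℝ) (h : c ^ 2 + s ^ 2 = 1) :
    sectionVolume K (uu c s) = (volume (Sec (c ^ 2))).toReal := by
  have hu : uu c s ≠ 0 := by
    intro h0
    have := norm_uu c s h
    rw [h0, norm_zero] at this
    norm_num at this
  rw [section_eq K hu (iotaI c s h)]
  · congr 1
    rw [← (PiLp.volume_preserving_ofLp (Fin 3)).measure_preimage]
    · congr 1
      ext x
      simp only [K, Sec, mem_preimage, mem_ofPred_eq, LinearIsometry.norm_map, norm_sq_E3]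
      have e1 : iotaI c s h x 1 = c * x 0 := rfl
      have e2 : iotaI c s h x 2 = x 1 := rfl
      have e3 : iotaI c s h x 3 = x 2 := rfl
      rw [e1, e2, e3, mul_pow, add_assoc, add_assoc]
    · exact (Sec_closed _).measurableSet.nullMeasurableSet
  · intro x
    rw [inner_E4]
    have e0 : iotaI c s h x 0 = -s * x 0 := rfl
    have e1 : iotaI c s h x 1 = c * x 0 := rfl
    rw [e0, e1]
    simp [uu]
    ring

theorem vol_disc (r : ℝ) : volume {z : Fin 2 → ℝ | z 0 ^ 2 + z 1 ^ 2 ≤ r} =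
    ENNReal.ofReal (Real.pi * r) := by
  rcases lt_or_ge r 0 with hr | hr
  · have h : {z : Fin 2 → ℝ | z 0 ^ 2 + z 1 ^ 2 ≤ r} = ∅ := by
      ext z
      simp only [mem_ofPred_eq, mem_empty_iff_false, iff_false, not_le]
      nlinarith [sq_nonneg (z 0), sq_nonneg (z 1)]
    rw [h, measure_empty, ENNReal.ofReal_of_nonpos]
    nlinarith [Real.pi_pos]
  · have h : (WithLp.ofLp : EuclideanSpace ℝ (Fin 2) → (Fin 2 → ℝ)) ⁻¹'
        {z : Fin 2 → ℝ | z 0 ^ 2 + z 1 ^ 2 ≤ r} = Metric.closedBall 0 (Real.sqrt r) := by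
      ext z
      rw [mem_closedBall_zero_iff, EuclideanSpace.norm_eq, Fin.sum_univ_two]
      simp only [mem_preimage, mem_ofPred_eq, Real.norm_eq_abs, sq_abs]
      rw [Real.sqrt_le_sqrt_iff hr]
    have hm : MeasurableSet {z : Fin 2 → ℝ | z 0 ^ 2 + z 1 ^ 2 ≤ r} :=
      measurableSet_le (by fun_prop) measurable_const
    rw [← (PiLp.volume_preserving_ofLp (Fin 2)).measure_preimage hm.nullMeasurableSet, h,
      EuclideanSpace.volume_closedBall_fin_two, ← ENNReal.ofReal_pow (Real.sqrt_nonneg r),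
      Real.sq_sqrt hr, mul_comm, ← ENNReal.ofReal_mul Real.pi_pos.le]

theorem vol_Sec (k : ℝ) : volume (Sec k) =
    ∫⁻ w : ℝ, ENNReal.ofReal (Real.pi * min (1 - w ^ 2) (15 / 16 - k * w ^ 2)) := by
  have hmp := volume_preserving_piFinSuccAbove (fun _ : Fin 3 => ℝ) 0
  let S : Set (ℝ × (Fin 2 → ℝ)) :=
    {p | p.1 ^ 2 + (p.2 0 ^ 2 + p.2 1 ^ 2) ≤ 1 ∧ k * p.1 ^ 2 + (p.2 0 ^ 2 + p.2 1 ^ 2) ≤ 15 / 16}
  have hS : MeasurableSet S := by
    have c1 : Continuous fun p : ℝ × (Fin 2 → ℝ) => p.1 ^ 2 + (p.2 0 ^ 2 + p.2 1 ^ 2) := by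
      fun_prop
    have c2 : Continuous fun p : ℝ × (Fin 2 → ℝ) => k * p.1 ^ 2 + (p.2 0 ^ 2 + p.2 1 ^ 2) := by
      fun_prop
    exact ((isClosed_le c1 continuous_const).inter (isClosed_le c2 continuous_const)).measurableSet
  have hpre : Sec k = MeasurableEquiv.piFinSuccAbove (fun _ : Fin 3 => ℝ) 0 ⁻¹' S := by
    ext x
    rfl
  rw [hpre, hmp.measure_preimage hS.nullMeasurableSet, Measure.volume_eq_prod,
    Measure.prod_apply hS]
  refine lintegral_congr fun w => ?_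
  rw [← vol_disc]
  congr 1
  ext z
  simp only [S, mem_preimage, mem_ofPred_eq, le_min_iff]
  constructor
  · rintro ⟨h1, h2⟩
    exact ⟨by linarith, by linarith⟩
  · rintro ⟨h1, h2⟩
    exact ⟨by linarith, by linarith⟩

/-- Integral of the positive part of a continuous function. -/
theorem lint_eq (f : ℝ → ℝ) (hf : Continuous f) (b : ℝ) (hb : 0 ≤ b)
    (h1 : ∀ w, |w| ≤ b → 0 ≤ f w) (h2 : ∀ w, b < |w| → f w ≤ 0) :
    ∫⁻ w : ℝ, ENNReal.ofReal (f w) = ENNReal.ofReal (∫ w in (-b)..b, f w) := by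
  have hbb : -b ≤ b := by linarith
  rw [intervalIntegral.integral_of_le hbb,
    ofReal_integral_eq_lintegral_ofReal (hf.integrableOn_Ioc) ?_]
  · rw [← lintegral_indicator measurableSet_Ioc]
    apply lintegral_congr_ae
    have : ∀ᵐ w : ℝ, w ≠ -b := Measure.ae_ne volume (-b)
    filter_upwards [this] with w hw
    by_cases hI : w ∈ Ioc (-b) b
    · rw [indicator_of_mem hI]
    · rw [indicator_of_notMem hI, ENNReal.ofReal_of_nonpos]
      apply h2
      by_contra hc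
      push Not at hc
      apply hI
      have := abs_le.1 hc
      exact ⟨lt_of_le_of_ne this.1 (Ne.symm hw), this.2⟩
  · rw [Filter.EventuallyLE, ae_restrict_iff' measurableSet_Ioc]
    refine Filter.Eventually.of_forall fun w hw => h1 w (abs_le.2 ⟨hw.1.le, hw.2⟩)

theorem int_min (k a : ℝ) (hk0 : 0 ≤ k) (hk : k < 15 / 16) (ha0 : 0 < a) (ha1 : a < 1)
    (hka : a ^ 2 * (1 - k) = 1 / 16) :
    ∫ w in (-1 : ℝ)..1, Real.pi * min (1 - w ^ 2) (15 / 16 - k * w ^ 2) =
      2 * Real.pi * (15 / 16 * a - k * a ^ 3 / 3 + (1 - a) - (1 - a ^ 3) / 3) := by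
  have hc : Continuous fun w : ℝ => Real.pi * min (1 - w ^ 2) (15 / 16 - k * w ^ 2) := by fun_prop
  have hI : ∀ x y : ℝ, IntervalIntegrable
      (fun w : ℝ => Real.pi * min (1 - w ^ 2) (15 / 16 - k * w ^ 2)) volume x y :=
    fun x y => hc.intervalIntegrable x y
  rw [← intervalIntegral.integral_add_adjacent_intervals (hI (-1) (-a)) (hI (-a) 1),
    ← intervalIntegral.integral_add_adjacent_intervals (hI (-a) a) (hI a 1)]
  have e1 : ∫ w in (-1 : ℝ)..(-a), Real.pi * min (1 - w ^ 2) (15 / 16 - k * w ^ 2) =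
      ∫ w in (-1 : ℝ)..(-a), Real.pi * (1 - w ^ 2) := by
    refine intervalIntegral.integral_congr fun w hw => ?_
    rw [uIcc_of_le (by linarith)] at hw
    rw [min_eq_left]
    have : a ^ 2 ≤ w ^ 2 := by nlinarith [hw.1, hw.2]
    nlinarith
  have e3 : ∫ w in a..(1 : ℝ), Real.pi * min (1 - w ^ 2) (15 / 16 - k * w ^ 2) =
      ∫ w in a..(1 : ℝ), Real.pi * (1 - w ^ 2) := by
    refine intervalIntegral.integral_congr fun w hw => ?_
    rw [uIcc_of_le (by linarith)] at hw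
    rw [min_eq_left]
    have : a ^ 2 ≤ w ^ 2 := by nlinarith [hw.1, hw.2]
    nlinarith
  have e2 : ∫ w in (-a)..a, Real.pi * min (1 - w ^ 2) (15 / 16 - k * w ^ 2) =
      ∫ w in (-a)..a, Real.pi * (15 / 16 - k * w ^ 2) := by
    refine intervalIntegral.integral_congr fun w hw => ?_
    rw [uIcc_of_le (by linarith)] at hw
    rw [min_eq_right]
    have : w ^ 2 ≤ a ^ 2 := by nlinarith [hw.1, hw.2]
    nlinarith
  rw [e1, e2, e3]
  have i1 : ∀ x y : ℝ, ∫ w in x..y, Real.pi * (1 - w ^ 2) =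
      Real.pi * ((y - x) - (y ^ 3 - x ^ 3) / 3) := by
    intro x y
    rw [intervalIntegral.integral_const_mul, intervalIntegral.integral_sub
      (by simp) ((continuous_pow 2).intervalIntegrable _ _), integral_pow]
    simp
    ring
  have i2 : ∀ x y : ℝ, ∫ w in x..y, Real.pi * (15 / 16 - k * w ^ 2) =
      Real.pi * (15 / 16 * (y - x) - k * (y ^ 3 - x ^ 3) / 3) := by
    intro x y
    rw [intervalIntegral.integral_const_mul, intervalIntegral.integral_sub
      (by simp) ((by fun_prop : Continuous fun w : ℝ => k * w ^ 2).intervalIntegrable _ _),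
      intervalIntegral.integral_const_mul, integral_pow]
    simp
    ring
  rw [i1, i1, i2]
  ring

theorem vol_Sec_lt (k a : ℝ) (hk0 : 0 ≤ k) (hk : k < 15 / 16) (ha0 : 0 < a) (ha1 : a < 1)
    (hka : a ^ 2 * (1 - k) = 1 / 16) : (volume (Sec k)).toReal =
      2 * Real.pi * (15 / 16 * a - k * a ^ 3 / 3 + (1 - a) - (1 - a ^ 3) / 3) := by
  rw [vol_Sec, lint_eq _ (by fun_prop) 1 (by norm_num), int_min k a hk0 hk ha0 ha1 hka,
    ENNReal.toReal_ofReal]
  · have h1 : 0 < Real.pi := Real.pi_pos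
    have h2 : a ^ 3 < 1 := by nlinarith [sq_nonneg a, mul_pos ha0 ha0]
    have h3 : 0 < a ^ 3 := by positivity
    have h4 : a ^ 3 < a := by nlinarith [mul_pos ha0 ha0]
    have : 0 ≤ 15 / 16 * a - k * a ^ 3 / 3 + (1 - a) - (1 - a ^ 3) / 3 := by nlinarith
    positivity
  · intro w hw
    have hw2 : w ^ 2 ≤ 1 := by rw [← sq_abs]; nlinarith [abs_nonneg w]
    refine mul_nonneg Real.pi_pos.le (le_min (by linarith) ?_)
    nlinarith [sq_nonneg w]
  · intro w hw
    have hw2 : 1 < w ^ 2 := by rw [← sq_abs]; nlinarith [abs_nonneg w]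
    refine mul_nonpos_of_nonneg_of_nonpos Real.pi_pos.le ((min_le_left _ _).trans (by linarith))

theorem vol_Sec_one : (volume (Sec 1)).toReal =
      4 / 3 * Real.pi * (Real.sqrt 15 / 4) ^ 3 := by
  have h15 : Real.sqrt 15 ^ 2 = 15 := Real.sq_sqrt (by norm_num)
  have hpos : 0 < Real.sqrt 15 := by positivity
  have hmin : ∀ w : ℝ, min (1 - w ^ 2) (15 / 16 - 1 * w ^ 2) = 15 / 16 - w ^ 2 := by
    intro w
    rw [one_mul]
    exact min_eq_right (by linarith)
  rw [vol_Sec]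
  simp only [hmin]
  rw [lint_eq _ (by fun_prop) (Real.sqrt 15 / 4) (by positivity),
    intervalIntegral.integral_const_mul, intervalIntegral.integral_sub
      (by simp) ((continuous_pow 2).intervalIntegrable _ _), integral_pow]
  · simp
    rw [ENNReal.toReal_ofReal]
    · have h3 : Real.sqrt 15 ^ 3 = 15 * Real.sqrt 15 := by rw [pow_succ, h15]
      ring_nf
      rw [h3]
      ring
    · have h3 : Real.sqrt 15 ^ 3 = 15 * Real.sqrt 15 := by rw [pow_succ, h15]
      ring_nf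
      rw [h3]
      have : 0 < Real.pi * Real.sqrt 15 := by positivity
      linarith
  · intro w hw
    have hw2 : w ^ 2 ≤ 15 / 16 := by
      rw [← sq_abs]
      have := pow_le_pow_left₀ (abs_nonneg w) hw 2
      rw [div_pow, h15] at this
      linarith
    exact mul_nonneg Real.pi_pos.le (by linarith)
  · intro w hw
    have hw2 : 15 / 16 ≤ w ^ 2 := by
      rw [← sq_abs]
      have := pow_le_pow_left₀ (by positivity) hw.le 2
      rw [div_pow, h15] at this
      linarith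
    exact mul_nonpos_of_nonneg_of_nonpos Real.pi_pos.le (by linarith)

theorem V0 : sectionVolume K (uu 1 0) = 4 / 3 * Real.pi * (Real.sqrt 15 / 4) ^ 3 := by
  rw [section_K 1 0 (by norm_num), one_pow, vol_Sec_one]

theorem V1 : sectionVolume K (uu 0 1) = Real.pi * (21 / 16) := by
  rw [section_K 0 1 (by norm_num),
    vol_Sec_lt (0 ^ 2) (1 / 4) (by norm_num) (by norm_num) (by norm_num) (by norm_num)
      (by norm_num)]
  ring

theorem Vp : sectionVolume K (uu (4 / 5) (3 / 5)) = Real.pi * (187 / 144) := by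
  rw [section_K (4 / 5) (3 / 5) (by norm_num),
    vol_Sec_lt ((4 / 5) ^ 2) (5 / 12) (by norm_num) (by norm_num) (by norm_num) (by norm_num)
      (by norm_num)]
  ring

theorem Vm : sectionVolume K (uu (4 / 5) (-(3 / 5))) = Real.pi * (187 / 144) := by
  rw [section_K (4 / 5) (-(3 / 5)) (by norm_num),
    vol_Sec_lt ((4 / 5) ^ 2) (5 / 12) (by norm_num) (by norm_num) (by norm_num) (by norm_num)
      (by norm_num)]
  ring

end Q190.BM
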