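import Mathlib
import Pool.Agent.Q190.BM4

/-!
# The Banach-Mazur distances
-/

namespace Q190.BM

open MeasureTheory Set
open scoped Pointwise InnerProductSpace ENNReal

/-- The Euclidean unit ball. -/
abbrev B : Set E4 := Metric.closedBall 0 1

theorem ball_sub_K : Metric.closedBall (0 : E4) (Real.sqrt 15 / 4) ⊆ K := by
  intro x hx
  rw [mem_closedBall_zero_iff] at hx
  have h15 : Real.sqrt 15 ^ 2 = 15 := Real.sq_sqrt (by norm_num)
  have h1 : ‖x‖ ^ 2 ≤ 15 / 16 := by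
    have := pow_le_pow_left₀ (norm_nonneg x) hx 2
    rw [div_pow, h15] at this
    linarith
  refine ⟨by linarith, ?_⟩
  rw [norm_sq_E4] at h1
  nlinarith [sq_nonneg (x 0)]

theorem K_sub_ball : K ⊆ Metric.closedBall (0 : E4) 1 := by
  intro x hx
  rw [mem_closedBall_zero_iff]
  have := hx.1
  nlinarith [norm_nonneg x]

/-- Scaling as a linear equivalence. -/
noncomputable def scal (a : ℝ) (ha : a ≠ 0) : E4 ≃ₗ[ℝ] E4 := LinearEquiv.smulOfNeZero ℝ E4 a ha

theorem scal_apply (a : ℝ) (ha : a ≠ 0) (x : E4) : scal a ha x = a • x := rfl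

theorem bm_K : bmDist K B ≤ 4 / Real.sqrt 15 := by
  have h15 : Real.sqrt 15 ^ 2 = 15 := Real.sq_sqrt (by norm_num)
  have hpos : 0 < Real.sqrt 15 := by positivity
  have hle : Real.sqrt 15 ≤ 4 := by
    rw [Real.sqrt_le_left (by norm_num)]; norm_num
  refine csInf_le ⟨1, fun r hr => hr.1⟩ ⟨?_, scal (4 / Real.sqrt 15) (by positivity), ?_, ?_⟩
  · rw [le_div_iff₀ hpos]; linarith
  · intro y hy
    rw [mem_closedBall_zero_iff] at hy
    refine ⟨(Real.sqrt 15 / 4) • y, ball_sub_K ?_, ?_⟩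
    · rw [mem_closedBall_zero_iff, norm_smul, Real.norm_of_nonneg (by positivity)]
      nlinarith
    · rw [scal_apply, smul_smul]
      have : 4 / Real.sqrt 15 * (Real.sqrt 15 / 4) = 1 := by field_simp
      rw [this, one_smul]
  · rintro _ ⟨x, hx, rfl⟩
    exact ⟨x, K_sub_ball hx, rfl⟩

/-- The constant in the volume of three-dimensional balls. -/
noncomputable def C3 : ℝ := Real.sqrt Real.pi ^ 3 / Real.Gamma (3 / 2 + 1)

theorem C3_pos : 0 < C3 := by
  have : 0 < Real.Gamma (3 / 2 + 1) := Real.Gamma_pos_of_pos (by norm_num)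
  have := Real.pi_pos
  unfold C3
  positivity

theorem vol_ball {u : E4} (hu : u ≠ 0) {r : ℝ} (hr : 0 ≤ r) :
    (lebesgue (ℝ ∙ u)ᗮ (Subtype.val ⁻¹' Metric.closedBall (0 : E4) r)) =
      ENNReal.ofReal (r ^ 3 * C3) := by
  have h1 : (Subtype.val ⁻¹' Metric.closedBall (0 : E4) r : Set (ℝ ∙ u)ᗮ) =
      Metric.closedBall 0 r := by
    ext x
    simp
  have hn : Nontrivial (ℝ ∙ u)ᗮ := Module.nontrivial_of_finrank_pos (R := ℝ)
    (by rw [finrank_orth hu]; norm_num)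
  rw [lebesgue, h1, InnerProductSpace.volume_closedBall, finrank_orth hu,
    ← ENNReal.ofReal_pow hr, ← ENNReal.ofReal_mul (by positivity), C3]
  norm_num

theorem sec_lower {u : E4} (hu : u ≠ 0) : (Real.sqrt 15 / 4) ^ 3 * C3 ≤ sectionVolume K u := by
  have h := measure_mono (μ := lebesgue (ℝ ∙ u)ᗮ)
    (preimage_mono (f := (Subtype.val : (ℝ ∙ u)ᗮ → E4)) ball_sub_K)
  have h' := measure_mono (μ := lebesgue (ℝ ∙ u)ᗮ)
    (preimage_mono (f := (Subtype.val : (ℝ ∙ u)ᗮ → E4)) K_sub_ball)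
  rw [vol_ball hu (by positivity)] at h
  rw [vol_ball hu (by positivity)] at h'
  have hC := C3_pos
  have := ENNReal.toReal_mono (ne_top_of_le_ne_top ENNReal.ofReal_ne_top h') h
  rwa [ENNReal.toReal_ofReal (by positivity)] at this

theorem sec_upper {u : E4} (hu : u ≠ 0) : sectionVolume K u ≤ C3 := by
  have h' := measure_mono (μ := lebesgue (ℝ ∙ u)ᗮ)
    (preimage_mono (f := (Subtype.val : (ℝ ∙ u)ᗮ → E4)) K_sub_ball)
  rw [vol_ball hu (by positivity)] at h'
  have hC := C3_pos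
  have := ENNReal.toReal_mono ENNReal.ofReal_ne_top h'
  rw [ENNReal.toReal_ofReal (by positivity)] at this
  calc sectionVolume K u ≤ _ := this
    _ = C3 := by ring

theorem unit_ne {x : E4} (hx : x ≠ 0) : ‖x‖⁻¹ • x ≠ 0 :=
  smul_ne_zero (inv_ne_zero (norm_ne_zero_iff.2 hx)) hx

theorem IK_nonempty : {r : ℝ | 1 ≤ r ∧ ∃ T : E4 ≃ₗ[ℝ] E4, B ⊆ T '' intersectionBody K ∧
    T '' intersectionBody K ⊆ r • B}.Nonempty := by
  obtain ⟨m, hm⟩ : ∃ m, m = (Real.sqrt 15 / 4) ^ 3 * C3 := ⟨_, rfl⟩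
  have hC := C3_pos
  have hm0 : 0 < m := by rw [hm]; positivity
  have hmM : m ≤ C3 := by
    have hu : uu 1 0 ≠ 0 := by
      intro h0
      have := norm_uu 1 0 (by norm_num)
      rw [h0, norm_zero] at this
      norm_num at this
    rw [hm]
    exact (sec_lower hu).trans (sec_upper hu)
  refine ⟨C3 / m, ?_, scal m⁻¹ (by positivity), ?_, ?_⟩
  · rw [le_div_iff₀ hm0]; linarith
  · intro y hy
    rw [mem_closedBall_zero_iff] at hy
    refine ⟨m • y, ?_, ?_⟩
    · rcases eq_or_ne (m • y) 0 with h0 | h0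
      · exact Or.inl h0
      · right
        refine le_trans ?_ (le_trans hm.le (sec_lower (unit_ne h0)))
        rw [norm_smul, Real.norm_of_nonneg hm0.le]
        nlinarith
    · rw [scal_apply, smul_smul, inv_mul_cancel₀ hm0.ne', one_smul]
  · rintro _ ⟨x, hx, rfl⟩
    refine ⟨C3⁻¹ • x, ?_, ?_⟩
    · rw [mem_closedBall_zero_iff, norm_smul, norm_inv, Real.norm_of_nonneg hC.le,
        inv_mul_le_iff₀ hC, mul_one]
      rcases hx with h0 | h0
      · rw [h0, norm_zero]; exact hC.le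
      · rcases eq_or_ne x 0 with h1 | h1
        · rw [h1, norm_zero]; exact hC.le
        · exact h0.trans (sec_upper (unit_ne h1))
    · change (C3 / m) • C3⁻¹ • x = scal m⁻¹ _ x
      rw [scal_apply, smul_smul]
      congr 1
      field_simp

/-- The unit vector `(c, s, 0, 0)` scaled to the boundary of the intersection body. -/
theorem bounds {r : ℝ} {T : E4 ≃ₗ[ℝ] E4} (h1 : B ⊆ T '' intersectionBody K)
    (h2 : T '' intersectionBody K ⊆ r • B) (hr : 1 ≤ r) {u : E4} (hu : ‖u‖ = 1) :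
    1 ≤ sectionVolume K u * ‖T u‖ ∧ sectionVolume K u * ‖T u‖ ≤ r := by
  have hu0 : u ≠ 0 := by rintro rfl; simp at hu
  have hsec : 0 < sectionVolume K u := by
    have := sec_lower hu0
    have hC := C3_pos
    have : 0 < (Real.sqrt 15 / 4) ^ 3 * C3 := by positivity
    linarith
  have hTu : 0 < ‖T u‖ := norm_pos_iff.2 ((LinearEquiv.map_ne_zero_iff T).2 hu0)
  constructor
  · -- ‖T u‖⁻¹ • u lies in the intersection body
    have hy : ‖T u‖⁻¹ • T u ∈ B := by
      rw [mem_closedBall_zero_iff, norm_smul, norm_inv, norm_norm, inv_mul_cancel₀ hTu.ne']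
    obtain ⟨x, hx, hxy⟩ := h1 hy
    have hxu : x = ‖T u‖⁻¹ • u := by
      apply T.injective
      rw [hxy, map_smul]
    rcases hx with h0 | h0
    · exfalso
      rw [hxu] at h0
      exact smul_ne_zero (inv_ne_zero hTu.ne') hu0 h0
    · rw [hxu, norm_smul, hu, norm_inv, norm_norm, mul_one, inv_inv, smul_smul,
        mul_inv_cancel₀ hTu.ne', one_smul, inv_le_iff_one_le_mul₀ hTu] at h0
      exact h0
  · have hx : sectionVolume K u • u ∈ intersectionBody K := by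
      right
      rw [norm_smul, hu, Real.norm_of_nonneg hsec.le, mul_one, smul_smul,
        inv_mul_cancel₀ hsec.ne', one_smul]
    obtain ⟨b, hb, hbe⟩ := h2 ⟨_, hx, rfl⟩
    rw [mem_closedBall_zero_iff] at hb
    have := congrArg norm hbe
    simp only [norm_smul, map_smul] at this
    rw [Real.norm_of_nonneg (by linarith), Real.norm_of_nonneg hsec.le] at this
    rw [← this]
    nlinarith

theorem bm_IK_lower {r : ℝ} (hr : r ∈ {r : ℝ | 1 ≤ r ∧ ∃ T : E4 ≃ₗ[ℝ] E4,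
    B ⊆ T '' intersectionBody K ∧ T '' intersectionBody K ⊆ r • B}) : 108 / 100 ≤ r ^ 2 := by
  obtain ⟨hr1, T, h1, h2⟩ := hr
  have b0 := (bounds h1 h2 hr1 (norm_uu 1 0 (by norm_num))).1
  have b1 := (bounds h1 h2 hr1 (norm_uu 0 1 (by norm_num))).1
  have bp := (bounds h1 h2 hr1 (norm_uu (4 / 5) (3 / 5) (by norm_num))).2
  have bm := (bounds h1 h2 hr1 (norm_uu (4 / 5) (-(3 / 5)) (by norm_num))).2
  rw [V0] at b0
  rw [V1] at b1
  rw [Vp] at bp
  rw [Vm] at bm
  have hp : uu (4 / 5) (3 / 5) = (4 / 5 : ℝ) • uu 1 0 + (3 / 5 : ℝ) • uu 0 1 := by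
    ext i; fin_cases i <;> simp [uu]
  have hm : uu (4 / 5) (-(3 / 5)) = (4 / 5 : ℝ) • uu 1 0 - (3 / 5 : ℝ) • uu 0 1 := by
    ext i; fin_cases i <;> simp [uu]
  have par := parallelogram_law_with_norm ℝ (T ((4 / 5 : ℝ) • uu 1 0)) (T ((3 / 5 : ℝ) • uu 0 1))
  rw [← map_add, ← map_sub, ← hp, ← hm, map_smul, map_smul, norm_smul, norm_smul,
    Real.norm_of_nonneg (by norm_num), Real.norm_of_nonneg (by norm_num)] at par
  set a := ‖T (uu 1 0)‖
  set b := ‖T (uu 0 1)‖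
  set p := ‖T (uu (4 / 5) (3 / 5))‖
  set q := ‖T (uu (4 / 5) (-(3 / 5)))‖
  have ha : 0 ≤ a := norm_nonneg _
  have hb : 0 ≤ b := norm_nonneg _
  have hp0 : 0 ≤ p := norm_nonneg _
  have hq0 : 0 ≤ q := norm_nonneg _
  have hπ := Real.pi_pos
  have h15 : Real.sqrt 15 ^ 2 = 15 := Real.sq_sqrt (by norm_num)
  -- scaled quantities
  obtain ⟨A, hA⟩ : ∃ A, A = Real.pi * a := ⟨_, rfl⟩
  obtain ⟨D, hD⟩ : ∃ D, D = Real.pi * b := ⟨_, rfl⟩
  obtain ⟨P, hP⟩ : ∃ P, P = Real.pi * p := ⟨_, rfl⟩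
  obtain ⟨Q, hQ⟩ : ∃ Q, Q = Real.pi * q := ⟨_, rfl⟩
  have par' : P * P + Q * Q = 2 * (16 / 25 * (A * A) + 9 / 25 * (D * D)) := by
    rw [hA, hD, hP, hQ]
    linear_combination (Real.pi ^ 2) * par
  have hA2 : (27 / 32) ^ 3 * 0 + 1 ≤ (4 / 3 * (Real.sqrt 15 / 4) ^ 3 * A) ^ 2 := by
    have : 1 ≤ 4 / 3 * (Real.sqrt 15 / 4) ^ 3 * A := by
      rw [hA]; linarith
    nlinarith
  have e6 : Real.sqrt 15 ^ 6 = 3375 := by
    have : Real.sqrt 15 ^ 6 = (Real.sqrt 15 ^ 2) ^ 3 := by ring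
    rw [this, h15]; norm_num
  have hA3 : 1 ≤ (375 / 256) * (A * A) := by
    have e : (4 / 3 * (Real.sqrt 15 / 4) ^ 3 * A) ^ 2 =
        (16 / 9) * (Real.sqrt 15 ^ 6 / 4096) * (A * A) := by ring
    rw [e, e6] at hA2
    norm_num at hA2
    linarith
  have hD3 : 1 ≤ (441 / 256) * (D * D) := by
    have : 1 ≤ 21 / 16 * D := by rw [hD]; linarith
    nlinarith
  have hP3 : P * P ≤ (144 / 187) ^ 2 * r ^ 2 := by
    have h : 187 / 144 * P ≤ r := by rw [hP]; linarith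
    have h0 : 0 ≤ P := by rw [hP]; positivity
    nlinarith
  have hQ3 : Q * Q ≤ (144 / 187) ^ 2 * r ^ 2 := by
    have h : 187 / 144 * Q ≤ r := by rw [hQ]; linarith
    have h0 : 0 ≤ Q := by rw [hQ]; positivity
    nlinarith
  nlinarith

theorem bm_lt : bmDist K B < bmDist (intersectionBody K) B := by
  have h15 : Real.sqrt 15 ^ 2 = 15 := Real.sq_sqrt (by norm_num)
  have hpos : 0 < Real.sqrt 15 := by positivity
  refine lt_of_le_of_lt bm_K ?_
  have h1 : Real.sqrt (108 / 100) ≤ bmDist (intersectionBody K) B := by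
    refine le_csInf IK_nonempty fun r hr => ?_
    rw [Real.sqrt_le_left (by linarith [hr.1])]
    exact bm_IK_lower hr
  refine lt_of_lt_of_le ?_ h1
  apply Real.lt_sqrt_of_sq_lt
  rw [div_pow, h15]
  norm_num

theorem K_convex : Convex ℝ K := by
  have h1 : Convex ℝ {x : E4 | ‖x‖ ^ 2 ≤ 1} := by
    have : {x : E4 | ‖x‖ ^ 2 ≤ 1} = Metric.closedBall 0 1 := by
      ext x
      rw [mem_closedBall_zero_iff]
      simp [sq_le_one_iff₀ (norm_nonneg x)]
    rw [this]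
    exact convex_closedBall 0 1
  have h2 : Convex ℝ {x : E4 | x 1 ^ 2 + x 2 ^ 2 + x 3 ^ 2 ≤ 15 / 16} := by
    intro x hx y hy a b ha hb hab
    have hx' : x 1 ^ 2 + x 2 ^ 2 + x 3 ^ 2 ≤ 15 / 16 := hx
    have hy' : y 1 ^ 2 + y 2 ^ 2 + y 3 ^ 2 ≤ 15 / 16 := hy
    change (a • x + b • y) 1 ^ 2 + (a • x + b • y) 2 ^ 2 + (a • x + b • y) 3 ^ 2 ≤ 15 / 16
    simp only [PiLp.add_apply, PiLp.smul_apply, smul_eq_mul]
    have hb' : b = 1 - a := by linarith
    subst hb'
    have hab2 : 0 ≤ a * (1 - a) := mul_nonneg ha hb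
    have e : ∀ s t : ℝ, (a * s + (1 - a) * t) ^ 2 ≤ a * s ^ 2 + (1 - a) * t ^ 2 := by
      intro s t
      nlinarith [mul_nonneg hab2 (sq_nonneg (s - t))]
    have := e (x 1) (y 1)
    have := e (x 2) (y 2)
    have := e (x 3) (y 3)
    nlinarith
  exact h1.inter h2

theorem K_closed : IsClosed K := by
  have c1 : Continuous fun x : E4 => ‖x‖ ^ 2 := by fun_prop
  have c2 : Continuous fun x : E4 => x 1 ^ 2 + x 2 ^ 2 + x 3 ^ 2 := by fun_prop
  exact (isClosed_le c1 continuous_const).inter (isClosed_le c2 continuous_const)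

theorem K_compact : IsCompact K :=
  (isCompact_closedBall (0 : E4) 1).of_isClosed_subset K_closed K_sub_ball

theorem K_interior : (interior K).Nonempty := by
  refine ⟨0, interior_mono ball_sub_K ?_⟩
  rw [interior_closedBall _ (by positivity)]
  exact Metric.mem_ball_self (by positivity)

theorem K_neg (x : E4) (hx : x ∈ K) : -x ∈ K := by
  refine ⟨by rw [norm_neg]; exact hx.1, ?_⟩
  simp only [PiLp.neg_apply, neg_sq]
  exact hx.2

end Q190.BM
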