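import Mathlib

/-!
# Definitions: convex bodies, symmetry groups, completely symmetric sets, projections
-/

namespace Q190

open scoped InnerProductSpace
open MeasureTheory

variable {V : Type*} [NormedAddCommGroup V] [InnerProductSpace ℝ V]

/-- A convex body: compact, convex, with nonempty interior. -/
structure IsConvexBody (K : Set V) : Prop where
  compact : IsCompact K
  convex : Convex ℝ K
  nonempty_interior : (interior K).Nonempty

theorem sym_mul {A : Set V} {S T : V ≃ᵃⁱ[ℝ] V} (hS : S '' A = A) (hT : T '' A = A) :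
    (S * T : V ≃ᵃⁱ[ℝ] V) '' A = A := by
  have h1 : (S * T : V ≃ᵃⁱ[ℝ] V) '' A = S '' (T '' A) := by
    rw [Set.image_image]; rfl
  rw [h1, hT, hS]

theorem sym_one (A : Set V) : (1 : V ≃ᵃⁱ[ℝ] V) '' A = A := by simp

theorem sym_inv {A : Set V} {T : V ≃ᵃⁱ[ℝ] V} (hT : T '' A = A) :
    (T⁻¹ : V ≃ᵃⁱ[ℝ] V) '' A = A := by
  conv_lhs => rw [← hT]
  rw [Set.image_image]
  have : ∀ x, (T⁻¹ : V ≃ᵃⁱ[ℝ] V) (T x) = x := fun x => T.symm_apply_apply x
  simp [this]

/-- The symmetry group of a set `A` inside the group of affine isometries. -/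
def Sym (A : Set V) : Subgroup (V ≃ᵃⁱ[ℝ] V) where
  carrier := {T | T '' A = A}
  mul_mem' := sym_mul
  one_mem' := sym_one A
  inv_mem' := sym_inv

/-- Ellipsoid: affine image of the closed unit ball under an affine bijection. -/
def IsEllipsoid (E : Set V) : Prop := ∃ T : V ≃ᵃ[ℝ] V, E = T '' Metric.closedBall 0 1

/-- Euclidean ball of positive radius. -/
def IsBall (E : Set V) : Prop := ∃ (c : V) (r : ℝ), 0 < r ∧ E = Metric.closedBall c r

/-- A group of isometries is complete if every ellipsoid it preserves is a ball. -/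
def Complete (G : Subgroup (V ≃ᵃⁱ[ℝ] V)) : Prop :=
  ∀ E : Set V, IsEllipsoid E → G ≤ Sym E → IsBall E

/-- The centroid of `A` exists and is the origin (with respect to every Haar measure, i.e. to every
normalisation of Lebesgue measure). -/
def CentroidAtOrigin [MeasurableSpace V] (A : Set V) : Prop :=
  ∀ μ : Measure V, μ.IsAddHaarMeasure →
    μ A ≠ 0 ∧ μ A ≠ ⊤ ∧ IntegrableOn (fun x => x) A μ ∧ ∫ x in A, x ∂μ = 0

/-- Completely symmetric sets: centroid at the origin and complete symmetry group. -/
def CompletelySymmetric [MeasurableSpace V] (A : Set V) : Prop :=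
  CentroidAtOrigin A ∧ Complete (Sym A)

/-- The orthogonal projection of `K` onto the subspace `H`, as a subset of `H`. -/
def proj [FiniteDimensional ℝ V] (H : Submodule ℝ V) (K : Set V) : Set H :=
  H.orthogonalProjectionOnto '' K

end Q190
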