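import Mathlib
import Pool.Agent.Q190.CSDefs

/-!
# Convex bodies given by a sublinear function

`W h` is the closed convex set with support function `h` (`h` sublinear).
-/

namespace Q190

open scoped InnerProductSpace
open MeasureTheory

section gen

variable {V : Type*} [NormedAddCommGroup V] [InnerProductSpace ℝ V]

/-- The set of all `y` with `⟪x, y⟫ ≤ h x` for all `x`. -/
def W (h : V → ℝ) : Set V := {y | ∀ x, ⟪x, y⟫_ℝ ≤ h x}

/-- Positively homogeneous and subadditive. -/
structure Sublin (h : V → ℝ) : Prop where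
  hom : ∀ c : ℝ, 0 < c → ∀ x, h (c • x) = c * h x
  add : ∀ x y, h (x + y) ≤ h x + h y

theorem Sublin.zero {h : V → ℝ} (hh : Sublin h) : h 0 = 0 := by
  have := hh.hom 2 (by norm_num) 0
  rw [smul_zero] at this
  linarith

theorem W_closed (h : V → ℝ) : IsClosed (W h) := by
  have : W h = ⋂ x, {y | ⟪x, y⟫_ℝ ≤ h x} := by
    ext y; simp [W]
  rw [this]
  refine isClosed_iInter fun x => ?_
  exact isClosed_le (by fun_prop) continuous_const

theorem W_convex (h : V → ℝ) : Convex ℝ (W h) := by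
  intro y hy z hz a b ha hb hab x
  rw [inner_add_right, inner_smul_right, inner_smul_right]
  have h1 := mul_le_mul_of_nonneg_left (hy x) ha
  have h2 := mul_le_mul_of_nonneg_left (hz x) hb
  calc a * ⟪x, y⟫_ℝ + b * ⟪x, z⟫_ℝ ≤ a * h x + b * h x := add_le_add h1 h2
    _ = h x := by rw [← add_mul, hab, one_mul]

theorem W_subset_ball {h : V → ℝ} {M : ℝ} (hM0 : 0 ≤ M) (hM : ∀ x, h x ≤ M * ‖x‖) :
    W h ⊆ Metric.closedBall 0 M := by
  intro y hy
  rw [mem_closedBall_zero_iff]
  have h1 := hy y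
  rw [real_inner_self_eq_norm_sq] at h1
  have h2 := hM y
  by_contra hc
  push Not at hc
  nlinarith [norm_nonneg y]

theorem ball_subset_W {h : V → ℝ} {m : ℝ} (hm : ∀ x, m * ‖x‖ ≤ h x) :
    Metric.closedBall 0 m ⊆ W h := by
  intro y hy x
  rw [mem_closedBall_zero_iff] at hy
  calc ⟪x, y⟫_ℝ ≤ ‖x‖ * ‖y‖ := real_inner_le_norm x y
    _ ≤ ‖x‖ * m := mul_le_mul_of_nonneg_left hy (norm_nonneg x)
    _ = m * ‖x‖ := mul_comm _ _
    _ ≤ h x := hm x

theorem W_body [FiniteDimensional ℝ V] {h : V → ℝ} {m M : ℝ} (hm0 : 0 < m) (hM0 : 0 ≤ M)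
    (hm : ∀ x, m * ‖x‖ ≤ h x) (hM : ∀ x, h x ≤ M * ‖x‖) : IsConvexBody (W h) where
  compact := (isCompact_closedBall (0 : V) M).of_isClosed_subset (W_closed h)
    (W_subset_ball hM0 hM)
  convex := W_convex h
  nonempty_interior := by
    refine ⟨0, interior_mono (ball_subset_W hm) ?_⟩
    exact interior_mono Metric.ball_subset_closedBall
      (by rw [Metric.isOpen_ball.interior_eq]; exact Metric.mem_ball_self hm0)

/-- Hahn-Banach in the form of projections: the orthogonal projection of `W h` to a subspace `H`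
is `W` of the restriction of `h` to `H`. -/
theorem proj_W [FiniteDimensional ℝ V] {h : V → ℝ} (hh : Sublin h) (H : Submodule ℝ V) :
    H.orthogonalProjectionOnto '' (W h) = W (fun x : H => h (x : V)) := by
  ext y
  constructor
  · rintro ⟨z, hz, rfl⟩ x
    have := hz (x : V)
    have h2 : ⟪x, H.orthogonalProjectionOnto z⟫_ℝ = ⟪(x : V), z⟫_ℝ := by
      rw [real_inner_comm, Submodule.inner_orthogonalProjectionOnto_eq_of_mem_right x z,
        real_inner_comm]
    rw [h2]
    exact this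
  · intro hy
    let f : V →ₗ.[ℝ] ℝ := ⟨H, (innerₗ V (y : V)).comp H.subtype⟩
    obtain ⟨g, hg1, hg2⟩ := exists_extension_of_le_sublinear f h hh.hom hh.add (by
      intro x
      have := hy x
      change ⟪(y : V), (x : V)⟫_ℝ ≤ h x
      rw [real_inner_comm]
      exact this)
    let g' : V →L[ℝ] ℝ := LinearMap.toContinuousLinearMap g
    let z : V := (InnerProductSpace.toDual ℝ V).symm g'
    have hz : ∀ x, ⟪x, z⟫_ℝ = g x := by
      intro x
      rw [real_inner_comm, InnerProductSpace.toDual_symm_apply]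
      rfl
    refine ⟨z, ?_, ?_⟩
    · intro x
      rw [hz]
      exact hg2 x
    · refine ext_inner_left ℝ fun x => ?_
      have h2 : ⟪x, H.orthogonalProjectionOnto z⟫_ℝ = ⟪(x : V), z⟫_ℝ := by
        rw [real_inner_comm, Submodule.inner_orthogonalProjectionOnto_eq_of_mem_right x z,
          real_inner_comm]
      rw [h2, hz]
      have := hg1 ⟨(x : V), x.2⟩
      rw [this]
      change ⟪(y : V), (x : V)⟫_ℝ = ⟪x, y⟫_ℝ
      rw [real_inner_comm]
      rfl

theorem W_support [FiniteDimensional ℝ V] {h : V → ℝ} (hh : Sublin h) (x : V) :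
    ∃ y ∈ W h, ⟪x, y⟫_ℝ = h x := by
  rcases eq_or_ne x 0 with rfl | hx
  · obtain ⟨g, -, hg2⟩ := exists_extension_of_le_sublinear (⟨⊥, 0⟩ : V →ₗ.[ℝ] ℝ) h hh.hom
      hh.add (by
      rintro ⟨x, hx⟩
      have h1 : x = 0 := hx
      subst h1
      change (0 : ℝ) ≤ h 0
      rw [hh.zero])
    let g' : V →L[ℝ] ℝ := LinearMap.toContinuousLinearMap g
    let z : V := (InnerProductSpace.toDual ℝ V).symm g'
    have hz : ∀ x, ⟪x, z⟫_ℝ = g x := by
      intro x
      rw [real_inner_comm, InnerProductSpace.toDual_symm_apply]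
      rfl
    refine ⟨z, fun x => ?_, ?_⟩
    · rw [hz]; exact hg2 x
    · rw [inner_zero_left, hh.zero]
  · have hxx : ⟪x, x⟫_ℝ ≠ 0 := inner_self_ne_zero.2 hx
    have hxx' : 0 < ⟪x, x⟫_ℝ := lt_of_le_of_ne real_inner_self_nonneg hxx.symm
    let H : Submodule ℝ V := ℝ ∙ x
    let w : H := ⟨(h x / ⟪x, x⟫_ℝ) • x, Submodule.smul_mem _ _ (Submodule.mem_span_singleton_self x)⟩
    have hw : w ∈ W (fun x : H => h (x : V)) := by
      rintro ⟨a, ha⟩
      obtain ⟨c, rfl⟩ := Submodule.mem_span_singleton.1 ha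
      change ⟪c • x, (h x / ⟪x, x⟫_ℝ) • x⟫_ℝ ≤ h (c • x)
      rw [inner_smul_left, inner_smul_right, div_mul_cancel₀ _ hxx]
      simp only [conj_trivial]
      rcases lt_trichotomy c 0 with hc | hc | hc
      · have h1 := hh.add (c • x) ((-c) • x)
        rw [← add_smul, add_neg_cancel, zero_smul, hh.zero, hh.hom (-c) (by linarith)] at h1
        linarith
      · rw [hc, zero_smul, hh.zero, zero_mul]
      · rw [hh.hom c hc]
    rw [← proj_W hh H] at hw
    obtain ⟨y, hy, hyw⟩ := hw
    refine ⟨y, hy, ?_⟩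
    have h2 : ⟪(⟨x, Submodule.mem_span_singleton_self x⟩ : H), H.orthogonalProjectionOnto y⟫_ℝ
        = ⟪x, y⟫_ℝ := by
      rw [real_inner_comm, Submodule.inner_orthogonalProjectionOnto_eq_of_mem_right _ y,
        real_inner_comm]
    rw [← h2, hyw]
    change ⟪x, (h x / ⟪x, x⟫_ℝ) • x⟫_ℝ = h x
    rw [inner_smul_right, div_mul_cancel₀ _ hxx]

/-- If `W h` is a ball then `h` is the support function of the ball. -/
theorem eq_of_W_eq_ball [FiniteDimensional ℝ V] {h : V → ℝ} (hh : Sublin h) {c : V} {r : ℝ}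
    (hr : 0 ≤ r) (hW : W h = Metric.closedBall c r) (x : V) : h x = ⟪x, c⟫_ℝ + r * ‖x‖ := by
  apply le_antisymm
  · obtain ⟨y, hy, hxy⟩ := W_support hh x
    rw [hW, mem_closedBall_iff_norm] at hy
    rw [← hxy]
    have : ⟪x, y⟫_ℝ = ⟪x, c⟫_ℝ + ⟪x, y - c⟫_ℝ := by rw [inner_sub_right]; ring
    rw [this]
    have h2 : ⟪x, y - c⟫_ℝ ≤ ‖x‖ * ‖y - c‖ := real_inner_le_norm _ _
    nlinarith [norm_nonneg x, norm_nonneg (y - c)]
  · rcases eq_or_ne x 0 with rfl | hx
    · simp [hh.zero]
    · have hx' : 0 < ‖x‖ := norm_pos_iff.2 hx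
      have hy : c + (r / ‖x‖) • x ∈ W h := by
        rw [hW, mem_closedBall_iff_norm, add_sub_cancel_left, norm_smul, norm_div, norm_norm,
          div_mul_cancel₀ _ hx'.ne', Real.norm_of_nonneg hr]
      have := hy x
      rw [inner_add_right, inner_smul_right, real_inner_self_eq_norm_sq] at this
      have h3 : r / ‖x‖ * ‖x‖ ^ 2 = r * ‖x‖ := by field_simp
      rw [h3] at this
      exact this

/-- If `W h` is a centred ellipsoid then `h` is the Euclidean norm of a linear map. -/
theorem eq_of_W_eq_ellipsoid [FiniteDimensional ℝ V] {h : V → ℝ} (hh : Sublin h)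
    (L : V →ₗ[ℝ] V) (hW : W h = L '' Metric.closedBall 0 1) (x : V) :
    h x = ‖LinearMap.adjoint L x‖ := by
  apply le_antisymm
  · obtain ⟨y, hy, hxy⟩ := W_support hh x
    rw [hW] at hy
    obtain ⟨z, hz, rfl⟩ := hy
    rw [mem_closedBall_zero_iff] at hz
    rw [← hxy, ← LinearMap.adjoint_inner_left]
    have h2 := real_inner_le_norm (LinearMap.adjoint L x) z
    nlinarith [norm_nonneg (LinearMap.adjoint L x), norm_nonneg z]
  · set w := LinearMap.adjoint L x with hw
    rcases eq_or_ne w 0 with h0 | h0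
    · rw [h0, norm_zero]
      have : (0 : V) ∈ W h := by
        rw [hW]
        exact ⟨0, by simp, by simp⟩
      have := this x
      rwa [inner_zero_right] at this
    · have hx' : 0 < ‖w‖ := norm_pos_iff.2 h0
      have hy : L ((‖w‖)⁻¹ • w) ∈ W h := by
        rw [hW]
        refine ⟨_, ?_, rfl⟩
        rw [mem_closedBall_zero_iff, norm_smul, norm_inv, norm_norm, inv_mul_cancel₀ hx'.ne']
      have := hy x
      rw [← LinearMap.adjoint_inner_left, ← hw, inner_smul_right, real_inner_self_eq_norm_sq] at this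
      have h3 : ‖w‖⁻¹ * ‖w‖ ^ 2 = ‖w‖ := by field_simp
      rwa [h3] at this

/-- `W` and linear isometries. -/
theorem image_W_isometry (h : V → ℝ) (R : V ≃ₗᵢ[ℝ] V) :
    R '' W h = W (fun x => h (R.symm x)) := by
  ext y
  constructor
  · rintro ⟨z, hz, rfl⟩ x
    have := hz (R.symm x)
    rwa [← R.inner_map_map, R.apply_symm_apply] at this
  · intro hy
    refine ⟨R.symm y, fun x => ?_, R.apply_symm_apply y⟩
    have := hy (R x)
    simp only [R.symm_apply_apply] at this
    rwa [← R.inner_map_map, R.apply_symm_apply]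

theorem image_W_invariant {h : V → ℝ} {R : V ≃ₗᵢ[ℝ] V} (hR : ∀ x, h (R x) = h x) :
    R '' W h = W h := by
  rw [image_W_isometry]
  congr 1
  ext x
  rw [← hR (R.symm x), R.apply_symm_apply]

/-- `W` and translations. -/
theorem W_add_inner (h : V → ℝ) (w : V) :
    W (fun x => h x + ⟪x, w⟫_ℝ) = (fun y => y + w) '' W h := by
  ext y
  constructor
  · intro hy
    refine ⟨y - w, fun x => ?_, by simp⟩
    have := hy x
    rw [inner_sub_right]
    simp only at this
    linarith
  · rintro ⟨z, hz, rfl⟩ x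
    have := hz x
    simp only
    rw [inner_add_right]
    linarith

/-- `W` and self-adjoint linear equivalences. -/
theorem image_W_selfadjoint (h : V → ℝ) (T : V ≃ₗ[ℝ] V) (hT : ∀ x y, ⟪T x, y⟫_ℝ = ⟪x, T y⟫_ℝ) :
    T '' W h = W (fun x => h (T x)) := by
  ext y
  constructor
  · rintro ⟨z, hz, rfl⟩ x
    have := hz (T x)
    rwa [hT] at this
  · intro hy
    refine ⟨T.symm y, fun x => ?_, T.apply_symm_apply y⟩
    have h1 := hy (T.symm x)
    simp only [T.apply_symm_apply] at h1
    have h2 : ⟪x, T.symm y⟫_ℝ = ⟪T.symm x, y⟫_ℝ := by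
      have := hT (T.symm x) (T.symm y)
      rwa [T.apply_symm_apply, T.apply_symm_apply] at this
    rw [h2]
    exact h1

end gen

end Q190
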