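import Mathlib
import Pool.Agent.Q190.CSDefs
import Pool.Agent.Q190.Supp

/-!
# Completely symmetric sets

The criterion that
a planar convex body invariant under a rotation of order different from `1, 2` about the origin
is completely symmetric.
-/

namespace Q190

open scoped InnerProductSpace
open MeasureTheory

section rot

variable {V : Type*} [NormedAddCommGroup V] [InnerProductSpace ℝ V]

/-- Rotation relation in the plane: `R² = 2k R - 1` with `|k| < 1` (`k = cos θ`). -/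
structure IsRot (R : V ≃ₗᵢ[ℝ] V) (k : ℝ) : Prop where
  lt : |k| < 1
  sq : ∀ x, R (R x) = (2 * k) • R x - x

theorem IsRot.fixed {R : V ≃ₗᵢ[ℝ] V} {k : ℝ} (hR : IsRot R k) {x : V} (hx : R x = x) : x = 0 := by
  have h := hR.sq x
  rw [hx, hx] at h
  have h2 : (2 * k - 2) • x = 0 := by
    rw [sub_smul, two_smul]
    nth_rewrite 1 [eq_sub_iff_add_eq] at h
    rw [← h]; simp
  rcases smul_eq_zero.1 h2 with h3 | h3
  · have := (abs_lt.1 hR.lt).2
    linarith
  · exact h3

theorem IsRot.linInd {R : V ≃ₗᵢ[ℝ] V} {k : ℝ} (hR : IsRot R k) {x : V} (hx : x ≠ 0) :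
    LinearIndependent ℝ ![x, R x] := by
  rw [LinearIndependent.pair_iff' hx]
  intro a ha
  have hn : ‖R x‖ = ‖x‖ := R.norm_map x
  rw [← ha, norm_smul] at hn
  have hx' : ‖x‖ ≠ 0 := norm_ne_zero_iff.2 hx
  have ha1 : ‖a‖ = 1 := by
    have : ‖a‖ * ‖x‖ = 1 * ‖x‖ := by rw [hn, one_mul]
    exact mul_right_cancel₀ hx' this
  have h := hR.sq x
  rw [← ha, map_smul, ← ha, smul_smul, smul_smul] at h
  have h2 : (a * a - 2 * k * a + 1) • x = 0 := by
    rw [add_smul, sub_smul, h, one_smul]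
    abel
  rcases smul_eq_zero.1 h2 with h3 | h3
  · rw [Real.norm_eq_abs] at ha1
    have h4 : a * a = 1 := by
      rw [← abs_mul_abs_self, ha1]; norm_num
    have h5 := abs_lt.1 hR.lt
    rcases abs_eq (by norm_num : (0:ℝ) ≤ 1) |>.1 ha1 with h6 | h6
    · rw [h6] at h3; linarith
    · rw [h6] at h3; linarith
  · exact hx h3

theorem IsRot.decomp {R : V ≃ₗᵢ[ℝ] V} {k : ℝ} (hR : IsRot R k)
    (h2 : Module.finrank ℝ V = 2) {x : V} (hx : x ≠ 0) (y : V) :
    ∃ a b : ℝ, y = a • x + b • R x := by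
  have h := hR.linInd hx
  have hs := h.span_eq_top_of_card_eq_finrank (by simp [h2])
  have hy : y ∈ Submodule.span ℝ (Set.range ![x, R x]) := by rw [hs]; trivial
  rw [Matrix.range_cons, Matrix.range_cons, Matrix.range_empty, Set.union_empty,
    Set.singleton_union, Submodule.mem_span_pair] at hy
  obtain ⟨a, b, hab⟩ := hy
  exact ⟨a, b, hab.symm⟩

theorem IsRot.norm_comb {R : V ≃ₗᵢ[ℝ] V} {k : ℝ} (hR : IsRot R k) {W' : Type*}
    [NormedAddCommGroup W'] [InnerProductSpace ℝ W']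
    (L : V →ₗ[ℝ] W') (hL : ∀ x, ‖L (R x)‖ = ‖L x‖) (x : V) (a b : ℝ) :
    ‖L (a • x + b • R x)‖ ^ 2 = (a ^ 2 + b ^ 2 + 2 * a * b * k) * ‖L x‖ ^ 2 := by
  have hB : ∀ x y, ⟪L (R x), L (R y)⟫_ℝ = ⟪L x, L y⟫_ℝ := by
    intro x y
    have h1 := hL (x + y)
    have h1' : ‖L (R x) + L (R y)‖ ^ 2 = ‖L x + L y‖ ^ 2 := by
      rw [← map_add, ← map_add, h1, map_add]
    rw [norm_add_sq_real, norm_add_sq_real, hL, hL] at h1'
    linarith
  have h1 := hB x (R x)
  rw [hR.sq, map_sub, map_smul, inner_sub_right, inner_smul_right, real_inner_self_eq_norm_sq,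
    hL, real_inner_comm] at h1
  have h3 : ⟪L x, L (R x)⟫_ℝ = k * ‖L x‖ ^ 2 := by linarith
  rw [map_add, map_smul, map_smul, norm_add_sq_real, norm_smul, norm_smul, inner_smul_left,
    inner_smul_right, h3, hL]
  simp only [conj_trivial, Real.norm_eq_abs, mul_pow, sq_abs]
  ring

/-- A seminorm `‖L x‖` invariant under a planar rotation is a multiple of the norm. -/
theorem IsRot.norm_prop {R : V ≃ₗᵢ[ℝ] V} {k : ℝ} (hR : IsRot R k)
    (h2 : Module.finrank ℝ V = 2) (L : V →ₗ[ℝ] V) (hL : ∀ x, ‖L (R x)‖ = ‖L x‖) :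
    ∃ r : ℝ, 0 ≤ r ∧ ∀ x, ‖L x‖ = r * ‖x‖ := by
  have hnt : Nontrivial V := Module.nontrivial_of_finrank_pos (R := ℝ) (by rw [h2]; norm_num)
  obtain ⟨x, hx⟩ := exists_ne (0 : V)
  have hx' : 0 < ‖x‖ := norm_pos_iff.2 hx
  refine ⟨‖L x‖ / ‖x‖, by positivity, fun y => ?_⟩
  obtain ⟨a, b, rfl⟩ := hR.decomp h2 hx y
  have e1 := hR.norm_comb L hL x a b
  have e2 := hR.norm_comb LinearMap.id (fun x => by simp) x a b
  simp only [LinearMap.id_coe, id_eq] at e2
  have e3 : ‖L (a • x + b • R x)‖ ^ 2 = (‖L x‖ / ‖x‖ * ‖a • x + b • R x‖) ^ 2 := by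
    rw [mul_pow, e1, e2, div_pow]
    field_simp
  exact (sq_eq_sq₀ (norm_nonneg _) (by positivity)).1 e3

variable [FiniteDimensional ℝ V]

theorem complete_of_rot {R : V ≃ₗᵢ[ℝ] V} {k : ℝ} (hR : IsRot R k)
    (h2 : Module.finrank ℝ V = 2) (G : Subgroup (V ≃ᵃⁱ[ℝ] V))
    (hG : R.toAffineIsometryEquiv ∈ G) : Complete G := by
  rintro E ⟨T, rfl⟩ hGE
  have hRE : R '' (T '' Metric.closedBall 0 1) = T '' Metric.closedBall 0 1 := hGE hG
  set c : V := T 0 with hc
  set L : V ≃ₗ[ℝ] V := T.linear with hLdef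
  have hT : ∀ x, T x = L x + c := by
    intro x
    have := T.map_vadd 0 x
    simpa [vadd_eq_add] using this
  have hmem : ∀ y, y ∈ T '' Metric.closedBall 0 1 ↔ ‖L.symm (y - c)‖ ≤ 1 := by
    intro y
    constructor
    · rintro ⟨z, hz, rfl⟩
      rw [hT, add_sub_cancel_right, L.symm_apply_apply]
      rwa [mem_closedBall_zero_iff] at hz
    · intro hy
      refine ⟨L.symm (y - c), by rwa [mem_closedBall_zero_iff], ?_⟩
      rw [hT, L.apply_symm_apply, sub_add_cancel]
  have hinv : ∀ y, ‖L.symm (R y - c)‖ ≤ 1 ↔ ‖L.symm (y - c)‖ ≤ 1 := by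
    intro y
    rw [← hmem, ← hmem]
    constructor
    · intro h
      rw [← hRE] at h
      obtain ⟨z, hz, hzy⟩ := h
      rwa [← R.injective hzy]
    · intro h
      rw [← hRE]
      exact ⟨y, h, rfl⟩
  -- the centre is fixed
  have hsym : ∀ y, ‖L.symm (y - c)‖ ≤ 1 → ‖L.symm ((y + (2:ℝ) • (R c - c)) - c)‖ ≤ 1 := by
    intro y hy
    -- reflect about c
    have h1 : ‖L.symm (((2:ℝ) • c - y) - c)‖ ≤ 1 := by
      have : ((2:ℝ) • c - y) - c = -(y - c) := by rw [two_smul]; abel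
      rwa [this, map_neg, norm_neg]
    -- apply R⁻¹, reflect about c, R
    have h3 : ‖L.symm (R.symm ((2:ℝ) • c - y) - c)‖ ≤ 1 := by
      have := hinv (R.symm ((2:ℝ) • c - y))
      rw [R.apply_symm_apply] at this
      exact this.1 h1
    have h4 : ‖L.symm (((2:ℝ) • c - R.symm ((2:ℝ) • c - y)) - c)‖ ≤ 1 := by
      have : ((2:ℝ) • c - R.symm ((2:ℝ) • c - y)) - c = -(R.symm ((2:ℝ) • c - y) - c) := by
        rw [two_smul]; abel
      rwa [this, map_neg, norm_neg]
    have h5 := (hinv _).2 h4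
    rw [R.map_sub, R.map_smul, R.apply_symm_apply] at h5
    have : (2:ℝ) • R c - ((2:ℝ) • c - y) - c = (y + (2:ℝ) • (R c - c)) - c := by
      rw [smul_sub]; abel
    rwa [this] at h5
  have hcen : ‖L.symm (c - c)‖ ≤ 1 := by simp
  have hiter : ∀ n : ℕ, ‖L.symm ((c + (2 * n : ℝ) • (R c - c)) - c)‖ ≤ 1 := by
    intro n
    induction n with
    | zero => simp
    | succ n ih =>
      have := hsym _ ih
      have e : c + (2 * (n : ℝ)) • (R c - c) + (2:ℝ) • (R c - c) - c
          = c + (2 * ((n + 1 : ℕ) : ℝ)) • (R c - c) - c := by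
        push_cast
        rw [add_assoc, ← add_smul]
        congr 3
        ring
      rwa [e] at this
  have hfix : R c = c := by
    by_contra hne
    have hd : R c - c ≠ 0 := sub_ne_zero.2 hne
    have hd' : L.symm (R c - c) ≠ 0 := by
      intro h
      exact hd ((LinearEquiv.map_eq_zero_iff L.symm).1 h)
    have hpos : 0 < ‖L.symm (R c - c)‖ := norm_pos_iff.2 hd'
    obtain ⟨n, hn⟩ := exists_nat_gt (1 / ‖L.symm (R c - c)‖)
    have := hiter n
    rw [add_sub_cancel_left, map_smul, norm_smul, Real.norm_of_nonneg (by positivity)] at this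
    rw [div_lt_iff₀ hpos] at hn
    nlinarith
  have hc0 : c = 0 := hR.fixed hfix
  rw [hc0] at hinv hmem
  simp only [sub_zero] at hinv hmem
  -- gauge is invariant
  have hL : ∀ x, ‖L.symm (R x)‖ = ‖L.symm x‖ := by
    have key : ∀ x, ‖L.symm x‖ ≠ 0 → ‖L.symm (R x)‖ ≤ ‖L.symm x‖ := by
      intro x hx
      have h := (hinv ((‖L.symm x‖)⁻¹ • x)).2 (by
        rw [map_smul, norm_smul, norm_inv, norm_norm, inv_mul_cancel₀ hx])
      rw [map_smul, map_smul, norm_smul, norm_inv, norm_norm] at h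
      have hp : 0 < ‖L.symm x‖ := lt_of_le_of_ne (norm_nonneg _) hx.symm
      rwa [inv_mul_le_iff₀ hp, mul_one] at h
    have key2 : ∀ x, ‖L.symm (R x)‖ ≠ 0 → ‖L.symm x‖ ≤ ‖L.symm (R x)‖ := by
      intro x hx
      have h := (hinv ((‖L.symm (R x)‖)⁻¹ • x)).1 (by
        rw [map_smul, map_smul, norm_smul, norm_inv, norm_norm, inv_mul_cancel₀ hx])
      rw [map_smul, norm_smul, norm_inv, norm_norm] at h
      have hp : 0 < ‖L.symm (R x)‖ := lt_of_le_of_ne (norm_nonneg _) hx.symm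
      rwa [inv_mul_le_iff₀ hp, mul_one] at h
    intro x
    rcases eq_or_ne x 0 with rfl | hx
    · simp
    · have h1 : ‖L.symm x‖ ≠ 0 := by
        rw [norm_ne_zero_iff]
        intro h
        exact hx ((LinearEquiv.map_eq_zero_iff L.symm).1 h)
      have h2 : ‖L.symm (R x)‖ ≠ 0 := by
        rw [norm_ne_zero_iff]
        intro h
        have := (LinearEquiv.map_eq_zero_iff L.symm).1 h
        exact hx ((LinearIsometryEquiv.map_eq_zero_iff R).1 this)
      exact le_antisymm (key x h1) (key2 x h2)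
  obtain ⟨r, hr0, hr⟩ := hR.norm_prop h2 (L.symm : V →ₗ[ℝ] V) hL
  have hr' : 0 < r := by
    rcases eq_or_lt_of_le hr0 with h | h
    · exfalso
      have hnt : Nontrivial V :=
        Module.nontrivial_of_finrank_pos (R := ℝ) (by rw [h2]; norm_num)
      obtain ⟨x, hx⟩ := exists_ne (0 : V)
      have := hr x
      rw [← h, zero_mul, norm_eq_zero] at this
      exact hx ((LinearEquiv.map_eq_zero_iff L.symm).1 this)
    · exact h
  refine ⟨0, r⁻¹, by positivity, ?_⟩
  ext y
  rw [hmem, mem_closedBall_zero_iff]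
  have := hr y
  change ‖L.symm y‖ = _ at this
  rw [this, ← one_div, le_div_iff₀ hr', mul_comm]

/-- A compact set with nonempty interior which is invariant under a rotation has its centroid at
the origin. -/
theorem centroid_of_rot [MeasurableSpace V] [BorelSpace V] {R : V ≃ₗᵢ[ℝ] V} {k : ℝ}
    (hR : IsRot R k) {A : Set V} (hA : IsCompact A) (hi : (interior A).Nonempty)
    (hRA : R '' A = A) : CentroidAtOrigin A := by
  intro μ hμ
  have hfin : μ A ≠ ⊤ := hA.measure_lt_top.ne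
  refine ⟨?_, hfin, ?_, ?_⟩
  · have h1 : 0 < μ (interior A) := isOpen_interior.measure_pos μ hi
    exact (lt_of_lt_of_le h1 (measure_mono interior_subset)).ne'
  · exact (continuous_id.continuousOn).integrableOn_compact hA
  · have hmp : MeasurePreserving R μ μ := by
      have hcμ := Measure.isAddLeftInvariant_eq_smul μ (volume : Measure V)
      rw [hcμ]
      refine ⟨R.continuous.measurable, ?_⟩
      rw [Measure.map_smul, R.measurePreserving.map_eq]
    have h1 : ∫ x in R '' A, x ∂μ = ∫ x in A, R x ∂μ :=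
      hmp.setIntegral_image_emb R.toHomeomorph.measurableEmbedding (fun x => x) A
    rw [hRA] at h1
    have h2 : ∫ x in A, R x ∂μ = R (∫ x in A, x ∂μ) := by
      have := (R.toContinuousLinearEquiv : V →L[ℝ] V).integral_comp_comm
        (μ := μ.restrict A) (φ := fun x => x)
        ((continuous_id.continuousOn).integrableOn_compact hA)
      exact this
    rw [h2] at h1
    exact hR.fixed h1.symm


theorem completelySymmetric_of_rot [MeasurableSpace V] [BorelSpace V] {R : V ≃ₗᵢ[ℝ] V} {k : ℝ}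
    (hR : IsRot R k) (h2 : Module.finrank ℝ V = 2) {A : Set V} (hA : IsCompact A)
    (hi : (interior A).Nonempty) (hRA : R '' A = A) : CompletelySymmetric A :=
  ⟨centroid_of_rot hR hA hi hRA, complete_of_rot hR h2 (Sym A) hRA⟩

end rot

end Q190
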