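import Mathlib
import Pool.Agent.Q190.Supp
import Pool.Agent.Q190.CS

/-!
# Rotations of a hyperplane in three-space, in complex coordinates
-/

namespace Q190

open scoped InnerProductSpace

section rotH

variable {V : Type*} [NormedAddCommGroup V] [InnerProductSpace ℝ V]

/-- Rotation by `ω` in the plane `V` identified with `ℂ`. -/
noncomputable def rotH (φ : ℂ ≃ₗᵢ[ℝ] V) (ω : Circle) : V ≃ₗᵢ[ℝ] V :=
  φ.symm.trans ((rotation ω).trans φ)

theorem rotH_apply (φ : ℂ ≃ₗᵢ[ℝ] V) (ω : Circle) (z : ℂ) :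
    rotH φ ω (φ z) = φ (ω * z) := by
  simp [rotH]

theorem circle_sq (ω : Circle) : (ω : ℂ) * ω = (2 * (ω : ℂ).re : ℝ) * ω - 1 := by
  have h1 : (ω : ℂ).re * (ω : ℂ).re + (ω : ℂ).im * (ω : ℂ).im = 1 := by
    have := Circle.normSq_coe ω
    rwa [Complex.normSq_apply] at this
  apply Complex.ext
  · simp
    linarith
  · simp
    ring

theorem isRot_rotH (φ : ℂ ≃ₗᵢ[ℝ] V) (ω : Circle) (hω : |(ω : ℂ).re| < 1) :
    IsRot (rotH φ ω) (ω : ℂ).re where
  lt := hω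
  sq := by
    intro x
    obtain ⟨z, rfl⟩ := φ.surjective x
    rw [rotH_apply, rotH_apply, ← map_smul, ← map_sub, ← mul_assoc, circle_sq]
    congr 1
    rw [Complex.real_smul]
    ring

theorem phi_eq (φ : ℂ ≃ₗᵢ[ℝ] V) (z : ℂ) : φ z = z.re • φ 1 + z.im • φ Complex.I := by
  rw [← map_smul, ← map_smul, ← map_add]
  congr 1
  rw [Complex.real_smul, Complex.real_smul, mul_one]
  exact (Complex.re_add_im z).symm

end rotH

/-- Three-dimensional Euclidean space. -/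
abbrev E3 := EuclideanSpace ℝ (Fin 3)

theorem finrank_orth {u : E3} (hu : ‖u‖ = 1) : Module.finrank ℝ (ℝ ∙ u)ᗮ = 2 := by
  have hu0 : u ≠ 0 := by
    rintro rfl
    simp at hu
  have h1 := Submodule.finrank_add_finrank_orthogonal (ℝ ∙ u)
  rw [finrank_span_singleton hu0, finrank_euclideanSpace_fin] at h1
  omega

theorem exists_phi {u : E3} (hu : ‖u‖ = 1) : ∃ _φ : ℂ ≃ₗᵢ[ℝ] (ℝ ∙ u)ᗮ, True := by
  have h := finrank_orth hu
  let b := (stdOrthonormalBasis ℝ (ℝ ∙ u)ᗮ).reindex (finCongr h)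
  exact ⟨Complex.isometryOfOrthonormal b, trivial⟩

theorem norm_sq_E3 (x : E3) : ‖x‖ ^ 2 = x 0 ^ 2 + x 1 ^ 2 + x 2 ^ 2 := by
  rw [EuclideanSpace.real_norm_sq_eq, Fin.sum_univ_three]

theorem inner_E3 (x y : E3) : ⟪x, y⟫_ℝ = x 0 * y 0 + x 1 * y 1 + x 2 * y 2 := by
  rw [PiLp.inner_apply, Fin.sum_univ_three]
  simp only [RCLike.inner_apply, conj_trivial]
  ring

end Q190
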