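import Mathlib
import Pool.Agent.Q190.Planar

/-!
# The body with support function `‖x‖ + (1/10) x₀x₁x₂ / ‖x‖²`
-/

namespace Q190.Cubic

open scoped InnerProductSpace
open Q190

/-- The cubic form. -/
def p (x : E3) : ℝ := x 0 * x 1 * x 2

/-- The support function. -/
noncomputable def h (x : E3) : ℝ := ‖x‖ + (1 / 10) * p x / ‖x‖ ^ 2

/-- Supporting linear functional at the unit vector `u`. -/
noncomputable def l (u x : E3) : ℝ :=
  ⟪u, x⟫_ℝ + (1 / 10) * (x 0 * u 1 * u 2 + u 0 * x 1 * u 2 + u 0 * u 1 * x 2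
    - 2 * p u * ⟪u, x⟫_ℝ)

theorem l_add (u x y : E3) : l u (x + y) = l u x + l u y := by
  simp only [l, inner_add_right, PiLp.add_apply]
  ring

theorem l_smul (u : E3) (c : ℝ) (x : E3) : l u (c • x) = c * l u x := by
  simp only [l, inner_smul_right, PiLp.smul_apply, smul_eq_mul]
  ring

theorem p_smul (c : ℝ) (x : E3) : p (c • x) = c ^ 3 * p x := by
  simp only [p, PiLp.smul_apply, smul_eq_mul]
  ring

theorem abs_p_le (x : E3) : |p x| ≤ ‖x‖ ^ 3 := by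
  have h0 : |x 0| ≤ ‖x‖ := by simpa using PiLp.norm_apply_le x 0
  have h1 : |x 1| ≤ ‖x‖ := by simpa using PiLp.norm_apply_le x 1
  have h2 : |x 2| ≤ ‖x‖ := by simpa using PiLp.norm_apply_le x 2
  rw [p, abs_mul, abs_mul]
  calc |x 0| * |x 1| * |x 2| ≤ ‖x‖ * ‖x‖ * ‖x‖ := by gcongr
    _ = ‖x‖ ^ 3 := by ring

theorem h_smul (c : ℝ) (hc : 0 < c) (x : E3) : h (c • x) = c * h x := by
  rcases eq_or_ne x 0 with rfl | hx
  · simp [h, p]
  · have hx' : ‖x‖ ≠ 0 := norm_ne_zero_iff.2 hx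
    rw [h, h, p_smul, norm_smul, Real.norm_of_nonneg hc.le]
    field_simp

theorem bracket (a b c d0 d1 d2 : ℝ) (hu2 : a ^ 2 + b ^ 2 + c ^ 2 = 1)
    (hx2 : (a + d0) ^ 2 + (b + d1) ^ 2 + (c + d2) ^ 2 = 1) :
    (a * b * c * (d0 ^ 2 + d1 ^ 2 + d2 ^ 2) - (a * d1 * d2 + b * d0 * d2 + c * d0 * d1)
      - d0 * d1 * d2) ≤ 5 * (d0 ^ 2 + d1 ^ 2 + d2 ^ 2) := by
  obtain ⟨D, hD⟩ : ∃ D, D = d0 ^ 2 + d1 ^ 2 + d2 ^ 2 := ⟨_, rfl⟩
  have hD0 : 0 ≤ D := by rw [hD]; positivity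
  have ha : |a| ≤ 1 := abs_le_one_iff_mul_self_le_one.2 (by nlinarith [sq_nonneg b, sq_nonneg c])
  have hb : |b| ≤ 1 := abs_le_one_iff_mul_self_le_one.2 (by nlinarith [sq_nonneg a, sq_nonneg c])
  have hc : |c| ≤ 1 := abs_le_one_iff_mul_self_le_one.2 (by nlinarith [sq_nonneg b, sq_nonneg a])
  have hx0 : |a + d0| ≤ 1 := abs_le_one_iff_mul_self_le_one.2
    (by nlinarith [sq_nonneg (b + d1), sq_nonneg (c + d2)])
  have h0 : |d0| ≤ 2 := by
    rw [abs_le] at ha hx0 ⊢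
    constructor <;> linarith [ha.1, ha.2, hx0.1, hx0.2]
  have k1 : |a * b * c| ≤ 1 := by
    rw [abs_mul, abs_mul]
    calc |a| * |b| * |c| ≤ 1 * 1 * 1 := by gcongr
      _ = 1 := by norm_num
  have q12 : |d1 * d2| ≤ D / 2 := by
    rw [abs_le]; constructor <;> nlinarith [sq_nonneg (d1 + d2), sq_nonneg (d1 - d2), sq_nonneg d0]
  have q02 : |d0 * d2| ≤ D / 2 := by
    rw [abs_le]; constructor <;> nlinarith [sq_nonneg (d0 + d2), sq_nonneg (d0 - d2), sq_nonneg d1]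
  have q01 : |d0 * d1| ≤ D / 2 := by
    rw [abs_le]; constructor <;> nlinarith [sq_nonneg (d0 + d1), sq_nonneg (d0 - d1), sq_nonneg d2]
  have r1 : |a * (d1 * d2)| ≤ D / 2 := by
    rw [abs_mul]
    calc |a| * |d1 * d2| ≤ 1 * (D / 2) := by gcongr
      _ = D / 2 := one_mul _
  have r2 : |b * (d0 * d2)| ≤ D / 2 := by
    rw [abs_mul]
    calc |b| * |d0 * d2| ≤ 1 * (D / 2) := by gcongr
      _ = D / 2 := one_mul _
  have r3 : |c * (d0 * d1)| ≤ D / 2 := by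
    rw [abs_mul]
    calc |c| * |d0 * d1| ≤ 1 * (D / 2) := by gcongr
      _ = D / 2 := one_mul _
  have r4 : |d0 * (d1 * d2)| ≤ D := by
    rw [abs_mul]
    calc |d0| * |d1 * d2| ≤ 2 * (D / 2) := by gcongr
      _ = D := by ring
  have r5 : |(a * b * c) * D| ≤ D := by
    rw [abs_mul, abs_of_nonneg hD0]
    calc |a * b * c| * D ≤ 1 * D := by gcongr
      _ = D := one_mul _
  have s1 := (abs_le.1 r1).1
  have s2 := (abs_le.1 r2).1
  have s3 := (abs_le.1 r3).1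
  have s4 := (abs_le.1 r4).1
  have s5 := (abs_le.1 r5).2
  rw [← hD]
  linarith

theorem real_ineq (a b c x0 x1 x2 : ℝ) (hu2 : a ^ 2 + b ^ 2 + c ^ 2 = 1)
    (hx2 : x0 ^ 2 + x1 ^ 2 + x2 ^ 2 = 1) :
    (a * x0 + b * x1 + c * x2) + (1 / 10) * (x0 * b * c + a * x1 * c + a * b * x2
      - 2 * (a * b * c) * (a * x0 + b * x1 + c * x2)) ≤ 1 + (1 / 10) * (x0 * x1 * x2) := by
  have hb := bracket a b c (x0 - a) (x1 - b) (x2 - c) hu2 (by
    rw [add_sub_cancel, add_sub_cancel, add_sub_cancel]; exact hx2)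
  have hD : (x0 - a) ^ 2 + (x1 - b) ^ 2 + (x2 - c) ^ 2 = 2 - 2 * (a * x0 + b * x1 + c * x2) := by
    linear_combination hu2 + hx2
  rw [hD] at hb
  have e : (x0 * b * c + a * x1 * c + a * b * x2
      - 2 * (a * b * c) * (a * x0 + b * x1 + c * x2)) = x0 * x1 * x2 +
      (a * b * c * (2 - 2 * (a * x0 + b * x1 + c * x2)) - (a * (x1 - b) * (x2 - c)
        + b * (x0 - a) * (x2 - c) + c * (x0 - a) * (x1 - b))
        - (x0 - a) * (x1 - b) * (x2 - c)) := by ring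
  rw [e]
  linarith

theorem unit_ineq (u x : E3) (hu : ‖u‖ = 1) (hx : ‖x‖ = 1) : l u x ≤ h x := by
  have hu2 : u 0 ^ 2 + u 1 ^ 2 + u 2 ^ 2 = 1 := by rw [← norm_sq_E3, hu]; norm_num
  have hx2 : x 0 ^ 2 + x 1 ^ 2 + x 2 ^ 2 = 1 := by rw [← norm_sq_E3, hx]; norm_num
  have := real_ineq _ _ _ _ _ _ hu2 hx2
  rw [l, h, hx, inner_E3, one_pow, div_one]
  exact this

theorem l_le_h (u x : E3) (hu : ‖u‖ = 1) : l u x ≤ h x := by
  rcases eq_or_ne x 0 with rfl | hx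
  · simp [l, h, p]
  · have hx' : 0 < ‖x‖ := norm_pos_iff.2 hx
    have hx1 : ‖(‖x‖⁻¹) • x‖ = 1 := by
      rw [norm_smul, norm_inv, norm_norm, inv_mul_cancel₀ hx'.ne']
    have h1 := unit_ineq u _ hu hx1
    rw [l_smul, h_smul _ (by positivity)] at h1
    exact le_of_mul_le_mul_left h1 (by positivity)

theorem h_eq_l (u : E3) (hu : ‖u‖ = 1) : h u = l u u := by
  rw [h, l, hu, real_inner_self_eq_norm_sq, hu]
  simp only [p]
  ring

theorem h_zero : h 0 = 0 := by simp [h, p]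

theorem h_lower (x : E3) : (9 / 10) * ‖x‖ ≤ h x := by
  rcases eq_or_ne x 0 with rfl | hx
  · simp [h_zero]
  · have hx' : 0 < ‖x‖ := norm_pos_iff.2 hx
    rw [h]
    have h1 := (abs_le.1 (abs_p_le x)).1
    have h2 : -(1 / 10) * ‖x‖ ≤ (1 / 10) * p x / ‖x‖ ^ 2 := by
      rw [le_div_iff₀ (by positivity)]
      nlinarith
    linarith

theorem h_upper (x : E3) : h x ≤ (11 / 10) * ‖x‖ := by
  rcases eq_or_ne x 0 with rfl | hx
  · simp [h_zero]
  · have hx' : 0 < ‖x‖ := norm_pos_iff.2 hx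
    rw [h]
    have h1 := (abs_le.1 (abs_p_le x)).2
    have h2 : (1 / 10) * p x / ‖x‖ ^ 2 ≤ (1 / 10) * ‖x‖ := by
      rw [div_le_iff₀ (by positivity)]
      nlinarith
    linarith

theorem sublin : Sublin h where
  hom := h_smul
  add := by
    intro x y
    rcases eq_or_ne (x + y) 0 with h0 | h0
    · rw [h0, h_zero]
      have h1 := h_lower x
      have h2 := h_lower y
      have := norm_nonneg x
      have := norm_nonneg y
      linarith
    · have hx' : 0 < ‖x + y‖ := norm_pos_iff.2 h0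
      have hx1 : ‖(‖x + y‖⁻¹) • (x + y)‖ = 1 := by
        rw [norm_smul, norm_inv, norm_norm, inv_mul_cancel₀ hx'.ne']
      set u := (‖x + y‖⁻¹) • (x + y) with hu
      have h1 := l_le_h u x hx1
      have h2 := l_le_h u y hx1
      have h3 := h_eq_l u hx1
      have h4 : h (x + y) = l u (x + y) := by
        have e : x + y = ‖x + y‖ • u := by
          rw [hu, smul_smul, mul_inv_cancel₀ hx'.ne', one_smul]
        rw [e, h_smul _ hx', l_smul, h3]
      rw [h4, l_add]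
      linarith

/-- The body. -/
def K : Set E3 := W h

theorem K_body : IsConvexBody K :=
  W_body (m := 9 / 10) (M := 11 / 10) (by norm_num) (by norm_num) h_lower h_upper

theorem K_not_ball : ¬ IsBall K := by
  rintro ⟨c, r, hr, hK⟩
  have H := eq_of_W_eq_ball sublin hr.le hK
  have hn : ∀ (a b d : ℝ), ‖(!₂[a, b, d] : E3)‖ = Real.sqrt (a ^ 2 + b ^ 2 + d ^ 2) := by
    intro a b d
    rw [EuclideanSpace.norm_eq, Fin.sum_univ_three]
    simp
  have H' : ∀ a b d : ℝ, h !₂[a, b, d] = a * c 0 + b * c 1 + d * c 2 +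
      r * Real.sqrt (a ^ 2 + b ^ 2 + d ^ 2) := by
    intro a b d
    rw [H, inner_E3, hn]
    simp
  have hh : ∀ a b d : ℝ, h !₂[a, b, d] = Real.sqrt (a ^ 2 + b ^ 2 + d ^ 2) +
      (1 / 10) * (a * b * d) / (a ^ 2 + b ^ 2 + d ^ 2) := by
    intro a b d
    rw [h, hn, Real.sq_sqrt (by positivity)]
    simp [p]
  have e1 := H' 1 0 0
  have e2 := H' (-1) 0 0
  have e3 := H' 0 1 0
  have e4 := H' 0 (-1) 0
  have e5 := H' 0 0 1
  have e6 := H' 0 0 (-1)
  have e7 := H' 1 1 1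
  rw [hh] at e1 e2 e3 e4 e5 e6 e7
  norm_num at e1 e2 e3 e4 e5 e6 e7
  have hr1 : r = 1 := by linarith
  have hc0 : c 0 = 0 := by linarith
  have hc1 : c 1 = 0 := by linarith
  have hc2 : c 2 = 0 := by linarith
  rw [hr1, hc0, hc1, hc2] at e7
  linarith

end Q190.Cubic
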