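import Mathlib
import Pool.Agent.Q190.Cubic

/-!
# Projections of the cubic body are translates of completely symmetric sets
-/

namespace Q190.Cubic

open scoped InnerProductSpace
open Q190

/-- The harmonic part: coefficients of a binary cubic form. -/
theorem cubic_split (a0 a1 a2 b0 b1 b2 : ℝ) : ∃ A B w1 w2 : ℝ, ∀ s t : ℝ,
    (s * a0 + t * b0) * (s * a1 + t * b1) * (s * a2 + t * b2) =
      (s ^ 2 + t ^ 2) * (w1 * s + w2 * t) + (A * (s ^ 3 - 3 * s * t ^ 2) +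
        B * (3 * s ^ 2 * t - t ^ 3)) := by
  obtain ⟨α, hα⟩ : ∃ α, α = a0 * a1 * a2 := ⟨_, rfl⟩
  obtain ⟨δ, hδ⟩ : ∃ δ, δ = b0 * b1 * b2 := ⟨_, rfl⟩
  obtain ⟨β, hβ⟩ : ∃ β, β = a0 * a1 * b2 + a0 * b1 * a2 + b0 * a1 * a2 := ⟨_, rfl⟩
  obtain ⟨γ, hγ⟩ : ∃ γ, γ = a0 * b1 * b2 + b0 * a1 * b2 + b0 * b1 * a2 := ⟨_, rfl⟩
  refine ⟨(α - γ) / 4, (β - δ) / 4, (3 * α + γ) / 4, (β + 3 * δ) / 4, fun s t => ?_⟩
  rw [hα, hβ, hγ, hδ]
  ring

/-- The rotation by 120 degrees. -/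
noncomputable def om : Circle := Circle.exp (2 * Real.pi / 3)

theorem cos_om : Real.cos (2 * Real.pi / 3) = -(1 / 2) := by
  have : 2 * Real.pi / 3 = Real.pi - Real.pi / 3 := by ring
  rw [this, Real.cos_pi_sub, Real.cos_pi_div_three]

theorem sin_om : Real.sin (2 * Real.pi / 3) = Real.sqrt 3 / 2 := by
  have : 2 * Real.pi / 3 = Real.pi - Real.pi / 3 := by ring
  rw [this, Real.sin_pi_sub, Real.sin_pi_div_three]

theorem om_eq : (om : ℂ) = ⟨-(1 / 2), Real.sqrt 3 / 2⟩ := by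
  have h : (om : ℂ) = ⟨Real.cos (2 * Real.pi / 3), Real.sin (2 * Real.pi / 3)⟩ := by
    rw [om, Circle.coe_exp]
    apply Complex.ext
    · rw [Complex.exp_ofReal_mul_I_re]
    · rw [Complex.exp_ofReal_mul_I_im]
  rw [h, cos_om, sin_om]

theorem projections (u : E3) (hu : ‖u‖ = 1) : ∃ (A : Set (ℝ ∙ u)ᗮ) (v : (ℝ ∙ u)ᗮ),
    CompletelySymmetric A ∧ proj (ℝ ∙ u)ᗮ K = (fun y => y + v) '' A := by
  obtain ⟨φ, -⟩ := exists_phi hu
  -- coordinates
  obtain ⟨A, B, w1, w2, hsplit⟩ := cubic_split ((φ 1 : E3) 0) ((φ 1 : E3) 1) ((φ 1 : E3) 2)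
    ((φ Complex.I : E3) 0) ((φ Complex.I : E3) 1) ((φ Complex.I : E3) 2)
  have hp : ∀ z : ℂ, Cubic.p (φ z : E3) = (z.re ^ 2 + z.im ^ 2) * (w1 * z.re + w2 * z.im) +
      (A * (z.re ^ 3 - 3 * z.re * z.im ^ 2) + B * (3 * z.re ^ 2 * z.im - z.im ^ 3)) := by
    intro z
    rw [← hsplit, Cubic.p, phi_eq φ z]
    simp only [Submodule.coe_add, Submodule.coe_smul, PiLp.add_apply, PiLp.smul_apply, smul_eq_mul]
  set w : ℂ := ⟨w1 / 10, w2 / 10⟩ with hw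
  have hin : ∀ z : ℂ, ⟪φ z, φ w⟫_ℝ = (w1 * z.re + w2 * z.im) / 10 := by
    intro z
    rw [φ.inner_map_map, Complex.inner]
    simp [hw, Complex.mul_re]
    ring
  have hnorm : ∀ z : ℂ, ‖φ z‖ ^ 2 = z.re ^ 2 + z.im ^ 2 := by
    intro z
    rw [φ.norm_map, Complex.sq_norm, Complex.normSq_apply]
    ring
  have hnorm' : ∀ z : ℂ, ‖(φ z : E3)‖ = ‖z‖ := by
    intro z
    exact φ.norm_map z
  -- the symmetric part of the support function
  let f : (ℝ ∙ u)ᗮ → ℝ := fun x => Cubic.h (x : E3) - ⟪x, φ w⟫_ℝ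
  have hf : ∀ z : ℂ, f (φ z) = ‖z‖ + (1 / 10) * (A * (z.re ^ 3 - 3 * z.re * z.im ^ 2) +
      B * (3 * z.re ^ 2 * z.im - z.im ^ 3)) / ‖z‖ ^ 2 := by
    intro z
    change Cubic.h (φ z : E3) - ⟪φ z, φ w⟫_ℝ = _
    rw [hin, Cubic.h, hp, hnorm', Complex.sq_norm, Complex.normSq_apply]
    rcases eq_or_ne z 0 with rfl | hz
    · simp
    · have hz' : z.re * z.re + z.im * z.im ≠ 0 := by
        rw [← Complex.normSq_apply]
        exact fun h => hz (Complex.normSq_eq_zero.1 h)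
      obtain ⟨L, hL⟩ : ∃ L, L = w1 * z.re + w2 * z.im := ⟨_, rfl⟩
      obtain ⟨G, hG⟩ : ∃ G, G = A * (z.re ^ 3 - 3 * z.re * z.im ^ 2) +
        B * (3 * z.re ^ 2 * z.im - z.im ^ 3) := ⟨_, rfl⟩
      have e : z.re ^ 2 + z.im ^ 2 = z.re * z.re + z.im * z.im := by ring
      obtain ⟨N, hN⟩ : ∃ N, N = z.re * z.re + z.im * z.im := ⟨_, rfl⟩
      rw [← hL, ← hG, e, ← hN]
      rw [← hN] at hz'
      have e2 : 1 / 10 * (N * L + G) / N = L / 10 + 1 / 10 * G / N := by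
        field_simp
      rw [e2]
      ring
  -- invariance under the rotation
  have hinv : ∀ x, f (rotH φ om x) = f x := by
    intro x
    obtain ⟨z, rfl⟩ := φ.surjective x
    rw [rotH_apply, hf, hf, norm_mul, Circle.norm_coe, one_mul, om_eq]
    have h3 : Real.sqrt 3 ^ 2 = 3 := Real.sq_sqrt (by norm_num)
    have h3' : Real.sqrt 3 ^ 3 = 3 * Real.sqrt 3 := by
      rw [pow_succ, h3]
    have e1 : (A * (((⟨-(1 / 2), Real.sqrt 3 / 2⟩ : ℂ) * z).re ^ 3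
          - 3 * ((⟨-(1 / 2), Real.sqrt 3 / 2⟩ : ℂ) * z).re
            * ((⟨-(1 / 2), Real.sqrt 3 / 2⟩ : ℂ) * z).im ^ 2) +
        B * (3 * ((⟨-(1 / 2), Real.sqrt 3 / 2⟩ : ℂ) * z).re ^ 2
          * ((⟨-(1 / 2), Real.sqrt 3 / 2⟩ : ℂ) * z).im
            - ((⟨-(1 / 2), Real.sqrt 3 / 2⟩ : ℂ) * z).im ^ 3)) =
        (A * (z.re ^ 3 - 3 * z.re * z.im ^ 2) + B * (3 * z.re ^ 2 * z.im - z.im ^ 3)) := by
      rw [Complex.mul_re, Complex.mul_im]
      simp only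
      ring_nf
      rw [h3, h3']
      ring_nf
    rw [e1]
  have hW : proj (ℝ ∙ u)ᗮ Cubic.K = (fun y => y + φ w) '' W f := by
    rw [proj, Cubic.K, proj_W Cubic.sublin, ← W_add_inner]
    congr 1
    ext x
    simp [f]
  have hbody : IsConvexBody (proj (ℝ ∙ u)ᗮ Cubic.K) := by
    rw [proj, Cubic.K, proj_W Cubic.sublin]
    exact W_body (m := 9 / 10) (M := 11 / 10) (by norm_num) (by norm_num)
      (fun x => Cubic.h_lower (x : E3)) (fun x => Cubic.h_upper (x : E3))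
  have hWf : W f = (fun y => y + (-φ w)) '' proj (ℝ ∙ u)ᗮ Cubic.K := by
    rw [hW, Set.image_image]
    simp
  have hcomp : IsCompact (W f) := by
    rw [hWf]
    exact hbody.compact.image (by fun_prop)
  have hint : (interior (W f)).Nonempty := by
    rw [hWf]
    have := (Homeomorph.addRight (-φ w)).image_interior (proj (ℝ ∙ u)ᗮ Cubic.K)
    change (fun y => y + (-φ w)) '' interior (proj (ℝ ∙ u)ᗮ Cubic.K) =
      interior ((fun y => y + (-φ w)) '' proj (ℝ ∙ u)ᗮ Cubic.K) at this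
    rw [← this]
    exact hbody.nonempty_interior.image _
  refine ⟨W f, φ w, ?_, hW⟩
  have hre : (om : ℂ).re = -(1 / 2) := by rw [om_eq]
  refine completelySymmetric_of_rot (R := rotH φ om) (k := (om : ℂ).re)
    (isRot_rotH φ om ?_) (finrank_orth hu) hcomp hint (image_W_invariant hinv)
  rw [hre, abs_lt]
  constructor <;> norm_num

end Q190.Cubic
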