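import Mathlib
import Pool.Agent.Q190.CSDefs

/-!
# Flotation bodies and buoyancy bodies: definitions
-/

namespace Q190.FB

open MeasureTheory Set
open scoped InnerProductSpace

/-- Euclidean `n`-space. -/
abbrev E (n : ℕ) := EuclideanSpace ℝ (Fin n)

/-- Closed half-spaces. -/
def IsHalfspace {n : ℕ} (H : Set (E n)) : Prop :=
  ∃ (u : E n) (c : ℝ), u ≠ 0 ∧ H = {x | c ≤ ⟪u, x⟫_ℝ}

/-- The half-space `H` cuts off volume `δ` from `K`. -/
def Admissible {n : ℕ} (K : Set (E n)) (δ : ℝ) (H : Set (E n)) : Prop :=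
  IsHalfspace H ∧ volume.real (K ∩ H) = δ

/-- The body of flotation: the intersection of the sets `closure (K \ H)` over all admissible
half-spaces `H`. -/
def flotationBody {n : ℕ} (K : Set (E n)) (δ : ℝ) : Set (E n) :=
  ⋂ (H : Set (E n)) (_ : Admissible K δ H), closure (K \ H)

/-- The centroid of a set of positive finite volume. -/
noncomputable def centroid {n : ℕ} (A : Set (E n)) : E n :=
  (volume.real A)⁻¹ • ∫ x in A, x

/-- The body of buoyancy: the convex hull of the centroids of the submerged parts. -/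
def buoyancyBody {n : ℕ} (K : Set (E n)) (δ : ℝ) : Set (E n) :=
  convexHull ℝ {p | ∃ H : Set (E n), Admissible K δ H ∧ p = centroid (K ∩ H)}

/-- A dilation with centre `c` and positive factor `r` maps `A` onto `B`. -/
def Homothetic {n : ℕ} (A B : Set (E n)) : Prop :=
  ∃ (c : E n) (r : ℝ), 0 < r ∧ (fun x => c + r • (x - c)) '' A = B

end Q190.FB
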