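import Mathlib
import Pool.Agent.Q190.FBDefs

/-!
# The hexagon, its rotation, areas and centroids of caps
-/

namespace Q190.FB

open MeasureTheory Set
open scoped InnerProductSpace

/-- Fubini over the region between two graphs. -/
theorem fubini_region (a b : ℝ) (hab : a ≤ b) (L U : ℝ → ℝ)
    (hLU : ∀ x ∈ Icc a b, L x ≤ U x)
    (hA : IsCompact {p : ℝ × ℝ | (a ≤ p.1 ∧ p.1 ≤ b) ∧ L p.1 ≤ p.2 ∧ p.2 ≤ U p.1})
    (f : ℝ × ℝ → ℝ) (hf : Continuous f) :
    ∫ p in {p : ℝ × ℝ | (a ≤ p.1 ∧ p.1 ≤ b) ∧ L p.1 ≤ p.2 ∧ p.2 ≤ U p.1}, f p =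
      ∫ x in a..b, ∫ y in (L x)..(U x), f (x, y) := by
  set A := {p : ℝ × ℝ | (a ≤ p.1 ∧ p.1 ≤ b) ∧ L p.1 ≤ p.2 ∧ p.2 ≤ U p.1} with hAdef
  have hi : Integrable (A.indicator f) (volume.prod volume) := by
    rw [integrable_indicator_iff hA.measurableSet]
    exact hf.continuousOn.integrableOn_compact hA
  rw [← integral_indicator hA.measurableSet]
  change ∫ p, A.indicator f p ∂(volume.prod volume) = _
  rw [integral_prod _ hi, intervalIntegral.integral_of_le hab, ← integral_Icc_eq_integral_Ioc,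
    ← integral_indicator measurableSet_Icc]
  congr 1
  ext x
  by_cases hx : x ∈ Icc a b
  · rw [indicator_of_mem hx, intervalIntegral.integral_of_le (hLU x hx),
      ← integral_Icc_eq_integral_Ioc, ← integral_indicator measurableSet_Icc]
    congr 1
    ext y
    by_cases hy : y ∈ Icc (L x) (U x)
    · rw [indicator_of_mem hy, indicator_of_mem]
      exact ⟨hx, hy⟩
    · rw [indicator_of_notMem hy, indicator_of_notMem]
      exact fun h => hy h.2
  · rw [indicator_of_notMem hx]
    have : (fun y => A.indicator f (x, y)) = fun _ => 0 := by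
      ext y
      rw [indicator_of_notMem]
      exact fun h => hx h.1
    rw [this]
    simp

/-- Coordinates. -/
noncomputable def toProd : E 2 ≃ᵐ ℝ × ℝ :=
  (MeasurableEquiv.toLp 2 (Fin 2 → ℝ)).symm.trans (MeasurableEquiv.finTwoArrow)

theorem toProd_apply (z : E 2) : toProd z = (z 0, z 1) := rfl

theorem toProd_mp : MeasurePreserving toProd volume volume :=
  (volume_preserving_finTwoArrow ℝ).comp (PiLp.volume_preserving_ofLp (Fin 2))

theorem integral_toProd (A : Set (ℝ × ℝ)) (f : ℝ × ℝ → ℝ) :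
    ∫ z in toProd ⁻¹' A, f (z 0, z 1) = ∫ p in A, f p := by
  rw [← toProd_mp.setIntegral_preimage_emb toProd.measurableEmbedding f A]
  rfl

/-- The (affinely regular) hexagon. -/
def hexagon : Set (E 2) := {z | |z 0| ≤ 1 ∧ |z 1| ≤ 1 ∧ |z 0 - z 1| ≤ 1}

theorem hex_closed : IsClosed hexagon := by
  have c0 : Continuous fun z : E 2 => |z 0| := by fun_prop
  have c1 : Continuous fun z : E 2 => |z 1| := by fun_prop
  have c2 : Continuous fun z : E 2 => |z 0 - z 1| := by fun_prop
  exact (isClosed_le c0 continuous_const).inter <|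
    (isClosed_le c1 continuous_const).inter (isClosed_le c2 continuous_const)

theorem hex_convex : Convex ℝ hexagon := by
  rintro x ⟨hx0, hx1, hx2⟩ y ⟨hy0, hy1, hy2⟩ a b ha hb hab
  rw [abs_le] at *
  have e0 : (a • x + b • y) 0 = a * x 0 + b * y 0 := rfl
  have e1 : (a • x + b • y) 1 = a * x 1 + b * y 1 := rfl
  refine ⟨?_, ?_, ?_⟩
  · rw [e0, abs_le]; constructor <;> nlinarith
  · rw [e1, abs_le]; constructor <;> nlinarith
  · rw [e0, e1, abs_le]; constructor <;> nlinarith

theorem norm_sq2 (x : E 2) : ‖x‖ ^ 2 = x 0 ^ 2 + x 1 ^ 2 := by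
  rw [EuclideanSpace.norm_sq_eq, Fin.sum_univ_two]; simp

theorem inner2 (x y : E 2) : ⟪x, y⟫_ℝ = x 0 * y 0 + x 1 * y 1 := by
  rw [PiLp.inner_apply, Fin.sum_univ_two]; simp [mul_comm]

theorem hex_compact : IsCompact hexagon := by
  refine Metric.isCompact_of_isClosed_isBounded hex_closed ?_
  rw [isBounded_iff_forall_norm_le]
  refine ⟨2, fun x hx => ?_⟩
  obtain ⟨h0, h1, -⟩ := hx
  have : ‖x‖ ^ 2 ≤ 2 ^ 2 := by
    rw [norm_sq2, ← sq_abs (x 0), ← sq_abs (x 1)]
    nlinarith [abs_nonneg (x 0), abs_nonneg (x 1)]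
  exact (sq_le_sq₀ (norm_nonneg _) (by norm_num)).1 this

theorem hex_int : (0 : E 2) ∈ interior hexagon := by
  rw [mem_interior]
  refine ⟨{z | |z 0| < 1 ∧ |z 1| < 1 ∧ |z 0 - z 1| < 1}, ?_, ?_, ?_⟩
  · rintro z ⟨h0, h1, h2⟩
    exact ⟨h0.le, h1.le, h2.le⟩
  · have c0 : Continuous fun z : E 2 => |z 0| := by fun_prop
    have c1 : Continuous fun z : E 2 => |z 1| := by fun_prop
    have c2 : Continuous fun z : E 2 => |z 0 - z 1| := by fun_prop
    exact (isOpen_lt c0 continuous_const).inter <|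
      (isOpen_lt c1 continuous_const).inter (isOpen_lt c2 continuous_const)
  · simp

theorem hex_body : IsConvexBody hexagon := ⟨hex_compact, hex_convex, ⟨0, hex_int⟩⟩

/-- The rotation of order six. -/
noncomputable def rot : E 2 →ₗ[ℝ] E 2 := Matrix.toEuclideanLin !![1, -1; 1, 0]

theorem rot0 (z : E 2) : rot z 0 = z 0 - z 1 := by
  simp [rot, Matrix.toEuclideanLin_apply, Matrix.mulVec, dotProduct, Fin.sum_univ_two]
  ring

theorem rot1 (z : E 2) : rot z 1 = z 0 := by
  simp [rot, Matrix.toEuclideanLin_apply, Matrix.mulVec, dotProduct, Fin.sum_univ_two]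

theorem rot_det : LinearMap.det rot = 1 := by
  rw [rot, Matrix.toEuclideanLin_eq_toLin_orthonormal, LinearMap.det_toLin]
  simp [Matrix.det_fin_two]

theorem ext2 {x y : E 2} (h0 : x 0 = y 0) (h1 : x 1 = y 1) : x = y := by
  ext i
  fin_cases i
  · exact h0
  · exact h1

theorem rot_six (z : E 2) : rot^[6] z = z := by
  simp only [Function.iterate_succ, Function.iterate_zero, Function.comp, id]
  apply ext2
  · simp only [rot0, rot1]; ring
  · simp only [rot0, rot1]; ring

theorem rot_mp : MeasurePreserving rot volume volume := by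
  refine ⟨rot.continuous_of_finiteDimensional.measurable, ?_⟩
  rw [Measure.map_linearMap_addHaar_eq_smul_addHaar volume (by rw [rot_det]; norm_num), rot_det]
  simp

theorem rot_iter_mp (k : ℕ) : MeasurePreserving (rot^[k]) volume volume := by
  induction k with
  | zero => exact MeasurePreserving.id _
  | succ k ih => rw [Function.iterate_succ]; exact ih.comp rot_mp

theorem rot_hex (z : E 2) : rot z ∈ hexagon ↔ z ∈ hexagon := by
  simp only [hexagon, mem_ofPred_eq, rot0, rot1]
  have : z 0 - z 1 - z 0 = - z 1 := by ring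
  rw [this, abs_neg]
  tauto

theorem rot_iter_hex (k : ℕ) (z : E 2) : rot^[k] z ∈ hexagon ↔ z ∈ hexagon := by
  induction k with
  | zero => rfl
  | succ k ih => rw [Function.iterate_succ_apply', rot_hex, ih]

end Q190.FB
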