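import Mathlib
import Pool.Agent.Q190.FBHex

/-!
# Areas and centroids of the caps of the hexagon
-/

namespace Q190.FB

open MeasureTheory Set
open scoped InnerProductSpace

/-- First coordinate of the normal. -/
noncomputable def nx (s : ℝ) : ℝ := s ^ 2 - 4 * s + 2

/-- Height. -/
noncomputable def ht (s : ℝ) : ℝ := s ^ 2 - 2 * s + 2

/-- Linear functional. -/
noncomputable def lin (s : ℝ) (z : E 2) : ℝ := nx s * z 0 + 2 * z 1

/-- Midpoint. -/
noncomputable def mid (s : ℝ) : E 2 := !₂[(1 - s) / (2 - s), s / 2 + (1 - s) / (2 - s)]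

/-- Lower line. -/
noncomputable def lo (s : ℝ) (x : ℝ) : ℝ := (ht s - nx s * x) / 2

/-- The cap in coordinates. -/
def capR (s : ℝ) : Set (ℝ × ℝ) :=
  {p | (-(s / (2 - s)) ≤ p.1 ∧ p.1 ≤ 1) ∧ lo s p.1 ≤ p.2 ∧ p.2 ≤ min (p.1 + 1) 1}

theorem cap_eq {s : ℝ} (h0 : 0 ≤ s) (h1 : s ≤ 1) :
    hexagon ∩ {z | ht s ≤ lin s z} = toProd ⁻¹' capR s := by
  have hs : 0 < 2 - s := by linarith
  ext z
  simp only [hexagon, capR, mem_inter_iff, mem_ofPred_eq, mem_preimage, toProd_apply, lo, lin,
    abs_le, le_min_iff]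
  constructor
  · rintro ⟨⟨hx, hy, hxy⟩, h⟩
    have hx1 : z 1 ≤ z 0 + 1 := by linarith [hxy.1]
    refine ⟨⟨?_, hx.2⟩, ?_, hx1, hy.2⟩
    · rw [neg_le, ← sub_nonneg]
      have e : s / (2 - s) - -(z 0) = (s + z 0 * (2 - s)) / (2 - s) := by field_simp; ring
      rw [e]
      apply div_nonneg _ hs.le
      have h2 : 0 ≤ (2 - s) * (s + z 0 * (2 - s)) := by
        unfold ht nx at h
        nlinarith
      exact nonneg_of_mul_nonneg_right h2 hs
    · linarith
  · rintro ⟨⟨hx0, hx1⟩, hy, hy1, hy2⟩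
    have hx0' : 0 ≤ s + z 0 * (2 - s) := by
      have : -s ≤ z 0 * (2 - s) := by
        have := mul_le_mul_of_nonneg_right hx0 hs.le
        rw [neg_mul, div_mul_cancel₀ _ hs.ne'] at this
        linarith
      linarith
    have hh : ht s ≤ nx s * z 0 + 2 * z 1 := by linarith
    have hz : -1 ≤ z 0 := by
      by_contra hc
      push Not at hc
      nlinarith
    -- `lo ≥ 0`
    have hlo : 0 ≤ z 1 := by
      have h3 : 0 ≤ ht s - nx s * z 0 := by
        unfold ht nx
        -- value at 1 is 2s, value at -t is 2(1-t)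
        by_cases hk : s ^ 2 - 4 * s + 2 ≤ 0
        · nlinarith
        · push Not at hk
          nlinarith
      linarith
    refine ⟨⟨⟨hz, hx1⟩, ⟨by linarith, hy2⟩, by linarith, by linarith⟩, hh⟩

theorem capR_compact {s : ℝ} (h0 : 0 ≤ s) (h1 : s ≤ 1) : IsCompact (capR s) := by
  have c : Continuous (lo s) := by unfold lo; fun_prop
  have hcl : IsClosed (capR s) := by
    refine ((isClosed_le continuous_const continuous_fst).inter
      (isClosed_le continuous_fst continuous_const)).inter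
      ((isClosed_le (c.comp continuous_fst) continuous_snd).inter
        (isClosed_le continuous_snd ?_))
    fun_prop
  refine Metric.isCompact_of_isClosed_isBounded hcl ?_
  have hb : Bornology.IsBounded (Icc (-1 : ℝ) 1 ×ˢ Icc (-1 : ℝ) 1) :=
    (Metric.isBounded_Icc _ _).prod (Metric.isBounded_Icc _ _)
  refine hb.subset ?_
  intro p hp
  have hz : !₂[p.1, p.2] ∈ toProd ⁻¹' capR s := by
    rw [mem_preimage, toProd_apply]
    exact hp
  rw [← cap_eq h0 h1] at hz
  obtain ⟨⟨a, b, -⟩, -⟩ := hz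
  exact ⟨abs_le.1 a, abs_le.1 b⟩

theorem lo_le {s : ℝ} (h0 : 0 ≤ s) (h1 : s ≤ 1) :
    ∀ x ∈ Icc (-(s / (2 - s))) 1, lo s x ≤ min (x + 1) 1 := by
  intro x hx
  have hs : 0 < 2 - s := by linarith
  have hx0' : 0 ≤ s + x * (2 - s) := by
    have : -s ≤ x * (2 - s) := by
      have := mul_le_mul_of_nonneg_right hx.1 hs.le
      rw [neg_mul, div_mul_cancel₀ _ hs.ne'] at this
      linarith
    linarith
  have hx1 := hx.2
  unfold lo ht nx
  rw [le_min_iff]
  constructor
  · nlinarith [mul_nonneg hs.le hx0']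
  · -- s^2-2s+2 - (s^2-4s+2) x ≤ 2
    by_cases hk : s ^ 2 - 4 * s + 2 ≤ 0
    · nlinarith
    · push Not at hk
      have h2 : 0 ≤ (2 - s) * (2 - (s ^ 2 - 2 * s + 2 - (s ^ 2 - 4 * s + 2) * x)) := by
        nlinarith [mul_nonneg hk.le hx0']
      have := nonneg_of_mul_nonneg_right h2 hs
      linarith

theorem fub {s : ℝ} (h0 : 0 ≤ s) (h1 : s ≤ 1) (f : ℝ × ℝ → ℝ) (hf : Continuous f)
    (F : ℝ → ℝ → ℝ) (hF : ∀ x y, HasDerivAt (F x) (f (x, y)) y)
    (G1 G2 : ℝ → ℝ) (hG1 : ∀ x, HasDerivAt G1 (F x (x + 1) - F x (lo s x)) x)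
    (hG2 : ∀ x, HasDerivAt G2 (F x 1 - F x (lo s x)) x)
    (hc1 : Continuous fun x => F x (x + 1) - F x (lo s x))
    (hc2 : Continuous fun x => F x 1 - F x (lo s x)) :
    ∫ z in hexagon ∩ {z | ht s ≤ lin s z}, f (z 0, z 1) =
      (G1 0 - G1 (-(s / (2 - s)))) + (G2 1 - G2 0) := by
  have hs : 0 < 2 - s := by linarith
  have ht0 : 0 ≤ s / (2 - s) := by positivity
  rw [cap_eq h0 h1, integral_toProd]
  rw [show capR s = {p : ℝ × ℝ | (-(s / (2 - s)) ≤ p.1 ∧ p.1 ≤ 1) ∧ lo s p.1 ≤ p.2 ∧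
    p.2 ≤ min (p.1 + 1) 1} from rfl]
  rw [fubini_region (-(s / (2 - s))) 1 (by linarith) (lo s) (fun x => min (x + 1) 1) (lo_le h0 h1)
    (capR_compact h0 h1) f hf]
  have inner : ∀ x a b, ∫ y in a..b, f (x, y) = F x b - F x a := by
    intro x a b
    apply intervalIntegral.integral_eq_sub_of_hasDerivAt (fun y _ => hF x y)
    exact (hf.comp (by fun_prop : Continuous fun y => (x, y))).intervalIntegrable _ _
  have e1 : ∫ x in (-(s / (2 - s)))..0, ∫ y in (lo s x)..(min (x + 1) 1), f (x, y) =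
      G1 0 - G1 (-(s / (2 - s))) := by
    rw [← intervalIntegral.integral_eq_sub_of_hasDerivAt (fun x _ => hG1 x)
      (hc1.intervalIntegrable _ _)]
    apply intervalIntegral.integral_congr
    intro x hx
    rw [uIcc_of_le (by linarith)] at hx
    change ∫ y in (lo s x)..(min (x + 1) 1), f (x, y) = _
    rw [inner, min_eq_left (by linarith [hx.2])]
  have e2 : ∫ x in (0 : ℝ)..1, ∫ y in (lo s x)..(min (x + 1) 1), f (x, y) =
      G2 1 - G2 0 := by
    rw [← intervalIntegral.integral_eq_sub_of_hasDerivAt (fun x _ => hG2 x)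
      (hc2.intervalIntegrable _ _)]
    apply intervalIntegral.integral_congr
    intro x hx
    rw [uIcc_of_le (by linarith)] at hx
    change ∫ y in (lo s x)..(min (x + 1) 1), f (x, y) = _
    rw [inner, min_eq_right (by linarith [hx.1])]
  have hF2 : Continuous fun x => ∫ y in (lo s x)..(min (x + 1) 1), f (x, y) := by
    have hlo : Continuous (lo s) := by unfold lo; fun_prop
    have hm : Continuous fun x : ℝ => min (x + 1) 1 := by fun_prop
    have := intervalIntegral.continuous_parametric_intervalIntegral_of_continuous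
      (f := fun x y => f (x, y)) (a₀ := (0 : ℝ)) (μ := volume) (by exact hf) hm
    have h' := intervalIntegral.continuous_parametric_intervalIntegral_of_continuous
      (f := fun x y => f (x, y)) (a₀ := (0 : ℝ)) (μ := volume) (by exact hf) hlo
    have e : (fun x => ∫ y in (lo s x)..(min (x + 1) 1), f (x, y)) = fun x =>
        (∫ y in (0 : ℝ)..(min (x + 1) 1), f (x, y)) - ∫ y in (0 : ℝ)..(lo s x), f (x, y) := by
      ext x
      have hcx : Continuous fun y => f (x, y) := hf.comp (by fun_prop)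
      rw [intervalIntegral.integral_interval_sub_left (hcx.intervalIntegrable _ _)
        (hcx.intervalIntegrable _ _)]
    rw [e]
    exact this.sub h'
  rw [← intervalIntegral.integral_add_adjacent_intervals (b := 0)
    (hF2.intervalIntegrable _ _) (hF2.intervalIntegrable _ _), e1, e2]

end Q190.FB
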