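import Mathlib
import Pool.Agent.Q190.FBCap

/-!
# Areas and centroids of the caps of the hexagon, continued
-/

namespace Q190.FB

open MeasureTheory Set
open scoped InnerProductSpace

theorem halfspace_closed (s c : ℝ) : IsClosed {z : E 2 | c ≤ lin s z} := by
  have : Continuous fun z : E 2 => lin s z := by unfold lin; fun_prop
  exact isClosed_le continuous_const this

theorem cap_area {s : ℝ} (h0 : 0 ≤ s) (h1 : s ≤ 1) :
    volume.real (hexagon ∩ {z | ht s ≤ lin s z}) = 1 / 2 := by
  have hs : (2 - s) ≠ 0 := by linarith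
  have h := fub h0 h1 (fun _ => 1) continuous_const (fun _ y => y)
    (fun x y => hasDerivAt_id y)
    (fun x => x ^ 2 / 2 + x - (ht s * x - nx s * x ^ 2 / 2) / 2)
    (fun x => x - (ht s * x - nx s * x ^ 2 / 2) / 2)
    (fun x => by
      have a1 : HasDerivAt (fun x : ℝ => x ^ 2 / 2 + x - (ht s * x - nx s * x ^ 2 / 2) / 2)
          ((2 * x ^ 1) / 2 + 1 - (ht s * 1 - nx s * (2 * x ^ 1) / 2) / 2) x := by
        have p2 := hasDerivAt_pow 2 x
        have p1 := hasDerivAt_id x
        exact ((p2.div_const 2).add p1).sub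
          (((p1.const_mul (ht s)).sub ((p2.const_mul (nx s)).div_const 2)).div_const 2)
      convert a1 using 1
      unfold lo; ring)
    (fun x => by
      have a1 : HasDerivAt (fun x : ℝ => x - (ht s * x - nx s * x ^ 2 / 2) / 2)
          (1 - (ht s * 1 - nx s * (2 * x ^ 1) / 2) / 2) x := by
        have p2 := hasDerivAt_pow 2 x
        have p1 := hasDerivAt_id x
        exact p1.sub
          (((p1.const_mul (ht s)).sub ((p2.const_mul (nx s)).div_const 2)).div_const 2)
      convert a1 using 1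
      unfold lo; ring)
    (by unfold lo; fun_prop) (by unfold lo; fun_prop)
  simp only [integral_const, MeasurableSet.univ, measureReal_restrict_apply, univ_inter,
    smul_eq_mul, mul_one] at h
  rw [h]
  unfold ht nx
  field_simp
  ring

theorem cap_x {s : ℝ} (h0 : 0 ≤ s) (h1 : s ≤ 1) :
    ∫ z in hexagon ∩ {z | ht s ≤ lin s z}, z 0 = 2 / 3 * mid s 0 := by
  have hs : (2 - s) ≠ 0 := by linarith
  have h := fub h0 h1 (fun p => p.1) continuous_fst (fun x y => x * y)
    (fun x y => by simpa using (hasDerivAt_id y).const_mul x)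
    (fun x => x ^ 3 / 3 + x ^ 2 / 2 - (ht s * x ^ 2 / 2 - nx s * x ^ 3 / 3) / 2)
    (fun x => x ^ 2 / 2 - (ht s * x ^ 2 / 2 - nx s * x ^ 3 / 3) / 2)
    (fun x => by
      have a1 : HasDerivAt (fun x : ℝ => x ^ 3 / 3 + x ^ 2 / 2 -
          (ht s * x ^ 2 / 2 - nx s * x ^ 3 / 3) / 2)
          ((3 * x ^ 2) / 3 + (2 * x ^ 1) / 2 -
            (ht s * (2 * x ^ 1) / 2 - nx s * (3 * x ^ 2) / 3) / 2) x := by
        have p3 := hasDerivAt_pow 3 x
        have p2 := hasDerivAt_pow 2 x
        exact ((p3.div_const 3).add (p2.div_const 2)).sub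
          ((((p2.const_mul (ht s)).div_const 2).sub
            ((p3.const_mul (nx s)).div_const 3)).div_const 2)
      convert a1 using 1
      unfold lo; ring)
    (fun x => by
      have a1 : HasDerivAt (fun x : ℝ => x ^ 2 / 2 -
          (ht s * x ^ 2 / 2 - nx s * x ^ 3 / 3) / 2)
          ((2 * x ^ 1) / 2 -
            (ht s * (2 * x ^ 1) / 2 - nx s * (3 * x ^ 2) / 3) / 2) x := by
        have p3 := hasDerivAt_pow 3 x
        have p2 := hasDerivAt_pow 2 x
        exact (p2.div_const 2).sub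
          ((((p2.const_mul (ht s)).div_const 2).sub
            ((p3.const_mul (nx s)).div_const 3)).div_const 2)
      convert a1 using 1
      unfold lo; ring)
    (by unfold lo; fun_prop) (by unfold lo; fun_prop)
  simp only at h
  rw [h]
  unfold ht nx mid
  simp
  field_simp
  ring

theorem cap_y {s : ℝ} (h0 : 0 ≤ s) (h1 : s ≤ 1) :
    ∫ z in hexagon ∩ {z | ht s ≤ lin s z}, z 1 = 2 / 3 * mid s 1 := by
  have hs : (2 - s) ≠ 0 := by linarith
  have h := fub h0 h1 (fun p => p.2) continuous_snd (fun x y => y ^ 2 / 2)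
    (fun x y => by
      have := (hasDerivAt_pow 2 y).div_const 2
      have e : ((2 : ℕ) : ℝ) * y ^ (2 - 1) / 2 = y := by simp
      rw [e] at this
      exact this)
    (fun x => (x + 1) ^ 3 / 6 -
      (ht s ^ 2 * x - ht s * nx s * x ^ 2 + nx s ^ 2 * x ^ 3 / 3) / 8)
    (fun x => x / 2 -
      (ht s ^ 2 * x - ht s * nx s * x ^ 2 + nx s ^ 2 * x ^ 3 / 3) / 8)
    (fun x => by
      have p3 := hasDerivAt_pow 3 x
      have p2 := hasDerivAt_pow 2 x
      have p1 := hasDerivAt_id x
      have q3 : HasDerivAt (fun x : ℝ => (x + 1) ^ 3) (3 * (x + 1) ^ 2 * 1) x := by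
        have := HasDerivAt.fun_pow ((hasDerivAt_id x).add_const 1) 3
        simpa using this
      have a1 : HasDerivAt (fun x : ℝ => (x + 1) ^ 3 / 6 -
          (ht s ^ 2 * x - ht s * nx s * x ^ 2 + nx s ^ 2 * x ^ 3 / 3) / 8)
          ((3 * (x + 1) ^ 2 * 1) / 6 - (ht s ^ 2 * 1 - ht s * nx s * (2 * x ^ 1) +
            nx s ^ 2 * (3 * x ^ 2) / 3) / 8) x := by
        exact (q3.div_const 6).sub ((((p1.const_mul (ht s ^ 2)).sub
          (p2.const_mul (ht s * nx s))).add ((p3.const_mul (nx s ^ 2)).div_const 3)).div_const 8)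
      convert a1 using 1
      unfold lo; ring)
    (fun x => by
      have p3 := hasDerivAt_pow 3 x
      have p2 := hasDerivAt_pow 2 x
      have p1 := hasDerivAt_id x
      have a1 : HasDerivAt (fun x : ℝ => x / 2 -
          (ht s ^ 2 * x - ht s * nx s * x ^ 2 + nx s ^ 2 * x ^ 3 / 3) / 8)
          (1 / 2 - (ht s ^ 2 * 1 - ht s * nx s * (2 * x ^ 1) +
            nx s ^ 2 * (3 * x ^ 2) / 3) / 8) x := by
        exact (p1.div_const 2).sub ((((p1.const_mul (ht s ^ 2)).sub
          (p2.const_mul (ht s * nx s))).add ((p3.const_mul (nx s ^ 2)).div_const 3)).div_const 8)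
      convert a1 using 1
      unfold lo; ring)
    (by unfold lo; fun_prop) (by unfold lo; fun_prop)
  simp only at h
  rw [h]
  unfold ht nx mid
  simp
  field_simp
  ring

theorem int_comp (A : Set (E 2)) (hA : IsCompact A) (i : Fin 2) :
    (∫ z in A, z) i = ∫ z in A, z i := by
  have h : IntegrableOn (fun z : E 2 => z) A := continuousOn_id.integrableOn_compact hA
  exact ((EuclideanSpace.proj i : E 2 →L[ℝ] ℝ).integral_comp_comm h).symm

theorem cap_int {s : ℝ} (h0 : 0 ≤ s) (h1 : s ≤ 1) :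
    ∫ z in hexagon ∩ {z | ht s ≤ lin s z}, z = (2 / 3 : ℝ) • mid s := by
  have hc : IsCompact (hexagon ∩ {z | ht s ≤ lin s z}) :=
    hex_compact.inter_right (halfspace_closed s _)
  apply ext2
  · rw [int_comp _ hc, cap_x h0 h1]; rfl
  · rw [int_comp _ hc, cap_y h0 h1]; rfl

theorem vol_hex : volume.real hexagon = 3 := by
  have e : hexagon = toProd ⁻¹' {p : ℝ × ℝ | (-1 ≤ p.1 ∧ p.1 ≤ 1) ∧ max (p.1 - 1) (-1) ≤ p.2 ∧
      p.2 ≤ min (p.1 + 1) 1} := by
    ext z
    simp only [hexagon, mem_ofPred_eq, mem_preimage, toProd_apply, abs_le, le_min_iff, max_le_iff]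
    constructor
    · rintro ⟨⟨a, b⟩, ⟨c, d⟩, e, f⟩
      exact ⟨⟨a, b⟩, ⟨by linarith, c⟩, by linarith, d⟩
    · rintro ⟨⟨a, b⟩, ⟨c, d⟩, e, f⟩
      exact ⟨⟨a, b⟩, ⟨d, f⟩, by linarith, by linarith⟩
  have hcomp : IsCompact {p : ℝ × ℝ | (-1 ≤ p.1 ∧ p.1 ≤ 1) ∧ max (p.1 - 1) (-1) ≤ p.2 ∧
      p.2 ≤ min (p.1 + 1) 1} := by
    have : {p : ℝ × ℝ | (-1 ≤ p.1 ∧ p.1 ≤ 1) ∧ max (p.1 - 1) (-1) ≤ p.2 ∧
        p.2 ≤ min (p.1 + 1) 1} = (fun z : E 2 => (z 0, z 1)) '' hexagon := by
      rw [e]
      ext p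
      constructor
      · intro hp
        exact ⟨!₂[p.1, p.2], hp, rfl⟩
      · rintro ⟨z, hz, rfl⟩
        exact hz
    rw [this]
    exact hex_compact.image (by fun_prop)
  have h1 : volume.real hexagon = ∫ z in hexagon, (1 : ℝ) := by simp
  rw [h1, e]
  rw [integral_toProd _ (fun _ => 1), fubini_region (-1) 1 (by norm_num) (fun x => max (x - 1) (-1))
    (fun x => min (x + 1) 1) _ hcomp (fun _ => 1) continuous_const]
  · simp only [intervalIntegral.integral_const, smul_eq_mul, mul_one]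
    have hcont : Continuous fun x : ℝ => min (x + 1) 1 - max (x - 1) (-1) := by fun_prop
    rw [← intervalIntegral.integral_add_adjacent_intervals (b := 0)
      (hcont.intervalIntegrable _ _) (hcont.intervalIntegrable _ _)]
    have e1 : ∫ x in (-1 : ℝ)..0, (min (x + 1) 1 - max (x - 1) (-1)) =
        ∫ x in (-1 : ℝ)..0, (x + 2) := by
      apply intervalIntegral.integral_congr
      intro x hx
      rw [uIcc_of_le (by norm_num)] at hx
      change min (x + 1) 1 - max (x - 1) (-1) = x + 2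
      rw [min_eq_left (by linarith [hx.2]), max_eq_right (by linarith [hx.2])]
      ring
    have e2 : ∫ x in (0 : ℝ)..1, (min (x + 1) 1 - max (x - 1) (-1)) =
        ∫ x in (0 : ℝ)..1, (2 - x) := by
      apply intervalIntegral.integral_congr
      intro x hx
      rw [uIcc_of_le (by norm_num)] at hx
      change min (x + 1) 1 - max (x - 1) (-1) = 2 - x
      rw [min_eq_right (by linarith [hx.1]), max_eq_left (by linarith [hx.1])]
      ring
    rw [e1, e2, intervalIntegral.integral_add (by simp) (by simp),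
      intervalIntegral.integral_sub (by simp) (by simp)]
    simp
    norm_num
  · intro x hx
    rw [max_le_iff, le_min_iff, le_min_iff]
    exact ⟨⟨by linarith, by linarith [hx.2]⟩, by linarith [hx.1], by norm_num⟩

end Q190.FB
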