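import Mathlib
import Pool.Agent.Q190.FBCen

/-!
# Flotation body and buoyancy body of the hexagon
-/

namespace Q190.FB

open MeasureTheory Set
open scoped InnerProductSpace

/-- Uniqueness of the height of an admissible half-space. -/
theorem unique_height {n : ℕ} {K : Set (E n)} (hK : IsConvexBody K) (f : E n →L[ℝ] ℝ) {c d δ : ℝ}
    (h0 : 0 < δ) (h1 : δ < volume.real K) (hcd : c < d)
    (hc : volume.real (K ∩ {x | c ≤ f x}) = δ) (hd : volume.real (K ∩ {x | d ≤ f x}) = δ) :
    False := by
  have hcl : closure (interior K) = K := by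
    rw [hK.convex.closure_interior_eq_closure_of_nonempty_interior hK.nonempty_interior,
      hK.compact.isClosed.closure_eq]
  obtain ⟨p, hp, hp'⟩ : ∃ p ∈ interior K, f p < d := by
    by_contra hcon
    push Not at hcon
    have hsub : K ⊆ {x | d ≤ f x} := by
      rw [← hcl]
      exact closure_minimal hcon (isClosed_le continuous_const f.continuous)
    rw [inter_eq_self_of_subset_left hsub] at hd
    linarith
  obtain ⟨q, hq, hq'⟩ : ∃ q ∈ interior K, c < f q := by
    by_contra hcon
    push Not at hcon
    have hsub : K ⊆ {x | f x ≤ c} := by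
      rw [← hcl]
      exact closure_minimal hcon (isClosed_le f.continuous continuous_const)
    have : K ∩ {x | d ≤ f x} = ∅ := by
      ext x
      simp only [mem_inter_iff, mem_ofPred_eq, mem_empty_iff_false, iff_false, not_and, not_le]
      intro hx
      have : f x ≤ c := hsub hx
      linarith
    rw [this] at hd
    simp at hd
    linarith
  obtain ⟨z, hz, hz1, hz2⟩ : ∃ z ∈ interior K, c < f z ∧ f z < d := by
    by_cases h1 : c < f p
    · exact ⟨p, hp, h1, hp'⟩
    by_cases h2 : f q < d
    · exact ⟨q, hq, hq', h2⟩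
    push Not at h1 h2
    have hlt : 0 < f q - f p := by linarith
    set t := ((c + d) / 2 - f p) / (f q - f p) with ht
    have ht0 : 0 ≤ t := div_nonneg (by linarith) hlt.le
    have ht1 : t ≤ 1 := by rw [ht, div_le_one hlt]; linarith
    refine ⟨(1 - t) • p + t • q, hK.convex.interior hp hq (by linarith) ht0 (by ring), ?_⟩
    have : f ((1 - t) • p + t • q) = (c + d) / 2 := by
      rw [map_add, map_smul, map_smul, smul_eq_mul, smul_eq_mul]
      have : t * (f q - f p) = (c + d) / 2 - f p := div_mul_cancel₀ _ hlt.ne'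
      linarith
    rw [this]
    constructor <;> linarith
  set U : Set (E n) := interior K ∩ {x | c < f x ∧ f x < d} with hU
  have hUo : IsOpen U := isOpen_interior.inter
    ((isOpen_lt continuous_const f.continuous).inter (isOpen_lt f.continuous continuous_const))
  have hUpos : 0 < volume U := hUo.measure_pos volume ⟨z, hz, hz1, hz2⟩
  have hfin : volume (K ∩ {x | c ≤ f x}) ≠ ⊤ :=
    ((measure_mono inter_subset_left).trans_lt hK.compact.measure_lt_top).ne
  have hdm : MeasurableSet (K ∩ {x | d ≤ f x}) :=
    (hK.compact.isClosed.inter (isClosed_le continuous_const f.continuous)).measurableSet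
  have hdisj : Disjoint U (K ∩ {x | d ≤ f x}) := by
    rw [Set.disjoint_left]
    rintro x ⟨-, -, h2⟩ ⟨-, h3⟩
    have h3' : d ≤ f x := h3
    linarith
  have hle : volume (U ∪ (K ∩ {x | d ≤ f x})) ≤ volume (K ∩ {x | c ≤ f x}) := by
    apply measure_mono
    rintro x (⟨h1, h2, -⟩ | ⟨h1, h2⟩)
    · exact ⟨interior_subset h1, le_of_lt h2⟩
    · exact ⟨h1, le_trans hcd.le h2⟩
  rw [measure_union hdisj hdm] at hle
  have hfin' : volume (K ∩ {x | d ≤ f x}) ≠ ⊤ :=
    ((measure_mono inter_subset_left).trans_lt hK.compact.measure_lt_top).ne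
  have heq : volume (K ∩ {x | d ≤ f x}) = volume (K ∩ {x | c ≤ f x}) := by
    rw [← ENNReal.toReal_eq_toReal_iff' hfin' hfin]
    exact hd.trans hc.symm
  rw [heq] at hle
  have : volume (K ∩ {x | c ≤ f x}) < volume U + volume (K ∩ {x | c ≤ f x}) := by
    rw [add_comm]
    exact ENNReal.lt_add_right hfin hUpos.ne'
  exact absurd hle (not_le.2 this)

/-- The functional as a continuous linear map. -/
noncomputable def linL (s : ℝ) : E 2 →L[ℝ] ℝ :=
  nx s • (EuclideanSpace.proj 0 : E 2 →L[ℝ] ℝ) + (2 : ℝ) • (EuclideanSpace.proj 1 : E 2 →L[ℝ] ℝ)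

theorem linL_apply (s : ℝ) (z : E 2) : linL s z = lin s z := by
  simp [linL, lin]

theorem lin_mid {s : ℝ} (h1 : s ≤ 1) : lin s (mid s) = ht s := by
  have hs : (2 - s) ≠ 0 := by linarith
  unfold lin mid ht nx
  simp
  field_simp
  ring

/-- The pullback of the base half-space. -/
def HS (k : ℕ) (s : ℝ) : Set (E 2) := {z | ht s ≤ lin s (rot^[k] z)}

theorem rot_add (j k : ℕ) (z : E 2) : rot^[j] (rot^[k] z) = rot^[j + k] z := by
  rw [Function.iterate_add_apply]

theorem rot_mod (k : ℕ) (z : E 2) : rot^[k] z = rot^[k % 6] z := by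
  conv_lhs => rw [← Nat.mod_add_div k 6]
  rw [Function.iterate_add_apply, Function.iterate_mul]
  congr 1
  exact Function.iterate_fixed (rot_six z) _

theorem cover_lin (a b : ℝ) (hab : a ≠ 0 ∨ b ≠ 0) : ∃ k < 6, ∃ s ∈ Icc (0 : ℝ) 1, ∃ r > 0,
    ∀ z : E 2, a * z 0 + b * z 1 = r * lin s (rot^[k] z) := by
  -- base case
  have base : ∀ a b : ℝ, (a ≠ 0 ∨ b ≠ 0) → 0 ≤ b - a → 0 ≤ 2 * a + b →
      ∃ s ∈ Icc (0 : ℝ) 1, ∃ r > 0, a = r * nx s ∧ b = r * 2 := by
    intro a b hab h1 h2
    have hb : 0 < b := by
      rcases hab with h | h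
      · by_contra hc
        push Not at hc
        have : a = 0 := by linarith
        exact h this
      · rcases lt_or_gt_of_ne h with h | h
        · linarith
        · exact h
    have hr : -1 ≤ 2 * a / b := by rw [le_div_iff₀ hb]; linarith
    have hr' : 2 * a / b ≤ 2 := by rw [div_le_iff₀ hb]; linarith
    -- solve `s^2 - 4 s + 2 = 2 a / b`
    set w := Real.sqrt (2 + 2 * a / b) with hw
    have hw2 : w ^ 2 = 2 + 2 * a / b := Real.sq_sqrt (by linarith)
    have hw0 : 0 ≤ w := Real.sqrt_nonneg _
    have hw1 : 1 ≤ w := by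
      rw [hw]; exact Real.one_le_sqrt.2 (by linarith)
    have hw3 : w ≤ 2 := by
      rw [hw, Real.sqrt_le_left (by norm_num)]
      linarith
    refine ⟨2 - w, ⟨by linarith, by linarith⟩, b / 2, by linarith, ?_, by ring⟩
    unfold nx
    have : (2 - w) ^ 2 - 4 * (2 - w) + 2 = w ^ 2 - 2 := by ring
    rw [this, hw2]
    field_simp
    ring
  by_cases p : 0 ≤ b - a <;> by_cases q : 0 ≤ 2 * a + b
  · obtain ⟨s, hs, r, hr, h1, h2⟩ := base a b hab p q
    refine ⟨0, by norm_num, s, hs, r, hr, fun z => ?_⟩
    simp only [Function.iterate_zero, id, lin]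
    rw [h1, h2]; ring
  · -- p ≥ 0, q < 0
    push Not at q
    by_cases w : 0 ≤ a + 2 * b
    · -- `N^{-1} (a,b) = (a+b,-a)`
      obtain ⟨s, hs, r, hr, h1, h2⟩ := base (a + b) (-a) (by
        rcases hab with h | h
        · right; simpa using h
        · by_contra hc; push Not at hc
          apply h; linarith [hc.1, hc.2]) (by linarith) (by linarith)
      refine ⟨5, by norm_num, s, hs, r, hr, fun z => ?_⟩
      simp only [Function.iterate_succ, Function.iterate_zero, Function.comp, id, lin, rot0, rot1]
      have ea : a = -(r * 2) := by linarith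
      have eb : b = r * nx s + r * 2 := by linarith
      rw [ea, eb]; ring
    · push Not at w
      obtain ⟨s, hs, r, hr, h1, h2⟩ := base b (-a - b) (by
        rcases hab with h | h
        · by_contra hc; push Not at hc
          apply h; linarith [hc.1, hc.2]
        · left; exact h) (by linarith) (by linarith)
      refine ⟨4, by norm_num, s, hs, r, hr, fun z => ?_⟩
      simp only [Function.iterate_succ, Function.iterate_zero, Function.comp, id, lin, rot0, rot1]
      have ea : a = -(r * 2) - r * nx s := by linarith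
      rw [ea, h1]; ring
  · -- p < 0, q ≥ 0
    push Not at p
    by_cases w : 0 ≤ a + 2 * b
    · -- `N (a,b) = (-b, a+b)`
      obtain ⟨s, hs, r, hr, h1, h2⟩ := base (-b) (a + b) (by
        rcases hab with h | h
        · by_contra hc; push Not at hc
          apply h; linarith [hc.1, hc.2]
        · left; simpa using h) (by linarith) (by linarith)
      refine ⟨1, by norm_num, s, hs, r, hr, fun z => ?_⟩
      simp only [Function.iterate_succ, Function.iterate_zero, Function.comp, id, lin, rot0, rot1]
      have eb : b = -(r * nx s) := by linarith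
      have ea : a = r * 2 + r * nx s := by linarith
      rw [ea, eb]; ring
    · push Not at w
      obtain ⟨s, hs, r, hr, h1, h2⟩ := base (-a - b) a (by
        rcases hab with h | h
        · right; exact h
        · by_contra hc; push Not at hc
          apply h; linarith [hc.1, hc.2]) (by linarith) (by linarith)
      refine ⟨2, by norm_num, s, hs, r, hr, fun z => ?_⟩
      simp only [Function.iterate_succ, Function.iterate_zero, Function.comp, id, lin, rot0, rot1]
      have eb : b = -(r * 2) - r * nx s := by linarith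
      rw [h2, eb]; ring
  · push Not at p q
    obtain ⟨s, hs, r, hr, h1, h2⟩ := base (-a) (-b) (by
      rcases hab with h | h
      · left; simpa using h
      · right; simpa using h) (by linarith) (by linarith)
    refine ⟨3, by norm_num, s, hs, r, hr, fun z => ?_⟩
    simp only [Function.iterate_succ, Function.iterate_zero, Function.comp, id, lin, rot0, rot1]
    have ea : a = -(r * nx s) := by linarith
    have eb : b = -(r * 2) := by linarith
    rw [ea, eb]; ring

/-- All midpoints lie below all water lines. -/
theorem six_ineq {s u : ℝ} (hs : s ∈ Icc (0 : ℝ) 1) (hu : u ∈ Icc (0 : ℝ) 1) (k : ℕ) :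
    lin u (rot^[k] (mid s)) ≤ ht u := by
  rw [rot_mod]
  have hk : k % 6 < 6 := Nat.mod_lt _ (by norm_num)
  generalize k % 6 = j at hk
  obtain ⟨s0, s1⟩ := hs
  obtain ⟨u0, u1⟩ := hu
  have hp : 0 < 2 - s := by linarith
  have hp' : (2 - s) ≠ 0 := hp.ne'
  have m0 : mid s 0 = (1 - s) / (2 - s) := rfl
  have m1 : mid s 1 = s / 2 + (1 - s) / (2 - s) := rfl
  have hu2 : 0 ≤ u * (1 - u) := mul_nonneg u0 (by linarith)
  have hs2 : 0 ≤ s * (1 - s) := mul_nonneg s0 (by linarith)
  rw [← sub_nonneg]
  interval_cases j
  · have : ht u - lin u (rot^[0] (mid s)) = (s - u) ^ 2 / (2 - s) := by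
      simp only [Function.iterate_zero, id, lin, m0, m1, ht, nx]
      field_simp
      ring
    rw [this]
    positivity
  · have : ht u - lin u (rot^[1] (mid s)) = ((2 - s) * (1 - u) ^ 2 +
        s * (2 - s) * ((1 - u) ^ 2 + 2 * (1 - u)) / 2 + s ^ 2 / 2) / (2 - s) := by
      simp only [Function.iterate_succ, Function.iterate_zero, Function.comp, id, lin, rot0, rot1,
        m0, m1, ht, nx]
      field_simp
      ring
    rw [this]
    have h3 : 0 ≤ 1 - u := by linarith
    positivity
  · have : ht u - lin u (rot^[2] (mid s)) = ((2 - s) * (ht u + nx u * s / 2 + s) +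
        nx u * (1 - s)) / (2 - s) := by
      simp only [Function.iterate_succ, Function.iterate_zero, Function.comp, id, lin, rot0, rot1,
        m0, m1]
      field_simp
      ring
    rw [this]
    have h4 : -1 ≤ nx u := by unfold nx; nlinarith
    have h5 : 1 ≤ ht u := by unfold ht; nlinarith
    have h6 : 1 ≤ ht u + nx u * s / 2 + s := by nlinarith
    apply div_nonneg _ hp.le
    nlinarith [mul_nonneg (show 0 ≤ nx u + 1 by linarith) (show 0 ≤ 1 - s by linarith)]
  · have : ht u - lin u (rot^[3] (mid s)) = ((2 - s) * (ht u + s) +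
        (nx u + 2) * (1 - s)) / (2 - s) := by
      simp only [Function.iterate_succ, Function.iterate_zero, Function.comp, id, lin, rot0, rot1,
        m0, m1]
      field_simp
      ring
    rw [this]
    have h4 : -1 ≤ nx u := by unfold nx; nlinarith
    have h5 : 1 ≤ ht u := by unfold ht; nlinarith
    have h6 : 0 ≤ (nx u + 2) * (1 - s) := mul_nonneg (by linarith) (by linarith)
    apply div_nonneg _ hp.le
    nlinarith
  · have : ht u - lin u (rot^[4] (mid s)) = ((2 - s) * (ht u - nx u * s / 2) +
        2 * (1 - s)) / (2 - s) := by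
      simp only [Function.iterate_succ, Function.iterate_zero, Function.comp, id, lin, rot0, rot1,
        m0, m1]
      field_simp
      ring
    rw [this]
    have h5 : 1 ≤ ht u := by unfold ht; nlinarith
    have h7 : nx u ≤ ht u := by unfold ht nx; nlinarith
    have h6 : 0 ≤ ht u - nx u * s / 2 := by
      by_cases h : 0 ≤ nx u
      · nlinarith
      · push Not at h; nlinarith
    apply div_nonneg _ hp.le
    nlinarith
  · have : ht u - lin u (rot^[5] (mid s)) = (2 * (1 - s) ^ 2 + u ^ 2 * (1 + (1 - s) ^ 2) / 2 +
        2 * u * (1 - s) * s) / (2 - s) := by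
      simp only [Function.iterate_succ, Function.iterate_zero, Function.comp, id, lin, rot0, rot1,
        m0, m1, ht, nx]
      field_simp
      ring
    rw [this]
    have h3 : 0 ≤ 1 - s := by linarith
    positivity

end Q190.FB
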