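import Mathlib
import Pool.Agent.Q190.FBMain
import Pool.Agent.Y98.EC.Hull

/-!
# Flotation body and buoyancy body of the hexagon are homothetic
-/

namespace Q190.FB

open MeasureTheory Set
open scoped InnerProductSpace

theorem rot_cont : Continuous rot := rot.continuous_of_finiteDimensional

theorem rot_inj : Function.Injective rot := by
  intro x y h
  have h0 : rot x 0 = rot y 0 := by rw [h]
  have h1 : rot x 1 = rot y 1 := by rw [h]
  rw [rot0, rot0] at h0
  rw [rot1, rot1] at h1
  exact ext2 h1 (by linarith)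

theorem rot_emb : MeasurableEmbedding rot := rot_cont.measurableEmbedding rot_inj

theorem rot_iter_cont (k : ℕ) : Continuous (rot^[k]) := rot_cont.iterate k

theorem rot_iter_inj (k : ℕ) : Function.Injective (rot^[k]) := rot_inj.iterate k

theorem rot_iter_surj (k : ℕ) (y : E 2) : ∃ x, rot^[k] x = y := by
  refine ⟨rot^[5 * k] y, ?_⟩
  rw [rot_add, rot_mod]
  have : (k + 5 * k) % 6 = 0 := by omega
  rw [this]
  rfl

theorem rot_iter_add (k : ℕ) (x y : E 2) : rot^[k] (x + y) = rot^[k] x + rot^[k] y := by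
  induction k with
  | zero => rfl
  | succ k ih => rw [Function.iterate_succ_apply', Function.iterate_succ_apply',
      Function.iterate_succ_apply', ih, map_add]

theorem rot_iter_smul (k : ℕ) (c : ℝ) (x : E 2) : rot^[k] (c • x) = c • rot^[k] x := by
  induction k with
  | zero => rfl
  | succ k ih => rw [Function.iterate_succ_apply', Function.iterate_succ_apply', ih, map_smul]

theorem rot_int (B : Set (E 2)) (hB : IsCompact B) :
    rot (∫ z in rot ⁻¹' B, z) = ∫ z in B, z := by
  have hcomp : IsCompact (rot ⁻¹' B) := by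
    have : rot ⁻¹' B = rot^[5] '' B := by
      ext x
      constructor
      · intro hx
        exact ⟨rot x, hx, rot_six x⟩
      · rintro ⟨y, hy, rfl⟩
        have : rot (rot^[5] y) = y := by
          have := Function.iterate_succ_apply' rot 5 y
          rw [← this]
          exact rot_six y
        rw [mem_preimage, this]
        exact hy
    rw [this]
    exact hB.image (rot_iter_cont 5)
  have h : IntegrableOn (fun z : E 2 => z) (rot ⁻¹' B) := continuousOn_id.integrableOn_compact hcomp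
  have h1 := (rot.toContinuousLinearMap).integral_comp_comm h
  change ∫ z in rot ⁻¹' B, rot z = rot (∫ z in rot ⁻¹' B, z) at h1
  rw [← h1]
  exact rot_mp.setIntegral_preimage_emb rot_emb (fun z => z) B

theorem rot_iter_int (k : ℕ) (B : Set (E 2)) (hB : IsCompact B) :
    rot^[k] (∫ z in rot^[k] ⁻¹' B, z) = ∫ z in B, z := by
  induction k generalizing B with
  | zero => rfl
  | succ k ih =>
    have hc : IsCompact (rot^[k] ⁻¹' B) := by
      have : rot^[k] ⁻¹' B = rot^[5 * k] '' B := by
        ext x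
        constructor
        · intro hx
          refine ⟨rot^[k] x, hx, ?_⟩
          rw [rot_add, rot_mod]
          have : (5 * k + k) % 6 = 0 := by omega
          rw [this]; rfl
        · rintro ⟨y, hy, rfl⟩
          have : rot^[k] (rot^[5 * k] y) = y := by
            rw [rot_add, rot_mod]
            have : (k + 5 * k) % 6 = 0 := by omega
            rw [this]; rfl
          rw [mem_preimage, this]
          exact hy
      rw [this]
      exact hB.image (rot_iter_cont _)
    have e : rot^[k + 1] ⁻¹' B = rot ⁻¹' (rot^[k] ⁻¹' B) := by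
      ext x; simp [Function.iterate_succ_apply]
    rw [e, Function.iterate_succ_apply, rot_int _ hc, ih B hB]

theorem vol_pull (k : ℕ) (s c : ℝ) :
    volume.real (hexagon ∩ {z | c ≤ lin s (rot^[k] z)}) =
      volume.real (hexagon ∩ {z | c ≤ lin s z}) := by
  have e : hexagon ∩ {z | c ≤ lin s (rot^[k] z)} = rot^[k] ⁻¹' (hexagon ∩ {z | c ≤ lin s z}) := by
    ext z
    simp only [mem_inter_iff, mem_ofPred_eq, mem_preimage, rot_iter_hex]
  rw [e, measureReal_def, measureReal_def, (rot_iter_mp k).measure_preimage]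
  exact (hex_closed.inter (halfspace_closed s c)).measurableSet.nullMeasurableSet

/-- The functional `z ↦ a z₀ + b z₁` is given by a nonzero vector. -/
theorem lin_eq (k : ℕ) (s : ℝ) : ∃ u : E 2, u ≠ 0 ∧ ∀ z, lin s (rot^[k] z) = ⟪u, z⟫_ℝ := by
  obtain ⟨w, hw⟩ := rot_iter_surj k (!₂[0, 1])
  have hlin : IsLinearMap ℝ fun z : E 2 => lin s (rot^[k] z) :=
    ⟨fun x y => by rw [rot_iter_add]; simp only [lin, PiLp.add_apply]; ring,
      fun c x => by rw [rot_iter_smul]; simp only [lin, PiLp.smul_apply, smul_eq_mul]; ring⟩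
  set f : E 2 →L[ℝ] ℝ := (hlin.mk' _).toContinuousLinearMap with hf
  refine ⟨(InnerProductSpace.toDual ℝ (E 2)).symm f, ?_, ?_⟩
  · intro h0
    have h1 : f w = ⟪(InnerProductSpace.toDual ℝ (E 2)).symm f, w⟫_ℝ := by
      rw [InnerProductSpace.toDual_symm_apply]
    rw [h0, inner_zero_left] at h1
    have h2 : f w = lin s (rot^[k] w) := rfl
    rw [h2, hw] at h1
    simp [lin] at h1
  · intro z
    rw [InnerProductSpace.toDual_symm_apply]
    rfl

theorem admissible_iff (H : Set (E 2)) :
    Admissible hexagon (1 / 2) H ↔ ∃ k < 6, ∃ s ∈ Icc (0 : ℝ) 1, H = HS k s := by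
  constructor
  · rintro ⟨⟨u, c, hu, rfl⟩, hvol⟩
    have huu : u 0 ≠ 0 ∨ u 1 ≠ 0 := by
      by_contra hc
      push Not at hc
      exact hu (ext2 hc.1 hc.2)
    obtain ⟨k, hk, s, hs, r, hr, h⟩ := cover_lin (u 0) (u 1) huu
    refine ⟨k, hk, s, hs, ?_⟩
    have e : {x : E 2 | c ≤ ⟪u, x⟫_ℝ} = {x | c / r ≤ lin s (rot^[k] x)} := by
      ext x
      simp only [mem_ofPred_eq]
      rw [inner2, h x, div_le_iff₀ hr, mul_comm]
    rw [e] at hvol ⊢
    rw [vol_pull] at hvol
    have hcap := cap_area hs.1 hs.2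
    have hceq : c / r = ht s := by
      have hb : (1 / 2 : ℝ) < volume.real hexagon := by rw [vol_hex]; norm_num
      rcases lt_trichotomy (c / r) (ht s) with h1 | h1 | h1
      · exact (unique_height hex_body (linL s) (by norm_num) hb h1
          (by simpa only [linL_apply] using hvol) (by simpa only [linL_apply] using hcap)).elim
      · exact h1
      · exact (unique_height hex_body (linL s) (by norm_num) hb h1
          (by simpa only [linL_apply] using hcap) (by simpa only [linL_apply] using hvol)).elim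
    rw [hceq]
    rfl
  · rintro ⟨k, -, s, hs, rfl⟩
    obtain ⟨u, hu, h⟩ := lin_eq k s
    refine ⟨⟨u, ht s, hu, ?_⟩, ?_⟩
    · ext z
      simp only [HS, mem_ofPred_eq, h]
    · rw [HS, vol_pull, cap_area hs.1 hs.2]

theorem centroid_HS (k : ℕ) {s : ℝ} (hs : s ∈ Icc (0 : ℝ) 1) :
    rot^[k] (centroid (hexagon ∩ HS k s)) = (4 / 3 : ℝ) • mid s := by
  have e : hexagon ∩ HS k s = rot^[k] ⁻¹' (hexagon ∩ {z | ht s ≤ lin s z}) := by
    ext z
    simp only [mem_inter_iff, HS, mem_ofPred_eq, mem_preimage, rot_iter_hex]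
  have hv : volume.real (hexagon ∩ HS k s) = 1 / 2 := by
    rw [HS, vol_pull, cap_area hs.1 hs.2]
  rw [centroid, hv, rot_iter_smul, e, rot_iter_int k _
    (hex_compact.inter_right (halfspace_closed s _)), cap_int hs.1 hs.2, smul_smul]
  norm_num

/-- The set of midpoints of the chords of flotation. -/
def Mids : Set (E 2) := {p | ∃ k < 6, ∃ s ∈ Icc (0 : ℝ) 1, rot^[k] p = mid s}

theorem centroids_eq : {p | ∃ H : Set (E 2), Admissible hexagon (1 / 2) H ∧
    p = centroid (hexagon ∩ H)} = (fun x => (4 / 3 : ℝ) • x) '' Mids := by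
  ext p
  constructor
  · rintro ⟨H, hH, rfl⟩
    obtain ⟨k, hk, s, hs, rfl⟩ := (admissible_iff H).1 hH
    refine ⟨(3 / 4 : ℝ) • centroid (hexagon ∩ HS k s), ⟨k, hk, s, hs, ?_⟩, ?_⟩
    · rw [rot_iter_smul, centroid_HS k hs, smul_smul]; norm_num
    · simp only [smul_smul]; norm_num
  · rintro ⟨x, ⟨k, hk, s, hs, h⟩, rfl⟩
    refine ⟨HS k s, (admissible_iff _).2 ⟨k, hk, s, hs, rfl⟩, ?_⟩
    apply rot_iter_inj k
    rw [centroid_HS k hs, rot_iter_smul, h]

theorem mid_hex {s : ℝ} (hs : s ∈ Icc (0 : ℝ) 1) : mid s ∈ hexagon := by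
  have hp : 0 < 2 - s := by linarith [hs.2]
  have m0 : mid s 0 = (1 - s) / (2 - s) := rfl
  have m1 : mid s 1 = s / 2 + (1 - s) / (2 - s) := rfl
  have h0 : 0 ≤ (1 - s) / (2 - s) := div_nonneg (by linarith [hs.2]) hp.le
  have h1 : (1 - s) / (2 - s) ≤ 1 / 2 := by
    rw [div_le_div_iff₀ hp (by norm_num)]; linarith [hs.1]
  refine ⟨?_, ?_, ?_⟩
  · rw [m0, abs_le]; constructor <;> linarith
  · rw [m1, abs_le]; constructor <;> linarith [hs.1, hs.2]
  · rw [m0, m1, abs_le]; constructor <;> linarith [hs.1, hs.2]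

theorem closure_diff {k : ℕ} {s : ℝ} (hs : s ∈ Icc (0 : ℝ) 1) :
    closure (hexagon \ HS k s) = hexagon ∩ {z | lin s (rot^[k] z) ≤ ht s} := by
  have hlc : Continuous fun z : E 2 => lin s (rot^[k] z) := by
    have : Continuous fun z : E 2 => lin s z := by unfold lin; fun_prop
    exact this.comp (rot_iter_cont k)
  apply Subset.antisymm
  · apply closure_minimal
    · rintro z ⟨hz, hz'⟩
      refine ⟨hz, ?_⟩
      have : ¬ (ht s ≤ lin s (rot^[k] z)) := hz'
      exact le_of_lt (not_le.1 this)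
    · exact hex_closed.inter (isClosed_le hlc continuous_const)
  · rintro z ⟨hz, hz'⟩
    have hz2 : lin s (rot^[k] z) ≤ ht s := hz'
    have hpos : 0 < ht s := by unfold ht; nlinarith [sq_nonneg (s - 1)]
    -- the points `t z`, `t < 1`
    have hlin : ∀ t : ℝ, lin s (rot^[k] (t • z)) = t * lin s (rot^[k] z) := by
      intro t
      rw [rot_iter_smul]
      simp only [lin, PiLp.smul_apply, smul_eq_mul]
      ring
    have hmem : ∀ t ∈ Ico (0 : ℝ) 1, t • z ∈ hexagon \ HS k s := by
      intro t ht'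
      refine ⟨?_, ?_⟩
      · have := hex_convex (interior_subset hex_int) hz (sub_nonneg.2 ht'.2.le) ht'.1 (by ring)
        simpa using this
      · intro hcon
        have hcon' : ht s ≤ lin s (rot^[k] (t • z)) := hcon
        rw [hlin] at hcon'
        by_cases hneg : 0 ≤ lin s (rot^[k] z)
        · nlinarith [ht'.1, ht'.2]
        · push Not at hneg
          nlinarith [ht'.1, ht'.2]
    have htend : Filter.Tendsto (fun t : ℝ => t • z) (nhdsWithin 1 (Iio 1)) (nhds z) := by
      have : Filter.Tendsto (fun t : ℝ => t • z) (nhds 1) (nhds ((1 : ℝ) • z)) :=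
        (continuous_id.smul continuous_const).tendsto 1
      rw [one_smul] at this
      exact this.mono_left nhdsWithin_le_nhds
    apply mem_closure_of_tendsto htend
    have h1 : ∀ᶠ t : ℝ in nhdsWithin 1 (Iio 1), t ∈ Ioo (0 : ℝ) 1 :=
      Ioo_mem_nhdsLT (by norm_num)
    filter_upwards [h1] with t ht'
    exact hmem t ⟨ht'.1.le, ht'.2⟩

theorem mem_flotation (x : E 2) : x ∈ flotationBody hexagon (1 / 2) ↔
    ∀ k < 6, ∀ s ∈ Icc (0 : ℝ) 1, x ∈ hexagon ∧ lin s (rot^[k] x) ≤ ht s := by
  unfold flotationBody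
  simp only [mem_iInter]
  constructor
  · intro h k hk s hs
    have := h (HS k s) ((admissible_iff _).2 ⟨k, hk, s, hs, rfl⟩)
    rw [closure_diff hs] at this
    exact this
  · intro h H hH
    obtain ⟨k, hk, s, hs, rfl⟩ := (admissible_iff H).1 hH
    rw [closure_diff hs]
    exact h k hk s hs

theorem flotation_convex : Convex ℝ (flotationBody hexagon (1 / 2)) := by
  intro x hx y hy a b ha hb hab
  rw [mem_flotation] at *
  intro k hk s hs
  obtain ⟨x1, x2⟩ := hx k hk s hs
  obtain ⟨y1, y2⟩ := hy k hk s hs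
  refine ⟨hex_convex x1 y1 ha hb hab, ?_⟩
  have : lin s (rot^[k] (a • x + b • y)) = a * lin s (rot^[k] x) + b * lin s (rot^[k] y) := by
    rw [rot_iter_add, rot_iter_smul, rot_iter_smul]
    simp only [lin, PiLp.smul_apply, PiLp.add_apply, smul_eq_mul]
    ring
  rw [this]
  have h1 := mul_le_mul_of_nonneg_left x2 ha
  have h2 := mul_le_mul_of_nonneg_left y2 hb
  have h3 : a * ht s + b * ht s = ht s := by rw [← add_mul, hab, one_mul]
  linarith

theorem Mids_compact : IsCompact Mids := by
  have e : Mids = ⋃ k ∈ Finset.range 6, (fun s => rot^[5 * k] (mid s)) '' Icc (0 : ℝ) 1 := by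
    ext p
    simp only [Mids, mem_ofPred_eq, mem_iUnion, Finset.mem_range, exists_prop, mem_image]
    constructor
    · rintro ⟨k, hk, s, hs, h⟩
      refine ⟨k, hk, s, hs, ?_⟩
      rw [← h, rot_add, rot_mod]
      have : (5 * k + k) % 6 = 0 := by omega
      rw [this]; rfl
    · rintro ⟨k, hk, s, hs, rfl⟩
      refine ⟨k, hk, s, hs, ?_⟩
      rw [rot_add, rot_mod]
      have : (k + 5 * k) % 6 = 0 := by omega
      rw [this]; rfl
  rw [e]
  apply (Finset.range 6).isCompact_biUnion
  intro k _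
  apply isCompact_Icc.image_of_continuousOn
  apply (rot_iter_cont _).comp_continuousOn
  have h1 : ContinuousOn (fun s : ℝ => (1 - s) / (2 - s)) (Icc 0 1) := by
    apply ContinuousOn.div (by fun_prop) (by fun_prop)
    intro s hs
    have := hs.2
    linarith
  have h2 : ContinuousOn (fun s : ℝ => s / 2 + (1 - s) / (2 - s)) (Icc 0 1) :=
    ContinuousOn.add (by fun_prop) h1
  have h3 : ContinuousOn (fun s : ℝ => (![(1 - s) / (2 - s), s / 2 + (1 - s) / (2 - s)] :
      Fin 2 → ℝ)) (Icc 0 1) := by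
    rw [continuousOn_pi]
    intro i
    fin_cases i
    · exact h1
    · exact h2
  exact (PiLp.continuous_toLp 2 _).comp_continuousOn h3

theorem flotation_eq : flotationBody hexagon (1 / 2) = convexHull ℝ Mids := by
  apply Subset.antisymm
  · intro x hx
    by_contra hcon
    have hcomp : IsCompact (convexHull ℝ Mids) := Pool.Agent.Y98.EC.isCompact_hull Mids_compact
    obtain ⟨f, r, h1, h2⟩ := geometric_hahn_banach_closed_point (convex_convexHull ℝ Mids)
      hcomp.isClosed hcon
    set u := (InnerProductSpace.toDual ℝ (E 2)).symm f with hu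
    have hf : ∀ z, f z = u 0 * z 0 + u 1 * z 1 := by
      intro z
      rw [← inner2, hu, InnerProductSpace.toDual_symm_apply]
    have hne : u 0 ≠ 0 ∨ u 1 ≠ 0 := by
      by_contra hc
      push Not at hc
      have hm : mid 0 ∈ Mids := ⟨0, by norm_num, 0, ⟨le_rfl, zero_le_one⟩, rfl⟩
      have a1 := h1 _ (subset_convexHull ℝ _ hm)
      rw [hf, hc.1, hc.2] at a1 h2
      simp at a1 h2
      linarith
    obtain ⟨k, hk, s, hs, c, hc, h⟩ := cover_lin (u 0) (u 1) hne
    obtain ⟨p, hp⟩ := rot_iter_surj k (mid s)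
    have hpM : p ∈ Mids := ⟨k, hk, s, hs, hp⟩
    have a1 := h1 _ (subset_convexHull ℝ _ hpM)
    rw [hf, h, hp, lin_mid hs.2] at a1
    have a2 := ((mem_flotation x).1 hx k hk s hs).2
    rw [hf, h] at h2
    have := mul_le_mul_of_nonneg_left a2 hc.le
    linarith
  · apply convexHull_min _ flotation_convex
    rintro p ⟨j, hj, t, ht', hp⟩
    rw [mem_flotation]
    intro k hk s hs
    constructor
    · rw [← rot_iter_hex j, hp]
      exact mid_hex ht'
    · have : rot^[k] p = rot^[k + 5 * j] (mid t) := by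
        rw [← hp, rot_add, rot_mod (k + 5 * j + j) p]
        have h6 : (k + 5 * j + j) % 6 = k := by omega
        rw [h6]
      rw [this]
      exact six_ineq ht' hs _

theorem buoyancy_eq :
    (fun x => (4 / 3 : ℝ) • x) '' flotationBody hexagon (1 / 2) = buoyancyBody hexagon (1 / 2) := by
  rw [flotation_eq, buoyancyBody, centroids_eq]
  exact (LinearMap.lsmul ℝ (E 2) (4 / 3)).image_convexHull Mids

theorem homothetic : Homothetic (flotationBody hexagon (1 / 2)) (buoyancyBody hexagon (1 / 2)) := by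
  refine ⟨0, 4 / 3, by norm_num, ?_⟩
  rw [← buoyancy_eq]
  simp

theorem not_ellipsoid : ¬ IsEllipsoid hexagon := by
  rintro ⟨T, hT⟩
  have hp : (!₂[1, 0] : E 2) ∈ hexagon := by simp [hexagon]
  have hq : (!₂[1, 1] : E 2) ∈ hexagon := by simp [hexagon]
  rw [hT] at hp hq
  obtain ⟨p, hp, hp'⟩ := hp
  obtain ⟨q, hq, hq'⟩ := hq
  have hne : p ≠ q := by
    rintro rfl
    rw [hp'] at hq'
    have := congrArg (fun z : E 2 => z 1) hq'
    simp at this
  have hmid : (1 / 2 : ℝ) • p + (1 / 2 : ℝ) • q ∈ interior (Metric.closedBall (0 : E 2) 1) :=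
    strictConvex_closedBall ℝ (0 : E 2) 1 hp hq hne (by norm_num) (by norm_num) (by norm_num)
  have himg : T ((1 / 2 : ℝ) • p + (1 / 2 : ℝ) • q) = !₂[1, 1 / 2] := by
    have e1 : (1 / 2 : ℝ) • p + (1 / 2 : ℝ) • q = AffineMap.lineMap p q (1 / 2 : ℝ) := by
      rw [AffineMap.lineMap_apply_module]; norm_num
    rw [e1]
    have := (T : E 2 →ᵃ[ℝ] E 2).apply_lineMap p q (1 / 2 : ℝ)
    change T (AffineMap.lineMap p q (1 / 2 : ℝ)) = _ at this
    rw [this]
    change AffineMap.lineMap (T p) (T q) (1 / 2 : ℝ) = _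
    rw [hp', hq', AffineMap.lineMap_apply_module]
    apply ext2
    · simp
    · simp
  have hTo : IsOpenMap T := (AffineEquiv.toContinuousAffineEquiv T).toHomeomorph.isOpenMap
  have hopen : IsOpen (T '' interior (Metric.closedBall (0 : E 2) 1)) := hTo _ isOpen_interior
  have hsub : T '' interior (Metric.closedBall (0 : E 2) 1) ⊆ hexagon := by
    rw [hT]; exact image_mono interior_subset
  have hin : (!₂[1, 1 / 2] : E 2) ∈ interior hexagon := by
    apply interior_maximal hsub hopen
    exact ⟨_, hmid, himg⟩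
  rw [mem_interior_iff_mem_nhds, Metric.mem_nhds_iff] at hin
  obtain ⟨ε, hε, hball⟩ := hin
  have hm : (!₂[1 + ε / 2, 1 / 2] : E 2) ∈ Metric.ball (!₂[1, 1 / 2] : E 2) ε := by
    rw [Metric.mem_ball, dist_eq_norm]
    have : ‖(!₂[1 + ε / 2, 1 / 2] : E 2) - !₂[1, 1 / 2]‖ ^ 2 = (ε / 2) ^ 2 := by
      rw [norm_sq2]; simp
    have h2 : ‖(!₂[1 + ε / 2, 1 / 2] : E 2) - !₂[1, 1 / 2]‖ = ε / 2 :=
      (sq_eq_sq₀ (norm_nonneg _) (by positivity)).1 this
    rw [h2]; linarith
  have := (hball hm).1
  have e : (!₂[1 + ε / 2, 1 / 2] : E 2) 0 = 1 + ε / 2 := rfl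
  rw [e, abs_le] at this
  linarith [this.2]

end Q190.FB
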