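import Mathlib
import Pool.Agent.Helper627.PM

set_option autoImplicit false

/-!
Tools for planting patterns on a Jordan curve: swirls of the plane, crossings of an interval by a
continuous function, continuous arguments.
-/

namespace Q190.IP

open Set Complex

/-- The rotation of each circle with centre `c` and radius `s` by the angle `θ s`. -/
noncomputable def swirl (c : ℂ) (θ : ℝ → ℝ) (z : ℂ) : ℂ :=
  c + exp ((θ ‖z - c‖ : ℝ) * I) * (z - c)

theorem swirl_sub (c : ℂ) (θ : ℝ → ℝ) (z : ℂ) :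
    swirl c θ z - c = exp ((θ ‖z - c‖ : ℝ) * I) * (z - c) := by
  unfold swirl; ring

theorem norm_swirl_sub (c : ℂ) (θ : ℝ → ℝ) (z : ℂ) : ‖swirl c θ z - c‖ = ‖z - c‖ := by
  rw [swirl_sub, norm_mul, Complex.norm_exp_ofReal_mul_I, one_mul]

theorem swirl_continuous (c : ℂ) {θ : ℝ → ℝ} (hθ : Continuous θ) : Continuous (swirl c θ) := by
  unfold swirl
  fun_prop

theorem swirl_injective (c : ℂ) (θ : ℝ → ℝ) : Function.Injective (swirl c θ) := by
  intro z w h
  have h1 : ‖z - c‖ = ‖w - c‖ := by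
    rw [← norm_swirl_sub c θ z, ← norm_swirl_sub c θ w, h]
  have h2 := swirl_sub c θ z
  rw [h, swirl_sub c θ w, h1] at h2
  have h3 := mul_left_cancel₀ (Complex.exp_ne_zero _) h2
  have : w = z := by linear_combination h3
  exact this.symm

/-- The displacement is at most `2 R` if the swirl is trivial outside the disc of radius `R`. -/
theorem swirl_disp (c : ℂ) (θ : ℝ → ℝ) {R : ℝ} (hR : 0 ≤ R)
    (h : ∀ s, R ≤ s → exp ((θ s : ℝ) * I) = 1) (z : ℂ) : ‖swirl c θ z - z‖ ≤ 2 * R := by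
  rcases le_total R ‖z - c‖ with hz | hz
  · have : swirl c θ z = z := by
      unfold swirl; rw [h _ hz]; ring
    rw [this, sub_self, norm_zero]; linarith
  · have : swirl c θ z - z = (swirl c θ z - c) - (z - c) := by ring
    rw [this]
    refine (norm_sub_le _ _).trans ?_
    rw [norm_swirl_sub]; linarith

theorem swirl_eq_self (c : ℂ) (θ : ℝ → ℝ) {z : ℂ} (h : exp ((θ ‖z - c‖ : ℝ) * I) = 1) :
    swirl c θ z = z := by
  unfold swirl; rw [h]; ring

/-- A continuous function that comes from below `x` to above `y` crosses `[x, y]`. -/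
theorem cross {f : ℝ → ℝ} (hf : Continuous f) {a b x y : ℝ} (hab : a ≤ b) (ha : f a ≤ x)
    (hxy : x < y) (hb : y ≤ f b) :
    ∃ a' b', a ≤ a' ∧ a' < b' ∧ b' ≤ b ∧ f a' = x ∧ f b' = y ∧
      ∀ t ∈ Icc a' b', f t ∈ Icc x y := by
  have hK : IsCompact {t | t ∈ Icc a b ∧ y ≤ f t} :=
    isCompact_Icc.inter_right (isClosed_le continuous_const hf)
  obtain ⟨b', hb'⟩ := hK.exists_isLeast ⟨b, ⟨hab, le_rfl⟩, hb⟩
  have hb'1 : b' ∈ Icc a b := hb'.1.1
  have hb'2 : y ≤ f b' := hb'.1.2
  have hlt : ∀ t, a ≤ t → t < b' → f t < y := by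
    intro t h1 h2
    by_contra hcon
    push Not at hcon
    have := hb'.2 ⟨⟨h1, h2.le.trans hb'1.2⟩, hcon⟩
    linarith
  have hfb' : f b' = y := by
    refine le_antisymm ?_ hb'2
    by_contra hcon
    push Not at hcon
    have hmem : y ∈ Icc (f a) (f b') := ⟨by linarith, hcon.le⟩
    obtain ⟨t, ht, hft⟩ := intermediate_value_Icc hb'1.1 hf.continuousOn hmem
    rcases eq_or_lt_of_le ht.2 with h | h
    · rw [h] at hft; linarith
    · have := hlt t ht.1 h; linarith
  have hK2 : IsCompact {t | t ∈ Icc a b' ∧ f t ≤ x} :=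
    isCompact_Icc.inter_right (isClosed_le hf continuous_const)
  obtain ⟨a', ha'⟩ := hK2.exists_isGreatest ⟨a, ⟨le_rfl, hb'1.1⟩, ha⟩
  have ha'1 : a' ∈ Icc a b' := ha'.1.1
  have ha'2 : f a' ≤ x := ha'.1.2
  have hgt : ∀ t, a' < t → t ≤ b' → x < f t := by
    intro t h1 h2
    by_contra hcon
    push Not at hcon
    have := ha'.2 ⟨⟨ha'1.1.trans h1.le, h2⟩, hcon⟩
    linarith
  have hfa' : f a' = x := by
    refine le_antisymm ha'2 ?_
    by_contra hcon
    push Not at hcon
    have hmem : x ∈ Icc (f a') (f b') := ⟨hcon.le, by rw [hfb']; exact hxy.le⟩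
    obtain ⟨t, ht, hft⟩ := intermediate_value_Icc ha'1.2 hf.continuousOn hmem
    rcases eq_or_lt_of_le ht.1 with h | h
    · rw [← h] at hft; linarith
    · have := hgt t h ht.2; linarith
  have hne : a' < b' := by
    refine lt_of_le_of_ne ha'1.2 ?_
    intro h
    rw [h, hfb'] at hfa'
    linarith
  refine ⟨a', b', ha'1.1, hne, hb'1.2, hfa', hfb', ?_⟩
  intro t ht
  constructor
  · rcases eq_or_lt_of_le ht.1 with h | h
    · rw [← h, hfa']
    · exact (hgt t h ht.2).le
  · rcases eq_or_lt_of_le ht.2 with h | h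
    · rw [h, hfb']
    · exact (hlt t (ha'1.1.trans ht.1) h).le

/-- A continuous argument along an interval. -/
theorem exists_arg {g : ℝ → ℂ} (hg : Continuous g) {α β : ℝ} (hαβ : α ≤ β)
    (h0 : ∀ t ∈ Icc α β, g t ≠ 0) :
    ∃ A : ℝ → ℝ, Continuous A ∧ ∀ t ∈ Icc α β, g t = (‖g t‖ : ℝ) * exp ((A t : ℝ) * I) := by
  set cl : ℝ × ℝ → ℝ := fun p => (projIcc α β hαβ p.1 : ℝ) with hcl
  have hclc : Continuous cl := by
    rw [hcl]
    exact continuous_subtype_val.comp ((continuous_projIcc (h := hαβ)).comp continuous_fst)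
  have hclm : ∀ p, cl p ∈ Icc α β := fun p => (projIcc α β hαβ p.1).2
  obtain ⟨θ, hθ, hp⟩ := Pool.Agent.Helper627.PM.exists_angle (fun p => (g (cl p)).im)
    (fun p => (g (cl p)).re) (Complex.continuous_im.comp (hg.comp hclc))
    (Complex.continuous_re.comp (hg.comp hclc)) (by
      intro p hp
      exact h0 _ (hclm p) (Complex.ext hp.2 hp.1))
  refine ⟨fun t => θ (t, 0), by fun_prop, ?_⟩
  intro t ht
  obtain ⟨r, hr, h1, h2⟩ := hp (t, 0)
  have hct : cl (t, 0) = t := by
    simp only [hcl]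
    rw [projIcc_of_mem hαβ ht]
  simp only [hct] at h1 h2
  have hgt : g t = (r : ℝ) * exp ((θ (t, 0) : ℝ) * I) := by
    apply Complex.ext
    · rw [Complex.re_ofReal_mul, Complex.exp_ofReal_mul_I_re, h1]
    · rw [Complex.im_ofReal_mul, Complex.exp_ofReal_mul_I_im, h2]
  have hnorm : ‖g t‖ = r := by
    rw [hgt, norm_mul, Complex.norm_exp_ofReal_mul_I, mul_one, Complex.norm_real,
      Real.norm_of_nonneg hr.le]
  rw [hnorm]; exact hgt

end Q190.IP
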