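import Mathlib
import Pool.Agent.H63Fed.Miranda

set_option autoImplicit false

/-!
Robustness: four short arcs that cross the vertices of a copy of a four-point set in suitable
directions contain the vertices of a similar copy of every nearby four-point set.
-/

namespace Q190.IP

open Set Complex

/-- `F q z = 0` says that `z` is similar to `q` (if `q 0 ≠ q 1`). -/
noncomputable def F (q z : Fin 4 → ℂ) : ℂ × ℂ :=
  ((q 1 - q 0) * (z 2 - z 0) - (q 2 - q 0) * (z 1 - z 0),
   (q 1 - q 0) * (z 3 - z 0) - (q 3 - q 0) * (z 1 - z 0))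

theorem F_add_right (q z w : Fin 4 → ℂ) : F q (z + w) = F q z + F q w := by
  simp only [F, Pi.add_apply]
  ext <;> simp <;> ring

theorem F_add_left (q p z : Fin 4 → ℂ) : F (q + p) z = F q z + F p z := by
  simp only [F, Pi.add_apply]
  ext <;> simp <;> ring

theorem F_affine (q : Fin 4 → ℂ) (a b : ℂ) : F q (fun i => a + b * q i) = 0 := by
  simp only [F]
  ext <;> simp <;> ring

theorem similar_of_F {q z : Fin 4 → ℂ} (hq : q 0 ≠ q 1) (h : F q z = 0) :
    ∀ i, z i = (z 0 - (z 1 - z 0) / (q 1 - q 0) * q 0) + (z 1 - z 0) / (q 1 - q 0) * q i := by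
  have hne : q 1 - q 0 ≠ 0 := sub_ne_zero.2 hq.symm
  have h1 : (q 1 - q 0) * (z 2 - z 0) - (q 2 - q 0) * (z 1 - z 0) = 0 := congrArg Prod.fst h
  have h2 : (q 1 - q 0) * (z 3 - z 0) - (q 3 - q 0) * (z 1 - z 0) = 0 := congrArg Prod.snd h
  intro i
  fin_cases i
  · simp
  · simp only [Fin.mk_one]
    field_simp
    ring
  · simp only [Fin.reduceFinMk]
    field_simp
    linear_combination h1
  · simp only [Fin.reduceFinMk]
    field_simp
    linear_combination h2

/-- Norm bound for `F`. -/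
theorem norm_F_le (q z : Fin 4 → ℂ) {A B : ℝ} (hA : ∀ i, ‖q i - q 0‖ ≤ A)
    (hB : ∀ i, ‖z i - z 0‖ ≤ B) : ‖F q z‖ ≤ 2 * A * B := by
  have hA0 : 0 ≤ A := (norm_nonneg _).trans (hA 1)
  have hB0 : 0 ≤ B := (norm_nonneg _).trans (hB 1)
  have key : ∀ i j k l : Fin 4, ‖(q i - q 0) * (z j - z 0) - (q k - q 0) * (z l - z 0)‖
      ≤ 2 * A * B := by
    intro i j k l
    refine (norm_sub_le _ _).trans ?_
    rw [norm_mul, norm_mul]
    have h1 := mul_le_mul (hA i) (hB j) (norm_nonneg _) hA0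
    have h2 := mul_le_mul (hA k) (hB l) (norm_nonneg _) hA0
    linarith
  rw [Prod.norm_def]
  exact max_le (key 1 2 2 1) (key 1 3 3 1)

/-- Directions in which no infinitesimal similarity moves all four points. -/
theorem exists_dir {q : Fin 4 → ℂ} (hq : Function.Injective q) :
    ∃ e : Fin 4 → ℂ, (∀ i, ‖e i‖ = 1) ∧
      ∀ u : Fin 4 → ℝ, F q (fun i => e i * (u i : ℂ)) = 0 → u = 0 := by
  have h01 : q 0 ≠ q 1 := hq.ne (by decide)
  have h23 : q 2 ≠ q 3 := hq.ne (by decide)
  have hne : q 1 - q 0 ≠ 0 := sub_ne_zero.2 h01.symm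
  set τ : ℂ := (q 2 - q 0) / (q 1 - q 0) with hτ
  set τ' : ℂ := (q 3 - q 0) / (q 1 - q 0) with hτ'
  have hττ : τ ≠ τ' := by
    intro h
    rw [hτ, hτ', div_left_inj' hne] at h
    exact h23 (sub_left_injective h)
  have key : ∀ e : Fin 4 → ℂ, e 0 = 1 → e 1 = 1 → ∀ u : Fin 4 → ℝ,
      F q (fun i => e i * (u i : ℂ)) = 0 →
      (e 2 * (u 2 : ℂ) = (u 0 : ℂ) + τ * ((u 1 : ℂ) - u 0)) ∧
      (e 3 * (u 3 : ℂ) = (u 0 : ℂ) + τ' * ((u 1 : ℂ) - u 0)) := by
    intro e h0 h1 u hu
    have e1 := congrArg Prod.fst hu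
    have e2 := congrArg Prod.snd hu
    simp only [F, h0, h1, one_mul, Prod.fst_zero, Prod.snd_zero] at e1 e2
    constructor
    · rw [hτ]; field_simp; linear_combination e1
    · rw [hτ']; field_simp; linear_combination e2
  have fin4 : ∀ u : Fin 4 → ℝ, u 0 = 0 → u 1 = 0 → u 2 = 0 → u 3 = 0 → u = 0 := by
    intro u a b c d
    funext i
    fin_cases i <;> simp_all
  by_cases hb : τ.im = 0
  · by_cases hb' : τ'.im = 0
    · refine ⟨![1, 1, I, I], ?_, ?_⟩
      · intro i; fin_cases i <;> simp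
      · intro u hu
        obtain ⟨k1, k2⟩ := key _ (by simp) (by simp) u hu
        have r1 := congrArg Complex.re k1
        have r2 := congrArg Complex.re k2
        have i1 := congrArg Complex.im k1
        have i2 := congrArg Complex.im k2
        simp at r1 r2 i1 i2
        have hre : τ.re ≠ τ'.re := fun h => hττ (Complex.ext h (by rw [hb, hb']))
        have hd : u 1 - u 0 = 0 := by
          have : (τ.re - τ'.re) * (u 1 - u 0) = 0 := by linarith
          rcases mul_eq_zero.1 this with h | h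
          · exact absurd (sub_eq_zero.1 h) hre
          · exact h
        rw [hd] at r1 r2 i1 i2
        simp at r1 r2 i1 i2
        exact fin4 u r1.symm (by linarith) i1 i2
    · refine ⟨![1, 1, I, 1], ?_, ?_⟩
      · intro i; fin_cases i <;> simp
      · intro u hu
        obtain ⟨k1, k2⟩ := key _ (by simp) (by simp) u hu
        have r1 := congrArg Complex.re k1
        have r2 := congrArg Complex.re k2
        have i1 := congrArg Complex.im k1
        have i2 := congrArg Complex.im k2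
        simp at r1 r2 i1 i2
        have hd : u 1 - u 0 = 0 := by
          rcases i2 with h | h
          · exact absurd h hb'
          · exact h
        rw [hd] at r1 r2 i1
        simp at r1 r2 i1
        exact fin4 u r1.symm (by linarith) i1 (by linarith)
  · refine ⟨![1, 1, 1, I], ?_, ?_⟩
    · intro i; fin_cases i <;> simp
    · intro u hu
      obtain ⟨k1, k2⟩ := key _ (by simp) (by simp) u hu
      have r1 := congrArg Complex.re k1
      have r2 := congrArg Complex.re k2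
      have i1 := congrArg Complex.im k1
      have i2 := congrArg Complex.im k2
      simp at r1 r2 i1 i2
      have hd : u 1 - u 0 = 0 := by
        rcases i1 with h | h
        · exact absurd h hb
        · exact h
      rw [hd] at r1 r2 i2
      simp at r1 r2 i2
      exact fin4 u r2.symm (by linarith) (by linarith) i2

/-- The linear map `u ↦ F q (e u)`. -/
noncomputable def linL (q e : Fin 4 → ℂ) : (Fin 4 → ℝ) →ₗ[ℝ] ℂ × ℂ where
  toFun u := F q (fun i => e i * (u i : ℂ))
  map_add' u v := by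
    simp only [F, Pi.add_apply]
    ext <;> simp <;> ring
  map_smul' c u := by
    simp only [F, Pi.smul_apply, smul_eq_mul, RingHom.id_apply]
    ext <;> simp <;> ring

/-- **Robustness.** -/
theorem robust {q e : Fin 4 → ℂ} (he1 : ∀ i, ‖e i‖ = 1)
    (he : ∀ u : Fin 4 → ℝ, F q (fun i => e i * (u i : ℂ)) = 0 → u = 0) :
    ∃ K : ℝ, 1 ≤ K ∧ ∀ (η : ℝ), 0 < η → ∀ (a₀ b₀ : ℂ), η ≤ ‖b₀‖ → ∀ q' : Fin 4 → ℂ,
      (∀ i, ‖b₀‖ * ‖q' i - q i‖ ≤ η / K) →
      ∀ (α β : Fin 4 → ℝ), (∀ i, α i ≤ β i) →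
      ∀ (z : Fin 4 → ℝ → ℂ), (∀ i, Continuous (z i)) →
      ∀ (u : Fin 4 → ℝ → ℝ), (∀ i, u i (α i) = -1) → (∀ i, u i (β i) = 1) →
      (∀ i, ∀ t ∈ Icc (α i) (β i), |u i t| ≤ 1) →
      (∀ i, ∀ t ∈ Icc (α i) (β i),
        ‖z i t - (a₀ + b₀ * q i) - η * (e i * (u i t : ℂ))‖ ≤ η / K) →
      ∃ x : Fin 4 → ℝ, (∀ i, x i ∈ Icc (α i) (β i)) ∧ F q' (fun i => z i (x i)) = 0 := by
  classical
  have hinj : Function.Injective (linL q e) := by
    rw [injective_iff_map_eq_zero]
    intro u hu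
    exact he u hu
  let E : (Fin 4 → ℝ) ≃ₗ[ℝ] ℂ × ℂ := LinearMap.linearEquivOfInjective (linL q e) hinj (by simp)
  let Ec : (ℂ × ℂ) →L[ℝ] (Fin 4 → ℝ) := LinearMap.toContinuousLinearMap E.symm.toLinearMap
  have hE : ∀ u : Fin 4 → ℝ, Ec (F q (fun i => e i * (u i : ℂ))) = u := by
    intro u
    have : F q (fun i => e i * (u i : ℂ)) = E u := rfl
    rw [this]
    exact E.symm_apply_apply u
  obtain ⟨Q, hQ0, hQ⟩ : ∃ Q : ℝ, 0 ≤ Q ∧ ∀ i, ‖q i - q 0‖ ≤ Q := by
    refine ⟨∑ i, ‖q i - q 0‖, Finset.sum_nonneg fun i _ => norm_nonneg _, fun i => ?_⟩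
    exact Finset.single_le_sum (f := fun i => ‖q i - q 0‖) (fun i _ => norm_nonneg _)
      (Finset.mem_univ i)
  set C : ℝ := ‖Ec‖ with hC
  have hC0 : 0 ≤ C := norm_nonneg _
  set K : ℝ := 32 * (C + 1) * (Q + 1) with hK
  have hK1 : 1 ≤ K := by
    rw [hK]; nlinarith
  refine ⟨K, hK1, ?_⟩
  intro η hη a₀ b₀ hηb q' hq' α β hαβ z hz u hu0 hu1 hu hzu
  have hK0 : 0 < K := by linarith
  have hηK : 0 < η / K := by positivity
  have hηK1 : η / K ≤ η := div_le_self hη.le hK1
  -- the parameter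
  let T : (Fin 4 → ℝ) → Fin 4 → ℝ := fun x i => α i + x i * (β i - α i)
  have hT : ∀ x : Fin 4 → ℝ, (∀ i, 0 ≤ x i ∧ x i ≤ 1) → ∀ i, T x i ∈ Icc (α i) (β i) := by
    intro x hx i
    have := hαβ i
    constructor
    · have := mul_nonneg (hx i).1 (sub_nonneg.2 (hαβ i))
      simp only [T]; linarith
    · have := mul_le_mul_of_nonneg_right (hx i).2 (sub_nonneg.2 (hαβ i))
      simp only [T]; linarith
  have hTc : ∀ i, Continuous fun x => T x i := by
    intro i; simp only [T]; fun_prop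
  -- the estimate
  have hest : ∀ x : Fin 4 → ℝ, (∀ i, 0 ≤ x i ∧ x i ≤ 1) → ∀ i,
      |Ec (F q' (fun j => z j (T x j))) i - η * u i (T x i)| ≤ η / 2 := by
    intro x hx i
    set Z : Fin 4 → ℂ := fun j => z j (T x j) with hZ
    set W : Fin 4 → ℂ := fun j => a₀ + b₀ * q j with hW
    set R : Fin 4 → ℂ := fun j => z j (T x j) - (a₀ + b₀ * q j)
      - η * (e j * (u j (T x j) : ℂ)) with hR
    have hRn : ∀ j, ‖R j‖ ≤ η / K := fun j => hzu j _ (hT x hx j)
    have hdec : Z = W + ((fun j => e j * ((η * u j (T x j) : ℝ) : ℂ)) + R) := by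
      funext j
      simp only [hZ, hW, hR, Pi.add_apply]
      push_cast
      ring
    have hq'dec : q' = q + (q' - q) := by ring
    have h1 : F q' Z = F q (fun j => e j * ((η * u j (T x j) : ℝ) : ℂ)) + (F q R + F (q' - q) Z) := by
      conv_lhs => rw [hq'dec, F_add_left]
      conv_lhs => enter [1]; rw [hdec, F_add_right, F_affine, zero_add, F_add_right]
      ring
    have h2 : ‖F q R‖ ≤ 2 * Q * (2 * (η / K)) := by
      refine norm_F_le q R hQ (fun j => ?_)
      refine (norm_sub_le _ _).trans ?_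
      linarith [hRn j, hRn 0]
    have hd : ∀ j, ‖(q' - q) j - (q' - q) 0‖ * ‖b₀‖ ≤ 2 * (η / K) := by
      intro j
      have := norm_sub_le ((q' - q) j) ((q' - q) 0)
      have a1 := hq' j
      have a2 := hq' 0
      have : ‖(q' - q) j - (q' - q) 0‖ * ‖b₀‖ ≤ (‖q' j - q j‖ + ‖q' 0 - q 0‖) * ‖b₀‖ :=
        mul_le_mul_of_nonneg_right this (norm_nonneg _)
      linarith
    have hb0 : 0 < ‖b₀‖ := lt_of_lt_of_le hη hηb
    have hd' : ∀ j, ‖(q' - q) j - (q' - q) 0‖ ≤ 2 * (η / K) / ‖b₀‖ := by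
      intro j
      rw [le_div_iff₀ hb0]
      exact hd j
    have hZd : ∀ j, ‖Z j - Z 0‖ ≤ ‖b₀‖ * (Q + 4) := by
      intro j
      have e1 : Z j - Z 0 = b₀ * (q j - q 0) + (η * (e j * (u j (T x j) : ℂ)) -
          η * (e 0 * (u 0 (T x 0) : ℂ))) + (R j - R 0) := by
        simp only [hZ, hR]; ring
      have e2 : ∀ k, ‖(η : ℂ) * (e k * (u k (T x k) : ℂ))‖ ≤ η := by
        intro k
        rw [norm_mul, norm_mul, he1, one_mul, Complex.norm_real, Complex.norm_real,
          Real.norm_of_nonneg hη.le, Real.norm_eq_abs]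
        have := mul_le_mul_of_nonneg_left (hu k _ (hT x hx k)) hη.le
        linarith
      rw [e1]
      have e3 : ‖b₀ * (q j - q 0)‖ ≤ ‖b₀‖ * Q := by
        rw [norm_mul]; exact mul_le_mul_of_nonneg_left (hQ j) (norm_nonneg _)
      have e4 := norm_sub_le ((η : ℂ) * (e j * (u j (T x j) : ℂ))) ((η : ℂ) * (e 0 * (u 0 (T x 0) : ℂ)))
      have e5 := norm_sub_le (R j) (R 0)
      have e6 := norm_add_le (b₀ * (q j - q 0) + (η * (e j * (u j (T x j) : ℂ)) -
          η * (e 0 * (u 0 (T x 0) : ℂ)))) (R j - R 0)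
      have e7 := norm_add_le (b₀ * (q j - q 0)) (η * (e j * (u j (T x j) : ℂ)) -
          η * (e 0 * (u 0 (T x 0) : ℂ)))
      linarith [hRn j, hRn 0, e2 j, e2 0]
    have h3 : ‖F (q' - q) Z‖ ≤ 2 * (2 * (η / K) / ‖b₀‖) * (‖b₀‖ * (Q + 4)) :=
      norm_F_le _ _ hd' hZd
    have h3' : ‖F (q' - q) Z‖ ≤ 4 * (η / K) * (Q + 4) := by
      refine h3.trans (le_of_eq ?_)
      field_simp
      norm_num
    have h4 : ‖F q R + F (q' - q) Z‖ ≤ 16 * (Q + 1) * (η / K) := by
      refine (norm_add_le _ _).trans ?_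
      nlinarith
    have h5 : Ec (F q' Z) = (fun j => η * u j (T x j)) + Ec (F q R + F (q' - q) Z) := by
      rw [h1, map_add, hE]
    rw [h5]
    simp only [Pi.add_apply, add_sub_cancel_left]
    have h6 : ‖Ec (F q R + F (q' - q) Z)‖ ≤ C * (16 * (Q + 1) * (η / K)) :=
      (Ec.le_opNorm _).trans (mul_le_mul_of_nonneg_left h4 hC0)
    have h7 : |(Ec (F q R + F (q' - q) Z)) i| ≤ ‖Ec (F q R + F (q' - q) Z)‖ :=
      norm_le_pi_norm (Ec (F q R + F (q' - q) Z)) i
    refine h7.trans (h6.trans ?_)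
    have h8 : C * (16 * (Q + 1) * (η / K)) = η * (C * 16 * (Q + 1)) / K := by
      field_simp
    rw [h8, div_le_iff₀ hK0, hK]
    nlinarith [mul_nonneg hC0 hQ0, mul_nonneg hη.le hQ0, mul_nonneg hη.le hC0]
  -- Miranda
  obtain ⟨x, hx, hx0⟩ := H63Fed.Miranda.poincare_miranda 4
    (fun x => Ec (F q' (fun j => z j (T x j))))
    (by
      apply Continuous.continuousOn
      apply Ec.continuous.comp
      unfold F
      have : ∀ j, Continuous fun x => z j (T x j) := fun j => (hz j).comp (hTc j)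
      fun_prop)
    (by
      intro x hx i hxi
      have h := hest x hx i
      have ht : T x i = α i := by simp only [T, hxi]; ring
      rw [ht, hu0] at h
      rw [abs_le] at h
      linarith [h.2])
    (by
      intro x hx i hxi
      have h := hest x hx i
      have ht : T x i = β i := by simp only [T, hxi]; ring
      rw [ht, hu1] at h
      rw [abs_le] at h
      linarith [h.1])
  refine ⟨T x, hT x hx, ?_⟩
  have : Ec (F q' (fun j => z j (T x j))) = 0 := hx0
  have hinjE : Function.Injective Ec := E.symm.injective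
  exact hinjE (by rw [this, map_zero])

end Q190.IP
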