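import Mathlib
import Pool.Agent.Q190.IPA
import Pool.Agent.Q190.IPB

set_option autoImplicit false

/-!
Planting robust copies of a four-point set on an arc of a Jordan curve by a small homeomorphism of
the plane: a strong swirl followed by four local rotations.
-/

namespace Q190.IP

open Set Complex

/-- The angle function of the strong swirl. -/
noncomputable def ang (N r : ℝ) (s : ℝ) : ℝ := N * min (s / r) 1

theorem ang_continuous (N r : ℝ) : Continuous (ang N r) := by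
  unfold ang; fun_prop

/-- **One window.** After a strong swirl the arc crosses the prescribed window tangentially. -/
theorem window {g : ℝ → ℂ} (hg : Continuous g) {t₀ t₁ : ℝ} (ht : t₀ ≤ t₁) {P : ℂ} (hP : g t₀ = P)
    {r : ℝ} (hr : 0 < r) (hr1 : r ≤ ‖g t₁ - P‖) {v : ℂ} (hv1 : 1 / 4 ≤ ‖v‖) (hv2 : ‖v‖ ≤ 3 / 4)
    {δ η : ℝ} (hδ : 0 < δ) (hδ1 : δ ≤ 1 / 8) (hη : 0 < η) (hη1 : η ≤ 1 / 16) :
    ∃ N₀ : ℝ, ∀ N, N₀ ≤ N → ∃ a b : ℝ, ∃ u : ℝ → ℝ, t₀ ≤ a ∧ a ≤ b ∧ b ≤ t₁ ∧ Continuous u ∧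
      u a = -1 ∧ u b = 1 ∧ (∀ t ∈ Icc a b, |u t| ≤ 1) ∧
      ∀ t ∈ Icc a b, ‖swirl P (ang N r) (g t) - (P + r * v)
        - (r * η : ℝ) * (I * (v / ‖v‖) * (u t : ℂ))‖ ≤ r * (δ + 4 * η ^ 2) := by
  set s : ℝ := ‖v‖ with hs
  have hs0 : 0 < s := by linarith
  set ρ : ℝ → ℝ := fun t => ‖g t - P‖ / r with hρ
  have hρc : Continuous ρ := by rw [hρ]; fun_prop
  have hρ0 : ρ t₀ = 0 := by simp only [hρ, hP, sub_self, norm_zero, zero_div]
  have hρ1 : 1 ≤ ρ t₁ := by
    simp only [hρ]; rwa [le_div_iff₀ hr, one_mul]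
  obtain ⟨α, β, h1, h2, h3, h4, h5, h6⟩ := cross hρc ht (x := s - δ) (y := s + δ)
    (by rw [hρ0]; linarith) (by linarith) (by linarith)
  have hne : ∀ t ∈ Icc α β, g t - P ≠ 0 := by
    intro t htm h0
    have := (h6 t htm).1
    simp only [hρ, h0, norm_zero, zero_div] at this
    linarith
  obtain ⟨A, hA, hAe⟩ := exists_arg (g := fun t => g t - P) (hg.sub continuous_const) h2.le hne
  refine ⟨(A α - A β + 4 * Real.pi) / (2 * δ), fun N hN => ?_⟩
  rw [div_le_iff₀ (by positivity)] at hN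
  set ω : ℝ := η / s with hω
  have hω0 : 0 < ω := by positivity
  have hω1 : ω ≤ 4 * η := by
    rw [hω, div_le_iff₀ hs0]; nlinarith
  have hsω : s * ω = η := by rw [hω]; field_simp
  set φ : ℝ := Complex.arg v with hφ
  set Θ : ℝ → ℝ := fun t => A t + N * ρ t with hΘ
  have hΘc : Continuous Θ := by rw [hΘ]; fun_prop
  have hpi := Real.pi_gt_three
  have hΘαβ : Θ α + 4 * Real.pi ≤ Θ β := by
    simp only [hΘ, h4, h5]; nlinarith
  set k : ℤ := ⌈(Θ α + ω - φ) / (2 * Real.pi)⌉ with hk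
  have hk1 : Θ α ≤ φ - ω + 2 * Real.pi * k := by
    have := Int.le_ceil ((Θ α + ω - φ) / (2 * Real.pi))
    rw [div_le_iff₀ (by positivity)] at this
    rw [← hk] at this
    linarith
  have hk2 : φ + ω + 2 * Real.pi * k ≤ Θ β := by
    have := Int.ceil_lt_add_one ((Θ α + ω - φ) / (2 * Real.pi))
    rw [← sub_lt_iff_lt_add, lt_div_iff₀ (by positivity), ← hk] at this
    nlinarith
  obtain ⟨a, b, g1, g2, g3, g4, g5, g6⟩ := cross hΘc h2.le hk1 (by linarith) hk2
  refine ⟨a, b, fun t => (Θ t - φ - 2 * Real.pi * k) / ω, h1.trans g1, g2.le, g3.trans h3,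
    by fun_prop, ?_, ?_, ?_, ?_⟩
  · simp only [g4]; field_simp; ring
  · simp only [g5]; field_simp; ring
  · intro t htm
    have := g6 t htm
    rw [abs_le]
    constructor
    · rw [le_div_iff₀ hω0]; linarith [this.1]
    · rw [div_le_iff₀ hω0]; linarith [this.2]
  · intro t htm
    have hgt := g6 t htm
    have htαβ : t ∈ Icc α β := ⟨g1.trans htm.1, htm.2.trans g3⟩
    have hρt := h6 t htαβ
    set x : ℝ := Θ t - φ - 2 * Real.pi * k with hx
    have hxω : |x| ≤ ω := by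
      rw [abs_le]; constructor
      · simp only [hx]; linarith [hgt.1]
      · simp only [hx]; linarith [hgt.2]
    -- the image point
    have hmin : ang N r ‖g t - P‖ = N * ρ t := by
      unfold ang
      have : ‖g t - P‖ / r = ρ t := rfl
      rw [this, min_eq_left (by linarith [hρt.2])]
    have hgP : g t - P = ((r * ρ t : ℝ) : ℂ) * exp ((A t : ℝ) * I) := by
      have h0 : g t - P = ((‖g t - P‖ : ℝ) : ℂ) * exp ((A t : ℝ) * I) := hAe t htαβ
      have h1 : r * ρ t = ‖g t - P‖ := by simp only [hρ]; field_simp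
      rw [h1]; exact h0
    have hv : v = (s : ℂ) * exp ((φ : ℝ) * I) := (Complex.norm_mul_exp_arg_mul_I v).symm
    have hvn : v / (s : ℂ) = exp ((φ : ℝ) * I) := by
      rw [hv]
      have : (s : ℂ) ≠ 0 := by exact_mod_cast hs0.ne'
      field_simp
    have hexp : exp ((N * ρ t : ℝ) * I) * exp ((A t : ℝ) * I) = exp ((φ : ℝ) * I) * exp ((x : ℝ) * I) := by
      rw [← Complex.exp_add, ← Complex.exp_add]
      have : ((N * ρ t : ℝ) : ℂ) * I + ((A t : ℝ) : ℂ) * I
          = (((φ : ℝ) : ℂ) * I + ((x : ℝ) : ℂ) * I) + k * (2 * Real.pi * I) := by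
        simp only [hx, hΘ]; push_cast; ring
      rw [this, Complex.exp_add, Complex.exp_int_mul_two_pi_mul_I, mul_one]
    have hsw : swirl P (ang N r) (g t) - P
        = ((r * ρ t : ℝ) : ℂ) * (exp ((φ : ℝ) * I) * exp ((x : ℝ) * I)) := by
      rw [swirl_sub, hmin]
      conv_lhs => rw [hgP]
      rw [← hexp]
      ring
    have hfin : swirl P (ang N r) (g t) - (P + r * v) - (r * η : ℝ) * (I * (v / (s : ℂ)) *
        ((x / ω : ℝ) : ℂ)) = (r : ℂ) * (exp ((φ : ℝ) * I) * (((ρ t - s : ℝ) : ℂ) * exp ((x : ℝ) * I)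
          + (s : ℂ) * (exp ((x : ℝ) * I) - 1 - (x : ℝ) * I))) := by
      have e1 : swirl P (ang N r) (g t) - (P + r * v) = (swirl P (ang N r) (g t) - P) - r * v := by
        ring
      rw [e1, hsw, hvn]
      conv_lhs => rw [hv]
      have e2 : ((r * η : ℝ) : ℂ) * (I * exp ((φ : ℝ) * I) * ((x / ω : ℝ) : ℂ))
          = (r : ℂ) * (exp ((φ : ℝ) * I) * ((s : ℂ) * ((x : ℝ) * I))) := by
        have : (η : ℂ) * ((x / ω : ℝ) : ℂ) = (s : ℂ) * (x : ℂ) := by
          have : η * (x / ω) = s * x := by rw [← hsω]; field_simp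
          exact_mod_cast this
        push_cast at this ⊢
        linear_combination (r : ℂ) * I * exp ((φ : ℂ) * I) * this
      rw [e2]
      push_cast
      ring
    rw [hfin, norm_mul, Complex.norm_real, Real.norm_of_nonneg hr.le, norm_mul,
      Complex.norm_exp_ofReal_mul_I, one_mul]
    apply mul_le_mul_of_nonneg_left _ hr.le
    refine (norm_add_le _ _).trans ?_
    have n1 : ‖((ρ t - s : ℝ) : ℂ) * exp ((x : ℝ) * I)‖ ≤ δ := by
      rw [norm_mul, Complex.norm_exp_ofReal_mul_I, mul_one, Complex.norm_real, Real.norm_eq_abs,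
        abs_le]
      constructor <;> linarith [hρt.1, hρt.2]
    have n2 : ‖(s : ℂ) * (exp ((x : ℝ) * I) - 1 - (x : ℝ) * I)‖ ≤ 4 * η ^ 2 := by
      rw [norm_mul, Complex.norm_real, Real.norm_of_nonneg hs0.le]
      have hxn : ‖((x : ℝ) : ℂ) * I‖ = |x| := by
        rw [norm_mul, Complex.norm_I, mul_one, Complex.norm_real, Real.norm_eq_abs]
      have h1x : ‖((x : ℝ) : ℂ) * I‖ ≤ 1 := by
        rw [hxn]; linarith
      have := Complex.norm_exp_sub_one_sub_id_le h1x
      rw [hxn] at this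
      have h2x : |x| ^ 2 ≤ ω ^ 2 := pow_le_pow_left₀ (abs_nonneg _) hxω 2
      calc s * ‖exp ((x : ℝ) * I) - 1 - (x : ℝ) * I‖ ≤ s * ω ^ 2 :=
            mul_le_mul_of_nonneg_left (this.trans h2x) hs0.le
        _ = η * ω := by rw [← hsω]; ring
        _ ≤ η * (4 * η) := mul_le_mul_of_nonneg_left hω1 hη.le
        _ = 4 * η ^ 2 := by ring
    linarith

/-- A continuous bump: `1` up to `κ / 2`, `0` from `κ` on. -/
noncomputable def bump (κ s : ℝ) : ℝ := max 0 (min 1 (2 - 2 * s / κ))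

theorem bump_continuous (κ : ℝ) : Continuous (bump κ) := by unfold bump; fun_prop

theorem bump_one {κ s : ℝ} (hκ : 0 < κ) (h : s ≤ κ / 2) : bump κ s = 1 := by
  unfold bump
  have : 2 * s / κ ≤ 1 := by rw [div_le_one hκ]; linarith
  rw [min_eq_left (by linarith), max_eq_right (by norm_num)]

theorem bump_zero {κ s : ℝ} (hκ : 0 < κ) (h : κ ≤ s) : bump κ s = 0 := by
  unfold bump
  have : 2 ≤ 2 * s / κ := by rw [le_div_iff₀ hκ]; linarith
  exact max_eq_left (min_le_of_right_le (by linarith))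

/-- Local rotation about `w` by the angle `ψ`. -/
noncomputable def rot (w : ℂ) (ψ κ : ℝ) : ℂ → ℂ := swirl w (fun s => ψ * bump κ s)

theorem rot_continuous (w : ℂ) (ψ κ : ℝ) : Continuous (rot w ψ κ) :=
  swirl_continuous w (continuous_const.mul (bump_continuous κ))

theorem rot_injective (w : ℂ) (ψ κ : ℝ) : Function.Injective (rot w ψ κ) := swirl_injective w _

theorem rot_disp (w : ℂ) (ψ : ℝ) {κ : ℝ} (hκ : 0 < κ) (z : ℂ) : ‖rot w ψ κ z - z‖ ≤ 2 * κ := by
  apply swirl_disp w _ hκ.le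
  intro s hs
  rw [bump_zero hκ hs]; simp

theorem rot_far (w : ℂ) (ψ : ℝ) {κ : ℝ} (hκ : 0 < κ) {z : ℂ} (h : κ ≤ ‖z - w‖) :
    rot w ψ κ z = z := by
  apply swirl_eq_self
  rw [bump_zero hκ h]; simp

theorem rot_near (w : ℂ) (ψ : ℝ) {κ : ℝ} (hκ : 0 < κ) {z : ℂ} (h : ‖z - w‖ ≤ κ / 2) :
    rot w ψ κ z - w = exp ((ψ : ℝ) * I) * (z - w) := by
  unfold rot
  rw [swirl_sub, bump_one hκ h, mul_one]

/-- The composition of four maps. -/
def comp4 (f : Fin 4 → ℂ → ℂ) (z : ℂ) : ℂ := f 3 (f 2 (f 1 (f 0 z)))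

theorem comp4_eq {f : Fin 4 → ℂ → ℂ} {i : Fin 4} {z : ℂ} (h1 : ∀ j, j ≠ i → f j z = z)
    (h2 : ∀ j, j ≠ i → f j (f i z) = f i z) : comp4 f z = f i z := by
  unfold comp4
  fin_cases i
  · have a1 := h2 1 (by decide); have a2 := h2 2 (by decide); have a3 := h2 3 (by decide)
    simp only [Fin.zero_eta] at *
    rw [a1, a2, a3]
  · have a0 := h1 0 (by decide); have a2 := h2 2 (by decide); have a3 := h2 3 (by decide)
    simp only [Fin.mk_one] at *
    rw [a0, a2, a3]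
  · have a0 := h1 0 (by decide); have a1 := h1 1 (by decide); have a3 := h2 3 (by decide)
    simp only [Fin.reduceFinMk] at *
    rw [a0, a1, a3]
  · have a0 := h1 0 (by decide); have a1 := h1 1 (by decide); have a2 := h1 2 (by decide)
    simp only [Fin.reduceFinMk] at *
    rw [a0, a1, a2]

end Q190.IP
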