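import Mathlib

set_option autoImplicit false

/-!
# Definitions: Jordan curves as a metric space, copies of four-point sets, porosity
-/

namespace Q190.IP

/-- The space of parametrised Jordan curves: injective continuous maps from the unit circle to the
plane, with the uniform distance `sup_t |γ t - γ' t|`. -/
abbrev JordanMap : Type := {γ : C(Circle, ℂ) // Function.Injective γ}

/-- The part `γ(U)` of the Jordan curve `γ` contains the image of the four points
`q 0, q 1, q 2, q 3` under an orientation preserving similarity `z ↦ a + b z` of ratio
`0 < |b| < ε`. -/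
def HasCopy (γ : JordanMap) (U : Set Circle) (ε : ℝ) (q : Fin 4 → ℂ) : Prop :=
  ∃ t : Fin 4 → Circle, (∀ i, t i ∈ U) ∧
    ∃ a b : ℂ, b ≠ 0 ∧ ‖b‖ < ε ∧ ∀ i, γ.1 (t i) = a + b * q i

/-- Every nonempty open part of the curve contains arbitrarily small similar copies of every set
of four different points. -/
def InscribesEverywhere (γ : JordanMap) : Prop :=
  ∀ U : Set Circle, IsOpen U → U.Nonempty → ∀ q : Fin 4 → ℂ, Function.Injective q →
    ∀ ε : ℝ, 0 < ε → HasCopy γ U ε q

/-- `A` is lower porous with a constant `c` that is the same for all points: for every point `x`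
of the space and every sufficiently small `r` the closed ball of radius `r` about `x` contains the
centre of an open ball of radius `c r` that does not meet `A`. -/
def LowerPorous {X : Type*} [PseudoMetricSpace X] (A : Set X) : Prop :=
  ∃ c : ℝ, 0 < c ∧ ∀ x : X, ∃ r₀ : ℝ, 0 < r₀ ∧ ∀ r : ℝ, 0 < r → r < r₀ →
    ∃ y : X, dist y x ≤ r ∧ Disjoint (Metric.ball y (c * r)) A

end Q190.IP
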