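import Mathlib
import Pool.Agent.Q190.IPC
import Pool.Agent.Q190.IPDefs

set_option autoImplicit false

/-!
The planting theorem.
-/

namespace Q190.IP

open Set Complex

/-- Near the centre of the `i`-th local rotation only that rotation acts. -/
theorem comp4_near {w : Fin 4 → ℂ} {ψ : Fin 4 → ℝ} {κ : ℝ} (hκ : 0 < κ)
    (hw : ∀ i j, i ≠ j → 2 * κ ≤ ‖w i - w j‖) (i : Fin 4) {y : ℂ} (hy : ‖y - w i‖ ≤ κ / 2) :
    comp4 (fun j => rot (w j) (ψ j) κ) y - w i = exp ((ψ i : ℝ) * I) * (y - w i) := by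
  have hfar : ∀ x : ℂ, ‖x - w i‖ ≤ κ / 2 → ∀ j, j ≠ i → rot (w j) (ψ j) κ x = x := by
    intro x hx j hj
    apply rot_far _ _ hκ
    have h1 := hw i j hj.symm
    have h2 : ‖w i - w j‖ ≤ ‖x - w j‖ + ‖x - w i‖ := by
      have : w i - w j = (x - w j) - (x - w i) := by ring
      rw [this]; exact norm_sub_le _ _
    linarith
  have hnear := rot_near (w i) (ψ i) hκ hy
  have hn : ‖rot (w i) (ψ i) κ y - w i‖ ≤ κ / 2 := by
    rw [hnear, norm_mul, Complex.norm_exp_ofReal_mul_I, one_mul]; exact hy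
  have := comp4_eq (f := fun j => rot (w j) (ψ j) κ) (i := i) (z := y)
    (fun j hj => hfar y hy j hj) (fun j hj => hfar _ hn j hj)
  rw [this, hnear]

theorem comp4_disp {f : Fin 4 → ℂ → ℂ} {κ : ℝ} (h : ∀ i z, ‖f i z - z‖ ≤ κ) (z : ℂ) :
    ‖comp4 f z - z‖ ≤ 4 * κ := by
  unfold comp4
  have h0 := h 0 z
  have h1 := h 1 (f 0 z)
  have h2 := h 2 (f 1 (f 0 z))
  have h3 := h 3 (f 2 (f 1 (f 0 z)))
  have : f 3 (f 2 (f 1 (f 0 z))) - z = (f 3 (f 2 (f 1 (f 0 z))) - f 2 (f 1 (f 0 z)))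
    + ((f 2 (f 1 (f 0 z)) - f 1 (f 0 z)) + ((f 1 (f 0 z) - f 0 z) + (f 0 z - z))) := by ring
  rw [this]
  refine (norm_add_le _ _).trans ?_
  have a := norm_add_le (f 2 (f 1 (f 0 z)) - f 1 (f 0 z)) ((f 1 (f 0 z) - f 0 z) + (f 0 z - z))
  have b := norm_add_le (f 1 (f 0 z) - f 0 z) (f 0 z - z)
  linarith

theorem comp4_continuous {f : Fin 4 → ℂ → ℂ} (h : ∀ i, Continuous (f i)) :
    Continuous (comp4 f) := by
  unfold comp4
  exact (h 3).comp ((h 2).comp ((h 1).comp (h 0)))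

theorem comp4_injective {f : Fin 4 → ℂ → ℂ} (h : ∀ i, Function.Injective (f i)) :
    Function.Injective (comp4 f) := by
  intro x y hxy
  exact h 0 (h 1 (h 2 (h 3 hxy)))

/-- **Planting.** -/
theorem plant {q : Fin 4 → ℂ} (hq : Function.Injective q) :
    ∃ ρ c : ℝ, 0 < ρ ∧ 0 < c ∧ ∀ U : Set Circle, IsOpen U → U.Nonempty → ∀ ε : ℝ, 0 < ε →
      ∀ γ : JordanMap, ∃ r₀ : ℝ, 0 < r₀ ∧ ∀ r : ℝ, 0 < r → r < r₀ → ∃ γ' : JordanMap,
        dist γ' γ ≤ r ∧ ∀ γ'' ∈ Metric.ball γ' (c * r), ∀ q' : Fin 4 → ℂ,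
          (∀ i, ‖q' i - q i‖ < ρ) → HasCopy γ'' U ε q' := by
  classical
  obtain ⟨e, he1, he⟩ := exists_dir hq
  obtain ⟨K, hK1, hrob⟩ := robust he1 he
  have hK0 : 0 < K := by linarith
  obtain ⟨Qm, hQ1, hQ⟩ : ∃ Qm : ℝ, 1 ≤ Qm ∧ ∀ i, ‖q i‖ ≤ Qm := by
    refine ⟨1 + ∑ i, ‖q i‖, ?_, fun i => ?_⟩
    · have : 0 ≤ ∑ i, ‖q i‖ := Finset.sum_nonneg fun i _ => norm_nonneg _
      linarith
    · have := Finset.single_le_sum (f := fun i => ‖q i‖) (fun i _ => norm_nonneg _)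
        (Finset.mem_univ i)
      linarith
  set β : ℝ := 1 / (4 * Qm) with hβ
  have hβ0 : 0 < β := by positivity
  have hβq : ∀ i, ‖(β : ℂ) * q i‖ ≤ 1 / 4 := by
    intro i
    rw [norm_mul, Complex.norm_real, Real.norm_of_nonneg hβ0.le, hβ, div_mul_eq_mul_div, one_mul,
      div_le_iff₀ (by positivity)]
    linarith [hQ i]
  set v : Fin 4 → ℂ := fun i => 1 / 2 + β * q i with hv
  have hhalf : ‖(1 / 2 : ℂ)‖ = 1 / 2 := by norm_num
  have hv1 : ∀ i, 1 / 4 ≤ ‖v i‖ := by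
    intro i
    have := norm_sub_norm_le (1 / 2 : ℂ) (-((β : ℂ) * q i))
    rw [hhalf, norm_neg, sub_neg_eq_add] at this
    linarith [hβq i]
  have hv2 : ∀ i, ‖v i‖ ≤ 3 / 4 := by
    intro i
    have := norm_add_le (1 / 2 : ℂ) ((β : ℂ) * q i)
    rw [hhalf] at this
    linarith [hβq i]
  have hvinj : ∀ i j, i ≠ j → 0 < ‖v i - v j‖ := by
    intro i j hij
    have h1 : v i - v j = (β : ℂ) * (q i - q j) := by simp only [hv]; ring
    rw [h1]
    apply norm_pos_iff.2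
    exact mul_ne_zero (by exact_mod_cast hβ0.ne') (sub_ne_zero.2 (hq.ne hij))
  obtain ⟨σ, hσ0, hσ⟩ : ∃ σ : ℝ, 0 < σ ∧ ∀ i j, i ≠ j → σ ≤ ‖v i - v j‖ := by
    obtain ⟨p, hp, hmin⟩ := Finset.exists_min_image
      (Finset.univ.filter (fun p : Fin 4 × Fin 4 => p.1 ≠ p.2)) (fun p => ‖v p.1 - v p.2‖)
      ⟨(0, 1), by simp⟩
    simp only [Finset.mem_filter, Finset.mem_univ, true_and] at hp hmin
    exact ⟨_, hvinj _ _ hp, fun i j hij => hmin (i, j) hij⟩
  set κ : ℝ := min (σ / 2) (1 / 8) with hκ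
  have hκ0 : 0 < κ := by rw [hκ]; positivity
  have hκσ : 2 * κ ≤ σ := by have := min_le_left (σ / 2) (1 / 8 : ℝ); rw [← hκ] at this; linarith
  have hκ8 : κ ≤ 1 / 8 := min_le_right _ _
  set η : ℝ := min (min (1 / (32 * K)) (κ / 4)) β with hη
  have hη0 : 0 < η := by rw [hη]; positivity
  have hη1 : η ≤ 1 / (32 * K) := (min_le_left _ _).trans (min_le_left _ _)
  have hη2 : η ≤ κ / 4 := (min_le_left _ _).trans (min_le_right _ _)
  have hη3 : η ≤ β := min_le_right _ _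
  have hηK : 32 * K * η ≤ 1 := by
    rw [le_div_iff₀ (by positivity)] at hη1; linarith
  have hη16 : η ≤ 1 / 16 := by nlinarith
  set δ : ℝ := η / (8 * K) with hδ
  have hδ0 : 0 < δ := by positivity
  have hδ8 : δ ≤ 1 / 8 := by
    rw [hδ, div_le_iff₀ (by positivity)]; nlinarith
  have herr : δ + 4 * η ^ 2 ≤ η / (4 * K) := by
    have h1 : 4 * η ^ 2 ≤ η / (8 * K) := by
      rw [le_div_iff₀ (by positivity)]; nlinarith
    have h2 : η / (4 * K) = 2 * (η / (8 * K)) := by field_simp; norm_num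
    rw [h2, hδ]; linarith
  have hq01 : 0 < ‖q 1 - q 0‖ := norm_pos_iff.2 (sub_ne_zero.2 (hq.ne (by decide)))
  refine ⟨min (η / (K * β)) (‖q 1 - q 0‖ / 4), η / (12 * K), by positivity, by positivity, ?_⟩
  intro U hU hUne ε hε γ
  -- an interval of parameters in `U`
  obtain ⟨x₀, hx₀⟩ := hUne
  obtain ⟨θ₀, hθ₀⟩ : ∃ θ₀ : ℝ, Circle.exp θ₀ = x₀ := ⟨_, Circle.exp_arg x₀⟩
  obtain ⟨h, hh0, hh1, hhU⟩ : ∃ h : ℝ, 0 < h ∧ h ≤ 1 ∧ ∀ t ∈ Icc θ₀ (θ₀ + h), Circle.exp t ∈ U := by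
    have hopen : IsOpen (Circle.exp ⁻¹' U) := hU.preimage Circle.exp.continuous
    obtain ⟨d, hd, hball⟩ := Metric.isOpen_iff.1 hopen θ₀ (by
      show Circle.exp θ₀ ∈ U
      rw [hθ₀]; exact hx₀)
    refine ⟨min (d / 2) 1, by positivity, min_le_right _ _, fun t ht => ?_⟩
    apply hball
    rw [Metric.mem_ball, Real.dist_eq, abs_lt]
    have := min_le_left (d / 2) (1 : ℝ)
    constructor <;> linarith [ht.1, ht.2]
  have hexpne : Circle.exp (θ₀ + h) ≠ Circle.exp θ₀ := by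
    intro heq
    rw [Circle.exp_eq_exp] at heq
    obtain ⟨m, hm⟩ := heq
    have hm' : h = m * (2 * Real.pi) := by linarith
    have hpi := Real.pi_gt_three
    have hm0 : (0 : ℝ) < m := by
      by_contra hcon
      push Not at hcon
      nlinarith
    have hm1 : (1 : ℝ) ≤ m := by
      have : (0 : ℤ) < m := by exact_mod_cast hm0
      exact_mod_cast this
    nlinarith
  set g : ℝ → ℂ := fun t => γ.1 (Circle.exp t) with hg
  have hgc : Continuous g := γ.1.continuous.comp Circle.exp.continuous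
  set P : ℂ := g θ₀ with hP
  set R : ℝ := ‖g (θ₀ + h) - P‖ with hR
  have hR0 : 0 < R := norm_pos_iff.2 (sub_ne_zero.2 (fun heq => hexpne (γ.2 heq)))
  refine ⟨min (3 * R) (3 * (ε * ‖q 1 - q 0‖ / 4)), by positivity, ?_⟩
  intro r₁ hr₁ hr₁'
  set r : ℝ := r₁ / 3 with hr
  have hr0 : 0 < r := by positivity
  have hrR : r ≤ R := by have := min_le_left (3 * R) (3 * (ε * ‖q 1 - q 0‖ / 4)); rw [hr]; linarith
  have hrε : r < ε * ‖q 1 - q 0‖ / 4 := by
    have := min_le_right (3 * R) (3 * (ε * ‖q 1 - q 0‖ / 4)); rw [hr]; linarith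
  -- windows
  have hwin := fun i => window hgc (by linarith : θ₀ ≤ θ₀ + h) (P := P) rfl hr0 hrR (hv1 i) (hv2 i)
    hδ0 hδ8 hη0 hη16
  choose N₀ hN₀ using hwin
  obtain ⟨n, hn⟩ := exists_nat_ge ((∑ i, |N₀ i|) / (2 * Real.pi))
  set N : ℝ := n * (2 * Real.pi) with hN
  have hNN : ∀ i, N₀ i ≤ N := by
    intro i
    have h1 := Finset.single_le_sum (f := fun i => |N₀ i|) (fun i _ => abs_nonneg _)
      (Finset.mem_univ i)
    rw [div_le_iff₀ (by positivity)] at hn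
    exact (le_abs_self _).trans (h1.trans hn)
  have hwin := fun i => hN₀ i N (hNN i)
  choose a b u h1 h2 h3 h4 h5 h6 h7 h8 using hwin
  -- the homeomorphism
  set w : Fin 4 → ℂ := fun i => P + r * v i with hw
  set ψ : Fin 4 → ℝ := fun i => Complex.arg (e i / (I * (v i / ‖v i‖))) with hψ
  set f : Fin 4 → ℂ → ℂ := fun i => rot (w i) (ψ i) (κ * r) with hf
  set T : ℂ → ℂ := swirl P (ang N r) with hT
  set H : ℂ → ℂ := fun z => comp4 f (T z) with hH
  have hκr : 0 < κ * r := by positivity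
  have hHc : Continuous H :=
    (comp4_continuous fun i => rot_continuous _ _ _).comp (swirl_continuous P (ang_continuous N r))
  have hHi : Function.Injective H :=
    (comp4_injective fun i => rot_injective _ _ _).comp (swirl_injective P _)
  have hHd : ∀ z, ‖H z - z‖ ≤ r₁ := by
    intro z
    have e1 : ‖T z - z‖ ≤ 2 * r := by
      apply swirl_disp P _ hr0.le
      intro s hs
      have : ang N r s = n * (2 * Real.pi) := by
        unfold ang
        rw [min_eq_right ((one_le_div hr0).2 hs), mul_one]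
      rw [this]
      have h2 : (((n : ℝ) * (2 * Real.pi) : ℝ) : ℂ) * I = (n : ℤ) * (2 * Real.pi * I) := by
        push_cast; ring
      rw [h2, Complex.exp_int_mul_two_pi_mul_I]
    have e2 : ‖comp4 f (T z) - T z‖ ≤ 4 * (2 * (κ * r)) :=
      comp4_disp (fun i z => rot_disp _ _ hκr z) _
    have e3 : H z - z = (comp4 f (T z) - T z) + (T z - z) := by simp only [hH]; ring
    rw [e3]
    refine (norm_add_le _ _).trans ?_
    have : κ * r ≤ 1 / 8 * r := mul_le_mul_of_nonneg_right hκ8 hr0.le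
    have e4 : r₁ = 3 * r := by rw [hr]; ring
    rw [e4]; linarith
  set γ' : JordanMap := ⟨⟨fun t => H (γ.1 t), hHc.comp γ.1.continuous⟩, hHi.comp γ.2⟩ with hγ'
  refine ⟨γ', ?_, ?_⟩
  · rw [Subtype.dist_eq, ContinuousMap.dist_le hr₁.le]
    intro t
    rw [dist_eq_norm]
    exact hHd _
  intro γ'' hγ'' q' hq'
  have hclose : ∀ t : Circle, ‖γ''.1 t - H (γ.1 t)‖ ≤ η * r / (4 * K) := by
    intro t
    have h1 : dist (γ''.1 t) (γ'.1 t) ≤ dist γ''.1 γ'.1 := ContinuousMap.dist_apply_le_dist t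
    have h2 : dist γ''.1 γ'.1 < η / (12 * K) * r₁ := hγ''
    rw [dist_eq_norm] at h1
    have h3 : η / (12 * K) * r₁ = η * r / (4 * K) := by
      rw [hr]; field_simp; norm_num
    rw [h3] at h2
    exact h1.trans h2.le
  have hwsep : ∀ i j, i ≠ j → 2 * (κ * r) ≤ ‖w i - w j‖ := by
    intro i j hij
    have : w i - w j = r * (v i - v j) := by simp only [hw]; ring
    rw [this, norm_mul, Complex.norm_real, Real.norm_of_nonneg hr0.le]
    nlinarith [hσ i j hij]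
  have hvn : ∀ i, ‖v i / (‖v i‖ : ℂ)‖ = 1 := by
    intro i
    rw [norm_div, Complex.norm_real, norm_norm]
    exact div_self (by linarith [hv1 i] : (‖v i‖ : ℝ) ≠ 0)
  have hIv : ∀ i, ‖I * (v i / (‖v i‖ : ℂ))‖ = 1 := by
    intro i; rw [norm_mul, Complex.norm_I, hvn, mul_one]
  have hexpψ : ∀ i, exp ((ψ i : ℝ) * I) * (I * (v i / (‖v i‖ : ℂ))) = e i := by
    intro i
    have hne : I * (v i / (‖v i‖ : ℂ)) ≠ 0 := by
      rw [← norm_pos_iff, hIv]; norm_num
    have h1 := Complex.norm_mul_exp_arg_mul_I (e i / (I * (v i / (‖v i‖ : ℂ))))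
    rw [norm_div, he1, hIv, div_one, Complex.ofReal_one, one_mul] at h1
    simp only [hψ]
    rw [h1]
    exact div_mul_cancel₀ _ hne
  -- the estimate on the arcs
  have hKr : η * r / (4 * K) + η * r / (4 * K) ≤ r * η / K := by
    have : η * r / (4 * K) + η * r / (4 * K) = (r * η / K) / 2 := by field_simp; norm_num
    rw [this]
    have : 0 < r * η / K := by positivity
    linarith
  have hmain : ∀ i, ∀ t ∈ Icc (a i) (b i),
      ‖γ''.1 (Circle.exp t) - w i - ((r * η : ℝ) : ℂ) * (e i * (u i t : ℂ))‖ ≤ r * η / K := by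
    intro i t ht
    have hy := h8 i t ht
    set y : ℂ := T (g t) with hydef
    have hy1 : ‖y - w i - ((r * η : ℝ) : ℂ) * (I * (v i / (‖v i‖ : ℂ)) * (u i t : ℂ))‖
        ≤ η * r / (4 * K) := by
      refine hy.trans ?_
      calc r * (δ + 4 * η ^ 2) ≤ r * (η / (4 * K)) := mul_le_mul_of_nonneg_left herr hr0.le
        _ = η * r / (4 * K) := by ring
    have hun : ‖((r * η : ℝ) : ℂ) * (I * (v i / (‖v i‖ : ℂ)) * (u i t : ℂ))‖ ≤ r * η := by
      rw [norm_mul, norm_mul, hIv, one_mul, Complex.norm_real, Complex.norm_real,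
        Real.norm_of_nonneg (by positivity), Real.norm_eq_abs]
      have := mul_le_mul_of_nonneg_left (h7 i t ht) (by positivity : 0 ≤ r * η)
      linarith
    have hηK' : η * r / (4 * K) ≤ r * η := by
      rw [div_le_iff₀ (by positivity)]
      have : 0 < r * η := by positivity
      nlinarith
    have hy2 : ‖y - w i‖ ≤ κ * r / 2 := by
      have e1 : y - w i = (y - w i - ((r * η : ℝ) : ℂ) * (I * (v i / (‖v i‖ : ℂ)) * (u i t : ℂ)))
          + ((r * η : ℝ) : ℂ) * (I * (v i / (‖v i‖ : ℂ)) * (u i t : ℂ)) := by ring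
      rw [e1]
      refine (norm_add_le _ _).trans ?_
      have : r * η ≤ r * (κ / 4) := mul_le_mul_of_nonneg_left hη2 hr0.le
      linarith
    have hHy : H (g t) - w i = exp ((ψ i : ℝ) * I) * (y - w i) :=
      comp4_near hκr hwsep i hy2
    have e2 : H (g t) - w i - ((r * η : ℝ) : ℂ) * (e i * (u i t : ℂ)) = exp ((ψ i : ℝ) * I) *
        (y - w i - ((r * η : ℝ) : ℂ) * (I * (v i / (‖v i‖ : ℂ)) * (u i t : ℂ))) := by
      rw [hHy, ← hexpψ i]; ring
    have e3 : γ''.1 (Circle.exp t) - w i - ((r * η : ℝ) : ℂ) * (e i * (u i t : ℂ))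
        = (γ''.1 (Circle.exp t) - H (g t)) +
          (H (g t) - w i - ((r * η : ℝ) : ℂ) * (e i * (u i t : ℂ))) := by ring
    rw [e3]
    refine (norm_add_le _ _).trans ?_
    have e4 : ‖H (g t) - w i - ((r * η : ℝ) : ℂ) * (e i * (u i t : ℂ))‖ ≤ η * r / (4 * K) := by
      rw [e2, norm_mul, Complex.norm_exp_ofReal_mul_I, one_mul]; exact hy1
    have e5 := hclose (Circle.exp t)
    linarith
  have hwq : ∀ i, w i = (P + r / 2) + (r * β : ℝ) * q i := by
    intro i; simp only [hw, hv]; push_cast; ring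
  have hrβ : ‖((r * β : ℝ) : ℂ)‖ = r * β := by
    rw [Complex.norm_real, Real.norm_of_nonneg (by positivity)]
  obtain ⟨x, hx, hFx⟩ := hrob (r * η) (by positivity) (P + r / 2) ((r * β : ℝ) : ℂ)
    (by rw [hrβ]; exact mul_le_mul_of_nonneg_left hη3 hr0.le) q'
    (by
      intro i
      rw [hrβ]
      have h1 : ‖q' i - q i‖ ≤ η / (K * β) := (hq' i).le.trans (min_le_left _ _)
      calc r * β * ‖q' i - q i‖ ≤ r * β * (η / (K * β)) :=
            mul_le_mul_of_nonneg_left h1 (by positivity)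
        _ = r * η / K := by field_simp)
    a b h2 (fun _ t => γ''.1 (Circle.exp t))
    (fun _ => γ''.1.continuous.comp Circle.exp.continuous) u h5 h6 h7
    (by
      intro i t ht
      rw [← hwq i]
      exact hmain i t ht)
  set z : Fin 4 → ℂ := fun i => γ''.1 (Circle.exp (x i)) with hz
  have hq'01 : ‖q 1 - q 0‖ / 2 ≤ ‖q' 1 - q' 0‖ := by
    have h1 := (hq' 1).le.trans (min_le_right _ _)
    have h0 := (hq' 0).le.trans (min_le_right _ _)
    have : q 1 - q 0 = (q' 1 - q' 0) - (q' 1 - q 1) + (q' 0 - q 0) := by ring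
    have h2 : ‖q 1 - q 0‖ ≤ ‖q' 1 - q' 0‖ + ‖q' 1 - q 1‖ + ‖q' 0 - q 0‖ := by
      conv_lhs => rw [this]
      refine (norm_add_le _ _).trans ?_
      have := norm_sub_le (q' 1 - q' 0) (q' 1 - q 1)
      linarith
    linarith
  have hq'ne : q' 0 ≠ q' 1 := by
    intro heq
    rw [heq, sub_self, norm_zero] at hq'01
    linarith
  have hzw : ∀ i, ‖z i - w i‖ ≤ κ * r / 2 := by
    intro i
    have h1 := hmain i (x i) (hx i)
    have h2 : ‖((r * η : ℝ) : ℂ) * (e i * (u i (x i) : ℂ))‖ ≤ r * η := by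
      rw [norm_mul, norm_mul, he1, one_mul, Complex.norm_real, Complex.norm_real,
        Real.norm_of_nonneg (by positivity), Real.norm_eq_abs]
      have := mul_le_mul_of_nonneg_left (h7 i (x i) (hx i)) (by positivity : 0 ≤ r * η)
      linarith
    have e1 : z i - w i = (γ''.1 (Circle.exp (x i)) - w i
        - ((r * η : ℝ) : ℂ) * (e i * (u i (x i) : ℂ)))
        + ((r * η : ℝ) : ℂ) * (e i * (u i (x i) : ℂ)) := by simp only [hz]; ring
    rw [e1]
    refine (norm_add_le _ _).trans ?_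
    have h3 : r * η / K ≤ r * η := div_le_self (by positivity) hK1
    have h4 : r * η ≤ r * (κ / 4) := mul_le_mul_of_nonneg_left hη2 hr0.le
    linarith
  have hzlow : 0 < ‖z 1 - z 0‖ := by
    have h1 := hwsep 1 0 (by decide)
    have h2 : ‖w 1 - w 0‖ ≤ ‖z 1 - z 0‖ + ‖z 1 - w 1‖ + ‖z 0 - w 0‖ := by
      have : w 1 - w 0 = (z 1 - z 0) - (z 1 - w 1) + (z 0 - w 0) := by ring
      rw [this]
      refine (norm_add_le _ _).trans ?_
      have := norm_sub_le (z 1 - z 0) (z 1 - w 1)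
      linarith
    linarith [hzw 1, hzw 0]
  have hzup : ‖z 1 - z 0‖ ≤ 2 * r := by
    have h2 : ‖z 1 - z 0‖ ≤ ‖w 1 - w 0‖ + ‖z 1 - w 1‖ + ‖z 0 - w 0‖ := by
      have : z 1 - z 0 = (w 1 - w 0) + (z 1 - w 1) - (z 0 - w 0) := by ring
      rw [this]
      refine (norm_sub_le _ _).trans ?_
      have := norm_add_le (w 1 - w 0) (z 1 - w 1)
      linarith
    have h3 : ‖w 1 - w 0‖ ≤ r * (3 / 2) := by
      have : w 1 - w 0 = r * (v 1 - v 0) := by simp only [hw]; ring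
      rw [this, norm_mul, Complex.norm_real, Real.norm_of_nonneg hr0.le]
      apply mul_le_mul_of_nonneg_left _ hr0.le
      refine (norm_sub_le _ _).trans ?_
      linarith [hv2 1, hv2 0]
    have h4 : κ * r ≤ 1 / 8 * r := mul_le_mul_of_nonneg_right hκ8 hr0.le
    linarith [hzw 1, hzw 0]
  refine ⟨fun i => Circle.exp (x i), fun i => hhU _ ⟨(h1 i).trans (hx i).1, (hx i).2.trans (h3 i)⟩,
    z 0 - (z 1 - z 0) / (q' 1 - q' 0) * q' 0, (z 1 - z 0) / (q' 1 - q' 0), ?_, ?_, ?_⟩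
  · apply div_ne_zero
    · exact norm_pos_iff.1 hzlow
    · exact sub_ne_zero.2 hq'ne.symm
  · rw [norm_div, div_lt_iff₀ (lt_of_lt_of_le (by positivity) hq'01)]
    calc ‖z 1 - z 0‖ ≤ 2 * r := hzup
      _ < ε * (‖q 1 - q 0‖ / 2) := by linarith
      _ ≤ ε * ‖q' 1 - q' 0‖ := mul_le_mul_of_nonneg_left hq'01 hε.le
  · exact similar_of_F hq'ne hFx

end Q190.IP
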