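import Mathlib
import Pool.Agent.Q190.IPD

set_option autoImplicit false

/-!
The space of Jordan curves is a Baire space; lower porous sets are nowhere dense; the exceptional
set is sigma-porous.
-/

namespace Q190.IP

open Set Topology

theorem isGδ_injective : IsGδ {γ : C(Circle, ℂ) | Function.Injective γ} := by
  have heq : {γ : C(Circle, ℂ) | Function.Injective γ}
      = ⋂ n : ℕ, {γ : C(Circle, ℂ) | ∀ x y : Circle, 1 / ((n : ℝ) + 1) ≤ dist x y → γ x ≠ γ y} := by
    ext γ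
    simp only [mem_ofPred_eq, mem_iInter]
    constructor
    · intro h n x y hd hxy
      rw [h hxy, dist_self] at hd
      have : 0 < 1 / ((n : ℝ) + 1) := by positivity
      linarith
    · intro h x y hxy
      by_contra hne
      obtain ⟨n, hn⟩ := exists_nat_one_div_lt (dist_pos.2 hne)
      exact h n x y hn.le hxy
  rw [heq]
  refine IsGδ.iInter fun n => IsOpen.isGδ ?_
  rw [Metric.isOpen_iff]
  intro γ hγ
  have hK : IsCompact {p : Circle × Circle | 1 / ((n : ℝ) + 1) ≤ dist p.1 p.2} :=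
    (isClosed_le continuous_const continuous_dist).isCompact
  rcases Set.eq_empty_or_nonempty {p : Circle × Circle | 1 / ((n : ℝ) + 1) ≤ dist p.1 p.2} with
    hemp | hne
  · refine ⟨1, one_pos, fun γ' _ x y hd => ?_⟩
    have : ((x, y) : Circle × Circle) ∈ {p : Circle × Circle | 1 / ((n : ℝ) + 1) ≤ dist p.1 p.2} := hd
    rw [hemp] at this
    exact this.elim
  · obtain ⟨p, hp, hmin⟩ := hK.exists_isMinOn hne
      (f := fun p : Circle × Circle => ‖γ p.1 - γ p.2‖) (by fun_prop)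
    have hm : 0 < ‖γ p.1 - γ p.2‖ := norm_pos_iff.2 (sub_ne_zero.2 (hγ p.1 p.2 hp))
    refine ⟨‖γ p.1 - γ p.2‖ / 2, by positivity, fun γ' hγ' x y hd hxy => ?_⟩
    have h1 : ‖γ p.1 - γ p.2‖ ≤ ‖γ x - γ y‖ := hmin (show (x, y) ∈ _ from hd)
    have h2 : dist (γ' x) (γ x) < ‖γ p.1 - γ p.2‖ / 2 :=
      lt_of_le_of_lt (ContinuousMap.dist_apply_le_dist x) hγ'
    have h3 : dist (γ' y) (γ y) < ‖γ p.1 - γ p.2‖ / 2 :=
      lt_of_le_of_lt (ContinuousMap.dist_apply_le_dist y) hγ'
    rw [hxy] at h2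
    have h4 : dist (γ x) (γ y) ≤ dist (γ' y) (γ x) + dist (γ' y) (γ y) :=
      dist_triangle_left _ _ _
    rw [dist_eq_norm] at h4
    linarith

theorem baireSpace_of_isGδ {X : Type*} [MetricSpace X] [CompleteSpace X] {s : Set X}
    (hG : IsGδ s) : BaireSpace s := by
  have h0 : CompleteSpace (closure s) := isClosed_closure.completeSpace_coe
  have h1 : BaireSpace (closure s) := inferInstance
  have h2 : BaireSpace ((↑) ⁻¹' s : Set (closure s)) :=
    (hG.preimage continuous_subtype_val).baireSpace_of_dense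
    (by simp [Subtype.dense_iff, inter_eq_right.mpr subset_closure])
  have h_homeo : Homeomorph ((↑) ⁻¹' s : Set (closure s)) s := ⟨⟨fun x => ⟨x, x.2⟩,
    fun x => ⟨⟨x, subset_closure x.2⟩, x.2⟩, by grind, by grind⟩, by fun_prop, by fun_prop⟩
  exact h_homeo.baireSpace

instance baireSpace_jordanMap : BaireSpace JordanMap := baireSpace_of_isGδ isGδ_injective

theorem residual_of_lowerPorous {X : Type*} [PseudoMetricSpace X] {A : Set X}
    (h : LowerPorous A) : Aᶜ ∈ residual X := by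
  obtain ⟨c, hc, h⟩ := h
  have hd : Dense (interior Aᶜ) := by
    rw [Metric.dense_iff]
    intro x ε hε
    obtain ⟨r₀, hr₀, hr⟩ := h x
    obtain ⟨y, hy, hdis⟩ := hr (min r₀ ε / 2) (by positivity) (by
      have := min_le_left r₀ ε; have : 0 < min r₀ ε := by positivity
      linarith)
    refine ⟨y, ?_, ?_⟩
    · rw [Metric.mem_ball]
      have := min_le_right r₀ ε
      linarith
    · rw [mem_interior]
      refine ⟨Metric.ball y (c * (min r₀ ε / 2)), ?_, Metric.isOpen_ball,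
        Metric.mem_ball_self (by positivity)⟩
      exact fun z hz hzA => Set.disjoint_left.1 hdis hz hzA
  exact Filter.mem_of_superset (residual_of_dense_open isOpen_interior hd) interior_subset

theorem HasCopy.mono {γ : JordanMap} {U V : Set Circle} (hUV : U ⊆ V) {ε ε' : ℝ} (hε : ε ≤ ε')
    {q : Fin 4 → ℂ} (h : HasCopy γ U ε q) : HasCopy γ V ε' q := by
  obtain ⟨t, ht, a, b, hb, hbε, h⟩ := h
  exact ⟨t, fun i => hUV (ht i), a, b, hb, hbε.trans_le hε, h⟩

/-- The exceptional set is covered by countably many lower porous sets. -/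
theorem porous : ∃ S : Set (Set JordanMap), S.Countable ∧ (∀ A ∈ S, LowerPorous A) ∧
    ∀ γ : JordanMap, γ ∉ ⋃₀ S → InscribesEverywhere γ := by
  classical
  have hpl := fun q : {q : Fin 4 → ℂ // Function.Injective q} => plant q.2
  choose ρ c hρ hc hpl using hpl
  obtain ⟨s, hs, hcov⟩ := TopologicalSpace.countable_cover_nhds
    (f := fun q : {q : Fin 4 → ℂ // Function.Injective q} => {q' | ∀ i, ‖q'.1 i - q.1 i‖ < ρ q})
    (by
      intro q
      apply IsOpen.mem_nhds
      · have : {q' : {q : Fin 4 → ℂ // Function.Injective q} | ∀ i, ‖q'.1 i - q.1 i‖ < ρ q}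
            = ⋂ i, {q' | ‖q'.1 i - q.1 i‖ < ρ q} := by
          ext; simp
        rw [this]
        apply isOpen_iInter_of_finite
        intro i
        exact isOpen_lt (((continuous_apply i).comp continuous_subtype_val).sub
          continuous_const).norm continuous_const
      · intro i
        simp [hρ q])
  let A : {q : Fin 4 → ℂ // Function.Injective q} × Set Circle × ℕ → Set JordanMap := fun p =>
    {γ | ¬ ∀ q' : Fin 4 → ℂ, (∀ i, ‖q' i - p.1.1 i‖ < ρ p.1) →
      HasCopy γ p.2.1 (1 / ((p.2.2 : ℝ) + 1)) q'}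
  refine ⟨A '' (s ×ˢ (TopologicalSpace.countableBasis Circle ×ˢ (univ : Set ℕ))), ?_, ?_, ?_⟩
  · exact (hs.prod ((TopologicalSpace.countable_countableBasis Circle).prod
      (countable_univ))).image A
  · rintro _ ⟨⟨q, U, n⟩, ⟨_, hU, _⟩, rfl⟩
    refine ⟨c q, hc q, fun γ => ?_⟩
    obtain ⟨r₀, hr₀, h⟩ := hpl q U (TopologicalSpace.isOpen_of_mem_countableBasis hU)
      (TopologicalSpace.nonempty_of_mem_countableBasis hU) (1 / ((n : ℝ) + 1)) (by positivity) γ
    refine ⟨r₀, hr₀, fun r hr hr' => ?_⟩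
    obtain ⟨γ', hd, hb⟩ := h r hr hr'
    refine ⟨γ', hd, Set.disjoint_left.2 fun γ'' hγ'' hA => hA fun q' hq' => ?_⟩
    exact hb γ'' hγ'' q' hq'
  · intro γ hγ U hU hUne q hq ε hε
    obtain ⟨x, hx⟩ := hUne
    obtain ⟨V, hV, hxV, hVU⟩ :=
      (TopologicalSpace.isBasis_countableBasis Circle).exists_subset_of_mem_open hx hU
    obtain ⟨n, hn⟩ := exists_nat_one_div_lt hε
    have hmem : (⟨q, hq⟩ : {q : Fin 4 → ℂ // Function.Injective q}) ∈
        ⋃ q ∈ s, {q' : {q : Fin 4 → ℂ // Function.Injective q} | ∀ i, ‖q'.1 i - q.1 i‖ < ρ q} := by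
      rw [hcov]; trivial
    simp only [mem_iUnion] at hmem
    obtain ⟨q₀, hq₀, hqq⟩ := hmem
    have hnot : γ ∉ A (q₀, V, n) := by
      intro h
      exact hγ ⟨_, ⟨(q₀, V, n), ⟨hq₀, hV, trivial⟩, rfl⟩, h⟩
    have hall : ∀ q' : Fin 4 → ℂ, (∀ i, ‖q' i - q₀.1 i‖ < ρ q₀) →
        HasCopy γ V (1 / ((n : ℝ) + 1)) q' := by
      by_contra hcon
      exact hnot hcon
    exact (hall q hqq).mono hVU hn.le

theorem generic : ∀ᶠ γ in residual JordanMap, InscribesEverywhere γ := by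
  obtain ⟨S, hc, hp, h⟩ := porous
  have : ⋂₀ ((fun A => Aᶜ) '' S) ∈ residual JordanMap := by
    rw [countable_sInter_mem (hc.image _)]
    rintro _ ⟨A, hA, rfl⟩
    exact residual_of_lowerPorous (hp A hA)
  filter_upwards [this] with γ hγ
  apply h
  rintro ⟨A, hA, hγA⟩
  exact hγ _ ⟨A, hA, rfl⟩ hγA

/-- The four vertices of a square. -/
theorem square_of_everywhere {γ : JordanMap} (h : InscribesEverywhere γ) {U : Set Circle}
    (hU : IsOpen U) (hne : U.Nonempty) : ∃ z w : ℂ, w ≠ 0 ∧ z ∈ γ.1 '' U ∧ z + w ∈ γ.1 '' U ∧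
      z + w + Complex.I * w ∈ γ.1 '' U ∧ z + Complex.I * w ∈ γ.1 '' U := by
  obtain ⟨t, ht, a, b, hb, _, hab⟩ := h U hU hne ![0, 1, 1 + Complex.I, Complex.I] (by
    intro i j hij
    fin_cases i <;> fin_cases j <;> simp [Complex.ext_iff] at hij ⊢) 1 one_pos
  refine ⟨a, b, hb, ⟨t 0, ht 0, ?_⟩, ⟨t 1, ht 1, ?_⟩, ⟨t 2, ht 2, ?_⟩, ⟨t 3, ht 3, ?_⟩⟩
  · rw [hab 0]; simp
  · rw [hab 1]; simp
  · rw [hab 2]; simp; ring
  · rw [hab 3]; simp; ring

end Q190.IP
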