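import Pool.Agent.Helper484.Crit.FG

set_option autoImplicit false

/-!
Planar lemmas: hulls of four points, area bounds for them, splitting an area by a line.
-/

namespace Q190.KQ

open Pool.Agent.Helper484.Crit MeasureTheory Set
open scoped ENNReal

/-- area of a planar set as a real number -/
noncomputable def ar (S : Set P) : ℝ := (volume S).toReal

/-- scalar product -/
def dt (u x : P) : ℝ := u.1 * x.1 + u.2 * x.2

theorem mem_hull4 {a b c d x : P} : x ∈ convexHull ℝ ({a, b, c, d} : Set P) ↔
    ∃ p q r s : ℝ, 0 ≤ p ∧ 0 ≤ q ∧ 0 ≤ r ∧ 0 ≤ s ∧ p + q + r + s = 1 ∧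
      p • a + q • b + r • c + s • d = x := by
  constructor
  · intro hx
    have hconv : Convex ℝ {x : P | ∃ p q r s : ℝ, 0 ≤ p ∧ 0 ≤ q ∧ 0 ≤ r ∧ 0 ≤ s ∧
        p + q + r + s = 1 ∧ p • a + q • b + r • c + s • d = x} := by
      rintro x ⟨p, q, r, s, hp, hq, hr, hs, h1, rfl⟩ y ⟨p', q', r', s', hp', hq', hr', hs', h1', rfl⟩
        m n hm hn hmn
      refine ⟨m * p + n * p', m * q + n * q', m * r + n * r', m * s + n * s', by positivity,
        by positivity, by positivity, by positivity, ?_, ?_⟩
      · have : m * p + n * p' + (m * q + n * q') + (m * r + n * r') + (m * s + n * s') =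
          m * (p + q + r + s) + n * (p' + q' + r' + s') := by ring
        rw [this, h1, h1']; linarith
      · module
    refine convexHull_min ?_ hconv hx
    rintro y hy
    simp only [mem_insert_iff, mem_singleton_iff] at hy
    rcases hy with rfl | rfl | rfl | rfl
    · exact ⟨1, 0, 0, 0, by norm_num, le_rfl, le_rfl, le_rfl, by norm_num, by simp⟩
    · exact ⟨0, 1, 0, 0, le_rfl, by norm_num, le_rfl, le_rfl, by norm_num, by simp⟩
    · exact ⟨0, 0, 1, 0, le_rfl, le_rfl, by norm_num, le_rfl, by norm_num, by simp⟩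
    · exact ⟨0, 0, 0, 1, le_rfl, le_rfl, le_rfl, by norm_num, by norm_num, by simp⟩
  · rintro ⟨p, q, r, s, hp, hq, hr, hs, h1, rfl⟩
    have ha : a ∈ convexHull ℝ ({a, b, c, d} : Set P) := subset_convexHull ℝ _ (by simp)
    have hb : b ∈ convexHull ℝ ({a, b, c, d} : Set P) := subset_convexHull ℝ _ (by simp)
    have hc : c ∈ convexHull ℝ ({a, b, c, d} : Set P) := subset_convexHull ℝ _ (by simp)
    have hd : d ∈ convexHull ℝ ({a, b, c, d} : Set P) := subset_convexHull ℝ _ (by simp)
    have hconv := convex_convexHull ℝ ({a, b, c, d} : Set P)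
    exact hconv.sum_mem (t := Finset.univ) (w := ![p, q, r, s]) (z := ![a, b, c, d])
      (by intro i _; fin_cases i <;> simp [hp, hq, hr, hs])
      (by simp [Fin.sum_univ_four]; linarith)
      (by intro i _; fin_cases i <;> simp [ha, hb, hc, hd])
      |> (by simpa [Fin.sum_univ_four] using ·)

theorem mem_hull3 {a b c x : P} {p q r : ℝ} (hp : 0 ≤ p) (hq : 0 ≤ q) (hr : 0 ≤ r)
    (h1 : p + q + r = 1) (hx : p • a + q • b + r • c = x) :
    x ∈ convexHull ℝ ({a, b, c} : Set P) := by
  subst hx
  have ha : a ∈ convexHull ℝ ({a, b, c} : Set P) := subset_convexHull ℝ _ (by simp)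
  have hb : b ∈ convexHull ℝ ({a, b, c} : Set P) := subset_convexHull ℝ _ (by simp)
  have hc : c ∈ convexHull ℝ ({a, b, c} : Set P) := subset_convexHull ℝ _ (by simp)
  have hconv := convex_convexHull ℝ ({a, b, c} : Set P)
  exact hconv.sum_mem (t := Finset.univ) (w := ![p, q, r]) (z := ![a, b, c])
      (by intro i _; fin_cases i <;> simp [hp, hq, hr])
      (by simp [Fin.sum_univ_three]; linarith)
      (by intro i _; fin_cases i <;> simp [ha, hb, hc])
      |> (by simpa [Fin.sum_univ_three] using ·)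

theorem vol_fin_lt {F : Set P} (hF : F.Finite) : volume (convexHull ℝ F) < ∞ :=
  (hF.isCompact_convexHull ℝ).measure_lt_top

theorem ar_tri (a b c : P) : ar (convexHull ℝ {a, b, c}) = |cr (b - a) (c - a)| / 2 := by
  rw [ar, FG.volume_triangle, ENNReal.toReal_ofReal (by positivity)]

theorem hull4_subset {a b c d : P} {r t : ℝ} (hr : 0 ≤ r) (hr1 : r ≤ 1) (ht : 0 ≤ t) (ht1 : t ≤ 1)
    (hz : (1 - t) • b + t • d = (1 - r) • a + r • c) :
    convexHull ℝ ({a, b, c, d} : Set P) ⊆ convexHull ℝ {a, b, c} ∪ convexHull ℝ {a, c, d} := by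
  intro x hx
  obtain ⟨w1, w2, w3, w4, h1, h2, h3, h4, hs, rfl⟩ := mem_hull4.1 hx
  by_cases hle : w2 * t ≤ w4 * (1 - t)
  · right
    rcases eq_or_lt_of_le ht1 with h | h
    · -- t = 1
      subst h
      have hw2 : w2 = 0 := by nlinarith
      subst hw2
      refine mem_hull3 h1 h3 h4 (by linarith) ?_
      module
    · have hpos : 0 < 1 - t := by linarith
      set m := w2 / (1 - t) with hm
      have hm0 : 0 ≤ m := by positivity
      have hm1 : m * (1 - t) = w2 := by rw [hm]; field_simp
      have hm2 : m * t ≤ w4 := by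
        rw [hm, div_mul_eq_mul_div, div_le_iff₀ hpos]; exact hle
      refine mem_hull3 (p := w1 + m * (1 - r)) (q := w3 + m * r) (r := w4 - m * t)
        (by nlinarith [mul_nonneg hm0 (sub_nonneg.2 hr1)]) (by positivity) (by linarith)
        (by linarith) ?_
      have e : w2 • b = m • ((1 - r) • a + r • c) - (m * t) • d := by
        rw [← hz, ← hm1]; module
      rw [e]; module
  · push Not at hle
    left
    rcases eq_or_lt_of_le ht with h | h
    · subst h
      have : w4 * 1 < 0 := by linarith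
      linarith
    · set m := w4 / t with hm
      have hm0 : 0 ≤ m := by positivity
      have hm1 : m * t = w4 := by rw [hm]; field_simp
      have hm2 : m * (1 - t) ≤ w2 := by
        rw [hm, div_mul_eq_mul_div, div_le_iff₀ h]; exact hle.le
      refine mem_hull3 (p := w1 + m * (1 - r)) (q := w2 - m * (1 - t)) (r := w3 + m * r)
        (by nlinarith [mul_nonneg hm0 (sub_nonneg.2 hr1)]) (by linarith) (by positivity)
        (by linarith) ?_
      have e : w4 • d = m • ((1 - r) • a + r • c) - (m * (1 - t)) • b := by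
        rw [← hz, ← hm1]; module
      rw [e]; module

/-- Area of a quadrilateral in counterclockwise order, upper bound. -/
theorem ar_hull4_le {a b c d : P} (h1 : 0 ≤ cr (b - a) (d - a)) (h2 : 0 ≤ cr (d - c) (b - c))
    (h3 : 0 ≤ cr (b - a) (c - a)) (h4 : 0 ≤ cr (c - a) (d - a)) (h5 : 0 < cr (c - a) (d - b)) :
    ar (convexHull ℝ ({a, b, c, d} : Set P)) ≤ cr (c - a) (d - b) / 2 := by
  set N := cr (c - a) (d - b) with hN
  have e1 : N = cr (b - a) (c - a) + cr (c - a) (d - a) := by
    simp only [hN, cr, Prod.fst_sub, Prod.snd_sub]; ring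
  have e2 : N = cr (b - a) (d - a) + cr (d - c) (b - c) := by
    simp only [hN, cr, Prod.fst_sub, Prod.snd_sub]; ring
  have hsub := hull4_subset (a := a) (b := b) (c := c) (d := d) (r := cr (b - a) (d - a) / N)
    (t := cr (b - a) (c - a) / N) (by positivity) (by rw [div_le_one h5]; linarith) (by positivity)
    (by rw [div_le_one h5]; linarith) (by
      have hN0 : N ≠ 0 := h5.ne'
      have : N • ((1 - cr (b - a) (c - a) / N) • b + (cr (b - a) (c - a) / N) • d) =
          N • ((1 - cr (b - a) (d - a) / N) • a + (cr (b - a) (d - a) / N) • c) := by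
        simp only [smul_add, smul_smul, mul_sub, mul_one, mul_div_cancel₀ _ hN0]
        ext
        · simp only [hN, cr, Prod.fst_sub, Prod.snd_sub, Prod.fst_add, Prod.smul_fst, smul_eq_mul]
          ring
        · simp only [hN, cr, Prod.fst_sub, Prod.snd_sub, Prod.snd_add, Prod.smul_snd, smul_eq_mul]
          ring
      exact smul_right_injective P hN0 this)
  have hv : volume (convexHull ℝ ({a, b, c, d} : Set P)) ≤
      volume (convexHull ℝ ({a, b, c} : Set P)) + volume (convexHull ℝ ({a, c, d} : Set P)) :=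
    (measure_mono hsub).trans (measure_union_le _ _)
  have hf1 : volume (convexHull ℝ ({a, b, c} : Set P)) ≠ ∞ := (vol_fin_lt (by simp)).ne
  have hf2 : volume (convexHull ℝ ({a, c, d} : Set P)) ≠ ∞ := (vol_fin_lt (by simp)).ne
  have h6 := ENNReal.toReal_mono (ENNReal.add_ne_top.2 ⟨hf1, hf2⟩) hv
  rw [ENNReal.toReal_add hf1 hf2] at h6
  change ar _ ≤ ar _ + ar _ at h6
  rw [ar_tri, ar_tri, abs_of_nonneg h3, abs_of_nonneg h4] at h6
  linarith

/-- lines are null sets -/
theorem vol_line {u : P} (hu : u ≠ 0) (c : ℝ) : volume {x : P | dt u x = c} = 0 := by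
  have huu : 0 < dt u u := by
    have : u.1 ≠ 0 ∨ u.2 ≠ 0 := by
      by_contra h
      push Not at h
      exact hu (Prod.ext h.1 h.2)
    rcases this with h | h
    · have := mul_self_pos.2 h
      simp only [dt]; nlinarith [mul_self_nonneg u.2]
    · have := mul_self_pos.2 h
      simp only [dt]; nlinarith [mul_self_nonneg u.1]
  let ℓ : P →ₗ[ℝ] ℝ :=
    { toFun := fun x => dt u x
      map_add' := fun x y => by simp [dt]; ring
      map_smul' := fun r x => by simp [dt]; ring }
  have hne : LinearMap.ker ℓ ≠ ⊤ := by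
    intro h
    have : u ∈ LinearMap.ker ℓ := by rw [h]; trivial
    have h2 : dt u u = 0 := this
    linarith
  have h0 := Measure.addHaar_submodule (volume : Measure P) (LinearMap.ker ℓ) hne
  have hset : {x : P | dt u x = c} =
      (fun x => -((c / dt u u) • u) + x) ⁻¹' (LinearMap.ker ℓ : Set P) := by
    ext x
    simp only [mem_ofPred_eq, mem_preimage, SetLike.mem_coe, LinearMap.mem_ker]
    have : ℓ (-((c / dt u u) • u) + x) = dt u x - c := by
      rw [map_add, map_neg, map_smul]
      change -(c / dt u u * dt u u) + dt u x = _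
      rw [div_mul_cancel₀ _ huu.ne']; ring
    rw [this, sub_eq_zero]
  rw [hset, measure_preimage_add, h0]

theorem continuous_dt (u : P) : Continuous (fun x => dt u x) := by
  unfold dt; fun_prop

/-- splitting by a line -/
theorem vol_split {u : P} (hu : u ≠ 0) (c : ℝ) (S : Set P) :
    volume (S ∩ {x | dt u x ≤ c}) + volume (S ∩ {x | c ≤ dt u x}) ≤ volume S := by
  have hm : MeasurableSet {x : P | dt u x ≤ c} :=
    (isClosed_le (continuous_dt u) continuous_const).measurableSet
  rw [← measure_inter_add_sdiff S hm]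
  refine add_le_add le_rfl ?_
  calc volume (S ∩ {x | c ≤ dt u x}) ≤ volume ((S \ {x | dt u x ≤ c}) ∪ {x | dt u x = c}) := by
        apply measure_mono
        rintro x ⟨hx, hc⟩
        have hc' : c ≤ dt u x := hc
        rcases eq_or_lt_of_le hc' with h | h
        · right; exact h.symm
        · left; exact ⟨hx, not_le.2 h⟩
    _ ≤ volume (S \ {x | dt u x ≤ c}) + volume {x : P | dt u x = c} := measure_union_le _ _
    _ = volume (S \ {x | dt u x ≤ c}) := by rw [vol_line hu, add_zero]

theorem ar_split {u : P} (hu : u ≠ 0) (c : ℝ) {S : Set P} (hS : volume S ≠ ∞) :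
    ar (S ∩ {x | dt u x ≤ c}) + ar (S ∩ {x | c ≤ dt u x}) ≤ ar S := by
  have h := vol_split hu c S
  have h1 : volume (S ∩ {x | dt u x ≤ c}) ≠ ∞ := ne_top_of_le_ne_top hS (measure_mono inter_subset_left)
  have h2 : volume (S ∩ {x | c ≤ dt u x}) ≠ ∞ := ne_top_of_le_ne_top hS (measure_mono inter_subset_left)
  have := ENNReal.toReal_mono hS h
  rwa [ENNReal.toReal_add h1 h2] at this

theorem ar_mono {S T : Set P} (hST : S ⊆ T) (hT : volume T ≠ ∞) : ar S ≤ ar T :=
  ENNReal.toReal_mono hT (measure_mono hST)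

theorem ar_nonneg (S : Set P) : 0 ≤ ar S := ENNReal.toReal_nonneg

/-- lower bound for the area of a convex set containing `o, p, r, s`. -/
theorem ar_quad_ge {M : Set P} (hM : Convex ℝ M) (hf : volume M ≠ ∞) {o p r s : P} (ho : o ∈ M)
    (hp : p ∈ M) (hr : r ∈ M) (hs : s ∈ M) (h1 : 0 ≤ cr (p - o) (r - o))
    (h2 : 0 ≤ cr (r - o) (s - o)) :
    (cr (p - o) (r - o) + cr (r - o) (s - o)) / 2 ≤ ar M := by
  by_cases hro : r = o
  · subst hro
    have : cr (p - r) (r - r) = 0 := by simp [cr]
    have h' : cr (r - r) (s - r) = 0 := by simp [cr]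
    rw [this, h']; simpa using ar_nonneg M
  · set u : P := (-(r.2 - o.2), r.1 - o.1) with hu
    have hu0 : u ≠ 0 := by
      intro h
      apply hro
      have h3 := congrArg Prod.fst h
      have h4 := congrArg Prod.snd h
      simp only [hu, Prod.fst_zero, Prod.snd_zero] at h3 h4
      ext <;> linarith
    have hdt : ∀ x : P, dt u x - dt u o = cr (r - o) (x - o) := by
      intro x; simp only [hu, dt, cr, Prod.fst_sub, Prod.snd_sub]; ring
    have hsp := ar_split hu0 (dt u o) hf
    have hT1 : convexHull ℝ {o, p, r} ⊆ M ∩ {x | dt u x ≤ dt u o} := by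
      refine convexHull_min ?_ (hM.inter ?_)
      · rintro x hx
        simp only [mem_insert_iff, mem_singleton_iff] at hx
        rcases hx with rfl | rfl | rfl
        · exact ⟨ho, le_refl (dt u x)⟩
        · refine ⟨hp, ?_⟩
          have h3 := hdt x
          have h4 : cr (r - o) (x - o) = - cr (x - o) (r - o) := by simp [cr]; ring
          show dt u x ≤ dt u o
          linarith
        · refine ⟨hr, ?_⟩
          have h3 := hdt x
          have h4 : cr (x - o) (x - o) = 0 := by simp [cr]; ring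
          show dt u x ≤ dt u o
          linarith
      · intro x hx y hy a b ha hb hab
        simp only [mem_ofPred_eq] at *
        have : dt u (a • x + b • y) = a * dt u x + b * dt u y := by simp [dt]; ring
        rw [this]
        have h3 : dt u o = a * dt u o + b * dt u o := by rw [← add_mul, hab, one_mul]
        rw [h3]; gcongr
    have hT2 : convexHull ℝ {o, r, s} ⊆ M ∩ {x | dt u o ≤ dt u x} := by
      refine convexHull_min ?_ (hM.inter ?_)
      · rintro x hx
        simp only [mem_insert_iff, mem_singleton_iff] at hx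
        rcases hx with rfl | rfl | rfl
        · exact ⟨ho, le_refl (dt u x)⟩
        · refine ⟨hr, ?_⟩
          have h3 := hdt x
          have h4 : cr (x - o) (x - o) = 0 := by simp [cr]; ring
          show dt u o ≤ dt u x
          linarith
        · refine ⟨hs, ?_⟩
          have h3 := hdt x
          show dt u o ≤ dt u x
          linarith
      · intro x hx y hy a b ha hb hab
        simp only [mem_ofPred_eq] at *
        have : dt u (a • x + b • y) = a * dt u x + b * dt u y := by simp [dt]; ring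
        rw [this]
        have h3 : dt u o = a * dt u o + b * dt u o := by rw [← add_mul, hab, one_mul]
        rw [h3]; gcongr
    have e1 := ar_mono hT1 (ne_top_of_le_ne_top hf (measure_mono inter_subset_left))
    have e2 := ar_mono hT2 (ne_top_of_le_ne_top hf (measure_mono inter_subset_left))
    rw [ar_tri] at e1 e2
    rw [abs_of_nonneg h1] at e1
    rw [abs_of_nonneg h2] at e2
    linarith

/-- A point satisfying four inequalities lies in the quadrilateral of consecutive vertices. -/
theorem mem_hull_of_le {u1 u2 u3 u4 : P} {w1 w2 w3 w4 : ℝ} (hw1 : 0 < w1) (hw2 : 0 < w2)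
    (hw3 : 0 < w3) (hw4 : 0 < w4) (hw : w1 • u1 + w2 • u2 + w3 • u3 + w4 • u4 = 0)
    (h12 : 0 < cr u1 u2) (h23 : 0 < cr u2 u3) (h34 : 0 < cr u3 u4) (h41 : 0 < cr u4 u1)
    {a b c d x : P} (hc1 : dt u1 c = dt u1 d) (hd2 : dt u2 d = dt u2 a) (ha3 : dt u3 a = dt u3 b)
    (hb4 : dt u4 b = dt u4 c) (hx1 : dt u1 x ≤ dt u1 c) (hx2 : dt u2 x ≤ dt u2 d)
    (hx3 : dt u3 x ≤ dt u3 a) (hx4 : dt u4 x ≤ dt u4 b) :
    x ∈ convexHull ℝ ({a, b, c, d} : Set P) := by
  by_contra hx
  obtain ⟨f, m, hfx, hf⟩ := geometric_hahn_banach_point_closed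
    (convex_convexHull ℝ ({a, b, c, d} : Set P))
    ((Set.Finite.isCompact_convexHull ℝ (s := ({a, b, c, d} : Set P)) (by simp)).isClosed) hx
  set g : P := (-(f (1, 0)), -(f (0, 1))) with hg
  have hfg : ∀ z : P, dt g z = - f z := by
    intro z
    have : z = z.1 • ((1 : ℝ), (0 : ℝ)) + z.2 • ((0 : ℝ), (1 : ℝ)) := by ext <;> simp
    conv_rhs => rw [this]
    rw [map_add, map_smul, map_smul]
    simp only [hg, dt, smul_eq_mul]; ring
  have ha := hf a (subset_convexHull ℝ _ (by simp))
  have hb := hf b (subset_convexHull ℝ _ (by simp))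
  have hc := hf c (subset_convexHull ℝ _ (by simp))
  have hd := hf d (subset_convexHull ℝ _ (by simp))
  have ka : dt g a < dt g x := by rw [hfg, hfg]; linarith
  have kb : dt g b < dt g x := by rw [hfg, hfg]; linarith
  have kc : dt g c < dt g x := by rw [hfg, hfg]; linarith
  have kd : dt g d < dt g x := by rw [hfg, hfg]; linarith
  -- cone membership gives a contradiction
  have key : ∀ (u v z : P), 0 < cr u v → 0 ≤ cr u g → 0 ≤ cr g v → dt u x ≤ dt u z →
      dt v x ≤ dt v z → dt g z < dt g x → False := by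
    intro u v z huv h1 h2 h3 h4 h5
    have e : ∀ y : P, cr u v * dt g y = cr g v * dt u y + cr u g * dt v y := by
      intro y; simp only [cr, dt]; ring
    have e1 := e x
    have e2 := e z
    have : cr u v * dt g x ≤ cr u v * dt g z := by
      rw [e1, e2]; gcongr
    have := le_of_mul_le_mul_left this huv
    linarith
  have hsum : w1 * cr u1 g + w2 * cr u2 g + w3 * cr u3 g + w4 * cr u4 g = 0 := by
    have : cr (w1 • u1 + w2 • u2 + w3 • u3 + w4 • u4) g = 0 := by rw [hw]; simp [cr]
    rw [← this]; simp only [cr, Prod.fst_add, Prod.snd_add, Prod.smul_fst, Prod.smul_snd,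
      smul_eq_mul]; ring
  have hneg : ∀ u : P, cr g u = - cr u g := by intro u; simp only [cr]; ring
  have k12 : ¬ (0 ≤ cr u1 g ∧ cr u2 g ≤ 0) := fun h =>
    key u1 u2 d h12 h.1 (by rw [hneg]; linarith [h.2]) (by linarith) hx2 kd
  have k23 : ¬ (0 ≤ cr u2 g ∧ cr u3 g ≤ 0) := fun h =>
    key u2 u3 a h23 h.1 (by rw [hneg]; linarith [h.2]) (by linarith) hx3 ka
  have k34 : ¬ (0 ≤ cr u3 g ∧ cr u4 g ≤ 0) := fun h =>
    key u3 u4 b h34 h.1 (by rw [hneg]; linarith [h.2]) (by linarith) hx4 kb
  have k41 : ¬ (0 ≤ cr u4 g ∧ cr u1 g ≤ 0) := fun h =>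
    key u4 u1 c h41 h.1 (by rw [hneg]; linarith [h.2]) (by linarith) hx1 kc
  by_cases q1 : 0 ≤ cr u1 g
  · have q2 : 0 < cr u2 g := by by_contra h; exact k12 ⟨q1, not_lt.1 h⟩
    have q3 : 0 < cr u3 g := by by_contra h; exact k23 ⟨q2.le, not_lt.1 h⟩
    have q4 : 0 < cr u4 g := by by_contra h; exact k34 ⟨q3.le, not_lt.1 h⟩
    have := mul_pos hw2 q2
    have := mul_pos hw3 q3
    have := mul_pos hw4 q4
    have := mul_nonneg hw1.le q1
    linarith
  · push Not at q1
    have q4 : cr u4 g < 0 := by by_contra h; exact k41 ⟨not_lt.1 h, q1.le⟩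
    have q3 : cr u3 g < 0 := by by_contra h; exact k34 ⟨not_lt.1 h, q4.le⟩
    have q2 : cr u2 g < 0 := by by_contra h; exact k23 ⟨not_lt.1 h, q3.le⟩
    have := mul_neg_of_pos_of_neg hw2 q2
    have := mul_neg_of_pos_of_neg hw3 q3
    have := mul_neg_of_pos_of_neg hw4 q4
    have := mul_neg_of_pos_of_neg hw1 q1
    linarith

end Q190.KQ
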