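import Pool.Agent.Q190.KQ1

set_option autoImplicit false

/-!
Affine maps, the property `Bad`, the trapezoid lemma and the midpoint lemma.
-/

namespace Q190.KQ

open Pool.Agent.Helper484.Crit MeasureTheory Set
open scoped ENNReal

/-- every circumscribed quadrilateral has area at least `√2` times the area of `K` -/
def Bad (K : Set P) : Prop :=
  ∀ a b c d : P, K ⊆ convexHull ℝ {a, b, c, d} →
    Real.sqrt 2 * ar K ≤ ar (convexHull ℝ {a, b, c, d})

/-- linear map with given coefficients -/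
def lin (m1 m2 n1 n2 : ℝ) : P →ₗ[ℝ] P where
  toFun x := (m1 * x.1 + m2 * x.2, n1 * x.1 + n2 * x.2)
  map_add' x y := by ext <;> simp <;> ring
  map_smul' r x := by ext <;> simp <;> ring

/-- affine map with given coefficients -/
def aff (m1 m2 n1 n2 e1 e2 : ℝ) : P →ᵃ[ℝ] P where
  toFun x := (m1 * x.1 + m2 * x.2 + e1, n1 * x.1 + n2 * x.2 + e2)
  linear := lin m1 m2 n1 n2
  map_vadd' x y := by ext <;> simp [lin] <;> ring

theorem aff_apply (m1 m2 n1 n2 e1 e2 : ℝ) (x : P) :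
    aff m1 m2 n1 n2 e1 e2 x = (m1 * x.1 + m2 * x.2 + e1, n1 * x.1 + n2 * x.2 + e2) := rfl

theorem det_lin (m1 m2 n1 n2 : ℝ) : LinearMap.det (lin m1 m2 n1 n2) = m1 * n2 - m2 * n1 := by
  rw [← LinearMap.det_toMatrix (Module.Basis.finTwoProd ℝ), Matrix.det_fin_two]
  simp [LinearMap.toMatrix_apply, lin]

theorem vol_aff (m1 m2 n1 n2 e1 e2 : ℝ) (S : Set P) :
    volume (aff m1 m2 n1 n2 e1 e2 '' S) = ENNReal.ofReal |m1 * n2 - m2 * n1| * volume S := by
  have h : aff m1 m2 n1 n2 e1 e2 '' S = (fun x => (e1, e2) + x) '' (lin m1 m2 n1 n2 '' S) := by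
    rw [image_image]
    apply image_congr
    intro x _
    ext <;> simp [aff_apply, lin] <;> ring
  rw [h, image_add_left, measure_preimage_add, Measure.addHaar_image_linearMap, det_lin]

theorem ar_aff (m1 m2 n1 n2 e1 e2 : ℝ) (S : Set P) :
    ar (aff m1 m2 n1 n2 e1 e2 '' S) = |m1 * n2 - m2 * n1| * ar S := by
  rw [ar, vol_aff, ENNReal.toReal_mul, ENNReal.toReal_ofReal (abs_nonneg _), ar]

theorem aff_surj {m1 m2 n1 n2 : ℝ} (e1 e2 : ℝ) (h : m1 * n2 - m2 * n1 ≠ 0) :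
    Function.Surjective (aff m1 m2 n1 n2 e1 e2) := by
  intro y
  refine ⟨((n2 * (y.1 - e1) - m2 * (y.2 - e2)) / (m1 * n2 - m2 * n1),
    (m1 * (y.2 - e2) - n1 * (y.1 - e1)) / (m1 * n2 - m2 * n1)), ?_⟩
  ext
  · simp only [aff_apply]; field_simp; ring
  · simp only [aff_apply]
    rw [show n1 * ((n2 * (y.1 - e1) - m2 * (y.2 - e2)) / (m1 * n2 - m2 * n1)) +
      n2 * ((m1 * (y.2 - e2) - n1 * (y.1 - e1)) / (m1 * n2 - m2 * n1)) + e2 =
      ((m1 * n2 - m2 * n1) * (y.2 - e2)) / (m1 * n2 - m2 * n1) + e2 by ring,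
      mul_div_cancel_left₀ _ h]
    ring

theorem cr_aff (m1 m2 n1 n2 e1 e2 : ℝ) (a b c d : P) :
    cr (aff m1 m2 n1 n2 e1 e2 c - aff m1 m2 n1 n2 e1 e2 a)
      (aff m1 m2 n1 n2 e1 e2 d - aff m1 m2 n1 n2 e1 e2 b) =
    (m1 * n2 - m2 * n1) * cr (c - a) (d - b) := by
  simp only [aff_apply, cr, Prod.fst_sub, Prod.snd_sub]; ring

theorem aff_inj {m1 m2 n1 n2 : ℝ} (e1 e2 : ℝ) (h : m1 * n2 - m2 * n1 ≠ 0) :
    Function.Injective (aff m1 m2 n1 n2 e1 e2) := by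
  intro x y hxy
  simp only [aff_apply, Prod.mk.injEq] at hxy
  obtain ⟨h1, h2⟩ := hxy
  have e3 : (m1 * n2 - m2 * n1) * (x.1 - y.1) = 0 := by linear_combination n2 * h1 - m2 * h2
  have e4 : (m1 * n2 - m2 * n1) * (x.2 - y.2) = 0 := by linear_combination m1 * h2 - n1 * h1
  have e5 := (mul_eq_zero.1 e3).resolve_left h
  have e6 := (mul_eq_zero.1 e4).resolve_left h
  ext <;> linarith

theorem image_hull4 (φ : P →ᵃ[ℝ] P) (a b c d : P) :
    φ '' convexHull ℝ {a, b, c, d} = convexHull ℝ {φ a, φ b, φ c, φ d} := by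
  rw [AffineMap.image_convexHull]
  congr 1
  simp [image_insert_eq]

theorem Bad.image {K : Set P} (hK : Bad K) {m1 m2 n1 n2 : ℝ} (e1 e2 : ℝ)
    (h : m1 * n2 - m2 * n1 ≠ 0) : Bad (aff m1 m2 n1 n2 e1 e2 '' K) := by
  intro a b c d hsub
  obtain ⟨a, rfl⟩ := aff_surj e1 e2 h a
  obtain ⟨b, rfl⟩ := aff_surj e1 e2 h b
  obtain ⟨c, rfl⟩ := aff_surj e1 e2 h c
  obtain ⟨d, rfl⟩ := aff_surj e1 e2 h d
  rw [← image_hull4] at hsub ⊢
  rw [image_subset_image_iff (aff_inj e1 e2 h)] at hsub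
  have h2 := hK a b c d hsub
  rw [ar_aff, ar_aff]
  have h3 := mul_le_mul_of_nonneg_left h2 (abs_nonneg (m1 * n2 - m2 * n1))
  linarith

theorem continuous_aff (m1 m2 n1 n2 e1 e2 : ℝ) : Continuous (aff m1 m2 n1 n2 e1 e2) := by
  have : (aff m1 m2 n1 n2 e1 e2 : P → P) =
    fun x => (m1 * x.1 + m2 * x.2 + e1, n1 * x.1 + n2 * x.2 + e2) := rfl
  rw [this]; fun_prop

/-- The trapezoid obtained by tilting the right side of the square. -/
theorem trap {K : Set P} (hbox : ∀ x ∈ K, -1 ≤ x.1 ∧ x.1 ≤ 1 ∧ -1 ≤ x.2 ∧ x.2 ≤ 1)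
    (hq : ∀ a b c d : P, K ⊆ convexHull ℝ {a, b, c, d} → 4 ≤ ar (convexHull ℝ {a, b, c, d}))
    {p q : ℝ} (hp : 0 < p) (hq1 : p + q ≤ 1) (hq2 : p - q ≤ 1)
    (h : ∀ x ∈ K, x.1 ≤ 1 - p + q * x.2) : False := by
  have hp1 : p ≤ 1 := by linarith
  have hsub : K ⊆ convexHull ℝ {((-1 : ℝ), (-1 : ℝ)), ((1 - p - q : ℝ), (-1 : ℝ)),
      ((1 - p + q : ℝ), (1 : ℝ)), ((-1 : ℝ), (1 : ℝ))} := by
    intro x hx
    obtain ⟨b1, b2, b3, b4⟩ := hbox x hx
    have b5 := h x hx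
    refine mem_hull_of_le (u1 := (0, 1)) (u2 := (-1, 0)) (u3 := (0, -1)) (u4 := (1, -q))
      (w1 := 1 + max q 0) (w2 := 1) (w3 := 1 + max q 0 - q) (w4 := 1)
      (by positivity) one_pos (by have := le_max_left q 0; linarith) one_pos ?_
      (by norm_num [cr]) (by norm_num [cr]) (by norm_num [cr]) (by norm_num [cr])
      (by norm_num [dt]) (by norm_num [dt]) (by norm_num [dt]) (by simp only [dt]; ring)
      (by simp only [dt]; linarith) (by simp only [dt]; linarith) (by simp only [dt]; linarith)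
      (by simp only [dt]; linarith)
    ext
    · simp
    · simp
  have h1 := hq _ _ _ _ hsub
  have h2 := ar_hull4_le (a := ((-1 : ℝ), (-1 : ℝ))) (b := ((1 - p - q : ℝ), (-1 : ℝ)))
    (c := ((1 - p + q : ℝ), (1 : ℝ))) (d := ((-1 : ℝ), (1 : ℝ)))
    (by simp only [cr, Prod.fst_sub, Prod.snd_sub]; nlinarith)
    (by simp only [cr, Prod.fst_sub, Prod.snd_sub]; nlinarith)
    (by simp only [cr, Prod.fst_sub, Prod.snd_sub]; nlinarith)
    (by simp only [cr, Prod.fst_sub, Prod.snd_sub]; nlinarith)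
    (by simp only [cr, Prod.fst_sub, Prod.snd_sub]; nlinarith)
  have h3 : cr (((1 - p + q : ℝ), (1 : ℝ)) - ((-1 : ℝ), (-1 : ℝ)))
    (((-1 : ℝ), (1 : ℝ)) - ((1 - p - q : ℝ), (-1 : ℝ))) = 8 - 4 * p := by
    simp only [cr, Prod.fst_sub, Prod.snd_sub]; ring
  rw [h3] at h2
  linarith

theorem mid_aux {K : Set P} (hc : IsCompact K) (f : P → ℝ) (hf : Continuous f)
    (h : ∀ x ∈ K, 0 < f x) : ∃ δ : ℝ, 0 < δ ∧ δ ≤ 1 ∧ ∀ x ∈ K, δ ≤ f x := by
  rcases K.eq_empty_or_nonempty with rfl | hne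
  · exact ⟨1, one_pos, le_rfl, by simp⟩
  · obtain ⟨x0, hx0, hmin⟩ := hc.exists_isMinOn hne hf.continuousOn
    refine ⟨min (f x0) 1, lt_min (h x0 hx0) one_pos, min_le_right _ _, ?_⟩
    intro x hx
    exact (min_le_left _ _).trans (hmin hx)

/-- If every circumscribed quadrilateral has area at least `4`, then the midpoint of the
right side lies in `K`. -/
theorem mid_right {K : Set P} (hc : IsCompact K) (hK : Convex ℝ K)
    (hbox : ∀ x ∈ K, -1 ≤ x.1 ∧ x.1 ≤ 1 ∧ -1 ≤ x.2 ∧ x.2 ≤ 1)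
    (hq : ∀ a b c d : P, K ⊆ convexHull ℝ {a, b, c, d} → 4 ≤ ar (convexHull ℝ {a, b, c, d})) :
    ((1 : ℝ), (0 : ℝ)) ∈ K := by
  by_contra hno
  by_cases hA : ∀ x ∈ K, x.1 = 1 → 0 < x.2
  · obtain ⟨δ, hδ, hδ1, h⟩ := mid_aux hc (fun x => max (1 - x.1) x.2) (by fun_prop) (by
      intro x hx
      obtain ⟨b1, b2, b3, b4⟩ := hbox x hx
      rcases eq_or_lt_of_le b2 with h | h
      · exact lt_max_of_lt_right (hA x hx h)
      · exact lt_max_of_lt_left (by linarith))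
    refine trap hbox hq (p := δ / 2 * δ) (q := δ / 2) (by positivity) (by nlinarith)
      (by nlinarith) ?_
    intro x hx
    obtain ⟨b1, b2, b3, b4⟩ := hbox x hx
    rcases le_max_iff.1 (h x hx) with h | h
    · nlinarith
    · nlinarith
  · push Not at hA
    obtain ⟨y, hy, hy1, hy2⟩ := hA
    have hB : ∀ x ∈ K, x.1 = 1 → x.2 < 0 := by
      intro x hx hx1
      by_contra hx2
      push Not at hx2
      apply hno
      rcases eq_or_lt_of_le hx2 with h0 | h0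
      · convert hx using 1
        ext <;> simp [hx1, ← h0]
      · have hd : 0 < x.2 - y.2 := by linarith
        have := hK hy hx (a := x.2 / (x.2 - y.2)) (b := -y.2 / (x.2 - y.2)) (by positivity)
          (div_nonneg (by linarith) hd.le) (by field_simp; ring)
        convert this using 1
        ext
        · simp only [Prod.fst_add, Prod.smul_fst, smul_eq_mul, hx1, hy1]; field_simp; ring
        · simp only [Prod.snd_add, Prod.smul_snd, smul_eq_mul]; field_simp; ring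
    obtain ⟨δ, hδ, hδ1, h⟩ := mid_aux hc (fun x => max (1 - x.1) (-x.2)) (by fun_prop) (by
      intro x hx
      obtain ⟨b1, b2, b3, b4⟩ := hbox x hx
      rcases eq_or_lt_of_le b2 with h | h
      · exact lt_max_of_lt_right (by have := hB x hx h; linarith)
      · exact lt_max_of_lt_left (by linarith))
    refine trap hbox hq (p := δ / 2 * δ) (q := -(δ / 2)) (by positivity) (by nlinarith)
      (by nlinarith) ?_
    intro x hx
    obtain ⟨b1, b2, b3, b4⟩ := hbox x hx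
    rcases le_max_iff.1 (h x hx) with h | h
    · nlinarith
    · nlinarith

theorem Bad.four {K : Set P} (hK : Bad K) (h2 : 2 * Real.sqrt 2 ≤ ar K) (a b c d : P)
    (hsub : K ⊆ convexHull ℝ {a, b, c, d}) : 4 ≤ ar (convexHull ℝ {a, b, c, d}) := by
  have h := hK a b c d hsub
  have h3 : Real.sqrt 2 * Real.sqrt 2 = 2 := Real.mul_self_sqrt (by norm_num)
  have h4 := mul_le_mul_of_nonneg_left h2 (Real.sqrt_nonneg 2)
  nlinarith

/-- All four midpoints. -/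
theorem mid_all {K : Set P} (hc : IsCompact K) (hK : Convex ℝ K)
    (hbox : ∀ x ∈ K, -1 ≤ x.1 ∧ x.1 ≤ 1 ∧ -1 ≤ x.2 ∧ x.2 ≤ 1)
    (hB : Bad K) (h2 : 2 * Real.sqrt 2 ≤ ar K) :
    ((1 : ℝ), (0 : ℝ)) ∈ K ∧ ((0 : ℝ), (1 : ℝ)) ∈ K ∧ ((-1 : ℝ), (0 : ℝ)) ∈ K ∧
      ((0 : ℝ), (-1 : ℝ)) ∈ K := by
  have key : ∀ m1 m2 n1 n2 : ℝ, |m1 * n2 - m2 * n1| = 1 →
      (∀ x ∈ K, -1 ≤ m1 * x.1 + m2 * x.2 ∧ m1 * x.1 + m2 * x.2 ≤ 1 ∧
        -1 ≤ n1 * x.1 + n2 * x.2 ∧ n1 * x.1 + n2 * x.2 ≤ 1) →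
      ∃ x ∈ K, m1 * x.1 + m2 * x.2 = 1 ∧ n1 * x.1 + n2 * x.2 = 0 := by
    intro m1 m2 n1 n2 hdet hb
    have hne : m1 * n2 - m2 * n1 ≠ 0 := by
      intro h; rw [h] at hdet; norm_num at hdet
    have h1 : IsCompact (aff m1 m2 n1 n2 0 0 '' K) := hc.image (continuous_aff _ _ _ _ _ _)
    have h3 : Convex ℝ (aff m1 m2 n1 n2 0 0 '' K) := hK.affine_image _
    have h4 := hB.image 0 0 hne
    have h5 : 2 * Real.sqrt 2 ≤ ar (aff m1 m2 n1 n2 0 0 '' K) := by
      rw [ar_aff, hdet, one_mul]; exact h2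
    have h6 := mid_right h1 h3 (by
      rintro _ ⟨x, hx, rfl⟩
      have := hb x hx
      simpa [aff_apply] using this) (h4.four h5)
    obtain ⟨x, hx, hx2⟩ := h6
    simp only [aff_apply, Prod.mk.injEq, add_zero] at hx2
    exact ⟨x, hx, hx2.1, hx2.2⟩
  refine ⟨?_, ?_, ?_, ?_⟩
  · exact mid_right hc hK hbox (hB.four h2)
  · obtain ⟨x, hx, h1, h2⟩ := key 0 1 1 0 (by norm_num) (by
      intro x hx; have := hbox x hx; simp; tauto)
    have e : x = (0, 1) := by ext <;> simp at * <;> linarith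
    rwa [e] at hx
  · obtain ⟨x, hx, h1, h2⟩ := key (-1) 0 0 1 (by norm_num) (by
      intro x hx; obtain ⟨b1, b2, b3, b4⟩ := hbox x hx
      refine ⟨by linarith, by linarith, by linarith, by linarith⟩)
    have e : x = (-1, 0) := by ext <;> simp at * <;> linarith
    rwa [e] at hx
  · obtain ⟨x, hx, h1, h2⟩ := key 0 (-1) 1 0 (by norm_num) (by
      intro x hx; obtain ⟨b1, b2, b3, b4⟩ := hbox x hx
      refine ⟨by linarith, by linarith, by linarith, by linarith⟩)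
    have e : x = (0, -1) := by ext <;> simp at * <;> linarith
    rwa [e] at hx

end Q190.KQ
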