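import Pool.Agent.Q190.KQ2

set_option autoImplicit false

/-!
Normalised position: area bounds.
-/

namespace Q190.KQ

open Pool.Agent.Helper484.Crit MeasureTheory Set
open scoped ENNReal

/-- normalised position -/
structure Nrm (K : Set P) (α β : ℝ) : Prop where
  comp : IsCompact K
  conv : Convex ℝ K
  box : ∀ x ∈ K, -1 ≤ x.1 ∧ x.1 ≤ 1 ∧ -1 ≤ x.2 ∧ x.2 ≤ 1
  p1 : ((1 : ℝ), β) ∈ K
  p2 : (α, (1 : ℝ)) ∈ K
  p3 : ((-1 : ℝ), β) ∈ K
  p4 : (α, (-1 : ℝ)) ∈ K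

/-- the four functionals -/
def u1 (α β : ℝ) : P := (1 - β, 1 - α)
/-- the four functionals -/
def u2 (α β : ℝ) : P := (-(1 - β), 1 + α)
/-- the four functionals -/
def u3 (α β : ℝ) : P := (-(1 + β), -(1 + α))
/-- the four functionals -/
def u4 (α β : ℝ) : P := (1 + β, -(1 - α))

/-- points where the four functionals are maximal -/
structure Max4 (K : Set P) (α β : ℝ) (r1 r2 r3 r4 : P) : Prop where
  m1 : r1 ∈ K
  m2 : r2 ∈ K
  m3 : r3 ∈ K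
  m4 : r4 ∈ K
  l1 : ∀ x ∈ K, dt (u1 α β) x ≤ dt (u1 α β) r1
  l2 : ∀ x ∈ K, dt (u2 α β) x ≤ dt (u2 α β) r2
  l3 : ∀ x ∈ K, dt (u3 α β) x ≤ dt (u3 α β) r3
  l4 : ∀ x ∈ K, dt (u4 α β) x ≤ dt (u4 α β) r4

theorem Nrm.abs {K : Set P} {α β : ℝ} (h : Nrm K α β) : -1 ≤ α ∧ α ≤ 1 ∧ -1 ≤ β ∧ β ≤ 1 := by
  have h1 := h.box _ h.p1
  have h2 := h.box _ h.p2
  exact ⟨h2.1, h2.2.1, h1.2.2.1, h1.2.2.2⟩

theorem exists_max4 {K : Set P} (hc : IsCompact K) (hne : K.Nonempty) (α β : ℝ) :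
    ∃ r1 r2 r3 r4 : P, Max4 K α β r1 r2 r3 r4 := by
  have h : ∀ u : P, ∃ r ∈ K, ∀ x ∈ K, dt u x ≤ dt u r := by
    intro u
    obtain ⟨r, hr, hm⟩ := hc.exists_isMaxOn hne (continuous_dt u).continuousOn
    exact ⟨r, hr, fun x hx => hm hx⟩
  obtain ⟨r1, a1, b1⟩ := h (u1 α β)
  obtain ⟨r2, a2, b2⟩ := h (u2 α β)
  obtain ⟨r3, a3, b3⟩ := h (u3 α β)
  obtain ⟨r4, a4, b4⟩ := h (u4 α β)
  exact ⟨r1, r2, r3, r4, a1, a2, a3, a4, b1, b2, b3, b4⟩

theorem Nrm.o_mem {K : Set P} {α β : ℝ} (h : Nrm K α β) : (α, β) ∈ K := by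
  obtain ⟨a1, a2, b1, b2⟩ := h.abs
  have := h.conv h.p1 h.p3 (a := (1 + α) / 2) (b := (1 - α) / 2) (by linarith) (by linarith)
    (by ring)
  convert this using 1
  ext
  · simp; ring
  · simp; ring

theorem convex_ge1 (c : ℝ) : Convex ℝ {x : P | c ≤ x.1} := by
  intro x hx y hy a b ha hb hab
  have h1 : c ≤ x.1 := hx
  have h2 : c ≤ y.1 := hy
  show c ≤ (a • x + b • y).1
  simp only [Prod.fst_add, Prod.smul_fst, smul_eq_mul]
  have e : c = a * c + b * c := by rw [← add_mul, hab, one_mul]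
  have := mul_le_mul_of_nonneg_left h1 ha
  have := mul_le_mul_of_nonneg_left h2 hb
  linarith

theorem convex_le1 (c : ℝ) : Convex ℝ {x : P | x.1 ≤ c} := by
  intro x hx y hy a b ha hb hab
  have h1 : x.1 ≤ c := hx
  have h2 : y.1 ≤ c := hy
  show (a • x + b • y).1 ≤ c
  simp only [Prod.fst_add, Prod.smul_fst, smul_eq_mul]
  have e : c = a * c + b * c := by rw [← add_mul, hab, one_mul]
  have := mul_le_mul_of_nonneg_left h1 ha
  have := mul_le_mul_of_nonneg_left h2 hb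
  linarith

theorem convex_ge2 (c : ℝ) : Convex ℝ {x : P | c ≤ x.2} := by
  intro x hx y hy a b ha hb hab
  have h1 : c ≤ x.2 := hx
  have h2 : c ≤ y.2 := hy
  show c ≤ (a • x + b • y).2
  simp only [Prod.snd_add, Prod.smul_snd, smul_eq_mul]
  have e : c = a * c + b * c := by rw [← add_mul, hab, one_mul]
  have := mul_le_mul_of_nonneg_left h1 ha
  have := mul_le_mul_of_nonneg_left h2 hb
  linarith

theorem convex_le2 (c : ℝ) : Convex ℝ {x : P | x.2 ≤ c} := by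
  intro x hx y hy a b ha hb hab
  have h1 : x.2 ≤ c := hx
  have h2 : y.2 ≤ c := hy
  show (a • x + b • y).2 ≤ c
  simp only [Prod.snd_add, Prod.smul_snd, smul_eq_mul]
  have e : c = a * c + b * c := by rw [← add_mul, hab, one_mul]
  have := mul_le_mul_of_nonneg_left h1 ha
  have := mul_le_mul_of_nonneg_left h2 hb
  linarith

/-- quadrants of `K` -/
def M1 (K : Set P) (α β : ℝ) : Set P := K ∩ {x | α ≤ x.1} ∩ {x | β ≤ x.2}
/-- quadrants of `K` -/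
def M2 (K : Set P) (α β : ℝ) : Set P := K ∩ {x | x.1 ≤ α} ∩ {x | β ≤ x.2}
/-- quadrants of `K` -/
def M3 (K : Set P) (α β : ℝ) : Set P := K ∩ {x | x.1 ≤ α} ∩ {x | x.2 ≤ β}
/-- quadrants of `K` -/
def M4 (K : Set P) (α β : ℝ) : Set P := K ∩ {x | α ≤ x.1} ∩ {x | x.2 ≤ β}

theorem quad_sum {K : Set P} (hf : volume K ≠ ∞) (α β : ℝ) :
    ar (M1 K α β) + ar (M2 K α β) + ar (M3 K α β) + ar (M4 K α β) ≤ ar K := by
  have e1 : ((1 : ℝ), (0 : ℝ)) ≠ (0 : P) := by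
    intro h; have := congrArg Prod.fst h; norm_num at this
  have e2 : ((0 : ℝ), (1 : ℝ)) ≠ (0 : P) := by
    intro h; have := congrArg Prod.snd h; norm_num at this
  have k1 := ar_split e1 α hf
  have k2 := ar_split e2 β (S := K ∩ {x | dt ((1 : ℝ), (0 : ℝ)) x ≤ α})
    (ne_top_of_le_ne_top hf (measure_mono inter_subset_left))
  have k3 := ar_split e2 β (S := K ∩ {x | α ≤ dt ((1 : ℝ), (0 : ℝ)) x})
    (ne_top_of_le_ne_top hf (measure_mono inter_subset_left))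
  have d1 : ∀ x : P, dt ((1 : ℝ), (0 : ℝ)) x = x.1 := by intro x; simp [dt]
  have d2 : ∀ x : P, dt ((0 : ℝ), (1 : ℝ)) x = x.2 := by intro x; simp [dt]
  simp only [d1, d2] at k1 k2 k3
  simp only [M1, M2, M3, M4]
  linarith

variable {K : Set P} {α β : ℝ}

theorem r1_mem (h : Nrm K α β) (ha : α < 1) (hb : β < 1) {r1 r2 r3 r4 : P}
    (hm : Max4 K α β r1 r2 r3 r4) : α ≤ r1.1 ∧ β ≤ r1.2 := by
  have h1 := hm.l1 _ h.p1
  obtain ⟨b1, b2, b3, b4⟩ := h.box _ hm.m1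
  simp only [dt, u1] at h1
  constructor
  · by_contra hc
    push Not at hc
    nlinarith
  · by_contra hc
    push Not at hc
    nlinarith

theorem r2_mem (h : Nrm K α β) (ha : -1 < α) (hb : β < 1) {r1 r2 r3 r4 : P}
    (hm : Max4 K α β r1 r2 r3 r4) : r2.1 ≤ α ∧ β ≤ r2.2 := by
  have h1 := hm.l2 _ h.p3
  obtain ⟨b1, b2, b3, b4⟩ := h.box _ hm.m2
  simp only [dt, u2] at h1
  constructor
  · by_contra hc
    push Not at hc
    nlinarith
  · by_contra hc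
    push Not at hc
    nlinarith

theorem r3_mem (h : Nrm K α β) (ha : -1 < α) (hb : -1 < β) {r1 r2 r3 r4 : P}
    (hm : Max4 K α β r1 r2 r3 r4) : r3.1 ≤ α ∧ r3.2 ≤ β := by
  have h1 := hm.l3 _ h.p3
  obtain ⟨b1, b2, b3, b4⟩ := h.box _ hm.m3
  simp only [dt, u3] at h1
  constructor
  · by_contra hc
    push Not at hc
    nlinarith
  · by_contra hc
    push Not at hc
    nlinarith

theorem r4_mem (h : Nrm K α β) (ha : α < 1) (hb : -1 < β) {r1 r2 r3 r4 : P}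
    (hm : Max4 K α β r1 r2 r3 r4) : α ≤ r4.1 ∧ r4.2 ≤ β := by
  have h1 := hm.l4 _ h.p1
  obtain ⟨b1, b2, b3, b4⟩ := h.box _ hm.m4
  simp only [dt, u4] at h1
  constructor
  · by_contra hc
    push Not at hc
    nlinarith
  · by_contra hc
    push Not at hc
    nlinarith

theorem h1_ge {M : Set P} (hM : Convex ℝ M) (hf : volume M ≠ ∞) {r : P} (ho : (α, β) ∈ M)
    (h1 : ((1 : ℝ), β) ∈ M) (hr : r ∈ M) (h2 : (α, (1 : ℝ)) ∈ M) (hα : α ≤ 1) (hβ : β ≤ 1)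
    (k1 : α ≤ r.1) (k2 : β ≤ r.2) :
    (dt (u1 α β) r - dt (u1 α β) (α, β)) / 2 ≤ ar M := by
  have := ar_quad_ge hM hf ho h1 hr h2
    (by simp only [cr, Prod.fst_sub, Prod.snd_sub]; nlinarith)
    (by simp only [cr, Prod.fst_sub, Prod.snd_sub]; nlinarith)
  refine le_trans (le_of_eq ?_) this
  simp only [cr, Prod.fst_sub, Prod.snd_sub, dt, u1]; ring

theorem h2_ge {M : Set P} (hM : Convex ℝ M) (hf : volume M ≠ ∞) {r : P} (ho : (α, β) ∈ M)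
    (h1 : (α, (1 : ℝ)) ∈ M) (hr : r ∈ M) (h2 : ((-1 : ℝ), β) ∈ M) (hα : -1 ≤ α) (hβ : β ≤ 1)
    (k1 : r.1 ≤ α) (k2 : β ≤ r.2) :
    (dt (u2 α β) r - dt (u2 α β) (α, β)) / 2 ≤ ar M := by
  have := ar_quad_ge hM hf ho h1 hr h2
    (by simp only [cr, Prod.fst_sub, Prod.snd_sub]; nlinarith)
    (by simp only [cr, Prod.fst_sub, Prod.snd_sub]; nlinarith)
  refine le_trans (le_of_eq ?_) this
  simp only [cr, Prod.fst_sub, Prod.snd_sub, dt, u2]; ring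

theorem h3_ge {M : Set P} (hM : Convex ℝ M) (hf : volume M ≠ ∞) {r : P} (ho : (α, β) ∈ M)
    (h1 : ((-1 : ℝ), β) ∈ M) (hr : r ∈ M) (h2 : (α, (-1 : ℝ)) ∈ M) (hα : -1 ≤ α) (hβ : -1 ≤ β)
    (k1 : r.1 ≤ α) (k2 : r.2 ≤ β) :
    (dt (u3 α β) r - dt (u3 α β) (α, β)) / 2 ≤ ar M := by
  have := ar_quad_ge hM hf ho h1 hr h2
    (by simp only [cr, Prod.fst_sub, Prod.snd_sub]; nlinarith)
    (by simp only [cr, Prod.fst_sub, Prod.snd_sub]; nlinarith)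
  refine le_trans (le_of_eq ?_) this
  simp only [cr, Prod.fst_sub, Prod.snd_sub, dt, u3]; ring

theorem h4_ge {M : Set P} (hM : Convex ℝ M) (hf : volume M ≠ ∞) {r : P} (ho : (α, β) ∈ M)
    (h1 : (α, (-1 : ℝ)) ∈ M) (hr : r ∈ M) (h2 : ((1 : ℝ), β) ∈ M) (hα : α ≤ 1) (hβ : -1 ≤ β)
    (k1 : α ≤ r.1) (k2 : r.2 ≤ β) :
    (dt (u4 α β) r - dt (u4 α β) (α, β)) / 2 ≤ ar M := by
  have := ar_quad_ge hM hf ho h1 hr h2
    (by simp only [cr, Prod.fst_sub, Prod.snd_sub]; nlinarith)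
    (by simp only [cr, Prod.fst_sub, Prod.snd_sub]; nlinarith)
  refine le_trans (le_of_eq ?_) this
  simp only [cr, Prod.fst_sub, Prod.snd_sub, dt, u4]; ring

theorem convM1 (h : Convex ℝ K) : Convex ℝ (M1 K α β) :=
  (h.inter (convex_ge1 α)).inter (convex_ge2 β)
theorem convM2 (h : Convex ℝ K) : Convex ℝ (M2 K α β) :=
  (h.inter (convex_le1 α)).inter (convex_ge2 β)
theorem convM3 (h : Convex ℝ K) : Convex ℝ (M3 K α β) :=
  (h.inter (convex_le1 α)).inter (convex_le2 β)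
theorem convM4 (h : Convex ℝ K) : Convex ℝ (M4 K α β) :=
  (h.inter (convex_ge1 α)).inter (convex_le2 β)

/-- lower bounds for the areas of the quadrants -/
theorem lower4 (h : Nrm K α β) (ha : -1 < α) (ha' : α < 1) (hb : -1 < β) (hb' : β < 1)
    {r1 r2 r3 r4 : P} (hm : Max4 K α β r1 r2 r3 r4) :
    (dt (u1 α β) r1 - dt (u1 α β) (α, β)) / 2 ≤ ar (M1 K α β) ∧
    (dt (u2 α β) r2 - dt (u2 α β) (α, β)) / 2 ≤ ar (M2 K α β) ∧
    (dt (u3 α β) r3 - dt (u3 α β) (α, β)) / 2 ≤ ar (M3 K α β) ∧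
    (dt (u4 α β) r4 - dt (u4 α β) (α, β)) / 2 ≤ ar (M4 K α β) := by
  have hf : volume K ≠ ∞ := h.comp.measure_lt_top.ne
  have k1 := r1_mem h ha' hb' hm
  have k2 := r2_mem h ha hb' hm
  have k3 := r3_mem h ha hb hm
  have k4 := r4_mem h ha' hb hm
  have ho := h.o_mem
  refine ⟨?_, ?_, ?_, ?_⟩
  · exact h1_ge (convM1 h.conv)
      (ne_top_of_le_ne_top hf (measure_mono (fun x hx => hx.1.1)))
      ⟨⟨ho, le_refl α⟩, le_refl β⟩ ⟨⟨h.p1, ha'.le⟩, le_refl β⟩ ⟨⟨hm.m1, k1.1⟩, k1.2⟩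
      ⟨⟨h.p2, le_refl α⟩, hb'.le⟩ ha'.le hb'.le k1.1 k1.2
  · exact h2_ge (convM2 h.conv)
      (ne_top_of_le_ne_top hf (measure_mono (fun x hx => hx.1.1)))
      ⟨⟨ho, le_refl α⟩, le_refl β⟩ ⟨⟨h.p2, le_refl α⟩, hb'.le⟩ ⟨⟨hm.m2, k2.1⟩, k2.2⟩
      ⟨⟨h.p3, ha.le⟩, le_refl β⟩ ha.le hb'.le k2.1 k2.2
  · exact h3_ge (convM3 h.conv)
      (ne_top_of_le_ne_top hf (measure_mono (fun x hx => hx.1.1)))
      ⟨⟨ho, le_refl α⟩, le_refl β⟩ ⟨⟨h.p3, ha.le⟩, le_refl β⟩ ⟨⟨hm.m3, k3.1⟩, k3.2⟩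
      ⟨⟨h.p4, le_refl α⟩, hb.le⟩ ha.le hb.le k3.1 k3.2
  · exact h4_ge (convM4 h.conv)
      (ne_top_of_le_ne_top hf (measure_mono (fun x hx => hx.1.1)))
      ⟨⟨ho, le_refl α⟩, le_refl β⟩ ⟨⟨h.p4, le_refl α⟩, hb.le⟩ ⟨⟨hm.m4, k4.1⟩, k4.2⟩
      ⟨⟨h.p1, ha'.le⟩, le_refl β⟩ ha'.le hb.le k4.1 k4.2

theorem lower_sum (h : Nrm K α β) (ha : -1 < α) (ha' : α < 1) (hb : -1 < β) (hb' : β < 1)
    {r1 r2 r3 r4 : P} (hm : Max4 K α β r1 r2 r3 r4) :
    (dt (u1 α β) r1 + dt (u2 α β) r2 + dt (u3 α β) r3 + dt (u4 α β) r4) / 2 ≤ ar K := by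
  obtain ⟨k1, k2, k3, k4⟩ := lower4 h ha ha' hb hb' hm
  have k5 := quad_sum (h.comp.measure_lt_top.ne) α β
  have k6 : dt (u1 α β) (α, β) + dt (u2 α β) (α, β) + dt (u3 α β) (α, β) +
    dt (u4 α β) (α, β) = 0 := by simp only [dt, u1, u2, u3, u4]; ring
  linarith

theorem aux1 {α β d1 d2 d4 : ℝ} (pa : 0 < 1 - α) (pb : 0 < 1 - β) (q1 : 1 + α * β ≤ d2)
    (q2 : 1 + α * β ≤ d4) (q3 : d1 ≤ 2 - α - β) (q4 : 0 < d1) (q5 : 0 < 1 + α * β) :
    (α + β) * d1 < (1 - β) * d4 + (1 - α) * d2 := by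
  have q7 : (1 - β) * (1 + α * β) + (1 - α) * (1 + α * β) ≤ (1 - β) * d4 + (1 - α) * d2 := by
    gcongr
  rcases le_or_gt (α + β) 0 with hs | hs
  · have : (α + β) * d1 ≤ 0 := mul_nonpos_of_nonpos_of_nonneg hs q4.le
    nlinarith [mul_pos pa q5, mul_pos pb q5]
  · have : (α + β) * d1 ≤ (α + β) * (2 - α - β) := by gcongr
    nlinarith [mul_pos (mul_pos pa pb) (by linarith : 0 < 2 - α - β)]

theorem aux2 {α β : ℝ} (ha : -1 < α) (ha' : α < 1) (hb : -1 < β) (hb' : β < 1) :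
    0 < 1 - α * β ∧ 0 < 1 + α * β := by
  constructor <;> nlinarith

theorem aux3 {c x y : ℝ} (hc : 0 < c) (h : c * x ≤ c * y) : x ≤ y := le_of_mul_le_mul_left h hc

theorem aux4 {x12 x34 y41 y23 X41 Y12 X23 Y34 : ℝ}
    (g1 : 0 ≤ x34 - X23) (g2 : 0 ≤ Y12 - y23) (g3 : 0 ≤ y23 - Y34) (g4 : 0 ≤ x12 - X23)
    (g5 : 0 ≤ y41 - Y34) (g6 : 0 ≤ X41 - x12) (g7 : 0 < X41 - x34) (g8 : 0 < Y12 - y41) :
    ar (convexHull ℝ ({(X23, y23), (x34, Y34), (X41, y41), (x12, Y12)} : Set P)) ≤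
      ((X41 - X23) * (Y12 - Y34) - (y41 - y23) * (x12 - x34)) / 2 := by
  refine (ar_hull4_le ?_ ?_ ?_ ?_ ?_).trans (le_of_eq ?_)
  · simp only [cr, Prod.fst_sub, Prod.snd_sub]
    nlinarith [mul_nonneg g1 g2, mul_nonneg g3 g4]
  · simp only [cr, Prod.fst_sub, Prod.snd_sub]
    nlinarith [mul_nonneg g6 g5, mul_nonneg g8.le g7.le]
  · simp only [cr, Prod.fst_sub, Prod.snd_sub]
    nlinarith [mul_nonneg g7.le g3, mul_nonneg g5 g1]
  · simp only [cr, Prod.fst_sub, Prod.snd_sub]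
    nlinarith [mul_nonneg g4 g8.le, mul_nonneg g2 g6]
  · simp only [cr, Prod.fst_sub, Prod.snd_sub]
    nlinarith [mul_nonneg g6 g5, mul_pos g8 g7, mul_nonneg g1 g2, mul_nonneg g3 g4]
  · simp only [cr, Prod.fst_sub, Prod.snd_sub]

/-- the first circumscribed quadrilateral -/
theorem upper (h : Nrm K α β) (ha : -1 < α) (ha' : α < 1) (hb : -1 < β) (hb' : β < 1)
    {r1 r2 r3 r4 : P} (hm : Max4 K α β r1 r2 r3 r4) (hB : Bad K) {d1 d2 d3 d4 x y : ℝ}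
    (e1 : dt (u1 α β) r1 = d1) (e2 : dt (u2 α β) r2 = d2) (e3 : dt (u3 α β) r3 = d3)
    (e4 : dt (u4 α β) r4 = d4)
    (hx : (1 - β ^ 2) * x = ((1 + β) * ((1 + α) * d1 - (1 - α) * d2) -
      (1 - β) * ((1 + α) * d4 - (1 - α) * d3)) / 2)
    (hy : (1 - α ^ 2) * y = ((1 + β) * ((1 + α) * d1 - (1 - α) * d2) -
      (1 - β) * ((1 + α) * d4 - (1 - α) * d3)) / 2) :
    Real.sqrt 2 * ar K ≤ (((d1 + d2 + d3 + d4) / 2) ^ 2 - x * y) / 2 := by
  obtain ⟨ab1, ab2⟩ := aux2 ha ha' hb hb'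
  have l1 := hm.l1
  have l2 := hm.l2
  have l3 := hm.l3
  have l4 := hm.l4
  have s1 := l1 _ h.p1
  have s2 := l2 _ h.p2
  have s3 := l3 _ h.p3
  have s4 := l4 _ h.p1
  have b1 := h.box _ hm.m1
  have b4 := h.box _ hm.m4
  have t12 := l1 _ hm.m2
  have t14 := l1 _ hm.m4
  have t21 := l2 _ hm.m1
  have t23 := l2 _ hm.m3
  have t32 := l3 _ hm.m2
  have t34 := l3 _ hm.m4
  have t41 := l4 _ hm.m1
  have t43 := l4 _ hm.m3
  have pa : 0 < 1 - α := by linarith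
  have pa' : 0 < 1 + α := by linarith
  have pb : 0 < 1 - β := by linarith
  have pb' : 0 < 1 + β := by linarith
  rw [e1] at l1 s1 t12 t14
  rw [e2] at l2 s2 t21 t23
  rw [e3] at l3 s3 t32 t34
  rw [e4] at l4 s4 t41 t43
  simp only [dt, u1, u2, u3, u4] at e1 e2 e3 e4 s1 s2 s3 s4 t12 t14 t21 t23 t32 t34 t41 t43
  -- coordinates of vertices
  obtain ⟨x12, hx12⟩ : ∃ x12 : ℝ, (1 - β) * x12 = d1 - (1 - α) * ((d1 + d2) / 2) :=
    ⟨(d1 - (1 - α) * ((d1 + d2) / 2)) / (1 - β), by field_simp⟩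
  obtain ⟨y41, hy41⟩ : ∃ y41 : ℝ, (1 - α) * y41 = d1 - (1 - β) * ((d1 + d4) / 2) :=
    ⟨(d1 - (1 - β) * ((d1 + d4) / 2)) / (1 - α), by field_simp⟩
  obtain ⟨y23, hy23⟩ : ∃ y23 : ℝ, (1 + α) * y23 = d2 - (1 - β) * ((d2 + d3) / 2) :=
    ⟨(d2 - (1 - β) * ((d2 + d3) / 2)) / (1 + α), by field_simp⟩
  obtain ⟨x34, hx34⟩ : ∃ x34 : ℝ, (1 + β) * x34 = d4 - (1 - α) * ((d3 + d4) / 2) :=
    ⟨(d4 - (1 - α) * ((d3 + d4) / 2)) / (1 + β), by field_simp⟩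
  have hxe : x = x12 - x34 := by
    have : (1 - β ^ 2) * (x - (x12 - x34)) = 0 := by
      linear_combination hx - (1 + β) * hx12 + (1 - β) * hx34
    have hne : (1 - β ^ 2) ≠ 0 := (by have := mul_pos pb pb'; linarith : 0 < 1 - β ^ 2).ne'
    have := (mul_eq_zero.1 this).resolve_left hne
    linarith
  have hye : y = y41 - y23 := by
    have : (1 - α ^ 2) * (y - (y41 - y23)) = 0 := by
      linear_combination hy - (1 + α) * hy41 + (1 - α) * hy23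
    have hne : (1 - α ^ 2) ≠ 0 := (by have := mul_pos pa pa'; linarith : 0 < 1 - α ^ 2).ne'
    have := (mul_eq_zero.1 this).resolve_left hne
    linarith
  -- box order
  have c1 : r1.2 ≤ (d1 + d2) / 2 := by linarith
  have c1' : x12 ≤ r1.1 := aux3 pb (by linarith [mul_le_mul_of_nonneg_left c1 pa.le])
  have c2 : r1.1 ≤ (d1 + d4) / 2 := by linarith
  have c2' : y41 ≤ r1.2 := aux3 pa (by linarith [mul_le_mul_of_nonneg_left c2 pb.le])
  have c3 : r2.2 ≤ (d1 + d2) / 2 := by linarith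
  have c3' : r2.1 ≤ x12 := aux3 pb (by linarith [mul_le_mul_of_nonneg_left c3 pa'.le])
  have c4 : -((d2 + d3) / 2) ≤ r2.1 := by linarith
  have c4' : y23 ≤ r2.2 := aux3 pa' (by linarith [mul_le_mul_of_nonneg_left c4 pb.le])
  have c5 : -((d2 + d3) / 2) ≤ r3.1 := by linarith
  have c5' : r3.2 ≤ y23 := aux3 pa' (by linarith [mul_le_mul_of_nonneg_left c5 pb'.le])
  have c6 : -((d3 + d4) / 2) ≤ r3.2 := by linarith
  have c6' : r3.1 ≤ x34 := aux3 pb' (by linarith [mul_le_mul_of_nonneg_left c6 pa'.le])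
  have c7 : -((d3 + d4) / 2) ≤ r4.2 := by linarith
  have c7' : x34 ≤ r4.1 := aux3 pb' (by linarith [mul_le_mul_of_nonneg_left c7 pa.le])
  have c8 : r4.1 ≤ (d1 + d4) / 2 := by linarith
  have c8' : r4.2 ≤ y41 := aux3 pa (by linarith [mul_le_mul_of_nonneg_left c8 pb'.le])
  -- strictness
  have v1 : d1 ≤ 2 - α - β := by
    linarith [mul_le_mul_of_nonneg_left b1.2.1 pb.le, mul_le_mul_of_nonneg_left b1.2.2.2 pa.le]
  have v4 : d4 ≤ 2 - α - -β := by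
    linarith [mul_le_mul_of_nonneg_left b4.2.1 pb'.le, mul_le_mul_of_nonneg_left b4.2.2.1 pa.le]
  have f1 : x12 < (d1 + d4) / 2 := by
    have q6 := aux1 pa pb (by linarith : 1 + α * β ≤ d2) (by linarith : 1 + α * β ≤ d4) v1
      (by linarith) ab2
    have : (1 - β) * x12 < (1 - β) * ((d1 + d4) / 2) := by rw [hx12]; linarith
    exact lt_of_mul_lt_mul_left this pb.le
  have f2 : x34 < (d1 + d4) / 2 := by
    have q6 := aux1 (α := α) (β := -β) pa (by linarith) (by linarith : 1 + α * -β ≤ d3)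
      (by linarith : 1 + α * -β ≤ d1) v4 (by linarith) (by linarith)
    have : (1 + β) * x34 < (1 + β) * ((d1 + d4) / 2) := by rw [hx34]; linarith
    exact lt_of_mul_lt_mul_left this pb'.le
  have f3 : y41 < (d1 + d2) / 2 := by
    have : (1 - α) * y41 < (1 - α) * ((d1 + d2) / 2) := by
      linarith [mul_lt_mul_of_pos_left f1 pb]
    exact lt_of_mul_lt_mul_left this pa.le
  -- containment
  have hsub : K ⊆ convexHull ℝ {((-((d2 + d3) / 2) : ℝ), y23), (x34, (-((d3 + d4) / 2) : ℝ)),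
      (((d1 + d4) / 2 : ℝ), y41), (x12, ((d1 + d2) / 2 : ℝ))} := by
    intro z hz
    refine mem_hull_of_le (u1 := u1 α β) (u2 := u2 α β) (u3 := u3 α β) (u4 := u4 α β)
      one_pos one_pos one_pos one_pos ?_ ?_ ?_ ?_ ?_ ?_ ?_ ?_ ?_ ?_ ?_ ?_ ?_
    · ext
      · simp [u1, u2, u3, u4]
      · simp [u1, u2, u3, u4]; ring
    · have : cr (u1 α β) (u2 α β) = 2 * (1 - β) := by simp only [cr, u1, u2]; ring
      rw [this]; linarith
    · have : cr (u2 α β) (u3 α β) = 2 * (1 + α) := by simp only [cr, u2, u3]; ring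
      rw [this]; linarith
    · have : cr (u3 α β) (u4 α β) = 2 * (1 + β) := by simp only [cr, u3, u4]; ring
      rw [this]; linarith
    · have : cr (u4 α β) (u1 α β) = 2 * (1 - α) := by simp only [cr, u4, u1]; ring
      rw [this]; linarith
    · simp only [dt, u1]; linarith
    · simp only [dt, u2]; linarith
    · simp only [dt, u3]; linarith
    · simp only [dt, u4]; linarith
    · refine (l1 z hz).trans (le_of_eq ?_); simp only [dt, u1]; linarith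
    · refine (l2 z hz).trans (le_of_eq ?_); simp only [dt, u2]; linarith
    · refine (l3 z hz).trans (le_of_eq ?_); simp only [dt, u3]; linarith
    · refine (l4 z hz).trans (le_of_eq ?_); simp only [dt, u4]; linarith
  have h5 := hB _ _ _ _ hsub
  refine (h5.trans (aux4 (by linarith) (by linarith) (by linarith) (by linarith) (by linarith)
    (by linarith) (by linarith) (by linarith))).trans (le_of_eq ?_)
  rw [hxe, hye]; ring

theorem upper' (h : Nrm K α β) (ha : -1 < α) (ha' : α < 1) (hb : -1 < β) (hb' : β < 1)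
    {r1 r2 r3 r4 : P} (hm : Max4 K α β r1 r2 r3 r4) (hB : Bad K) :
    Real.sqrt 2 * ar K ≤ ((dt (u1 α β) r1 + dt (u2 α β) r2 + dt (u3 α β) r3 +
      dt (u4 α β) r4) / 2) ^ 2 / 2 := by
  set D := ((1 + β) * ((1 + α) * dt (u1 α β) r1 - (1 - α) * dt (u2 α β) r2) -
      (1 - β) * ((1 + α) * dt (u4 α β) r4 - (1 - α) * dt (u3 α β) r3)) / 2 with hD
  have p1 : 0 < 1 - α ^ 2 := by nlinarith
  have p2 : 0 < 1 - β ^ 2 := by nlinarith
  have := upper h ha ha' hb hb' hm hB (x := D / (1 - β ^ 2)) (y := D / (1 - α ^ 2)) rfl rfl rfl rfl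
    (by rw [← hD]; field_simp) (by rw [← hD]; field_simp)
  refine this.trans ?_
  have : 0 ≤ D / (1 - β ^ 2) * (D / (1 - α ^ 2)) := by
    rw [div_mul_div_comm]
    have := mul_self_nonneg D
    positivity
  linarith

theorem ar_ge (h : Nrm K α β) (ha : -1 < α) (ha' : α < 1) (hb : -1 < β) (hb' : β < 1)
    (hB : Bad K) (hpos : 0 < ar K) : 2 * Real.sqrt 2 ≤ ar K := by
  obtain ⟨r1, r2, r3, r4, hm⟩ := exists_max4 h.comp ⟨_, h.p1⟩ α β
  have h1 := lower_sum h ha ha' hb hb' hm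
  have h2 := upper' h ha ha' hb hb' hm hB
  set σ := (dt (u1 α β) r1 + dt (u2 α β) r2 + dt (u3 α β) r3 + dt (u4 α β) r4) / 2
  have h3 : Real.sqrt 2 * Real.sqrt 2 = 2 := Real.mul_self_sqrt (by norm_num)
  have h4 : 0 < Real.sqrt 2 := Real.sqrt_pos.2 (by norm_num)
  by_contra hc
  push Not at hc
  have h5 : σ < 2 * Real.sqrt 2 := lt_of_le_of_lt h1 hc
  rcases le_or_gt σ 0 with hs | hs
  · -- σ ≤ 0 impossible
    have q1 := hm.l1 _ h.p1
    have q2 := hm.l2 _ h.p2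
    have q3 := hm.l3 _ h.p3
    have q4 := hm.l4 _ h.p1
    have q5 : 2 ≤ σ := by
      simp only [σ]
      have w1 : dt (u1 α β) ((1 : ℝ), β) = 1 - α * β := by simp only [dt, u1]; ring
      have w2 : dt (u2 α β) (α, (1 : ℝ)) = 1 + α * β := by simp only [dt, u2]; ring
      have w3 : dt (u3 α β) ((-1 : ℝ), β) = 1 - α * β := by simp only [dt, u3]; ring
      have w4 : dt (u4 α β) ((1 : ℝ), β) = 1 + α * β := by simp only [dt, u4]; ring
      linarith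
    linarith
  · have h6 : Real.sqrt 2 * σ ≤ σ ^ 2 / 2 := (mul_le_mul_of_nonneg_left h1 h4.le).trans h2
    have h7 : σ ^ 2 / 2 < Real.sqrt 2 * σ := by nlinarith
    linarith

end Q190.KQ
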