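import Pool.Agent.Q190.KQ3

set_option autoImplicit false

/-!
Equality analysis in the centrally normalised position.
-/

namespace Q190.KQ

open Pool.Agent.Helper484.Crit MeasureTheory Set
open scoped ENNReal

theorem interior_nonempty_of_ar_pos {M : Set P} (hM : Convex ℝ M) (h : 0 < ar M) :
    (interior M).Nonempty := by
  by_contra hc
  rw [not_nonempty_iff_eq_empty] at hc
  have h1 : volume M ≤ volume (frontier M) := by
    apply measure_mono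
    intro x hx
    rw [frontier, hc, sdiff_empty]
    exact subset_closure hx
  rw [hM.addHaar_frontier volume] at h1
  have h2 : volume M = 0 := le_antisymm h1 bot_le
  rw [ar, h2] at h
  simp at h

theorem subset_of_ar_le {L M : Set P} (hL : IsClosed L) (hM : Convex ℝ M) (hf : volume M ≠ ∞)
    (hLM : L ⊆ M) (hpos : 0 < ar M) (h : ar M ≤ ar L) : M ⊆ L := by
  intro x hx
  by_contra hxL
  have hint := interior_nonempty_of_ar_pos hM hpos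
  have hcl : x ∈ closure (interior M) := by
    rw [hM.closure_interior_eq_closure_of_nonempty_interior hint]
    exact subset_closure hx
  rw [mem_closure_iff] at hcl
  have hne := hcl Lᶜ hL.isOpen_compl hxL
  have hop : IsOpen (Lᶜ ∩ interior M) := hL.isOpen_compl.inter isOpen_interior
  have hpos2 : 0 < volume (Lᶜ ∩ interior M) := hop.measure_pos volume hne
  have h1 := measure_inter_add_sdiff (μ := volume) M hL.measurableSet
  have h2 : M ∩ L = L := inter_eq_self_of_subset_right hLM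
  rw [h2] at h1
  have h3 : volume (Lᶜ ∩ interior M) ≤ volume (M \ L) := by
    apply measure_mono
    rintro y ⟨hy1, hy2⟩
    exact ⟨interior_subset hy2, hy1⟩
  have h4 : volume L ≠ ∞ := ne_top_of_le_ne_top hf (measure_mono hLM)
  have h5 : volume (M \ L) ≠ ∞ := ne_top_of_le_ne_top hf (measure_mono sdiff_subset)
  have h6 : (volume L).toReal + (volume (M \ L)).toReal = (volume M).toReal := by
    rw [← ENNReal.toReal_add h4 h5, h1]
  have h7 : 0 < (volume (M \ L)).toReal :=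
    ENNReal.toReal_pos (lt_of_lt_of_le hpos2 h3).ne' h5
  simp only [ar] at h
  linarith

theorem hull4_closed (a b c d : P) : IsClosed (convexHull ℝ ({a, b, c, d} : Set P)) :=
  (Set.Finite.isCompact_convexHull ℝ (s := ({a, b, c, d} : Set P)) (by simp)).isClosed

theorem hull4_sub {M : Set P} (hM : Convex ℝ M) {a b c d : P} (ha : a ∈ M) (hb : b ∈ M)
    (hc : c ∈ M) (hd : d ∈ M) : convexHull ℝ ({a, b, c, d} : Set P) ⊆ M := by
  refine convexHull_min ?_ hM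
  rintro x hx
  simp only [mem_insert_iff, mem_singleton_iff] at hx
  rcases hx with rfl | rfl | rfl | rfl <;> assumption

theorem hull4_affine_le {a b c d : P} {A B C : ℝ} (ha : A * a.1 + B * a.2 + C ≤ 0)
    (hb : A * b.1 + B * b.2 + C ≤ 0) (hc : A * c.1 + B * c.2 + C ≤ 0)
    (hd : A * d.1 + B * d.2 + C ≤ 0) {x : P} (hx : x ∈ convexHull ℝ ({a, b, c, d} : Set P)) :
    A * x.1 + B * x.2 + C ≤ 0 := by
  obtain ⟨p, q, r, s, hp, hq, hr, hs, h1, rfl⟩ := mem_hull4.1 hx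
  simp only [Prod.fst_add, Prod.snd_add, Prod.smul_fst, Prod.smul_snd, smul_eq_mul]
  have e : A * (p * a.1 + q * b.1 + r * c.1 + s * d.1) + B * (p * a.2 + q * b.2 + r * c.2 +
      s * d.2) + C = p * (A * a.1 + B * a.2 + C) + q * (A * b.1 + B * b.2 + C) +
      r * (A * c.1 + B * c.2 + C) + s * (A * d.1 + B * d.2 + C) := by
    have : C = (p + q + r + s) * C := by rw [h1, one_mul]
    linear_combination this
  rw [e]
  have := mul_nonpos_of_nonneg_of_nonpos hp ha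
  have := mul_nonpos_of_nonneg_of_nonpos hq hb
  have := mul_nonpos_of_nonneg_of_nonpos hr hc
  have := mul_nonpos_of_nonneg_of_nonpos hs hd
  linarith

/-- Equality of areas determines `K`: affine inequalities need only be checked at nine points. -/
theorem eq_case {K : Set P} (h : Nrm K 0 0) {r1 r2 r3 r4 : P} (hm : Max4 K 0 0 r1 r2 r3 r4)
    (hs : ar K ≤ (dt (u1 0 0) r1 + dt (u2 0 0) r2 + dt (u3 0 0) r3 + dt (u4 0 0) r4) / 2)
    {A B C : ℝ} (h0 : C ≤ 0) (hp1 : A + C ≤ 0) (hp2 : B + C ≤ 0) (hp3 : -A + C ≤ 0)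
    (hp4 : -B + C ≤ 0) (q1 : A * r1.1 + B * r1.2 + C ≤ 0) (q2 : A * r2.1 + B * r2.2 + C ≤ 0)
    (q3 : A * r3.1 + B * r3.2 + C ≤ 0) (q4 : A * r4.1 + B * r4.2 + C ≤ 0) :
    ∀ x ∈ K, A * x.1 + B * x.2 + C ≤ 0 := by
  obtain ⟨k1, k2, k3, k4⟩ := lower4 h (by norm_num) (by norm_num) (by norm_num) (by norm_num) hm
  have k5 := quad_sum (h.comp.measure_lt_top.ne) 0 0
  have hf : volume K ≠ ∞ := h.comp.measure_lt_top.ne
  have z1 : dt (u1 0 0) ((0 : ℝ), (0 : ℝ)) = 0 := by simp [dt]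
  have z2 : dt (u2 0 0) ((0 : ℝ), (0 : ℝ)) = 0 := by simp [dt]
  have z3 : dt (u3 0 0) ((0 : ℝ), (0 : ℝ)) = 0 := by simp [dt]
  have z4 : dt (u4 0 0) ((0 : ℝ), (0 : ℝ)) = 0 := by simp [dt]
  rw [z1] at k1
  rw [z2] at k2
  rw [z3] at k3
  rw [z4] at k4
  have t1 := hm.l1 _ h.p1
  have t2 := hm.l2 _ h.p2
  have t3 := hm.l3 _ h.p3
  have t4 := hm.l4 _ h.p1
  have w1 : dt (u1 0 0) ((1 : ℝ), (0 : ℝ)) = 1 := by simp [dt, u1]
  have w2 : dt (u2 0 0) ((0 : ℝ), (1 : ℝ)) = 1 := by simp [dt, u2]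
  have w3 : dt (u3 0 0) ((-1 : ℝ), (0 : ℝ)) = 1 := by simp [dt, u3]
  have w4 : dt (u4 0 0) ((1 : ℝ), (0 : ℝ)) = 1 := by simp [dt, u4]
  rw [w1] at t1
  rw [w2] at t2
  rw [w3] at t3
  rw [w4] at t4
  have ho := h.o_mem
  have n1 := r1_mem h (by norm_num) (by norm_num) hm
  have n2 := r2_mem h (by norm_num) (by norm_num) hm
  have n3 := r3_mem h (by norm_num) (by norm_num) hm
  have n4 := r4_mem h (by norm_num) (by norm_num) hm
  have fin4 : ∀ a b c d : P, volume (convexHull ℝ ({a, b, c, d} : Set P)) ≠ ∞ := fun a b c d =>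
    (vol_fin_lt (by simp)).ne
  have s1 : M1 K 0 0 ⊆ convexHull ℝ {((0 : ℝ), (0 : ℝ)), ((1 : ℝ), (0 : ℝ)), r1,
      ((0 : ℝ), (1 : ℝ))} := by
    refine subset_of_ar_le (hull4_closed _ _ _ _) (convM1 h.conv)
      (ne_top_of_le_ne_top hf (measure_mono (fun x hx => hx.1.1))) ?_ (by linarith) ?_
    · exact hull4_sub (convM1 h.conv) ⟨⟨ho, le_refl (0 : ℝ)⟩, le_refl (0 : ℝ)⟩
        ⟨⟨h.p1, zero_le_one (α := ℝ)⟩, le_refl (0 : ℝ)⟩
        ⟨⟨hm.m1, n1.1⟩, n1.2⟩ ⟨⟨h.p2, le_refl (0 : ℝ)⟩, zero_le_one (α := ℝ)⟩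
    · have := h1_ge (α := 0) (β := 0) (convex_convexHull ℝ {((0 : ℝ), (0 : ℝ)),
        ((1 : ℝ), (0 : ℝ)), r1, ((0 : ℝ), (1 : ℝ))}) (fin4 _ _ _ _) (r := r1)
        (subset_convexHull ℝ _ (by simp)) (subset_convexHull ℝ _ (by simp))
        (subset_convexHull ℝ _ (by simp)) (subset_convexHull ℝ _ (by simp)) (by norm_num)
        (by norm_num) n1.1 n1.2
      rw [z1] at this
      linarith
  have s2 : M2 K 0 0 ⊆ convexHull ℝ {((0 : ℝ), (0 : ℝ)), ((0 : ℝ), (1 : ℝ)), r2,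
      ((-1 : ℝ), (0 : ℝ))} := by
    refine subset_of_ar_le (hull4_closed _ _ _ _) (convM2 h.conv)
      (ne_top_of_le_ne_top hf (measure_mono (fun x hx => hx.1.1))) ?_ (by linarith) ?_
    · exact hull4_sub (convM2 h.conv) ⟨⟨ho, le_refl (0 : ℝ)⟩, le_refl (0 : ℝ)⟩
        ⟨⟨h.p2, le_refl (0 : ℝ)⟩, zero_le_one (α := ℝ)⟩
        ⟨⟨hm.m2, n2.1⟩, n2.2⟩ ⟨⟨h.p3, (by norm_num : (-1 : ℝ) ≤ 0)⟩, le_refl (0 : ℝ)⟩
    · have := h2_ge (α := 0) (β := 0) (convex_convexHull ℝ {((0 : ℝ), (0 : ℝ)),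
        ((0 : ℝ), (1 : ℝ)), r2, ((-1 : ℝ), (0 : ℝ))}) (fin4 _ _ _ _) (r := r2)
        (subset_convexHull ℝ _ (by simp)) (subset_convexHull ℝ _ (by simp))
        (subset_convexHull ℝ _ (by simp)) (subset_convexHull ℝ _ (by simp)) (by norm_num)
        (by norm_num) n2.1 n2.2
      rw [z2] at this
      linarith
  have s3 : M3 K 0 0 ⊆ convexHull ℝ {((0 : ℝ), (0 : ℝ)), ((-1 : ℝ), (0 : ℝ)), r3,
      ((0 : ℝ), (-1 : ℝ))} := by
    refine subset_of_ar_le (hull4_closed _ _ _ _) (convM3 h.conv)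
      (ne_top_of_le_ne_top hf (measure_mono (fun x hx => hx.1.1))) ?_ (by linarith) ?_
    · exact hull4_sub (convM3 h.conv) ⟨⟨ho, le_refl (0 : ℝ)⟩, le_refl (0 : ℝ)⟩
        ⟨⟨h.p3, (by norm_num : (-1 : ℝ) ≤ 0)⟩, le_refl (0 : ℝ)⟩
        ⟨⟨hm.m3, n3.1⟩, n3.2⟩ ⟨⟨h.p4, le_refl (0 : ℝ)⟩, (by norm_num : (-1 : ℝ) ≤ 0)⟩
    · have := h3_ge (α := 0) (β := 0) (convex_convexHull ℝ {((0 : ℝ), (0 : ℝ)),
        ((-1 : ℝ), (0 : ℝ)), r3, ((0 : ℝ), (-1 : ℝ))}) (fin4 _ _ _ _) (r := r3)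
        (subset_convexHull ℝ _ (by simp)) (subset_convexHull ℝ _ (by simp))
        (subset_convexHull ℝ _ (by simp)) (subset_convexHull ℝ _ (by simp)) (by norm_num)
        (by norm_num) n3.1 n3.2
      rw [z3] at this
      linarith
  have s4 : M4 K 0 0 ⊆ convexHull ℝ {((0 : ℝ), (0 : ℝ)), ((0 : ℝ), (-1 : ℝ)), r4,
      ((1 : ℝ), (0 : ℝ))} := by
    refine subset_of_ar_le (hull4_closed _ _ _ _) (convM4 h.conv)
      (ne_top_of_le_ne_top hf (measure_mono (fun x hx => hx.1.1))) ?_ (by linarith) ?_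
    · exact hull4_sub (convM4 h.conv) ⟨⟨ho, le_refl (0 : ℝ)⟩, le_refl (0 : ℝ)⟩
        ⟨⟨h.p4, le_refl (0 : ℝ)⟩, (by norm_num : (-1 : ℝ) ≤ 0)⟩
        ⟨⟨hm.m4, n4.1⟩, n4.2⟩ ⟨⟨h.p1, zero_le_one (α := ℝ)⟩, le_refl (0 : ℝ)⟩
    · have := h4_ge (α := 0) (β := 0) (convex_convexHull ℝ {((0 : ℝ), (0 : ℝ)),
        ((0 : ℝ), (-1 : ℝ)), r4, ((1 : ℝ), (0 : ℝ))}) (fin4 _ _ _ _) (r := r4)
        (subset_convexHull ℝ _ (by simp)) (subset_convexHull ℝ _ (by simp))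
        (subset_convexHull ℝ _ (by simp)) (subset_convexHull ℝ _ (by simp)) (by norm_num)
        (by norm_num) n4.1 n4.2
      rw [z4] at this
      linarith
  have g0 : A * ((0 : ℝ), (0 : ℝ)).1 + B * ((0 : ℝ), (0 : ℝ)).2 + C ≤ 0 := by simpa using h0
  have g1 : A * ((1 : ℝ), (0 : ℝ)).1 + B * ((1 : ℝ), (0 : ℝ)).2 + C ≤ 0 := by simpa using hp1
  have g2 : A * ((0 : ℝ), (1 : ℝ)).1 + B * ((0 : ℝ), (1 : ℝ)).2 + C ≤ 0 := by simpa using hp2
  have g3 : A * ((-1 : ℝ), (0 : ℝ)).1 + B * ((-1 : ℝ), (0 : ℝ)).2 + C ≤ 0 := by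
    simpa using hp3
  have g4 : A * ((0 : ℝ), (-1 : ℝ)).1 + B * ((0 : ℝ), (-1 : ℝ)).2 + C ≤ 0 := by
    simpa using hp4
  intro x hx
  rcases le_total 0 x.1 with hx1 | hx1
  · rcases le_total 0 x.2 with hx2 | hx2
    · exact hull4_affine_le g0 g1 q1 g2 (s1 ⟨⟨hx, hx1⟩, hx2⟩)
    · exact hull4_affine_le g0 g4 q4 g1 (s4 ⟨⟨hx, hx1⟩, hx2⟩)
  · rcases le_total 0 x.2 with hx2 | hx2
    · exact hull4_affine_le g0 g2 q2 g3 (s2 ⟨⟨hx, hx1⟩, hx2⟩)
    · exact hull4_affine_le g0 g3 q3 g4 (s3 ⟨⟨hx, hx1⟩, hx2⟩)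

/-- the final quadrilateral -/
theorem fin_quad {K : Set P} (hbox : ∀ x ∈ K, -1 ≤ x.1 ∧ x.1 ≤ 1 ∧ -1 ≤ x.2 ∧ x.2 ≤ 1)
    (hq : ∀ a b c d : P, K ⊆ convexHull ℝ {a, b, c, d} → 4 ≤ ar (convexHull ℝ {a, b, c, d}))
    (h1 : ∀ x ∈ K, x.1 + x.2 / 4 ≤ 1) (h2 : ∀ x ∈ K, x.2 - x.1 / 4 ≤ 1) : False := by
  have hsub : K ⊆ convexHull ℝ {((-1 : ℝ), (-1 : ℝ)), ((5 / 4 : ℝ), (-1 : ℝ)),
      ((12 / 17 : ℝ), (20 / 17 : ℝ)), ((-1 : ℝ), (3 / 4 : ℝ))} := by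
    intro x hx
    obtain ⟨b1, b2, b3, b4⟩ := hbox x hx
    have b5 := h1 x hx
    have b6 := h2 x hx
    refine mem_hull_of_le (u1 := (-1 / 4, 1)) (u2 := (-1, 0)) (u3 := (0, -1)) (u4 := (1, 1 / 4))
      (w1 := 1) (w2 := 3 / 4) (w3 := 5 / 4) (w4 := 1)
      (by norm_num) (by norm_num) (by norm_num) (by norm_num) ?_
      (by norm_num [cr]) (by norm_num [cr]) (by norm_num [cr]) (by norm_num [cr])
      (by norm_num [dt]) (by norm_num [dt]) (by norm_num [dt]) (by norm_num [dt])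
      (by simp only [dt]; linarith) (by simp only [dt]; linarith) (by simp only [dt]; linarith)
      (by simp only [dt]; linarith)
    ext
    · simp; norm_num
    · simp; norm_num
  have h1 := hq _ _ _ _ hsub
  have h2 := ar_hull4_le (a := ((-1 : ℝ), (-1 : ℝ))) (b := ((5 / 4 : ℝ), (-1 : ℝ)))
    (c := ((12 / 17 : ℝ), (20 / 17 : ℝ))) (d := ((-1 : ℝ), (3 / 4 : ℝ)))
    (by norm_num [cr]) (by norm_num [cr]) (by norm_num [cr]) (by norm_num [cr])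
    (by norm_num [cr])
  have h3 : cr (((12 / 17 : ℝ), (20 / 17 : ℝ)) - ((-1 : ℝ), (-1 : ℝ)))
    (((-1 : ℝ), (3 / 4 : ℝ)) - ((5 / 4 : ℝ), (-1 : ℝ))) / 2 < 4 := by norm_num [cr]
  linarith

/-- the square -/
theorem box_le {K : Set P} (hbox : ∀ x ∈ K, -1 ≤ x.1 ∧ x.1 ≤ 1 ∧ -1 ≤ x.2 ∧ x.2 ≤ 1)
    (hB : Bad K) : Real.sqrt 2 * ar K ≤ 4 := by
  have hsub : K ⊆ convexHull ℝ {((-1 : ℝ), (-1 : ℝ)), ((1 : ℝ), (-1 : ℝ)),
      ((1 : ℝ), (1 : ℝ)), ((-1 : ℝ), (1 : ℝ))} := by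
    intro x hx
    obtain ⟨b1, b2, b3, b4⟩ := hbox x hx
    refine mem_hull_of_le (u1 := (0, 1)) (u2 := (-1, 0)) (u3 := (0, -1)) (u4 := (1, 0))
      (w1 := 1) (w2 := 1) (w3 := 1) (w4 := 1)
      (by norm_num) (by norm_num) (by norm_num) (by norm_num) ?_
      (by norm_num [cr]) (by norm_num [cr]) (by norm_num [cr]) (by norm_num [cr])
      (by norm_num [dt]) (by norm_num [dt]) (by norm_num [dt]) (by norm_num [dt])
      (by simp only [dt]; linarith) (by simp only [dt]; linarith) (by simp only [dt]; linarith)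
      (by simp only [dt]; linarith)
    ext
    · simp
    · simp
  have h1 := hB _ _ _ _ hsub
  have h2 := ar_hull4_le (a := ((-1 : ℝ), (-1 : ℝ))) (b := ((1 : ℝ), (-1 : ℝ)))
    (c := ((1 : ℝ), (1 : ℝ))) (d := ((-1 : ℝ), (1 : ℝ)))
    (by norm_num [cr]) (by norm_num [cr]) (by norm_num [cr]) (by norm_num [cr])
    (by norm_num [cr])
  have h3 : cr (((1 : ℝ), (1 : ℝ)) - ((-1 : ℝ), (-1 : ℝ)))
    (((-1 : ℝ), (1 : ℝ)) - ((1 : ℝ), (-1 : ℝ))) / 2 = 4 := by norm_num [cr]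
  linarith

end Q190.KQ
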