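import Pool.Agent.Q190.KQ4

set_option autoImplicit false

/-!
No convex body is bad.
-/

namespace Q190.KQ

open Pool.Agent.Helper484.Crit MeasureTheory Set
open scoped ENNReal

theorem box_ge {K : Set P} (hbox : ∀ x ∈ K, -1 ≤ x.1 ∧ x.1 ≤ 1 ∧ -1 ≤ x.2 ∧ x.2 ≤ 1)
    (hB : Bad K) : ar K ≤ 2 * Real.sqrt 2 := by
  have h1 := box_le hbox hB
  have h3 : Real.sqrt 2 * Real.sqrt 2 = 2 := Real.mul_self_sqrt (by norm_num)
  have h4 : 0 < Real.sqrt 2 := Real.sqrt_pos.2 (by norm_num)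
  nlinarith

/-- final contradiction in the central position -/
theorem no_zero {K : Set P} (h : Nrm K 0 0) (hB : Bad K) (hpos : 0 < ar K) : False := by
  have hge := ar_ge h (by norm_num) (by norm_num) (by norm_num) (by norm_num) hB hpos
  have hle := box_ge h.box hB
  have hK : ar K = 2 * Real.sqrt 2 := le_antisymm hle hge
  obtain ⟨s, hs⟩ : ∃ s : ℝ, s = Real.sqrt 2 := ⟨_, rfl⟩
  have hss : s * s = 2 := by rw [hs]; exact Real.mul_self_sqrt (by norm_num)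
  have hs0 : 0 < s := by rw [hs]; exact Real.sqrt_pos.2 (by norm_num)
  rw [← hs] at hK
  obtain ⟨r1, r2, r3, r4, hm⟩ := exists_max4 h.comp ⟨_, h.p1⟩ 0 0
  have hlow := lower_sum h (by norm_num) (by norm_num) (by norm_num) (by norm_num) hm
  obtain ⟨d1, e1⟩ : ∃ d1 : ℝ, dt (u1 0 0) r1 = d1 := ⟨_, rfl⟩
  obtain ⟨d2, e2⟩ : ∃ d1 : ℝ, dt (u2 0 0) r2 = d1 := ⟨_, rfl⟩
  obtain ⟨d3, e3⟩ : ∃ d1 : ℝ, dt (u3 0 0) r3 = d1 := ⟨_, rfl⟩
  obtain ⟨d4, e4⟩ : ∃ d1 : ℝ, dt (u4 0 0) r4 = d1 := ⟨_, rfl⟩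
  have hup := upper h (by norm_num) (by norm_num) (by norm_num) (by norm_num) hm hB e1 e2 e3 e4
    (x := ((d1 - d2) - (d4 - d3)) / 2) (y := ((d1 - d2) - (d4 - d3)) / 2) (by ring) (by ring)
  rw [← hs, hK] at hup
  rw [e1, e2, e3, e4, hK] at hlow
  have l1 := hm.l1
  have l2 := hm.l2
  have l3 := hm.l3
  have l4 := hm.l4
  rw [e1] at l1
  rw [e2] at l2
  rw [e3] at l3
  rw [e4] at l4
  have t1 := l1 _ h.p1
  have t2 := l2 _ h.p2
  have t3 := l3 _ h.p3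
  have t4 := l4 _ h.p1
  have w1 : dt (u1 0 0) ((1 : ℝ), (0 : ℝ)) = 1 := by simp [dt, u1]
  have w2 : dt (u2 0 0) ((0 : ℝ), (1 : ℝ)) = 1 := by simp [dt, u2]
  have w3 : dt (u3 0 0) ((-1 : ℝ), (0 : ℝ)) = 1 := by simp [dt, u3]
  have w4 : dt (u4 0 0) ((1 : ℝ), (0 : ℝ)) = 1 := by simp [dt, u4]
  rw [w1] at t1
  rw [w2] at t2
  rw [w3] at t3
  rw [w4] at t4
  have hσ : (d1 + d2 + d3 + d4) / 2 = 2 * s ∧ (d1 - d2) - (d4 - d3) = 0 := by
    set σ := (d1 + d2 + d3 + d4) / 2 with hσ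
    set X := ((d1 - d2) - (d4 - d3)) / 2 with hX
    have q1 : s * (2 * s) = 4 := by linarith
    have q2 : 0 ≤ σ := by rw [hσ]; linarith
    have q3 : σ ^ 2 ≤ 8 := by nlinarith
    have q4 : X * X ≤ 0 := by nlinarith
    have q5 : X = 0 := mul_self_eq_zero.1 (le_antisymm q4 (mul_self_nonneg X))
    have q6 : 8 ≤ σ ^ 2 := by rw [q5] at hup; linarith
    refine ⟨le_antisymm hlow ?_, by rw [hX] at q5; linarith⟩
    nlinarith
  have hd13 : d1 + d3 = 2 * s := by linarith [hσ.1, hσ.2]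
  have hd24 : d2 + d4 = 2 * s := by linarith [hσ.1, hσ.2]
  -- functional forms
  have b1 : ∀ x ∈ K, x.1 + x.2 ≤ d1 := fun x hx => by
    have := l1 x hx; simp only [dt, u1] at this; linarith
  have b2 : ∀ x ∈ K, -x.1 + x.2 ≤ d2 := fun x hx => by
    have := l2 x hx; simp only [dt, u2] at this; linarith
  have b3 : ∀ x ∈ K, -x.1 - x.2 ≤ d3 := fun x hx => by
    have := l3 x hx; simp only [dt, u3] at this; linarith
  have b4 : ∀ x ∈ K, x.1 - x.2 ≤ d4 := fun x hx => by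
    have := l4 x hx; simp only [dt, u4] at this; linarith
  obtain ⟨c1, hc1⟩ : ∃ c1 : ℝ, c1 = (d1 - d3) / 2 := ⟨_, rfl⟩
  obtain ⟨c2, hc2⟩ : ∃ c2 : ℝ, c2 = (d2 - d4) / 2 := ⟨_, rfl⟩
  have hd1 : d1 = c1 + s := by linarith
  have hd3 : d3 = -c1 + s := by linarith
  have hd2 : d2 = c2 + s := by linarith
  have hd4 : d4 = -c2 + s := by linarith
  -- S and T in the box
  have bS : ∀ x ∈ K, -1 ≤ s / 2 * (x.1 + x.2 - c1) ∧ s / 2 * (x.1 + x.2 - c1) ≤ 1 := by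
    intro x hx
    have k1 := b1 x hx
    have k3 := b3 x hx
    constructor <;> nlinarith
  have bT : ∀ x ∈ K, -1 ≤ s / 2 * (-x.1 + x.2 - c2) ∧ s / 2 * (-x.1 + x.2 - c2) ≤ 1 := by
    intro x hx
    have k1 := b2 x hx
    have k3 := b4 x hx
    constructor <;> nlinarith
  -- the image and its midpoints
  have image : ∀ e1 e2 : ℝ, (e1 = 1 ∨ e1 = -1) → (e2 = 1 ∨ e2 = -1) →
      ∃ m1 m2 n1 n2 f1 f2 : ℝ, (m1 * n2 - m2 * n1 ≠ 0) ∧ |m1 * n2 - m2 * n1| = 1 ∧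
      (∀ x : P, aff m1 m2 n1 n2 f1 f2 x =
        (e1 * (s / 2 * (x.1 + x.2 - c1)), e2 * (s / 2 * (-x.1 + x.2 - c2)))) := by
    intro e1 e2 he1 he2
    refine ⟨e1 * (s / 2), e1 * (s / 2), -(e2 * (s / 2)), e2 * (s / 2), -(e1 * (s / 2 * c1)),
      -(e2 * (s / 2 * c2)), ?_, ?_, ?_⟩
    · have : e1 * (s / 2) * (e2 * (s / 2)) - e1 * (s / 2) * -(e2 * (s / 2)) =
        e1 * e2 * (s * s) / 2 := by ring
      rw [this, hss]
      rcases he1 with rfl | rfl <;> rcases he2 with rfl | rfl <;> norm_num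
    · have : e1 * (s / 2) * (e2 * (s / 2)) - e1 * (s / 2) * -(e2 * (s / 2)) =
        e1 * e2 * (s * s) / 2 := by ring
      rw [this, hss]
      rcases he1 with rfl | rfl <;> rcases he2 with rfl | rfl <;> norm_num
    · intro x
      rw [aff_apply]
      ext
      · simp only; ring
      · simp only; ring
  have hAr : 2 * Real.sqrt 2 ≤ ar K := hge
  obtain ⟨m1, hm1, m2, hm2, m3, hm3, m4, hm4, g1, g2, g3, g4⟩ :
      ∃ m1 ∈ K, ∃ m2 ∈ K, ∃ m3 ∈ K, ∃ m4 ∈ K,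
      (m1.1 + m1.2 = d1 ∧ -m1.1 + m1.2 = c2) ∧ (m2.1 + m2.2 = c1 ∧ -m2.1 + m2.2 = d2) ∧
      (-m3.1 - m3.2 = d3 ∧ -m3.1 + m3.2 = c2) ∧ (m4.1 + m4.2 = c1 ∧ m4.1 - m4.2 = d4) := by
    obtain ⟨a1, a2, a3, a4, f1, f2, hne, habs, hφ⟩ := image 1 1 (Or.inl rfl) (Or.inl rfl)
    have k := mid_all (h.comp.image (continuous_aff a1 a2 a3 a4 f1 f2))
      (h.conv.affine_image (aff a1 a2 a3 a4 f1 f2)) (by
        rintro _ ⟨x, hx, rfl⟩
        rw [hφ]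
        simp only [one_mul]
        exact ⟨(bS x hx).1, (bS x hx).2, (bT x hx).1, (bT x hx).2⟩) (hB.image f1 f2 hne)
      (by rw [ar_aff, habs, one_mul]; exact hAr)
    obtain ⟨⟨m1, hm1, k1⟩, ⟨m2, hm2, k2⟩, ⟨m3, hm3, k3⟩, ⟨m4, hm4, k4⟩⟩ := k
    rw [hφ] at k1 k2 k3 k4
    simp only [one_mul, Prod.mk.injEq] at k1 k2 k3 k4
    have key : ∀ z v : ℝ, s / 2 * z = v → z = v * s := by
      intro z v hz
      have : s * (s / 2 * z) = s * v := by rw [hz]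
      have e : s * (s / 2 * z) = (s * s) / 2 * z := by ring
      rw [e, hss] at this
      linarith
    have k1' := key _ _ k1.1
    have k1'' := key _ _ k1.2
    have k2' := key _ _ k2.1
    have k2'' := key _ _ k2.2
    have k3' := key _ _ k3.1
    have k3'' := key _ _ k3.2
    have k4' := key _ _ k4.1
    have k4'' := key _ _ k4.2
    exact ⟨m1, hm1, m2, hm2, m3, hm3, m4, hm4, ⟨by linarith, by linarith⟩,
      ⟨by linarith, by linarith⟩, ⟨by linarith, by linarith⟩, ⟨by linarith, by linarith⟩⟩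
  have hmm : Max4 K 0 0 m1 m2 m3 m4 := by
    have E1 : dt (u1 0 0) m1 = d1 := by simp only [dt, u1]; linarith [g1.1]
    have E2 : dt (u2 0 0) m2 = d2 := by simp only [dt, u2]; linarith [g2.2]
    have E3 : dt (u3 0 0) m3 = d3 := by simp only [dt, u3]; linarith [g3.1]
    have E4 : dt (u4 0 0) m4 = d4 := by simp only [dt, u4]; linarith [g4.2]
    exact ⟨hm1, hm2, hm3, hm4, fun x hx => (l1 x hx).trans E1.ge,
      fun x hx => (l2 x hx).trans E2.ge, fun x hx => (l3 x hx).trans E3.ge,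
      fun x hx => (l4 x hx).trans E4.ge⟩
  have hsum : ar K ≤ (dt (u1 0 0) m1 + dt (u2 0 0) m2 + dt (u3 0 0) m3 +
      dt (u4 0 0) m4) / 2 := by
    rw [hK]
    simp only [dt, u1, u2, u3, u4]
    linarith [g1.1, g2.2, g3.1, g4.2, hσ.1]
  -- choice of signs
  obtain ⟨ε1, he1, he1'⟩ : ∃ ε : ℝ, (ε = 1 ∨ ε = -1) ∧ 0 ≤ ε * c1 := by
    rcases le_total 0 c1 with h | h
    · exact ⟨1, Or.inl rfl, by linarith⟩
    · exact ⟨-1, Or.inr rfl, by linarith⟩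
  obtain ⟨ε2, he2, he2'⟩ : ∃ ε : ℝ, (ε = 1 ∨ ε = -1) ∧ 0 ≤ ε * c2 := by
    rcases le_total 0 c2 with h | h
    · exact ⟨1, Or.inl rfl, by linarith⟩
    · exact ⟨-1, Or.inr rfl, by linarith⟩
  have hs34 : s / 2 ≤ 3 / 4 := by nlinarith
  have absle : ∀ ε v : ℝ, (ε = 1 ∨ ε = -1) → -1 ≤ v → v ≤ 1 → ε * v ≤ 1 ∧ -1 ≤ ε * v := by
    intro ε v hε h1 h2
    rcases hε with rfl | rfl
    · constructor <;> linarith
    · constructor <;> linarith
  have smallS : ∀ x : P, -1 ≤ x.1 + x.2 → x.1 + x.2 ≤ 1 →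
      ε1 * (s / 2 * (x.1 + x.2 - c1)) ≤ 3 / 4 := by
    intro x h1 h2
    have := (absle ε1 _ he1 h1 h2).1
    have e : ε1 * (s / 2 * (x.1 + x.2 - c1)) = s / 2 * (ε1 * (x.1 + x.2)) - s / 2 * (ε1 * c1) := by
      ring
    rw [e]
    have h3 : s / 2 * (ε1 * (x.1 + x.2)) ≤ s / 2 * 1 := by gcongr
    have h4 : 0 ≤ s / 2 * (ε1 * c1) := by positivity
    linarith
  have smallT : ∀ x : P, -1 ≤ -x.1 + x.2 → -x.1 + x.2 ≤ 1 →
      ε2 * (s / 2 * (-x.1 + x.2 - c2)) ≤ 3 / 4 := by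
    intro x h1 h2
    have := (absle ε2 _ he2 h1 h2).1
    have e : ε2 * (s / 2 * (-x.1 + x.2 - c2)) =
      s / 2 * (ε2 * (-x.1 + x.2)) - s / 2 * (ε2 * c2) := by
      ring
    rw [e]
    have h3 : s / 2 * (ε2 * (-x.1 + x.2)) ≤ s / 2 * 1 := by gcongr
    have h4 : 0 ≤ s / 2 * (ε2 * c2) := by positivity
    linarith
  have SB : ∀ x ∈ K, ε1 * (s / 2 * (x.1 + x.2 - c1)) ≤ 1 ∧
      -1 ≤ ε1 * (s / 2 * (x.1 + x.2 - c1)) := fun x hx =>
    absle ε1 _ he1 (bS x hx).1 (bS x hx).2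
  have TB : ∀ x ∈ K, ε2 * (s / 2 * (-x.1 + x.2 - c2)) ≤ 1 ∧
      -1 ≤ ε2 * (s / 2 * (-x.1 + x.2 - c2)) := fun x hx =>
    absle ε2 _ he2 (bT x hx).1 (bT x hx).2
  have ho := h.o_mem
  -- the two inequalities
  have I1 : ∀ x ∈ K, ε1 * (s / 2 * (x.1 + x.2 - c1)) +
      ε2 * (s / 2 * (-x.1 + x.2 - c2)) / 4 ≤ 1 := by
    intro x hx
    have lin1 : ∀ z : P, (s / 2 * (ε1 - ε2 / 4)) * z.1 + (s / 2 * (ε1 + ε2 / 4)) * z.2 +
        (-(s / 2 * (ε1 * c1 + ε2 * c2 / 4)) - 1) = ε1 * (s / 2 * (z.1 + z.2 - c1)) +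
      ε2 * (s / 2 * (-z.1 + z.2 - c2)) / 4 - 1 := by intro z; ring
    have good : ∀ z ∈ K, -1 ≤ z.1 + z.2 → z.1 + z.2 ≤ 1 →
        (s / 2 * (ε1 - ε2 / 4)) * z.1 + (s / 2 * (ε1 + ε2 / 4)) * z.2 +
        (-(s / 2 * (ε1 * c1 + ε2 * c2 / 4)) - 1) ≤ 0 := by
      intro z hz h1 h2
      rw [lin1]
      have := smallS z h1 h2
      have := TB z hz
      linarith
    have special : ∀ z ∈ K, ε2 * (s / 2 * (-z.1 + z.2 - c2)) ≤ 0 ∨
        ε1 * (s / 2 * (z.1 + z.2 - c1)) ≤ 3 / 4 →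
        (s / 2 * (ε1 - ε2 / 4)) * z.1 + (s / 2 * (ε1 + ε2 / 4)) * z.2 +
        (-(s / 2 * (ε1 * c1 + ε2 * c2 / 4)) - 1) ≤ 0 := by
      intro z hz h1
      rw [lin1]
      have := SB z hz
      have := TB z hz
      rcases h1 with h1 | h1 <;> linarith
    have := eq_case h hmm hsum (A := s / 2 * (ε1 - ε2 / 4)) (B := s / 2 * (ε1 + ε2 / 4))
      (C := -(s / 2 * (ε1 * c1 + ε2 * c2 / 4)) - 1)
      (by simpa using good _ ho (by norm_num) (by norm_num))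
      (by simpa using good _ h.p1 (by norm_num) (by norm_num))
      (by simpa using good _ h.p2 (by norm_num) (by norm_num))
      (by simpa using good _ h.p3 (by norm_num) (by norm_num))
      (by simpa using good _ h.p4 (by norm_num) (by norm_num))
      (special m1 hm1 (Or.inl (by rw [g1.2]; simp)))
      (special m2 hm2 (Or.inr (by rw [g2.1]; simp; norm_num)))
      (special m3 hm3 (Or.inl (by rw [g3.2]; simp)))
      (special m4 hm4 (Or.inr (by rw [g4.1]; simp; norm_num))) x hx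
    rw [lin1] at this
    linarith
  have I2 : ∀ x ∈ K, ε2 * (s / 2 * (-x.1 + x.2 - c2)) -
      ε1 * (s / 2 * (x.1 + x.2 - c1)) / 4 ≤ 1 := by
    intro x hx
    have lin1 : ∀ z : P, (s / 2 * (-ε2 - ε1 / 4)) * z.1 + (s / 2 * (ε2 - ε1 / 4)) * z.2 +
        (-(s / 2 * (ε2 * c2 - ε1 * c1 / 4)) - 1) = ε2 * (s / 2 * (-z.1 + z.2 - c2)) -
      ε1 * (s / 2 * (z.1 + z.2 - c1)) / 4 - 1 := by intro z; ring
    have good : ∀ z ∈ K, -1 ≤ -z.1 + z.2 → -z.1 + z.2 ≤ 1 →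
        (s / 2 * (-ε2 - ε1 / 4)) * z.1 + (s / 2 * (ε2 - ε1 / 4)) * z.2 +
        (-(s / 2 * (ε2 * c2 - ε1 * c1 / 4)) - 1) ≤ 0 := by
      intro z hz h1 h2
      rw [lin1]
      have := smallT z h1 h2
      have := SB z hz
      linarith
    have special : ∀ z ∈ K, 0 ≤ ε1 * (s / 2 * (z.1 + z.2 - c1)) ∨
        ε2 * (s / 2 * (-z.1 + z.2 - c2)) ≤ 3 / 4 →
        (s / 2 * (-ε2 - ε1 / 4)) * z.1 + (s / 2 * (ε2 - ε1 / 4)) * z.2 +
        (-(s / 2 * (ε2 * c2 - ε1 * c1 / 4)) - 1) ≤ 0 := by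
      intro z hz h1
      rw [lin1]
      have := SB z hz
      have := TB z hz
      rcases h1 with h1 | h1 <;> linarith
    have := eq_case h hmm hsum (A := s / 2 * (-ε2 - ε1 / 4)) (B := s / 2 * (ε2 - ε1 / 4))
      (C := -(s / 2 * (ε2 * c2 - ε1 * c1 / 4)) - 1)
      (by simpa using good _ ho (by norm_num) (by norm_num))
      (by simpa using good _ h.p1 (by norm_num) (by norm_num))
      (by simpa using good _ h.p2 (by norm_num) (by norm_num))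
      (by simpa using good _ h.p3 (by norm_num) (by norm_num))
      (by simpa using good _ h.p4 (by norm_num) (by norm_num))
      (special m1 hm1 (Or.inr (by rw [g1.2]; simp; norm_num)))
      (special m2 hm2 (Or.inl (by rw [g2.1]; simp)))
      (special m3 hm3 (Or.inr (by rw [g3.2]; simp; norm_num)))
      (special m4 hm4 (Or.inl (by rw [g4.1]; simp))) x hx
    rw [lin1] at this
    linarith
  obtain ⟨a1, a2, a3, a4, f1, f2, hne, habs, hφ⟩ := image ε1 ε2 he1 he2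
  refine fin_quad (K := aff a1 a2 a3 a4 f1 f2 '' K) ?_ ((hB.image f1 f2 hne).four
    (by rw [ar_aff, habs, one_mul]; exact hAr)) ?_ ?_
  · rintro _ ⟨x, hx, rfl⟩
    rw [hφ]
    exact ⟨(SB x hx).2, (SB x hx).1, (TB x hx).2, (TB x hx).1⟩
  · rintro _ ⟨x, hx, rfl⟩
    rw [hφ]
    exact I1 x hx
  · rintro _ ⟨x, hx, rfl⟩
    rw [hφ]
    exact I2 x hx

/-- the degenerate position -/
theorem no_tri {K : Set P} (hK : Convex ℝ K) (hf : volume K ≠ ∞)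
    (hbox : ∀ x ∈ K, -1 ≤ x.1 ∧ x.1 ≤ 1 ∧ -1 ≤ x.2 ∧ x.2 ≤ 1)
    (hM : ∀ a ∈ K, ∀ b ∈ K, ∀ c ∈ K, ∀ d ∈ K, cr (c - a) (d - b) ≤ 4) {β : ℝ}
    (p1 : ((1 : ℝ), (1 : ℝ)) ∈ K) (p2 : ((1 : ℝ), (-1 : ℝ)) ∈ K) (p3 : ((-1 : ℝ), β) ∈ K)
    (hB : Bad K) (hpos : 0 < ar K) : False := by
  have hsub : K ⊆ convexHull ℝ {((-1 : ℝ), β), ((1 : ℝ), (-1 : ℝ)), ((1 : ℝ), (1 : ℝ)),
      ((1 : ℝ), (1 : ℝ))} := by
    intro x hx
    obtain ⟨b1, b2, b3, b4⟩ := hbox x hx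
    have h1 := hM _ p3 _ p2 _ p1 _ hx
    have h2 := hM _ p3 _ hx _ p2 _ p1
    simp only [cr, Prod.fst_sub, Prod.snd_sub] at h1 h2
    rw [mem_hull4]
    refine ⟨(1 - x.1) / 2, ((1 + x.1) / 2 - (x.2 - (1 - x.1) / 2 * β)) / 2,
      ((1 + x.1) / 2 + (x.2 - (1 - x.1) / 2 * β)) / 2, 0, by linarith, by linarith, by linarith,
      le_rfl, by ring, ?_⟩
    ext
    · simp; ring
    · simp; ring
  have h1 := hB _ _ _ _ hsub
  have h2 := ar_mono (hull4_sub hK p3 p2 p1 p1) hf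
  have h4 : 1 < Real.sqrt 2 := by
    rw [Real.lt_sqrt] <;> norm_num
  nlinarith

theorem Mx_image {K : Set P} (hM : ∀ a ∈ K, ∀ b ∈ K, ∀ c ∈ K, ∀ d ∈ K, cr (c - a) (d - b) ≤ 4)
    {m1 m2 n1 n2 : ℝ} (e1 e2 : ℝ) (h : |m1 * n2 - m2 * n1| = 1) :
    ∀ a ∈ aff m1 m2 n1 n2 e1 e2 '' K, ∀ b ∈ aff m1 m2 n1 n2 e1 e2 '' K,
      ∀ c ∈ aff m1 m2 n1 n2 e1 e2 '' K, ∀ d ∈ aff m1 m2 n1 n2 e1 e2 '' K,
      cr (c - a) (d - b) ≤ 4 := by
  rintro _ ⟨a, ha, rfl⟩ _ ⟨b, hb, rfl⟩ _ ⟨c, hc, rfl⟩ _ ⟨d, hd, rfl⟩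
  rw [cr_aff]
  rcases (abs_eq (by norm_num : (0 : ℝ) ≤ 1)).1 h with h | h
  · rw [h, one_mul]; exact hM a ha b hb c hc d hd
  · rw [h]
    have := hM c hc b hb a ha d hd
    have e : cr (a - c) (d - b) = - cr (c - a) (d - b) := by
      simp only [cr, Prod.fst_sub, Prod.snd_sub]; ring
    linarith

/-- no convex body in normalised position is bad -/
theorem no_nrm {K : Set P} {α β : ℝ} (h : Nrm K α β)
    (hM : ∀ a ∈ K, ∀ b ∈ K, ∀ c ∈ K, ∀ d ∈ K, cr (c - a) (d - b) ≤ 4)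
    (hB : Bad K) (hpos : 0 < ar K) : False := by
  have hf : volume K ≠ ∞ := h.comp.measure_lt_top.ne
  obtain ⟨a1, a2, b1, b2⟩ := h.abs
  -- reduction of a boundary position to `no_tri`
  have red : ∀ m1 m2 n1 n2 : ℝ, |m1 * n2 - m2 * n1| = 1 →
      (∀ x ∈ K, -1 ≤ m1 * x.1 + m2 * x.2 ∧ m1 * x.1 + m2 * x.2 ≤ 1 ∧
        -1 ≤ n1 * x.1 + n2 * x.2 ∧ n1 * x.1 + n2 * x.2 ≤ 1) →
      (∃ x ∈ K, m1 * x.1 + m2 * x.2 = 1 ∧ n1 * x.1 + n2 * x.2 = 1) →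
      (∃ x ∈ K, m1 * x.1 + m2 * x.2 = 1 ∧ n1 * x.1 + n2 * x.2 = -1) →
      (∃ x ∈ K, m1 * x.1 + m2 * x.2 = -1) → False := by
    intro m1 m2 n1 n2 hdet hb ⟨x, hx, hx1, hx2⟩ ⟨y, hy, hy1, hy2⟩ ⟨z, hz, hz1⟩
    have hne : m1 * n2 - m2 * n1 ≠ 0 := by
      intro h; rw [h] at hdet; norm_num at hdet
    refine no_tri (K := aff m1 m2 n1 n2 0 0 '' K) (β := n1 * z.1 + n2 * z.2)
      (h.conv.affine_image _) (h.comp.image (continuous_aff _ _ _ _ _ _)).measure_lt_top.ne ?_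
      (Mx_image hM 0 0 hdet) ⟨x, hx, ?_⟩ ⟨y, hy, ?_⟩ ⟨z, hz, ?_⟩ (hB.image 0 0 hne) ?_
    · rintro _ ⟨x, hx, rfl⟩
      have := hb x hx
      simpa [aff_apply] using this
    · rw [aff_apply]; ext
      · simpa using hx1
      · simpa using hx2
    · rw [aff_apply]; ext
      · simpa using hy1
      · simpa using hy2
    · rw [aff_apply]; ext
      · simpa using hz1
      · simp
    · rw [ar_aff, hdet, one_mul]; exact hpos
  rcases eq_or_lt_of_le a2 with ha | ha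
  · refine red 1 0 0 1 (by norm_num) (fun x hx => by simpa using h.box x hx) ⟨_, h.p2, ?_, ?_⟩
      ⟨_, h.p4, ?_, ?_⟩ ⟨_, h.p3, ?_⟩ <;> simp [ha]
  rcases eq_or_lt_of_le a1 with ha' | ha'
  · refine red (-1) 0 0 1 (by norm_num) (fun x hx => ?_) ⟨_, h.p2, ?_, ?_⟩
      ⟨_, h.p4, ?_, ?_⟩ ⟨_, h.p1, ?_⟩
    · obtain ⟨c1, c2, c3, c4⟩ := h.box x hx
      refine ⟨by linarith, by linarith, by linarith, by linarith⟩
    all_goals simp [← ha']
  rcases eq_or_lt_of_le b2 with hb | hb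
  · refine red 0 1 1 0 (by norm_num) (fun x hx => ?_) ⟨_, h.p1, ?_, ?_⟩
      ⟨_, h.p3, ?_, ?_⟩ ⟨_, h.p4, ?_⟩
    · obtain ⟨c1, c2, c3, c4⟩ := h.box x hx
      refine ⟨by linarith, by linarith, by linarith, by linarith⟩
    all_goals simp [hb]
  rcases eq_or_lt_of_le b1 with hb' | hb'
  · refine red 0 (-1) 1 0 (by norm_num) (fun x hx => ?_) ⟨_, h.p1, ?_, ?_⟩
      ⟨_, h.p3, ?_, ?_⟩ ⟨_, h.p2, ?_⟩
    · obtain ⟨c1, c2, c3, c4⟩ := h.box x hx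
      refine ⟨by linarith, by linarith, by linarith, by linarith⟩
    all_goals simp [← hb']
  have hge := ar_ge h ha' ha hb' hb hB hpos
  obtain ⟨m1, m2, m3, m4⟩ := mid_all h.comp h.conv h.box hB hge
  exact no_zero ⟨h.comp, h.conv, h.box, m1, m2, m3, m4⟩ hB hpos

/-- normalisation by an affine map -/
theorem exists_nrm {K : Set P} (hc : IsCompact K) (hK : Convex ℝ K) (hpos : 0 < ar K) :
    ∃ m1 m2 n1 n2 e1 e2 α β : ℝ, m1 * n2 - m2 * n1 ≠ 0 ∧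
      Nrm (aff m1 m2 n1 n2 e1 e2 '' K) α β ∧
      ∀ a ∈ aff m1 m2 n1 n2 e1 e2 '' K, ∀ b ∈ aff m1 m2 n1 n2 e1 e2 '' K,
      ∀ c ∈ aff m1 m2 n1 n2 e1 e2 '' K, ∀ d ∈ aff m1 m2 n1 n2 e1 e2 '' K,
      cr (c - a) (d - b) ≤ 4 := by
  obtain ⟨x0, hx0⟩ := interior_nonempty_of_ar_pos hK hpos
  have hx0K := interior_subset hx0
  have hcomp : IsCompact (K ×ˢ K ×ˢ K ×ˢ K) := hc.prod (hc.prod (hc.prod hc))
  obtain ⟨⟨a, b, c, d⟩, ⟨ha, hb, hcK, hd⟩, hmax⟩ := hcomp.exists_isMaxOn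
    ⟨(x0, x0, x0, x0), hx0K, hx0K, hx0K, hx0K⟩
    (f := fun p : P × P × P × P => cr (p.2.2.1 - p.1) (p.2.2.2 - p.2.1))
    (by unfold cr; fun_prop)
  have hmx : ∀ a' ∈ K, ∀ b' ∈ K, ∀ c' ∈ K, ∀ d' ∈ K,
      cr (c' - a') (d' - b') ≤ cr (c - a) (d - b) := fun a' ha' b' hb' c' hc' d' hd' =>
    hmax (show (a', b', c', d') ∈ K ×ˢ K ×ˢ K ×ˢ K from ⟨ha', hb', hc', hd'⟩)
  simp only at ha hb hcK hd
  have hMpos : 0 < cr (c - a) (d - b) := by
    rw [mem_interior_iff_mem_nhds, Metric.mem_nhds_iff] at hx0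
    obtain ⟨ε, hε, hball⟩ := hx0
    have h1 : x0 + (ε / 2, 0) ∈ K := by
      apply hball
      rw [Metric.mem_ball, dist_eq_norm, add_sub_cancel_left, Prod.norm_def]
      simp only [norm_zero, Real.norm_eq_abs]
      rw [abs_of_pos (by linarith), max_eq_left (by linarith)]
      linarith
    have h2 : x0 + (0, ε / 2) ∈ K := by
      apply hball
      rw [Metric.mem_ball, dist_eq_norm, add_sub_cancel_left, Prod.norm_def]
      simp only [norm_zero, Real.norm_eq_abs]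
      rw [abs_of_pos (by linarith), max_eq_right (by linarith)]
      linarith
    have h3 := hmx _ hx0K _ hx0K _ h1 _ h2
    rw [add_sub_cancel_left, add_sub_cancel_left] at h3
    refine lt_of_lt_of_le ?_ h3
    simp only [cr]
    nlinarith
  set M := cr (c - a) (d - b) with hMdef
  have hM0 : M ≠ 0 := hMpos.ne'
  set m1 := 2 * (d - b).2 / M with hm1
  set m2 := -(2 * (d - b).1 / M) with hm2
  set e1 := -(2 * cr a (d - b) / M) - 1 with he1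
  set n1 := -(2 * (c - a).2 / M) with hn1
  set n2 := 2 * (c - a).1 / M with hn2
  set e2 := -(2 * cr (c - a) b / M) - 1 with he2
  have hφ : ∀ x : P, aff m1 m2 n1 n2 e1 e2 x =
      (2 * cr (x - a) (d - b) / M - 1, 2 * cr (c - a) (x - b) / M - 1) := by
    intro x
    rw [aff_apply]
    ext
    · simp only [hm1, hm2, he1, cr, Prod.fst_sub, Prod.snd_sub]; ring
    · simp only [hn1, hn2, he2, cr, Prod.fst_sub, Prod.snd_sub]; ring
  have hdet : m1 * n2 - m2 * n1 = 4 / M := by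
    have : m1 * n2 - m2 * n1 = 4 * cr (c - a) (d - b) / (M * M) := by
      simp only [hm1, hm2, hn1, hn2, cr]; ring
    rw [this, ← hMdef]; field_simp
  have hbM : ∀ v : ℝ, 0 ≤ v → v ≤ M → -1 ≤ 2 * v / M - 1 ∧ 2 * v / M - 1 ≤ 1 := by
    intro v h1 h2
    have h3 : 0 ≤ 2 * v / M := by positivity
    have h4 : 2 * v / M ≤ 2 := by rw [div_le_iff₀ hMpos]; linarith
    constructor <;> linarith
  refine ⟨m1, m2, n1, n2, e1, e2, 2 * cr (b - a) (d - b) / M - 1,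
    2 * cr (c - a) (a - b) / M - 1, ?_, ⟨?_, ?_, ?_, ?_, ?_, ?_, ?_⟩, ?_⟩
  · rw [hdet]; positivity
  · exact hc.image (continuous_aff _ _ _ _ _ _)
  · exact hK.affine_image _
  · rintro _ ⟨x, hx, rfl⟩
    rw [hφ]
    have k1 := hmx a ha b hb x hx d hd
    have k2 := hmx x hx b hb c hcK d hd
    have k3 := hmx a ha b hb c hcK x hx
    have k4 := hmx a ha x hx c hcK d hd
    have E1 : cr (c - x) (d - b) = M - cr (x - a) (d - b) := by
      rw [hMdef]; simp only [cr, Prod.fst_sub, Prod.snd_sub]; ring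
    have E2 : cr (c - a) (d - x) = M - cr (c - a) (x - b) := by
      rw [hMdef]; simp only [cr, Prod.fst_sub, Prod.snd_sub]; ring
    obtain ⟨r1, r2⟩ := hbM (cr (x - a) (d - b)) (by linarith) k1
    obtain ⟨r3, r4⟩ := hbM (cr (c - a) (x - b)) (by linarith) k3
    exact ⟨r1, r2, r3, r4⟩
  · refine ⟨c, hcK, ?_⟩
    rw [hφ]
    ext
    · simp only; rw [← hMdef]; field_simp; norm_num
    · simp only
      congr 3
      simp only [cr, Prod.fst_sub, Prod.snd_sub]; ring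
  · refine ⟨d, hd, ?_⟩
    rw [hφ]
    ext
    · simp only
      congr 3
      simp only [cr, Prod.fst_sub, Prod.snd_sub]; ring
    · simp only; rw [← hMdef]; field_simp; norm_num
  · refine ⟨a, ha, ?_⟩
    rw [hφ]
    ext
    · simp [cr]
    · simp only
  · refine ⟨b, hb, ?_⟩
    rw [hφ]
    ext
    · simp only
    · simp [cr]
  · rintro _ ⟨a', ha', rfl⟩ _ ⟨b', hb', rfl⟩ _ ⟨c', hc', rfl⟩ _ ⟨d', hd', rfl⟩
    rw [cr_aff, hdet]
    have := hmx a' ha' b' hb' c' hc' d' hd'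
    rw [div_mul_eq_mul_div, div_le_iff₀ hMpos]
    linarith

/-- **No plane convex body is bad.** -/
theorem not_bad {K : Set P} (hc : IsCompact K) (hK : Convex ℝ K) (hpos : 0 < ar K) : ¬ Bad K := by
  intro hB
  obtain ⟨m1, m2, n1, n2, e1, e2, α, β, hne, hN, hM⟩ := exists_nrm hc hK hpos
  refine no_nrm hN hM (hB.image e1 e2 hne) ?_
  rw [ar_aff]
  have := abs_pos.2 hne
  positivity

end Q190.KQ
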