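import Pool.Agent.Q190.KQ5

set_option autoImplicit false

/-!
Compactness: the supremum is smaller than `√2`.
-/

namespace Q190.KQ

open Pool.Agent.Helper484.Crit MeasureTheory Set Filter Topology Metric
open scoped ENNReal

/-- every circumscribed quadrilateral has area at least `t` times the area of `K` -/
def QB (K : Set P) (t : ℝ) : Prop :=
  ∀ a b c d : P, K ⊆ convexHull ℝ {a, b, c, d} → t * ar K ≤ ar (convexHull ℝ {a, b, c, d})

theorem QB.image {K : Set P} {t : ℝ} (hK : QB K t) {m1 m2 n1 n2 : ℝ} (e1 e2 : ℝ)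
    (h : m1 * n2 - m2 * n1 ≠ 0) : QB (aff m1 m2 n1 n2 e1 e2 '' K) t := by
  intro a b c d hsub
  obtain ⟨a, rfl⟩ := aff_surj e1 e2 h a
  obtain ⟨b, rfl⟩ := aff_surj e1 e2 h b
  obtain ⟨c, rfl⟩ := aff_surj e1 e2 h c
  obtain ⟨d, rfl⟩ := aff_surj e1 e2 h d
  rw [← image_hull4] at hsub ⊢
  rw [image_subset_image_iff (aff_inj e1 e2 h)] at hsub
  have h2 := hK a b c d hsub
  rw [ar_aff, ar_aff]
  have h3 := mul_le_mul_of_nonneg_left h2 (abs_nonneg (m1 * n2 - m2 * n1))
  linarith

theorem haus_fin {A B : Set P} (hA : A.Nonempty) (hB : B.Nonempty) (hA' : IsCompact A)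
    (hB' : IsCompact B) : hausdorffEDist A B ≠ ⊤ :=
  hausdorffEDist_ne_top_of_nonempty_of_bounded hA hB hA'.isBounded hB'.isBounded

open TopologicalSpace in
/-- Blaschke selection. -/
theorem blaschke (K : ℕ → Set P) (R : ℝ) (hcl : ∀ n, IsCompact (K n))
    (hne : ∀ n, (K n).Nonempty) (hc : ∀ n, Convex ℝ (K n)) (hR : ∀ n, K n ⊆ closedBall 0 R) :
    ∃ L : Set P, IsCompact L ∧ L.Nonempty ∧ Convex ℝ L ∧ L ⊆ closedBall 0 R ∧
      ∃ φ : ℕ → ℕ, StrictMono φ ∧
        Tendsto (fun k => hausdorffDist (K (φ k)) L) atTop (𝓝 0) := by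
  let X := closedBall (0 : P) R
  have hX : CompactSpace X := isCompact_iff_compactSpace.mp (isCompact_closedBall 0 R)
  let k : ℕ → NonemptyCompacts X := fun n =>
    ⟨⟨Subtype.val ⁻¹' K n, ((hcl n).isClosed.preimage continuous_subtype_val).isCompact⟩, by
      obtain ⟨x, hx⟩ := hne n
      exact ⟨⟨x, hR n hx⟩, hx⟩⟩
  obtain ⟨k', φ, hφ, hlim⟩ := CompactSpace.tendsto_subseq k
  have himg : ∀ n, Subtype.val '' ((k n : NonemptyCompacts X) : Set X) = K n := by
    intro n
    show Subtype.val '' (Subtype.val ⁻¹' K n) = K n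
    rw [Subtype.image_preimage_coe]
    exact inter_eq_right.2 (hR n)
  have hcK' : IsCompact (Subtype.val '' (k' : Set X)) := k'.isCompact.image continuous_subtype_val
  have hneK' : (Subtype.val '' (k' : Set X)).Nonempty := k'.nonempty.image _
  have hd : Tendsto (fun n => hausdorffDist (K (φ n)) (Subtype.val '' (k' : Set X))) atTop
      (𝓝 0) := by
    have h1 := tendsto_iff_dist_tendsto_zero.1 hlim
    refine h1.congr fun n => ?_
    show hausdorffDist ((k (φ n) : NonemptyCompacts X) : Set X) (k' : Set X) = _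
    rw [← himg (φ n), hausdorffDist_image isometry_subtype_coe]
  refine ⟨Subtype.val '' (k' : Set X), hcK', hneK', ?_, ?_, φ, hφ, hd⟩
  · intro x hx y hy a b ha hb hab
    rw [← hcK'.isClosed.closure_eq, Metric.mem_closure_iff]
    intro ε hε
    obtain ⟨n, hn⟩ := (hd.eventually_lt_const (show (0:ℝ) < ε / 2 by linarith)).exists
    have hf := haus_fin (hne (φ n)) hneK' (hcl (φ n)) hcK'
    obtain ⟨x', hx', hxx⟩ := exists_dist_lt_of_hausdorffDist_lt' hx hn hf
    obtain ⟨y', hy', hyy⟩ := exists_dist_lt_of_hausdorffDist_lt' hy hn hf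
    obtain ⟨w, hw, hww⟩ := exists_dist_lt_of_hausdorffDist_lt (hc _ hx' hy' ha hb hab) hn hf
    refine ⟨w, hw, ?_⟩
    have h1 : dist (a • x + b • y) (a • x' + b • y') ≤ ε / 2 := by
      rw [dist_eq_norm]
      have e : a • x + b • y - (a • x' + b • y') = a • (x - x') + b • (y - y') := by
        rw [smul_sub, smul_sub]; abel
      rw [e]
      refine (norm_add_le _ _).trans ?_
      rw [norm_smul, norm_smul, Real.norm_of_nonneg ha, Real.norm_of_nonneg hb, ← dist_eq_norm,
        ← dist_eq_norm, dist_comm x, dist_comm y]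
      nlinarith
    have := dist_triangle (a • x + b • y) (a • x' + b • y') w
    linarith
  · rintro _ ⟨x, -, rfl⟩
    exact x.2

/-- `A` within distance `δ` of the convex set `B ⊇ B_r` lies in `(1 + δ / r) B`. -/
theorem subset_dilate {A B : Set P} (hB : Convex ℝ B) {r δ : ℝ} (hr : 0 < r) (hδ : 0 < δ)
    (hball : closedBall 0 r ⊆ B) (h : ∀ x ∈ A, ∃ y ∈ B, dist x y ≤ δ) :
    A ⊆ aff (1 + δ / r) 0 0 (1 + δ / r) 0 0 '' B := by
  intro x hx
  obtain ⟨y, hy, hxy⟩ := h x hx
  have hw : (r / δ) • (x - y) ∈ B := by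
    apply hball
    rw [mem_closedBall_zero_iff, norm_smul, Real.norm_of_nonneg (by positivity), ← dist_eq_norm]
    calc r / δ * dist x y ≤ r / δ * δ := by gcongr
      _ = r := by field_simp
  have hq : 0 < 1 + δ / r := by positivity
  have hmem := hB hy hw (a := 1 / (1 + δ / r)) (b := (δ / r) / (1 + δ / r)) (by positivity)
    (by positivity) (by field_simp)
  refine ⟨_, hmem, ?_⟩
  rw [aff_apply]
  ext
  · simp only [Prod.fst_add, Prod.smul_fst, smul_eq_mul, Prod.fst_sub]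
    field_simp; ring
  · simp only [Prod.snd_add, Prod.smul_snd, smul_eq_mul, Prod.snd_sub]
    field_simp; ring

/-- For bodies between two fixed balls the constants are uniform. -/
theorem uniform_ball (r R : ℝ) (hr : 0 < r) : ∃ t : ℝ, t < Real.sqrt 2 ∧ ∀ K : Set P,
    IsCompact K → Convex ℝ K → closedBall 0 r ⊆ K → K ⊆ closedBall 0 R → ¬ QB K t := by
  by_contra hcon
  push Not at hcon
  have hn : ∀ n : ℕ, ∃ K : Set P, IsCompact K ∧ Convex ℝ K ∧ closedBall 0 r ⊆ K ∧
      K ⊆ closedBall 0 R ∧ QB K (Real.sqrt 2 - 1 / ((n : ℝ) + 1)) := by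
    intro n
    have : 0 < 1 / ((n : ℝ) + 1) := by positivity
    obtain ⟨K, h1, h2, h3, h4, h5⟩ := hcon (Real.sqrt 2 - 1 / ((n : ℝ) + 1)) (by linarith)
    exact ⟨K, h1, h2, h3, h4, h5⟩
  choose K hK1 hK2 hK3 hK4 hK5 using hn
  have hne : ∀ n, (K n).Nonempty := fun n => ⟨0, hK3 n (by simp [hr.le])⟩
  obtain ⟨L, hL1, hLne, hL2, hL4, φ, hφ, hlim⟩ := blaschke K R hK1 hne hK2 hK4
  have hL3 : closedBall 0 r ⊆ L := by
    intro x hx
    rw [← hL1.isClosed.closure_eq, Metric.mem_closure_iff]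
    intro ε hε
    obtain ⟨n, hn⟩ := (hlim.eventually_lt_const hε).exists
    obtain ⟨y, hy, hxy⟩ := exists_dist_lt_of_hausdorffDist_lt (hK3 (φ n) hx) hn
      (haus_fin (hne (φ n)) hLne (hK1 (φ n)) hL1)
    exact ⟨y, hy, hxy⟩
  have hLpos : 0 < ar L := by
    have h1 : 0 < volume (closedBall (0 : P) r) := measure_closedBall_pos volume 0 hr
    exact ENNReal.toReal_pos (lt_of_lt_of_le h1 (measure_mono hL3)).ne' hL1.measure_lt_top.ne
  have hnb := not_bad hL1 hL2 hLpos
  unfold Bad at hnb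
  push Not at hnb
  obtain ⟨a, b, c, d, hsub, hlt⟩ := hnb
  -- the dilation factors
  set δ : ℕ → ℝ := fun n => hausdorffDist (K (φ n)) L + 1 / ((n : ℝ) + 1) with hδ
  have hδpos : ∀ n, 0 < δ n := fun n => by
    have : 0 ≤ hausdorffDist (K (φ n)) L := hausdorffDist_nonneg
    have : 0 < 1 / ((n : ℝ) + 1) := by positivity
    simp only [hδ]; linarith
  have hδlim : Tendsto δ atTop (𝓝 0) := by
    have := hlim.add (tendsto_one_div_add_atTop_nhds_zero_nat (𝕜 := ℝ))
    rw [add_zero] at this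
    exact this
  have hlam : Tendsto (fun n => 1 + δ n / r) atTop (𝓝 1) := by
    have := (hδlim.div_const r).const_add 1
    simpa using this
  have key : ∀ n, (Real.sqrt 2 - 1 / ((φ n : ℝ) + 1)) * ar L ≤
      (1 + δ n / r) ^ 4 * ar (convexHull ℝ {a, b, c, d}) := by
    intro n
    have hq : 0 < 1 + δ n / r := by have := hδpos n; positivity
    have hdd : hausdorffDist (K (φ n)) L < δ n := by
      have : 0 < 1 / ((n : ℝ) + 1) := by positivity
      simp only [hδ]; linarith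
    have hf := haus_fin (hne (φ n)) hLne (hK1 (φ n)) hL1
    have s1 : L ⊆ aff (1 + δ n / r) 0 0 (1 + δ n / r) 0 0 '' K (φ n) := by
      refine subset_dilate (hK2 _) hr (hδpos n) (hK3 _) ?_
      intro x hx
      obtain ⟨y, hy, hxy⟩ := exists_dist_lt_of_hausdorffDist_lt' hx hdd hf
      exact ⟨y, hy, by rw [dist_comm]; exact hxy.le⟩
    have s2 : K (φ n) ⊆ aff (1 + δ n / r) 0 0 (1 + δ n / r) 0 0 '' L := by
      refine subset_dilate hL2 hr (hδpos n) hL3 ?_
      intro x hx
      obtain ⟨y, hy, hxy⟩ := exists_dist_lt_of_hausdorffDist_lt hx hdd hf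
      exact ⟨y, hy, hxy.le⟩
    have s3 := s2.trans (image_mono hsub)
    rw [image_hull4] at s3
    have h5 := hK5 (φ n) _ _ _ _ s3
    rw [← image_hull4, ar_aff] at h5
    have h6 := ar_mono s1 ((hK1 (φ n)).image (continuous_aff _ _ _ _ _ _)).measure_lt_top.ne
    rw [ar_aff] at h6
    have e : |(1 + δ n / r) * (1 + δ n / r) - 0 * 0| = (1 + δ n / r) ^ 2 := by
      rw [abs_of_nonneg (by nlinarith [mul_self_nonneg (1 + δ n / r)])]; ring
    rw [e] at h5 h6
    have h7 : 0 ≤ Real.sqrt 2 - 1 / ((φ n : ℝ) + 1) := by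
      have h8 : 1 / ((φ n : ℝ) + 1) ≤ 1 := by
        rw [div_le_one (by positivity)]
        have : (0 : ℝ) ≤ (φ n : ℝ) := by positivity
        linarith
      have h9 : 1 < Real.sqrt 2 := by rw [Real.lt_sqrt] <;> norm_num
      linarith
    calc (Real.sqrt 2 - 1 / ((φ n : ℝ) + 1)) * ar L
        ≤ (Real.sqrt 2 - 1 / ((φ n : ℝ) + 1)) * ((1 + δ n / r) ^ 2 * ar (K (φ n))) := by
          gcongr
      _ = (1 + δ n / r) ^ 2 * ((Real.sqrt 2 - 1 / ((φ n : ℝ) + 1)) * ar (K (φ n))) := by ring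
      _ ≤ (1 + δ n / r) ^ 2 * ((1 + δ n / r) ^ 2 * ar (convexHull ℝ {a, b, c, d})) := by
          gcongr
      _ = _ := by ring
  have hlim1 : Tendsto (fun n => (Real.sqrt 2 - 1 / ((φ n : ℝ) + 1)) * ar L) atTop
      (𝓝 (Real.sqrt 2 * ar L)) := by
    have h1 : Tendsto (fun n => 1 / ((φ n : ℝ) + 1)) atTop (𝓝 0) :=
      (tendsto_one_div_add_atTop_nhds_zero_nat (𝕜 := ℝ)).comp hφ.tendsto_atTop
    have := (h1.const_sub (Real.sqrt 2)).mul_const (ar L)
    simpa using this
  have hlim2 : Tendsto (fun n => (1 + δ n / r) ^ 4 * ar (convexHull ℝ {a, b, c, d})) atTop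
      (𝓝 (ar (convexHull ℝ {a, b, c, d}))) := by
    have := (hlam.pow 4).mul_const (ar (convexHull ℝ {a, b, c, d}))
    simpa using this
  have := le_of_tendsto_of_tendsto' hlim1 hlim2 key
  linarith

theorem ball_in {K : Set P} (hK : Convex ℝ K) {α β A B σ τ : ℝ} (ho : (α, β) ∈ K)
    (h1 : (α + σ * A, β) ∈ K) (h2 : (α, β + τ * B) ∈ K) (hA : 1 ≤ A) (hB : 1 ≤ B)
    {s t : ℝ} (hs : 0 ≤ s) (hs' : s ≤ 1 / 2) (ht : 0 ≤ t) (ht' : t ≤ 1 / 2) :
    (α + σ * s, β + τ * t) ∈ K := by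
  have hA0 : 0 < A := by linarith
  have hB0 : 0 < B := by linarith
  have e1 : s / A ≤ 1 / 2 := by rw [div_le_iff₀ hA0]; nlinarith
  have e2 : t / B ≤ 1 / 2 := by rw [div_le_iff₀ hB0]; nlinarith
  have e3 : 0 ≤ s / A := by positivity
  have e4 : 0 ≤ t / B := by positivity
  have hsub : convexHull ℝ {(α, β), (α + σ * A, β), (α, β + τ * B)} ⊆ K := by
    refine convexHull_min ?_ hK
    rintro x hx
    simp only [mem_insert_iff, mem_singleton_iff] at hx
    rcases hx with rfl | rfl | rfl <;> assumption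
  apply hsub
  refine mem_hull3 (p := 1 - s / A - t / B) (q := s / A) (r := t / B) (by linarith) e3 e4
    (by ring) ?_
  ext
  · simp only [Prod.fst_add, Prod.smul_fst, smul_eq_mul]
    field_simp; ring
  · simp only [Prod.snd_add, Prod.smul_snd, smul_eq_mul]
    field_simp; ring

/-- affine normalisation between two balls -/
theorem exists_between {K : Set P} (hc : IsCompact K) (hK : Convex ℝ K) (hpos : 0 < ar K) :
    ∃ m1 m2 n1 n2 e1 e2 : ℝ, m1 * n2 - m2 * n1 ≠ 0 ∧
      closedBall 0 (1 / 4) ⊆ aff m1 m2 n1 n2 e1 e2 '' K ∧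
      aff m1 m2 n1 n2 e1 e2 '' K ⊆ closedBall 0 3 := by
  obtain ⟨m1, m2, n1, n2, e1, e2, α, β, hne, hN, -⟩ := exists_nrm hc hK hpos
  set K' := aff m1 m2 n1 n2 e1 e2 '' K with hK'
  obtain ⟨a1, a2, b1, b2⟩ := hN.abs
  obtain ⟨σ, A, hσ, hA, hσA⟩ : ∃ σ A : ℝ, (σ = 1 ∨ σ = -1) ∧ 1 ≤ A ∧ (α + σ * A, β) ∈ K' := by
    rcases le_total α 0 with h | h
    · exact ⟨1, 1 - α, Or.inl rfl, by linarith, by convert hN.p1 using 2; ring⟩
    · exact ⟨-1, 1 + α, Or.inr rfl, by linarith, by convert hN.p3 using 2; ring⟩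
  obtain ⟨τ, B, hτ, hB, hτB⟩ : ∃ σ A : ℝ, (σ = 1 ∨ σ = -1) ∧ 1 ≤ A ∧ (α, β + σ * A) ∈ K' := by
    rcases le_total β 0 with h | h
    · exact ⟨1, 1 - β, Or.inl rfl, by linarith, by convert hN.p2 using 2; ring⟩
    · exact ⟨-1, 1 + β, Or.inr rfl, by linarith, by convert hN.p4 using 2; ring⟩
  have hshift : ∀ x : P, aff m1 m2 n1 n2 (e1 - (α + σ / 4)) (e2 - (β + τ / 4)) x =
      aff m1 m2 n1 n2 e1 e2 x - (α + σ / 4, β + τ / 4) := by
    intro x
    rw [aff_apply, aff_apply]
    ext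
    · simp only [Prod.fst_sub]; ring
    · simp only [Prod.snd_sub]; ring
  refine ⟨m1, m2, n1, n2, e1 - (α + σ / 4), e2 - (β + τ / 4), hne, ?_, ?_⟩
  · intro x hx
    rw [mem_closedBall_zero_iff, Prod.norm_def, max_le_iff, Real.norm_eq_abs, Real.norm_eq_abs,
      abs_le, abs_le] at hx
    obtain ⟨⟨x1, x2⟩, x3, x4⟩ := hx
    have hσs : σ * σ = 1 := by rcases hσ with rfl | rfl <;> norm_num
    have hτs : τ * τ = 1 := by rcases hτ with rfl | rfl <;> norm_num
    have h1 := ball_in hN.conv hN.o_mem hσA hτB hA hB (s := 1 / 4 + σ * x.1)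
      (t := 1 / 4 + τ * x.2)
      (by rcases hσ with rfl | rfl <;> linarith) (by rcases hσ with rfl | rfl <;> linarith)
      (by rcases hτ with rfl | rfl <;> linarith) (by rcases hτ with rfl | rfl <;> linarith)
    obtain ⟨y, hy, hyx⟩ := h1
    refine ⟨y, hy, ?_⟩
    rw [hshift, hyx]
    ext
    · simp only [Prod.fst_sub]; linear_combination x.1 * hσs
    · simp only [Prod.snd_sub]; linear_combination x.2 * hτs
  · rintro _ ⟨x, hx, rfl⟩
    rw [hshift]
    obtain ⟨c1, c2, c3, c4⟩ := hN.box _ (mem_image_of_mem _ hx)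
    rw [mem_closedBall_zero_iff, Prod.norm_def, max_le_iff, Real.norm_eq_abs, Real.norm_eq_abs,
      abs_le, abs_le]
    simp only [Prod.fst_sub, Prod.snd_sub]
    refine ⟨?_, ?_⟩
    · rcases hσ with rfl | rfl <;> constructor <;> linarith
    · rcases hτ with rfl | rfl <;> constructor <;> linarith

/-- the uniform constant for compact convex sets -/
theorem uniform_compact : ∃ t : ℝ, t < Real.sqrt 2 ∧ ∀ K : Set P,
    IsCompact K → Convex ℝ K → 0 < ar K → ¬ QB K t := by
  obtain ⟨t, ht, h⟩ := uniform_ball (1 / 4) 3 (by norm_num)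
  refine ⟨t, ht, ?_⟩
  intro K hc hK hpos hQ
  obtain ⟨m1, m2, n1, n2, e1, e2, hne, h1, h2⟩ := exists_between hc hK hpos
  exact h _ (hc.image (continuous_aff _ _ _ _ _ _)) (hK.affine_image _) h1 h2 (hQ.image e1 e2 hne)

/-- convex sets of positive finite area are bounded -/
theorem bounded_of_area {K : Set P} (hK : Convex ℝ K) (hpos : 0 < ar K) (hf : volume K ≠ ∞) :
    Bornology.IsBounded K := by
  obtain ⟨x0, hx0⟩ := interior_nonempty_of_ar_pos hK hpos
  rw [mem_interior_iff_mem_nhds, Metric.mem_nhds_iff] at hx0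
  obtain ⟨ε, hε, hball⟩ := hx0
  have mem : ∀ v : P, ‖v‖ < ε → x0 + v ∈ K := by
    intro v hv
    apply hball
    rwa [Metric.mem_ball, dist_eq_norm, add_sub_cancel_left]
  have h1 : ∀ x ∈ K, |x.1 - x0.1| ≤ 2 * ar K / ε := by
    intro x hx
    have k1 := mem (0, ε / 2) (by
      rw [Prod.norm_def, norm_zero, Real.norm_eq_abs, abs_of_pos (by linarith)]
      exact max_lt hε (by linarith))
    have k2 := mem (0, -(ε / 2)) (by
      rw [Prod.norm_def, norm_zero, Real.norm_eq_abs, abs_neg, abs_of_pos (by linarith)]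
      exact max_lt hε (by linarith))
    have hs : convexHull ℝ {x0 + (0, ε / 2), x0 + (0, -(ε / 2)), x} ⊆ K := by
      refine convexHull_min ?_ hK
      rintro y hy
      simp only [mem_insert_iff, mem_singleton_iff] at hy
      rcases hy with rfl | rfl | rfl <;> assumption
    have h2 := ar_mono hs hf
    rw [ar_tri] at h2
    have e : cr (x0 + (0, -(ε / 2)) - (x0 + (0, ε / 2))) (x - (x0 + (0, ε / 2))) =
        ε * (x.1 - x0.1) := by
      simp only [cr, Prod.fst_sub, Prod.snd_sub, Prod.fst_add, Prod.snd_add]; ring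
    rw [e, abs_mul, abs_of_pos hε] at h2
    rw [le_div_iff₀ hε]; linarith
  have h2 : ∀ x ∈ K, |x.2 - x0.2| ≤ 2 * ar K / ε := by
    intro x hx
    have k1 := mem (ε / 2, 0) (by
      rw [Prod.norm_def, norm_zero, Real.norm_eq_abs, abs_of_pos (by linarith)]
      exact max_lt (by linarith) hε)
    have k2 := mem (-(ε / 2), 0) (by
      rw [Prod.norm_def, norm_zero, Real.norm_eq_abs, abs_neg, abs_of_pos (by linarith)]
      exact max_lt (by linarith) hε)
    have hs : convexHull ℝ {x0 + (ε / 2, 0), x0 + (-(ε / 2), 0), x} ⊆ K := by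
      refine convexHull_min ?_ hK
      rintro y hy
      simp only [mem_insert_iff, mem_singleton_iff] at hy
      rcases hy with rfl | rfl | rfl <;> assumption
    have h2 := ar_mono hs hf
    rw [ar_tri] at h2
    have e : cr (x0 + (-(ε / 2), 0) - (x0 + (ε / 2, 0))) (x - (x0 + (ε / 2, 0))) =
        -(ε * (x.2 - x0.2)) := by
      simp only [cr, Prod.fst_sub, Prod.snd_sub, Prod.fst_add, Prod.snd_add]; ring
    rw [e, abs_neg, abs_mul, abs_of_pos hε] at h2
    rw [le_div_iff₀ hε]; linarith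
  rw [Metric.isBounded_iff_subset_closedBall x0]
  refine ⟨2 * ar K / ε, ?_⟩
  intro x hx
  rw [mem_closedBall, dist_eq_norm, Prod.norm_def, max_le_iff]
  exact ⟨h1 x hx, h2 x hx⟩

/-- the uniform constant for all convex sets of positive finite area -/
theorem uniform_all : ∃ t : ℝ, t < Real.sqrt 2 ∧ ∀ K : Set P, Convex ℝ K → 0 < ar K →
    volume K ≠ ∞ → ∃ a b c d : P, K ⊆ convexHull ℝ {a, b, c, d} ∧
      ar (convexHull ℝ {a, b, c, d}) < t * ar K := by
  obtain ⟨t, ht, h⟩ := uniform_compact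
  refine ⟨t, ht, ?_⟩
  intro K hK hpos hf
  have hb := bounded_of_area hK hpos hf
  have hc : IsCompact (closure K) := hb.isCompact_closure
  have hv : volume (closure K) = volume K := by
    refine le_antisymm ?_ (measure_mono subset_closure)
    have h1 : closure K ⊆ K ∪ frontier K := by
      intro x hx
      by_cases hxK : x ∈ interior K
      · exact Or.inl (interior_subset hxK)
      · exact Or.inr ⟨hx, hxK⟩
    refine (measure_mono h1).trans ((measure_union_le _ _).trans ?_)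
    rw [hK.addHaar_frontier volume, add_zero]
  have har : ar (closure K) = ar K := by rw [ar, hv, ar]
  have h2 := h (closure K) hc hK.closure (by rw [har]; exact hpos)
  unfold QB at h2
  push Not at h2
  obtain ⟨a, b, c, d, h3, h4⟩ := h2
  rw [har] at h4
  exact ⟨a, b, c, d, subset_closure.trans h3, h4⟩

end Q190.KQ
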