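import Pool.Agent.Q190.KQ6

set_option autoImplicit false

/-!
Passage to nondegenerate quadrilaterals.
-/

namespace Q190.KQ

open Pool.Agent.Helper484.Crit MeasureTheory Set
open scoped ENNReal

theorem convexIndependent_of_exposed {p : Fin 4 → P}
    (h : ∀ i, ∃ u : P, ∀ j, j ≠ i → dt u (p j) < dt u (p i)) : ConvexIndependent ℝ p := by
  rw [convexIndependent_iff_notMem_convexHull_sdiff]
  intro i s hi
  obtain ⟨u, hu⟩ := h i
  have hsub : convexHull ℝ (p '' (s \ {i})) ⊆ {x | dt u x < dt u (p i)} := by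
    refine convexHull_min ?_ ?_
    · rintro _ ⟨j, ⟨-, hj⟩, rfl⟩
      exact hu j hj
    · intro x hx y hy a b ha hb hab
      have h1 : dt u x < dt u (p i) := hx
      have h2 : dt u y < dt u (p i) := hy
      show dt u (a • x + b • y) < dt u (p i)
      have e : dt u (a • x + b • y) = a * dt u x + b * dt u y := by simp [dt]; ring
      rw [e]
      have e2 : dt u (p i) = a * dt u (p i) + b * dt u (p i) := by rw [← add_mul, hab, one_mul]
      rw [e2]
      rcases eq_or_lt_of_le ha with h3 | h3
      · have hb1 : b = 1 := by linarith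
        rw [← h3, hb1]; linarith
      · have := mul_lt_mul_of_pos_left h1 h3
        have := mul_le_mul_of_nonneg_left h2.le hb
        linarith
  have hlt : dt u (p i) < dt u (p i) := hsub hi
  exact lt_irrefl _ hlt

theorem to_nondeg {a b c : P} (hN : cr (b - a) (c - a) ≠ 0) {η : ℝ} (hη : 0 < η) :
    ∃ e : P, ConvexIndependent ℝ ![a, b, e, c] ∧
      convexHull ℝ {a, b, c} ⊆ convexHull ℝ ({a, b, e, c} : Set P) ∧
      ar (convexHull ℝ ({a, b, e, c} : Set P)) ≤ (1 + η) * ar (convexHull ℝ {a, b, c}) := by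
  set N := cr (b - a) (c - a) with hNdef
  set e : P := a + ((1 + η) / 2) • ((b - a) + (c - a)) with he
  -- functionals
  set ul : P := ((c - a).2 / N, -(c - a).1 / N) with hul
  set um : P := (-(b - a).2 / N, (b - a).1 / N) with hum
  have l0 : ∀ x : P, dt ul x - dt ul a = cr (x - a) (c - a) / N := by
    intro x; simp only [hul, dt, cr, Prod.fst_sub, Prod.snd_sub]; ring
  have m0 : ∀ x : P, dt um x - dt um a = cr (b - a) (x - a) / N := by
    intro x; simp only [hum, dt, cr, Prod.fst_sub, Prod.snd_sub]; ring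
  have hea : e - a = ((1 + η) / 2) • ((b - a) + (c - a)) := by rw [he]; abel
  have lb : dt ul b - dt ul a = 1 := by rw [l0, ← hNdef]; field_simp
  have lc : dt ul c - dt ul a = 0 := by
    rw [l0]; have : cr (c - a) (c - a) = 0 := by simp only [cr]; ring
    rw [this]; simp
  have le : dt ul e - dt ul a = (1 + η) / 2 := by
    rw [l0, hea]
    have : cr (((1 + η) / 2) • ((b - a) + (c - a))) (c - a) = (1 + η) / 2 * N := by
      rw [hNdef]; simp only [cr, Prod.smul_fst, Prod.smul_snd, Prod.fst_add, Prod.snd_add,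
        smul_eq_mul]; ring
    rw [this]; field_simp
  have mb : dt um b - dt um a = 0 := by
    rw [m0]; have : cr (b - a) (b - a) = 0 := by simp only [cr]; ring
    rw [this]; simp
  have mc : dt um c - dt um a = 1 := by rw [m0, ← hNdef]; field_simp
  have me : dt um e - dt um a = (1 + η) / 2 := by
    rw [m0, hea]
    have : cr (b - a) (((1 + η) / 2) • ((b - a) + (c - a))) = (1 + η) / 2 * N := by
      rw [hNdef]; simp only [cr, Prod.smul_fst, Prod.smul_snd, Prod.fst_add, Prod.snd_add,
        smul_eq_mul]; ring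
    rw [this]; field_simp
  have dadd : ∀ (s t : ℝ) (x : P), dt (s • ul + t • um) x = s * dt ul x + t * dt um x := by
    intro s t x; simp [dt]; ring
  refine ⟨e, ?_, ?_, ?_⟩
  · apply convexIndependent_of_exposed
    intro i
    fin_cases i
    · refine ⟨(-1 : ℝ) • ul + (-1 : ℝ) • um, fun j hj => ?_⟩
      fin_cases j
      · exact absurd rfl hj
      all_goals simp only [dadd]; simp; linarith
    · refine ⟨(1 : ℝ) • ul + (-1 : ℝ) • um, fun j hj => ?_⟩
      fin_cases j
      · simp only [dadd]; simp; linarith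
      · exact absurd rfl hj
      all_goals simp only [dadd]; simp; linarith
    · refine ⟨(1 : ℝ) • ul + (1 : ℝ) • um, fun j hj => ?_⟩
      fin_cases j
      · simp only [dadd]; simp; linarith
      · simp only [dadd]; simp; linarith
      · exact absurd rfl hj
      · simp only [dadd]; simp; linarith
    · refine ⟨(-1 : ℝ) • ul + (1 : ℝ) • um, fun j hj => ?_⟩
      fin_cases j
      · simp only [dadd]; simp; linarith
      · simp only [dadd]; simp; linarith
      · simp only [dadd]; simp; linarith
      · exact absurd rfl hj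
  · apply convexHull_mono
    intro x hx
    simp only [mem_insert_iff, mem_singleton_iff] at hx ⊢
    tauto
  · have hsub := hull4_subset (a := a) (b := b) (c := e) (d := c) (r := 1 / (1 + η)) (t := 1 / 2)
      (by positivity) (by rw [div_le_one (by positivity)]; linarith) (by norm_num) (by norm_num)
      (by
        rw [he]
        have h1 : 1 + η ≠ 0 := by positivity
        ext
        · simp only [Prod.fst_add, Prod.smul_fst, smul_eq_mul, Prod.fst_sub]
          field_simp; ring
        · simp only [Prod.snd_add, Prod.smul_snd, smul_eq_mul, Prod.snd_sub]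
          field_simp; ring)
    have hv : volume (convexHull ℝ ({a, b, e, c} : Set P)) ≤
        volume (convexHull ℝ ({a, b, e} : Set P)) + volume (convexHull ℝ ({a, e, c} : Set P)) :=
      (measure_mono hsub).trans (measure_union_le _ _)
    have hf1 : volume (convexHull ℝ ({a, b, e} : Set P)) ≠ ∞ := (vol_fin_lt (by simp)).ne
    have hf2 : volume (convexHull ℝ ({a, e, c} : Set P)) ≠ ∞ := (vol_fin_lt (by simp)).ne
    have h6 := ENNReal.toReal_mono (ENNReal.add_ne_top.2 ⟨hf1, hf2⟩) hv
    rw [ENNReal.toReal_add hf1 hf2] at h6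
    change ar _ ≤ ar _ + ar _ at h6
    rw [ar_tri, ar_tri, hea] at h6
    rw [ar_tri, ← hNdef]
    have q1 : cr (b - a) (((1 + η) / 2) • ((b - a) + (c - a))) = (1 + η) / 2 * N := by
      rw [hNdef]; simp only [cr, Prod.smul_fst, Prod.smul_snd, Prod.fst_add, Prod.snd_add,
        smul_eq_mul]; ring
    have q2 : cr (((1 + η) / 2) • ((b - a) + (c - a))) (c - a) = (1 + η) / 2 * N := by
      rw [hNdef]; simp only [cr, Prod.smul_fst, Prod.smul_snd, Prod.fst_add, Prod.snd_add,
        smul_eq_mul]; ring
    rw [q1, q2, abs_mul, abs_of_pos (by positivity : 0 < (1 + η) / 2)] at h6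
    refine h6.trans (le_of_eq ?_)
    ring

/-- four points not in convex position span a triangle -/
theorem hull_eq_tri {a b c d : P} (h : ¬ ConvexIndependent ℝ ![a, b, c, d]) :
    ∃ x y z : P, convexHull ℝ ({a, b, c, d} : Set P) = convexHull ℝ {x, y, z} := by
  rw [convexIndependent_iff_notMem_convexHull_sdiff] at h
  push Not at h
  obtain ⟨i, s, hi⟩ := h
  have gen : ∀ (S T : Set P) (w : P), T = insert w S → w ∈ convexHull ℝ S →
      convexHull ℝ T = convexHull ℝ S := by
    intro S T w hT hw
    subst hT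
    apply Subset.antisymm
    · refine convexHull_min ?_ (convex_convexHull ℝ S)
      rintro x (rfl | hx)
      · exact hw
      · exact subset_convexHull ℝ S hx
    · exact convexHull_mono (subset_insert _ _)
  fin_cases i
  · refine ⟨b, c, d, gen _ _ a rfl ?_⟩
    refine convexHull_mono ?_ hi
    rintro _ ⟨j, ⟨-, hj⟩, rfl⟩
    fin_cases j
    · exact absurd rfl hj
    all_goals simp
  · refine ⟨a, c, d, gen _ _ b (by ext; simp; tauto) ?_⟩
    refine convexHull_mono ?_ hi
    rintro _ ⟨j, ⟨-, hj⟩, rfl⟩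
    fin_cases j
    · simp
    · exact absurd rfl hj
    all_goals simp
  · refine ⟨a, b, d, gen _ _ c (by ext; simp; tauto) ?_⟩
    refine convexHull_mono ?_ hi
    rintro _ ⟨j, ⟨-, hj⟩, rfl⟩
    fin_cases j
    · simp
    · simp
    · exact absurd rfl hj
    · simp
  · refine ⟨a, b, c, gen _ _ d (by ext; simp; tauto) ?_⟩
    refine convexHull_mono ?_ hi
    rintro _ ⟨j, ⟨-, hj⟩, rfl⟩
    fin_cases j
    · simp
    · simp
    · simp
    · exact absurd rfl hj

/-- the uniform constant, nondegenerate quadrilaterals -/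
theorem uniform_nondeg : ∃ t : ℝ, t < Real.sqrt 2 ∧ ∀ K : Set P, Convex ℝ K →
    volume K = 1 → ∃ a b c d : P, ConvexIndependent ℝ ![a, b, c, d] ∧
      K ⊆ convexHull ℝ {a, b, c, d} ∧ volume (convexHull ℝ {a, b, c, d}) ≤ ENNReal.ofReal t := by
  obtain ⟨t, ht, h⟩ := uniform_all
  have h9 : 1 < Real.sqrt 2 := by rw [Real.lt_sqrt] <;> norm_num
  set t' := max t 1 with ht'
  have ht'2 : t' < Real.sqrt 2 := max_lt ht h9
  have ht'1 : 1 ≤ t' := le_max_right _ _
  refine ⟨(t' + Real.sqrt 2) / 2, by linarith, ?_⟩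
  intro K hK hv
  have har : ar K = 1 := by rw [ar, hv]; simp
  obtain ⟨a, b, c, d, h1, h2⟩ := h K hK (by rw [har]; norm_num) (by rw [hv]; simp)
  rw [har, mul_one] at h2
  have h3 : ar (convexHull ℝ {a, b, c, d}) < t' := lt_of_lt_of_le h2 (le_max_left _ _)
  have fin4 : ∀ a b c d : P, volume (convexHull ℝ ({a, b, c, d} : Set P)) ≠ ∞ := fun a b c d =>
    (vol_fin_lt (by simp)).ne
  by_cases hci : ConvexIndependent ℝ ![a, b, c, d]
  · refine ⟨a, b, c, d, hci, h1, ?_⟩
    rw [ENNReal.le_ofReal_iff_toReal_le (fin4 _ _ _ _) (by linarith)]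
    have : ar (convexHull ℝ {a, b, c, d}) ≤ (t' + Real.sqrt 2) / 2 := by linarith
    exact this
  · obtain ⟨x, y, z, hxyz⟩ := hull_eq_tri hci
    rw [hxyz] at h1 h3
    have h4 : 1 ≤ ar (convexHull ℝ {x, y, z}) := by
      rw [← har]
      exact ar_mono h1 (vol_fin_lt (by simp)).ne
    have hN : cr (y - x) (z - x) ≠ 0 := by
      intro h0
      rw [ar_tri, h0] at h4
      norm_num at h4
    obtain ⟨e, he1, he2, he3⟩ := to_nondeg hN (η := ((t' + Real.sqrt 2) / 2 - t') / t')
      (div_pos (by linarith) (by linarith))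
    refine ⟨x, y, e, z, he1, h1.trans he2, ?_⟩
    rw [ENNReal.le_ofReal_iff_toReal_le (fin4 _ _ _ _) (by linarith)]
    have hcoef : 1 + ((t' + Real.sqrt 2) / 2 - t') / t' = ((t' + Real.sqrt 2) / 2) / t' := by
      have : t' ≠ 0 := by linarith
      field_simp; ring
    rw [hcoef] at he3
    have ht0 : 0 < t' := by linarith
    have : (t' + Real.sqrt 2) / 2 / t' * ar (convexHull ℝ {x, y, z}) ≤
        (t' + Real.sqrt 2) / 2 / t' * t' := by gcongr
    rw [div_mul_cancel₀ _ ht0.ne'] at this
    exact he3.trans this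

end Q190.KQ
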