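import Mathlib

/-!
# Volume of the union of seven octahedra
-/

namespace Q190.Octa

open MeasureTheory Set Filter Topology
open scoped Pointwise

/-- The `ℓ¹` norm on `ℝ³`. -/
def n1 (x : Fin 3 → ℝ) : ℝ := |x 0| + |x 1| + |x 2|

/-- The octahedron of radius `r`. -/
def O (r : ℝ) : Set (Fin 3 → ℝ) := {x | n1 x ≤ r}

theorem n1_cont : Continuous n1 := by
  unfold n1; fun_prop

theorem O_closed (r : ℝ) : IsClosed (O r) := isClosed_le n1_cont continuous_const

theorem n1_add (x y : Fin 3 → ℝ) : n1 (x + y) ≤ n1 x + n1 y := by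
  simp only [n1, Pi.add_apply]
  have h0 := abs_add_le (x 0) (y 0)
  have h1 := abs_add_le (x 1) (y 1)
  have h2 := abs_add_le (x 2) (y 2)
  linarith

theorem n1_smul (c : ℝ) (x : Fin 3 → ℝ) : n1 (c • x) = |c| * n1 x := by
  simp only [n1, Pi.smul_apply, smul_eq_mul, abs_mul]
  ring

theorem O_convex (r : ℝ) : Convex ℝ (O r) := by
  intro x hx y hy a b ha hb hab
  have h1 := n1_add (a • x) (b • y)
  rw [n1_smul, n1_smul, abs_of_nonneg ha, abs_of_nonneg hb] at h1
  have h2 := mul_le_mul_of_nonneg_left hx ha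
  have h3 := mul_le_mul_of_nonneg_left hy hb
  change n1 _ ≤ r
  calc n1 (a • x + b • y) ≤ a * n1 x + b * n1 y := h1
    _ ≤ a * r + b * r := add_le_add h2 h3
    _ = r := by rw [← add_mul, hab, one_mul]

theorem smul_O {c : ℝ} (hc : 0 < c) : c • O 1 = O c := by
  ext x
  rw [mem_smul_set_iff_inv_smul_mem₀ hc.ne']
  simp only [O, mem_ofPred_eq, n1_smul, abs_of_pos (inv_pos.2 hc)]
  rw [inv_mul_le_iff₀ hc, mul_one]

theorem add_O {a b : ℝ} (ha : 0 < a) (hb : 0 < b) : O a + O b = O (a + b) := by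
  rw [← smul_O ha, ← smul_O hb, ← smul_O (add_pos ha hb), (O_convex 1).add_smul ha.le hb.le]

theorem vol_O {r : ℝ} (hr : 0 ≤ r) : volume (O r) = ENNReal.ofReal (4 / 3 * r ^ 3) := by
  have h := volume_sum_rpow_le (ι := Fin 3) (p := 1) le_rfl r
  have e : {x : Fin 3 → ℝ | (∑ i, |x i| ^ (1 : ℝ)) ^ (1 / (1 : ℝ)) ≤ r} = O r := by
    ext x
    simp [O, n1, Fin.sum_univ_three]
  rw [e] at h
  rw [h]
  have hg : Real.Gamma 4 = 6 := by
    have := Real.Gamma_nat_eq_factorial 3
    norm_num [Nat.factorial] at this ⊢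
  have hg2 : Real.Gamma 2 = 1 := Real.Gamma_two
  rw [Fintype.card_fin, ← ENNReal.ofReal_pow hr, ← ENNReal.ofReal_mul (by positivity)]
  congr 1
  norm_num [hg, hg2]
  ring

/-- Flip of one coordinate. -/
def flip (i : Fin 3) (x : Fin 3 → ℝ) : Fin 3 → ℝ := fun j => if j = i then - x j else x j

theorem flip_mp (i : Fin 3) : MeasurePreserving (flip i) (volume : Measure (Fin 3 → ℝ)) volume := by
  refine volume_preserving_pi (f := fun j (t : ℝ) => if j = i then - t else t) fun j => ?_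
  by_cases h : j = i
  · simp only [h, if_true]
    exact Measure.measurePreserving_neg volume
  · simp only [h, if_false]
    exact MeasurePreserving.id volume

theorem flip_flip (i : Fin 3) (x : Fin 3 → ℝ) : flip i (flip i x) = x := by
  funext j
  by_cases h : j = i <;> simp [flip, h]

theorem half {S : Set (Fin 3 → ℝ)} (hS : MeasurableSet S) (i : Fin 3)
    (hf : ∀ x, flip i x ∈ S ↔ x ∈ S) : volume S = 2 * volume (S ∩ {x | 0 < x i}) := by
  have hpos : MeasurableSet {x : Fin 3 → ℝ | 0 < x i} :=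
    measurableSet_lt measurable_const (measurable_pi_apply i)
  have hneg : MeasurableSet {x : Fin 3 → ℝ | x i < 0} :=
    measurableSet_lt (measurable_pi_apply i) measurable_const
  have h1 : volume (S ∩ {x | x i < 0}) = volume (S ∩ {x | 0 < x i}) := by
    rw [← (flip_mp i).measure_preimage (hS.inter hpos).nullMeasurableSet]
    congr 1
    ext x
    simp only [mem_inter_iff, mem_ofPred_eq, mem_preimage, hf]
    simp [flip]
  have h2 : volume (S ∩ {x | x i = 0}) = 0 := by
    refine measure_mono_null inter_subset_right ?_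
    exact Measure.pi_hyperplane (fun _ => (volume : Measure ℝ)) i 0
  have h3 : volume S = volume (S ∩ {x | 0 < x i} ∪ S ∩ {x | x i < 0}) := by
    apply le_antisymm
    · have : S ⊆ (S ∩ {x | 0 < x i} ∪ S ∩ {x | x i < 0}) ∪ S ∩ {x | x i = 0} := by
        intro x hx
        rcases lt_trichotomy (x i) 0 with h | h | h
        · exact Or.inl (Or.inr ⟨hx, h⟩)
        · exact Or.inr ⟨hx, h⟩
        · exact Or.inl (Or.inl ⟨hx, h⟩)
      calc volume S ≤ _ := measure_mono this
        _ ≤ _ := measure_union_le _ _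
        _ = _ := by rw [h2, add_zero]
    · exact measure_mono (union_subset inter_subset_left inter_subset_left)
  rw [h3, measure_union _ (hS.inter hneg), h1, two_mul]
  rw [Set.disjoint_left]
  rintro x ⟨-, hx1⟩ ⟨-, hx2⟩
  exact lt_asymm (show 0 < x i from hx1) (show x i < 0 from hx2)

/-- The open positive orthant. -/
def P : Set (Fin 3 → ℝ) := {x | 0 < x 0 ∧ 0 < x 1 ∧ 0 < x 2}

theorem eighth {S : Set (Fin 3 → ℝ)} (hS : MeasurableSet S)
    (hf : ∀ i x, flip i x ∈ S ↔ x ∈ S) : volume S = 8 * volume (S ∩ P) := by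
  have hpos : ∀ i, MeasurableSet {x : Fin 3 → ℝ | 0 < x i} := fun i =>
    measurableSet_lt measurable_const (measurable_pi_apply i)
  have h1 := half hS 0 (hf 0)
  have h2 := half (hS.inter (hpos 0)) 1 (fun x => by
    rw [mem_inter_iff, mem_inter_iff, hf]
    simp [flip])
  have h3 := half ((hS.inter (hpos 0)).inter (hpos 1)) 2 (fun x => by
    rw [mem_inter_iff, mem_inter_iff, mem_inter_iff, mem_inter_iff, hf]
    simp [flip])
  rw [h1, h2, h3, ← mul_assoc, ← mul_assoc]
  congr 1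
  · norm_num
  · congr 1
    ext x
    simp [P, and_assoc]

/-- The corner simplex. -/
def T (c : ℝ) : Set (Fin 3 → ℝ) := {x | x ∈ P ∧ x 0 + x 1 + x 2 ≤ c}

theorem O_flip (r : ℝ) (i : Fin 3) (x : Fin 3 → ℝ) : flip i x ∈ O r ↔ x ∈ O r := by
  have : n1 (flip i x) = n1 x := by
    simp only [n1, flip]
    fin_cases i <;> simp
  simp only [O, mem_ofPred_eq, this]

theorem vol_T {c : ℝ} (hc : 0 ≤ c) : volume (T c) = ENNReal.ofReal (c ^ 3 / 6) := by
  have h := eighth (O_closed c).measurableSet (O_flip c)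
  have e : O c ∩ P = T c := by
    ext x
    simp only [O, P, T, n1, mem_inter_iff, mem_ofPred_eq]
    constructor
    · rintro ⟨h1, h2, h3, h4⟩
      rw [abs_of_pos h2, abs_of_pos h3, abs_of_pos h4] at h1
      exact ⟨⟨h2, h3, h4⟩, h1⟩
    · rintro ⟨⟨h2, h3, h4⟩, h1⟩
      rw [abs_of_pos h2, abs_of_pos h3, abs_of_pos h4]
      exact ⟨h1, h2, h3, h4⟩
  rw [e, vol_O hc] at h
  have h8 : (8 : ENNReal) = ENNReal.ofReal 8 := by simp
  have : 4 / 3 * c ^ 3 = 8 * (c ^ 3 / 6) := by ring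
  rw [this, ENNReal.ofReal_mul (by norm_num), ← h8] at h
  exact ((ENNReal.mul_right_inj (by norm_num) (by norm_num)).1 h).symm

/-- The linear map `(x, y, z) ↦ (y + z - x, x + z - y, x + y - z)`. -/
noncomputable def L : (Fin 3 → ℝ) →ₗ[ℝ] (Fin 3 → ℝ) :=
  Matrix.toLin' !![-1, 1, 1; 1, -1, 1; 1, 1, -1]

theorem L_det : LinearMap.det L = 4 := by
  rw [L, LinearMap.det_toLin', Matrix.det_fin_three]
  simp
  norm_num

theorem L_0 (x : Fin 3 → ℝ) : L x 0 = x 1 + x 2 - x 0 := by
  simp [L, Matrix.toLin'_apply, Matrix.mulVec, dotProduct, Fin.sum_univ_three]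
  ring

theorem L_1 (x : Fin 3 → ℝ) : L x 1 = x 0 + x 2 - x 1 := by
  simp [L, Matrix.toLin'_apply, Matrix.mulVec, dotProduct, Fin.sum_univ_three]
  ring

theorem L_2 (x : Fin 3 → ℝ) : L x 2 = x 0 + x 1 - x 2 := by
  simp [L, Matrix.toLin'_apply, Matrix.mulVec, dotProduct, Fin.sum_univ_three]
  ring

/-- The missing part in the positive orthant. -/
def C (t : ℝ) : Set (Fin 3 → ℝ) :=
  {x | t < L x 0 ∧ t < L x 1 ∧ t < L x 2 ∧ 1 + t < x 0 + x 1 + x 2 ∧ x 0 + x 1 + x 2 ≤ 2 + t}

theorem vol_C {t : ℝ} (ht : 0 ≤ t) (ht2 : t ≤ 1 / 2) :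
    volume (C t) = ENNReal.ofReal ((1 / 24) * ((2 - 2 * t) ^ 3 - (1 - 2 * t) ^ 3)) := by
  have h1 : C t = L ⁻¹' ((fun x => x + (fun _ => -t)) ⁻¹' (T (2 - 2 * t) \ T (1 - 2 * t))) := by
    ext x
    simp only [C, T, P, mem_ofPred_eq, mem_preimage, Set.mem_sdiff, Pi.add_apply, not_and, not_le]
    have e : L x 0 + L x 1 + L x 2 = x 0 + x 1 + x 2 := by
      rw [L_0, L_1, L_2]; ring
    constructor
    · rintro ⟨a, b, c, d, e'⟩
      refine ⟨⟨⟨by linarith, by linarith, by linarith⟩, by linarith⟩, fun _ => by linarith⟩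
    · rintro ⟨⟨⟨a, b, c⟩, d⟩, e'⟩
      have := e' ⟨a, b, c⟩
      refine ⟨by linarith, by linarith, by linarith, by linarith, by linarith⟩
  have hmT : ∀ c, MeasurableSet (T c) := by
    intro c
    have : T c = P ∩ {x | x 0 + x 1 + x 2 ≤ c} := rfl
    rw [this]
    refine MeasurableSet.inter ?_ ?_
    · have : P = {x | 0 < x 0} ∩ ({x | 0 < x 1} ∩ {x | 0 < x 2}) := rfl
      rw [this]
      exact (measurableSet_lt measurable_const (measurable_pi_apply 0)).inter
        ((measurableSet_lt measurable_const (measurable_pi_apply 1)).inter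
        (measurableSet_lt measurable_const (measurable_pi_apply 2)))
    · exact measurableSet_le (by fun_prop) measurable_const
  have hsub : T (1 - 2 * t) ⊆ T (2 - 2 * t) := by
    rintro x ⟨hx, hx'⟩
    exact ⟨hx, by linarith⟩
  have hfin : volume (T (1 - 2 * t)) ≠ ⊤ := by
    rw [vol_T (by linarith)]; exact ENNReal.ofReal_ne_top
  have hnn : 0 ≤ (1 - 2 * t) ^ 3 / 6 := by
    have : 0 ≤ 1 - 2 * t := by linarith
    positivity
  rw [h1, Measure.addHaar_preimage_linearMap volume (by rw [L_det]; norm_num), L_det,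
    measure_preimage_add_right, measure_sdiff hsub (hmT _).nullMeasurableSet hfin,
    vol_T (by linarith), vol_T (by linarith), ← ENNReal.ofReal_sub _ hnn,
    ← ENNReal.ofReal_mul (by positivity)]
  congr 1
  rw [abs_of_pos (by norm_num)]
  ring

/-- The seven centres. -/
def X : Set (Fin 3 → ℝ) :=
  {![1, 0, 0], ![-1, 0, 0], ![0, 1, 0], ![0, -1, 0], ![0, 0, 1], ![0, 0, -1]}

/-- The union of the seven octahedra. -/
def U (r : ℝ) : Set (Fin 3 → ℝ) := {x | |x 0| + |x 1| + |x 2| ≤ r ∨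
  |x 0 - 1| + |x 1| + |x 2| ≤ r ∨ |x 0 + 1| + |x 1| + |x 2| ≤ r ∨
  |x 0| + |x 1 - 1| + |x 2| ≤ r ∨ |x 0| + |x 1 + 1| + |x 2| ≤ r ∨
  |x 0| + |x 1| + |x 2 - 1| ≤ r ∨ |x 0| + |x 1| + |x 2 + 1| ≤ r}

theorem mem_add_O (A : Set (Fin 3 → ℝ)) (r : ℝ) (x : Fin 3 → ℝ) :
    x ∈ A + O r ↔ ∃ a ∈ A, n1 (x - a) ≤ r := by
  constructor
  · rintro ⟨a, ha, b, hb, rfl⟩
    exact ⟨a, ha, by rw [add_sub_cancel_left]; exact hb⟩
  · rintro ⟨a, ha, h⟩
    exact ⟨a, ha, x - a, h, by simp⟩

theorem add_eq_U (r : ℝ) : insert 0 X + O r = U r := by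
  ext x
  rw [mem_add_O]
  simp only [X, U, mem_insert_iff, mem_singleton_iff, exists_eq_or_imp, exists_eq_left,
    mem_ofPred_eq, n1, Pi.sub_apply, Pi.zero_apply, sub_zero, Matrix.cons_val_zero,
    Matrix.cons_val_one, Matrix.cons_val]
  simp only [sub_neg_eq_add]

theorem U_closed (r : ℝ) : IsClosed (U r) := by
  unfold U
  simp only [ofPred_or]
  refine IsClosed.union ?_ (IsClosed.union ?_ (IsClosed.union ?_ (IsClosed.union ?_
    (IsClosed.union ?_ (IsClosed.union ?_ ?_))))) <;>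
  exact isClosed_le (by fun_prop) continuous_const

theorem U_flip (r : ℝ) (i : Fin 3) (x : Fin 3 → ℝ) : flip i x ∈ U r ↔ x ∈ U r := by
  have e1 : ∀ t : ℝ, |-t - 1| = |t + 1| := fun t => by rw [← abs_neg]; congr 1; ring
  have e2 : ∀ t : ℝ, |-t + 1| = |t - 1| := fun t => by rw [← abs_neg]; congr 1; ring
  simp only [U, mem_ofPred_eq, flip]
  fin_cases i
  · simp [e1, e2]; tauto
  · simp [e1, e2]; tauto
  · simp [e1, e2]; tauto

theorem U_sub (t : ℝ) (ht : 0 ≤ t) : U (1 + t) ⊆ O (2 + t) := by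
  intro x hx
  simp only [U, mem_ofPred_eq] at hx
  simp only [O, n1, mem_ofPred_eq]
  have a0 : |x 0| ≤ |x 0 - 1| + 1 := by
    have := abs_add_le (x 0 - 1) 1
    simpa using this
  have b0 : |x 0| ≤ |x 0 + 1| + 1 := by
    have := abs_add_le (x 0 + 1) (-1)
    simpa using this
  have a1 : |x 1| ≤ |x 1 - 1| + 1 := by
    have := abs_add_le (x 1 - 1) 1
    simpa using this
  have b1 : |x 1| ≤ |x 1 + 1| + 1 := by
    have := abs_add_le (x 1 + 1) (-1)
    simpa using this
  have a2 : |x 2| ≤ |x 2 - 1| + 1 := by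
    have := abs_add_le (x 2 - 1) 1
    simpa using this
  have b2 : |x 2| ≤ |x 2 + 1| + 1 := by
    have := abs_add_le (x 2 + 1) (-1)
    simpa using this
  rcases hx with h | h | h | h | h | h | h <;> linarith

theorem diff_P (t : ℝ) (ht : 0 ≤ t) : (O (2 + t) \ U (1 + t)) ∩ P = C t := by
  ext x
  simp only [O, U, P, C, n1, mem_inter_iff, Set.mem_sdiff, mem_ofPred_eq, L_0, L_1, L_2, not_or,
    not_le]
  constructor
  · rintro ⟨⟨h1, h2, h3, h4, h5, h6, h7, h8⟩, p0, p1, p2⟩
    rw [abs_of_pos p0, abs_of_pos p1, abs_of_pos p2] at h1 h2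
    rw [abs_of_pos p1, abs_of_pos p2] at h3
    rw [abs_of_pos p0, abs_of_pos p2] at h5
    rw [abs_of_pos p0, abs_of_pos p1] at h7
    have q0 : x 0 < 1 := by
      by_contra hc
      push Not at hc
      rw [abs_of_nonneg (by linarith)] at h3
      linarith
    have q1 : x 1 < 1 := by
      by_contra hc
      push Not at hc
      rw [abs_of_nonneg (show 0 ≤ x 1 - 1 by linarith)] at h5
      linarith
    have q2 : x 2 < 1 := by
      by_contra hc
      push Not at hc
      rw [abs_of_nonneg (show 0 ≤ x 2 - 1 by linarith)] at h7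
      linarith
    rw [abs_of_neg (by linarith)] at h3
    rw [abs_of_neg (show x 1 - 1 < 0 by linarith)] at h5
    rw [abs_of_neg (show x 2 - 1 < 0 by linarith)] at h7
    refine ⟨by linarith, by linarith, by linarith, by linarith, by linarith⟩
  · rintro ⟨h1, h2, h3, h4, h5⟩
    have p0 : 0 < x 0 := by linarith
    have p1 : 0 < x 1 := by linarith
    have p2 : 0 < x 2 := by linarith
    have q0 : x 0 < 1 := by linarith
    have q1 : x 1 < 1 := by linarith
    have q2 : x 2 < 1 := by linarith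
    rw [abs_of_pos p0, abs_of_pos p1, abs_of_pos p2, abs_of_neg (show x 0 - 1 < 0 by linarith),
      abs_of_neg (show x 1 - 1 < 0 by linarith), abs_of_neg (show x 2 - 1 < 0 by linarith),
      abs_of_pos (show 0 < x 0 + 1 by linarith), abs_of_pos (show 0 < x 1 + 1 by linarith),
      abs_of_pos (show 0 < x 2 + 1 by linarith)]
    refine ⟨⟨by linarith, by linarith, by linarith, by linarith, by linarith, by linarith,
      by linarith, by linarith⟩, p0, p1, p2⟩

theorem vol_U {t : ℝ} (ht : 0 ≤ t) (ht2 : t ≤ 1 / 2) :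
    (volume (U (1 + t))).toReal = 25 / 3 + 22 * t + 4 * t ^ 2 + 4 / 3 * t ^ 3 := by
  have h1 : volume (O (2 + t) \ U (1 + t)) = 8 * volume (C t) := by
    rw [eighth ((O_closed _).measurableSet.diff (U_closed _).measurableSet), diff_P t ht]
    intro i x
    rw [Set.mem_sdiff, Set.mem_sdiff, O_flip, U_flip]
  have hfU : volume (U (1 + t)) ≠ ⊤ := by
    refine ne_top_of_le_ne_top ?_ (measure_mono (U_sub t ht))
    rw [vol_O (by linarith)]
    exact ENNReal.ofReal_ne_top
  rw [measure_sdiff (U_sub t ht) (U_closed _).measurableSet.nullMeasurableSet hfU,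
    vol_O (by linarith), vol_C ht ht2] at h1
  have h2 : volume (U (1 + t)) ≤ ENNReal.ofReal (4 / 3 * (2 + t) ^ 3) := by
    rw [← vol_O (by linarith)]
    exact measure_mono (U_sub t ht)
  have h3 := congrArg ENNReal.toReal h1
  have hnn : 0 ≤ (1 / 24) * ((2 - 2 * t) ^ 3 - (1 - 2 * t) ^ 3) := by
    have h1 : 0 ≤ 1 - 2 * t := by linarith
    have : (1 - 2 * t) ^ 3 ≤ (2 - 2 * t) ^ 3 := by gcongr; linarith
    linarith
  rw [ENNReal.toReal_sub_of_le h2 ENNReal.ofReal_ne_top, ENNReal.toReal_ofReal (by positivity),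
    ENNReal.toReal_mul, ENNReal.toReal_ofReal hnn] at h3
  norm_num at h3
  linarith

theorem O_bounded (r : ℝ) : Bornology.IsBounded (O r) := by
  rcases lt_or_ge r 0 with h | h
  · have : O r = ∅ := by
      ext x
      simp only [O, mem_ofPred_eq, n1, mem_empty_iff_false, iff_false, not_le]
      have := abs_nonneg (x 0)
      have := abs_nonneg (x 1)
      have := abs_nonneg (x 2)
      linarith
    rw [this]
    exact Bornology.isBounded_empty
  · rw [isBounded_iff_forall_norm_le]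
    refine ⟨r, fun x hx => ?_⟩
    rw [pi_norm_le_iff_of_nonneg h]
    simp only [O, mem_ofPred_eq, n1] at hx
    have h0 := abs_nonneg (x 0)
    have h1 := abs_nonneg (x 1)
    have h2 := abs_nonneg (x 2)
    intro i
    rw [Real.norm_eq_abs]
    fin_cases i
    · change |x 0| ≤ r; linarith
    · change |x 1| ≤ r; linarith
    · change |x 2| ≤ r; linarith

theorem O_interior : (interior (O 1)).Nonempty := by
  refine ⟨0, ?_⟩
  have h1 : IsOpen {x : Fin 3 → ℝ | n1 x < 1} := isOpen_lt n1_cont continuous_const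
  have h2 : {x : Fin 3 → ℝ | n1 x < 1} ⊆ O 1 := fun x hx => by
    simp only [O, mem_ofPred_eq] at hx ⊢
    exact hx.le
  exact interior_maximal h2 h1 (by simp [n1])

theorem n1_neg (x : Fin 3 → ℝ) : n1 (-x) = n1 x := by
  simp [n1]

theorem X_sub : X ⊆ O 1 := by
  intro x hx
  simp only [X, mem_insert_iff, mem_singleton_iff] at hx
  simp only [O, mem_ofPred_eq]
  rcases hx with h | h | h | h | h | h <;> simp [h, n1]

theorem X_finite : X.Finite := by
  unfold X
  exact Set.toFinite _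

theorem X_nonempty : X.Nonempty := ⟨![1, 0, 0], by simp [X]⟩

end Q190.Octa
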