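import Pool.Agent.Q190.OB.K

/-! # Normality of `π` is decided by the signs of the Weyl terms -/

set_option autoImplicit false

open Filter

namespace Pool.Agent.Results.MP_57632f_nt.OneBitWeyl

/-- The digit `d_(i+1)` of the fractional part of `x` in base `b` (the expansion that does not end
in an infinite run of the digit `b - 1`). -/
noncomputable def digit (b : ℕ) (x : ℝ) (i : ℕ) : ℤ := ⌊x * (b : ℝ) ^ (i + 1)⌋ % (b : ℤ)

/-- `x` is normal in base `b`. -/
def NormalIn (b : ℕ) (x : ℝ) : Prop :=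
  ∀ k : ℕ, 0 < k → ∀ w : Fin k → Fin b,
    Tendsto (fun n : ℕ => (((Finset.range n).filter
      (fun i : ℕ => ∀ j : Fin k, digit b x (i + (j : ℕ)) = (((w j : ℕ)) : ℤ))).card : ℝ) / (n : ℝ))
      atTop (nhds ((1 : ℝ) / (b : ℝ) ^ k))

/-- The number of `n < N` for which `p n` holds. -/
noncomputable def count (p : ℕ → Prop) (N : ℕ) : ℕ := by
  classical
  exact ((Finset.range N).filter p).card

/-- `p n` holds for exactly one half of all `n`, in the limit. -/
def Half (p : ℕ → Prop) : Prop :=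
  Tendsto (fun N : ℕ => (count p N : ℝ) / N) atTop (nhds (1 / 2))

/-- The point `t` modulo one lies in the half of the circle around `1 / 2`. -/
def InMiddle (t : ℝ) : Prop := 1 / 4 ≤ Int.fract t ∧ Int.fract t < 3 / 4

/-- The point `t` modulo one lies in the lower half `[0, 1 / 2)` of the circle. -/
def InLower (t : ℝ) : Prop := Int.fract t < 1 / 2

/-- The sequence `y` is uniformly distributed modulo one. -/
def UniformlyDistributed (y : ℕ → ℝ) : Prop :=
  ∀ a b : ℝ, 0 ≤ a → a ≤ b → b ≤ 1 →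
    Tendsto (fun N : ℕ => (count (fun n => a ≤ Int.fract (y n) ∧ Int.fract (y n) < b) N : ℝ) / N)
      atTop (nhds (b - a))

/-- The Thue–Morse sequence: the parity of the number of ones in the binary expansion of `n`. -/
def thueMorse (n : ℕ) : ℕ := (Nat.digits 2 n).sum % 2

/-- The Thue–Morse number, `0.0110100110010110...` in base two. -/
noncomputable def thueMorseNumber : ℝ := ∑' i : ℕ, (thueMorse i : ℝ) / 2 ^ (i + 1)

open Classical in
lemma count_eq (p : ℕ → Prop) (N : ℕ) : count p N = ((Finset.range N).filter p).card := by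
  unfold count
  congr

lemma mid_count (y : ℕ → ℝ) (N : ℕ) : Q190.OB.mid y N = count (fun n => InMiddle (y n)) N := by
  classical
  rw [count_eq]
  unfold Q190.OB.mid InMiddle
  congr

lemma low_count (y : ℕ → ℝ) (N : ℕ) : Q190.OB.low y N = count (fun n => InLower (y n)) N := by
  classical
  rw [count_eq]
  unfold Q190.OB.low InLower
  congr

lemma tst_count (b : ℕ) (x : ℝ) (m N : ℕ) :
    Q190.OB.tst b x m N = count (fun n => InMiddle (m * ((b : ℝ) ^ n * x))) N :=
  mid_count _ N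

lemma pos_count (b : ℕ) (x : ℝ) (m N : ℕ) :
    Q190.OB.pos b x m N = count (fun n => 0 < Real.cos (2 * Real.pi * (m * ((b : ℝ) ^ n * x)))) N := by
  classical
  rw [count_eq]
  unfold Q190.OB.pos
  congr

lemma ud_eq (y : ℕ → ℝ) : Q190.OB.UD y ↔ UniformlyDistributed y := by
  classical
  unfold Q190.OB.UD UniformlyDistributed
  refine forall_congr' fun a => forall_congr' fun b => forall_congr' fun _ => forall_congr' fun _ =>
    forall_congr' fun _ => ?_
  have : ∀ N : ℕ, Q190.OB.cnt y a b N =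
      count (fun n => a ≤ Int.fract (y n) ∧ Int.fract (y n) < b) N := by
    intro N
    rw [count_eq]
    unfold Q190.OB.cnt
    congr
  simp only [this]

lemma half_congr {p q : ℕ → Prop} (h : ∀ n, p n ↔ q n) : Half p ↔ Half q := by
  have : p = q := funext fun n => propext (h n)
  rw [this]

theorem one (b : ℕ) (hb : 2 ≤ b) (x : ℝ) : NormalIn b x ↔ ∀ m : ℕ, 1 ≤ m →
    Half fun n => InMiddle (m * ((b : ℝ) ^ n * x)) := by
  have h := Q190.OB.one_bit b hb x
  simp only [tst_count] at h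
  exact h

theorem oneCos (b : ℕ) (hb : 2 ≤ b) (x : ℝ) (hx : Irrational x) : NormalIn b x ↔ ∀ m : ℕ, 1 ≤ m →
    Half fun n => 0 < Real.cos (2 * Real.pi * (m * ((b : ℝ) ^ n * x))) := by
  have h := Q190.OB.one_bit_cos b hb x hx
  simp only [pos_count] at h
  exact h

theorem ten (x : ℝ) : NormalIn 10 x ↔ ∀ m : ℕ, 1 ≤ m →
    Half fun n => 25 ≤ 10 * digit 10 (m * x) n + digit 10 (m * x) (n + 1) ∧
      10 * digit 10 (m * x) n + digit 10 (m * x) (n + 1) < 75 := by
  rw [one 10 (by norm_num) x]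
  refine forall_congr' fun m => forall_congr' fun _ => half_congr fun n => ?_
  have h := Q190.OB.ten_iff (m * x) n
  have e : ((10 : ℕ) : ℝ) ^ n * (m * x) = m * (((10 : ℕ) : ℝ) ^ n * x) := by ring
  rw [e] at h
  exact h.symm

theorem two (x : ℝ) : NormalIn 2 x ↔ ∀ m : ℕ, 1 ≤ m →
    Half fun n => digit 2 (m * x) n ≠ digit 2 (m * x) (n + 1) := by
  rw [one 2 le_rfl x]
  refine forall_congr' fun m => forall_congr' fun _ => half_congr fun n => ?_
  have h := Q190.OB.two_iff (m * x) n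
  have e : ((2 : ℕ) : ℝ) ^ n * (m * x) = m * (((2 : ℕ) : ℝ) ^ n * x) := by ring
  rw [e] at h
  exact h.symm

theorem result :
    -- (1) the criterion for `π` in base ten: signs of cosines, or two-digit blocks of its multiples
    ((NormalIn 10 Real.pi ↔ ∀ m : ℕ, 1 ≤ m →
        Half fun n => 0 < Real.cos (2 * Real.pi * (m * ((10 : ℝ) ^ n * Real.pi)))) ∧
      (NormalIn 10 Real.pi ↔ ∀ m : ℕ, 1 ≤ m →
        Half fun n => 25 ≤ 10 * digit 10 (m * Real.pi) n + digit 10 (m * Real.pi) (n + 1) ∧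
          10 * digit 10 (m * Real.pi) n + digit 10 (m * Real.pi) (n + 1) < 75)) ∧
    -- (2) the same for all bases and all real numbers
    ((∀ b : ℕ, 2 ≤ b → ∀ x : ℝ,
        (NormalIn b x ↔ ∀ m : ℕ, 1 ≤ m → Half fun n => InMiddle (m * ((b : ℝ) ^ n * x)))) ∧
      (∀ b : ℕ, 2 ≤ b → ∀ x : ℝ, Irrational x →
        (NormalIn b x ↔ ∀ m : ℕ, 1 ≤ m →
          Half fun n => 0 < Real.cos (2 * Real.pi * (m * ((b : ℝ) ^ n * x))))) ∧
      (∀ x : ℝ, (NormalIn 2 x ↔ ∀ m : ℕ, 1 ≤ m →
        Half fun n => digit 2 (m * x) n ≠ digit 2 (m * x) (n + 1)))) ∧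
    -- (3) arbitrarily sparse sets of multipliers, for all bases and all real numbers at once
    (∀ ω : ℕ → ℕ, Tendsto ω atTop atTop →
      ∃ M : Set ℕ, (∀ m ∈ M, 1 ≤ m) ∧ (∀ X : ℕ, (M ∩ Set.Iic X).ncard ≤ ω X) ∧
        (∀ b : ℕ, 2 ≤ b → ∀ x : ℝ,
          (NormalIn b x ↔ ∀ m ∈ M, Half fun n => InMiddle (m * ((b : ℝ) ^ n * x)))) ∧
        (NormalIn 10 Real.pi ↔ ∀ m ∈ M,
          Half fun n => 0 < Real.cos (2 * Real.pi * (m * ((10 : ℝ) ^ n * Real.pi))))) ∧
    -- (4) arbitrary sequences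
    (∀ y : ℕ → ℝ, (UniformlyDistributed y ↔ ∀ m : ℕ, 1 ≤ m →
      (Half fun n => InMiddle (m * y n)) ∧ Half fun n => InLower (m * y n))) ∧
    -- (5) quantitative form
    (∀ A : ℕ, ∃ C : ℝ, 0 < C ∧ ∀ K : ℕ, 2 ≤ K → ∀ N : ℕ, 1 ≤ N → ∀ y : ℕ → ℝ,
      |(∑ n ∈ Finset.range N, Real.cos (2 * Real.pi * y n)) / N| ≤ C / Real.log K ^ A +
        ∑ k ∈ (Finset.Icc 1 K).filter (fun k => k % 2 = 1),
          |1 - 2 * ((count (fun n => InMiddle (k * y n)) N : ℝ) / N)| / k) ∧
    (∀ A : ℕ, ∃ C : ℝ, 0 < C ∧ ∀ K : ℕ, 2 ≤ K → ∀ N : ℕ, 1 ≤ N → ∀ y : ℕ → ℝ,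
      |(∑ n ∈ Finset.range N, Real.sin (2 * Real.pi * y n)) / N| ≤ C / Real.log K ^ A +
        ∑ k ∈ (Finset.Icc 1 K).filter (fun k => k % 2 = 1),
          |1 - 2 * ((count (fun n => InLower (k * y n)) N : ℝ) / N)| / k) ∧
    -- (6) one digit of all multiples is not enough
    (¬ NormalIn 2 thueMorseNumber ∧ ∀ m : ℕ, 1 ≤ m → ∀ d : ℕ, d < 2 →
      Half fun n => digit 2 (m * thueMorseNumber) n = d) := by
  have c10 : ((10 : ℕ) : ℝ) = (10 : ℝ) := by norm_num
  have hpi : Irrational Real.pi := irrational_pi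
  have hT : Q190.OB.TM.T = thueMorseNumber := by
    unfold Q190.OB.TM.T Q190.OB.TM.R thueMorseNumber
    simp only [Nat.zero_add]
    rfl
  rw [← hT]
  refine ⟨⟨?_, ten Real.pi⟩, ⟨one, oneCos, two⟩, fun ω hω => ?_, fun y => ?_, fun A => ?_,
    fun A => ?_, Q190.OB.TM.not_normal, fun m hm d hd => ?_⟩
  · have h := oneCos 10 (by norm_num) Real.pi hpi
    rw [c10] at h
    exact h
  · obtain ⟨M, h1, h2, h3⟩ := Q190.OB.universal ω hω
    simp only [tst_count] at h3
    refine ⟨M, h1, h2, h3, ?_⟩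
    have h4 := h3 10 (by norm_num) Real.pi
    refine h4.trans (forall_congr' fun m => forall_congr' fun hm => ?_)
    have h5 : ∀ N : ℕ, count (fun n => InMiddle (m * (((10 : ℕ) : ℝ) ^ n * Real.pi))) N +
        count (fun n => 0 < Real.cos (2 * Real.pi * (m * (((10 : ℕ) : ℝ) ^ n * Real.pi)))) N = N := by
      intro N
      have h6 := Q190.OB.pos_add 10 (by norm_num) Real.pi hpi m (h1 m hm) N
      rw [tst_count, pos_count] at h6
      exact h6
    rw [c10] at h5
    rw [c10]
    constructor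
    · intro h
      have h7 := h.const_sub 1
      have e1 : (1 : ℝ) - 1 / 2 = 1 / 2 := by norm_num
      rw [e1] at h7
      refine h7.congr' ?_
      filter_upwards [eventually_ge_atTop 1] with N hN
      have hNr : (0 : ℝ) < N := by exact_mod_cast hN
      have h8 := h5 N
      rw [eq_div_iff hNr.ne', sub_mul, div_mul_cancel₀ _ hNr.ne', one_mul]
      have h9 : (count (fun n => InMiddle (m * ((10 : ℝ) ^ n * Real.pi))) N : ℝ) +
          (count (fun n => 0 < Real.cos (2 * Real.pi * (m * ((10 : ℝ) ^ n * Real.pi)))) N : ℝ) = N := by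
        exact_mod_cast h8
      linarith
    · intro h
      have h7 := h.const_sub 1
      have e1 : (1 : ℝ) - 1 / 2 = 1 / 2 := by norm_num
      rw [e1] at h7
      refine h7.congr' ?_
      filter_upwards [eventually_ge_atTop 1] with N hN
      have hNr : (0 : ℝ) < N := by exact_mod_cast hN
      have h8 := h5 N
      rw [eq_div_iff hNr.ne', sub_mul, div_mul_cancel₀ _ hNr.ne', one_mul]
      have h9 : (count (fun n => InMiddle (m * ((10 : ℝ) ^ n * Real.pi))) N : ℝ) +
          (count (fun n => 0 < Real.cos (2 * Real.pi * (m * ((10 : ℝ) ^ n * Real.pi)))) N : ℝ) = N := by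
        exact_mod_cast h8
      linarith
  · rw [← ud_eq, Q190.OB.ud_iff]
    simp only [mid_count, low_count]
    rfl
  · obtain ⟨C, hC, h⟩ := Q190.OB.cos_mid A
    simp only [mid_count] at h
    exact ⟨C, hC, h⟩
  · obtain ⟨C, hC, h⟩ := Q190.OB.sin_low A
    simp only [low_count] at h
    exact ⟨C, hC, h⟩
  · have h := Q190.OB.TM.simply m hm d hd
    refine h.congr fun N => ?_
    classical
    rw [count_eq]
    congr

end Pool.Agent.Results.MP_57632f_nt.OneBitWeyl
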