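import Mathlib

/-!
# Algebra for perpendicular quadrisecting chords
-/

set_option autoImplicit false

namespace Q190.QC

/-- the data of one quadrant -/
structure Quad (l a b X Y : ℝ) : Prop where
  chord : a ^ 2 + b ^ 2 ≤ l ^ 2
  ineq : l * (1 - X * Y - X - Y) ≤ (a + b) * (1 + X * Y) + (b - a) * (X - Y)
  sX : 0 ≤ a * (1 - X ^ 2) + 2 * b * X
  sY : 0 ≤ b * (1 - Y ^ 2) + 2 * a * Y

def al (l a b X : ℝ) : ℝ := (l + a) * (1 + X) - b * (1 - X)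
def be (l a b X : ℝ) : ℝ := b * (1 + X) - (l - a) * (1 - X)

theorem al_nonneg {l a b X : ℝ} (hl : 0 < l) (hb : 0 < b) (h1 : -1 < X)
    (hc : a ^ 2 + b ^ 2 ≤ l ^ 2) (hs : 0 ≤ a * (1 - X ^ 2) + 2 * b * X) : 0 ≤ al l a b X := by
  unfold al
  have hu : 0 < 1 + X := by linarith
  have key : (b * (1 - X) - a * (1 + X)) ^ 2 ≤ (l * (1 + X)) ^ 2 := by
    have e1 : (l * (1 + X)) ^ 2 - (b * (1 - X) - a * (1 + X)) ^ 2 =
        (l ^ 2 - (a ^ 2 + b ^ 2)) * (1 + X) ^ 2 + 2 * b * (a * (1 - X ^ 2) + 2 * b * X) := by ring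
    have e2 : 0 ≤ (l ^ 2 - (a ^ 2 + b ^ 2)) * (1 + X) ^ 2 :=
      mul_nonneg (by linarith) (sq_nonneg _)
    have e3 : 0 ≤ 2 * b * (a * (1 - X ^ 2) + 2 * b * X) := by positivity
    linarith
  have := abs_le_of_sq_le_sq' key (by positivity)
  linarith [this.2]

theorem al_pos {l a b X : ℝ} (hl : 0 < l) (hb : 0 < b) (h1 : -1 < X)
    (hc : a ^ 2 + b ^ 2 < l ^ 2) (hs : 0 ≤ a * (1 - X ^ 2) + 2 * b * X) : 0 < al l a b X := by
  unfold al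
  have hu : 0 < 1 + X := by linarith
  have key : (b * (1 - X) - a * (1 + X)) ^ 2 < (l * (1 + X)) ^ 2 := by
    have e1 : (l * (1 + X)) ^ 2 - (b * (1 - X) - a * (1 + X)) ^ 2 =
        (l ^ 2 - (a ^ 2 + b ^ 2)) * (1 + X) ^ 2 + 2 * b * (a * (1 - X ^ 2) + 2 * b * X) := by ring
    have e2 : 0 < (l ^ 2 - (a ^ 2 + b ^ 2)) * (1 + X) ^ 2 :=
      mul_pos (by linarith) (by positivity)
    have e3 : 0 ≤ 2 * b * (a * (1 - X ^ 2) + 2 * b * X) := by positivity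
    linarith
  have := abs_lt_of_sq_lt_sq' key (by positivity)
  linarith [this.2]

theorem ineq_iff {l a b X Y : ℝ} (h : Quad l a b X Y) : 0 ≤ Y * al l a b X + be l a b X := by
  have := h.ineq
  unfold al be
  nlinarith [this]

theorem ineq_iff' {l a b X Y : ℝ} (h : Quad l a b X Y) : 0 ≤ X * al l b a Y + be l b a Y := by
  have := h.ineq
  unfold al be
  nlinarith [this]

theorem lt_of_chord {l a b : ℝ} (hl : 0 < l) (ha : 0 < a) (hc : a ^ 2 + b ^ 2 ≤ l ^ 2) :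
    b < l := by nlinarith

/-- the basic identity -/
theorem be_id (l a b d X : ℝ) : be l a b X * ((l + a) ^ 2 - b * d) =
    (l * (b - d) + a * (b + d)) * al l a b X - (l ^ 2 - a ^ 2 - b ^ 2) * al l a d (-X) := by
  unfold al be; ring

/-- `Θ` -/
def Th (l a b c d : ℝ) : ℝ := l ^ 4 + l ^ 2 * (a ^ 2 + b ^ 2 + c ^ 2 + d ^ 2 - 4 * a * c - 4 * b * d) +
  (a * c - b * d) ^ 2 - a * c * (b ^ 2 + d ^ 2) - b * d * (a ^ 2 + c ^ 2)

def k0 (l a b c d : ℝ) : ℝ := ((l + c) ^ 2 - b * d) * (l * (b - d) + a * (b + d)) +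
  ((l + a) ^ 2 - b * d) * (l * (b - d) + c * (b + d))

theorem k_id (l a b c d : ℝ) : k0 l a b c d * k0 l a d c b -
    ((l + c) ^ 2 - b * d) ^ 2 * ((l ^ 2 - a ^ 2 - b ^ 2) * (l ^ 2 - a ^ 2 - d ^ 2)) -
    ((l + a) ^ 2 - b * d) ^ 2 * ((l ^ 2 - b ^ 2 - c ^ 2) * (l ^ 2 - c ^ 2 - d ^ 2)) =
    -2 * ((l + a) ^ 2 - b * d) * ((l + c) ^ 2 - b * d) * Th l a b c d := by
  unfold k0 Th; ring

/-- the final estimate -/
theorem Th_pos {l a b c d Δ : ℝ} (ha : 0 < a) (hb : 0 < b) (hc : 0 < c) (hd : 0 < d) (hl : 0 < l)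
    (h1 : a ^ 2 + b ^ 2 ≤ l ^ 2) (h2 : b ^ 2 + c ^ 2 ≤ l ^ 2) (h3 : c ^ 2 + d ^ 2 ≤ l ^ 2)
    (h4 : a ^ 2 + d ^ 2 ≤ l ^ 2) (hΔ : 0 ≤ Δ)
    (hΔ2 : Δ ^ 2 = (l ^ 2 - a ^ 2 - b ^ 2) * (l ^ 2 - b ^ 2 - c ^ 2) * (l ^ 2 - c ^ 2 - d ^ 2) *
      (l ^ 2 - a ^ 2 - d ^ 2))
    (hs : a + b + c + d ≤ 2 * l) (hne : a + b + c + d < 2 * l ∨ a ≠ c ∨ b ≠ d) :
    0 < Th l a b c d + Δ := by
  obtain ⟨p, hp⟩ : ∃ p, p = (b + d) / 2 := ⟨_, rfl⟩
  obtain ⟨q, hq⟩ : ∃ q, q = (a + c) / 2 := ⟨_, rfl⟩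
  obtain ⟨m, hm⟩ : ∃ m, m = (d - b) / 2 := ⟨_, rfl⟩
  obtain ⟨n, hn⟩ : ∃ n, n = (c - a) / 2 := ⟨_, rfl⟩
  have ea : a = q - n := by rw [hq, hn]; ring
  have ec : c = q + n := by rw [hq, hn]; ring
  have eb : b = p - m := by rw [hp, hm]; ring
  have ed : d = p + m := by rw [hp, hm]; ring
  have hp0 : 0 < p := by rw [hp]; positivity
  have hq0 : 0 < q := by rw [hq]; positivity
  have hpq : p + q ≤ l := by rw [hp, hq]; linarith
  have hpq2 : (p + q) ^ 2 ≤ l ^ 2 := by nlinarith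
  have hSl : p ^ 2 + q ^ 2 < l ^ 2 := by nlinarith [mul_pos hp0 hq0]
  -- Δ ≥ κ² - 4 D S
  have hΔ3 : (l ^ 2 - (p ^ 2 + q ^ 2) - (m ^ 2 + n ^ 2)) ^ 2 - 4 * (m ^ 2 + n ^ 2) * (p ^ 2 + q ^ 2)
      ≤ Δ := by
    by_contra hcon
    push Not at hcon
    set κ := l ^ 2 - (p ^ 2 + q ^ 2) - (m ^ 2 + n ^ 2) with hκ
    have e1 : Δ ^ 2 = (κ ^ 2 - 4 * (q * n + p * m) ^ 2) * (κ ^ 2 - 4 * (p * m - q * n) ^ 2) := by
      rw [hΔ2, ea, eb, ec, ed, hκ]; ring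
    set T := κ ^ 2 - 4 * (m ^ 2 + n ^ 2) * (p ^ 2 + q ^ 2) with hT
    have hT0 : 0 < T := lt_of_le_of_lt hΔ hcon
    have i1 : T ≤ κ ^ 2 - 4 * (q * n + p * m) ^ 2 := by
      rw [hT]; linarith [sq_nonneg (q * m - p * n)]
    have i2 : T ≤ κ ^ 2 - 4 * (p * m - q * n) ^ 2 := by
      rw [hT]; linarith [sq_nonneg (q * m + p * n)]
    have i3 : T * T ≤ Δ ^ 2 := by
      rw [e1]; exact mul_le_mul i1 i2 hT0.le (hT0.le.trans i1)
    have i4 : Δ * Δ < T * T := mul_self_lt_mul_self hΔ hcon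
    linarith [sq Δ]
  have hTh : Th l a b c d = (l ^ 2) ^ 2 - 2 * l ^ 2 * (p ^ 2 + q ^ 2) + (p ^ 2 - q ^ 2) ^ 2 -
      4 * p ^ 2 * q ^ 2 + 6 * l ^ 2 * (m ^ 2 + n ^ 2) - 2 * (p ^ 2 - q ^ 2) * (m ^ 2 - n ^ 2) +
      (m ^ 2 + n ^ 2) ^ 2 := by
    unfold Th; rw [ea, eb, ec, ed]; ring
  have hcross : (p ^ 2 - q ^ 2) * (m ^ 2 - n ^ 2) ≤ l ^ 2 * (m ^ 2 + n ^ 2) := by
    have j1 : (p ^ 2 - q ^ 2) * (m ^ 2 - n ^ 2) ≤ (p ^ 2 + q ^ 2) * (m ^ 2 + n ^ 2) := by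
      linarith [mul_nonneg (sq_nonneg p) (sq_nonneg n), mul_nonneg (sq_nonneg q) (sq_nonneg m)]
    have j2 : (p ^ 2 + q ^ 2) * (m ^ 2 + n ^ 2) ≤ l ^ 2 * (m ^ 2 + n ^ 2) :=
      mul_le_mul_of_nonneg_right hSl.le (by positivity)
    linarith
  have hmain : 2 * (l ^ 2 - (p + q) ^ 2) * (l ^ 2 - (p - q) ^ 2) +
      2 * (m ^ 2 + n ^ 2) * (l ^ 2 - (p ^ 2 + q ^ 2) + (m ^ 2 + n ^ 2)) ≤ Th l a b c d + Δ := by
    rw [hTh]; linarith [hΔ3, hcross]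
  refine lt_of_lt_of_le ?_ hmain
  have hA : 0 ≤ l ^ 2 - (p + q) ^ 2 := by linarith
  have hB : 0 < l ^ 2 - (p - q) ^ 2 := by linarith [mul_pos hp0 hq0]
  have hC : 0 < l ^ 2 - (p ^ 2 + q ^ 2) + (m ^ 2 + n ^ 2) := by
    linarith [sq_nonneg m, sq_nonneg n]
  have hD : 0 ≤ m ^ 2 + n ^ 2 := by positivity
  rcases hne with h | h | h
  · have hA' : 0 < l ^ 2 - (p + q) ^ 2 := by
      have h5 : p + q < l := by rw [hp, hq]; linarith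
      have h6 := pow_lt_pow_left₀ h5 (by positivity) two_ne_zero
      linarith
    have g1 := mul_pos hA' hB
    have g2 := mul_nonneg hD hC.le
    linarith
  · have hD' : 0 < m ^ 2 + n ^ 2 := by
      have : n ≠ 0 := by
        intro h0; apply h; rw [hn] at h0; linarith
      positivity
    have g1 := mul_nonneg hA hB.le
    have g2 := mul_pos hD' hC
    linarith
  · have hD' : 0 < m ^ 2 + n ^ 2 := by
      have : m ≠ 0 := by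
        intro h0; apply h; rw [hm] at h0; linarith
      positivity
    have g1 := mul_nonneg hA hB.le
    have g2 := mul_pos hD' hC
    linarith


/-- pairing of two quadrants sharing the middle variable -/
theorem J_of {l a b c X Y Z : ℝ} (h1 : Quad l a b X Y) (h2 : Quad l c b Z (-Y))
    (hA : 0 ≤ al l a b X) (hC : 0 ≤ al l c b Z) :
    0 ≤ be l a b X * al l c b Z + be l c b Z * al l a b X := by
  have i1 := mul_nonneg (ineq_iff h1) hC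
  have i2 := mul_nonneg (ineq_iff h2) hA
  linarith

theorem U_of {l a b c d X Z : ℝ} (hDa : 0 < (l + a) ^ 2 - b * d) (hDc : 0 < (l + c) ^ 2 - b * d)
    (J : 0 ≤ be l a b X * al l c b Z + be l c b Z * al l a b X) :
    ((l + c) ^ 2 - b * d) * (l ^ 2 - a ^ 2 - b ^ 2) * (al l a d (-X) * al l c b Z) +
    ((l + a) ^ 2 - b * d) * (l ^ 2 - c ^ 2 - b ^ 2) * (al l c d (-Z) * al l a b X) ≤
      k0 l a b c d * (al l a b X * al l c b Z) := by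
  have e1 := be_id l a b d X
  have e2 := be_id l c b d Z
  have i := mul_nonneg (mul_pos hDa hDc).le J
  have e3 : ((l + a) ^ 2 - b * d) * ((l + c) ^ 2 - b * d) *
      (be l a b X * al l c b Z + be l c b Z * al l a b X) =
      ((l + c) ^ 2 - b * d) * al l c b Z * (be l a b X * ((l + a) ^ 2 - b * d)) +
      ((l + a) ^ 2 - b * d) * al l a b X * (be l c b Z * ((l + c) ^ 2 - b * d)) := by ring
  rw [e3, e1, e2] at i
  unfold k0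
  linarith

end Q190.QC
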