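import Pool.Agent.Q190.QCAlg

/-!
# Algebra for perpendicular quadrisecting chords, part 2
-/

set_option autoImplicit false

namespace Q190.QC

/-- the four quadrants together -/
structure Sys (l a b c d X Y Z W : ℝ) : Prop where
  l0 : 0 < l
  a0 : 0 < a
  b0 : 0 < b
  c0 : 0 < c
  d0 : 0 < d
  X1 : -1 < X
  X2 : X < 1
  Y1 : -1 < Y
  Y2 : Y < 1
  Z1 : -1 < Z
  Z2 : Z < 1
  W1 : -1 < W
  W2 : W < 1
  q1 : Quad l a b X Y
  q2 : Quad l c b Z (-Y)
  q3 : Quad l c d (-Z) W
  q4 : Quad l a d (-X) (-W)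

variable {l a b c d X Y Z W : ℝ}

/-- reflection exchanging the two endpoints of the second chord -/
theorem Sys.refl1 (h : Sys l a b c d X Y Z W) : Sys l a d c b (-X) (-W) (-Z) (-Y) where
  l0 := h.l0
  a0 := h.a0
  b0 := h.d0
  c0 := h.c0
  d0 := h.b0
  X1 := by linarith [h.X2]
  X2 := by linarith [h.X1]
  Y1 := by linarith [h.W2]
  Y2 := by linarith [h.W1]
  Z1 := by linarith [h.Z2]
  Z2 := by linarith [h.Z1]
  W1 := by linarith [h.Y2]
  W2 := by linarith [h.Y1]
  q1 := h.q4
  q2 := by rw [neg_neg]; exact h.q3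
  q3 := by rw [neg_neg]; exact h.q2
  q4 := by rw [neg_neg, neg_neg]; exact h.q1

/-- reflection exchanging the two endpoints of the first chord -/
theorem Sys.refl2 (h : Sys l a b c d X Y Z W) : Sys l c b a d Z (-Y) X (-W) where
  l0 := h.l0
  a0 := h.c0
  b0 := h.b0
  c0 := h.a0
  d0 := h.d0
  X1 := h.Z1
  X2 := h.Z2
  Y1 := by linarith [h.Y2]
  Y2 := by linarith [h.Y1]
  Z1 := h.X1
  Z2 := h.X2
  W1 := by linarith [h.W2]
  W2 := by linarith [h.W1]
  q1 := h.q2
  q2 := by rw [neg_neg]; exact h.q1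
  q3 := h.q4
  q4 := by rw [neg_neg]; exact h.q3

theorem Sys.al1 (h : Sys l a b c d X Y Z W) : 0 ≤ al l a b X :=
  al_nonneg h.l0 h.b0 h.X1 h.q1.chord h.q1.sX

theorem Sys.al2 (h : Sys l a b c d X Y Z W) : 0 ≤ al l c b Z := h.refl2.al1
theorem Sys.al3 (h : Sys l a b c d X Y Z W) : 0 ≤ al l c d (-Z) := h.refl2.refl1.al1
theorem Sys.al4 (h : Sys l a b c d X Y Z W) : 0 ≤ al l a d (-X) := h.refl1.al1

theorem Sys.Da (h : Sys l a b c d X Y Z W) : 0 < (l + a) ^ 2 - b * d := by
  have hb : b < l := lt_of_chord h.l0 h.a0 h.q1.chord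
  have hd : d < l := lt_of_chord h.l0 h.a0 h.q4.chord
  have h1 := mul_lt_mul'' hb hd h.b0.le h.d0.le
  have h2 := mul_pos h.l0 h.a0
  have h3 := mul_pos h.a0 h.a0
  linarith [sq (l + a), add_mul_self_eq l a]

theorem Sys.Dc (h : Sys l a b c d X Y Z W) : 0 < (l + c) ^ 2 - b * d := h.refl2.Da

theorem Sys.U (h : Sys l a b c d X Y Z W) :
    ((l + c) ^ 2 - b * d) * (l ^ 2 - a ^ 2 - b ^ 2) * (al l a d (-X) * al l c b Z) +
    ((l + a) ^ 2 - b * d) * (l ^ 2 - c ^ 2 - b ^ 2) * (al l c d (-Z) * al l a b X) ≤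
      k0 l a b c d * (al l a b X * al l c b Z) :=
  U_of h.Da h.Dc (J_of h.q1 h.q2 h.al1 h.al2)

/-- the generic case -/
theorem Sys.nondeg (h : Sys l a b c d X Y Z W) (h1 : 0 < al l a b X) (h2 : 0 < al l c b Z)
    (h3 : 0 < al l c d (-Z)) (h4 : 0 < al l a d (-X))
    (hs : a + b + c + d ≤ 2 * l) (hne : a + b + c + d < 2 * l ∨ a ≠ c ∨ b ≠ d) : False := by
  have e1 : 0 ≤ l ^ 2 - a ^ 2 - b ^ 2 := by linarith [h.q1.chord]
  have e2 : 0 ≤ l ^ 2 - b ^ 2 - c ^ 2 := by linarith [h.q2.chord]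
  have e3 : 0 ≤ l ^ 2 - c ^ 2 - d ^ 2 := by linarith [h.q3.chord]
  have e4 : 0 ≤ l ^ 2 - a ^ 2 - d ^ 2 := by linarith [h.q4.chord]
  have U := h.U
  have U' := h.refl1.U
  rw [neg_neg, neg_neg] at U'
  have hDa := h.Da
  have hDc := h.Dc
  have id1 := k_id l a b c d
  rw [show l ^ 2 - c ^ 2 - b ^ 2 = l ^ 2 - b ^ 2 - c ^ 2 by ring] at U
  rw [mul_comm d b] at U'
  generalize hE1 : l ^ 2 - a ^ 2 - b ^ 2 = E1 at *
  generalize hE2 : l ^ 2 - b ^ 2 - c ^ 2 = E2 at *
  generalize hE3 : l ^ 2 - c ^ 2 - d ^ 2 = E3 at *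
  generalize hE4 : l ^ 2 - a ^ 2 - d ^ 2 = E4 at *
  obtain ⟨Δ, hΔ⟩ : ∃ Δ, Δ = Real.sqrt (E1 * E2 * E3 * E4) := ⟨_, rfl⟩
  have hΔ0 : 0 ≤ Δ := by rw [hΔ]; exact Real.sqrt_nonneg _
  have hΔ2 : Δ ^ 2 = E1 * E2 * E3 * E4 := by rw [hΔ]; exact Real.sq_sqrt (by positivity)
  have hT : 0 < Th l a b c d + Δ := Th_pos h.a0 h.b0 h.c0 h.d0 h.l0 (by linarith) (by linarith)
    (by linarith) (by linarith) hΔ0 (by rw [hE1, hE2, hE3, hE4]; exact hΔ2) hs hne
  generalize (l + a) ^ 2 - b * d = Da at *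
  generalize (l + c) ^ 2 - b * d = Dc at *
  generalize al l a b X = A1 at *
  generalize al l c b Z = A2 at *
  generalize al l c d (-Z) = A3 at *
  generalize al l a d (-X) = A4 at *
  generalize k0 l a b c d = K at *
  generalize k0 l a d c b = K' at *
  generalize Th l a b c d = T at *
  have hP : 0 < A1 * A3 := mul_pos h1 h3
  have hQ : 0 < A2 * A4 := mul_pos h2 h4
  have m1 : (Dc * E1 * (A4 * A2) + Da * E2 * (A3 * A1)) * (Dc * E4 * (A1 * A3) + Da * E3 * (A2 * A4))
      ≤ (K * (A1 * A2)) * (K' * (A4 * A3)) := by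
    apply mul_le_mul _ _ (by positivity) _
    · linarith
    · linarith
    · refine le_trans ?_ U
      positivity
  have m2 : 2 * Δ * (A1 * A3) * (A2 * A4) ≤ E1 * E3 * (A2 * A4) ^ 2 + E2 * E4 * (A1 * A3) ^ 2 := by
    have g1 : (2 * Δ * (A1 * A3) * (A2 * A4)) ^ 2 ≤
        (E1 * E3 * (A2 * A4) ^ 2 + E2 * E4 * (A1 * A3) ^ 2) ^ 2 := by
      have g2 : (2 * Δ * (A1 * A3) * (A2 * A4)) ^ 2 =
          4 * (E1 * E3 * (A2 * A4) ^ 2) * (E2 * E4 * (A1 * A3) ^ 2) := by
        linear_combination 4 * (A1 * A3) ^ 2 * (A2 * A4) ^ 2 * hΔ2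
      rw [g2]
      linarith [sq_nonneg (E1 * E3 * (A2 * A4) ^ 2 - E2 * E4 * (A1 * A3) ^ 2)]
    exact (abs_le_of_sq_le_sq' g1 (by positivity)).2
  have m3 := mul_le_mul_of_nonneg_left m2 (mul_pos hDa hDc).le
  have m4 : 0 ≤ (A1 * A3) * (A2 * A4) * (K * K' - Dc ^ 2 * (E1 * E4) - Da ^ 2 * (E2 * E3) -
      2 * Da * Dc * Δ) := by linarith
  rw [id1] at m4
  have m5 : 0 < (A1 * A3) * (A2 * A4) * (2 * Da * Dc * (T + Δ)) := by positivity
  linarith

/-- the degenerate case -/
theorem Sys.deg (h : Sys l a b c d X Y Z W) (h1 : al l a b X = 0)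
    (hs : a + b + c + d ≤ 2 * l) : False := by
  have hl := h.l0
  have ha := h.a0
  have hb := h.b0
  have hc := h.c0
  have hd := h.d0
  have hX1 := h.X1
  have hbl : b < l := lt_of_chord h.l0 h.a0 h.q1.chord
  have hdl : d < l := lt_of_chord h.l0 h.a0 h.q4.chord
  have E1 : a ^ 2 + b ^ 2 = l ^ 2 := by
    by_contra hne
    have := al_pos h.l0 h.b0 h.X1 (lt_of_le_of_ne h.q1.chord hne) h.q1.sX
    exact this.ne' h1
  have hX0 : X < 0 := by
    unfold al at h1
    by_contra hcon
    push Not at hcon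
    have := mul_nonneg hcon hl.le
    have := mul_nonneg hcon ha.le
    have := mul_nonneg hcon hb.le
    linarith
  have hA4 : 0 < al l a d (-X) := by
    unfold al
    have g1 : 0 < (l - d) * (1 + -(-X)) := mul_pos (by linarith) (by linarith)
    have g2 : 0 < l * (-2 * X) := mul_pos hl (by linarith)
    have g3 : 0 < a * (1 + -X) := mul_pos ha (by linarith)
    linarith
  have hab : l < a + b := by
    have := mul_pos ha hb
    by_contra hcon
    push Not at hcon
    have h5 := pow_le_pow_left₀ (by positivity) hcon 2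
    linarith [h5, add_sq a b]
  have hcd : c + d < l := by linarith
  have E3 : c ^ 2 + d ^ 2 < l ^ 2 := by
    have h5 := pow_lt_pow_left₀ hcd (by positivity) two_ne_zero
    linarith [add_sq c d, mul_pos hc hd]
  have hA3 : 0 < al l c d (-Z) :=
    al_pos hl hd (by linarith [h.Z2]) E3 h.q3.sX
  have hA2 := h.al2
  have hB1 : 0 ≤ al l b a Y := al_nonneg hl ha h.Y1 (by linarith [h.q1.chord]) h.q1.sY
  have I2 := ineq_iff h.q2
  have K : 0 ≤ (l + b - a) * al l c b Z + (l + a + b) * be l c b Z := by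
    have g1 := mul_nonneg hA2 hB1
    have g2 := mul_nonneg (show 0 ≤ l + a + b by positivity) I2
    have g3 : al l b a Y = (l + a + b) * Y + (l + b - a) := by unfold al; ring
    rw [g3] at g1
    linarith
  have hDa := h.Da
  have hDc := h.Dc
  have id2 := be_id l c b d Z
  have id3 : (l + b - a) * ((l + a) ^ 2 - b * d) =
      (l + a + b) * (l * (b - d) + a * (b + d)) + (l + a + d) * (l ^ 2 - a ^ 2 - b ^ 2) := by ring
  have e1 : l ^ 2 - a ^ 2 - b ^ 2 = 0 := by linarith
  rw [e1, mul_zero, add_zero] at id3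
  have V : ((l + a) ^ 2 - b * d) * (l ^ 2 - c ^ 2 - b ^ 2) * al l c d (-Z) ≤
      k0 l a b c d * al l c b Z := by
    have g1 := mul_nonneg (mul_pos hDa hDc).le K
    have g2 : (((l + a) ^ 2 - b * d) * ((l + c) ^ 2 - b * d)) *
        ((l + b - a) * al l c b Z + (l + a + b) * be l c b Z) =
        ((l + c) ^ 2 - b * d) * al l c b Z * ((l + b - a) * ((l + a) ^ 2 - b * d)) +
        ((l + a) ^ 2 - b * d) * (l + a + b) * (be l c b Z * ((l + c) ^ 2 - b * d)) := by ring
    rw [g2, id3, id2] at g1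
    have g3 : 0 ≤ (l + a + b) * (k0 l a b c d * al l c b Z -
        ((l + a) ^ 2 - b * d) * (l ^ 2 - c ^ 2 - b ^ 2) * al l c d (-Z)) := by
      unfold k0; linarith
    have g4 := nonneg_of_mul_nonneg_right g3 (show 0 < l + a + b by positivity)
    linarith
  have V' : ((l + a) ^ 2 - b * d) * (l ^ 2 - c ^ 2 - d ^ 2) * al l c b Z ≤
      k0 l a d c b * al l c d (-Z) := by
    have U' := h.refl1.U
    rw [neg_neg, neg_neg, h1, mul_comm d b] at U'
    have g3 : 0 ≤ al l a d (-X) * (k0 l a d c b * al l c d (-Z) -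
        ((l + a) ^ 2 - b * d) * (l ^ 2 - c ^ 2 - d ^ 2) * al l c b Z) := by
      linarith
    have g4 := nonneg_of_mul_nonneg_right g3 hA4
    linarith
  have e2 : 0 ≤ l ^ 2 - c ^ 2 - b ^ 2 := by linarith [h.q2.chord]
  have e3 : 0 < l ^ 2 - c ^ 2 - d ^ 2 := by linarith
  have e4 : 0 ≤ l ^ 2 - a ^ 2 - d ^ 2 := by linarith [h.q4.chord]
  have hT : 0 < Th l a b c d + 0 := by
    refine Th_pos h.a0 h.b0 h.c0 h.d0 h.l0 (by linarith) (by linarith)
      (by linarith) (by linarith) le_rfl (by rw [e1]; ring) hs ?_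
    by_contra hcon
    push Not at hcon
    linarith [hcon.1, hcon.2.1, hcon.2.2]
  rw [add_zero] at hT
  have hT2 : 0 < ((l + a) ^ 2 - b * d) * ((l + c) ^ 2 - b * d) * Th l a b c d := by positivity
  have id1 := k_id l a b c d
  rcases hA2.lt_or_eq with hA2 | hA2
  · have m1 : (((l + a) ^ 2 - b * d) * (l ^ 2 - c ^ 2 - b ^ 2) * al l c d (-Z)) *
      (((l + a) ^ 2 - b * d) * (l ^ 2 - c ^ 2 - d ^ 2) * al l c b Z) ≤
      (k0 l a b c d * al l c b Z) * (k0 l a d c b * al l c d (-Z)) := by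
      apply mul_le_mul V V' (by positivity)
      refine le_trans ?_ V
      positivity
    have m2 : 0 ≤ (al l c b Z * al l c d (-Z)) * (k0 l a b c d * k0 l a d c b -
        ((l + a) ^ 2 - b * d) ^ 2 * ((l ^ 2 - b ^ 2 - c ^ 2) * (l ^ 2 - c ^ 2 - d ^ 2))) := by
      linarith
    have m3 := nonneg_of_mul_nonneg_right m2 (mul_pos hA2 hA3)
    rw [e1] at id1
    linarith
  · have e2' : l ^ 2 - c ^ 2 - b ^ 2 = 0 := by
      by_contra hne
      have := al_pos h.l0 h.b0 h.Z1 (lt_of_le_of_ne h.q2.chord (fun h0 => hne (by linarith)))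
        h.q2.sX
      exact this.ne hA2
    have hac : a = c := by
      have : a ^ 2 = c ^ 2 := by linarith
      exact (pow_left_inj₀ ha.le hc.le two_ne_zero).1 this
    have hdb : d ≤ b := by
      have : d ^ 2 ≤ b ^ 2 := by linarith
      exact (pow_le_pow_iff_left₀ hd.le hb.le two_ne_zero).1 this
    have k1 : 0 ≤ k0 l a d c b := by
      rw [← hA2, mul_zero] at V'
      exact nonneg_of_mul_nonneg_left V' hA3
    have k2 : 0 ≤ k0 l a b c d := by
      unfold k0
      rw [← hac] at hDc ⊢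
      have : 0 ≤ l * (b - d) + a * (b + d) := by
        have := mul_nonneg hl.le (sub_nonneg.2 hdb)
        positivity
      positivity
    have k3 := mul_nonneg k2 k1
    rw [e1, show l ^ 2 - b ^ 2 - c ^ 2 = 0 by linarith] at id1
    linarith

/-- **Algebraic core.** -/
theorem Sys.main (h : Sys l a b c d X Y Z W) : 2 * l ≤ a + b + c + d ∧
    (2 * l = a + b + c + d → a = c ∧ b = d ∧ X = 0 ∧ Y = 0 ∧ Z = 0 ∧ W = 0) := by
  have key : a + b + c + d ≤ 2 * l → 0 < al l a b X ∧ 0 < al l c b Z ∧ 0 < al l c d (-Z) ∧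
      0 < al l a d (-X) := by
    intro hs
    refine ⟨h.al1.lt_of_ne' fun h0 => h.deg h0 hs, h.al2.lt_of_ne' fun h0 => h.refl2.deg h0 ?_,
      h.al3.lt_of_ne' fun h0 => h.refl2.refl1.deg h0 ?_,
      h.al4.lt_of_ne' fun h0 => h.refl1.deg h0 ?_⟩ <;> linarith
  have key2 : a + b + c + d ≤ 2 * l → (a + b + c + d < 2 * l ∨ a ≠ c ∨ b ≠ d) → False := by
    intro hs hne
    obtain ⟨h1, h2, h3, h4⟩ := key hs
    exact h.nondeg h1 h2 h3 h4 hs hne
  constructor
  · by_contra hcon
    push Not at hcon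
    exact key2 hcon.le (Or.inl hcon)
  · intro heq
    have hac : a = c := by
      by_contra hne; exact key2 heq.ge (Or.inr (Or.inl hne))
    have hbd : b = d := by
      by_contra hne; exact key2 heq.ge (Or.inr (Or.inr hne))
    obtain ⟨h1, h2, h3, h4⟩ := key heq.ge
    have J1 := J_of h.q1 h.q2 h.al1 h.al2
    have J2 := J_of h.refl1.q1 h.refl1.q2 h.refl1.al1 h.refl1.al2
    subst hac
    subst hbd
    have hl : l = a + b := by linarith
    have ha := h.a0
    have hb := h.b0
    unfold al at h1 h2 h3 h4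
    unfold al be at J1 J2
    subst hl
    have p1 : 0 < (a + b) * X + a := by linarith
    have p2 : 0 < (a + b) * Z + a := by linarith
    have p3 : 0 < a - (a + b) * Z := by linarith
    have p4 : 0 < a - (a + b) * X := by linarith
    have J1' : 0 ≤ X * ((a + b) * Z + a) + Z * ((a + b) * X + a) := by
      have : 0 ≤ 4 * b * (X * ((a + b) * Z + a) + Z * ((a + b) * X + a)) := by linarith
      exact nonneg_of_mul_nonneg_right this (by positivity)
    have J2' : 0 ≤ -(X * (a - (a + b) * Z) + Z * (a - (a + b) * X)) := by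
      have : 0 ≤ 4 * b * (-(X * (a - (a + b) * Z) + Z * (a - (a + b) * X))) := by linarith
      exact nonneg_of_mul_nonneg_right this (by positivity)
    have hXZ : X = 0 ∧ Z = 0 := by
      have hprod : 0 ≤ X * Z := by
        have : 0 ≤ 4 * (a + b) * (X * Z) := by linarith
        exact nonneg_of_mul_nonneg_right this (by positivity)
      rcases le_total 0 X with hX | hX
      · rcases le_total 0 Z with hZ | hZ
        · have g1 := mul_nonneg hX p3.le
          have g2 := mul_nonneg hZ p4.le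
          have g3 : X * (a - (a + b) * Z) = 0 := by linarith
          have g4 : Z * (a - (a + b) * X) = 0 := by linarith
          exact ⟨(mul_eq_zero.1 g3).resolve_right p3.ne', (mul_eq_zero.1 g4).resolve_right p4.ne'⟩
        · have g0 : X * Z = 0 := le_antisymm (mul_nonpos_of_nonneg_of_nonpos hX hZ) hprod
          rcases mul_eq_zero.1 g0 with g | g
          · subst g
            refine ⟨rfl, ?_⟩
            have g1 : 0 ≤ Z * a := by linarith
            have g2 : 0 ≤ -(Z * a) := by linarith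
            have g3 : Z * a = 0 := by linarith
            exact (mul_eq_zero.1 g3).resolve_right ha.ne'
          · subst g
            refine ⟨?_, rfl⟩
            have g1 : 0 ≤ X * a := by linarith
            have g2 : 0 ≤ -(X * a) := by linarith
            have g3 : X * a = 0 := by linarith
            exact (mul_eq_zero.1 g3).resolve_right ha.ne'
      · rcases le_total 0 Z with hZ | hZ
        · have g0 : X * Z = 0 := le_antisymm (mul_nonpos_of_nonpos_of_nonneg hX hZ) hprod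
          rcases mul_eq_zero.1 g0 with g | g
          · subst g
            refine ⟨rfl, ?_⟩
            have g1 : 0 ≤ Z * a := by linarith
            have g2 : 0 ≤ -(Z * a) := by linarith
            have g3 : Z * a = 0 := by linarith
            exact (mul_eq_zero.1 g3).resolve_right ha.ne'
          · subst g
            refine ⟨?_, rfl⟩
            have g1 : 0 ≤ X * a := by linarith
            have g2 : 0 ≤ -(X * a) := by linarith
            have g3 : X * a = 0 := by linarith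
            exact (mul_eq_zero.1 g3).resolve_right ha.ne'
        · have g1 := mul_nonpos_of_nonpos_of_nonneg hX p2.le
          have g2 := mul_nonpos_of_nonpos_of_nonneg hZ p1.le
          have g3 : X * ((a + b) * Z + a) = 0 := by linarith
          have g4 : Z * ((a + b) * X + a) = 0 := by linarith
          exact ⟨(mul_eq_zero.1 g3).resolve_right p2.ne', (mul_eq_zero.1 g4).resolve_right p1.ne'⟩
    obtain ⟨rfl, rfl⟩ := hXZ
    have i1 := ineq_iff h.q1
    have i2 := ineq_iff h.q2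
    have i3 := ineq_iff h.q3
    have i4 := ineq_iff h.q4
    unfold al be at i1 i2 i3 i4
    refine ⟨rfl, rfl, rfl, ?_, rfl, ?_⟩
    · have g1 : 0 ≤ a * Y := by linarith
      have g2 : 0 ≤ -(a * Y) := by linarith
      have g3 : a * Y = 0 := by linarith
      exact (mul_eq_zero.1 g3).resolve_left ha.ne'
    · have g1 : 0 ≤ a * W := by linarith
      have g2 : 0 ≤ -(a * W) := by linarith
      have g3 : a * W = 0 := by linarith
      exact (mul_eq_zero.1 g3).resolve_left ha.ne'

end Q190.QC
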