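import Mathlib

/-!
# Perimeter-quadrisecting chords of a plane convex figure: definitions
-/

set_option autoImplicit false
open MeasureTheory Set
open scoped InnerProductSpace

namespace Q190.Quadrisect

/-- the Euclidean plane -/
abbrev Plane := EuclideanSpace ℝ (Fin 2)

/-- A *plane convex figure*: a compact convex set with nonempty interior. -/
structure IsConvexFigure (F : Set Plane) : Prop where
  isCompact : IsCompact F
  convex : Convex ℝ F
  interior_nonempty : (interior F).Nonempty

/-- The perimeter: the length (one-dimensional Hausdorff measure) of the boundary curve. -/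
noncomputable def perimeter (F : Set Plane) : ENNReal := μH[1] (frontier F)

/-- `γ` is a (continuous, 1-periodic) parametrisation of the closed boundary curve of `F`,
running through the boundary exactly once in each period. -/
structure IsBoundaryParam (F : Set Plane) (γ : ℝ → Plane) : Prop where
  continuous : Continuous γ
  periodic : Function.Periodic γ 1
  injOn : InjOn γ (Ico 0 1)
  range_eq : range γ = frontier F

/-- The chords `[p₁, q₁]` and `[p₂, q₂]` quadrisect the perimeter of `F`: the (distinct) points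
`p₁, p₂, q₁, q₂` occur in this cyclic order along the boundary curve and each of the four
boundary arcs between consecutive points has length a quarter of the perimeter. -/
def Quadrisects (F : Set Plane) (p₁ q₁ p₂ q₂ : Plane) : Prop :=
  ∃ (γ : ℝ → Plane) (t₁ t₂ t₃ t₄ : ℝ), IsBoundaryParam F γ ∧
    t₁ < t₂ ∧ t₂ < t₃ ∧ t₃ < t₄ ∧ t₄ < t₁ + 1 ∧
    γ t₁ = p₁ ∧ γ t₂ = p₂ ∧ γ t₃ = q₁ ∧ γ t₄ = q₂ ∧
    μH[1] (γ '' Icc t₁ t₂) = perimeter F / 4 ∧ μH[1] (γ '' Icc t₂ t₃) = perimeter F / 4 ∧
    μH[1] (γ '' Icc t₃ t₄) = perimeter F / 4 ∧ μH[1] (γ '' Icc t₄ (t₁ + 1)) = perimeter F / 4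

/-- The chords `[p₁, q₁]` and `[p₂, q₂]` are perpendicular. -/
def Perpendicular (p₁ q₁ p₂ q₂ : Plane) : Prop := ⟪q₁ - p₁, q₂ - p₂⟫_ℝ = 0

/-- `F` is a (solid, nondegenerate) rectangle with centre `c` and half-sides `u ⟂ v`. -/
def IsRectangle (F : Set Plane) : Prop :=
  ∃ c u v : Plane, u ≠ 0 ∧ v ≠ 0 ∧ ⟪u, v⟫_ℝ = 0 ∧
    F = {x | ∃ s t : ℝ, |s| ≤ 1 ∧ |t| ≤ 1 ∧ x = c + s • u + t • v}

end Q190.Quadrisect
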