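import Pool.Agent.Y508.PerimUp
import Pool.Agent.Q190.QCAlg

/-!
# One quadrant: length of a boundary arc between two support lines
-/

set_option autoImplicit false
open MeasureTheory Metric Set Filter Topology
open scoped ENNReal InnerProductSpace

namespace Q190.QC

abbrev E2 := EuclideanSpace ℝ (Fin 2)

/-- orthonormal frame -/
structure Frame (e f : E2) : Prop where
  e1 : ‖e‖ = 1
  f1 : ‖f‖ = 1
  ef : ⟪e, f⟫_ℝ = 0

theorem inner_E2 (x y : E2) : ⟪x, y⟫_ℝ = x 0 * y 0 + x 1 * y 1 := by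
  simp [PiLp.inner_apply, Fin.sum_univ_two, mul_comm]

theorem Frame.ee {e f : E2} (h : Frame e f) : ⟪e, e⟫_ℝ = 1 := by
  rw [real_inner_self_eq_norm_sq, h.e1, one_pow]
theorem Frame.ff {e f : E2} (h : Frame e f) : ⟪f, f⟫_ℝ = 1 := by
  rw [real_inner_self_eq_norm_sq, h.f1, one_pow]
theorem Frame.fe {e f : E2} (h : Frame e f) : ⟪f, e⟫_ℝ = 0 := by
  rw [real_inner_comm]; exact h.ef

theorem Frame.swap {e f : E2} (h : Frame e f) : Frame f e := ⟨h.f1, h.e1, h.fe⟩
theorem Frame.negl {e f : E2} (h : Frame e f) : Frame (-e) f :=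
  ⟨by rw [norm_neg]; exact h.e1, h.f1, by rw [inner_neg_left, h.ef, neg_zero]⟩
theorem Frame.negr {e f : E2} (h : Frame e f) : Frame e (-f) :=
  ⟨h.e1, by rw [norm_neg]; exact h.f1, by rw [inner_neg_right, h.ef, neg_zero]⟩

theorem Frame.expand {e f : E2} (h : Frame e f) (v : E2) : v = ⟪e, v⟫_ℝ • e + ⟪f, v⟫_ℝ • f := by
  have h1 := h.ee
  have h2 := h.ff
  have h3 := h.ef
  rw [inner_E2] at h1 h2 h3
  have k1 : e 0 ^ 2 + f 0 ^ 2 = 1 := by
    linear_combination (1 - f 0 ^ 2) * h1 + e 1 ^ 2 * h2 + (f 0 * e 0 - e 1 * f 1) * h3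
  have k2 : e 1 ^ 2 + f 1 ^ 2 = 1 := by linarith
  have k3 : e 0 * e 1 + f 0 * f 1 = 0 := by
    linear_combination (-(f 0 * f 1)) * h1 - e 0 * e 1 * h2 + (e 0 * f 1 + e 1 * f 0) * h3
  ext i
  fin_cases i
  · simp only [inner_E2, Fin.zero_eta, PiLp.add_apply, PiLp.smul_apply, smul_eq_mul]
    linear_combination (-(v 0)) * k1 - v 1 * k3
  · simp only [inner_E2, Fin.mk_one, PiLp.add_apply, PiLp.smul_apply, smul_eq_mul]
    linear_combination (-(v 1)) * k2 - v 0 * k3

theorem Frame.expand' {e f : E2} (h : Frame e f) (O z : E2) :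
    z = O + ⟪e, z - O⟫_ℝ • e + ⟪f, z - O⟫_ℝ • f := by
  rw [add_assoc, ← h.expand (z - O)]; abel

theorem Frame.norm_sq {e f : E2} (h : Frame e f) (s t : ℝ) : ‖s • e + t • f‖ ^ 2 = s ^ 2 + t ^ 2 := by
  rw [← real_inner_self_eq_norm_sq, inner_add_left, inner_add_right, inner_add_right]
  simp only [inner_smul_left, inner_smul_right, h.ee, h.ff, h.ef, h.fe]
  simp; ring

theorem seg_le' (c v : E2) (B : ℝ) (S : Set E2)
    (hS : S ⊆ (fun t : ℝ => c + t • v) '' Icc 0 B) :
    (μH[1] : Measure E2) S ≤ ENNReal.ofReal (‖v‖ * B) := by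
  have hl : LipschitzWith ‖v‖₊ (fun t : ℝ => c + t • v) := by
    apply LipschitzWith.of_dist_le_mul
    intro x y
    rw [dist_eq_norm, dist_eq_norm, add_sub_add_left_eq_sub, ← sub_smul, norm_smul, mul_comm]
    rfl
  calc (μH[1] : Measure E2) S ≤ μH[1] ((fun t : ℝ => c + t • v) '' Icc 0 B) := measure_mono hS
    _ ≤ ((‖v‖₊ : NNReal) : ℝ≥0∞) ^ (1:ℝ) * μH[1] (Icc 0 B) :=
      hl.hausdorffMeasure_image_le zero_le_one _
    _ = ENNReal.ofReal (‖v‖ * B) := by
      rw [hausdorffMeasure_real, Real.volume_Icc, ENNReal.rpow_one, sub_zero,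
        ENNReal.ofReal_mul (norm_nonneg _)]
      congr 1
      rw [ofReal_norm]; rfl

section
variable {F A : Set E2} {O e f : E2} {a b X Y l : ℝ}

theorem mem_int_of_lt (hFv : Convex ℝ F) (hO : O ∈ interior F) {u : E2} {s t : ℝ}
    (hp : O + t • u ∈ F) (hs : 0 ≤ s) (hst : s < t) : O + s • u ∈ interior F := by
  have ht : 0 < t := lt_of_le_of_lt hs hst
  have h1 := hFv.combo_interior_self_mem_interior hO hp (a := 1 - s / t) (b := s / t)
    (by rw [sub_pos, div_lt_one ht]; exact hst) (by positivity) (by ring)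
  have h2 : (1 - s / t) • O + (s / t) • (O + t • u) = O + s • u := by
    rw [smul_add, smul_smul, div_mul_cancel₀ _ ht.ne', ← add_assoc, ← add_smul]
    simp
  rwa [h2] at h1

/-- length of a boundary arc in a quadrant, nondegenerate situation -/
theorem arc_strict (hFc : IsCompact F) (hFv : Convex ℝ F) (hfr : Frame e f) (hO : O ∈ interior F)
    (ha : 0 < a) (hb : 0 < b) (hX1 : -1 < X) (hX2 : X < 1) (hY1 : -1 < Y) (hY2 : Y < 1)
    (hp : O + a • e ∈ F) (hq : O + b • f ∈ F)
    (hnX : ∀ z ∈ F, 0 ≤ ⟪e, z - O⟫_ℝ → 0 ≤ ⟪f, z - O⟫_ℝ →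
      (1 - X ^ 2) * (⟪e, z - O⟫_ℝ - a) - 2 * X * ⟪f, z - O⟫_ℝ ≤ 0)
    (hnY : ∀ z ∈ F, 0 ≤ ⟪e, z - O⟫_ℝ → 0 ≤ ⟪f, z - O⟫_ℝ →
      (1 - Y ^ 2) * (⟪f, z - O⟫_ℝ - b) - 2 * Y * ⟪e, z - O⟫_ℝ ≤ 0)
    (hA : A ⊆ frontier F) (hAq : ∀ z ∈ A, 0 ≤ ⟪e, z - O⟫_ℝ ∧ 0 ≤ ⟪f, z - O⟫_ℝ)
    (hl : ENNReal.ofReal l ≤ (μH[1] : Measure E2) A)
    (hd1 : 0 < 1 - X * Y - X - Y) (hd2 : 0 < 1 - X * Y + X + Y) :
    l * (1 - X * Y - X - Y) ≤ (a + b) * (1 + X * Y) + (b - a) * (X - Y) := by
  have hXX : 0 < 1 - X ^ 2 := by nlinarith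
  have hYY : 0 < 1 - Y ^ 2 := by nlinarith
  set x : E2 → ℝ := fun z => ⟪e, z - O⟫_ℝ with hx
  set y : E2 → ℝ := fun z => ⟪f, z - O⟫_ℝ with hy
  have hxc : Continuous x := by
    rw [hx]; exact continuous_const.inner (continuous_id.sub continuous_const)
  have hyc : Continuous y := by
    rw [hy]; exact continuous_const.inner (continuous_id.sub continuous_const)
  have hexp : ∀ z, z = O + x z • e + y z • f := fun z => hfr.expand' O z
  have hxp : ∀ s t : ℝ, x (O + s • e + t • f) = s := by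
    intro s t
    simp only [hx, add_assoc, add_sub_cancel_left, inner_add_right, inner_smul_right, hfr.ee,
      hfr.ef]
    ring
  have hyp : ∀ s t : ℝ, y (O + s • e + t • f) = t := by
    intro s t
    simp only [hy, add_assoc, add_sub_cancel_left, inner_add_right, inner_smul_right, hfr.ff,
      hfr.fe]
    ring
  have hxpe : x (O + a • e) = a := by have := hxp a 0; rwa [zero_smul, add_zero] at this
  have hype : y (O + a • e) = 0 := by have := hyp a 0; rwa [zero_smul, add_zero] at this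
  have hxqe : x (O + b • f) = 0 := by have := hxp 0 b; rwa [zero_smul, add_zero] at this
  have hyqe : y (O + b • f) = b := by have := hyp 0 b; rwa [zero_smul, add_zero] at this
  set D : ℝ := (1 - X ^ 2) * (1 - Y ^ 2) - 4 * X * Y with hD
  have hDe : D = (1 - X * Y - X - Y) * (1 - X * Y + X + Y) := by rw [hD]; ring
  have hD0 : 0 < D := by rw [hDe]; exact mul_pos hd1 hd2
  -- side constraints
  have sX : 0 ≤ a * (1 - X ^ 2) + 2 * b * X := by
    have := hnX _ hq (by change 0 ≤ x _; rw [hxqe]) (by change 0 ≤ y _; rw [hyqe]; exact hb.le)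
    change (1 - X ^ 2) * (x _ - a) - 2 * X * y _ ≤ 0 at this
    rw [hxqe, hyqe] at this
    linarith
  have sY : 0 ≤ b * (1 - Y ^ 2) + 2 * a * Y := by
    have := hnY _ hp (by change 0 ≤ x _; rw [hxpe]; exact ha.le) (by change 0 ≤ y _; rw [hype])
    change (1 - Y ^ 2) * (y _ - b) - 2 * Y * x _ ≤ 0 at this
    rw [hxpe, hype] at this
    linarith
  set K' : Set E2 := {z | 0 ≤ x z ∧ 0 ≤ y z ∧ (1 - X ^ 2) * (x z - a) - 2 * X * y z ≤ 0 ∧
    (1 - Y ^ 2) * (y z - b) - 2 * Y * x z ≤ 0} with hK'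
  have hn1c : Continuous fun z => (1 - X ^ 2) * (x z - a) - 2 * X * y z := by fun_prop
  have hn2c : Continuous fun z => (1 - Y ^ 2) * (y z - b) - 2 * Y * x z := by fun_prop
  have hK'cl : IsClosed K' := by
    have h1 := isClosed_le continuous_const hxc (f := fun _ : E2 => (0 : ℝ))
    have h2 := isClosed_le continuous_const hyc (f := fun _ : E2 => (0 : ℝ))
    have h3 := isClosed_le hn1c continuous_const (g := fun _ : E2 => (0 : ℝ))
    have h4 := isClosed_le hn2c continuous_const (g := fun _ : E2 => (0 : ℝ))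
    exact h1.inter (h2.inter (h3.inter h4))
  have hK'bd : K' ⊆ closedBall O ((a + (1 - Y ^ 2) * ((1 - X ^ 2) * a + 2 * |X| * b) / D) +
      (b + (1 - X ^ 2) * ((1 - Y ^ 2) * b + 2 * |Y| * a) / D)) := by
    rintro z ⟨hz1, hz2, hz3, hz4⟩
    have bx : x z ≤ a + (1 - Y ^ 2) * ((1 - X ^ 2) * a + 2 * |X| * b) / D := by
      rcases le_total X 0 with hX | hX
      · have g1 : 0 ≤ (1 - Y ^ 2) * ((1 - X ^ 2) * a + 2 * |X| * b) / D := by positivity
        have g2 : (1 - X ^ 2) * (x z - a) ≤ 0 := by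
          have := mul_nonneg (neg_nonneg.2 hX) hz2
          linarith
        have g3 : x z - a ≤ 0 := by
          by_contra hcon
          push Not at hcon
          have := mul_pos hXX hcon
          linarith
        linarith
      · rw [abs_of_nonneg hX]
        have g1 : D * x z ≤ (1 - Y ^ 2) * ((1 - X ^ 2) * a + 2 * X * b) := by
          have g2 := mul_nonpos_of_nonneg_of_nonpos hYY.le hz3
          have g3 := mul_nonpos_of_nonneg_of_nonpos (mul_nonneg zero_le_two hX) hz4
          rw [hD]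
          linarith
        have g4 : x z ≤ (1 - Y ^ 2) * ((1 - X ^ 2) * a + 2 * X * b) / D := by
          rw [le_div_iff₀ hD0]; linarith
        linarith
    have bY : y z ≤ b + (1 - X ^ 2) * ((1 - Y ^ 2) * b + 2 * |Y| * a) / D := by
      rcases le_total Y 0 with hY | hY
      · have g1 : 0 ≤ (1 - X ^ 2) * ((1 - Y ^ 2) * b + 2 * |Y| * a) / D := by positivity
        have g2 : (1 - Y ^ 2) * (y z - b) ≤ 0 := by
          have := mul_nonneg (neg_nonneg.2 hY) hz1
          linarith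
        have g3 : y z - b ≤ 0 := by
          by_contra hcon
          push Not at hcon
          have := mul_pos hYY hcon
          linarith
        linarith
      · rw [abs_of_nonneg hY]
        have g1 : D * y z ≤ (1 - X ^ 2) * ((1 - Y ^ 2) * b + 2 * Y * a) := by
          have g2 := mul_nonpos_of_nonneg_of_nonpos hXX.le hz4
          have g3 := mul_nonpos_of_nonneg_of_nonpos (mul_nonneg zero_le_two hY) hz3
          rw [hD]
          linarith
        have g4 : y z ≤ (1 - X ^ 2) * ((1 - Y ^ 2) * b + 2 * Y * a) / D := by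
          rw [le_div_iff₀ hD0]; linarith
        linarith
    rw [mem_closedBall, dist_eq_norm]
    have h5 : z - O = x z • e + y z • f := by
      conv_lhs => rw [hexp z]
      abel
    rw [h5]
    refine (norm_add_le _ _).trans ?_
    rw [norm_smul, norm_smul, hfr.e1, hfr.f1, mul_one, mul_one, Real.norm_eq_abs,
      Real.norm_eq_abs, abs_of_nonneg hz1, abs_of_nonneg hz2]
    linarith
  have hK'c : IsCompact K' :=
    (isCompact_closedBall O _).of_isClosed_subset hK'cl hK'bd
  have hfrK : frontier K' ⊆ {z | z ∈ K' ∧ (x z = 0 ∨ y z = 0 ∨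
      (1 - X ^ 2) * (x z - a) - 2 * X * y z = 0 ∨ (1 - Y ^ 2) * (y z - b) - 2 * Y * x z = 0)} := by
    intro z hz
    have hzK : z ∈ K' := hK'cl.frontier_subset hz
    refine ⟨hzK, ?_⟩
    by_contra hcon
    push Not at hcon
    apply hz.2
    rw [mem_interior]
    refine ⟨{z | 0 < x z ∧ 0 < y z ∧ (1 - X ^ 2) * (x z - a) - 2 * X * y z < 0 ∧
      (1 - Y ^ 2) * (y z - b) - 2 * Y * x z < 0}, ?_, ?_, ?_⟩
    · rintro w ⟨w1, w2, w3, w4⟩
      exact ⟨w1.le, w2.le, w3.le, w4.le⟩
    · have h1 := isOpen_lt continuous_const hxc (f := fun _ : E2 => (0 : ℝ))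
      have h2 := isOpen_lt continuous_const hyc (f := fun _ : E2 => (0 : ℝ))
      have h3 := isOpen_lt hn1c continuous_const (g := fun _ : E2 => (0 : ℝ))
      have h4 := isOpen_lt hn2c continuous_const (g := fun _ : E2 => (0 : ℝ))
      exact h1.inter (h2.inter (h3.inter h4))
    · exact ⟨lt_of_le_of_ne hzK.1 (Ne.symm hcon.1), lt_of_le_of_ne hzK.2.1 (Ne.symm hcon.2.1),
        lt_of_le_of_ne hzK.2.2.1 hcon.2.2.1, lt_of_le_of_ne hzK.2.2.2 hcon.2.2.2⟩
  set T1 : Set E2 := {z | z ∈ K' ∧ (1 - X ^ 2) * (x z - a) - 2 * X * y z = 0} with hT1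
  set T2 : Set E2 := {z | z ∈ K' ∧ (1 - Y ^ 2) * (y z - b) - 2 * Y * x z = 0} with hT2
  have hT1m : (μH[1] : Measure E2) T1 ≤
      ENNReal.ofReal ((1 + X ^ 2) * ((b * (1 - Y ^ 2) + 2 * a * Y) / D)) := by
    have hv : ‖(2 * X) • e + (1 - X ^ 2) • f‖ = 1 + X ^ 2 := by
      have h1 := hfr.norm_sq (2 * X) (1 - X ^ 2)
      have h2 : (2 * X) ^ 2 + (1 - X ^ 2) ^ 2 = (1 + X ^ 2) ^ 2 := by ring
      rw [h2] at h1
      exact (pow_left_inj₀ (norm_nonneg _) (by positivity) two_ne_zero).1 h1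
    rw [← hv]
    apply seg_le' (O + a • e)
    rintro z ⟨⟨hz1, hz2, hz3, hz4⟩, hz5⟩
    refine ⟨y z / (1 - X ^ 2), ⟨by positivity, ?_⟩, ?_⟩
    · rw [div_le_div_iff₀ hXX hD0]
      have g2 := mul_nonpos_of_nonneg_of_nonpos hXX.le hz4
      have g3 : (2 * Y) * ((1 - X ^ 2) * (x z - a) - 2 * X * y z) = 0 := by rw [hz5, mul_zero]
      rw [hD]
      linarith
    · simp only
      conv_rhs => rw [hexp z]
      have g1 : x z = a + 2 * X * (y z / (1 - X ^ 2)) := by
        field_simp
        linarith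
      have g2 : (y z / (1 - X ^ 2)) * (1 - X ^ 2) = y z := by field_simp
      rw [smul_add, smul_smul, smul_smul, g2, add_assoc O (x z • e), add_assoc O (a • e),
        ← add_assoc (a • e), ← add_smul]
      congr 3
      rw [g1]; ring
  have hT2m : (μH[1] : Measure E2) T2 ≤
      ENNReal.ofReal ((1 + Y ^ 2) * ((a * (1 - X ^ 2) + 2 * b * X) / D)) := by
    have hv : ‖(1 - Y ^ 2) • e + (2 * Y) • f‖ = 1 + Y ^ 2 := by
      have h1 := hfr.norm_sq (1 - Y ^ 2) (2 * Y)
      have h2 : (1 - Y ^ 2) ^ 2 + (2 * Y) ^ 2 = (1 + Y ^ 2) ^ 2 := by ring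
      rw [h2] at h1
      exact (pow_left_inj₀ (norm_nonneg _) (by positivity) two_ne_zero).1 h1
    rw [← hv]
    apply seg_le' (O + b • f)
    rintro z ⟨⟨hz1, hz2, hz3, hz4⟩, hz5⟩
    refine ⟨x z / (1 - Y ^ 2), ⟨by positivity, ?_⟩, ?_⟩
    · rw [div_le_div_iff₀ hYY hD0]
      have g2 := mul_nonpos_of_nonneg_of_nonpos hYY.le hz3
      have g3 : (2 * X) * ((1 - Y ^ 2) * (y z - b) - 2 * Y * x z) = 0 := by rw [hz5, mul_zero]
      rw [hD]
      linarith
    · simp only
      conv_rhs => rw [hexp z]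
      have g1 : y z = b + 2 * Y * (x z / (1 - Y ^ 2)) := by
        field_simp
        linarith
      have g2 : (x z / (1 - Y ^ 2)) * (1 - Y ^ 2) = x z := by field_simp
      rw [smul_add, smul_smul, smul_smul, g2, add_assoc O (x z • e), add_assoc O (b • f),
        add_left_comm (b • f), ← add_smul]
      congr 3
      rw [g1]; ring
  -- projection
  have hne : F.Nonempty := ⟨_, hp⟩
  obtain ⟨π, hπ1, hπ2⟩ := Pool.Agent.Y508.exists_proj hFv hFc hne
  have hsub : A ⊆ π '' (T1 ∪ T2) := by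
    intro z hz
    have hzF : z ∈ F := hFc.isClosed.frontier_subset (hA hz)
    obtain ⟨hz1, hz2⟩ := hAq z hz
    have hzK : z ∈ K' := ⟨hz1, hz2, hnX z hzF hz1 hz2, hnY z hzF hz1 hz2⟩
    obtain ⟨ν, hν, hν2⟩ := Pool.Agent.Y508.exists_support hFv ⟨O, hO⟩ (hA hz)
    obtain ⟨t, ht, ht2⟩ := Pool.Agent.Y508.exists_last hK'c hzK hν
    have hpz : π (z + t • ν) = z := by
      apply hπ2 _ _ hzF
      intro w hw
      rw [add_sub_cancel_left, inner_smul_left]
      exact mul_nonpos_of_nonneg_of_nonpos (by simpa using ht) (hν2 w hw)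
    obtain ⟨hwK, hw⟩ := hfrK ht2
    have hfix : ∀ w ∈ F, π w = w := fun w hw => hπ2 w w hw (fun v _ => by simp)
    by_cases hwF : z + t • ν ∈ F
    · have hwz : z + t • ν = z := by rw [← hfix _ hwF, hpz]
      rw [hwz] at hw
      rcases hw with h | h | h | h
      · -- on the axis through q
        have h1 : z = O + y z • f := by
          conv_lhs => rw [hexp z, h, zero_smul, add_zero]
        have h2 : y z ≤ b := by
          have := hzK.2.2.2
          rw [h] at this
          by_contra hcon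
          push Not at hcon
          have := mul_pos hYY (sub_pos.2 hcon)
          linarith
        rcases h2.lt_or_eq with h3 | h3
        · exfalso
          have := mem_int_of_lt hFv hO hq hz2 h3
          change O + y z • f ∈ interior F at this
          rw [← h1] at this
          exact (hA hz).2 this
        · refine ⟨z, Or.inr ⟨hzK, ?_⟩, hfix z hzF⟩
          rw [h, h3]; ring
      · have h1 : z = O + x z • e := by
          conv_lhs => rw [hexp z, h, zero_smul, add_zero]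
        have h2 : x z ≤ a := by
          have := hzK.2.2.1
          rw [h] at this
          by_contra hcon
          push Not at hcon
          have := mul_pos hXX (sub_pos.2 hcon)
          linarith
        rcases h2.lt_or_eq with h3 | h3
        · exfalso
          have := mem_int_of_lt hFv hO hp hz1 h3
          change O + x z • e ∈ interior F at this
          rw [← h1] at this
          exact (hA hz).2 this
        · refine ⟨z, Or.inl ⟨hzK, ?_⟩, hfix z hzF⟩
          rw [h, h3]; ring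
      · exact ⟨z, Or.inl ⟨hzK, h⟩, hfix z hzF⟩
      · exact ⟨z, Or.inr ⟨hzK, h⟩, hfix z hzF⟩
    · rcases hw with h | h | h | h
      · exfalso
        apply hwF
        generalize z + t • ν = w at *
        have h1 : w = O + y w • f := by
          conv_lhs => rw [hexp w, h, zero_smul, add_zero]
        have h2 : y w ≤ b := by
          have := hwK.2.2.2
          rw [h] at this
          by_contra hcon
          push Not at hcon
          have := mul_pos hYY (sub_pos.2 hcon)
          linarith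
        rcases h2.lt_or_eq with h3 | h3
        · rw [h1]; exact interior_subset (mem_int_of_lt hFv hO hq hwK.2.1 h3)
        · rw [h1, h3]; exact hq
      · exfalso
        apply hwF
        generalize z + t • ν = w at *
        have h1 : w = O + x w • e := by
          conv_lhs => rw [hexp w, h, zero_smul, add_zero]
        have h2 : x w ≤ a := by
          have := hwK.2.2.1
          rw [h] at this
          by_contra hcon
          push Not at hcon
          have := mul_pos hXX (sub_pos.2 hcon)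
          linarith
        rcases h2.lt_or_eq with h3 | h3
        · rw [h1]; exact interior_subset (mem_int_of_lt hFv hO hp hwK.1 h3)
        · rw [h1, h3]; exact hp
      · exact ⟨_, Or.inl ⟨hwK, h⟩, hpz⟩
      · exact ⟨_, Or.inr ⟨hwK, h⟩, hpz⟩
  have hP0 : 0 ≤ (1 + X ^ 2) * ((b * (1 - Y ^ 2) + 2 * a * Y) / D) := by positivity
  have hQ0 : 0 ≤ (1 + Y ^ 2) * ((a * (1 - X ^ 2) + 2 * b * X) / D) := by positivity
  have hmeas : (μH[1] : Measure E2) A ≤
      ENNReal.ofReal ((1 + X ^ 2) * ((b * (1 - Y ^ 2) + 2 * a * Y) / D) +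
        (1 + Y ^ 2) * ((a * (1 - X ^ 2) + 2 * b * X) / D)) := by
    rw [ENNReal.ofReal_add hP0 hQ0]
    calc (μH[1] : Measure E2) A ≤ μH[1] (π '' (T1 ∪ T2)) := measure_mono hsub
      _ ≤ ((1 : NNReal) : ℝ≥0∞) ^ (1:ℝ) * μH[1] (T1 ∪ T2) :=
        hπ1.hausdorffMeasure_image_le zero_le_one _
      _ = μH[1] (T1 ∪ T2) := by simp
      _ ≤ _ := (measure_union_le _ _).trans (add_le_add hT1m hT2m)
  have hlP : l ≤ (1 + X ^ 2) * ((b * (1 - Y ^ 2) + 2 * a * Y) / D) +
        (1 + Y ^ 2) * ((a * (1 - X ^ 2) + 2 * b * X) / D) :=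
    (ENNReal.ofReal_le_ofReal_iff (by positivity)).1 (hl.trans hmeas)
  have hfin : (1 + X ^ 2) * ((b * (1 - Y ^ 2) + 2 * a * Y) / D) +
        (1 + Y ^ 2) * ((a * (1 - X ^ 2) + 2 * b * X) / D) =
      ((a + b) * (1 + X * Y) + (b - a) * (X - Y)) / (1 - X * Y - X - Y) := by
    rw [hDe]
    field_simp
    ring
  rw [hfin, le_div_iff₀ hd1] at hlP
  exact hlP

end

end Q190.QC
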