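import Pool.Agent.Y508.PerimLow
import Pool.Agent.Q190.QCGeo
import Pool.Agent.Q190.QCAlg2

/-!
# One quadrant, general case; support lines and their tilt
-/

set_option autoImplicit false
open MeasureTheory Metric Set Filter Topology
open scoped ENNReal InnerProductSpace

namespace Q190.QC

variable {F A : Set E2} {O e f : E2} {a b c d X Y Z W l : ℝ}

theorem arc_gen (hFc : IsCompact F) (hFv : Convex ℝ F) (hfr : Frame e f) (hO : O ∈ interior F)
    (ha : 0 < a) (hb : 0 < b) (hX1 : -1 < X) (hX2 : X < 1) (hY1 : -1 < Y) (hY2 : Y < 1)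
    (hp : O + a • e ∈ F) (hq : O + b • f ∈ F)
    (hnX : ∀ z ∈ F, (1 - X ^ 2) * (⟪e, z - O⟫_ℝ - a) - 2 * X * ⟪f, z - O⟫_ℝ ≤ 0)
    (hnY : ∀ z ∈ F, (1 - Y ^ 2) * (⟪f, z - O⟫_ℝ - b) - 2 * Y * ⟪e, z - O⟫_ℝ ≤ 0)
    (hA : A ⊆ frontier F) (hAq : ∀ z ∈ A, 0 ≤ ⟪e, z - O⟫_ℝ ∧ 0 ≤ ⟪f, z - O⟫_ℝ)
    (hl : ENNReal.ofReal l ≤ (μH[1] : Measure E2) A) (hl0 : 0 < l)
    (hch : a ^ 2 + b ^ 2 ≤ l ^ 2) :
    Quad l a b X Y := by
  have sX : 0 ≤ a * (1 - X ^ 2) + 2 * b * X := by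
    have := hnX _ hq
    rw [add_sub_cancel_left, inner_smul_right, inner_smul_right, hfr.ef, hfr.ff] at this
    linarith
  have sY : 0 ≤ b * (1 - Y ^ 2) + 2 * a * Y := by
    have := hnY _ hp
    rw [add_sub_cancel_left, inner_smul_right, inner_smul_right, hfr.fe, hfr.ee] at this
    linarith
  refine ⟨hch, ?_, sX, sY⟩
  have hpos : 1 - X * Y - X - Y ≤ 0 → 0 < (a + b) * (1 + X * Y) + (b - a) * (X - Y) := by
    intro hle
    have hX0 : 0 < X := by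
      by_contra hcon
      push Not at hcon
      have : 0 < (1 - X) * (1 - Y) := mul_pos (by linarith) (by linarith)
      have h3 : 0 ≤ (-X) * (1 + Y) := mul_nonneg (by linarith) (by linarith)
      linarith
    have hY0 : 0 < Y := by
      by_contra hcon
      push Not at hcon
      have h3 : 0 ≤ (-Y) * (1 + X) := mul_nonneg (by linarith) (by linarith)
      linarith
    have h1 : 0 < a * (1 + X * Y - X + Y) := by
      have := mul_pos hX0 hY0
      exact mul_pos ha (by linarith)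
    have h2 : 0 < b * (1 + X * Y + X - Y) := by
      have := mul_pos hX0 hY0
      exact mul_pos hb (by linarith)
    linarith
  -- second factor nonneg
  have hXX : 0 < 1 - X ^ 2 := by nlinarith
  have hYY : 0 < 1 - Y ^ 2 := by nlinarith
  rcases le_or_gt (1 - X * Y - X - Y) 0 with hle | hgt
  · have := hpos hle
    have h3 := mul_nonpos_of_nonneg_of_nonpos hl0.le hle
    linarith
  have hsec : 0 ≤ 1 - X * Y + X + Y := by
    rcases le_or_gt 0 X with hX0 | hX0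
    · have h3 : 0 < (1 - X) * (1 + Y) := mul_pos (by linarith) (by linarith)
      linarith
    rcases le_or_gt 0 Y with hY0 | hY0
    · have h3 : 0 < (1 + X) * (1 - Y) := mul_pos (by linarith) (by linarith)
      linarith
    have h1 : (-(2 * b * X)) * (-(2 * a * Y)) ≤ (a * (1 - X ^ 2)) * (b * (1 - Y ^ 2)) := by
      apply mul_le_mul (by linarith) (by linarith)
      · have : 0 < 2 * a * (-Y) := by
          have := neg_pos.2 hY0
          positivity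
        linarith
      · positivity
    have h2 : 0 ≤ (a * b) * ((1 - X * Y - X - Y) * (1 - X * Y + X + Y)) := by linarith
    have h3 := nonneg_of_mul_nonneg_right h2 (mul_pos ha hb)
    exact nonneg_of_mul_nonneg_right h3 hgt
  -- perturbation
  have hfun : ∀ X' : ℝ, X < X' → X' < 1 →
      l * (1 - X' * Y - X' - Y) ≤ (a + b) * (1 + X' * Y) + (b - a) * (X' - Y) := by
    intro X' hX' hX'2
    have hXX' : 0 < 1 - X' ^ 2 := by nlinarith
    rcases le_or_gt (1 - X' * Y - X' - Y) 0 with hle | hgt'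
    · have hX0 : 0 < X' := by
        by_contra hcon
        push Not at hcon
        have : 0 < (1 - X') * (1 - Y) := mul_pos (by linarith) (by linarith)
        have h3 : 0 ≤ (-X') * (1 + Y) := mul_nonneg (by linarith) (by linarith)
        linarith
      have hY0 : 0 < Y := by
        by_contra hcon
        push Not at hcon
        have h3 : 0 ≤ (-Y) * (1 + X') := mul_nonneg (by linarith) (by linarith)
        linarith
      have h1 : 0 < a * (1 + X' * Y - X' + Y) := by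
        have := mul_pos hX0 hY0
        exact mul_pos ha (by linarith)
      have h2 : 0 < b * (1 + X' * Y + X' - Y) := by
        have := mul_pos hX0 hY0
        exact mul_pos hb (by linarith)
      have h3 := mul_nonpos_of_nonneg_of_nonpos hl0.le hle
      linarith
    · refine arc_strict hFc hFv hfr hO ha hb (by linarith) hX'2 hY1 hY2 hp hq ?_
        (fun z hz _ _ => hnY z hz) hA hAq hl hgt' ?_
      · intro z hz hz1 hz2
        have h1 := hnX z hz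
        have h2 : 0 ≤ (X' - X) * (1 + X * X') * (2 * ⟪f, z - O⟫_ℝ) := by
          have : 0 < 1 + X * X' := by nlinarith
          have := sub_pos.2 hX'
          positivity
        -- (1-X²) * target ≤ 0
        have h3 := mul_nonpos_of_nonneg_of_nonpos hXX'.le h1
        have h4 : (1 - X ^ 2) * ((1 - X' ^ 2) * (⟪e, z - O⟫_ℝ - a) - 2 * X' * ⟪f, z - O⟫_ℝ) =
          (1 - X' ^ 2) * ((1 - X ^ 2) * (⟪e, z - O⟫_ℝ - a) - 2 * X * ⟪f, z - O⟫_ℝ) -
            (X' - X) * (1 + X * X') * (2 * ⟪f, z - O⟫_ℝ) := by ring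
        by_contra hcon
        push Not at hcon
        have := mul_pos hXX hcon
        linarith
      · have : 0 < (X' - X) * (1 - Y) := mul_pos (by linarith) (by linarith)
        linarith
  have hlim : Tendsto (fun X' : ℝ => (a + b) * (1 + X' * Y) + (b - a) * (X' - Y) -
      l * (1 - X' * Y - X' - Y)) (𝓝[>] X) (𝓝 ((a + b) * (1 + X * Y) + (b - a) * (X - Y) -
      l * (1 - X * Y - X - Y))) := by
    apply tendsto_nhdsWithin_of_tendsto_nhds
    have : Continuous (fun X' : ℝ => (a + b) * (1 + X' * Y) + (b - a) * (X' - Y) -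
      l * (1 - X' * Y - X' - Y)) := by fun_prop
    exact this.tendsto X
  have := ge_of_tendsto hlim (b := 0) (by
    filter_upwards [Ioo_mem_nhdsGT hX2] with X' hX'
    have := hfun X' hX'.1 hX'.2
    linarith)
  linarith

/-- every boundary point has a support line, described by its tilt -/
theorem exists_tilt (hFv : Convex ℝ F) (hfr : Frame e f) (hO : O ∈ interior F)
    (ha : 0 < a) (hp : O + a • e ∈ frontier F) :
    ∃ X : ℝ, -1 < X ∧ X < 1 ∧
      ∀ z ∈ F, (1 - X ^ 2) * (⟪e, z - O⟫_ℝ - a) - 2 * X * ⟪f, z - O⟫_ℝ ≤ 0 := by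
  obtain ⟨ν, hν, hν2⟩ := Pool.Agent.Y508.exists_support hFv ⟨O, hO⟩ hp
  set ν1 := ⟪e, ν⟫_ℝ with h1
  set ν2 := ⟪f, ν⟫_ℝ with h2
  have hνe : ν = ν1 • e + ν2 • f := hfr.expand ν
  have hin : ∀ w : E2, ⟪ν, w - (O + a • e)⟫_ℝ = ν1 * (⟪e, w - O⟫_ℝ - a) + ν2 * ⟪f, w - O⟫_ℝ := by
    intro w
    have hw : w - (O + a • e) = (⟪e, w - O⟫_ℝ - a) • e + ⟪f, w - O⟫_ℝ • f := by
      have := hfr.expand (w - O)
      rw [sub_smul, sub_add_eq_add_sub, ← this]
      abel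
    rw [hw, inner_add_right, inner_smul_right, inner_smul_right, real_inner_comm e, real_inner_comm f,
      ← h1, ← h2]
    ring
  -- ν1 > 0
  have hpos : 0 < ν1 := by
    have hmem := mem_interior_iff_mem_nhds.1 hO
    have hcont : Continuous (fun t : ℝ => O + t • ν) := by fun_prop
    have h3 : ∀ᶠ t in nhds (0 : ℝ), O + t • ν ∈ F := by
      have := hcont.continuousAt (x := (0 : ℝ))
      apply this.preimage_mem_nhds
      rw [zero_smul, add_zero]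
      exact hmem
    have h4 : ∀ᶠ t in nhdsWithin (0 : ℝ) (Ioi 0), O + t • ν ∈ F :=
      h3.filter_mono nhdsWithin_le_nhds
    obtain ⟨t, ht1, ht2⟩ := (h4.and self_mem_nhdsWithin).exists
    have ht : 0 < t := ht2
    have h5 := hν2 _ ht1
    rw [hin, add_sub_cancel_left, inner_smul_right, inner_smul_right, ← h1, ← h2] at h5
    have h6 : 0 < ν1 ^ 2 + ν2 ^ 2 := by
      rw [← hfr.norm_sq, ← hνe]
      have := norm_pos_iff.2 hν
      positivity
    have h7 : 0 < t * (ν1 ^ 2 + ν2 ^ 2) := mul_pos ht h6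
    have h8 : 0 < a * ν1 := by linarith
    exact (pos_iff_pos_of_mul_pos h8).1 ha
  set N := ‖ν‖ with hN
  have hN2 : N ^ 2 = ν1 ^ 2 + ν2 ^ 2 := by
    rw [← hfr.norm_sq, ← hνe]
  have hN0 : 0 ≤ N := norm_nonneg _
  have hNν : 0 < N + ν1 := by linarith
  have hb : |ν2| ≤ N := by
    apply abs_le_of_sq_le_sq _ hN0
    rw [hN2]; linarith [sq_nonneg ν1]
  have hb2 := abs_le.1 hb
  refine ⟨-ν2 / (N + ν1), ?_, ?_, ?_⟩
  · rw [lt_div_iff₀ hNν]; linarith [hb2.2]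
  · rw [div_lt_one hNν]; linarith [hb2.1]
  · intro z hz
    have h3 := hν2 z hz
    rw [hin] at h3
    have h4 : (1 - (-ν2 / (N + ν1)) ^ 2) = 2 * ν1 / (N + ν1) := by
      field_simp
      linear_combination hN2
    have h5 : 2 * (-ν2 / (N + ν1)) = - (2 * ν2 / (N + ν1)) := by ring
    rw [h4, h5]
    have h6 : 2 * ν1 / (N + ν1) * (⟪e, z - O⟫_ℝ - a) - -(2 * ν2 / (N + ν1)) * ⟪f, z - O⟫_ℝ =
      2 / (N + ν1) * (ν1 * (⟪e, z - O⟫_ℝ - a) + ν2 * ⟪f, z - O⟫_ℝ) := by ring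
    rw [h6]
    exact mul_nonpos_of_nonneg_of_nonpos (by positivity) h3

/-- the four support lines and the algebraic system -/
theorem exists_sys (hFc : IsCompact F) (hFv : Convex ℝ F) (hfr : Frame e f) (hO : O ∈ interior F)
    (ha : 0 < a) (hb : 0 < b) (hc : 0 < c) (hd : 0 < d) (hl0 : 0 < l)
    (hp1 : O + a • e ∈ frontier F) (hp2 : O + b • f ∈ frontier F)
    (hq1 : O + c • (-e) ∈ frontier F) (hq2 : O + d • (-f) ∈ frontier F)
    {A1 A2 A3 A4 : Set E2} (hA1 : A1 ⊆ frontier F) (hA2 : A2 ⊆ frontier F) (hA3 : A3 ⊆ frontier F)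
    (hA4 : A4 ⊆ frontier F)
    (s1 : ∀ z ∈ A1, 0 ≤ ⟪e, z - O⟫_ℝ ∧ 0 ≤ ⟪f, z - O⟫_ℝ)
    (s2 : ∀ z ∈ A2, 0 ≤ ⟪-e, z - O⟫_ℝ ∧ 0 ≤ ⟪f, z - O⟫_ℝ)
    (s3 : ∀ z ∈ A3, 0 ≤ ⟪-e, z - O⟫_ℝ ∧ 0 ≤ ⟪-f, z - O⟫_ℝ)
    (s4 : ∀ z ∈ A4, 0 ≤ ⟪e, z - O⟫_ℝ ∧ 0 ≤ ⟪-f, z - O⟫_ℝ)
    (l1 : ENNReal.ofReal l ≤ (μH[1] : Measure E2) A1)
    (l2 : ENNReal.ofReal l ≤ (μH[1] : Measure E2) A2)
    (l3 : ENNReal.ofReal l ≤ (μH[1] : Measure E2) A3)
    (l4 : ENNReal.ofReal l ≤ (μH[1] : Measure E2) A4)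
    (h1 : a ^ 2 + b ^ 2 ≤ l ^ 2) (h2 : c ^ 2 + b ^ 2 ≤ l ^ 2) (h3 : c ^ 2 + d ^ 2 ≤ l ^ 2)
    (h4 : a ^ 2 + d ^ 2 ≤ l ^ 2) :
    ∃ X Y Z W : ℝ, Sys l a b c d X Y Z W ∧
      (∀ z ∈ F, (1 - X ^ 2) * (⟪e, z - O⟫_ℝ - a) - 2 * X * ⟪f, z - O⟫_ℝ ≤ 0) ∧
      (∀ z ∈ F, (1 - Y ^ 2) * (⟪f, z - O⟫_ℝ - b) - 2 * Y * ⟪e, z - O⟫_ℝ ≤ 0) ∧
      (∀ z ∈ F, (1 - Z ^ 2) * (⟪-e, z - O⟫_ℝ - c) - 2 * Z * ⟪f, z - O⟫_ℝ ≤ 0) ∧
      (∀ z ∈ F, (1 - W ^ 2) * (⟪-f, z - O⟫_ℝ - d) - 2 * W * ⟪-e, z - O⟫_ℝ ≤ 0) := by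
  obtain ⟨X, X1, X2, hX⟩ := exists_tilt hFv hfr hO ha hp1
  obtain ⟨Y, Y1, Y2, hY⟩ := exists_tilt hFv hfr.swap hO hb hp2
  obtain ⟨Z, Z1, Z2, hZ⟩ := exists_tilt hFv hfr.negl hO hc hq1
  obtain ⟨W, W1, W2, hW⟩ := exists_tilt hFv hfr.swap.negl.negr hO hd hq2
  have hcl := hFc.isClosed.frontier_subset
  refine ⟨X, Y, Z, W, ⟨hl0, ha, hb, hc, hd, X1, X2, Y1, Y2, Z1, Z2, W1, W2, ?_, ?_, ?_, ?_⟩,
    hX, hY, hZ, hW⟩
  · exact arc_gen hFc hFv hfr hO ha hb X1 X2 Y1 Y2 (hcl hp1) (hcl hp2) hX hY hA1 s1 l1 hl0 h1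
  · refine arc_gen hFc hFv hfr.negl hO hc hb Z1 Z2 (by linarith) (by linarith) (hcl hq1) (hcl hp2)
      hZ ?_ hA2 s2 l2 hl0 h2
    intro z hz
    have := hY z hz
    rw [inner_neg_left]
    linarith
  · refine arc_gen hFc hFv hfr.negl.negr hO hc hd (by linarith) (by linarith) W1 W2 (hcl hq1)
      (hcl hq2) ?_ hW hA3 s3 l3 hl0 h3
    intro z hz
    have := hZ z hz
    rw [inner_neg_left f]
    linarith
  · refine arc_gen hFc hFv hfr.negr hO ha hd (by linarith) (by linarith) (by linarith)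
      (by linarith) (hcl hp1) (hcl hq2) ?_ ?_ hA4 s4 l4 hl0 h4
    · intro z hz
      have := hX z hz
      rw [inner_neg_left f]
      linarith
    · intro z hz
      have := hW z hz
      rw [inner_neg_left e] at this
      linarith

end Q190.QC
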