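import Pool.Agent.Q190.QCTop

/-!
# Perpendicular quadrisecting chords: main theorem
-/

set_option autoImplicit false
open MeasureTheory Metric Set Filter Topology
open scoped ENNReal InnerProductSpace

namespace Q190.QC
open Q190.Quadrisect

variable {F : Set E2} {γ : ℝ → E2}

theorem body_of (hF : IsConvexFigure F) : Pool.Agent.Y508.Body F :=
  ⟨hF.isCompact, hF.convex, hF.interior_nonempty⟩

theorem perim_W (hF : IsConvexFigure F) : perimeter F = ENNReal.ofReal (Pool.Agent.Y508.W F) :=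
  le_antisymm (Pool.Agent.Y508.perim_le (body_of hF)) (Pool.Agent.Y508.perim_ge (body_of hF))

/-- a figure contained in a rectangle with the same perimeter is the rectangle -/
theorem eq_rect (hF : IsConvexFigure F) {O e f : E2} (hfr : Frame e f) {a b : ℝ} (ha : 0 < a)
    (hb : 0 < b) (hx : ∀ z ∈ F, |⟪e, z - O⟫_ℝ| ≤ a) (hy : ∀ z ∈ F, |⟪f, z - O⟫_ℝ| ≤ b)
    (hL : 4 * (a + b) ≤ Pool.Agent.Y508.W F) :
    F = {z | |⟪e, z - O⟫_ℝ| ≤ a ∧ |⟪f, z - O⟫_ℝ| ≤ b} := by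
  set x : E2 → ℝ := fun z => ⟪e, z - O⟫_ℝ with hxd
  set y : E2 → ℝ := fun z => ⟪f, z - O⟫_ℝ with hyd
  have hxc : Continuous x := continuous_const.inner (continuous_id.sub continuous_const)
  have hyc : Continuous y := continuous_const.inner (continuous_id.sub continuous_const)
  have hexp : ∀ z, z = O + x z • e + y z • f := fun z => hfr.expand' O z
  set R : Set E2 := {z | |x z| ≤ a ∧ |y z| ≤ b} with hR
  have hFR : F ⊆ R := fun z hz => ⟨hx z hz, hy z hz⟩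
  have hRcl : IsClosed R := (isClosed_le hxc.abs continuous_const).inter
    (isClosed_le hyc.abs continuous_const)
  have hRbd : R ⊆ closedBall O (a + b) := by
    rintro z ⟨h1, h2⟩
    rw [mem_closedBall, dist_eq_norm]
    have h5 : z - O = x z • e + y z • f := by
      conv_lhs => rw [hexp z]
      abel
    rw [h5]
    refine (norm_add_le _ _).trans ?_
    rw [norm_smul, norm_smul, hfr.e1, hfr.f1, mul_one, mul_one, Real.norm_eq_abs,
      Real.norm_eq_abs]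
    linarith
  have hRc : IsCompact R := (isCompact_closedBall O _).of_isClosed_subset hRcl hRbd
  have hRv : Convex ℝ R := by
    intro z hz w hw s t hs ht hst
    have e1 : ∀ n : E2, ⟪n, s • z + t • w - O⟫_ℝ = s * ⟪n, z - O⟫_ℝ + t * ⟪n, w - O⟫_ℝ := by
      intro n
      have : s • z + t • w - O = s • (z - O) + t • (w - O) := by
        have h1 : O = s • O + t • O := by rw [← add_smul, hst, one_smul]
        rw [smul_sub, smul_sub]
        nth_rewrite 1 [h1]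
        abel
      rw [this, inner_add_right, inner_smul_right, inner_smul_right]
    have hz1 := abs_le.1 hz.1
    have hz2 := abs_le.1 hz.2
    have hw1 := abs_le.1 hw.1
    have hw2 := abs_le.1 hw.2
    constructor
    · change |⟪e, s • z + t • w - O⟫_ℝ| ≤ a
      rw [e1, abs_le]
      change _ ≤ s * x z + t * x w ∧ s * x z + t * x w ≤ _
      constructor <;> nlinarith
    · change |⟪f, s • z + t • w - O⟫_ℝ| ≤ b
      rw [e1, abs_le]
      change _ ≤ s * y z + t * y w ∧ s * y z + t * y w ≤ _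
      constructor <;> nlinarith
  have hRF : IsConvexFigure R := ⟨hRc, hRv, hF.interior_nonempty.mono (interior_mono hFR)⟩
  -- perimeter of the rectangle
  have hfrR : frontier R ⊆ ({z | z ∈ R ∧ x z = a} ∪ {z | z ∈ R ∧ x z = -a}) ∪
      ({z | z ∈ R ∧ y z = b} ∪ {z | z ∈ R ∧ y z = -b}) := by
    intro z hz
    have hzR : z ∈ R := hRcl.frontier_subset hz
    by_contra hcon
    simp only [mem_union, mem_ofPred_eq, not_or, not_and] at hcon
    apply hz.2
    rw [mem_interior]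
    refine ⟨{z | |x z| < a ∧ |y z| < b}, fun w hw => ⟨hw.1.le, hw.2.le⟩,
      (isOpen_lt hxc.abs continuous_const).inter (isOpen_lt hyc.abs continuous_const), ?_⟩
    have h1 := abs_le.1 hzR.1
    have h2 := abs_le.1 hzR.2
    exact ⟨abs_lt.2 ⟨lt_of_le_of_ne h1.1 (Ne.symm (hcon.1.2 hzR)), lt_of_le_of_ne h1.2 (hcon.1.1 hzR)⟩,
      abs_lt.2 ⟨lt_of_le_of_ne h2.1 (Ne.symm (hcon.2.2 hzR)), lt_of_le_of_ne h2.2 (hcon.2.1 hzR)⟩⟩
  have hside1 : ∀ s : ℝ, (μH[1] : Measure E2) {z | z ∈ R ∧ x z = s} ≤ ENNReal.ofReal (2 * b) := by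
    intro s
    have := seg_le' (O + s • e - b • f) f (2 * b) {z | z ∈ R ∧ x z = s} (by
      rintro z ⟨hz, hz2⟩
      have h2 := abs_le.1 hz.2
      refine ⟨y z + b, ⟨by linarith, by linarith⟩, ?_⟩
      simp only
      conv_rhs => rw [hexp z, hz2]
      rw [add_smul]; abel)
    rwa [hfr.f1, one_mul] at this
  have hside2 : ∀ s : ℝ, (μH[1] : Measure E2) {z | z ∈ R ∧ y z = s} ≤ ENNReal.ofReal (2 * a) := by
    intro s
    have := seg_le' (O - a • e + s • f) e (2 * a) {z | z ∈ R ∧ y z = s} (by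
      rintro z ⟨hz, hz2⟩
      have h2 := abs_le.1 hz.1
      refine ⟨x z + a, ⟨by linarith, by linarith⟩, ?_⟩
      simp only
      conv_rhs => rw [hexp z, hz2]
      rw [add_smul]; abel)
    rwa [hfr.e1, one_mul] at this
  have hperR : (μH[1] : Measure E2) (frontier R) ≤ ENNReal.ofReal (4 * (a + b)) := by
    have e1 : 4 * (a + b) = (2 * b + 2 * b) + (2 * a + 2 * a) := by ring
    rw [e1, ENNReal.ofReal_add (by positivity) (by positivity),
      ENNReal.ofReal_add (by positivity) (by positivity),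
      ENNReal.ofReal_add (by positivity) (by positivity)]
    refine (measure_mono hfrR).trans ((measure_union_le _ _).trans ?_)
    exact add_le_add ((measure_union_le _ _).trans (add_le_add (hside1 _) (hside1 _)))
      ((measure_union_le _ _).trans (add_le_add (hside2 _) (hside2 _)))
  have hWR : Pool.Agent.Y508.W R ≤ Pool.Agent.Y508.W F := by
    have h1 := perim_W hRF
    unfold perimeter at h1
    rw [h1, ENNReal.ofReal_le_ofReal_iff (by positivity)] at hperR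
    linarith
  -- support functions agree
  have hne : F.Nonempty := hF.interior_nonempty.mono interior_subset
  have hhs : ∀ θ, Pool.Agent.Y508.hs R θ ≤ Pool.Agent.Y508.hs F θ := by
    by_contra hcon
    push Not at hcon
    obtain ⟨θ, hθ⟩ := hcon
    set g : ℝ → ℝ := fun θ => Pool.Agent.Y508.hs R θ - Pool.Agent.Y508.hs F θ with hg
    have hgper : Function.Periodic g (2 * Real.pi) := by
      intro t
      simp only [hg, Pool.Agent.Y508.hs_two_pi]
    obtain ⟨φ, hφ, hφ2⟩ := hgper.exists_mem_Ico₀ Real.two_pi_pos θ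
    have hφ3 : Pool.Agent.Y508.hs F φ < Pool.Agent.Y508.hs R φ := by
      have : g θ = g φ := hφ2
      simp only [hg] at this
      linarith
    have hlt : Pool.Agent.Y508.W F < Pool.Agent.Y508.W R := by
      apply intervalIntegral.integral_lt_integral_of_continuousOn_of_le_of_exists_lt
        Real.two_pi_pos (Pool.Agent.Y508.cont_hs hF.isCompact).continuousOn
        (Pool.Agent.Y508.cont_hs hRc).continuousOn
        (fun t _ => Pool.Agent.Y508.hs_mono hRc hne hFR t) ⟨φ, ⟨hφ.1, hφ.2.le⟩, hφ3⟩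
    linarith
  apply subset_antisymm hFR
  intro z hz
  exact Pool.Agent.Y508.mem_of_ip_le hF.isCompact hF.convex hne fun θ =>
    (Pool.Agent.Y508.le_hs hRc hz θ).trans (hhs θ)

theorem shift_image (h : IsBoundaryParam F γ) (s t : ℝ) : γ '' Icc (s + 1) (t + 1) = γ '' Icc s t := by
  rw [← image_add_const_Icc, image_image]
  apply image_congr
  intro x _
  exact h.periodic x

theorem core (hF : IsConvexFigure F) {p₁ q₁ p₂ q₂ : E2} (h : Quadrisects F p₁ q₁ p₂ q₂)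
    (hperp : Perpendicular p₁ q₁ p₂ q₂) :
    Pool.Agent.Y508.W F ≤ 2 * (‖q₁ - p₁‖ + ‖q₂ - p₂‖) ∧
    (Pool.Agent.Y508.W F = 2 * (‖q₁ - p₁‖ + ‖q₂ - p₂‖) → IsRectangle F) := by
  obtain ⟨γ, t₁, t₂, t₃, t₄, hγ, h12, h23, h34, h41, hp₁, hp₂, hq₁, hq₂, m1, m2, m3, m4⟩ := h
  have hW0 := Pool.Agent.Y508.W_pos (body_of hF)
  obtain ⟨l, hl⟩ : ∃ l, l = Pool.Agent.Y508.W F / 4 := ⟨_, rfl⟩
  have hl0 : 0 < l := by rw [hl]; positivity
  have hWl : Pool.Agent.Y508.W F = 4 * l := by rw [hl]; ring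
  have hper : perimeter F / 4 = ENNReal.ofReal l := by
    rw [perim_W hF, hl, ENNReal.ofReal_div_of_pos (by norm_num), ENNReal.ofReal_ofNat]
  rw [hper] at m1 m2 m3 m4
  rw [hWl]
  have hfrt : ∀ t, γ t ∈ frontier F := fun t => hγ.range_eq ▸ mem_range_self t
  have hinj := param_injOn hγ t₁
  have hne1 : p₁ ≠ q₁ := by
    intro he
    rw [← hp₁, ← hq₁] at he
    have := hinj ⟨le_rfl, by linarith⟩ ⟨by linarith, by linarith⟩ he
    linarith
  have hne2 : p₂ ≠ q₂ := by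
    intro he
    rw [← hp₂, ← hq₂] at he
    have := hinj ⟨by linarith, by linarith⟩ ⟨by linarith, by linarith⟩ he
    linarith
  have hd1 : 0 < ‖q₁ - p₁‖ := norm_pos_iff.2 (sub_ne_zero.2 hne1.symm)
  have hd2 : 0 < ‖q₂ - p₂‖ := norm_pos_iff.2 (sub_ne_zero.2 hne2.symm)
  have hp1per : γ (t₁ + 1) = p₁ := by rw [hγ.periodic t₁, hp₁]
  by_cases hm1 : p₁ + (1 / 2 : ℝ) • (q₁ - p₁) ∈ interior F
  swap
  · have := deg_chord hF hγ h12 h23 h34 h41 hl0 m1 m2 m3 m4 (by rw [hp₁, hq₁]; exact hm1)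
    rw [hp₁, hq₁] at this
    exact ⟨by linarith, fun h => by linarith⟩
  by_cases hm2 : p₂ + (1 / 2 : ℝ) • (q₂ - p₂) ∈ interior F
  swap
  · have := deg_chord hF hγ h23 h34 h41 (by linarith) hl0 m2 m3 m4
      (by rw [shift_image hγ]; exact m1) (by rw [hp₂, hq₂]; exact hm2)
    rw [hp₂, hq₂] at this
    exact ⟨by linarith, fun h => by linarith⟩
  have hpf1 : p₁ ∈ frontier F := hp₁ ▸ hfrt t₁
  have hpf2 : p₂ ∈ frontier F := hp₂ ▸ hfrt t₂
  have hqf1 : q₁ ∈ frontier F := hq₁ ▸ hfrt t₃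
  have hqf2 : q₂ ∈ frontier F := hq₂ ▸ hfrt t₄
  have hperp1 : ⟪q₂ - p₂, q₁ - p₁⟫_ℝ = 0 := by rw [real_inner_comm]; exact hperp
  have hperp2 : ⟪q₁ - p₁, q₂ - p₂⟫_ℝ = 0 := hperp
  -- sides of the first chord
  have S1 := sides hF hpf1 hqf1 hne1 (sub_ne_zero.2 hne2.symm) hperp1 hm1
    (U := γ '' Ioo t₁ t₃) (V := γ '' Ioo t₃ (t₁ + 1))
    (isPreconnected_Ioo.image _ hγ.continuous.continuousOn)
    (isPreconnected_Ioo.image _ hγ.continuous.continuousOn)
    (by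
      rw [param_cover hγ t₁]
      rintro _ ⟨s, hs, rfl⟩
      rcases hs.1.lt_or_eq with h1 | h1
      · rcases lt_trichotomy s t₃ with h2 | h2 | h2
        · exact Or.inl (Or.inl ⟨s, ⟨h1, h2⟩, rfl⟩)
        · right; right; rw [h2, hq₁]; rfl
        · exact Or.inl (Or.inr ⟨s, ⟨h2, hs.2⟩, rfl⟩)
      · right; left; rw [← h1, hp₁])
    (by rintro _ ⟨s, _, rfl⟩; exact hfrt s) (by rintro _ ⟨s, _, rfl⟩; exact hfrt s)
    (by
      rintro ⟨s, hs, hs2⟩
      rw [← hp₁] at hs2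
      have := hinj ⟨hs.1.le, by linarith [hs.2]⟩ ⟨le_rfl, by linarith⟩ hs2
      linarith [hs.1])
    (by
      rintro ⟨s, hs, hs2⟩
      rw [← hq₁] at hs2
      have := hinj ⟨hs.1.le, by linarith [hs.2]⟩ ⟨by linarith, by linarith⟩ hs2
      linarith [hs.2])
    (by
      rintro ⟨s, hs, hs2⟩
      rw [← hp₁] at hs2
      have := hinj ⟨by linarith [hs.1], hs.2⟩ ⟨le_rfl, by linarith⟩ hs2
      linarith [hs.1])
    (by
      rintro ⟨s, hs, hs2⟩
      rw [← hq₁] at hs2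
      have := hinj ⟨by linarith [hs.1], hs.2⟩ ⟨by linarith, by linarith⟩ hs2
      linarith [hs.1])
    (u := p₂) (v := q₂) ⟨t₂, ⟨h12, h23⟩, hp₂⟩ ⟨t₄, ⟨h34, h41⟩, hq₂⟩
    (by
      have e : q₂ - p₁ = (q₂ - p₂) + (p₂ - p₁) := by abel
      rw [e, inner_add_right, real_inner_self_eq_norm_sq]
      have : 0 < ‖q₂ - p₂‖ ^ 2 := by positivity
      linarith)
  have S2 := sides hF hpf2 hqf2 hne2 (sub_ne_zero.2 hne1.symm) hperp2 hm2
    (U := γ '' Ioo t₄ (t₂ + 1)) (V := γ '' Ioo t₂ t₄)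
    (isPreconnected_Ioo.image _ hγ.continuous.continuousOn)
    (isPreconnected_Ioo.image _ hγ.continuous.continuousOn)
    (by
      rw [param_cover hγ t₂]
      rintro _ ⟨s, hs, rfl⟩
      rcases hs.1.lt_or_eq with h1 | h1
      · rcases lt_trichotomy s t₄ with h2 | h2 | h2
        · exact Or.inl (Or.inr ⟨s, ⟨h1, h2⟩, rfl⟩)
        · right; right; rw [h2, hq₂]; rfl
        · exact Or.inl (Or.inl ⟨s, ⟨h2, hs.2⟩, rfl⟩)
      · right; left; rw [← h1, hp₂])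
    (by rintro _ ⟨s, _, rfl⟩; exact hfrt s) (by rintro _ ⟨s, _, rfl⟩; exact hfrt s)
    (by
      rintro ⟨s, hs, hs2⟩
      rw [← hp₂] at hs2
      have := param_injOn hγ t₂ ⟨by linarith [hs.1], hs.2⟩ ⟨le_rfl, by linarith⟩ hs2
      linarith [hs.1])
    (by
      rintro ⟨s, hs, hs2⟩
      rw [← hq₂] at hs2
      have := param_injOn hγ t₂ ⟨by linarith [hs.1], hs.2⟩ ⟨by linarith, by linarith⟩ hs2
      linarith [hs.1])
    (by
      rintro ⟨s, hs, hs2⟩
      rw [← hp₂] at hs2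
      have := param_injOn hγ t₂ ⟨hs.1.le, by linarith [hs.2]⟩ ⟨le_rfl, by linarith⟩ hs2
      linarith [hs.1])
    (by
      rintro ⟨s, hs, hs2⟩
      rw [← hq₂] at hs2
      have := param_injOn hγ t₂ ⟨hs.1.le, by linarith [hs.2]⟩ ⟨by linarith, by linarith⟩ hs2
      linarith [hs.2])
    (u := p₁) (v := q₁) ⟨t₁ + 1, ⟨h41, by linarith⟩, hp1per⟩ ⟨t₃, ⟨h23, h34⟩, hq₁⟩
    (by
      have e : q₁ - p₂ = (q₁ - p₁) + (p₁ - p₂) := by abel
      rw [e, inner_add_right, real_inner_self_eq_norm_sq]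
      have : 0 < ‖q₁ - p₁‖ ^ 2 := by positivity
      linarith)
  obtain ⟨S1u, S1v⟩ := S1
  obtain ⟨S2u, S2v⟩ := S2
  -- generalities
  obtain ⟨D1, hD1⟩ : ∃ D1, D1 = ‖q₁ - p₁‖ := ⟨_, rfl⟩
  obtain ⟨D2, hD2⟩ : ∃ D2, D2 = ‖q₂ - p₂‖ := ⟨_, rfl⟩
  rw [← hD1] at hd1 ⊢
  rw [← hD2] at hd2 ⊢
  obtain ⟨e, he⟩ : ∃ e : E2, e = (-D1⁻¹) • (q₁ - p₁) := ⟨_, rfl⟩
  obtain ⟨f, hf⟩ : ∃ f : E2, f = (-D2⁻¹) • (q₂ - p₂) := ⟨_, rfl⟩
  have hfr : Frame e f := by
    refine ⟨?_, ?_, ?_⟩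
    · rw [he, norm_smul, norm_neg, Real.norm_eq_abs, abs_of_pos (inv_pos.2 hd1), ← hD1,
        inv_mul_cancel₀ hd1.ne']
    · rw [hf, norm_smul, norm_neg, Real.norm_eq_abs, abs_of_pos (inv_pos.2 hd2), ← hD2,
        inv_mul_cancel₀ hd2.ne']
    · rw [he, hf, inner_smul_left, inner_smul_right, hperp2, mul_zero, mul_zero]
  have hv1 : q₁ - p₁ = D1 • (-e) := by
    rw [he, ← neg_smul, neg_neg, smul_smul, mul_inv_cancel₀ hd1.ne', one_smul]
  have hv2 : q₂ - p₂ = D2 • (-f) := by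
    rw [hf, ← neg_smul, neg_neg, smul_smul, mul_inv_cancel₀ hd2.ne', one_smul]
  -- coordinates of p₁ - p₂
  obtain ⟨a, ha⟩ : ∃ a, a = ⟪e, p₁ - p₂⟫_ℝ := ⟨_, rfl⟩
  obtain ⟨b, hb⟩ : ∃ b, b = -⟪f, p₁ - p₂⟫_ℝ := ⟨_, rfl⟩
  have hpp : p₁ - p₂ = a • e - b • f := by
    rw [ha, hb, neg_smul, sub_neg_eq_add]
    exact hfr.expand _
  have hs1 : ∀ z : E2, ⟪q₂ - p₂, z⟫_ℝ = -(D2 * ⟪f, z⟫_ℝ) := by
    intro z
    rw [hv2, inner_smul_left, inner_neg_left]; simp
  have hs2 : ∀ z : E2, ⟪q₁ - p₁, z⟫_ℝ = -(D1 * ⟪e, z⟫_ℝ) := by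
    intro z
    rw [hv1, inner_smul_left, inner_neg_left]; simp
  obtain ⟨O, hOd⟩ : ∃ O : E2, O = p₁ - a • e := ⟨_, rfl⟩
  have hO1 : p₁ = O + a • e := by rw [hOd]; abel
  have hO2 : p₂ = O + b • f := by
    have : p₂ = p₁ - (p₁ - p₂) := by abel
    rw [this, hpp, hOd]; abel
  have hO3 : q₁ = O + (D1 - a) • (-e) := by
    have : q₁ = p₁ + (q₁ - p₁) := by abel
    rw [this, hv1, hO1, sub_smul, smul_neg, smul_neg]; abel
  have hO4 : q₂ = O + (D2 - b) • (-f) := by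
    have : q₂ = p₂ + (q₂ - p₂) := by abel
    rw [this, hv2, hO2, sub_smul, smul_neg, smul_neg]; abel
  -- relation of the side functions with coordinates
  have hc1 : ∀ z : E2, ⟪q₂ - p₂, z - p₁⟫_ℝ = -(D2 * ⟪f, z - O⟫_ℝ) := by
    intro z
    rw [hs1]
    have : z - p₁ = (z - O) - a • e := by rw [hO1]; abel
    rw [this, inner_sub_right, inner_smul_right, hfr.fe, mul_zero, sub_zero]
  have hc2 : ∀ z : E2, ⟪q₁ - p₁, z - p₂⟫_ℝ = -(D1 * ⟪e, z - O⟫_ℝ) := by
    intro z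
    rw [hs2]
    have : z - p₂ = (z - O) - b • f := by rw [hO2]; abel
    rw [this, inner_sub_right, inner_smul_right, hfr.ef, mul_zero, sub_zero]
  have y_pos : ∀ z ∈ γ '' Ioo t₁ t₃, 0 < ⟪f, z - O⟫_ℝ := by
    intro z hz
    have := S1u z hz
    rw [hc1] at this
    exact (pos_iff_pos_of_mul_pos (by linarith : 0 < D2 * ⟪f, z - O⟫_ℝ)).1 hd2
  have y_neg : ∀ z ∈ γ '' Ioo t₃ (t₁ + 1), 0 < ⟪-f, z - O⟫_ℝ := by
    intro z hz
    have := S1v z hz
    rw [hc1] at this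
    rw [inner_neg_left]
    exact (pos_iff_pos_of_mul_pos (by linarith : 0 < D2 * -⟪f, z - O⟫_ℝ)).1 hd2
  have x_pos : ∀ z ∈ γ '' Ioo t₄ (t₂ + 1), 0 < ⟪e, z - O⟫_ℝ := by
    intro z hz
    have := S2u z hz
    rw [hc2] at this
    exact (pos_iff_pos_of_mul_pos (by linarith : 0 < D1 * ⟪e, z - O⟫_ℝ)).1 hd1
  have x_neg : ∀ z ∈ γ '' Ioo t₂ t₄, 0 < ⟪-e, z - O⟫_ℝ := by
    intro z hz
    have := S2v z hz
    rw [hc2] at this
    rw [inner_neg_left]
    exact (pos_iff_pos_of_mul_pos (by linarith : 0 < D1 * -⟪e, z - O⟫_ℝ)).1 hd1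
  have ha0 : 0 < a := by
    have := x_pos p₁ ⟨t₁ + 1, ⟨h41, by linarith⟩, hp1per⟩
    rwa [hO1, add_sub_cancel_left, inner_smul_right, hfr.ee, mul_one] at this
  have hb0 : 0 < b := by
    have := y_pos p₂ ⟨t₂, ⟨h12, h23⟩, hp₂⟩
    rwa [hO2, add_sub_cancel_left, inner_smul_right, hfr.ff, mul_one] at this
  have hc0 : 0 < D1 - a := by
    have := x_neg q₁ ⟨t₃, ⟨h23, h34⟩, hq₁⟩
    rwa [hO3, add_sub_cancel_left, inner_smul_right, inner_neg_neg, hfr.ee, mul_one] at this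
  have hd0 : 0 < D2 - b := by
    have := y_neg q₂ ⟨t₄, ⟨h34, h41⟩, hq₂⟩
    rwa [hO4, add_sub_cancel_left, inner_smul_right, inner_neg_neg, hfr.ff, mul_one] at this
  obtain ⟨c, hcd⟩ : ∃ c, c = D1 - a := ⟨_, rfl⟩
  obtain ⟨d, hdd⟩ : ∃ d, d = D2 - b := ⟨_, rfl⟩
  rw [← hcd] at hc0 hO3
  rw [← hdd] at hd0 hO4
  -- O is interior
  have hcl := hF.isCompact.isClosed.frontier_subset
  have hOint : O ∈ interior F := by
    have hmO : p₁ + (1 / 2 : ℝ) • (q₁ - p₁) = O + ((a - c) / 2) • e := by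
      rw [hv1, hO1, smul_neg, smul_neg, smul_smul, add_assoc, ← sub_eq_add_neg, ← sub_smul]
      congr 2
      rw [hcd]; ring
    rw [hmO] at hm1
    rcases le_total 0 ((a - c) / 2) with h5 | h5
    · have := mem_int_of_lt (u := -e) (s := (a - c) / 2) (t := (a - c) / 2 + c) hF.convex hm1
        (by
          have : O + ((a - c) / 2) • e + ((a - c) / 2 + c) • (-e) = O + c • (-e) := by
            rw [smul_neg, smul_neg, add_smul]; abel
          rw [this, ← hO3]; exact hcl hqf1) h5 (by linarith)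
      have e1 : O + ((a - c) / 2) • e + ((a - c) / 2) • (-e) = O := by rw [smul_neg]; abel
      rwa [e1] at this
    · have := mem_int_of_lt (u := e) (s := -((a - c) / 2)) (t := -((a - c) / 2) + a) hF.convex hm1
        (by
          have : O + ((a - c) / 2) • e + (-((a - c) / 2) + a) • e = O + a • e := by
            rw [add_smul, neg_smul]; abel
          rw [this, ← hO1]; exact hcl hpf1) (by linarith) (by linarith)
      have e1 : O + ((a - c) / 2) • e + (-((a - c) / 2)) • e = O := by rw [neg_smul]; abel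
      rwa [e1] at this
  -- chords of the arcs
  have chord : ∀ {s t : ℝ}, s ≤ t → (μH[1] : Measure E2) (γ '' Icc s t) = ENNReal.ofReal l →
      ‖γ t - γ s‖ ^ 2 ≤ l ^ 2 := by
    intro s t hst hm
    have h5 := (Pool.Agent.Y508.arc_ge hst hγ.continuous.continuousOn).trans
      (measure_mono (image_mono Ico_subset_Icc_self))
    rw [hm, ENNReal.ofReal_le_ofReal_iff hl0.le] at h5
    exact pow_le_pow_left₀ (norm_nonneg _) h5 2
  have c1 : a ^ 2 + b ^ 2 ≤ l ^ 2 := by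
    have := chord h12.le m1
    rw [hp₁, hp₂] at this
    have e1 : p₂ - p₁ = (-a) • e + b • f := by
      have : p₂ - p₁ = -(p₁ - p₂) := by abel
      rw [this, hpp, neg_smul]; abel
    rw [e1, hfr.norm_sq] at this
    linarith
  have c2 : c ^ 2 + b ^ 2 ≤ l ^ 2 := by
    have := chord h23.le m2
    rw [hp₂, hq₁] at this
    have e1 : q₁ - p₂ = (-c) • e + (-b) • f := by
      rw [hO3, hO2, neg_smul, neg_smul, smul_neg]; abel
    rw [e1, hfr.norm_sq] at this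
    linarith
  have c3 : c ^ 2 + d ^ 2 ≤ l ^ 2 := by
    have := chord h34.le m3
    rw [hq₁, hq₂] at this
    have e1 : q₂ - q₁ = c • e + (-d) • f := by
      rw [hO3, hO4, neg_smul, smul_neg, smul_neg]; abel
    rw [e1, hfr.norm_sq] at this
    linarith
  have c4 : a ^ 2 + d ^ 2 ≤ l ^ 2 := by
    have := chord h41.le m4
    rw [hq₂, hp1per] at this
    have e1 : p₁ - q₂ = a • e + d • f := by
      rw [hO1, hO4, smul_neg]; abel
    rw [e1, hfr.norm_sq] at this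
    linarith
  -- quadrants
  have hxO : ∀ z : E2, ⟪-e, z - O⟫_ℝ = -⟪e, z - O⟫_ℝ := fun z => inner_neg_left _ _
  have hyO : ∀ z : E2, ⟪-f, z - O⟫_ℝ = -⟪f, z - O⟫_ℝ := fun z => inner_neg_left _ _
  have xp2 : ⟪e, p₂ - O⟫_ℝ = 0 := by
    rw [hO2, add_sub_cancel_left, inner_smul_right, hfr.ef, mul_zero]
  have xq2 : ⟪e, q₂ - O⟫_ℝ = 0 := by
    rw [hO4, add_sub_cancel_left, inner_smul_right, inner_neg_right, hfr.ef, neg_zero, mul_zero]
  have yp1 : ⟪f, p₁ - O⟫_ℝ = 0 := by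
    rw [hO1, add_sub_cancel_left, inner_smul_right, hfr.fe, mul_zero]
  have yq1 : ⟪f, q₁ - O⟫_ℝ = 0 := by
    rw [hO3, add_sub_cancel_left, inner_smul_right, inner_neg_right, hfr.fe, neg_zero, mul_zero]
  have Y1 : ∀ s ∈ Icc t₁ t₃, 0 ≤ ⟪f, γ s - O⟫_ℝ := by
    intro s hs
    rcases hs.1.lt_or_eq with h1 | h1
    · rcases hs.2.lt_or_eq with h2 | h2
      · exact (y_pos _ ⟨s, ⟨h1, h2⟩, rfl⟩).le
      · rw [h2, hq₁, yq1]
    · rw [← h1, hp₁, yp1]
  have Y2 : ∀ s ∈ Icc t₃ (t₁ + 1), 0 ≤ ⟪-f, γ s - O⟫_ℝ := by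
    intro s hs
    rcases hs.1.lt_or_eq with h1 | h1
    · rcases hs.2.lt_or_eq with h2 | h2
      · exact (y_neg _ ⟨s, ⟨h1, h2⟩, rfl⟩).le
      · rw [h2, hp1per, hyO, yp1, neg_zero]
    · rw [← h1, hq₁, hyO, yq1, neg_zero]
  have X1 : ∀ s ∈ Icc t₄ (t₂ + 1), 0 ≤ ⟪e, γ s - O⟫_ℝ := by
    intro s hs
    rcases hs.1.lt_or_eq with h1 | h1
    · rcases hs.2.lt_or_eq with h2 | h2
      · exact (x_pos _ ⟨s, ⟨h1, h2⟩, rfl⟩).le
      · rw [h2, hγ.periodic, hp₂, xp2]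
    · rw [← h1, hq₂, xq2]
  have X2 : ∀ s ∈ Icc t₂ t₄, 0 ≤ ⟪-e, γ s - O⟫_ℝ := by
    intro s hs
    rcases hs.1.lt_or_eq with h1 | h1
    · rcases hs.2.lt_or_eq with h2 | h2
      · exact (x_neg _ ⟨s, ⟨h1, h2⟩, rfl⟩).le
      · rw [h2, hq₂, hxO, xq2, neg_zero]
    · rw [← h1, hp₂, hxO, xp2, neg_zero]
  obtain ⟨X, Y, Z, W, hsys, nX, nY, nZ, nW⟩ := exists_sys hF.isCompact hF.convex hfr hOint ha0 hb0 hc0
    hd0 hl0 (hO1 ▸ hpf1) (hO2 ▸ hpf2) (hO3 ▸ hqf1) (hO4 ▸ hqf2)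
    (A1 := γ '' Icc t₁ t₂) (A2 := γ '' Icc t₂ t₃) (A3 := γ '' Icc t₃ t₄)
    (A4 := γ '' Icc t₄ (t₁ + 1))
    (by rintro _ ⟨s, _, rfl⟩; exact hfrt s) (by rintro _ ⟨s, _, rfl⟩; exact hfrt s)
    (by rintro _ ⟨s, _, rfl⟩; exact hfrt s) (by rintro _ ⟨s, _, rfl⟩; exact hfrt s)
    (by
      rintro _ ⟨s, hs, rfl⟩
      refine ⟨?_, Y1 s ⟨hs.1, hs.2.trans h23.le⟩⟩
      have := X1 (s + 1) ⟨by linarith [hs.1], by linarith [hs.2]⟩
      rwa [hγ.periodic] at this)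
    (by
      rintro _ ⟨s, hs, rfl⟩
      exact ⟨X2 s ⟨hs.1, hs.2.trans h34.le⟩, Y1 s ⟨h12.le.trans hs.1, hs.2⟩⟩)
    (by
      rintro _ ⟨s, hs, rfl⟩
      exact ⟨X2 s ⟨h23.le.trans hs.1, hs.2⟩, Y2 s ⟨hs.1, by linarith [hs.2]⟩⟩)
    (by
      rintro _ ⟨s, hs, rfl⟩
      exact ⟨X1 s ⟨hs.1, by linarith [hs.2]⟩, Y2 s ⟨by linarith [hs.1], hs.2⟩⟩)
    m1.ge m2.ge m3.ge m4.ge c1 c2 c3 c4
  have hmain := hsys.main
  constructor
  · linarith [hmain.1]
  · intro heq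
    obtain ⟨hac, hbd, hX0, hY0, hZ0, hW0'⟩ := hmain.2 (by linarith)
    subst hX0 hY0 hZ0 hW0'
    have bx : ∀ z ∈ F, |⟪e, z - O⟫_ℝ| ≤ a := by
      intro z hz
      have h5 := nX z hz
      have h6 := nZ z hz
      rw [hxO] at h6
      rw [abs_le]
      constructor <;> linarith
    have bY : ∀ z ∈ F, |⟪f, z - O⟫_ℝ| ≤ b := by
      intro z hz
      have h5 := nY z hz
      have h6 := nW z hz
      rw [hyO] at h6
      rw [abs_le]
      constructor <;> linarith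
    have hrect := eq_rect hF hfr ha0 hb0 bx bY (by linarith)
    refine ⟨O, a • e, b • f, ?_, ?_, ?_, ?_⟩
    · refine smul_ne_zero ha0.ne' (norm_ne_zero_iff.1 (by rw [hfr.e1]; norm_num))
    · refine smul_ne_zero hb0.ne' (norm_ne_zero_iff.1 (by rw [hfr.f1]; norm_num))
    · rw [inner_smul_left, inner_smul_right, hfr.ef, mul_zero, mul_zero]
    · rw [hrect]
      ext z
      simp only [mem_ofPred_eq]
      constructor
      · rintro ⟨h5, h6⟩
        refine ⟨⟪e, z - O⟫_ℝ / a, ⟪f, z - O⟫_ℝ / b, ?_, ?_, ?_⟩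
        · rw [abs_div, abs_of_pos ha0, div_le_one ha0]; exact h5
        · rw [abs_div, abs_of_pos hb0, div_le_one hb0]; exact h6
        · rw [smul_smul, smul_smul, div_mul_cancel₀ _ ha0.ne', div_mul_cancel₀ _ hb0.ne']
          exact hfr.expand' O z
      · rintro ⟨s, t, h5, h6, rfl⟩
        rw [add_assoc, add_sub_cancel_left, inner_add_right, inner_add_right]
        simp only [inner_smul_right, hfr.ee, hfr.ef, hfr.fe, hfr.ff, mul_zero, mul_one, add_zero,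
          zero_add]
        rw [abs_mul, abs_mul, abs_of_pos ha0, abs_of_pos hb0]
        exact ⟨mul_le_of_le_one_left ha0.le h5, mul_le_of_le_one_left hb0.le h6⟩

/-- **Main theorem.** -/
theorem main (hF : IsConvexFigure F) {p₁ q₁ p₂ q₂ : E2} (h : Quadrisects F p₁ q₁ p₂ q₂)
    (hperp : Perpendicular p₁ q₁ p₂ q₂) :
    perimeter F ≤ ENNReal.ofReal (2 * (dist p₁ q₁ + dist p₂ q₂)) ∧
    (perimeter F = ENNReal.ofReal (2 * (dist p₁ q₁ + dist p₂ q₂)) → IsRectangle F) := by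
  obtain ⟨h1, h2⟩ := core hF h hperp
  rw [perim_W hF, dist_comm p₁, dist_comm p₂, dist_eq_norm, dist_eq_norm]
  refine ⟨ENNReal.ofReal_le_ofReal h1, fun h3 => h2 ?_⟩
  exact (ENNReal.ofReal_eq_ofReal_iff (Pool.Agent.Y508.W_pos (body_of hF)).le (by positivity)).1 h3

/-- perimeter is at least twice the diameter -/
theorem two_diam_le (hF : IsConvexFigure F) : 2 * diam F ≤ Pool.Agent.Y508.W F := by
  have key : ∀ x ∈ F, ∀ y ∈ F, dist x y ≤ Pool.Agent.Y508.W F / 2 := by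
    intro x hx y hy
    have h1 := Pool.Agent.Y508.int_abs_ip (x - y)
    have hcw := Pool.Agent.Y508.cont_hs hF.isCompact
    have hcw2 : Continuous (fun θ => Pool.Agent.Y508.hs F (θ + Real.pi)) :=
      hcw.comp (continuous_id.add continuous_const)
    have h2 : ∫ θ in (0 : ℝ)..(2 * Real.pi), (Pool.Agent.Y508.hs F θ +
        Pool.Agent.Y508.hs F (θ + Real.pi)) = 2 * Pool.Agent.Y508.W F := by
      rw [intervalIntegral.integral_add (hcw.intervalIntegrable _ _) (hcw2.intervalIntegrable _ _),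
        Pool.Agent.Y508.W_shift]
      change Pool.Agent.Y508.W F + Pool.Agent.Y508.W F = _
      ring
    have h3 : ∫ θ in (0 : ℝ)..(2 * Real.pi), |Pool.Agent.Y508.ip (x - y) θ| ≤
        ∫ θ in (0 : ℝ)..(2 * Real.pi), (Pool.Agent.Y508.hs F θ +
          Pool.Agent.Y508.hs F (θ + Real.pi)) := by
      apply intervalIntegral.integral_mono_on Real.two_pi_pos.le
        ((Pool.Agent.Y508.cont_ip _).abs.intervalIntegrable _ _)
        ((hcw.add hcw2).intervalIntegrable _ _)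
      intro θ _
      have a1 := Pool.Agent.Y508.le_hs hF.isCompact hx θ
      have a2 := Pool.Agent.Y508.le_hs hF.isCompact hy θ
      have a3 := Pool.Agent.Y508.le_hs hF.isCompact hx (θ + Real.pi)
      have a4 := Pool.Agent.Y508.le_hs hF.isCompact hy (θ + Real.pi)
      rw [Pool.Agent.Y508.ip_add_pi] at a3 a4
      change |Pool.Agent.Y508.ip (x - y) θ| ≤ Pool.Agent.Y508.hs F θ +
        Pool.Agent.Y508.hs F (θ + Real.pi)
      rw [Pool.Agent.Y508.ip_sub, abs_le]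
      constructor <;> linarith
    rw [dist_eq_norm]
    linarith
  have hW := (Pool.Agent.Y508.W_pos (body_of hF)).le
  have := diam_le_of_forall_dist_le (by linarith) key
  linarith

theorem main_diam (hF : IsConvexFigure F) {p₁ q₁ p₂ q₂ : E2} (h : Quadrisects F p₁ q₁ p₂ q₂)
    (hperp : Perpendicular p₁ q₁ p₂ q₂) : diam F ≤ dist p₁ q₁ + dist p₂ q₂ := by
  obtain ⟨h1, _⟩ := core hF h hperp
  have h2 := two_diam_le hF
  rw [dist_comm p₁, dist_comm p₂, dist_eq_norm, dist_eq_norm]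
  linarith

end Q190.QC
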