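import Pool.Agent.Q190.QCGeo2
import Pool.Agent.Q190.QCDefs

/-!
# Topological part
-/

set_option autoImplicit false
open MeasureTheory Metric Set Filter Topology
open scoped ENNReal InnerProductSpace

namespace Q190.QC
open Q190.Quadrisect

variable {F : Set E2} {γ : ℝ → E2}

theorem param_injOn (h : IsBoundaryParam F γ) (x : ℝ) : InjOn γ (Ico x (x + 1)) := by
  intro s hs t ht hst
  have h1 : ∀ s, γ s = γ (Int.fract s) := by
    intro s
    have h2 := h.periodic.sub_zsmul_eq ⌊s⌋ (x := s)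
    rw [← h2]
    congr 1
    rw [zsmul_eq_mul, mul_one]
    rfl
  rw [h1 s, h1 t] at hst
  have h3 := h.injOn ⟨Int.fract_nonneg s, Int.fract_lt_one s⟩ ⟨Int.fract_nonneg t, Int.fract_lt_one t⟩ hst
  rw [Int.fract_eq_fract] at h3
  obtain ⟨z, hz⟩ := h3
  have h4 : |(z : ℝ)| < 1 := by
    rw [← hz, abs_lt]
    constructor <;> linarith [hs.1, hs.2, ht.1, ht.2]
  have h5 : z = 0 := by
    have : |z| < 1 := by exact_mod_cast h4
    exact Int.abs_lt_one_iff.1 this
  rw [h5] at hz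
  push_cast at hz
  linarith

theorem param_cover (h : IsBoundaryParam F γ) (x : ℝ) : frontier F = γ '' Ico x (x + 1) := by
  rw [← h.range_eq]
  apply subset_antisymm
  · rintro _ ⟨s, rfl⟩
    obtain ⟨y, hy, hy2⟩ := h.periodic.exists_mem_Ico zero_lt_one s x
    exact ⟨y, hy, hy2.symm⟩
  · exact image_subset_range _ _

/-- an arc containing the segment between its endpoints is that segment -/
theorem arc_sub_segment {α β : ℝ} (hc : Continuous γ) (hi : InjOn γ (Icc α β))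
    (hs : segment ℝ (γ α) (γ β) ⊆ γ '' Icc α β) : γ '' Icc α β ⊆ segment ℝ (γ α) (γ β) := by
  rintro _ ⟨τ, hτ, rfl⟩
  by_contra hcon
  have hpre : IsPreconnected (segment ℝ (γ α) (γ β)) := (convex_segment _ _).isPreconnected
  have h1 : IsClosed (γ '' Icc α τ) := (isCompact_Icc.image hc).isClosed
  have h2 : IsClosed (γ '' Icc τ β) := (isCompact_Icc.image hc).isClosed
  have h3 : segment ℝ (γ α) (γ β) ⊆ γ '' Icc α τ ∪ γ '' Icc τ β := by
    rw [← image_union, Icc_union_Icc_eq_Icc hτ.1 hτ.2]; exact hs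
  obtain ⟨w, hw, ⟨s, hs1, rfl⟩, ⟨s', hs2, hs3⟩⟩ := isPreconnected_closed_iff.1 hpre _ _ h1 h2 h3
    ⟨γ α, left_mem_segment ℝ _ _, ⟨α, left_mem_Icc.2 hτ.1, rfl⟩⟩
    ⟨γ β, right_mem_segment ℝ _ _, ⟨β, right_mem_Icc.2 hτ.2, rfl⟩⟩
  have h4 : s' = s := hi ⟨hτ.1.trans hs2.1, hs2.2⟩ ⟨hs1.1, hs1.2.trans hτ.2⟩ hs3
  have h5 : s = τ := le_antisymm hs1.2 (h4 ▸ hs2.1)
  rw [h5] at hw
  exact hcon hw

theorem segment_meas (p q : E2) : (μH[1] : Measure E2) (segment ℝ p q) ≤ ENNReal.ofReal ‖q - p‖ := by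
  have := seg_le' p (q - p) 1 (segment ℝ p q) (by rw [segment_eq_image']) 
  rwa [mul_one] at this

theorem half_le {α β δ l : ℝ} (h : IsBoundaryParam F γ) (h1 : α < β) (h2 : β < δ) (h3 : δ < α + 1)
    (m1 : (μH[1] : Measure E2) (γ '' Icc α β) = ENNReal.ofReal l)
    (m2 : (μH[1] : Measure E2) (γ '' Icc β δ) = ENNReal.ofReal l) (hl : 0 < l)
    (hs : segment ℝ (γ α) (γ δ) ⊆ γ '' Icc α δ) : 2 * l ≤ ‖γ δ - γ α‖ := by
  have hinj : InjOn γ (Icc α δ) := (param_injOn h α).mono fun x hx =>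
    show x ∈ Ico α (α + 1) from ⟨hx.1, hx.2.trans_lt h3⟩
  have hsub := arc_sub_segment h.continuous hinj hs
  have hint : γ '' Icc α β ∩ γ '' Icc β δ ⊆ {γ β} := by
    rintro _ ⟨⟨s, hs, rfl⟩, ⟨s', hs', hss⟩⟩
    have h4 : s' = s := hinj (show s' ∈ Icc α δ from ⟨h1.le.trans hs'.1, hs'.2⟩)
      (show s ∈ Icc α δ from ⟨hs.1, hs.2.trans h2.le⟩) hss
    have h5 : s = β := le_antisymm hs.2 (h4 ▸ hs'.1)
    rw [h5]; rfl
  have hnull : (μH[1] : Measure E2) (γ '' Icc α β ∩ γ '' Icc β δ) = 0 := by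
    apply measure_mono_null hint
    have := Measure.nullSingletonClass_hausdorff E2 (d := 1) one_pos
    exact measure_singleton _
  have hmeas : MeasurableSet (γ '' Icc β δ) := (isCompact_Icc.image h.continuous).isClosed.measurableSet
  have hadd := measure_union_add_inter (μ := (μH[1] : Measure E2)) (γ '' Icc α β) hmeas
  rw [hnull, add_zero, m1, m2, ← image_union, Icc_union_Icc_eq_Icc h1.le h2.le,
    ← ENNReal.ofReal_add hl.le hl.le] at hadd
  have h5 := (measure_mono hsub).trans (segment_meas (γ α) (γ δ))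
  rw [hadd] at h5
  have h6 := (ENNReal.ofReal_le_ofReal_iff (norm_nonneg _)).1 h5
  linarith

/-- if the chord is not interior then the whole segment is in the boundary -/
theorem seg_frontier (hF : IsConvexFigure F) {p q : E2} (hp : p ∈ F) (hq : q ∈ F)
    (hm : p + (1 / 2 : ℝ) • (q - p) ∉ interior F) : segment ℝ p q ⊆ frontier F := by
  have hseg : segment ℝ p q ⊆ F := hF.convex.segment_subset hp hq
  have hmF : p + (1 / 2 : ℝ) • (q - p) ∈ F := by
    apply hseg
    rw [segment_eq_image']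
    exact ⟨1 / 2, ⟨by norm_num, by norm_num⟩, rfl⟩
  obtain ⟨ν, hν, hν2⟩ := Pool.Agent.Y508.exists_support hF.convex hF.interior_nonempty
    (⟨subset_closure hmF, hm⟩ : p + (1 / 2 : ℝ) • (q - p) ∈ frontier F)
  have h1 := hν2 p hp
  have h2 := hν2 q hq
  have e1 : p - (p + (1 / 2 : ℝ) • (q - p)) = (-(1 / 2) : ℝ) • (q - p) := by
    rw [neg_smul]; abel
  have e2 : q - (p + (1 / 2 : ℝ) • (q - p)) = (1 / 2 : ℝ) • (q - p) := by
    have : q - (p + (1 / 2 : ℝ) • (q - p)) = (1 : ℝ) • (q - p) - (1 / 2 : ℝ) • (q - p) := by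
      rw [one_smul]; abel
    rw [this, ← sub_smul]; norm_num
  rw [e1, inner_smul_right] at h1
  rw [e2, inner_smul_right] at h2
  have h3 : ⟪ν, q - p⟫_ℝ = 0 := by linarith
  intro z hz
  refine ⟨subset_closure (hseg hz), fun hzi => ?_⟩
  rw [segment_eq_image'] at hz
  obtain ⟨s, _, rfl⟩ := hz
  -- move in direction ν
  have hmem := mem_interior_iff_mem_nhds.1 hzi
  have hcont : Continuous (fun t : ℝ => (p + s • (q - p)) + t • ν) := by fun_prop
  have h4 : ∀ᶠ t in nhds (0 : ℝ), (p + s • (q - p)) + t • ν ∈ F := by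
    have := hcont.continuousAt (x := (0 : ℝ))
    apply this.preimage_mem_nhds
    rw [zero_smul, add_zero]
    exact hmem
  have h5 : ∀ᶠ t in nhdsWithin (0 : ℝ) (Ioi 0), (p + s • (q - p)) + t • ν ∈ F :=
    h4.filter_mono nhdsWithin_le_nhds
  obtain ⟨t, ht1, ht2⟩ := (h5.and self_mem_nhdsWithin).exists
  have ht : 0 < t := ht2
  have h6 := hν2 _ ht1
  have e3 : p + s • (q - p) + t • ν - (p + (1 / 2 : ℝ) • (q - p)) =
      (s - 1 / 2) • (q - p) + t • ν := by
    rw [sub_smul]; abel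
  rw [e3, inner_add_right, inner_smul_right, inner_smul_right, h3, mul_zero, zero_add,
    real_inner_self_eq_norm_sq] at h6
  have := norm_pos_iff.2 hν
  have : 0 < t * ‖ν‖ ^ 2 := by positivity
  linarith

/-- degenerate chords are long -/
theorem deg_chord {t₁ t₂ t₃ t₄ l : ℝ} (hF : IsConvexFigure F) (h : IsBoundaryParam F γ)
    (h1 : t₁ < t₂) (h2 : t₂ < t₃) (h3 : t₃ < t₄) (h4 : t₄ < t₁ + 1) (hl : 0 < l)
    (m1 : (μH[1] : Measure E2) (γ '' Icc t₁ t₂) = ENNReal.ofReal l)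
    (m2 : (μH[1] : Measure E2) (γ '' Icc t₂ t₃) = ENNReal.ofReal l)
    (m3 : (μH[1] : Measure E2) (γ '' Icc t₃ t₄) = ENNReal.ofReal l)
    (m4 : (μH[1] : Measure E2) (γ '' Icc t₄ (t₁ + 1)) = ENNReal.ofReal l)
    (hm : γ t₁ + (1 / 2 : ℝ) • (γ t₃ - γ t₁) ∉ interior F) : 2 * l ≤ ‖γ t₃ - γ t₁‖ := by
  have hfr : ∀ t, γ t ∈ frontier F := fun t => h.range_eq ▸ mem_range_self t
  have hcl : ∀ t, γ t ∈ F := fun t => hF.isCompact.isClosed.frontier_subset (hfr t)
  have hseg := seg_frontier hF (hcl t₁) (hcl t₃) hm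
  have hp1 : γ (t₁ + 1) = γ t₁ := h.periodic t₁
  have hne : γ t₁ ≠ γ t₃ := by
    intro he
    have := param_injOn h t₁ ⟨le_rfl, by linarith⟩ ⟨by linarith, by linarith⟩ he
    linarith
  have hU1 : IsClosed (γ '' Icc t₁ t₃) := (isCompact_Icc.image h.continuous).isClosed
  have hU2 : IsClosed (γ '' Icc t₃ (t₁ + 1)) := (isCompact_Icc.image h.continuous).isClosed
  have hcov : openSegment ℝ (γ t₁) (γ t₃) ⊆ γ '' Icc t₁ t₃ ∪ γ '' Icc t₃ (t₁ + 1) := by
    rw [← image_union, Icc_union_Icc_eq_Icc (by linarith) (by linarith)]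
    intro z hz
    have := hseg (openSegment_subset_segment ℝ _ _ hz)
    rw [param_cover h t₁] at this
    exact image_mono Ico_subset_Icc_self this
  have hnot : ¬ (openSegment ℝ (γ t₁) (γ t₃) ∩ (γ '' Icc t₁ t₃ ∩ γ '' Icc t₃ (t₁ + 1))).Nonempty := by
    rintro ⟨w, hw, ⟨s, hs, rfl⟩, ⟨s', hs', hss⟩⟩
    rcases hs'.2.lt_or_eq with h5 | h5
    · have h6 := param_injOn h t₁ ⟨by linarith [hs'.1], h5⟩ ⟨hs.1, by linarith [hs.2]⟩ hss
      have h7 : s = t₃ := le_antisymm hs.2 (h6 ▸ hs'.1)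
      rw [h7] at hw
      exact hne (right_mem_openSegment_iff.1 hw)
    · rw [h5, hp1] at hss
      rw [← hss] at hw
      exact hne (left_mem_openSegment_iff.1 hw)
  have hpre : IsPreconnected (openSegment ℝ (γ t₁) (γ t₃)) := (convex_openSegment _ _).isPreconnected
  have hclos : segment ℝ (γ t₁) (γ t₃) = closure (openSegment ℝ (γ t₁) (γ t₃)) :=
    (closure_openSegment _ _).symm
  rcases (openSegment ℝ (γ t₁) (γ t₃) ∩ γ '' Icc t₃ (t₁ + 1)).eq_empty_or_nonempty with he | he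
  · have hsub : openSegment ℝ (γ t₁) (γ t₃) ⊆ γ '' Icc t₁ t₃ := by
      intro z hz
      rcases hcov hz with h5 | h5
      · exact h5
      · exact absurd (mem_inter hz h5) (by rw [he]; exact notMem_empty z)
    apply half_le h h1 h2 (by linarith) m1 m2 hl
    rw [hclos]
    exact closure_minimal hsub hU1
  · rcases (openSegment ℝ (γ t₁) (γ t₃) ∩ γ '' Icc t₁ t₃).eq_empty_or_nonempty with he2 | he2
    · have hsub : openSegment ℝ (γ t₁) (γ t₃) ⊆ γ '' Icc t₃ (t₁ + 1) := by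
        intro z hz
        rcases hcov hz with h5 | h5
        · exact absurd (mem_inter hz h5) (by rw [he2]; exact notMem_empty z)
        · exact h5
      have := half_le h h3 h4 (by linarith) m3 m4 hl (by
        rw [hp1, segment_symm, hclos]
        exact closure_minimal hsub hU2)
      rw [hp1, norm_sub_rev] at this
      exact this
    · exact absurd (isPreconnected_closed_iff.1 hpre _ _ hU1 hU2 hcov he2 he) hnot

/-- a line through an interior chord meets the boundary only in the endpoints of the chord -/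
theorem line_frontier (hF : IsConvexFigure F) {p q n z : E2} (hp : p ∈ frontier F)
    (hq : q ∈ frontier F) (hpq : p ≠ q) (hn : n ≠ 0) (hperp : ⟪n, q - p⟫_ℝ = 0)
    (hm : p + (1 / 2 : ℝ) • (q - p) ∈ interior F) (hz : z ∈ frontier F) (hz0 : ⟪n, z - p⟫_ℝ = 0) :
    z = p ∨ z = q := by
  have hcl := hF.isCompact.isClosed.frontier_subset
  have hd : q - p ≠ 0 := sub_ne_zero.2 hpq.symm
  have hdn : 0 < ‖q - p‖ := norm_pos_iff.2 hd
  have hnn : 0 < ‖n‖ := norm_pos_iff.2 hn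
  have hfr : Frame (‖q - p‖⁻¹ • (q - p)) (‖n‖⁻¹ • n) := by
    refine ⟨?_, ?_, ?_⟩
    · rw [norm_smul, norm_inv, norm_norm, inv_mul_cancel₀ hdn.ne']
    · rw [norm_smul, norm_inv, norm_norm, inv_mul_cancel₀ hnn.ne']
    · rw [inner_smul_left, inner_smul_right, real_inner_comm, hperp, mul_zero, mul_zero]
  have h1 := hfr.expand (z - p)
  rw [inner_smul_left _ _ _, inner_smul_left n, hz0, mul_zero, zero_smul, add_zero, smul_smul] at h1
  obtain ⟨s, hs⟩ : ∃ s : ℝ, z - p = s • (q - p) := ⟨_, h1⟩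
  have hzs : z = p + s • (q - p) := by rw [← hs]; abel
  set m := p + (1 / 2 : ℝ) • (q - p) with hmdef
  have e1 : ∀ r : ℝ, p + r • (q - p) = m + (r - 1 / 2) • (q - p) := by
    intro r; rw [hmdef, sub_smul]; abel
  have e2 : ∀ r : ℝ, p + r • (q - p) = m + (1 / 2 - r) • (-(q - p)) := by
    intro r; rw [e1, smul_neg, ← neg_smul]; congr 2; ring
  have eq1 : q = p + (1 : ℝ) • (q - p) := by rw [one_smul]; abel
  have ep1 : p = p + (0 : ℝ) • (q - p) := by rw [zero_smul, add_zero]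
  rcases lt_trichotomy s 0 with h | h | h
  · exfalso
    have := mem_int_of_lt (u := -(q - p)) (s := 1 / 2 - 0) (t := 1 / 2 - s) hF.convex hm
      (by rw [← e2, ← hzs]; exact hcl hz) (by norm_num) (by linarith)
    rw [← e2, ← ep1] at this
    exact hp.2 this
  · left; rw [hzs, h, ← ep1]
  · rcases lt_trichotomy s 1 with h' | h' | h'
    · exfalso
      rcases le_total s (1 / 2) with h5 | h5
      · have := mem_int_of_lt (u := -(q - p)) (s := 1 / 2 - s) (t := 1 / 2 - 0) hF.convex hm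
          (by rw [← e2, ← ep1]; exact hcl hp) (by linarith) (by linarith)
        rw [← e2, ← hzs] at this
        exact hz.2 this
      · have := mem_int_of_lt (u := q - p) (s := s - 1 / 2) (t := 1 - 1 / 2) hF.convex hm
          (by rw [← e1, ← eq1]; exact hcl hq) (by linarith) (by linarith)
        rw [← e1, ← hzs] at this
        exact hz.2 this
    · right; rw [hzs, h', ← eq1]
    · exfalso
      have := mem_int_of_lt (u := q - p) (s := 1 - 1 / 2) (t := s - 1 / 2) hF.convex hm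
        (by rw [← e1, ← hzs]; exact hcl hz) (by norm_num) (by linarith)
      rw [← e1, ← eq1] at this
      exact hq.2 this

/-- the two arcs cut off by an interior chord lie on different sides -/
theorem sides (hF : IsConvexFigure F) {p q n : E2} (hp : p ∈ frontier F)
    (hq : q ∈ frontier F) (hpq : p ≠ q) (hn : n ≠ 0) (hperp : ⟪n, q - p⟫_ℝ = 0)
    (hm : p + (1 / 2 : ℝ) • (q - p) ∈ interior F) {U V : Set E2}
    (hU : IsPreconnected U) (hV : IsPreconnected V) (hcov : frontier F ⊆ (U ∪ V) ∪ {p, q})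
    (hUf : U ⊆ frontier F) (hVf : V ⊆ frontier F) (hpU : p ∉ U) (hqU : q ∉ U) (hpV : p ∉ V)
    (hqV : q ∉ V) {u v : E2} (hu : u ∈ U) (hv : v ∈ V) (huv : ⟪n, u - p⟫_ℝ < ⟪n, v - p⟫_ℝ) :
    (∀ z ∈ U, ⟪n, z - p⟫_ℝ < 0) ∧ (∀ z ∈ V, 0 < ⟪n, z - p⟫_ℝ) := by
  have hcont : Continuous (fun z : E2 => ⟪n, z - p⟫_ℝ) :=
    continuous_const.inner (continuous_id.sub continuous_const)
  have hU0 : ∀ z ∈ U, ⟪n, z - p⟫_ℝ ≠ 0 := by
    intro z hz h0
    rcases line_frontier hF hp hq hpq hn hperp hm (hUf hz) h0 with h | h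
    · exact hpU (h ▸ hz)
    · exact hqU (h ▸ hz)
  have hV0 : ∀ z ∈ V, ⟪n, z - p⟫_ℝ ≠ 0 := by
    intro z hz h0
    rcases line_frontier hF hp hq hpq hn hperp hm (hVf hz) h0 with h | h
    · exact hpV (h ▸ hz)
    · exact hqV (h ▸ hz)
  have sign : ∀ {S : Set E2}, IsPreconnected S → (∀ z ∈ S, ⟪n, z - p⟫_ℝ ≠ 0) → ∀ {s t : E2},
      s ∈ S → t ∈ S → ⟪n, s - p⟫_ℝ < 0 → ⟪n, t - p⟫_ℝ < 0 := by
    intro S hS hS0 s t hs ht hneg
    by_contra hcon
    push Not at hcon
    obtain ⟨w, hw, hw0⟩ := hS.intermediate_value hs ht hcont.continuousOn ⟨hneg.le, hcon⟩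
    exact hS0 w hw hw0
  -- points on both sides
  have hmF := interior_subset hm
  have hplus : ∃ z ∈ frontier F, 0 < ⟪n, z - p⟫_ℝ := by
    obtain ⟨t, ht, ht2⟩ := Pool.Agent.Y508.exists_last hF.isCompact hmF hn
    refine ⟨_, ht2, ?_⟩
    have ht0 : 0 < t := by
      rcases ht.lt_or_eq with h | h
      · exact h
      · rw [← h, zero_smul, add_zero] at ht2
        exact absurd hm ht2.2
    have e : p + (1 / 2 : ℝ) • (q - p) + t • n - p = (1 / 2 : ℝ) • (q - p) + t • n := by abel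
    rw [e, inner_add_right, inner_smul_right, inner_smul_right, hperp, mul_zero, zero_add,
      real_inner_self_eq_norm_sq]
    have := norm_pos_iff.2 hn
    positivity
  have hminus : ∃ z ∈ frontier F, ⟪n, z - p⟫_ℝ < 0 := by
    obtain ⟨t, ht, ht2⟩ := Pool.Agent.Y508.exists_last hF.isCompact hmF (neg_ne_zero.2 hn)
    refine ⟨_, ht2, ?_⟩
    have ht0 : 0 < t := by
      rcases ht.lt_or_eq with h | h
      · exact h
      · rw [← h, zero_smul, add_zero] at ht2
        exact absurd hm ht2.2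
    have e : p + (1 / 2 : ℝ) • (q - p) + t • (-n) - p = (1 / 2 : ℝ) • (q - p) + t • (-n) := by abel
    rw [e, inner_add_right, inner_smul_right, inner_smul_right, hperp, mul_zero, zero_add,
      inner_neg_right, real_inner_self_eq_norm_sq]
    have := norm_pos_iff.2 hn
    have : 0 < t * ‖n‖ ^ 2 := by positivity
    linarith
  have hp0 : ⟪n, p - p⟫_ℝ = 0 := by rw [sub_self, inner_zero_right]
  have hu0 : ⟪n, u - p⟫_ℝ < 0 := by
    by_contra hcon
    push Not at hcon
    have h1 : ∀ z ∈ U, 0 ≤ ⟪n, z - p⟫_ℝ := by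
      intro z hz
      by_contra h2
      push Not at h2
      have := sign hU hU0 hz hu h2
      linarith
    have h2 : ∀ z ∈ V, 0 ≤ ⟪n, z - p⟫_ℝ := by
      intro z hz
      by_contra h2
      push Not at h2
      have := sign hV hV0 hz hv h2
      linarith
    obtain ⟨z, hz, hz2⟩ := hminus
    rcases hcov hz with (h | h) | h | h
    · have := h1 z h; linarith
    · have := h2 z h; linarith
    · rw [h, hp0] at hz2; exact lt_irrefl _ hz2
    · rw [mem_singleton_iff.1 h, hperp] at hz2; exact lt_irrefl _ hz2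
  have hUneg : ∀ z ∈ U, ⟪n, z - p⟫_ℝ < 0 := fun z hz => sign hU hU0 hu hz hu0
  refine ⟨hUneg, fun z hz => ?_⟩
  by_contra hcon
  push Not at hcon
  have hz1 : ⟪n, z - p⟫_ℝ < 0 := lt_of_le_of_ne hcon (hV0 z hz)
  obtain ⟨w, hw, hw2⟩ := hplus
  rcases hcov hw with (h | h) | h | h
  · have := hUneg w h; linarith
  · have := sign hV hV0 hz h hz1; linarith
  · rw [h, hp0] at hw2; exact lt_irrefl _ hw2
  · rw [mem_singleton_iff.1 h, hperp] at hw2; exact lt_irrefl _ hw2

end Q190.QC
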