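import Mathlib
import Pool.Agent.Q190.Planar

/-!
# The body with support function `(‖x‖² (‖x‖² + x₂²))^(1/4)`
-/

namespace Q190.Quartic

open scoped InnerProductSpace
open Q190

/-- The quartic form in coordinates. -/
def G (a b c : ℝ) : ℝ := (a ^ 2 + b ^ 2 + c ^ 2) * (a ^ 2 + b ^ 2 + 2 * c ^ 2)

/-- The quartic form. -/
noncomputable def F (x : E3) : ℝ := ‖x‖ ^ 2 * (‖x‖ ^ 2 + x 2 ^ 2)

/-- The support function. -/
noncomputable def h (x : E3) : ℝ := Real.sqrt (Real.sqrt (F x))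

theorem F_eq (x : E3) : F x = G (x 0) (x 1) (x 2) := by
  rw [F, G, norm_sq_E3]; ring

theorem G_sum (a b c : ℝ) : G a b c =
    (1 / 6) * (a ^ 4 + b ^ 4 + 6 * c ^ 4 + (a + b) ^ 4 + (a - b) ^ 4) +
    (1 / 4) * ((a + c) ^ 4 + (a - c) ^ 4 + (b + c) ^ 4 + (b - c) ^ 4) := by
  rw [G]; ring

theorem pow4_convex (s t l m : ℝ) (hl : 0 ≤ l) (hm : 0 ≤ m) (hlm : l + m = 1) :
    (l * s + m * t) ^ 4 ≤ l * s ^ 4 + m * t ^ 4 := by
  have := (Even.convexOn_pow (𝕜 := ℝ) (n := 4) ⟨2, rfl⟩).2 (Set.mem_univ s) (Set.mem_univ t)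
    hl hm hlm
  simpa using this

theorem G_convex (a b c a' b' c' l m : ℝ) (hl : 0 ≤ l) (hm : 0 ≤ m) (hlm : l + m = 1) :
    G (l * a + m * a') (l * b + m * b') (l * c + m * c') ≤ l * G a b c + m * G a' b' c' := by
  rw [G_sum, G_sum a, G_sum a']
  have h1 := pow4_convex a a' l m hl hm hlm
  have h2 := pow4_convex b b' l m hl hm hlm
  have h3 := pow4_convex c c' l m hl hm hlm
  have h4 := pow4_convex (a + b) (a' + b') l m hl hm hlm
  have h5 := pow4_convex (a - b) (a' - b') l m hl hm hlm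
  have h6 := pow4_convex (a + c) (a' + c') l m hl hm hlm
  have h7 := pow4_convex (a - c) (a' - c') l m hl hm hlm
  have h8 := pow4_convex (b + c) (b' + c') l m hl hm hlm
  have h9 := pow4_convex (b - c) (b' - c') l m hl hm hlm
  have e4 : l * a + m * a' + (l * b + m * b') = l * (a + b) + m * (a' + b') := by ring
  have e5 : l * a + m * a' - (l * b + m * b') = l * (a - b) + m * (a' - b') := by ring
  have e6 : l * a + m * a' + (l * c + m * c') = l * (a + c) + m * (a' + c') := by ring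
  have e7 : l * a + m * a' - (l * c + m * c') = l * (a - c) + m * (a' - c') := by ring
  have e8 : l * b + m * b' + (l * c + m * c') = l * (b + c) + m * (b' + c') := by ring
  have e9 : l * b + m * b' - (l * c + m * c') = l * (b - c) + m * (b' - c') := by ring
  rw [e4, e5, e6, e7, e8, e9]
  linarith

theorem F_convex (x y : E3) (l m : ℝ) (hl : 0 ≤ l) (hm : 0 ≤ m) (hlm : l + m = 1) :
    F (l • x + m • y) ≤ l * F x + m * F y := by
  rw [F_eq, F_eq x, F_eq y]
  simp only [PiLp.add_apply, PiLp.smul_apply, smul_eq_mul]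
  exact G_convex _ _ _ _ _ _ l m hl hm hlm

theorem F_nonneg (x : E3) : 0 ≤ F x := by rw [F]; positivity

theorem F_smul (c : ℝ) (x : E3) : F (c • x) = c ^ 4 * F x := by
  rw [F_eq, F_eq x, G, G]
  simp only [PiLp.smul_apply, smul_eq_mul]
  ring

theorem h_nonneg (x : E3) : 0 ≤ h x := Real.sqrt_nonneg _

theorem h_pow (x : E3) : h x ^ 4 = F x := by
  have : h x ^ 4 = (h x ^ 2) ^ 2 := by ring
  rw [this, h, Real.sq_sqrt (Real.sqrt_nonneg _), Real.sq_sqrt (F_nonneg x)]

theorem h_sq (x : E3) : h x ^ 2 = Real.sqrt (F x) := by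
  rw [h, Real.sq_sqrt (Real.sqrt_nonneg _)]

theorem h_unique {x : E3} {r : ℝ} (hr : 0 ≤ r) (h4 : r ^ 4 = F x) : h x = r := by
  have := h_pow x
  rw [← h4] at this
  exact (pow_left_inj₀ (h_nonneg x) hr (by norm_num)).1 this

theorem h_smul (c : ℝ) (hc : 0 < c) (x : E3) : h (c • x) = c * h x := by
  apply h_unique (mul_nonneg hc.le (h_nonneg x))
  rw [F_smul, mul_pow, h_pow]

theorem h_neg (x : E3) : h (-x) = h x := by
  apply h_unique (h_nonneg x)
  rw [h_pow, F_eq, F_eq, G, G]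
  simp

theorem h_lower (x : E3) : 1 * ‖x‖ ≤ h x := by
  rw [one_mul]
  have h1 : ‖x‖ ^ 4 ≤ h x ^ 4 := by
    rw [h_pow, F]
    nlinarith [sq_nonneg (‖x‖ * x 2)]
  exact le_of_pow_le_pow_left₀ (by norm_num) (h_nonneg x) h1

theorem h_upper (x : E3) : h x ≤ 2 * ‖x‖ := by
  have h1 : h x ^ 4 ≤ (2 * ‖x‖) ^ 4 := by
    rw [h_pow, F]
    have h2 : x 2 ^ 2 ≤ ‖x‖ ^ 2 := by
      rw [norm_sq_E3]; nlinarith [sq_nonneg (x 0), sq_nonneg (x 1)]
    have h3 : 0 ≤ ‖x‖ ^ 2 := by positivity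
    nlinarith
  exact le_of_pow_le_pow_left₀ (by norm_num) (by positivity) h1

theorem h_zero : h 0 = 0 := by
  apply h_unique le_rfl
  simp [F]

theorem h_eq_zero {x : E3} (hx : h x = 0) : x = 0 := by
  have := h_lower x
  rw [hx, one_mul] at this
  exact norm_eq_zero.1 (le_antisymm this (norm_nonneg x))

theorem sublin : Sublin h where
  hom := h_smul
  add := by
    intro x y
    rcases eq_or_lt_of_le (h_nonneg x) with hx | hx
    · have := h_eq_zero hx.symm
      rw [this, zero_add, h_zero, zero_add]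
    rcases eq_or_lt_of_le (h_nonneg y) with hy | hy
    · have := h_eq_zero hy.symm
      rw [this, add_zero, h_zero, add_zero]
    set a := h x with ha
    set b := h y with hb
    have hab : 0 < a + b := by linarith
    have h1 := F_convex (a⁻¹ • x) (b⁻¹ • y) (a / (a + b)) (b / (a + b)) (by positivity)
      (by positivity) (by field_simp)
    have hFx : F (a⁻¹ • x) = 1 := by
      rw [F_smul, ← h_pow x, ← ha, inv_pow, inv_mul_cancel₀ (by positivity)]
    have hFy : F (b⁻¹ • y) = 1 := by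
      rw [F_smul, ← h_pow y, ← hb, inv_pow, inv_mul_cancel₀ (by positivity)]
    rw [hFx, hFy, smul_smul, smul_smul] at h1
    have e1 : a / (a + b) * a⁻¹ = (a + b)⁻¹ := by field_simp
    have e2 : b / (a + b) * b⁻¹ = (a + b)⁻¹ := by field_simp
    have e3 : a / (a + b) * 1 + b / (a + b) * 1 = 1 := by field_simp
    rw [e1, e2, e3, ← smul_add, F_smul, ← h_pow] at h1
    have h2 : h (x + y) ^ 4 ≤ (a + b) ^ 4 := by
      rw [inv_pow, inv_mul_le_iff₀ (by positivity), mul_one] at h1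
      exact h1
    exact le_of_pow_le_pow_left₀ (by norm_num) hab.le h2

/-- The body. -/
def K : Set E3 := W h

theorem K_body : IsConvexBody K :=
  W_body (m := 1) (M := 2) (by norm_num) (by norm_num) h_lower h_upper

theorem K_not_ellipsoid : ¬ IsEllipsoid K := by
  rintro ⟨T, hK⟩
  set c : E3 := T 0 with hc
  set L : E3 ≃ₗ[ℝ] E3 := T.linear with hL
  have hT : ∀ x, T x = L x + c := by
    intro x
    have := T.map_vadd 0 x
    simpa [vadd_eq_add] using this
  let f : E3 → ℝ := fun x => h x - ⟪x, c⟫_ℝ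
  have hf : Sublin f := by
    constructor
    · intro r hr x
      simp only [f, h_smul r hr, inner_smul_left, conj_trivial]
      ring
    · intro x y
      simp only [f, inner_add_left]
      have := sublin.add x y
      linarith
  have hWf : W f = (L : E3 →ₗ[ℝ] E3) '' Metric.closedBall 0 1 := by
    have h1 : W h = (fun y => y + c) '' W f := by
      rw [← W_add_inner]
      congr 1
      ext x
      simp [f]
    have h2 : (fun y => y + c) '' ((L : E3 →ₗ[ℝ] E3) '' Metric.closedBall 0 1) = W h := by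
      rw [Set.image_image]
      change _ = K
      rw [hK]
      exact Set.image_congr fun x _ => (hT x).symm
    have h3 : Function.Injective (fun y : E3 => y + c) := add_left_injective c
    exact (h3.image_injective (h2.trans h1)).symm
  have H := eq_of_W_eq_ellipsoid hf (L : E3 →ₗ[ℝ] E3) hWf
  have hc0 : ∀ x, ⟪x, c⟫_ℝ = 0 := by
    intro x
    have h1 := H x
    have h2 := H (-x)
    rw [map_neg, norm_neg, ← h1] at h2
    simp only [f, h_neg, inner_neg_left] at h2
    linarith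
  have H' : ∀ x, h x = ‖LinearMap.adjoint (L : E3 →ₗ[ℝ] E3) x‖ := by
    intro x
    have := H x
    simp only [f, hc0, sub_zero] at this
    exact this
  have par := parallelogram_law_with_norm ℝ
    (LinearMap.adjoint (L : E3 →ₗ[ℝ] E3) !₂[1, 0, 0])
    (LinearMap.adjoint (L : E3 →ₗ[ℝ] E3) !₂[0, 0, 1])
  have f1 : F (!₂[1, 0, 0] + !₂[0, 0, 1]) = 6 := by
    rw [F_eq, G]; simp; norm_num
  have f2 : F (!₂[1, 0, 0] - !₂[0, 0, 1]) = 6 := by
    rw [F_eq, G]; simp; norm_num
  have f3 : F !₂[1, 0, 0] = 1 := by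
    rw [F_eq, G]; simp
  have f4 : F !₂[0, 0, 1] = 2 := by
    rw [F_eq, G]; simp
  rw [← map_add, ← map_sub, ← H', ← H', ← H', ← H', h_sq, h_sq, h_sq,
    h_sq, f1, f2, f3, f4, Real.sqrt_one] at par
  have h6 : Real.sqrt 6 ^ 2 = 6 := Real.sq_sqrt (by norm_num)
  have h2 : Real.sqrt 2 ^ 2 = 2 := Real.sq_sqrt (by norm_num)
  have e1 : Real.sqrt 6 = 1 + Real.sqrt 2 := by linarith
  rw [e1] at h6
  have e2 : Real.sqrt 2 = 3 / 2 := by nlinarith
  rw [e2] at h2
  norm_num at h2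

/-- A complex coordinate on the plane in which the last coordinate is a multiple of the real
part. -/
theorem exists_phi_adapted {u : E3} (hu : ‖u‖ = 1) : ∃ (φ : ℂ ≃ₗᵢ[ℝ] (ℝ ∙ u)ᗮ) (k : ℝ),
    ∀ z : ℂ, (φ z : E3) 2 = k * z.re := by
  obtain ⟨φ, -⟩ := exists_phi hu
  set c : ℂ := ⟨(φ 1 : E3) 2, (φ Complex.I : E3) 2⟩ with hc
  have h1 : ∀ z : ℂ, (φ z : E3) 2 = c.re * z.re + c.im * z.im := by
    intro z
    rw [phi_eq φ z]
    simp only [Submodule.coe_add, Submodule.coe_smul, PiLp.add_apply, PiLp.smul_apply,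
      smul_eq_mul, hc]
    ring
  rcases eq_or_ne c 0 with h0 | h0
  · refine ⟨φ, 0, fun z => ?_⟩
    rw [h1, h0]
    simp
  · have hc' : 0 < ‖c‖ := norm_pos_iff.2 h0
    let w : Circle := ⟨c / ‖c‖, by
      change _ ∈ Metric.sphere (0 : ℂ) 1
      rw [mem_sphere_zero_iff_norm, norm_div, Complex.norm_real, norm_norm, div_self hc'.ne']⟩
    refine ⟨(rotation w).trans φ, ‖c‖, fun z => ?_⟩
    have hw : (w : ℂ) = c / ‖c‖ := rfl
    change (φ (rotation w z) : E3) 2 = _
    rw [h1, rotation_apply, hw]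
    have e : c / (‖c‖ : ℂ) * z = (‖c‖⁻¹ : ℝ) • (c * z) := by
      rw [Complex.real_smul]
      push_cast
      field_simp
    rw [e, Complex.smul_re, Complex.smul_im, Complex.mul_re, Complex.mul_im, smul_eq_mul,
      smul_eq_mul]
    have e2 : c.re * c.re + c.im * c.im = ‖c‖ ^ 2 := by
      rw [Complex.sq_norm, Complex.normSq_apply]
    field_simp
    rw [← e2]
    ring

/-- The scaling of the real part. -/
noncomputable def D (m : ℝ) (hm : m ≠ 0) : ℂ ≃ₗ[ℝ] ℂ where
  toFun z := ⟨m * z.re, z.im⟩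
  map_add' x y := by
    apply Complex.ext
    · simp [mul_add]
    · simp
  map_smul' r x := by
    apply Complex.ext
    · simp; ring
    · simp
  invFun z := ⟨m⁻¹ * z.re, z.im⟩
  left_inv z := by
    apply Complex.ext
    · simp [hm]
    · simp
  right_inv z := by
    apply Complex.ext
    · simp [hm]
    · simp

/-- The imaginary unit as an element of the circle. -/
noncomputable def cI : Circle := ⟨Complex.I, by
  change _ ∈ Metric.sphere (0 : ℂ) 1
  rw [mem_sphere_zero_iff_norm, Complex.norm_I]⟩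

theorem cI_coe : (cI : ℂ) = Complex.I := rfl

theorem projections (u : E3) (hu : ‖u‖ = 1) :
    ∃ (A : Set (ℝ ∙ u)ᗮ) (T : (ℝ ∙ u)ᗮ ≃ₗ[ℝ] (ℝ ∙ u)ᗮ),
      CompletelySymmetric A ∧ proj (ℝ ∙ u)ᗮ K = T '' A := by
  obtain ⟨φ, k, hφ⟩ := exists_phi_adapted hu
  obtain ⟨m, hm, hm4⟩ : ∃ m : ℝ, 0 < m ∧ m ^ 4 = 1 + k ^ 2 := by
    refine ⟨Real.sqrt (Real.sqrt (1 + k ^ 2)), by positivity, ?_⟩
    have : ∀ r : ℝ, r ^ 4 = (r ^ 2) ^ 2 := fun r => by ring
    rw [this, Real.sq_sqrt (by positivity), Real.sq_sqrt (by positivity)]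
  let T : (ℝ ∙ u)ᗮ ≃ₗ[ℝ] (ℝ ∙ u)ᗮ :=
    φ.toLinearEquiv.symm.trans ((D m hm.ne').trans φ.toLinearEquiv)
  have hTφ : ∀ z, T (φ z) = φ ⟨m * z.re, z.im⟩ := by
    intro z
    change φ (D m hm.ne' (φ.symm (φ z))) = _
    rw [φ.symm_apply_apply]
    rfl
  have hTsφ : ∀ z, T.symm (φ z) = φ ⟨m⁻¹ * z.re, z.im⟩ := by
    intro z
    rw [LinearEquiv.symm_apply_eq, hTφ]
    congr 1
    apply Complex.ext
    · simp [hm.ne']
    · simp
  have hTadj : ∀ x y, ⟪T x, y⟫_ℝ = ⟪x, T y⟫_ℝ := by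
    intro x y
    obtain ⟨z, rfl⟩ := φ.surjective x
    obtain ⟨w, rfl⟩ := φ.surjective y
    rw [hTφ, hTφ, φ.inner_map_map, φ.inner_map_map, Complex.inner, Complex.inner]
    simp
    ring
  have hTsadj : ∀ x y, ⟪T.symm x, y⟫_ℝ = ⟪x, T.symm y⟫_ℝ := by
    intro x y
    have := hTadj (T.symm x) (T.symm y)
    rw [T.apply_symm_apply, T.apply_symm_apply] at this
    exact this.symm
  let f : (ℝ ∙ u)ᗮ → ℝ := fun x => h (T.symm x : E3)
  have hproj : proj (ℝ ∙ u)ᗮ K = W (fun x : (ℝ ∙ u)ᗮ => h (x : E3)) := by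
    rw [proj, K, proj_W sublin]
  have h1 : proj (ℝ ∙ u)ᗮ K = T '' W f := by
    rw [hproj, image_W_selfadjoint f T hTadj]
    congr 1
    ext x
    simp only [f, T.symm_apply_apply]
  have h2 : W f = T.symm '' proj (ℝ ∙ u)ᗮ K := by
    rw [hproj, image_W_selfadjoint _ T.symm hTsadj]
  have hbody : IsConvexBody (proj (ℝ ∙ u)ᗮ K) := by
    rw [hproj]
    exact W_body (m := 1) (M := 2) (by norm_num) (by norm_num)
      (fun x => h_lower (x : E3)) (fun x => h_upper (x : E3))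
  let T' := T.symm.toContinuousLinearEquiv
  have hcomp : IsCompact (W f) := by
    rw [h2]
    exact hbody.compact.image T'.continuous
  have hint : (interior (W f)).Nonempty := by
    rw [h2]
    have := T'.toHomeomorph.image_interior (proj (ℝ ∙ u)ᗮ K)
    change T.symm '' interior (proj (ℝ ∙ u)ᗮ K) = interior (T.symm '' proj (ℝ ∙ u)ᗮ K) at this
    rw [← this]
    exact hbody.nonempty_interior.image _
  have hFφ : ∀ z : ℂ, F (φ z : E3) = (z.re ^ 2 + z.im ^ 2) * (m ^ 4 * z.re ^ 2 + z.im ^ 2) := by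
    intro z
    have e : ‖(φ z : E3)‖ ^ 2 = z.re ^ 2 + z.im ^ 2 := by
      have : ‖(φ z : E3)‖ = ‖z‖ := φ.norm_map z
      rw [this, Complex.sq_norm, Complex.normSq_apply]
      ring
    rw [F, e, hφ, hm4]
    ring
  have hinv : ∀ x, f (rotH φ cI x) = f x := by
    intro x
    obtain ⟨z, rfl⟩ := φ.surjective x
    rw [rotH_apply, cI_coe]
    simp only [f]
    rw [hTsφ, hTsφ]
    apply h_unique (h_nonneg _)
    rw [h_pow, hFφ, hFφ]
    simp
    field_simp
    ring
  refine ⟨W f, T, ?_, h1⟩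
  refine completelySymmetric_of_rot (isRot_rotH φ _ ?_) (finrank_orth hu) hcomp hint
    (image_W_invariant hinv)
  rw [cI_coe]
  simp

end Q190.Quartic
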