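import Mathlib

/-!
# Radial mean bodies and embedding in `L^q`: definitions
-/

namespace Q190.RMB

open MeasureTheory
open scoped InnerProductSpace

variable {V : Type*} [NormedAddCommGroup V] [InnerProductSpace ℝ V]

/-- The radial function `ρ_M(x) = sup {r ≥ 0 : r x ∈ M}`. -/
noncomputable def radial (M : Set V) (x : V) : ℝ := sSup {r : ℝ | 0 ≤ r ∧ r • x ∈ M}

/-- `(1/Vol(K) ∫_K ρ_{K-y}(u)^p dy)^(1/p)`. -/
noncomputable def meanRadius [FiniteDimensional ℝ V] [MeasurableSpace V] [BorelSpace V]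
    (K : Set V) (p : ℝ) (u : V) : ℝ :=
  ((volume K).toReal⁻¹ * ∫ y in K, radial ((fun z => z - y) '' K) u ^ p) ^ (1 / p)

/-- The radial `p`-th mean body: the star body with radial function `meanRadius K p` on the
unit sphere. -/
noncomputable def radialMeanBody [FiniteDimensional ℝ V] [MeasurableSpace V] [BorelSpace V]
    (K : Set V) (p : ℝ) : Set V :=
  {x | x = 0 ∨ ‖x‖ ≤ meanRadius K p (‖x‖⁻¹ • x)}

/-- `M` embeds in `L^q`: `ρ_M(x)^(-q) = ∫ |⟪x, u⟫|^q dμ(u)` for a finite Borel measure `μ` on the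
unit sphere. -/
def EmbedsInLq [MeasurableSpace V] (M : Set V) (q : ℝ) : Prop :=
  ∃ μ : Measure (Metric.sphere (0 : V) 1), IsFiniteMeasure μ ∧
    ∀ x : V, x ≠ 0 → radial M x ^ (-q) = ∫ u, |⟪x, (u : V)⟫_ℝ| ^ q ∂μ

end Q190.RMB
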