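import Mathlib
import Pool.Agent.H153R4.Pl
import Pool.Agent.Q190.RMBDefs

/-!
# The covariogram and its Fourier representation
-/

namespace Q190.RMB

open MeasureTheory Set FourierTransform
open scoped InnerProductSpace ENNReal

variable {V : Type*} [NormedAddCommGroup V] [InnerProductSpace ℝ V] [FiniteDimensional ℝ V]
  [MeasurableSpace V] [BorelSpace V]

/-- The indicator function. -/
noncomputable def ind (K : Set V) : V → ℂ := K.indicator (fun _ => (1 : ℂ))

/-- `Vol(K \ (K - z))`. -/
noncomputable def D (K : Set V) (z : V) : ℝ≥0∞ := volume (K \ {x | x + z ∈ K})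

theorem ind_integrable {K : Set V} (hK : IsCompact K) : Integrable (ind K) :=
  (integrable_indicator_iff hK.measurableSet).2 (integrableOn_const hK.measure_lt_top.ne)

theorem ind_memLp {K : Set V} (hK : IsCompact K) : MemLp (ind K) 2 :=
  memLp_indicator_const 2 hK.measurableSet 1 (Or.inr hK.measure_lt_top.ne)

theorem normsq_exp (t : ℝ) : ‖Complex.exp (t * Complex.I) - 1‖ ^ 2 = 2 * (1 - Real.cos t) := by
  rw [Complex.exp_mul_I, Complex.sq_norm, Complex.normSq_apply]
  simp only [Complex.sub_re, Complex.add_re, Complex.mul_re, Complex.I_re, Complex.I_im,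
    Complex.sub_im, Complex.add_im, Complex.mul_im, Complex.one_re, Complex.one_im,
    Complex.cos_ofReal_re, Complex.cos_ofReal_im, Complex.sin_ofReal_re, Complex.sin_ofReal_im]
  have := Real.sin_sq_add_cos_sq t
  nlinarith

theorem D_fourier {K : Set V} (hK : IsCompact K) (z : V) :
    D K z = ∫⁻ ξ, ‖𝓕 (ind K) ξ‖ₑ ^ 2 * ENNReal.ofReal (1 - Real.cos (2 * Real.pi * ⟪z, ξ⟫_ℝ)) := by
  let g : V → ℂ := fun x => ind K (x + z) - ind K x
  have hi := ind_integrable hK
  have hi' : Integrable (fun x => ind K (x + z)) := hi.comp_add_right z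
  have hm := ind_memLp hK
  have hm' : MemLp (fun x => ind K (x + z)) 2 :=
    hm.comp_measurePreserving (measurePreserving_add_right volume z)
  have hpl := Pool.Agent.H153R4.plancherel g (hi'.sub hi) (hm'.sub hm)
  have hF : ∀ ξ, 𝓕 g ξ = (Complex.exp ((2 * Real.pi * ⟪z, ξ⟫_ℝ : ℝ) * Complex.I) - 1)
      * 𝓕 (ind K) ξ := by
    intro ξ
    have h1 : 𝓕 g ξ = 𝓕 (fun x => ind K (x + z)) ξ - 𝓕 (ind K) ξ := by
      rw [Real.fourier_eq, Real.fourier_eq, Real.fourier_eq, ← integral_sub
        ((Real.fourierIntegral_convergent_iff ξ).2 hi')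
        ((Real.fourierIntegral_convergent_iff ξ).2 hi)]
      congr 1
      ext x
      rw [← smul_sub]
    have h2 : 𝓕 (fun x => ind K (x + z)) ξ =
        Complex.exp ((2 * Real.pi * ⟪z, ξ⟫_ℝ : ℝ) * Complex.I) * 𝓕 (ind K) ξ := by
      have h := VectorFourier.fourierIntegral_comp_add_right Real.fourierChar volume (innerₗ V)
        (ind K) z
      have h' := congrFun h ξ
      rw [Circle.smul_def, Real.fourierChar_apply] at h'
      exact h'
    rw [h1, h2]; ring
  have hL : ∫⁻ ξ, ‖𝓕 g ξ‖ₑ ^ 2 = 2 * ∫⁻ ξ, ‖𝓕 (ind K) ξ‖ₑ ^ 2 *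
      ENNReal.ofReal (1 - Real.cos (2 * Real.pi * ⟪z, ξ⟫_ℝ)) := by
    rw [← lintegral_const_mul' _ _ (by norm_num)]
    refine lintegral_congr fun ξ => ?_
    rw [hF, enorm_mul, mul_pow, ← ofReal_norm_eq_enorm, ← ENNReal.ofReal_pow (norm_nonneg _),
      normsq_exp, ENNReal.ofReal_mul (by norm_num)]
    simp only [ENNReal.ofReal_ofNat]
    ring
  -- the other side
  let K' : Set V := {x | x + z ∈ K}
  have hK' : MeasurableSet K' := (measurable_add_const z) hK.measurableSet
  have hv : volume K' = volume K := measure_preimage_add_right volume z K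
  have hR : ∫⁻ x, ‖g x‖ₑ ^ 2 = volume (K \ K') + volume (K' \ K) := by
    rw [← lintegral_indicator_one (hK.measurableSet.diff hK'),
      ← lintegral_indicator_one (hK'.diff hK.measurableSet),
      ← lintegral_add_left (measurable_one.indicator (hK.measurableSet.diff hK'))]
    refine lintegral_congr fun x => ?_
    simp only [g, ind]
    by_cases hx : x ∈ K <;> by_cases hx' : x + z ∈ K
    · have h1 : x ∉ K \ K' := fun h => h.2 hx'
      have h2 : x ∉ K' \ K := fun h => h.2 hx
      simp [hx, hx', h1, h2]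
    · have h1 : x ∈ K \ K' := ⟨hx, hx'⟩
      have h2 : x ∉ K' \ K := fun h => h.2 hx
      simp [hx, hx', h1, h2]
    · have h1 : x ∉ K \ K' := fun h => hx h.1
      have h2 : x ∈ K' \ K := ⟨hx', hx⟩
      simp [hx, hx', h1, h2]
    · have h1 : x ∉ K \ K' := fun h => hx h.1
      have h2 : x ∉ K' \ K := fun h => hx' h.1
      simp [hx, hx', h1, h2]
  have hsym : volume (K' \ K) = volume (K \ K') := by
    have h1 := measure_inter_add_diff (μ := volume) K hK'
    have h2 := measure_inter_add_diff (μ := volume) K' hK.measurableSet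
    rw [hv, ← h1, inter_comm] at h2
    have hfin : volume (K ∩ K') ≠ ⊤ :=
      ne_top_of_le_ne_top hK.measure_lt_top.ne (measure_mono inter_subset_left)
    exact (ENNReal.add_right_inj hfin).1 h2
  rw [hL, hR, hsym, ← two_mul] at hpl
  exact ((ENNReal.mul_right_inj (by norm_num) (by norm_num)).1 hpl).symm

end Q190.RMB
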