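import Mathlib
import Pool.Agent.Q190.RMB1

/-!
# Layer-cake formula for the radial mean bodies of negative order
-/

namespace Q190.RMB

open MeasureTheory Set FourierTransform
open scoped InnerProductSpace ENNReal

/-- The constant. -/
noncomputable def cq (q : ℝ) : ℝ≥0∞ :=
  ∫⁻ r in Ioi (0 : ℝ), ENNReal.ofReal (q * r ^ (-q - 1) * (1 - Real.cos (2 * Real.pi * r)))

theorem scaling (q : ℝ) (hq : 0 < q) (s : ℝ) :
    ∫⁻ r in Ioi (0 : ℝ), ENNReal.ofReal (q * r ^ (-q - 1) *
      (1 - Real.cos (2 * Real.pi * (r * s)))) = ENNReal.ofReal (|s| ^ q) * cq q := by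
  rcases eq_or_ne s 0 with rfl | hs
  · simp [hq.ne']
  · obtain ⟨t, ht⟩ : ∃ t, t = |s| := ⟨_, rfl⟩
    have ht0 : 0 < t := ht ▸ abs_pos.2 hs
    have hcos : ∀ r : ℝ, Real.cos (2 * Real.pi * (r * s)) = Real.cos (2 * Real.pi * (r * t)) := by
      intro r
      rcases abs_choice s with h | h
      · rw [ht, h]
      · rw [ht, h, ← Real.cos_neg]; congr 1; ring
    simp only [hcos]
    rw [← ht]
    have himg : (fun r : ℝ => t * r) '' Ioi 0 = Ioi 0 := by
      rw [image_mul_left_Ioi ht0, mul_zero]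
    have h := lintegral_image_eq_lintegral_abs_deriv_mul (s := Ioi (0 : ℝ)) (f := fun r => t * r)
      (f' := fun _ => t) measurableSet_Ioi
      (fun x _ => by simpa using ((hasDerivAt_id x).const_mul t).hasDerivWithinAt)
      (fun x _ y _ hxy => mul_left_cancel₀ ht0.ne' hxy)
      (fun r => ENNReal.ofReal (q * r ^ (-q - 1) * (1 - Real.cos (2 * Real.pi * r))))
    rw [himg] at h
    rw [cq, h]
    have h2 : ∀ r ∈ Ioi (0 : ℝ), ENNReal.ofReal |t| * ENNReal.ofReal (q * (t * r) ^ (-q - 1) *
        (1 - Real.cos (2 * Real.pi * (t * r)))) = ENNReal.ofReal (t ^ (-q)) *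
        ENNReal.ofReal (q * r ^ (-q - 1) * (1 - Real.cos (2 * Real.pi * (r * t)))) := by
      intro r hr
      have hr0 : 0 < r := hr
      rw [← ENNReal.ofReal_mul (abs_nonneg t), ← ENNReal.ofReal_mul (by positivity), abs_of_pos ht0,
        Real.mul_rpow ht0.le hr0.le, mul_comm t r]
      congr 1
      have e : t ^ (-q) = t * t ^ (-q - 1) := by
        have := Real.rpow_add ht0 1 (-q - 1)
        rw [Real.rpow_one] at this
        rw [← this]; congr 1; ring
      rw [e]; ring
    rw [setLIntegral_congr_fun measurableSet_Ioi h2, lintegral_const_mul' _ _ ENNReal.ofReal_ne_top,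
      ← mul_assoc, ← ENNReal.ofReal_mul (by positivity), ← Real.rpow_add ht0]
    simp

theorem layer (q : ℝ) (hq : 0 < q) {R : ℝ} (hR : 0 < R) :
    ∫⁻ r in Ioi R, ENNReal.ofReal (q * r ^ (-q - 1)) = ENNReal.ofReal (R ^ (-q)) := by
  rw [← ofReal_integral_eq_lintegral_ofReal]
  · rw [integral_const_mul, integral_Ioi_rpow_of_lt (by linarith) hR]
    congr 1
    have : -q - 1 + 1 = -q := by ring
    rw [this]
    field_simp
  · exact (integrableOn_Ioi_rpow_of_lt (by linarith) hR).const_mul q
  · rw [Filter.EventuallyLE, ae_restrict_iff' measurableSet_Ioi]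
    refine Filter.Eventually.of_forall fun r hr => ?_
    have : 0 < r := lt_trans hR hr
    positivity

variable {V : Type*} [NormedAddCommGroup V] [InnerProductSpace ℝ V]

theorem radial_eq (K : Set V) (y u : V) : radial ((fun z => z - y) '' K) u =
    sSup {r : ℝ | 0 ≤ r ∧ y + r • u ∈ K} := by
  rw [radial]
  congr 1
  ext r
  simp only [mem_ofPred_eq]
  refine and_congr_right fun _ => ?_
  constructor
  · rintro ⟨z, hz, hzy⟩
    have : y + r • u = z := by rw [← hzy]; simp
    rwa [this]
  · intro h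
    exact ⟨_, h, by simp⟩

/-- The set of admissible `r` is an interval. -/
theorem slice_eq {K : Set V} (hK : IsCompact K) (hc : Convex ℝ K) {u : V} (hu : u ≠ 0) {y : V}
    (hy : y ∈ K) {r : ℝ} (hr : 0 ≤ r) :
    y + r • u ∈ K ↔ r ≤ radial ((fun z => z - y) '' K) u := by
  rw [radial_eq]
  set S := {r : ℝ | 0 ≤ r ∧ y + r • u ∈ K} with hS
  have hu' : 0 < ‖u‖ := norm_pos_iff.2 hu
  obtain ⟨C, hC⟩ := hK.isBounded.exists_norm_le
  have hbdd : BddAbove S := by
    refine ⟨2 * C / ‖u‖, fun t ht => ?_⟩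
    rw [le_div_iff₀ hu']
    have h1 := hC _ ht.2
    have h2 := hC _ hy
    have h3 : ‖t • u‖ ≤ ‖y + t • u‖ + ‖y‖ := by
      have := norm_sub_le (y + t • u) y
      rwa [add_sub_cancel_left] at this
    rw [norm_smul, Real.norm_of_nonneg ht.1] at h3
    linarith
  have hcl : IsClosed S := by
    refine (isClosed_le continuous_const continuous_id).inter ?_
    exact hK.isClosed.preimage (by fun_prop : Continuous fun r : ℝ => y + r • u)
  have hne : S.Nonempty := ⟨0, le_rfl, by simpa using hy⟩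
  constructor
  · intro h
    exact le_csSup hbdd ⟨hr, h⟩
  · intro h
    have hmem : sSup S ∈ S := hcl.csSup_mem hne hbdd
    rcases eq_or_lt_of_le hr with h0 | h0
    · rw [← h0]; simpa using hy
    · have hpos : 0 < sSup S := lt_of_lt_of_le h0 h
      have hcomb := hc hy hmem.2 (a := 1 - r / sSup S) (b := r / sSup S)
        (by rw [sub_nonneg, div_le_one hpos]; exact h) (by positivity) (by ring)
      have e : (1 - r / sSup S) • y + (r / sSup S) • (y + sSup S • u) = y + r • u := by
        rw [smul_add, smul_smul, div_mul_cancel₀ _ hpos.ne', sub_smul, one_smul]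
        abel
      rwa [e] at hcomb

theorem radial_nonneg (K : Set V) (y u : V) : 0 ≤ radial ((fun z => z - y) '' K) u := by
  rw [radial]
  exact Real.sSup_nonneg fun r hr => hr.1

theorem radial_pos {K : Set V} (hK : IsCompact K) (hc : Convex ℝ K) {u : V} (hu : u ≠ 0) {y : V}
    (hy : y ∈ interior K) : 0 < radial ((fun z => z - y) '' K) u := by
  have hopen : IsOpen {t : ℝ | y + t • u ∈ interior K} :=
    isOpen_interior.preimage (by fun_prop : Continuous fun t : ℝ => y + t • u)
  have h0 : (0 : ℝ) ∈ {t : ℝ | y + t • u ∈ interior K} := by simpa using hy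
  obtain ⟨ε, hε, hball⟩ := Metric.isOpen_iff.1 hopen 0 h0
  have h1 : ε / 2 ∈ Metric.ball (0 : ℝ) ε := by
    rw [Metric.mem_ball, Real.dist_eq, sub_zero, abs_of_pos (by linarith)]
    linarith
  have h2 := interior_subset (hball h1)
  have := (slice_eq hK hc hu (interior_subset hy) (by linarith : 0 ≤ ε / 2)).1 h2
  linarith

variable [FiniteDimensional ℝ V] [MeasurableSpace V] [BorelSpace V]

theorem lint_radial {K : Set V} (hK : IsCompact K) (hc : Convex ℝ K) {u : V} (hu : u ≠ 0)
    (q : ℝ) (hq : 0 < q) :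
    ∫⁻ y in K, ENNReal.ofReal (radial ((fun z => z - y) '' K) u ^ (-q)) =
      ∫⁻ r in Ioi (0 : ℝ), ENNReal.ofReal (q * r ^ (-q - 1)) * D K (r • u) := by
  have hint : ∀ᵐ y ∂(volume.restrict K), y ∈ interior K := by
    rw [ae_restrict_iff' hK.measurableSet]
    have hfr := hc.addHaar_frontier (volume : Measure V)
    have : ∀ᵐ y ∂(volume : Measure V), y ∉ frontier K := by
      rw [ae_iff]
      simpa using hfr
    filter_upwards [this] with y hy hyK
    by_contra hni
    exact hy ⟨subset_closure hyK, hni⟩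
  have h1 : ∫⁻ y in K, ENNReal.ofReal (radial ((fun z => z - y) '' K) u ^ (-q)) =
      ∫⁻ y in K, ∫⁻ r in Ioi (0 : ℝ), ENNReal.ofReal (q * r ^ (-q - 1)) *
        ({p : V × ℝ | p.1 + p.2 • u ∉ K}.indicator (fun _ => (1 : ℝ≥0∞)) (y, r)) := by
    refine lintegral_congr_ae ?_
    filter_upwards [hint] with y hy
    have hR := radial_pos hK hc hu hy
    rw [← layer q hq hR]
    have hsub : Ioi (radial ((fun z => z - y) '' K) u) ⊆ Ioi 0 := fun r hr => lt_trans hR hr
    rw [← lintegral_indicator measurableSet_Ioi, ← lintegral_indicator measurableSet_Ioi]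
    refine lintegral_congr fun r => ?_
    by_cases hr0 : r ∈ Ioi (0 : ℝ)
    · rw [indicator_of_mem hr0]
      by_cases hr : r ∈ Ioi (radial ((fun z => z - y) '' K) u)
      · rw [indicator_of_mem hr]
        have : (y, r) ∈ {p : V × ℝ | p.1 + p.2 • u ∉ K} := by
          intro h
          have := (slice_eq hK hc hu (interior_subset hy) (le_of_lt hr0)).1 h
          exact absurd this (not_le.2 hr)
        rw [indicator_of_mem this, mul_one]
      · rw [indicator_of_notMem hr]
        have : (y, r) ∉ {p : V × ℝ | p.1 + p.2 • u ∉ K} := by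
          intro h
          exact h ((slice_eq hK hc hu (interior_subset hy) (le_of_lt hr0)).2 (not_lt.1 hr))
        rw [indicator_of_notMem this, mul_zero]
    · rw [indicator_of_notMem hr0, indicator_of_notMem (fun h => hr0 (hsub h))]
  have hmeas : Measurable fun p : V × ℝ => ENNReal.ofReal (q * p.2 ^ (-q - 1)) *
      ({p : V × ℝ | p.1 + p.2 • u ∉ K}.indicator (fun _ => (1 : ℝ≥0∞)) p) := by
    refine Measurable.mul (by fun_prop) ?_
    refine measurable_const.indicator ?_
    have : Measurable fun p : V × ℝ => p.1 + p.2 • u := by fun_prop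
    exact this hK.measurableSet.compl
  rw [h1, lintegral_lintegral_swap hmeas.aemeasurable]
  refine lintegral_congr fun r => ?_
  rw [lintegral_const_mul' _ _ ENNReal.ofReal_ne_top, D]
  congr 1
  have hm : MeasurableSet {y : V | y + r • u ∉ K} :=
    (measurable_add_const (r • u)) hK.measurableSet.compl
  have e : (fun y : V => {p : V × ℝ | p.1 + p.2 • u ∉ K}.indicator (fun _ => (1 : ℝ≥0∞)) (y, r)) =
      {y : V | y + r • u ∉ K}.indicator (fun _ => (1 : ℝ≥0∞)) := by
    ext y
    rfl
  rw [e, lintegral_indicator hm, setLIntegral_one, Measure.restrict_apply hm]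
  congr 1
  ext y
  simp only [mem_inter_iff, mem_ofPred_eq, Set.mem_sdiff]
  tauto

theorem lint_fourier {K : Set V} (hK : IsCompact K) (hc : Convex ℝ K) {u : V} (hu : u ≠ 0)
    (q : ℝ) (hq : 0 < q) :
    ∫⁻ y in K, ENNReal.ofReal (radial ((fun z => z - y) '' K) u ^ (-q)) =
      ∫⁻ ξ, ENNReal.ofReal (|⟪u, ξ⟫_ℝ| ^ q) * (cq q * ‖𝓕 (ind K) ξ‖ₑ ^ 2) := by
  rw [lint_radial hK hc hu q hq]
  have hcont : Continuous (𝓕 (ind K)) := by
    exact VectorFourier.fourierIntegral_continuous (L := innerₗ V) Real.continuous_fourierChar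
      continuous_inner (ind_integrable hK)
  have h1 : ∀ r ∈ Ioi (0 : ℝ), ENNReal.ofReal (q * r ^ (-q - 1)) * D K (r • u) =
      ∫⁻ ξ, ‖𝓕 (ind K) ξ‖ₑ ^ 2 * ENNReal.ofReal (q * r ^ (-q - 1) *
        (1 - Real.cos (2 * Real.pi * (r * ⟪u, ξ⟫_ℝ)))) := by
    intro r hr
    have hr0 : 0 < r := hr
    rw [D_fourier hK, ← lintegral_const_mul' _ _ ENNReal.ofReal_ne_top]
    refine lintegral_congr fun ξ => ?_
    rw [inner_smul_left, conj_trivial,
      ENNReal.ofReal_mul (p := q * r ^ (-q - 1)) (by positivity)]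
    ring
  rw [setLIntegral_congr_fun measurableSet_Ioi h1, lintegral_lintegral_swap]
  · refine lintegral_congr fun ξ => ?_
    rw [lintegral_const_mul' _ _ (by simp), scaling q hq]
    ring
  · have hm : Measurable fun p : ℝ × V => ‖𝓕 (ind K) p.2‖ₑ ^ 2 *
        ENNReal.ofReal (q * p.1 ^ (-q - 1) * (1 - Real.cos (2 * Real.pi * (p.1 * ⟪u, p.2⟫_ℝ)))) := by
      have h1 : Measurable fun p : ℝ × V => ‖𝓕 (ind K) p.2‖ₑ ^ 2 :=
        ((hcont.measurable.comp measurable_snd).enorm).pow_const 2
      refine h1.mul ?_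
      fun_prop
    exact hm.aemeasurable

end Q190.RMB
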