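import Mathlib
import Pool.Agent.Q190.RMB2

/-!
# Finiteness, and the representing measure
-/

namespace Q190.RMB

open MeasureTheory Set FourierTransform
open scoped InnerProductSpace ENNReal

variable {V : Type*} [NormedAddCommGroup V] [InnerProductSpace ℝ V] [FiniteDimensional ℝ V]
  [MeasurableSpace V] [BorelSpace V]

theorem D_le (K : Set V) (z : V) : D K z ≤ volume K := measure_mono sdiff_subset

/-- Lipschitz bound for the covariogram near the origin. -/
theorem D_small {K : Set V} (hK : IsCompact K) (hc : Convex ℝ K) {x₀ : V} {ε : ℝ} (hε : 0 < ε)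
    (hball : Metric.closedBall x₀ ε ⊆ K) {z : V} (hz : ‖z‖ ≤ ε) :
    D K z ≤ ENNReal.ofReal (Module.finrank ℝ V * (‖z‖ / ε)) * volume K := by
  obtain ⟨t, ht⟩ : ∃ t, t = ‖z‖ / ε := ⟨_, rfl⟩
  have ht0 : 0 ≤ t := by rw [ht]; positivity
  have ht1 : t ≤ 1 := by rw [ht, div_le_one hε]; exact hz
  have hx₀ : x₀ ∈ K := hball (Metric.mem_closedBall_self hε.le)
  have hsub : AffineMap.homothety x₀ (1 - t) '' K ⊆ K ∩ {x | x + z ∈ K} := by
    rintro _ ⟨x, hx, rfl⟩
    have e : AffineMap.homothety x₀ (1 - t) x = (1 - t) • x + t • x₀ := by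
      rw [AffineMap.homothety_apply]
      simp only [vsub_eq_sub, vadd_eq_add, smul_sub, sub_smul, one_smul]
      abel
    rw [e]
    refine ⟨hc hx hx₀ (by linarith) ht0 (by ring), ?_⟩
    rcases eq_or_lt_of_le ht0 with h0 | h0
    · have hz0 : z = 0 := by
        rw [ht] at h0
        have : ‖z‖ = 0 := by
          rcases div_eq_zero_iff.1 h0.symm with h | h
          · exact h
          · exact absurd h hε.ne'
        exact norm_eq_zero.1 this
      rw [hz0]
      simp only [add_zero, mem_ofPred_eq]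
      exact hc hx hx₀ (by linarith) ht0 (by ring)
    · have hmem : x₀ + t⁻¹ • z ∈ K := by
        apply hball
        rw [mem_closedBall_iff_norm, add_sub_cancel_left, norm_smul, norm_inv,
          Real.norm_of_nonneg ht0, ht]
        rcases eq_or_ne z 0 with rfl | hz0
        · simp [hε.le]
        · have : 0 < ‖z‖ := norm_pos_iff.2 hz0
          field_simp
          exact le_rfl
      have := hc hx hmem (by linarith : 0 ≤ 1 - t) ht0 (by ring)
      have e2 : (1 - t) • x + t • (x₀ + t⁻¹ • z) = (1 - t) • x + t • x₀ + z := by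
        rw [smul_add, smul_smul, mul_inv_cancel₀ h0.ne', one_smul]
        abel
      rwa [e2] at this
  have hvol := measure_mono (μ := (volume : Measure V)) hsub
  rw [Measure.addHaar_image_homothety, abs_of_nonneg (pow_nonneg (by linarith) _)] at hvol
  have hmeas : MeasurableSet {x : V | x + z ∈ K} := (measurable_add_const z) hK.measurableSet
  have htot := measure_inter_add_sdiff (μ := (volume : Measure V)) K hmeas
  have hbern : 1 ≤ Module.finrank ℝ V * t + (1 - t) ^ Module.finrank ℝ V := by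
    have := one_add_mul_le_pow (a := -t) (by linarith) (Module.finrank ℝ V)
    have e : (1 : ℝ) + -t = 1 - t := by ring
    rw [e] at this
    linarith
  have h1 : volume K ≤ ENNReal.ofReal (Module.finrank ℝ V * t) * volume K +
      ENNReal.ofReal ((1 - t) ^ Module.finrank ℝ V) * volume K := by
    rw [← add_mul, ← ENNReal.ofReal_add (by positivity) (pow_nonneg (by linarith) _)]
    calc volume K = 1 * volume K := (one_mul _).symm
      _ ≤ _ := by
        gcongr
        rw [← ENNReal.ofReal_one]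
        exact ENNReal.ofReal_le_ofReal hbern
  rw [← ht]
  have hfin : volume (K ∩ {x | x + z ∈ K}) ≠ ⊤ :=
    ne_top_of_le_ne_top hK.measure_lt_top.ne (measure_mono inter_subset_left)
  have h2 : volume (K ∩ {x | x + z ∈ K}) + D K z ≤ volume (K ∩ {x | x + z ∈ K}) +
      ENNReal.ofReal (Module.finrank ℝ V * t) * volume K := by
    calc volume (K ∩ {x | x + z ∈ K}) + D K z = volume K := htot
      _ ≤ _ := h1
      _ ≤ ENNReal.ofReal (Module.finrank ℝ V * t) * volume K +
          volume (K ∩ {x | x + z ∈ K}) := by gcongr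
      _ = _ := add_comm _ _
  exact (ENNReal.add_le_add_iff_left hfin).1 h2

theorem lint_fin {K : Set V} (hK : IsCompact K) (hc : Convex ℝ K) (hi : (interior K).Nonempty)
    {u : V} (hu : ‖u‖ = 1) (q : ℝ) (hq : 0 < q) (hq1 : q < 1) :
    ∫⁻ y in K, ENNReal.ofReal (radial ((fun z => z - y) '' K) u ^ (-q)) ≠ ⊤ := by
  have hu0 : u ≠ 0 := by rintro rfl; simp at hu
  rw [lint_radial hK hc hu0 q hq]
  obtain ⟨x₀, hx₀⟩ := hi
  obtain ⟨ε, hε, hball⟩ := Metric.nhds_basis_closedBall.mem_iff.1 (mem_interior_iff_mem_nhds.1 hx₀)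
  have hsplit : Ioi (0 : ℝ) = Ioc 0 ε ∪ Ioi ε := (Ioc_union_Ioi_eq_Ioi hε.le).symm
  rw [hsplit, lintegral_union measurableSet_Ioi (by
    rw [Set.disjoint_left]; intro x hx hx'; exact absurd hx.2 (not_le.2 hx'))]
  have hKfin := hK.measure_lt_top (μ := (volume : Measure V))
  refine ENNReal.add_ne_top.2 ⟨?_, ?_⟩
  · have h1 : ∀ r ∈ Ioc (0 : ℝ) ε, ENNReal.ofReal (q * r ^ (-q - 1)) * D K (r • u) ≤
        ENNReal.ofReal (q * (Module.finrank ℝ V / ε) * r ^ (-q)) * volume K := by
      intro r hr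
      have hr0 : 0 < r := hr.1
      have hn : ‖r • u‖ = r := by rw [norm_smul, hu, mul_one, Real.norm_of_nonneg hr0.le]
      have hD := D_small hK hc hε hball (z := r • u) (by rw [hn]; exact hr.2)
      rw [hn] at hD
      calc _ ≤ ENNReal.ofReal (q * r ^ (-q - 1)) *
            (ENNReal.ofReal (Module.finrank ℝ V * (r / ε)) * volume K) := by gcongr
        _ = _ := by
          rw [← mul_assoc, ← ENNReal.ofReal_mul (by positivity)]
          congr 2
          have e : r ^ (-q) = r * r ^ (-q - 1) := by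
            have := Real.rpow_add hr0 1 (-q - 1)
            rw [Real.rpow_one] at this
            rw [← this]; congr 1; ring
          rw [e]; ring
    refine ne_top_of_le_ne_top ?_ (setLIntegral_mono' measurableSet_Ioc h1)
    rw [lintegral_mul_const' _ _ hKfin.ne]
    refine ENNReal.mul_ne_top ?_ hKfin.ne
    have hint : IntegrableOn (fun r : ℝ => q * (Module.finrank ℝ V / ε) * r ^ (-q)) (Ioc 0 ε) := by
      have h := intervalIntegral.intervalIntegrable_rpow' (r := -q) (a := 0) (b := ε) (by linarith)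
      rw [intervalIntegrable_iff_integrableOn_Ioc_of_le hε.le] at h
      exact h.const_mul _
    exact hint.lintegral_lt_top.ne
  · have h1 : ∀ r ∈ Ioi ε, ENNReal.ofReal (q * r ^ (-q - 1)) * D K (r • u) ≤
        ENNReal.ofReal (q * r ^ (-q - 1)) * volume K := by
      intro r hr
      gcongr
      exact D_le K _
    refine ne_top_of_le_ne_top ?_ (setLIntegral_mono' measurableSet_Ioi h1)
    rw [lintegral_mul_const' _ _ hKfin.ne, layer q hq hε]
    exact ENNReal.mul_ne_top ENNReal.ofReal_ne_top hKfin.ne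

/-- The weight. -/
noncomputable def wt (K : Set V) (q : ℝ) (ξ : V) : ℝ≥0∞ :=
  (volume K)⁻¹ * (ENNReal.ofReal (‖ξ‖ ^ q) * (cq q * ‖𝓕 (ind K) ξ‖ₑ ^ 2))

theorem fourier_cont {K : Set V} (hK : IsCompact K) : Continuous (𝓕 (ind K)) := by
  exact VectorFourier.fourierIntegral_continuous (L := innerₗ V) Real.continuous_fourierChar
      continuous_inner (ind_integrable hK)

theorem wt_meas {K : Set V} (hK : IsCompact K) (q : ℝ) : Measurable (wt K q) := by
  have h1 : Measurable fun ξ : V => ‖𝓕 (ind K) ξ‖ₑ ^ 2 :=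
    ((fourier_cont hK).measurable.enorm).pow_const 2
  unfold wt
  have h2 : Measurable fun ξ : V => ENNReal.ofReal (‖ξ‖ ^ q) := by fun_prop
  exact (h2.mul (h1.const_mul _)).const_mul _

open Classical in
/-- Projection to the sphere. -/
noncomputable def toSph (s₀ : Metric.sphere (0 : V) 1) (ξ : V) : Metric.sphere (0 : V) 1 :=
  ⟨if ξ = 0 then (s₀ : V) else ‖ξ‖⁻¹ • ξ, by
    split_ifs with h
    · exact s₀.2
    · rw [mem_sphere_zero_iff_norm, norm_smul, norm_inv, norm_norm,
        inv_mul_cancel₀ (norm_ne_zero_iff.2 h)]⟩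

theorem toSph_meas (s₀ : Metric.sphere (0 : V) 1) : Measurable (toSph s₀) := by
  refine Measurable.subtype_mk ?_
  refine Measurable.ite (measurableSet_singleton 0) measurable_const ?_
  fun_prop

theorem toSph_coe (s₀ : Metric.sphere (0 : V) 1) {ξ : V} (h : ξ ≠ 0) :
    (toSph s₀ ξ : V) = ‖ξ‖⁻¹ • ξ := by
  simp [toSph, h]

/-- The representing measure. -/
noncomputable def mu (K : Set V) (q : ℝ) (s₀ : Metric.sphere (0 : V) 1) :
    Measure (Metric.sphere (0 : V) 1) :=
  (volume.withDensity (wt K q)).map (toSph s₀)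

theorem lint_mu {K : Set V} (hK : IsCompact K) (q : ℝ) (hq : 0 < q)
    (s₀ : Metric.sphere (0 : V) 1) (x : V) :
    ∫⁻ u, ENNReal.ofReal (|⟪x, (u : V)⟫_ℝ| ^ q) ∂(mu K q s₀) =
      (volume K)⁻¹ * ∫⁻ ξ, ENNReal.ofReal (|⟪x, ξ⟫_ℝ| ^ q) * (cq q * ‖𝓕 (ind K) ξ‖ₑ ^ 2) := by
  have hm1 : Measurable fun u : Metric.sphere (0 : V) 1 =>
      ENNReal.ofReal (|⟪x, (u : V)⟫_ℝ| ^ q) := by
    have h : Measurable fun v : V => ENNReal.ofReal (|⟪x, v⟫_ℝ| ^ q) := by fun_prop
    exact h.comp measurable_subtype_coe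
  have hm2 : Measurable fun ξ : V => ENNReal.ofReal (|⟪x, (toSph s₀ ξ : V)⟫_ℝ| ^ q) :=
    hm1.comp (toSph_meas s₀)
  rw [mu, lintegral_map hm1 (toSph_meas s₀), lintegral_withDensity_eq_lintegral_mul _ (wt_meas hK q)
    hm2, ← lintegral_const_mul]
  · refine lintegral_congr fun ξ => ?_
    simp only [Pi.mul_apply, wt]
    rcases eq_or_ne ξ 0 with rfl | hξ
    · simp [hq.ne']
    · rw [toSph_coe s₀ hξ, inner_smul_right]
      have hξ' : 0 < ‖ξ‖ := norm_pos_iff.2 hξ
      have e : ENNReal.ofReal (|⟪x, ξ⟫_ℝ| ^ q) = ENNReal.ofReal (‖ξ‖ ^ q) *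
          ENNReal.ofReal (|‖ξ‖⁻¹ * ⟪x, ξ⟫_ℝ| ^ q) := by
        rw [← ENNReal.ofReal_mul (by positivity), ← Real.mul_rpow (by positivity) (by positivity),
          abs_mul, abs_inv, abs_norm, ← mul_assoc, mul_inv_cancel₀ hξ'.ne', one_mul]
      rw [e]
      ring
  · have h1 : Measurable fun ξ : V => ‖𝓕 (ind K) ξ‖ₑ ^ 2 :=
      ((fourier_cont hK).measurable.enorm).pow_const 2
    have h2 : Measurable fun ξ : V => ENNReal.ofReal (|⟪x, ξ⟫_ℝ| ^ q) := by fun_prop
    exact h2.mul (h1.const_mul _)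

theorem norm_rpow_le {n : ℕ} (b : OrthonormalBasis (Fin n) ℝ V) (q : ℝ) (hq : 0 < q) (hq1 : q < 1)
    (ξ : V) : ‖ξ‖ ^ q ≤ ∑ i, |⟪b i, ξ⟫_ℝ| ^ q := by
  have h1 : ‖ξ‖ ≤ ∑ i, |⟪b i, ξ⟫_ℝ| := by
    conv_lhs => rw [← b.sum_repr' ξ]
    refine (norm_sum_le _ _).trans (Finset.sum_le_sum fun i _ => ?_)
    rw [norm_smul, b.norm_eq_one i, mul_one, Real.norm_eq_abs]
  have h2 := Finset.le_sum_of_subadditive (fun x : NNReal => x ^ q)
    (NNReal.zero_rpow hq.ne').le (fun x y => NNReal.rpow_add_le_add_rpow x y hq.le hq1.le)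
    Finset.univ (fun i => ‖⟪b i, ξ⟫_ℝ‖₊)
  have h3 : (∑ i, |⟪b i, ξ⟫_ℝ|) ^ q ≤ ∑ i, |⟪b i, ξ⟫_ℝ| ^ q := by
    have := NNReal.coe_le_coe.2 h2
    push_cast at this
    simpa [Real.norm_eq_abs] using this
  exact (Real.rpow_le_rpow (norm_nonneg ξ) h1 hq.le).trans h3

theorem mu_finite {K : Set V} (hK : IsCompact K) (hc : Convex ℝ K) (hi : (interior K).Nonempty)
    (q : ℝ) (hq : 0 < q) (hq1 : q < 1) (s₀ : Metric.sphere (0 : V) 1) :
    IsFiniteMeasure (mu K q s₀) := by
  have hvol0 : volume K ≠ 0 := by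
    have h1 : 0 < volume (interior K) := isOpen_interior.measure_pos volume hi
    exact (lt_of_lt_of_le h1 (measure_mono interior_subset)).ne'
  have hF : Measurable fun ξ : V => ‖𝓕 (ind K) ξ‖ₑ ^ 2 :=
      ((fourier_cont hK).measurable.enorm).pow_const 2
  refine ⟨?_⟩
  rw [mu, Measure.map_apply (toSph_meas s₀) MeasurableSet.univ, preimage_univ,
    withDensity_apply _ MeasurableSet.univ, Measure.restrict_univ]
  let b := stdOrthonormalBasis ℝ V
  have h1 : ∫⁻ ξ, wt K q ξ ≤ (volume K)⁻¹ * ∑ i, ∫⁻ ξ, ENNReal.ofReal (|⟪b i, ξ⟫_ℝ| ^ q) *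
      (cq q * ‖𝓕 (ind K) ξ‖ₑ ^ 2) := by
    rw [← lintegral_finsetSum, ← lintegral_const_mul]
    · refine lintegral_mono fun ξ => ?_
      simp only [wt]
      gcongr
      rw [← Finset.sum_mul, ← ENNReal.ofReal_sum_of_nonneg (fun i _ => by positivity)]
      gcongr
      exact norm_rpow_le b q hq hq1 ξ
    · refine Finset.measurable_sum _ fun i _ => ?_
      have h2 : Measurable fun ξ : V => ENNReal.ofReal (|⟪b i, ξ⟫_ℝ| ^ q) := by fun_prop
      exact h2.mul (hF.const_mul _)
    · intro i _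
      have h2 : Measurable fun ξ : V => ENNReal.ofReal (|⟪b i, ξ⟫_ℝ| ^ q) := by fun_prop
      exact h2.mul (hF.const_mul _)
  refine lt_of_le_of_lt h1 (ENNReal.mul_lt_top (by simp [pos_iff_ne_zero, hvol0]) ?_)
  rw [ENNReal.sum_lt_top]
  intro i _
  have hb : ‖b i‖ = 1 := b.norm_eq_one i
  have hb0 : b i ≠ 0 := by intro h; rw [h, norm_zero] at hb; norm_num at hb
  rw [← lint_fourier hK hc hb0 q hq]
  exact (lint_fin hK hc hi hb q hq hq1).lt_top

theorem radial_aemeas {K : Set V} (hK : IsCompact K) (hc : Convex ℝ K) {u : V} (hu : u ≠ 0) :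
    AEMeasurable (fun y => radial ((fun z => z - y) '' K) u) (volume.restrict K) := by
  refine ⟨K.indicator (fun y => radial ((fun z => z - y) '' K) u), ?_, ?_⟩
  · refine measurable_of_Ici fun r => ?_
    rcases le_or_gt r 0 with hr | hr
    · have : K.indicator (fun y => radial ((fun z => z - y) '' K) u) ⁻¹' Ici r = univ := by
        ext y
        simp only [mem_preimage, mem_Ici, mem_univ, iff_true]
        exact hr.trans (indicator_nonneg (fun y _ => radial_nonneg K y u) y)
      rw [this]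
      exact MeasurableSet.univ
    · have : K.indicator (fun y => radial ((fun z => z - y) '' K) u) ⁻¹' Ici r =
          K ∩ {y | y + r • u ∈ K} := by
        ext y
        simp only [mem_preimage, mem_Ici, mem_inter_iff, mem_ofPred_eq]
        by_cases hy : y ∈ K
        · rw [indicator_of_mem hy, slice_eq hK hc hu hy hr.le]
          simp [hy]
        · rw [indicator_of_notMem hy]
          simp [hy, hr]
      rw [this]
      exact hK.measurableSet.inter ((measurable_add_const (r • u)) hK.measurableSet)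
  · exact (indicator_ae_eq_restrict hK.measurableSet).symm

theorem integral_radial {K : Set V} (hK : IsCompact K) (hc : Convex ℝ K) {u : V} (hu : u ≠ 0)
    (q : ℝ) : ∫ y in K, radial ((fun z => z - y) '' K) u ^ (-q) =
      (∫⁻ y in K, ENNReal.ofReal (radial ((fun z => z - y) '' K) u ^ (-q))).toReal := by
  rw [integral_eq_lintegral_of_nonneg_ae]
  · exact Filter.Eventually.of_forall fun y => Real.rpow_nonneg (radial_nonneg K y u) _
  · exact ((radial_aemeas hK hc hu).pow_const (-q)).aestronglyMeasurable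

theorem embeds (hdim : 0 < Module.finrank ℝ V) {K : Set V} (hK : IsCompact K) (hc : Convex ℝ K)
    (hi : (interior K).Nonempty) (p : ℝ) (hp : -1 < p) (hp0 : p < 0) :
    EmbedsInLq (radialMeanBody K p) (-p) := by
  obtain ⟨q, hq⟩ : ∃ q, q = -p := ⟨_, rfl⟩
  have hpq : p = -q := by linarith
  subst hpq
  rw [neg_neg]
  have hq0 : 0 < q := by linarith
  have hq1 : q < 1 := by linarith
  have hn : Nontrivial V := Module.nontrivial_of_finrank_pos (R := ℝ) hdim
  obtain ⟨v, hv⟩ := exists_ne (0 : V)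
  let s₀ : Metric.sphere (0 : V) 1 := ⟨‖v‖⁻¹ • v, by
    rw [mem_sphere_zero_iff_norm, norm_smul, norm_inv, norm_norm,
        inv_mul_cancel₀ (norm_ne_zero_iff.2 hv)]⟩
  refine ⟨mu K q s₀, mu_finite hK hc hi q hq0 hq1 s₀, fun x hx => ?_⟩
  have hx' : 0 < ‖x‖ := norm_pos_iff.2 hx
  obtain ⟨u, hu⟩ : ∃ u, u = ‖x‖⁻¹ • x := ⟨_, rfl⟩
  have hun : ‖u‖ = 1 := by
    rw [hu, norm_smul, norm_inv, norm_norm, inv_mul_cancel₀ hx'.ne']
  have hu0 : u ≠ 0 := by rintro rfl; simp at hun
  have hxu : x = ‖x‖ • u := by rw [hu, smul_smul, mul_inv_cancel₀ hx'.ne', one_smul]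
  obtain ⟨X, hX⟩ : ∃ X, X = (volume K).toReal⁻¹ * ∫ y in K, radial ((fun z => z - y) '' K) u ^ (-q) :=
    ⟨_, rfl⟩
  have hX0 : 0 ≤ X := by
    rw [hX]
    refine mul_nonneg (by positivity) (integral_nonneg fun y => ?_)
    exact Real.rpow_nonneg (radial_nonneg K y u) _
  have hm : meanRadius K (-q) u = X ^ (1 / (-q)) := by rw [meanRadius, hX]
  -- the radial function of the radial mean body
  have hrad : radial (radialMeanBody K (-q)) x = meanRadius K (-q) u / ‖x‖ := by
    have hm0 : 0 ≤ meanRadius K (-q) u := by rw [hm]; positivity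
    have hset : {r : ℝ | 0 ≤ r ∧ r • x ∈ radialMeanBody K (-q)} =
        Icc 0 (meanRadius K (-q) u / ‖x‖) := by
      ext r
      simp only [mem_ofPred_eq, mem_Icc, radialMeanBody]
      refine and_congr_right fun hr => ?_
      rcases eq_or_lt_of_le hr with h0 | h0
      · rw [← h0]
        simp only [zero_smul, true_or, true_iff]
        positivity
      · have hrx : r • x ≠ 0 := smul_ne_zero h0.ne' hx
        have e : ‖r • x‖⁻¹ • r • x = u := by
          rw [norm_smul, Real.norm_of_nonneg hr, smul_smul, hu]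
          congr 1
          field_simp
        rw [e, norm_smul, Real.norm_of_nonneg hr, le_div_iff₀ hx']
        simp [hrx]
    rw [radial, hset, csSup_Icc (by positivity)]
  rw [hrad, Real.div_rpow (by rw [hm]; positivity) hx'.le, hm, ← Real.rpow_mul hX0]
  have e1 : 1 / (-q) * (-q) = 1 := by field_simp
  rw [e1, Real.rpow_one, Real.rpow_neg hx'.le, div_inv_eq_mul]
  -- the right-hand side
  rw [integral_eq_lintegral_of_nonneg_ae]
  · rw [lint_mu hK q hq0 s₀ x]
    have e2 : ∫⁻ ξ, ENNReal.ofReal (|⟪x, ξ⟫_ℝ| ^ q) * (cq q * ‖𝓕 (ind K) ξ‖ₑ ^ 2) =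
        ENNReal.ofReal (‖x‖ ^ q) * ∫⁻ ξ, ENNReal.ofReal (|⟪u, ξ⟫_ℝ| ^ q) *
          (cq q * ‖𝓕 (ind K) ξ‖ₑ ^ 2) := by
      rw [← lintegral_const_mul' _ _ ENNReal.ofReal_ne_top]
      refine lintegral_congr fun ξ => ?_
      rw [← mul_assoc (ENNReal.ofReal (‖x‖ ^ q)), ← ENNReal.ofReal_mul (by positivity),
        ← Real.mul_rpow (by positivity) (by positivity)]
      congr 3
      conv_lhs => rw [hxu]
      rw [inner_smul_left, conj_trivial, abs_mul, abs_norm]
    rw [e2, ← lint_fourier hK hc hu0 q hq0, ENNReal.toReal_mul, ENNReal.toReal_mul,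
      ← integral_radial hK hc hu0, ENNReal.toReal_inv, ENNReal.toReal_ofReal (by positivity), hX]
    ring
  · exact Filter.Eventually.of_forall fun u => by positivity
  · have h : Measurable fun v : V => |⟪x, v⟫_ℝ| ^ q := by fun_prop
    exact (h.comp measurable_subtype_coe).aestronglyMeasurable

end Q190.RMB
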