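import Mathlib
import Pool.Agent.Q190.AreaMap
import Pool.Agent.Q190.Octa
import Pool.Agent.Q190.CSDefs

/-!
# The truncated octahedron and the octahedron: comparison of surface areas of affine images
-/

namespace Q190.TruncOcta

open MeasureTheory Set Measure
open scoped InnerProductSpace ENNReal Pointwise
open Q190.Area

/-- Three-dimensional Euclidean space. -/
abbrev E3 := EuclideanSpace ℝ (Fin 3)

/-- The `ℓ¹` norm. -/
def n1 (x : E3) : ℝ := |x 0| + |x 1| + |x 2|

theorem n1_cont : Continuous n1 := by unfold n1; fun_prop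

/-- The octahedron. -/
def L : Set E3 := {x | n1 x ≤ 12}

/-- The truncated octahedron. -/
def K : Set E3 := {x | n1 x ≤ 13 ∧ |x 0| ≤ 8 ∧ |x 1| ≤ 8 ∧ |x 2| ≤ 8}

/-- Signs. -/
def sg (b : Bool) : ℝ := if b then 1 else -1

theorem sg_sq (b : Bool) : sg b * sg b = 1 := by cases b <;> simp [sg]

theorem abs_sg (b : Bool) : |sg b| = 1 := by cases b <;> simp [sg]

theorem exists_sg (t : ℝ) : ∃ b, t = sg b * |t| := by
  rcases le_total 0 t with h | h
  · exact ⟨true, by simp [sg, abs_of_nonneg h]⟩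
  · exact ⟨false, by simp [sg, abs_of_nonpos h]⟩

/-- Standard basis. -/
noncomputable def e (i : Fin 3) : E3 := EuclideanSpace.single i 1

/-- Parametrisation of the facet plane `∑ εᵢ xᵢ = R`. -/
noncomputable def fac (R : ℝ) (a b c : Bool) : E2 → E3 :=
  par ((R * sg a) • e 0) (R • (sg b • e 1 - sg a • e 0)) (R • (sg c • e 2 - sg a • e 0))

theorem fac_0 (R : ℝ) (a b c : Bool) (v : E2) :
    fac R a b c v 0 = R * sg a * (1 - v 0 - v 1) := by
  simp [fac, par, e]
  ring

theorem fac_1 (R : ℝ) (a b c : Bool) (v : E2) : fac R a b c v 1 = R * sg b * v 0 := by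
  simp [fac, par, e]
  ring

theorem fac_2 (R : ℝ) (a b c : Bool) (v : E2) : fac R a b c v 2 = R * sg c * v 1 := by
  simp [fac, par, e]
  ring

theorem frontier_L_sup (a b c : Bool) : fac 12 a b c '' T ⊆
    {x : E3 | 0 < sg a * x 0 ∧ 0 < sg b * x 1 ∧ 0 < sg c * x 2 ∧
      sg a * x 0 + sg b * x 1 + sg c * x 2 = 12} := by
  rintro _ ⟨v, ⟨v0, v1, v2⟩, rfl⟩
  have ha := sg_sq a
  have hb := sg_sq b
  have hc := sg_sq c
  have e0 : sg a * fac 12 a b c v 0 = 12 * (1 - v 0 - v 1) := by
    rw [fac_0]; linear_combination (12 * (1 - v 0 - v 1)) * ha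
  have e1 : sg b * fac 12 a b c v 1 = 12 * v 0 := by
    rw [fac_1]; linear_combination (12 * v 0) * hb
  have e2 : sg c * fac 12 a b c v 2 = 12 * v 1 := by
    rw [fac_2]; linear_combination (12 * v 1) * hc
  simp only [mem_ofPred_eq, e0, e1, e2]
  refine ⟨by linarith, by linarith, by linarith, by ring⟩

/-- Open facet of the octahedron. -/
def Fo (a b c : Bool) : Set E3 := {x : E3 | 0 < sg a * x 0 ∧ 0 < sg b * x 1 ∧ 0 < sg c * x 2 ∧
      sg a * x 0 + sg b * x 1 + sg c * x 2 = 12}

theorem n1_smul (t : ℝ) (x : E3) : n1 (t • x) = |t| * n1 x := by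
  simp only [n1, PiLp.smul_apply, smul_eq_mul, abs_mul]
  ring

theorem n1_add (x y : E3) : n1 (x + y) ≤ n1 x + n1 y := by
  simp only [n1, PiLp.add_apply]
  have h0 := abs_add_le (x 0) (y 0)
  have h1 := abs_add_le (x 1) (y 1)
  have h2 := abs_add_le (x 2) (y 2)
  linarith

theorem Fo_sub (a b c : Bool) : Fo a b c ⊆ frontier L := by
  intro x hx
  obtain ⟨h0, h1, h2, h3⟩ := hx
  have hn : n1 x = 12 := by
    have k : ∀ (b : Bool) (t : ℝ), 0 < sg b * t → |t| = sg b * t := by
      intro b t h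
      rw [← abs_of_pos h, abs_mul, abs_sg, one_mul]
    rw [n1, k a _ h0, k b _ h1, k c _ h2, h3]
  rw [frontier, mem_sdiff]
  refine ⟨subset_closure (show n1 x ≤ 12 from hn.le), fun hint => ?_⟩
  have hopen : IsOpen {t : ℝ | t • x ∈ interior L} :=
    isOpen_interior.preimage (by fun_prop : Continuous fun t : ℝ => t • x)
  have h1' : (1 : ℝ) ∈ {t : ℝ | t • x ∈ interior L} := by
    simpa using hint
  obtain ⟨ε, hε, hball⟩ := Metric.isOpen_iff.1 hopen 1 h1'
  have h2' : (1 + ε / 2 : ℝ) ∈ Metric.ball (1 : ℝ) ε := by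
    rw [Metric.mem_ball, Real.dist_eq]
    have : (1 + ε / 2 - 1 : ℝ) = ε / 2 := by ring
    rw [this, abs_of_pos (by linarith)]
    linarith
  have h3' := interior_subset (hball h2')
  have h4 : n1 ((1 + ε / 2) • x) ≤ 12 := h3'
  rw [n1_smul, hn, abs_of_pos (by linarith)] at h4
  linarith

theorem abs_cont (i : Fin 3) : Continuous fun x : E3 => |x i| := by fun_prop

theorem K_closed : IsClosed K :=
  (isClosed_le n1_cont continuous_const).inter <|
    (isClosed_le (abs_cont 0) continuous_const).inter <|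
    (isClosed_le (abs_cont 1) continuous_const).inter (isClosed_le (abs_cont 2) continuous_const)

theorem frontier_K_sub : frontier K ⊆
    (⋃ a, ⋃ b, ⋃ c, fac 13 a b c '' H) ∪
    ((⋃ a, par ((8 * sg a) • e 0) (e 1) (e 2) '' Q) ∪
    ((⋃ a, par ((8 * sg a) • e 1) (e 2) (e 0) '' Q) ∪
    (⋃ a, par ((8 * sg a) • e 2) (e 0) (e 1) '' Q))) := by
  intro x hx
  have hxK : x ∈ K := K_closed.frontier_subset hx
  obtain ⟨k0, k1, k2, k3⟩ := hxK
  obtain ⟨a, ha⟩ := exists_sg (x 0)
  obtain ⟨b, hb⟩ := exists_sg (x 1)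
  obtain ⟨c, hc⟩ := exists_sg (x 2)
  by_cases hh : n1 x = 13
  · left
    simp only [mem_iUnion]
    rw [n1] at hh
    refine ⟨a, b, c, !₂[|x 1| / 13, |x 2| / 13], ?_, ?_⟩
    · have := abs_nonneg (x 0)
      have := abs_nonneg (x 1)
      have := abs_nonneg (x 2)
      change 0 ≤ |x 1| / 13 ∧ 0 ≤ |x 2| / 13 ∧ |x 1| / 13 + |x 2| / 13 ≤ 1 ∧ |x 1| / 13 ≤ 8 / 13 ∧
        |x 2| / 13 ≤ 8 / 13 ∧ 5 / 13 ≤ |x 1| / 13 + |x 2| / 13
      refine ⟨by positivity, by positivity, by linarith, by linarith, by linarith, by linarith⟩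
    · ext i
      fin_cases i
      · change fac 13 a b c _ 0 = x 0
        rw [fac_0]
        simp
        conv_rhs => rw [ha]
        have : |x 0| = 13 - |x 1| - |x 2| := by linarith
        rw [this]
        ring
      · change fac 13 a b c _ 1 = x 1
        rw [fac_1]
        simp
        conv_rhs => rw [hb]
        ring
      · change fac 13 a b c _ 2 = x 2
        rw [fac_2]
        simp
        conv_rhs => rw [hc]
        ring
  right
  by_cases h0 : |x 0| = 8
  · left
    simp only [mem_iUnion]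
    rw [n1] at k0
    refine ⟨a, !₂[x 1, x 2], ?_, ?_⟩
    · simp [Q]
      linarith
    · ext i
      fin_cases i
      · simp [par, e]
        conv_rhs => rw [ha, h0]
        ring
      · simp [par, e]
      · simp [par, e]
  right
  by_cases h1 : |x 1| = 8
  · left
    simp only [mem_iUnion]
    rw [n1] at k0
    refine ⟨b, !₂[x 2, x 0], ?_, ?_⟩
    · simp [Q]
      linarith
    · ext i
      fin_cases i
      · simp [par, e]
      · simp [par, e]
        conv_rhs => rw [hb, h1]
        ring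
      · simp [par, e]
  right
  by_cases h2 : |x 2| = 8
  · simp only [mem_iUnion]
    rw [n1] at k0
    refine ⟨c, !₂[x 0, x 1], ?_, ?_⟩
    · simp [Q]
      linarith
    · ext i
      fin_cases i
      · simp [par, e]
      · simp [par, e]
      · simp [par, e]
        conv_rhs => rw [hc, h2]
        ring
  · exfalso
    have hop : IsOpen {x : E3 | n1 x < 13 ∧ |x 0| < 8 ∧ |x 1| < 8 ∧ |x 2| < 8} :=
      (isOpen_lt n1_cont continuous_const).inter <|
        (isOpen_lt (abs_cont 0) continuous_const).inter <|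
        (isOpen_lt (abs_cont 1) continuous_const).inter (isOpen_lt (abs_cont 2) continuous_const)
    have hsub : {x : E3 | n1 x < 13 ∧ |x 0| < 8 ∧ |x 1| < 8 ∧ |x 2| < 8} ⊆ K := by
      rintro y ⟨y0, y1, y2, y3⟩
      exact ⟨y0.le, y1.le, y2.le, y3.le⟩
    have hxi : x ∈ interior K := interior_maximal hsub hop
      ⟨lt_of_le_of_ne k0 hh, lt_of_le_of_ne k1 h0, lt_of_le_of_ne k2 h1, lt_of_le_of_ne k3 h2⟩
    exact hx.2 hxi

theorem norm_sq_E3 (x : E3) : ‖x‖ ^ 2 = x 0 ^ 2 + x 1 ^ 2 + x 2 ^ 2 := by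
  rw [EuclideanSpace.real_norm_sq_eq, Fin.sum_univ_three]

theorem inner_E3 (x y : E3) : ⟪x, y⟫_ℝ = x 0 * y 0 + x 1 * y 1 + x 2 * y 2 := by
  rw [PiLp.inner_apply, Fin.sum_univ_three]
  simp only [RCLike.inner_apply, conj_trivial]
  ring

/-- Cross product. -/
noncomputable def cr (x y : E3) : E3 :=
  !₂[x 1 * y 2 - x 2 * y 1, x 2 * y 0 - x 0 * y 2, x 0 * y 1 - x 1 * y 0]

theorem cr_0 (x y : E3) : cr x y 0 = x 1 * y 2 - x 2 * y 1 := rfl
theorem cr_1 (x y : E3) : cr x y 1 = x 2 * y 0 - x 0 * y 2 := rfl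
theorem cr_2 (x y : E3) : cr x y 2 = x 0 * y 1 - x 1 * y 0 := rfl

theorem gram_eq (p q : E3) : gram p q = ‖cr p q‖ := by
  rw [gram, ← Real.sqrt_sq (norm_nonneg (cr p q)), norm_sq_E3, norm_sq_E3, norm_sq_E3, inner_E3,
    cr_0, cr_1, cr_2]
  congr 1
  ring

/-- The sum of the normals. -/
theorem cr_fac (X Y Z : E3) (R : ℝ) (a b c : Bool) :
    ‖cr (R • (sg b • Y - sg a • X)) (R • (sg c • Z - sg a • X))‖ =
      R ^ 2 * ‖sg a • cr Y Z + sg b • cr Z X + sg c • cr X Y‖ := by
  have h : cr (R • (sg b • Y - sg a • X)) (R • (sg c • Z - sg a • X)) =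
      (R ^ 2 * (sg a * sg b * sg c)) • (sg a • cr Y Z + sg b • cr Z X + sg c • cr X Y) := by
    have ha := sg_sq a
    have hb := sg_sq b
    have hc := sg_sq c
    ext i
    fin_cases i
    · change cr _ _ 0 = _
      rw [cr_0]
      simp [cr_0]
      linear_combination (-(R ^ 2) * sg b * sg c * (Y 1 * Z 2 - Y 2 * Z 1)) * ha - (R ^ 2 * sg a * sg c * (Z 1 * X 2 - Z 2 * X 1)) * hb
        - (R ^ 2 * sg a * sg b * (X 1 * Y 2 - X 2 * Y 1)) * hc
    · change cr _ _ 1 = _
      rw [cr_1]
      simp [cr_1]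
      linear_combination (-(R ^ 2) * sg b * sg c * (Y 2 * Z 0 - Y 0 * Z 2)) * ha - (R ^ 2 * sg a * sg c * (Z 2 * X 0 - Z 0 * X 2)) * hb
        - (R ^ 2 * sg a * sg b * (X 2 * Y 0 - X 0 * Y 2)) * hc
    · change cr _ _ 2 = _
      rw [cr_2]
      simp [cr_2]
      linear_combination (-(R ^ 2) * sg b * sg c * (Y 0 * Z 1 - Y 1 * Z 0)) * ha - (R ^ 2 * sg a * sg c * (Z 0 * X 1 - Z 1 * X 0)) * hb
        - (R ^ 2 * sg a * sg b * (X 0 * Y 1 - X 1 * Y 0)) * hc
  rw [h, norm_smul, norm_mul, norm_mul, norm_mul]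
  simp only [Real.norm_eq_abs, abs_sg, mul_one]
  rw [abs_of_nonneg (sq_nonneg R)]

/-- `A` maps the parametrised plane pieces to such pieces. -/
theorem image_par (A : E3 ≃ᵃ[ℝ] E3) (b p q : E3) (G : Set E2) :
    A '' (par b p q '' G) = par (A b) (A.linear p) (A.linear q) '' G := by
  rw [image_image]
  refine image_congr fun v _ => ?_
  have := A.map_vadd b (v 0 • p + v 1 • q)
  simp only [vadd_eq_add] at this
  rw [par, add_comm, this, par, map_add, map_smul, map_smul, add_comm]

theorem linInd_map (A : E3 ≃ᵃ[ℝ] E3) {p q : E3} (h : LinearIndependent ℝ ![p, q]) :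
    LinearIndependent ℝ ![A.linear p, A.linear q] := by
  rw [LinearIndependent.pair_iff] at h ⊢
  intro s t hst
  apply h
  rw [← map_smul, ← map_smul, ← map_add] at hst
  exact (LinearEquiv.map_eq_zero_iff A.linear).1 hst

theorem linInd_fac (R : ℝ) (hR : R ≠ 0) (a b c : Bool) :
    LinearIndependent ℝ ![R • (sg b • e 1 - sg a • e 0), R • (sg c • e 2 - sg a • e 0)] := by
  rw [LinearIndependent.pair_iff]
  intro s t hst
  have hb : sg b ≠ 0 := by cases b <;> simp [sg]
  have hc : sg c ≠ 0 := by cases c <;> simp [sg]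
  have h1 := congrArg (fun x : E3 => x 1) hst
  have h2 := congrArg (fun x : E3 => x 2) hst
  simp [e, hR, hb, hc] at h1 h2
  exact ⟨h1, h2⟩

theorem linInd_e (i j : Fin 3) (hij : i ≠ j) : LinearIndependent ℝ ![e i, e j] := by
  rw [LinearIndependent.pair_iff]
  intro s t hst
  have h1 := congrArg (fun x : E3 => x i) hst
  have h2 := congrArg (fun x : E3 => x j) hst
  simp [e, hij, hij.symm] at h1 h2
  exact ⟨h1, h2⟩

theorem area_fac (A : E3 ≃ᵃ[ℝ] E3) (R : ℝ) (hR : R ≠ 0) (a b c : Bool) (G : Set E2) :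
    (μH[2] : Measure E3) (A '' (fac R a b c '' G)) =
      ENNReal.ofReal (R ^ 2 * ‖sg a • cr (A.linear (e 1)) (A.linear (e 2)) +
        sg b • cr (A.linear (e 2)) (A.linear (e 0)) +
        sg c • cr (A.linear (e 0)) (A.linear (e 1))‖) * m G := by
  rw [fac, image_par, area_par _ _ _ (linInd_map A (linInd_fac R hR a b c)), gram_eq, map_smul,
    map_smul, map_sub, map_sub, map_smul, map_smul, map_smul, cr_fac]

theorem area_sq (A : E3 ≃ᵃ[ℝ] E3) (i j : Fin 3) (hij : i ≠ j) (b : E3) (G : Set E2) :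
    (μH[2] : Measure E3) (A '' (par b (e i) (e j) '' G)) =
      ENNReal.ofReal ‖cr (A.linear (e i)) (A.linear (e j))‖ * m G := by
  rw [image_par, area_par _ _ _ (linInd_map A (linInd_e i j hij)), gram_eq]

/-- Hlawka in the needed form. -/
theorem hlawka8 (P S U : E3) : 4 * (‖P‖ + ‖S‖ + ‖U‖) ≤
    ∑ a : Bool, ∑ b : Bool, ∑ c : Bool, ‖sg a • P + sg b • S + sg c • U‖ := by
  have h := hlawka (P + S - U) (P - S + U) (-P + S + U)
  have e1 : P + S - U + (P - S + U) = (2 : ℝ) • P := by rw [two_smul]; abel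
  have e2 : P - S + U + (-P + S + U) = (2 : ℝ) • U := by rw [two_smul]; abel
  have e3 : -P + S + U + (P + S - U) = (2 : ℝ) • S := by rw [two_smul]; abel
  have e4 : P + S - U + (P - S + U) + (-P + S + U) = P + S + U := by abel
  rw [e4, e1, e2, e3, norm_smul, norm_smul, norm_smul, Real.norm_of_nonneg (by norm_num)] at h
  simp only [Fintype.sum_bool, sg, if_true, Bool.false_eq_true, if_false, one_smul, neg_smul]
  have f1 : ‖P + -S + -U‖ = ‖-P + S + U‖ := by rw [← norm_neg]; congr 1; abel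
  have f2 : ‖-P + S + -U‖ = ‖P - S + U‖ := by rw [← norm_neg]; congr 1; abel
  have f3 : ‖-P + -S + U‖ = ‖P + S - U‖ := by rw [← norm_neg]; congr 1; abel
  have f4 : ‖-P + -S + -U‖ = ‖P + S + U‖ := by rw [← norm_neg]; congr 1; abel
  have g1 : ‖P + S + -U‖ = ‖P + S - U‖ := by congr 1
  have g2 : ‖P + -S + U‖ = ‖P - S + U‖ := by congr 1
  rw [f1, f2, f3, f4, g1, g2]
  linarith

/-- The affine bijection as a homeomorphism. -/
noncomputable def hom (A : E3 ≃ᵃ[ℝ] E3) : E3 ≃ₜ E3 :=
  (AffineEquiv.toContinuousAffineEquiv A).toHomeomorph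

theorem hom_coe (A : E3 ≃ᵃ[ℝ] E3) (s : Set E3) : hom A '' s = A '' s := rfl

theorem measurable_Fo (a b c : Bool) : MeasurableSet (Fo a b c) := by
  have h0 : Measurable fun x : E3 => sg a * x 0 := by fun_prop
  have h1 : Measurable fun x : E3 => sg b * x 1 := by fun_prop
  have h2 : Measurable fun x : E3 => sg c * x 2 := by fun_prop
  exact (measurableSet_lt measurable_const h0).inter
    ((measurableSet_lt measurable_const h1).inter
    ((measurableSet_lt measurable_const h2).inter
    (measurableSet_eq_fun ((h0.add h1).add h2) measurable_const)))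

theorem sg_inj {a a' : Bool} {t : ℝ} (h : 0 < sg a * t) (h' : 0 < sg a' * t) : a = a' := by
  cases a <;> cases a' <;> simp [sg] at h h' ⊢ <;> linarith

theorem area_upper (A : E3 ≃ᵃ[ℝ] E3) : (μH[2] : Measure E3) (frontier (A '' K)) ≤
    ENNReal.ofReal (169 * ∑ a : Bool, ∑ b : Bool, ∑ c : Bool,
      ‖sg a • cr (A.linear (e 1)) (A.linear (e 2)) + sg b • cr (A.linear (e 2)) (A.linear (e 0)) +
        sg c • cr (A.linear (e 0)) (A.linear (e 1))‖) * m H +
    ENNReal.ofReal (2 * (‖cr (A.linear (e 1)) (A.linear (e 2))‖ +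
      ‖cr (A.linear (e 2)) (A.linear (e 0))‖ + ‖cr (A.linear (e 0)) (A.linear (e 1))‖)) * m Q := by
  have hK : frontier (A '' K) = A '' frontier K := ((hom A).image_frontier K).symm
  have hsum : ∀ (i j k : Fin 3) (hij : i ≠ j), (μH[2] : Measure E3)
      (A '' ⋃ a : Bool, par ((8 * sg a) • e k) (e i) (e j) '' Q) ≤
      ENNReal.ofReal (2 * ‖cr (A.linear (e i)) (A.linear (e j))‖) * m Q := by
    intro i j k hij
    rw [image_iUnion]
    refine (measure_iUnion_fintype_le _ _).trans ?_
    simp only [area_sq A i j hij]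
    rw [Fintype.sum_bool, ENNReal.ofReal_mul (by norm_num)]
    rw [← two_mul, mul_assoc]
    simp
  have hfac : (μH[2] : Measure E3) (A '' ⋃ a, ⋃ b, ⋃ c, fac 13 a b c '' H) ≤
      ENNReal.ofReal (169 * ∑ a : Bool, ∑ b : Bool, ∑ c : Bool,
      ‖sg a • cr (A.linear (e 1)) (A.linear (e 2)) + sg b • cr (A.linear (e 2)) (A.linear (e 0)) +
        sg c • cr (A.linear (e 0)) (A.linear (e 1))‖) * m H := by
    calc (μH[2] : Measure E3) (A '' ⋃ a, ⋃ b, ⋃ c, fac 13 a b c '' H)
        ≤ ∑ a : Bool, ∑ b : Bool, ∑ c : Bool, (μH[2] : Measure E3) (A '' (fac 13 a b c '' H)) := by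
          simp only [image_iUnion]
          refine (measure_iUnion_fintype_le _ _).trans (Finset.sum_le_sum fun a _ => ?_)
          refine (measure_iUnion_fintype_le _ _).trans (Finset.sum_le_sum fun b _ => ?_)
          exact measure_iUnion_fintype_le _ _
      _ = _ := by
          simp only [area_fac A 13 (by norm_num)]
          simp only [← Finset.sum_mul]
          congr 1
          rw [Finset.mul_sum, ENNReal.ofReal_sum_of_nonneg (fun a _ => by positivity)]
          refine Finset.sum_congr rfl fun a _ => ?_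
          rw [Finset.mul_sum, ENNReal.ofReal_sum_of_nonneg (fun a _ => by positivity)]
          refine Finset.sum_congr rfl fun b _ => ?_
          rw [Finset.mul_sum, ENNReal.ofReal_sum_of_nonneg (fun a _ => by positivity)]
          refine Finset.sum_congr rfl fun c _ => ?_
          norm_num
  rw [hK]
  calc (μH[2] : Measure E3) (A '' frontier K)
      ≤ (μH[2] : Measure E3) (A '' ((⋃ a, ⋃ b, ⋃ c, fac 13 a b c '' H) ∪
        ((⋃ a, par ((8 * sg a) • e 0) (e 1) (e 2) '' Q) ∪
        ((⋃ a, par ((8 * sg a) • e 1) (e 2) (e 0) '' Q) ∪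
        (⋃ a, par ((8 * sg a) • e 2) (e 0) (e 1) '' Q))))) :=
        measure_mono (image_mono frontier_K_sub)
    _ ≤ _ := by
        rw [image_union, image_union, image_union]
        refine (measure_union_le _ _).trans (add_le_add hfac ?_)
        refine (measure_union_le _ _).trans ?_
        refine (add_le_add (hsum 1 2 0 (by decide)) ((measure_union_le _ _).trans
          (add_le_add (hsum 2 0 1 (by decide)) (hsum 0 1 2 (by decide))))).trans ?_
        rw [← add_mul, ← add_mul, ← ENNReal.ofReal_add (by positivity) (by positivity),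
          ← ENNReal.ofReal_add (by positivity) (by positivity)]
        apply le_of_eq
        congr 2
        ring

theorem area_lower (A : E3 ≃ᵃ[ℝ] E3) :
    ENNReal.ofReal (144 * ∑ a : Bool, ∑ b : Bool, ∑ c : Bool,
      ‖sg a • cr (A.linear (e 1)) (A.linear (e 2)) + sg b • cr (A.linear (e 2)) (A.linear (e 0)) +
        sg c • cr (A.linear (e 0)) (A.linear (e 1))‖) * m T ≤
    (μH[2] : Measure E3) (frontier (A '' L)) := by
  have hL : frontier (A '' L) = A '' frontier L := ((hom A).image_frontier L).symm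
  rw [hL]
  have hdisj : Pairwise (Function.onFun Disjoint
      fun i : Bool × Bool × Bool => A '' Fo i.1 i.2.1 i.2.2) := by
    rintro ⟨a, b, c⟩ ⟨a', b', c'⟩ hne
    rw [Function.onFun, Set.disjoint_image_iff A.injective, Set.disjoint_left]
    intro x hx hx'
    apply hne
    have ha := sg_inj hx.1 hx'.1
    have hb := sg_inj hx.2.1 hx'.2.1
    have hc := sg_inj hx.2.2.1 hx'.2.2.1
    simp only at ha hb hc
    rw [ha, hb, hc]
  have hmeas : ∀ i : Bool × Bool × Bool, MeasurableSet (A '' Fo i.1 i.2.1 i.2.2) := by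
    intro i
    exact (hom A).measurableEmbedding.measurableSet_image.2 (measurable_Fo _ _ _)
  calc _ = ∑ a : Bool, ∑ b : Bool, ∑ c : Bool, (μH[2] : Measure E3) (A '' (fac 12 a b c '' T)) := by
          simp only [area_fac A 12 (by norm_num)]
          simp only [← Finset.sum_mul]
          congr 1
          rw [Finset.mul_sum, ENNReal.ofReal_sum_of_nonneg (fun a _ => by positivity)]
          refine Finset.sum_congr rfl fun a _ => ?_
          rw [Finset.mul_sum, ENNReal.ofReal_sum_of_nonneg (fun a _ => by positivity)]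
          refine Finset.sum_congr rfl fun b _ => ?_
          rw [Finset.mul_sum, ENNReal.ofReal_sum_of_nonneg (fun a _ => by positivity)]
          refine Finset.sum_congr rfl fun c _ => ?_
          norm_num
    _ ≤ ∑ a : Bool, ∑ b : Bool, ∑ c : Bool, (μH[2] : Measure E3) (A '' Fo a b c) := by
          gcongr with a _ b _ c _
          exact frontier_L_sup a b c
    _ = ∑ i : Bool × Bool × Bool, (μH[2] : Measure E3) (A '' Fo i.1 i.2.1 i.2.2) := by
          rw [Fintype.sum_prod_type]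
          refine Finset.sum_congr rfl fun a _ => ?_
          rw [Fintype.sum_prod_type]
    _ = (μH[2] : Measure E3) (⋃ i : Bool × Bool × Bool, A '' Fo i.1 i.2.1 i.2.2) := by
          rw [measure_iUnion hdisj hmeas, tsum_fintype]
    _ ≤ _ := by
          apply measure_mono
          refine iUnion_subset fun i => image_mono (Fo_sub _ _ _)

/-- The surface-area inequality. -/
theorem area_le (A : E3 ≃ᵃ[ℝ] E3) : (μH[2] : Measure E3) (frontier (A '' K)) ≤
    (μH[2] : Measure E3) (frontier (A '' L)) := by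
  refine (area_upper A).trans (le_trans ?_ (area_lower A))
  set P := cr (A.linear (e 1)) (A.linear (e 2)) with hP
  set S := cr (A.linear (e 2)) (A.linear (e 0)) with hS
  set U := cr (A.linear (e 0)) (A.linear (e 1)) with hU
  set N := ∑ a : Bool, ∑ b : Bool, ∑ c : Bool, ‖sg a • P + sg b • S + sg c • U‖ with hN
  have hN8 := hlawka8 P S U
  rw [← hN] at hN8
  have hT := m_T_fin
  -- pass to real numbers
  obtain ⟨t, ht⟩ : ∃ t : ℝ, t = (m T).toReal := ⟨_, rfl⟩
  have ht0 : 0 ≤ t := ht ▸ ENNReal.toReal_nonneg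
  have hmT : m T = ENNReal.ofReal t := by rw [ht, ENNReal.ofReal_toReal hT]
  have hHle : m H ≤ ENNReal.ofReal (94 / 169 * t) := by
    have h := m_H
    have h3 : (3 : ℝ≥0∞) = ENNReal.ofReal 3 := by simp
    rw [hmT, ← ENNReal.ofReal_mul (by norm_num), h3, ← ENNReal.ofReal_mul (by norm_num)] at h
    have h' := ENNReal.le_sub_of_add_le_right ENNReal.ofReal_ne_top h
    rw [← ENNReal.ofReal_sub _ (by positivity)] at h'
    refine h'.trans (ENNReal.ofReal_le_ofReal ?_)
    linarith
  have hQle : m Q ≤ ENNReal.ofReal (100 * t) := by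
    have h := m_Q
    rw [hmT] at h
    rw [ENNReal.ofReal_mul (by norm_num)]
    simpa using h
  have hN0 : 0 ≤ N := by rw [hN]; positivity
  calc ENNReal.ofReal (169 * N) * m H + ENNReal.ofReal (2 * (‖P‖ + ‖S‖ + ‖U‖)) * m Q
      ≤ ENNReal.ofReal (169 * N) * ENNReal.ofReal (94 / 169 * t) +
        ENNReal.ofReal (2 * (‖P‖ + ‖S‖ + ‖U‖)) * ENNReal.ofReal (100 * t) := by gcongr
    _ = ENNReal.ofReal (169 * N * (94 / 169 * t) + 2 * (‖P‖ + ‖S‖ + ‖U‖) * (100 * t)) := by
        rw [← ENNReal.ofReal_mul (by positivity), ← ENNReal.ofReal_mul (by positivity),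
          ← ENNReal.ofReal_add (by positivity) (by positivity)]
    _ ≤ ENNReal.ofReal (144 * N * t) := by
        apply ENNReal.ofReal_le_ofReal
        have := mul_le_mul_of_nonneg_right hN8 ht0
        nlinarith
    _ = ENNReal.ofReal (144 * N) * m T := by
        rw [hmT, ← ENNReal.ofReal_mul (by positivity)]

end Q190.TruncOcta
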