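import Mathlib
import Pool.Agent.Q190.TruncOcta

/-!
# The truncated octahedron has larger volume than the octahedron
-/

namespace Q190.TruncOcta

open MeasureTheory Set Measure
open scoped InnerProductSpace ENNReal Pointwise
open Q190

theorem vol_L : volume L = ENNReal.ofReal 2304 := by
  have h : L = (WithLp.ofLp : E3 → (Fin 3 → ℝ)) ⁻¹' Octa.O 12 := rfl
  rw [h, (PiLp.volume_preserving_ofLp (Fin 3)).measure_preimage
    (Octa.O_closed 12).measurableSet.nullMeasurableSet, Octa.vol_O (by norm_num)]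
  norm_num

/-- A corner of the octahedron. -/
def corner (i : Fin 3) : Set (Fin 3 → ℝ) := {x | Octa.n1 x ≤ 13 ∧ 8 < x i}

theorem vol_corner (i : Fin 3) : volume (corner i) = ENNReal.ofReal (250 / 3) := by
  have h := Octa.half (Octa.O_closed 5).measurableSet i (Octa.O_flip 5 i)
  rw [Octa.vol_O (by norm_num)] at h
  have e : corner i = (fun x => x + (fun j => if j = i then (-8 : ℝ) else 0)) ⁻¹'
      (Octa.O 5 ∩ {x | 0 < x i}) := by
    ext x
    simp only [corner, Octa.O, Octa.n1, mem_ofPred_eq, mem_preimage, mem_inter_iff, Pi.add_apply,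
      if_true]
    constructor
    · rintro ⟨h1, h2⟩
      refine ⟨?_, by linarith⟩
      fin_cases i
      · simp at h1 h2 ⊢
        rw [abs_of_pos (by linarith)] at h1 ⊢
        linarith
      · simp at h1 h2 ⊢
        rw [abs_of_pos (show 0 < x 1 by linarith)] at h1
        rw [abs_of_pos (show 0 < x 1 + -8 by linarith)]
        linarith
      · simp at h1 h2 ⊢
        rw [abs_of_pos (show 0 < x 2 by linarith)] at h1
        rw [abs_of_pos (show 0 < x 2 + -8 by linarith)]
        linarith
    · rintro ⟨h1, h2⟩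
      refine ⟨?_, by linarith⟩
      fin_cases i
      · simp at h1 h2 ⊢
        rw [abs_of_pos (by linarith)] at h1 ⊢
        linarith
      · simp at h1 h2 ⊢
        rw [abs_of_pos (show 0 < x 1 + -8 by linarith)] at h1
        rw [abs_of_pos (show 0 < x 1 by linarith)]
        linarith
      · simp at h1 h2 ⊢
        rw [abs_of_pos (show 0 < x 2 + -8 by linarith)] at h1
        rw [abs_of_pos (show 0 < x 2 by linarith)]
        linarith
  rw [e, measure_preimage_add_right]
  have e2 : ENNReal.ofReal (4 / 3 * 5 ^ 3) = 2 * ENNReal.ofReal (250 / 3) := by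
    rw [show (2 : ℝ≥0∞) = ENNReal.ofReal 2 by simp, ← ENNReal.ofReal_mul (by norm_num)]
    norm_num
  rw [e2] at h
  exact ((ENNReal.mul_right_inj (by norm_num) (by norm_num)).1 h).symm

/-- The truncated octahedron in coordinates. -/
def K' : Set (Fin 3 → ℝ) := {x | Octa.n1 x ≤ 13 ∧ |x 0| ≤ 8 ∧ |x 1| ≤ 8 ∧ |x 2| ≤ 8}

theorem cover : Octa.O 13 ⊆ K' ∪ ((⋃ i, corner i) ∪ (⋃ i, Octa.flip i ⁻¹' corner i)) := by
  intro x hx
  have hx' : Octa.n1 x ≤ 13 := hx
  by_cases h : ∃ i, 8 < |x i|
  · obtain ⟨i, hi⟩ := h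
    right
    rcases lt_abs.1 hi with h | h
    · left
      exact mem_iUnion.2 ⟨i, hx', h⟩
    · right
      refine mem_iUnion.2 ⟨i, ?_⟩
      have hf : Octa.flip i x ∈ Octa.O 13 := (Octa.O_flip 13 i x).2 hx
      exact ⟨hf, by simpa [Octa.flip] using h⟩
  · push Not at h
    left
    exact ⟨hx', h 0, h 1, h 2⟩

theorem vol_lt : volume L < volume K := by
  have hK : K = (WithLp.ofLp : E3 → (Fin 3 → ℝ)) ⁻¹' K' := rfl
  have hKcl : IsClosed K' := by
    have c : ∀ i, Continuous fun x : Fin 3 → ℝ => |x i| := fun i => by fun_prop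
    exact (isClosed_le Octa.n1_cont continuous_const).inter <|
      (isClosed_le (c 0) continuous_const).inter <|
      (isClosed_le (c 1) continuous_const).inter (isClosed_le (c 2) continuous_const)
  rw [vol_L, hK, (PiLp.volume_preserving_ofLp (Fin 3)).measure_preimage
    hKcl.measurableSet.nullMeasurableSet]
  by_contra hc
  push Not at hc
  have hcm : ∀ i, MeasurableSet (corner i) := by
    intro i
    exact (Octa.O_closed 13).measurableSet.inter
      (measurableSet_lt measurable_const (measurable_pi_apply i))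
  have h1 : volume (⋃ i, corner i) ≤ ENNReal.ofReal 250 := by
    refine (measure_iUnion_fintype_le _ _).trans ?_
    simp only [vol_corner]
    rw [Finset.sum_const, Finset.card_univ, Fintype.card_fin, nsmul_eq_mul,
      show ((3 : ℕ) : ℝ≥0∞) = ENNReal.ofReal 3 by simp, ← ENNReal.ofReal_mul (by norm_num)]
    norm_num
  have h2 : volume (⋃ i, Octa.flip i ⁻¹' corner i) ≤ ENNReal.ofReal 250 := by
    refine (measure_iUnion_fintype_le _ _).trans ?_
    have : ∀ i, volume (Octa.flip i ⁻¹' corner i) = ENNReal.ofReal (250 / 3) := fun i => by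
      rw [(Octa.flip_mp i).measure_preimage (hcm i).nullMeasurableSet, vol_corner]
    simp only [this]
    rw [Finset.sum_const, Finset.card_univ, Fintype.card_fin, nsmul_eq_mul,
      show ((3 : ℕ) : ℝ≥0∞) = ENNReal.ofReal 3 by simp, ← ENNReal.ofReal_mul (by norm_num)]
    norm_num
  have h3 := measure_mono (μ := volume) cover
  have h4 : volume (Octa.O 13) ≤ ENNReal.ofReal 2804 := by
    refine h3.trans ((measure_union_le _ _).trans ?_)
    refine (add_le_add hc ((measure_union_le _ _).trans (add_le_add h1 h2))).trans ?_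
    rw [← ENNReal.ofReal_add (by norm_num) (by norm_num),
      ← ENNReal.ofReal_add (by norm_num) (by norm_num)]
    norm_num
  rw [Octa.vol_O (by norm_num), ENNReal.ofReal_le_ofReal_iff (by norm_num)] at h4
  norm_num at h4

theorem n1_nonneg (x : E3) : 0 ≤ n1 x := by unfold n1; positivity

theorem n1_neg (x : E3) : n1 (-x) = n1 x := by simp [n1]

theorem ball_bounded (r : ℝ) : Bornology.IsBounded {x : E3 | n1 x ≤ r} := by
  rw [isBounded_iff_forall_norm_le]
  refine ⟨r, fun x hx => ?_⟩
  have hx' : n1 x ≤ r := hx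
  have h1 : ‖x‖ ^ 2 ≤ n1 x ^ 2 := by
    rw [norm_sq_E3, n1]
    have h0 := abs_nonneg (x 0)
    have h1 := abs_nonneg (x 1)
    have h2 := abs_nonneg (x 2)
    rw [← sq_abs (x 0), ← sq_abs (x 1), ← sq_abs (x 2)]
    nlinarith [mul_nonneg h0 h1, mul_nonneg h0 h2, mul_nonneg h1 h2]
  exact ((sq_le_sq₀ (norm_nonneg x) (n1_nonneg x)).1 h1).trans hx'

theorem ball_convex (r : ℝ) : Convex ℝ {x : E3 | n1 x ≤ r} := by
  intro x hx y hy a b ha hb hab
  have h1 := n1_add (a • x) (b • y)
  rw [n1_smul, n1_smul, abs_of_nonneg ha, abs_of_nonneg hb] at h1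
  have h2 := mul_le_mul_of_nonneg_left (show n1 x ≤ r from hx) ha
  have h3 := mul_le_mul_of_nonneg_left (show n1 y ≤ r from hy) hb
  change n1 _ ≤ r
  calc n1 (a • x + b • y) ≤ a * n1 x + b * n1 y := h1
    _ ≤ a * r + b * r := add_le_add h2 h3
    _ = r := by rw [← add_mul, hab, one_mul]

theorem slab_convex (i : Fin 3) (r : ℝ) : Convex ℝ {x : E3 | |x i| ≤ r} := by
  intro x hx y hy a b ha hb hab
  have h2 := mul_le_mul_of_nonneg_left (show |x i| ≤ r from hx) ha
  have h3 := mul_le_mul_of_nonneg_left (show |y i| ≤ r from hy) hb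
  change |(a • x + b • y) i| ≤ r
  simp only [PiLp.add_apply, PiLp.smul_apply, smul_eq_mul]
  calc |a * x i + b * y i| ≤ |a * x i| + |b * y i| := abs_add_le _ _
    _ = a * |x i| + b * |y i| := by rw [abs_mul, abs_mul, abs_of_nonneg ha, abs_of_nonneg hb]
    _ ≤ a * r + b * r := add_le_add h2 h3
    _ = r := by rw [← add_mul, hab, one_mul]

theorem L_body : IsConvexBody L where
  compact := Metric.isCompact_of_isClosed_isBounded (isClosed_le n1_cont continuous_const)
    (ball_bounded 12)
  convex := ball_convex 12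
  nonempty_interior := by
    refine ⟨0, ?_⟩
    have h1 : IsOpen {x : E3 | n1 x < 12} := isOpen_lt n1_cont continuous_const
    have h2 : {x : E3 | n1 x < 12} ⊆ L := fun x hx => le_of_lt (show n1 x < 12 from hx)
    exact interior_maximal h2 h1 (show n1 0 < 12 by simp [n1])

theorem K_body : IsConvexBody K where
  compact := Metric.isCompact_of_isClosed_isBounded K_closed
    ((ball_bounded 13).subset fun _ hx => hx.1)
  convex := (ball_convex 13).inter <| (slab_convex 0 8).inter <|
    (slab_convex 1 8).inter (slab_convex 2 8)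
  nonempty_interior := by
    refine ⟨0, ?_⟩
    have h1 : IsOpen {x : E3 | n1 x < 8} := isOpen_lt n1_cont continuous_const
    have h2 : {x : E3 | n1 x < 8} ⊆ K := fun x hx => by
      have hx' : n1 x < 8 := hx
      have h0 := abs_nonneg (x 0)
      have h1 := abs_nonneg (x 1)
      have h2 := abs_nonneg (x 2)
      have hn : n1 x = |x 0| + |x 1| + |x 2| := rfl
      refine ⟨by linarith, by linarith, by linarith, by linarith⟩
    exact interior_maximal h2 h1 (show n1 0 < 8 by simp [n1])

theorem L_symm (x : E3) : x ∈ L ↔ -x ∈ L := by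
  change n1 x ≤ 12 ↔ n1 (-x) ≤ 12
  rw [n1_neg]

theorem K_symm (x : E3) : x ∈ K ↔ -x ∈ K := by
  change (n1 x ≤ 13 ∧ |x 0| ≤ 8 ∧ |x 1| ≤ 8 ∧ |x 2| ≤ 8) ↔
    (n1 (-x) ≤ 13 ∧ |(-x) 0| ≤ 8 ∧ |(-x) 1| ≤ 8 ∧ |(-x) 2| ≤ 8)
  rw [n1_neg]
  simp

end Q190.TruncOcta
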