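import Mathlib
import Pool.Agent.Q190.CSDefs
import Pool.Agent.Helper509.SphDefs

/-!
# Unitarily averaged projections: definitions
-/

namespace Q190.UB

open MeasureTheory Set
open scoped InnerProductSpace Pointwise

section general

variable {X : Type*} [NormedAddCommGroup X] [InnerProductSpace ℝ X] [FiniteDimensional ℝ X]
  [MeasurableSpace X] [BorelSpace X]

/-- Lebesgue measure on a real subspace `F`: the Haar measure for which the parallelepiped spanned by
an orthonormal basis of `F` has measure one. -/
noncomputable def leb (F : Submodule ℝ X) : Measure F :=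
  (stdOrthonormalBasis ℝ F).toBasis.addHaar

/-- The orthogonal projection `K|F` of `K` onto `F`, as a subset of `F`. -/
noncomputable def shadow (K : Set X) (F : Submodule ℝ X) : Set F :=
  F.orthogonalProjectionOnto '' K

/-- The Lebesgue measure `|K|F|` of the orthogonal projection of `K` onto `F`. -/
noncomputable def projVol (K : Set X) (F : Submodule ℝ X) : ℝ := (leb F).real (shadow K F)

end general

/-- Complex Euclidean space `ℂⁿ`; as a real inner product space its inner product is
`Re ⟪z, w⟫`. -/
abbrev Cn (n : ℕ) := EuclideanSpace ℂ (Fin n)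

/-- Real linear subspaces of `ℂⁿ`. -/
abbrev RealSub (n : ℕ) := Submodule ℝ (Cn n)

/-- Complex linear subspaces of `ℂⁿ`. -/
abbrev CxSub (n : ℕ) := Submodule ℂ (Cn n)

/-- A complex subspace, regarded as a real subspace. -/
noncomputable abbrev CxSub.real {n : ℕ} (E : CxSub n) : RealSub n := E.restrictScalars ℝ

/-- Real dimension. -/
noncomputable def rdim {n : ℕ} (E : RealSub n) : ℕ := Module.finrank ℝ E

/-- The unitary group `U(n)`. -/
abbrev Un (n : ℕ) := Matrix.unitaryGroup (Fin n) ℂ

/-- The action of a unitary matrix on `ℂⁿ`, `z ↦ U z`. -/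
noncomputable def act {n : ℕ} (U : Un n) (z : Cn n) : Cn n :=
  WithLp.toLp 2 ((U : Matrix (Fin n) (Fin n) ℂ).mulVec (WithLp.ofLp z))

/-- The real subspace `U(E)` (the image of `E` under the linear map `z ↦ U z`). -/
noncomputable def rotate {n : ℕ} (U : Un n) (E : RealSub n) : RealSub n :=
  Submodule.span ℝ (act U '' (E : Set (Cn n)))

/-- `V_E(K)`: the average of `|K|U(E)|` over the unitary group with its Haar probability measure. -/
noncomputable def V {n : ℕ} (E : RealSub n) (K : Set (Cn n)) : ℝ :=
  ∫ U : Un n, projVol K (rotate U E) ∂(Pool.Agent.Helper509.SphDefs.haarU n)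

/-- `V_E(K)^(1/i)`, where `i` is the real dimension of `E`. -/
noncomputable def W {n : ℕ} (E : RealSub n) (K : Set (Cn n)) : ℝ :=
  V E K ^ (1 / (rdim E : ℝ))

/-- The Brunn-Minkowski property of a real subspace `E` of `ℂⁿ`. -/
def BMProperty {n : ℕ} (E : RealSub n) : Prop :=
  ∀ K L : Set (Cn n), IsConvexBody K → IsConvexBody L → W E K + W E L ≤ W E (K + L)

/-- The closed polydisc with centre `0` and radii `a j`. -/
def polydisc {n : ℕ} (a : Fin n → ℝ) : Set (Cn n) := {z | ∀ j, ‖z j‖ ≤ a j}

/-- The strict reverse Brunn-Minkowski inequality holds for `V_E` and all pairs of polydiscs with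
centre `0` and positive radii that are not dilates of each other. -/
def StrictReverse {n : ℕ} (E : RealSub n) : Prop :=
  ∀ a b : Fin n → ℝ, (∀ j, 0 < a j) → (∀ j, 0 < b j) → (∀ t : ℝ, a ≠ t • b) →
    W E (polydisc a + polydisc b) < W E (polydisc a) + W E (polydisc b)

end Q190.UB
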