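import Mathlib
import Pool.Agent.Q190.UBDefs

/-!
# Projections of polydiscs onto complex lines
-/

namespace Q190.UB

open MeasureTheory Set
open scoped InnerProductSpace Pointwise ComplexConjugate

variable {n : ℕ}

theorem inner_real (x y : Cn n) : ⟪x, y⟫_ℝ = (⟪x, y⟫_ℂ).re := by
  simp only [PiLp.inner_apply, Complex.re_sum]
  rfl

theorem inner_cx (x y : Cn n) : ⟪x, y⟫_ℂ = ∑ j, conj (x j) * y j := by
  simp only [PiLp.inner_apply]
  refine Finset.sum_congr rfl fun j _ => ?_
  simp [mul_comm]

/-- The complex line through `f`, as a real subspace. -/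
noncomputable def line (f : Cn n) : Submodule ℝ (Cn n) := (ℂ ∙ f).restrictScalars ℝ

theorem mem_line {f x : Cn n} : x ∈ line f ↔ ∃ z : ℂ, z • f = x := by
  simp [line, Submodule.mem_span_singleton]

/-- Parametrisation of a complex line. -/
noncomputable def lineIso (f : Cn n) (hf : ‖f‖ = 1) : ℂ ≃ₗᵢ[ℝ] line f where
  toFun z := ⟨z • f, mem_line.2 ⟨z, rfl⟩⟩
  invFun x := ⟪f, (x : Cn n)⟫_ℂ
  map_add' x y := by ext1; simp [add_smul]
  map_smul' c x := by
    ext1
    simp [mul_smul]
  left_inv z := by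
    simp [inner_self_eq_norm_sq_to_K, hf]
  right_inv x := by
    obtain ⟨z, hz⟩ := mem_line.1 x.2
    ext1
    simp [← hz, inner_self_eq_norm_sq_to_K, hf]
  norm_map' z := by
    change ‖z • f‖ = ‖z‖
    rw [norm_smul, hf, mul_one]

theorem lineIso_coe (f : Cn n) (hf : ‖f‖ = 1) (z : ℂ) : (lineIso f hf z : Cn n) = z • f := rfl

theorem proj_line (f : Cn n) (hf : ‖f‖ = 1) (x : Cn n) :
    (line f).orthogonalProjectionOnto x = lineIso f hf ⟪f, x⟫_ℂ := by
  ext1
  change (line f).starProjection x = _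
  apply Submodule.eq_starProjection_of_mem_of_inner_eq_zero (Subtype.coe_prop _)
  intro w hw
  obtain ⟨z, rfl⟩ := mem_line.1 hw
  rw [lineIso_coe, inner_real]
  have : ⟪x - ⟪f, x⟫_ℂ • f, z • f⟫_ℂ = 0 := by
    rw [inner_smul_right, inner_sub_left, inner_smul_left, inner_self_eq_norm_sq_to_K, hf]
    simp
  rw [this]
  rfl

theorem leb_line (f : Cn n) (hf : ‖f‖ = 1) (S : Set ℂ) :
    leb (line f) (lineIso f hf '' S) = volume S := by
  have h : leb (line f) = @volume _ (measureSpaceOfInnerProductSpace (E := line f)) :=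
    (stdOrthonormalBasis ℝ (line f)).addHaar_eq_volume
  have hmp : Measure.map (lineIso f hf) volume =
      @volume _ (measureSpaceOfInnerProductSpace (E := line f)) :=
    (LinearIsometryEquiv.measurePreserving (E := ℂ) (F := line f) (lineIso f hf)).map_eq
  have hemb : MeasurableEmbedding (lineIso f hf) :=
    (lineIso f hf).toHomeomorph.measurableEmbedding
  rw [h, ← hmp, hemb.map_apply, preimage_image_eq _ (lineIso f hf).injective]

end Q190.UB
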