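import Mathlib
import Pool.Agent.Q190.UBLine

/-!
# Averages over complex lines: polydiscs violate the Brunn-Minkowski inequality
-/

namespace Q190.UB

open MeasureTheory Set
open scoped InnerProductSpace Pointwise ComplexConjugate
open Pool.Agent.Helper509.SphDefs

variable {n : ℕ}

theorem image_polydisc (f : Cn n) (a : Fin n → ℝ) (ha : ∀ j, 0 ≤ a j) :
    (fun x : Cn n => ⟪f, x⟫_ℂ) '' polydisc a = Metric.closedBall 0 (∑ j, a j * ‖f j‖) := by
  ext w
  rw [mem_closedBall_zero_iff]
  constructor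
  · rintro ⟨x, hx, rfl⟩
    simp only
    rw [inner_cx]
    refine (norm_sum_le _ _).trans (Finset.sum_le_sum fun j _ => ?_)
    rw [norm_mul, RCLike.norm_conj, mul_comm]
    exact mul_le_mul_of_nonneg_right (hx j) (norm_nonneg _)
  · intro hw
    set r := ∑ j, a j * ‖f j‖ with hr
    have hr0 : 0 ≤ r := Finset.sum_nonneg fun j _ => mul_nonneg (ha j) (norm_nonneg _)
    rcases hr0.eq_or_lt with h0 | h0
    · have : w = 0 := by rw [← norm_le_zero_iff]; linarith
      refine ⟨0, fun j => by simpa using ha j, ?_⟩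
      simp [this]
    · refine ⟨WithLp.toLp 2 fun j => (a j : ℂ) * (f j / ‖f j‖) * (w / r), fun j => ?_, ?_⟩
      · simp only [norm_mul, norm_div, Complex.norm_real, norm_norm]
        rw [Real.norm_of_nonneg (ha j), Real.norm_of_nonneg hr0]
        have h1 : ‖f j‖ / ‖f j‖ ≤ 1 := div_self_le_one _
        have h2 : ‖w‖ / r ≤ 1 := (div_le_one h0).2 hw
        have h3 : 0 ≤ ‖f j‖ / ‖f j‖ := by positivity
        have h4 : 0 ≤ ‖w‖ / r := by positivity
        calc a j * (‖f j‖ / ‖f j‖) * (‖w‖ / r) ≤ a j * 1 * 1 := by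
              apply mul_le_mul _ h2 h4 (by linarith [ha j])
              exact mul_le_mul_of_nonneg_left h1 (ha j)
          _ = a j := by ring
      · simp only
        rw [inner_cx]
        have h1 : ∀ (c : ℂ) (x : ℝ), conj c * ((x : ℂ) * (c / ‖c‖) * (w / r)) =
            ((x * ‖c‖ : ℝ) : ℂ) * (w / r) := by
          intro c x
          by_cases hj : c = 0
          · simp [hj]
          · have hn : (‖c‖ : ℂ) ≠ 0 := by simpa using hj
            have : conj c * c = (‖c‖ : ℂ) ^ 2 := by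
              rw [mul_comm, Complex.mul_conj, Complex.normSq_eq_norm_sq]; push_cast; ring
            push_cast
            calc conj c * ((x : ℂ) * (c / ‖c‖) * (w / r)) =
                (conj c * c) * (x / ‖c‖) * (w / r) := by ring
              _ = (x : ℂ) * ‖c‖ * (w / r) := by
                rw [this]
                congr 1
                field_simp
        rw [Finset.sum_congr rfl fun j _ => h1 (f j) (a j), ← Finset.sum_mul,
          ← Complex.ofReal_sum, ← hr]
        have : (r : ℂ) ≠ 0 := by exact_mod_cast h0.ne'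
        field_simp

theorem projVol_polydisc (f : Cn n) (hf : ‖f‖ = 1) (a : Fin n → ℝ) (ha : ∀ j, 0 ≤ a j) :
    projVol (polydisc a) (line f) = Real.pi * (∑ j, a j * ‖f j‖) ^ 2 := by
  have e : (line f).orthogonalProjectionOnto '' polydisc a =
      lineIso f hf '' ((fun x : Cn n => ⟪f, x⟫_ℂ) '' polydisc a) := by
    rw [image_image]
    exact image_congr fun x _ => proj_line f hf x
  have hr0 : 0 ≤ ∑ j, a j * ‖f j‖ := Finset.sum_nonneg fun j _ => mul_nonneg (ha j) (norm_nonneg _)
  rw [projVol, shadow, measureReal_def, e, leb_line, image_polydisc f a ha, Complex.volume_closedBall]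
  rw [ENNReal.toReal_mul, ENNReal.toReal_pow, ENNReal.toReal_ofReal hr0]
  simp
  ring

theorem act_eq (U : Un n) (e : Cn n) :
    act U e = Matrix.toEuclideanLin (U : Matrix (Fin n) (Fin n) ℂ) e := rfl

theorem act_apply (U : Un n) (e : Cn n) (j : Fin n) :
    act U e j = ∑ k, (U : Matrix (Fin n) (Fin n) ℂ) j k * e k := by
  simp [act, Matrix.mulVec, dotProduct]

theorem rotate_line (U : Un n) (e : Cn n) :
    rotate U (line e) = line (act U e) := by
  apply le_antisymm
  · refine Submodule.span_le.2 ?_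
    rintro _ ⟨x, hx, rfl⟩
    obtain ⟨z, rfl⟩ := mem_line.1 hx
    exact mem_line.2 ⟨z, by rw [act_eq, act_eq, map_smul]⟩
  · intro x hx
    obtain ⟨z, rfl⟩ := mem_line.1 hx
    apply Submodule.subset_span
    exact ⟨z • e, mem_line.2 ⟨z, rfl⟩, by rw [act_eq, act_eq, map_smul]⟩

theorem act_norm (U : Matrix.unitaryGroup (Fin n) ℂ) (e : Cn n) : ‖act U e‖ = ‖e‖ := by
  have h1 : (⟪act U e, act U e⟫_ℂ) = ⟪e, e⟫_ℂ := by
    rw [act_eq]
    rw [← LinearMap.adjoint_inner_right, ← Matrix.toEuclideanLin_conjTranspose_eq_adjoint]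
    congr 1
    have hU : (U : Matrix (Fin n) (Fin n) ℂ).conjTranspose * (U : Matrix (Fin n) (Fin n) ℂ) = 1 :=
      Matrix.mem_unitaryGroup_iff'.1 U.2
    have : (Matrix.toEuclideanLin (U : Matrix (Fin n) (Fin n) ℂ).conjTranspose)
        (Matrix.toEuclideanLin (U : Matrix (Fin n) (Fin n) ℂ) e) = e := by
      simp only [Matrix.toLpLin_apply, Matrix.mulVec_mulVec, hU, Matrix.one_mulVec]
    exact this
  rw [inner_self_eq_norm_sq_to_K, inner_self_eq_norm_sq_to_K] at h1
  have h2 : ‖act U e‖ ^ 2 = ‖e‖ ^ 2 := by exact_mod_cast h1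
  exact (sq_eq_sq₀ (norm_nonneg _) (norm_nonneg _)).1 h2

theorem exists_act (e f : Cn n) (he : ‖e‖ = 1) (hf : ‖f‖ = 1) :
    ∃ U : Matrix.unitaryGroup (Fin n) ℂ, act U e = f := by
  have hn : 0 < n := by
    rcases Nat.eq_zero_or_pos n with h | h
    · subst h
      have : e = 0 := Subsingleton.elim _ _
      rw [this] at he; simp at he
    · exact h
  have basis : ∀ v : Cn n, ‖v‖ = 1 → ∃ b : OrthonormalBasis (Fin n) ℂ (Cn n), b ⟨0, hn⟩ = v := by
    intro v hv
    have ho : Orthonormal ℂ ((Set.domRestrict {(⟨0, hn⟩ : Fin n)}) fun _ : Fin n => v) := by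
      rw [orthonormal_iff_ite]
      rintro ⟨i, hi⟩ ⟨j, hj⟩
      have hi' : i = ⟨0, hn⟩ := hi
      have hj' : j = ⟨0, hn⟩ := hj
      subst hi' hj'
      simp only [if_true]
      change ⟪v, v⟫_ℂ = 1
      rw [inner_self_eq_norm_sq_to_K, hv]
      simp
    obtain ⟨b, hb⟩ := ho.exists_orthonormalBasis_extension_of_card_eq (by simp)
    exact ⟨b, hb _ rfl⟩
  obtain ⟨b, hb⟩ := basis e he
  obtain ⟨c, hc⟩ := basis f hf
  set T : Cn n ≃ₗᵢ[ℂ] Cn n := b.equiv c (Equiv.refl _) with hT
  have hTe : T e = f := by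
    rw [← hb, hT, OrthonormalBasis.equiv_apply_basis, Equiv.refl_apply, hc]
  set M : Matrix (Fin n) (Fin n) ℂ := Matrix.toEuclideanLin.symm (T.toLinearEquiv : Cn n →ₗ[ℂ] Cn n)
    with hM
  have hM' : Matrix.toEuclideanLin M = (T.toLinearEquiv : Cn n →ₗ[ℂ] Cn n) := by
    rw [hM, LinearEquiv.apply_symm_apply]
  have hMu : M ∈ Matrix.unitaryGroup (Fin n) ℂ := by
    rw [Matrix.mem_unitaryGroup_iff']
    apply Matrix.toEuclideanLin.injective
    have h1 : Matrix.toEuclideanLin (star M * M) =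
        (Matrix.toEuclideanLin M.conjTranspose) ∘ₗ (Matrix.toEuclideanLin M) := by
      ext v j
      simp [Matrix.toLpLin_apply, Matrix.star_eq_conjTranspose]
    rw [h1, Matrix.toEuclideanLin_conjTranspose_eq_adjoint, hM']
    ext1 v
    refine ext_inner_left ℂ fun w => ?_
    rw [LinearMap.comp_apply, LinearMap.adjoint_inner_right]
    simp
  refine ⟨⟨M, hMu⟩, ?_⟩
  change Matrix.toEuclideanLin M e = f
  rw [hM']
  exact hTe

theorem act_cont (e : Cn n) (j : Fin n) :
    Continuous fun U : Matrix.unitaryGroup (Fin n) ℂ => act U e j := by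
  simp only [act_apply]
  refine continuous_finsetSum _ fun k _ => ?_
  exact (Continuous.matrix_elem continuous_subtype_val j k).mul continuous_const

/-- The radius function. -/
noncomputable def rad (e : Cn n) (a : Fin n → ℝ) (U : Matrix.unitaryGroup (Fin n) ℂ) : ℝ :=
  ∑ j, a j * ‖act U e j‖

theorem rad_cont (e : Cn n) (a : Fin n → ℝ) : Continuous (rad e a) := by
  unfold rad
  exact continuous_finsetSum _ fun j _ => continuous_const.mul (act_cont e j).norm

theorem V_polydisc (e : Cn n) (he : ‖e‖ = 1) (a : Fin n → ℝ) (ha : ∀ j, 0 ≤ a j) :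
    V (line e) (polydisc a) = Real.pi * ∫ U, rad e a U ^ 2 ∂(haarU n) := by
  rw [V, ← integral_const_mul]
  congr 1
  ext U
  rw [rotate_line, projVol_polydisc _ (by rw [act_norm, he]) a ha]
  rfl

theorem strict_minkowski {G : Type*} [TopologicalSpace G] [CompactSpace G] [MeasurableSpace G]
    [BorelSpace G] (μ : Measure G) [IsFiniteMeasure μ] [μ.IsOpenPosMeasure] (f g : G → ℝ)
    (hf : Continuous f) (hg : Continuous g) (hf0 : ∀ x, 0 < f x) (hg0 : ∀ x, 0 < g x)
    [Nonempty G]
    (hne : ∀ s t : ℝ, 0 < s → 0 < t → ∃ x, s * f x ≠ t * g x) :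
    Real.sqrt (∫ x, (f x + g x) ^ 2 ∂μ) <
      Real.sqrt (∫ x, f x ^ 2 ∂μ) + Real.sqrt (∫ x, g x ^ 2 ∂μ) := by
  have hint : ∀ h : G → ℝ, Continuous h → Integrable h μ := fun h hh =>
    hh.integrable_of_hasCompactSupport (HasCompactSupport.of_compactSpace h)
  have hpos : ∀ h : G → ℝ, Continuous h → (∀ x, 0 ≤ h x) → (∃ x, h x ≠ 0) → 0 < ∫ x, h x ∂μ :=
    fun h hh h0 ⟨x, hx⟩ => hh.integral_pos_of_hasCompactSupport_nonneg_nonzero
      (HasCompactSupport.of_compactSpace h) h0 hx
  set A := ∫ x, f x ^ 2 ∂μ with hA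
  set B := ∫ x, g x ^ 2 ∂μ with hB
  set C := ∫ x, f x * g x ∂μ with hC
  obtain ⟨x0⟩ := ‹Nonempty G›
  have hApos : 0 < A := hpos _ (hf.pow 2) (fun x => sq_nonneg _) ⟨x0, (pow_pos (hf0 x0) 2).ne'⟩
  have hBpos : 0 < B := hpos _ (hg.pow 2) (fun x => sq_nonneg _) ⟨x0, (pow_pos (hg0 x0) 2).ne'⟩
  have hsum : ∫ x, (f x + g x) ^ 2 ∂μ = A + 2 * C + B := by
    have : ∀ x, (f x + g x) ^ 2 = f x ^ 2 + 2 * (f x * g x) + g x ^ 2 := fun x => by ring
    simp only [this]
    rw [integral_add (by exact hint _ (by fun_prop)) (hint _ (by fun_prop)),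
      integral_add (hint _ (by fun_prop)) (hint _ (by fun_prop)), integral_const_mul]
  set s := Real.sqrt B with hs
  set t := Real.sqrt A with ht
  have hs0 : 0 < s := Real.sqrt_pos.2 hBpos
  have ht0 : 0 < t := Real.sqrt_pos.2 hApos
  have hs2 : s ^ 2 = B := Real.sq_sqrt hBpos.le
  have ht2 : t ^ 2 = A := Real.sq_sqrt hApos.le
  have hstrict : 0 < ∫ x, (s * f x - t * g x) ^ 2 ∂μ := by
    apply hpos _ (by fun_prop) (fun x => sq_nonneg _)
    obtain ⟨x, hx⟩ := hne s t hs0 ht0
    exact ⟨x, pow_ne_zero 2 (sub_ne_zero.2 hx)⟩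
  have hexp : ∫ x, (s * f x - t * g x) ^ 2 ∂μ = s ^ 2 * A - 2 * (s * t) * C + t ^ 2 * B := by
    have : ∀ x, (s * f x - t * g x) ^ 2 =
        s ^ 2 * f x ^ 2 - 2 * (s * t) * (f x * g x) + t ^ 2 * g x ^ 2 := fun x => by ring
    simp only [this]
    rw [integral_add (by exact hint _ (by fun_prop)) (hint _ (by fun_prop)),
      integral_sub (hint _ (by fun_prop)) (hint _ (by fun_prop)), integral_const_mul,
      integral_const_mul, integral_const_mul]
  rw [hexp, hs2, ht2] at hstrict
  have hC : C < s * t := by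
    have h1 : 0 < 2 * (s * t) * (s * t - C) := by nlinarith [mul_pos hs0 ht0]
    have h2 : 0 < 2 * (s * t) := by positivity
    linarith [(pos_iff_pos_of_mul_pos h1).1 h2]
  rw [hsum, Real.sqrt_lt' (by positivity)]
  nlinarith

theorem haar_prob : IsProbabilityMeasure (haarU n) := by
  refine ⟨?_⟩
  have := Measure.haarMeasure_self
    (K₀ := (⊤ : TopologicalSpace.PositiveCompacts (Matrix.unitaryGroup (Fin n) ℂ)))
  simpa [haarU] using this

theorem rad_pos {e : Cn n} (he : ‖e‖ = 1) {a : Fin n → ℝ} (ha : ∀ j, 0 < a j)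
    (U : Matrix.unitaryGroup (Fin n) ℂ) : 0 < rad e a U := by
  have h0 : 0 ≤ rad e a U := Finset.sum_nonneg fun j _ => mul_nonneg (ha j).le (norm_nonneg _)
  rcases h0.eq_or_lt with h | h
  · exfalso
    have h1 : ∀ j ∈ Finset.univ, a j * ‖act U e j‖ = 0 :=
      (Finset.sum_eq_zero_iff_of_nonneg fun j _ => mul_nonneg (ha j).le (norm_nonneg _)).1 h.symm
    have h2 : act U e = 0 := by
      ext j
      have := h1 j (Finset.mem_univ j)
      rcases mul_eq_zero.1 this with h3 | h3
      · exact absurd h3 (ha j).ne'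
      · simpa using h3
    have h3 := act_norm U e
    rw [h2, he] at h3
    simp at h3
  · exact h

/-- Strict reverse Brunn-Minkowski inequality for non-homothetic polydiscs and complex lines. -/
theorem strict_reverse (e : Cn n) (he : ‖e‖ = 1) (a b : Fin n → ℝ) (ha : ∀ j, 0 < a j)
    (hb : ∀ j, 0 < b j) (hab : ∀ t : ℝ, a ≠ t • b) :
    Real.sqrt (V (line e) (polydisc (a + b))) <
      Real.sqrt (V (line e) (polydisc a)) + Real.sqrt (V (line e) (polydisc b)) := by
  have := haar_prob (n := n)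
  have hopen : (haarU n).IsOpenPosMeasure := by unfold haarU; infer_instance
  rw [V_polydisc e he a fun j => (ha j).le, V_polydisc e he b fun j => (hb j).le,
    V_polydisc e he (a + b) fun j => (add_pos (ha j) (hb j)).le,
    Real.sqrt_mul Real.pi_pos.le, Real.sqrt_mul Real.pi_pos.le, Real.sqrt_mul Real.pi_pos.le,
    ← mul_add]
  apply mul_lt_mul_of_pos_left _ (Real.sqrt_pos.2 Real.pi_pos)
  have hadd : ∀ U, rad e (a + b) U = rad e a U + rad e b U := by
    intro U
    simp only [rad, Pi.add_apply, add_mul, Finset.sum_add_distrib]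
  simp only [hadd]
  apply strict_minkowski _ _ _ (rad_cont e a) (rad_cont e b) (rad_pos he ha) (rad_pos he hb)
  intro s t hs ht
  by_contra hcon
  push Not at hcon
  apply hab (t / s)
  ext j
  obtain ⟨U, hU⟩ := exists_act e (EuclideanSpace.single j (1 : ℂ)) he (by simp)
  have h1 := hcon U
  have h2 : ∀ c : Fin n → ℝ, rad e c U = c j := by
    intro c
    rw [rad, hU, Finset.sum_eq_single j]
    · simp
    · intro i _ hij
      simp [hij]
    · intro h; exact absurd (Finset.mem_univ j) h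
  rw [h2, h2] at h1
  rw [Pi.smul_apply, smul_eq_mul]
  field_simp
  linarith

end Q190.UB
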