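import Mathlib
import Pool.Agent.Q190.UBMain

/-!
# Complex lines do not have the Brunn-Minkowski property in dimension at least two
-/

namespace Q190.UB

open MeasureTheory Set
open scoped InnerProductSpace Pointwise ComplexConjugate
open Pool.Agent.Helper509.SphDefs

variable {n : ℕ}

theorem polydisc_add (a b : Fin n → ℝ) (ha : ∀ j, 0 < a j) (hb : ∀ j, 0 < b j) :
    polydisc a + polydisc b = polydisc (a + b) := by
  ext z
  constructor
  · rintro ⟨x, hx, y, hy, rfl⟩
    intro j
    exact (norm_add_le _ _).trans (add_le_add (hx j) (hy j))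
  · intro hz
    refine ⟨WithLp.toLp 2 fun j => ((a j / (a j + b j) : ℝ) : ℂ) * z j, fun j => ?_,
      WithLp.toLp 2 fun j => ((b j / (a j + b j) : ℝ) : ℂ) * z j, fun j => ?_, ?_⟩
    · have h0 : 0 < a j + b j := add_pos (ha j) (hb j)
      simp only [norm_mul, Complex.norm_real]
      rw [Real.norm_of_nonneg (div_nonneg (ha j).le h0.le)]
      have h1 : ‖z j‖ ≤ a j + b j := hz j
      calc a j / (a j + b j) * ‖z j‖ ≤ a j / (a j + b j) * (a j + b j) :=
            mul_le_mul_of_nonneg_left h1 (div_nonneg (ha j).le h0.le)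
        _ = a j := div_mul_cancel₀ _ h0.ne'
    · have h0 : 0 < a j + b j := add_pos (ha j) (hb j)
      simp only [norm_mul, Complex.norm_real]
      rw [Real.norm_of_nonneg (div_nonneg (hb j).le h0.le)]
      have h1 : ‖z j‖ ≤ a j + b j := hz j
      calc b j / (a j + b j) * ‖z j‖ ≤ b j / (a j + b j) * (a j + b j) :=
            mul_le_mul_of_nonneg_left h1 (div_nonneg (hb j).le h0.le)
        _ = b j := div_mul_cancel₀ _ h0.ne'
    · ext j
      have h0 : a j + b j ≠ 0 := (add_pos (ha j) (hb j)).ne'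
      simp only [PiLp.add_apply]
      rw [← add_mul, ← Complex.ofReal_add, ← add_div, div_self h0]
      simp

theorem polydisc_body (a : Fin n → ℝ) (ha : ∀ j, 0 < a j) : IsConvexBody (polydisc a) := by
  have hcl : IsClosed (polydisc a) := by
    have : polydisc a = ⋂ j, {z : Cn n | ‖z j‖ ≤ a j} := by
      ext z; simp [polydisc]
    rw [this]
    exact isClosed_iInter fun j => isClosed_le (by fun_prop) continuous_const
  refine ⟨?_, ?_, ?_⟩
  · refine Metric.isCompact_of_isClosed_isBounded hcl ?_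
    rw [isBounded_iff_forall_norm_le]
    refine ⟨∑ j, a j, fun z hz => ?_⟩
    have h1 : z = ∑ j, EuclideanSpace.single j (z j) := by
      ext i
      simp [Finset.sum_apply]
    calc ‖z‖ = ‖∑ j, EuclideanSpace.single j (z j)‖ := by rw [← h1]
      _ ≤ ∑ j, ‖EuclideanSpace.single j (z j)‖ := norm_sum_le _ _
      _ ≤ ∑ j, a j := Finset.sum_le_sum fun j _ => by simpa using hz j
  · intro x hx y hy s t hs ht hst j
    have e : (s • x + t • y) j = s • x j + t • y j := rfl
    rw [e]
    calc ‖s • x j + t • y j‖ ≤ ‖s • x j‖ + ‖t • y j‖ := norm_add_le _ _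
      _ = s * ‖x j‖ + t * ‖y j‖ := by
        rw [norm_smul, norm_smul, Real.norm_of_nonneg hs, Real.norm_of_nonneg ht]
      _ ≤ s * a j + t * a j := add_le_add (mul_le_mul_of_nonneg_left (hx j) hs)
          (mul_le_mul_of_nonneg_left (hy j) ht)
      _ = a j := by rw [← add_mul, hst, one_mul]
  · refine ⟨0, ?_⟩
    rw [mem_interior]
    refine ⟨⋂ j, {z : Cn n | ‖z j‖ < a j}, ?_, ?_, ?_⟩
    · intro z hz j
      exact le_of_lt (mem_iInter.1 hz j)
    · exact isOpen_iInter_of_finite fun j => isOpen_lt (by fun_prop) continuous_const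
    · simp [ha]

theorem finrank_line (e : Cn n) (he : ‖e‖ = 1) : Module.finrank ℝ (line e) = 2 := by
  have h := LinearEquiv.finrank_eq (lineIso e he).toLinearEquiv
  rw [← h, Complex.finrank_real_complex]

theorem W_line (e : Cn n) (he : ‖e‖ = 1) (K : Set (Cn n)) :
    W (line e) K = Real.sqrt (V (line e) K) := by
  rw [W, rdim, finrank_line e he, Real.sqrt_eq_rpow]
  norm_num

theorem not_BM_line (e : Cn n) (he : ‖e‖ = 1) (hn : 2 ≤ n) : ¬ BMProperty (line e) := by
  intro h
  set i0 : Fin n := ⟨0, by omega⟩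
  set i1 : Fin n := ⟨1, by omega⟩
  have h01 : i0 ≠ i1 := by simp [i0, i1, Fin.ext_iff]
  set a : Fin n → ℝ := fun j => if j = i0 then 2 else 1 with ha
  set b : Fin n → ℝ := fun _ => 1 with hb
  have ha0 : ∀ j, 0 < a j := fun j => by simp only [ha]; split_ifs <;> norm_num
  have hb0 : ∀ j, 0 < b j := fun j => by simp [hb]
  have hab : ∀ t : ℝ, a ≠ t • b := by
    intro t ht
    have e0 := congrFun ht i0
    have e1 := congrFun ht i1
    simp [ha, hb, h01.symm] at e0 e1
    linarith
  have h1 := h (polydisc a) (polydisc b) (polydisc_body a ha0) (polydisc_body b hb0)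
  have h2 := strict_reverse e he a b ha0 hb0 hab
  rw [polydisc_add a b ha0 hb0, W_line e he, W_line e he, W_line e he] at h1
  linarith

theorem strictReverse_line (e : Cn n) (he : ‖e‖ = 1) : StrictReverse (line e) := by
  intro a b ha hb hab
  rw [polydisc_add a b ha hb, W_line e he, W_line e he, W_line e he]
  exact strict_reverse e he a b ha hb hab

/-- Every complex line is of the form `line e` with a unit vector `e`. -/
theorem line_of_finrank (E : Submodule ℂ (Cn n)) (hE : Module.finrank ℂ E = 1) :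
    ∃ e : Cn n, ‖e‖ = 1 ∧ CxSub.real E = line e := by
  obtain ⟨v, hv0, hv⟩ := finrank_eq_one_iff'.1 hE
  have hv0' : (v : Cn n) ≠ 0 := by simpa using hv0
  have hn : ‖(v : Cn n)‖ ≠ 0 := norm_ne_zero_iff.2 hv0'
  refine ⟨((‖(v : Cn n)‖⁻¹ : ℝ) : ℂ) • (v : Cn n), ?_, ?_⟩
  · rw [norm_smul]
    simp [hn]
  · ext x
    rw [CxSub.real, Submodule.restrictScalars_mem, mem_line]
    constructor
    · intro hx
      obtain ⟨c, hc⟩ := hv ⟨x, hx⟩
      refine ⟨c * (‖(v : Cn n)‖ : ℂ), ?_⟩
      have hc' : c • (v : Cn n) = x := congrArg Subtype.val hc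
      rw [smul_smul, ← hc']
      congr 1
      have : (‖(v : Cn n)‖ : ℂ) ≠ 0 := by exact_mod_cast hn
      push_cast
      field_simp
    · rintro ⟨z, rfl⟩
      exact E.smul_mem _ (E.smul_mem _ v.2)

end Q190.UB
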