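import Mathlib
import Pool.Agent.Y98.EC.Hull

/-!
# Closed pointed convex cones that cover a space up to sign
-/

set_option autoImplicit false

open Set Module

namespace Q190.VH

variable {E : Type} [NormedAddCommGroup E] [NormedSpace ℝ E]

/-- a closed pointed convex cone -/
structure PCone (K : Set E) : Prop where
  zero : (0 : E) ∈ K
  add : ∀ a ∈ K, ∀ b ∈ K, a + b ∈ K
  smul : ∀ a ∈ K, ∀ t : ℝ, 0 ≤ t → t • a ∈ K
  pointed : ∀ a ∈ K, -a ∈ K → a = 0
  closed : IsClosed K

/-- two closed pointed cones which meet only at `0` are strictly separated by a hyperplane -/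
theorem separate [FiniteDimensional ℝ E] [Nontrivial E] {K D : Set E} (hK : PCone K) (hD : PCone D)
    (h : ∀ a ∈ K, a ∈ D → a = 0) :
    ∃ f : E →L[ℝ] ℝ, f ≠ 0 ∧ (∀ a ∈ K, a ≠ 0 → 0 < f a) ∧ ∀ a ∈ D, a ≠ 0 → f a < 0 := by
  classical
  let P : Set E := {v | v ≠ 0 ∧ ∃ k ∈ K, ∃ d ∈ D, v = k - d}
  have hPc : Convex ℝ P := by
    intro v hv w hw a b ha hb hab
    obtain ⟨hv0, k, hk, d, hd, rfl⟩ := hv
    obtain ⟨hw0, k', hk', d', hd', rfl⟩ := hw
    have e1 : a • (k - d) + b • (k' - d') = (a • k + b • k') - (a • d + b • d') := by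
      simp only [smul_sub]; abel
    have m1 := hK.smul k hk a ha
    have m2 := hK.smul k' hk' b hb
    have m3 := hD.smul d hd a ha
    have m4 := hD.smul d' hd' b hb
    refine ⟨?_, a • k + b • k', hK.add _ m1 _ m2, a • d + b • d', hD.add _ m3 _ m4, e1⟩
    intro h0
    rw [e1, sub_eq_zero] at h0
    have h1 : a • k + b • k' = 0 := h _ (hK.add _ m1 _ m2) (h0 ▸ hD.add _ m3 _ m4)
    have h2 : a • d + b • d' = 0 := by rw [← h0]; exact h1
    have h3 : a • k = 0 := by
      apply hK.pointed _ m1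
      rw [neg_eq_of_add_eq_zero_right h1]
      exact m2
    have h4 : a • d = 0 := by
      apply hD.pointed _ m3
      rw [neg_eq_of_add_eq_zero_right h2]
      exact m4
    have h5 : b • k' = 0 := by rw [h3, zero_add] at h1; exact h1
    have h6 : b • d' = 0 := by rw [h4, zero_add] at h2; exact h2
    rcases eq_or_ne a 0 with rfl | ha0
    · have hb1 : b = 1 := by linarith
      subst hb1
      rw [one_smul] at h5 h6
      exact hw0 (by rw [h5, h6, sub_zero])
    · rcases smul_eq_zero.1 h3 with h7 | h7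
      · exact ha0 h7
      rcases smul_eq_zero.1 h4 with h8 | h8
      · exact ha0 h8
      exact hv0 (by rw [h7, h8, sub_zero])
  let A : Set E := (K ∩ Metric.sphere 0 1) ∪ ((fun v => -v) ⁻¹' D ∩ Metric.sphere 0 1)
  have hA : IsCompact A := by
    refine IsCompact.union ?_ ?_
    · exact (isCompact_sphere (0 : E) 1).inter_left hK.closed
    · exact (isCompact_sphere (0 : E) 1).inter_left (hD.closed.preimage continuous_neg)
  have hAP : A ⊆ P := by
    rintro v (⟨h1, h2⟩ | ⟨h1, h2⟩)
    · refine ⟨?_, v, h1, 0, hD.zero, by simp⟩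
      rintro rfl
      simp at h2
    · refine ⟨?_, 0, hK.zero, -v, h1, by simp⟩
      rintro rfl
      simp at h2
  have h0 : (0 : E) ∉ convexHull ℝ A := fun h0 => (convexHull_min hAP hPc h0).1 rfl
  obtain ⟨f, u, hf, hu⟩ := geometric_hahn_banach_point_closed (convex_convexHull ℝ A)
    (Pool.Agent.Y98.EC.isCompact_hull hA).isClosed h0
  rw [map_zero] at hf
  have hfA : ∀ a ∈ A, 0 < f a := fun a ha => hf.trans (hu a (subset_convexHull ℝ A ha))
  have hfK : ∀ a ∈ K, a ≠ 0 → 0 < f a := by
    intro a ha h0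
    have hn : 0 < ‖a‖ := norm_pos_iff.2 h0
    have h1 := hfA (‖a‖⁻¹ • a) (Or.inl ⟨hK.smul a ha _ (by positivity), by
      rw [mem_sphere_zero_iff_norm, norm_smul, norm_inv, norm_norm]; field_simp⟩)
    rw [map_smul, smul_eq_mul] at h1
    have : 0 < ‖a‖⁻¹ := by positivity
    exact (pos_iff_pos_of_mul_pos h1).1 this
  have hfD : ∀ a ∈ D, a ≠ 0 → f a < 0 := by
    intro a ha h0
    have hn : 0 < ‖a‖ := norm_pos_iff.2 h0
    have h1 := hfA (-(‖a‖⁻¹ • a)) (Or.inr ⟨by
      show - -(‖a‖⁻¹ • a) ∈ D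
      rw [neg_neg]
      exact hD.smul a ha _ (by positivity), by
      rw [mem_sphere_zero_iff_norm, norm_neg, norm_smul, norm_inv, norm_norm]; field_simp⟩)
    rw [map_neg, map_smul, smul_eq_mul] at h1
    have : 0 < ‖a‖⁻¹ := by positivity
    nlinarith [mul_pos this this]
  rcases A.eq_empty_or_nonempty with hAe | ⟨a, ha⟩
  · -- both cones are trivial
    have hKt : ∀ a ∈ K, a = 0 := by
      intro a ha
      by_contra h0
      have : ‖a‖⁻¹ • a ∈ A := Or.inl ⟨hK.smul a ha _ (by positivity), by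
        have hn : 0 < ‖a‖ := norm_pos_iff.2 h0
        rw [mem_sphere_zero_iff_norm, norm_smul, norm_inv, norm_norm]; field_simp⟩
      rw [hAe] at this
      exact this
    have hDt : ∀ a ∈ D, a = 0 := by
      intro a ha
      by_contra h0
      have : -(‖a‖⁻¹ • a) ∈ A := Or.inr ⟨by
        show - -(‖a‖⁻¹ • a) ∈ D
        rw [neg_neg]
        exact hD.smul a ha _ (by positivity), by
        have hn : 0 < ‖a‖ := norm_pos_iff.2 h0
        rw [mem_sphere_zero_iff_norm, norm_neg, norm_smul, norm_inv, norm_norm]; field_simp⟩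
      rw [hAe] at this
      exact this
    obtain ⟨v, hv⟩ := exists_ne (0 : E)
    obtain ⟨g, -, hg⟩ := exists_dual_vector ℝ v (norm_ne_zero_iff.2 hv)
    refine ⟨g, ?_, fun a ha h0 => absurd (hKt a ha) h0, fun a ha h0 => absurd (hDt a ha) h0⟩
    rintro rfl
    simp at hg
    exact hv (norm_eq_zero.1 hg.symm)
  · refine ⟨f, ?_, hfK, hfD⟩
    rintro rfl
    have := hfA a ha
    simp at this

/-- **Common direction**: if `n + 1` closed pointed cones of a space of dimension `n + 1` cover the
space up to sign, then they have a common nonzero vector. -/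
theorem common_dir (n : ℕ) : ∀ (E : Type) [NormedAddCommGroup E] [NormedSpace ℝ E]
    [FiniteDimensional ℝ E], finrank ℝ E = n + 1 → ∀ K : Fin (n + 1) → Set E,
    (∀ i, PCone (K i)) → (∀ v, v ≠ 0 → ∃ i, v ∈ K i ∨ -v ∈ K i) →
    ∃ u, u ≠ 0 ∧ ∀ i, u ∈ K i := by
  induction n with
  | zero =>
    intro E _ _ _ hE K hK hcov
    have : Nontrivial E := Module.nontrivial_of_finrank_pos (R := ℝ) (by omega)
    obtain ⟨v, hv⟩ := exists_ne (0 : E)
    obtain ⟨i, hi⟩ := hcov v hv
    have hz : ∀ j : Fin (0 + 1), j = i := fun j => Fin.ext (by omega)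
    rcases hi with hi | hi
    · exact ⟨v, hv, fun j => by rw [hz j]; exact hi⟩
    · exact ⟨-v, neg_ne_zero.2 hv, fun j => by rw [hz j]; exact hi⟩
  | succ n ih =>
    intro E _ _ _ hE K hK hcov
    have : Nontrivial E := Module.nontrivial_of_finrank_pos (R := ℝ) (by omega)
    by_contra hno
    push Not at hno
    let D : Set E := ⋂ i : Fin (n + 1), K i.succ
    have hD : PCone D := by
      refine ⟨mem_iInter.2 fun i => (hK _).zero, fun a ha b hb => mem_iInter.2 fun i =>
        (hK _).add _ (mem_iInter.1 ha i) _ (mem_iInter.1 hb i), fun a ha t ht => mem_iInter.2 fun i =>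
        (hK _).smul _ (mem_iInter.1 ha i) t ht, fun a ha ha' => (hK _).pointed a (mem_iInter.1 ha 0)
          (mem_iInter.1 ha' 0), isClosed_iInter fun i => (hK _).closed⟩
    obtain ⟨f, hf0, hfK, hfD⟩ := separate (hK 0) hD (by
      intro a ha ha'
      by_contra h0
      obtain ⟨i, hi⟩ := hno a h0
      refine hi ?_
      rcases Fin.eq_zero_or_eq_succ i with rfl | ⟨j, rfl⟩
      · exact ha
      · exact mem_iInter.1 ha' j)
    have hrank : finrank ℝ (LinearMap.ker (f : E →ₗ[ℝ] ℝ)) = n + 1 := by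
      have h1 := LinearMap.finrank_range_add_finrank_ker (f : E →ₗ[ℝ] ℝ)
      have h2 : LinearMap.range (f : E →ₗ[ℝ] ℝ) = ⊤ := by
        rw [LinearMap.range_eq_top]
        apply LinearMap.surjective
        intro h
        apply hf0
        ext v
        exact congrArg (fun g : E →ₗ[ℝ] ℝ => g v) h
      rw [h2, finrank_top, finrank_self] at h1
      omega
    obtain ⟨u, hu0, hu⟩ := ih (LinearMap.ker (f : E →ₗ[ℝ] ℝ)) hrank
      (fun i => (fun v : LinearMap.ker (f : E →ₗ[ℝ] ℝ) => (v : E)) ⁻¹' K i.succ)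
      (fun i => ⟨(hK _).zero, fun a ha b hb => (hK _).add _ ha _ hb, fun a ha t ht => (hK _).smul _ ha t ht,
        fun a ha ha' => Subtype.ext ((hK _).pointed _ ha ha'),
        (hK _).closed.preimage continuous_subtype_val⟩) (by
      intro v hv
      obtain ⟨i, hi⟩ := hcov v (fun h => hv (Subtype.ext h))
      have hfv : f (v : E) = 0 := v.2
      rcases Fin.eq_zero_or_eq_succ i with rfl | ⟨j, rfl⟩
      · exfalso
        rcases hi with hi | hi
        · have := hfK _ hi (fun h => hv (Subtype.ext h))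
          linarith
        · have := hfK _ hi (neg_ne_zero.2 fun h => hv (Subtype.ext h))
          rw [map_neg] at this
          linarith
      · exact ⟨j, hi⟩)
    have h1 : f (u : E) = 0 := u.2
    have h2 := hfD (u : E) (mem_iInter.2 hu) (fun h => hu0 (Subtype.ext h))
    linarith

end Q190.VH
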