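import Mathlib
import Pool.Agent.Q190.VH1

/-!
# The visual hull of separated bodies: common directions, separation and segments
-/

set_option autoImplicit false

open Set Module

namespace Q190.VH

variable {E : Type} [NormedAddCommGroup E] [NormedSpace ℝ E]

/-- The visual hull of `S`: the points `x` such that `(x + m) ∩ S ≠ ∅` for every one-dimensional
linear subspace `m`. -/
def visualHull (S : Set E) : Set E :=
  {x | ∀ m : Submodule ℝ E, finrank ℝ m = 1 → ∃ y ∈ m, x + y ∈ S}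

theorem mem_hull_iff {S : Set E} {x : E} :
    x ∈ visualHull S ↔ ∀ v : E, v ≠ 0 → ∃ t : ℝ, x + t • v ∈ S := by
  constructor
  · intro h v hv
    obtain ⟨y, hy, hS⟩ := h (Submodule.span ℝ {v}) (finrank_span_singleton hv)
    obtain ⟨t, rfl⟩ := Submodule.mem_span_singleton.1 hy
    exact ⟨t, hS⟩
  · intro h m hm
    obtain ⟨v, hv, -⟩ := finrank_eq_one_iff'.1 hm
    obtain ⟨t, ht⟩ := h (v : E) (fun h0 => hv (Subtype.ext h0))
    exact ⟨t • (v : E), m.smul_mem t v.2, ht⟩

theorem hull_mono {S T : Set E} (h : S ⊆ T) : visualHull S ⊆ visualHull T := by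
  intro x hx m hm
  obtain ⟨y, hy, hS⟩ := hx m hm
  exact ⟨y, hy, h hS⟩

theorem subset_hull (S : Set E) : S ⊆ visualHull S := by
  intro x hx
  rw [mem_hull_iff]
  intro v _
  exact ⟨0, by simpa using hx⟩

/-- the cone of `T` seen from `x` -/
def cone (x : E) (T : Set E) : Set E := {v | ∃ s : ℝ, 0 ≤ s ∧ ∃ q ∈ T, v = s • (q - x)}

theorem isClosed_cone {x : E} {T : Set E} (hT : IsCompact T) (hx : x ∉ T) :
    IsClosed (cone x T) := by
  have hpos : ∀ q ∈ T, 0 < ‖q - x‖ := fun q hq => norm_pos_iff.2 (sub_ne_zero.2 (by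
    rintro rfl
    exact hx hq))
  let N : Set E := (fun q => ‖q - x‖⁻¹ • (q - x)) '' T
  have hN : IsCompact N := by
    refine hT.image_of_continuousOn ?_
    refine ContinuousOn.smul ?_ (by fun_prop)
    exact ContinuousOn.inv₀ (by fun_prop) fun q hq => (hpos q hq).ne'
  have : CompactSpace N := isCompact_iff_compactSpace.1 hN
  have hZ : IsClosed {p : E × N | p.1 = ‖p.1‖ • (p.2 : E)} :=
    isClosed_eq (by fun_prop) (by fun_prop)
  have h1 := isClosedMap_fst_of_compactSpace (X := E) (Y := N) _ hZ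
  convert h1 using 1
  ext v
  constructor
  · rintro ⟨s, hs, q, hq, rfl⟩
    have hq0 := hpos q hq
    refine ⟨(s • (q - x), ⟨‖q - x‖⁻¹ • (q - x), ⟨q, hq, rfl⟩⟩), ?_, rfl⟩
    show s • (q - x) = ‖s • (q - x)‖ • (‖q - x‖⁻¹ • (q - x))
    rw [norm_smul, Real.norm_of_nonneg hs, smul_smul, mul_assoc, mul_inv_cancel₀ hq0.ne', mul_one]
  · rintro ⟨⟨w, ⟨a, q, hq, rfl⟩⟩, hw, rfl⟩
    have hw' : w = ‖w‖ • (‖q - x‖⁻¹ • (q - x)) := hw
    refine ⟨‖w‖ * ‖q - x‖⁻¹, by positivity, q, hq, ?_⟩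
    show w = _
    rw [mul_smul]
    exact hw'

theorem pcone_cone {x : E} {T : Set E} (hT : IsCompact T) (hc : Convex ℝ T) (hne : T.Nonempty)
    (hx : x ∉ T) : PCone (cone x T) := by
  have key : ∀ (s s' : ℝ) (q q' : E), 0 ≤ s → 0 ≤ s' → q ∈ T → q' ∈ T → 0 < s + s' →
      ∃ q'' ∈ T, s • (q - x) + s' • (q' - x) = (s + s') • (q'' - x) := by
    intro s s' q q' hs hs' hq hq' hpos
    refine ⟨(s / (s + s')) • q + (s' / (s + s')) • q', hc hq hq' (by positivity) (by positivity)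
      (by field_simp), ?_⟩
    have e1 : (s + s') * (s / (s + s')) = s := by field_simp
    have e2 : (s + s') * (s' / (s + s')) = s' := by field_simp
    simp only [smul_sub, smul_add, smul_smul, e1, e2, add_smul]
    abel
  refine ⟨?_, ?_, ?_, ?_, isClosed_cone hT hx⟩
  · obtain ⟨q, hq⟩ := hne
    exact ⟨0, le_rfl, q, hq, by simp⟩
  · rintro _ ⟨s, hs, q, hq, rfl⟩ _ ⟨s', hs', q', hq', rfl⟩
    rcases (add_nonneg hs hs').eq_or_lt with h | h
    · have h1 : s = 0 := by linarith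
      have h2 : s' = 0 := by linarith
      exact ⟨0, le_rfl, q, hq, by simp [h1, h2]⟩
    · obtain ⟨q'', hq'', e⟩ := key s s' q q' hs hs' hq hq' h
      exact ⟨s + s', h.le, q'', hq'', e⟩
  · rintro _ ⟨s, hs, q, hq, rfl⟩ t ht
    exact ⟨t * s, mul_nonneg ht hs, q, hq, by rw [mul_smul]⟩
  · rintro _ ⟨s, hs, q, hq, rfl⟩ ⟨s', hs', q', hq', e'⟩
    rcases (add_nonneg hs hs').eq_or_lt with h | h
    · have h1 : s = 0 := by linarith
      simp [h1]
    · exfalso
      obtain ⟨q'', hq'', e⟩ := key s s' q q' hs hs' hq hq' h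
      rw [← e', add_neg_cancel] at e
      rcases smul_eq_zero.1 e.symm with h1 | h1
      · exact h.ne' h1
      · rw [sub_eq_zero] at h1
        exact hx (h1 ▸ hq'')

/-- **The common ray**: from a point of the visual hull of `dim E` compact convex sets, outside of
them, some ray meets all of them. -/
theorem common_ray [FiniteDimensional ℝ E] {n : ℕ} (hE : finrank ℝ E = n + 1)
    {T : Fin (n + 1) → Set E} (hT : ∀ i, IsCompact (T i)) (hc : ∀ i, Convex ℝ (T i))
    (hne : ∀ i, (T i).Nonempty) {x : E} (hx : x ∈ visualHull (⋃ i, T i)) (hxT : ∀ i, x ∉ T i) :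
    ∃ (u : E) (r : Fin (n + 1) → ℝ), u ≠ 0 ∧ ∀ i, 0 < r i ∧ x + r i • u ∈ T i := by
  rw [mem_hull_iff] at hx
  obtain ⟨u, hu0, hu⟩ := common_dir n E hE (fun i => cone x (T i))
    (fun i => pcone_cone (hT i) (hc i) (hne i) (hxT i)) (by
    intro v hv
    obtain ⟨t, ht⟩ := hx v hv
    obtain ⟨i, hi⟩ := mem_iUnion.1 ht
    have ht0 : t ≠ 0 := by
      rintro rfl
      apply hxT i
      simpa using hi
    refine ⟨i, ?_⟩
    rcases lt_or_gt_of_ne ht0 with h | h
    · right
      refine ⟨-t⁻¹, by simpa using h.le, _, hi, ?_⟩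
      rw [add_sub_cancel_left, smul_smul, neg_mul, inv_mul_cancel₀ ht0, neg_one_smul]
    · left
      refine ⟨t⁻¹, by positivity, _, hi, ?_⟩
      rw [add_sub_cancel_left, smul_smul, inv_mul_cancel₀ ht0, one_smul])
  have h1 : ∀ i, ∃ r : ℝ, 0 < r ∧ x + r • u ∈ T i := by
    intro i
    obtain ⟨s, hs, q, hq, e⟩ := hu i
    have hs0 : s ≠ 0 := by
      rintro rfl
      rw [zero_smul] at e
      exact hu0 e
    refine ⟨s⁻¹, by positivity, ?_⟩
    rw [e, smul_smul, inv_mul_cancel₀ hs0, one_smul, add_sub_cancel]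
    exact hq
  choose r hr using h1
  exact ⟨u, r, hu0, hr⟩

/-- strictly separated sets -/
def StrictlySeparated {ι : Type} (S : ι → Set E) : Prop :=
  ∀ i j, i ≠ j → ∃ (f : E →L[ℝ] ℝ) (c : ℝ), f ≠ 0 ∧ (∀ x ∈ S i, f x < c) ∧ ∀ x ∈ S j, c < f x

/-- a family of sets all of whose visual hull points are hull points of compact convex subsets -/
def Tame {ι : Type} (S : ι → Set E) : Prop :=
  ∀ x ∈ visualHull (⋃ i, S i), ∃ T : ι → Set E, (∀ i, IsCompact (T i)) ∧ (∀ i, Convex ℝ (T i)) ∧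
    (∀ i, (T i).Nonempty) ∧ (∀ i, T i ⊆ S i) ∧ x ∈ visualHull (⋃ i, T i)

/-- disjoint open sets that contain the bodies and cover the visual hull -/
theorem exists_open_partition [FiniteDimensional ℝ E] {n : ℕ} (hE : finrank ℝ E = n + 1)
    {S : Fin (n + 1) → Set E} (hs : StrictlySeparated S) (ht : Tame S) :
    ∃ W : Fin (n + 1) → Set E, (∀ i, IsOpen (W i)) ∧ (∀ i, S i ⊆ W i) ∧
      (∀ i j, i ≠ j → Disjoint (W i) (W j)) ∧ visualHull (⋃ i, S i) ⊆ ⋃ i, W i := by
  have h1 : ∀ i j : Fin (n + 1), ∃ (f : E →L[ℝ] ℝ) (c : ℝ), i ≠ j →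
      (∀ x ∈ S i, f x < c) ∧ ∀ x ∈ S j, c < f x := by
    intro i j
    by_cases hij : i = j
    · exact ⟨0, 0, fun h => absurd hij h⟩
    · obtain ⟨f, c, -, h⟩ := hs i j hij
      exact ⟨f, c, fun _ => h⟩
  choose f c hfc using h1
  let F : Fin (n + 1) → Fin (n + 1) → (E →L[ℝ] ℝ) := fun i j => if i < j then f i j else - f j i
  let C : Fin (n + 1) → Fin (n + 1) → ℝ := fun i j => if i < j then c i j else - c j i
  have hanti : ∀ i j, i ≠ j → F j i = - F i j ∧ C j i = - C i j := by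
    intro i j hij
    rcases lt_or_gt_of_ne hij with h | h
    · simp [F, C, h, not_lt.2 h.le]
    · simp [F, C, h, not_lt.2 h.le]
  have hlt : ∀ i j, i ≠ j → ∀ x ∈ S i, F i j x < C i j := by
    intro i j hij x hx
    rcases lt_or_gt_of_ne hij with h | h
    · simp only [F, C, h, if_true]
      exact (hfc i j hij).1 x hx
    · simp only [F, C, not_lt.2 h.le, if_false, neg_apply, neg_lt_neg_iff]
      exact (hfc j i hij.symm).2 x hx
  let W : Fin (n + 1) → Set E := fun i => ⋂ j, {x | i ≠ j → F i j x < C i j}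
  have hSW : ∀ i, S i ⊆ W i := fun i x hx => mem_iInter.2 fun j hij => hlt i j hij x hx
  refine ⟨W, ?_, hSW, ?_, ?_⟩
  · intro i
    refine isOpen_iInter_of_finite fun j => ?_
    by_cases hij : i = j
    · simp [hij]
    · simp only [ne_eq, hij, not_false_eq_true, forall_const]
      exact isOpen_lt (F i j).continuous continuous_const
  · intro i j hij
    rw [Set.disjoint_left]
    intro x hx hx'
    have h2 := mem_iInter.1 hx j hij
    have h3 := mem_iInter.1 hx' i hij.symm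
    rw [(hanti i j hij).1, (hanti i j hij).2, neg_apply] at h3
    linarith
  · intro x hx
    obtain ⟨T, hT, hTc, hTne, hTS, hxT⟩ := ht x hx
    by_cases hxm : ∃ i, x ∈ T i
    · obtain ⟨i, hi⟩ := hxm
      exact mem_iUnion.2 ⟨i, hSW i (hTS i hi)⟩
    push Not at hxm
    obtain ⟨u, r, hu0, hr⟩ := common_ray hE hT hTc hTne hxT hxm
    obtain ⟨i, hi⟩ := Finite.exists_min r
    refine mem_iUnion.2 ⟨i, mem_iInter.2 fun j hij => ?_⟩
    have a1 := hlt i j hij _ (hTS i (hr i).2)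
    have a2 := hlt j i hij.symm _ (hTS j (hr j).2)
    rw [(hanti i j hij).1, (hanti i j hij).2, neg_apply] at a2
    rw [map_add, map_smul, smul_eq_mul] at a1 a2
    have a3 := (hr i).1
    have a4 := hi j
    have a5 : 0 < (r j - r i) * F i j u := by nlinarith
    have a6 : 0 < F i j u := by
      by_contra h0
      push Not at h0
      have : (r j - r i) * F i j u ≤ 0 := mul_nonpos_of_nonneg_of_nonpos (by linarith) h0
      linarith
    nlinarith [mul_pos a3 a6]

/-- every point of the visual hull is joined to one of the bodies by a segment in the hull -/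
theorem exists_segment [FiniteDimensional ℝ E] {n : ℕ} (hE : finrank ℝ E = n + 1)
    {S : Fin (n + 1) → Set E} (hSc : ∀ i, Convex ℝ (S i)) (ht : Tame S) {x : E}
    (hx : x ∈ visualHull (⋃ i, S i)) :
    ∃ i, ∃ q ∈ S i, segment ℝ x q ⊆ visualHull (⋃ i, S i) := by
  obtain ⟨T, hT, hTc, hTne, hTS, hxT⟩ := ht x hx
  by_cases hxm : ∃ i, x ∈ T i
  · obtain ⟨i, hi⟩ := hxm
    refine ⟨i, x, hTS i hi, ?_⟩
    rw [segment_same]
    rintro _ rfl
    exact hx
  push Not at hxm
  obtain ⟨u, r, hu0, hr⟩ := common_ray hE hT hTc hTne hxT hxm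
  obtain ⟨i, hi⟩ := Finite.exists_min r
  refine ⟨i, x + r i • u, hTS i (hr i).2, ?_⟩
  rintro y ⟨a, t, ha, ht0, hat, rfl⟩
  have hy : a • x + t • (x + r i • u) = x + (t * r i) • u := by
    rw [smul_add, ← add_assoc, ← add_smul, hat, one_smul, smul_smul]
  rw [hy, mem_hull_iff]
  intro v hv
  obtain ⟨s, hs⟩ := (mem_hull_iff.1 hxT) v hv
  obtain ⟨j, hj⟩ := mem_iUnion.1 hs
  have hrj := (hr j).1
  have hri := (hr i).1
  set l : ℝ := t * r i / r j with hl
  have hl0 : 0 ≤ l := by positivity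
  have hl1 : l ≤ 1 := by
    rw [hl, div_le_one hrj]
    nlinarith [hi j]
  refine ⟨(1 - l) * s, mem_iUnion.2 ⟨j, ?_⟩⟩
  have h2 := hSc j (hTS j (hr j).2) (hTS j hj) hl0 (by linarith : 0 ≤ 1 - l) (by ring)
  convert h2 using 1
  have e1 : l * r j = t * r i := by rw [hl]; field_simp
  rw [smul_add, smul_add, smul_smul, smul_smul, e1, sub_smul, one_smul]
  abel

end Q190.VH
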