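import Mathlib
import Pool.Agent.Q190.VH2

/-!
# Counting the components of a visual hull
-/

set_option autoImplicit false
set_option linter.unusedSectionVars false

open Set Module Topology

namespace Q190.VH

variable {E : Type} [NormedAddCommGroup E] [NormedSpace ℝ E]

/-- the number of connected components of a set -/
noncomputable def numComponents (X : Set E) : ℕ∞ := ENat.card (ConnectedComponents X)

/-- points separated by clopen subsets lie in different components -/
theorem mk_ne_of_clopen {X : Set E} {a b : X} {U : Set E} (hU : IsClopen ((↑) ⁻¹' U : Set X))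
    (ha : (a : E) ∈ U) (hb : (b : E) ∉ U) :
    (ConnectedComponents.mk a : ConnectedComponents X) ≠ ConnectedComponents.mk b := by
  intro h
  rw [ConnectedComponents.coe_eq_coe] at h
  have h1 : b ∈ connectedComponent a := h ▸ mem_connectedComponent
  exact hb (hU.connectedComponent_subset (show a ∈ ((↑) ⁻¹' U : Set X) from ha) h1)

/-- points of a preconnected subset lie in the same component -/
theorem mk_eq_of_preconnected {X : Set E} {a b : X} {C : Set E} (hC : IsPreconnected C)
    (hCX : C ⊆ X) (ha : (a : E) ∈ C) (hb : (b : E) ∈ C) :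
    (ConnectedComponents.mk a : ConnectedComponents X) = ConnectedComponents.mk b := by
  have h1 : IsPreconnected ((↑) ⁻¹' C : Set X) := by
    rw [← Topology.IsInducing.subtypeVal.isPreconnected_image, Subtype.image_preimage_coe,
      inter_eq_self_of_subset_right hCX]
    exact hC
  rw [ConnectedComponents.coe_eq_coe]
  exact (connectedComponent_eq (h1.subset_connectedComponent ha hb))

theorem isClopen_of_partition {ι : Type} {X : Set E} {W : ι → Set E} (hW : ∀ i, IsOpen (W i))
    (hd : ∀ i j, i ≠ j → Disjoint (W i) (W j)) (hX : X ⊆ ⋃ i, W i) (i : ι) :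
    IsClopen ((↑) ⁻¹' (W i) : Set X) := by
  refine ⟨⟨?_⟩, (hW i).preimage continuous_subtype_val⟩
  have h1 : ((↑) ⁻¹' (W i) : Set X)ᶜ = (↑) ⁻¹' (⋃ j ∈ {j | j ≠ i}, W j) := by
    ext x
    simp only [mem_compl_iff, mem_preimage, mem_iUnion, Set.mem_ofPred_eq, exists_prop]
    constructor
    · intro hx
      obtain ⟨j, hj⟩ := mem_iUnion.1 (hX x.2)
      exact ⟨j, by rintro rfl; exact hx hj, hj⟩
    · rintro ⟨j, hj, hx⟩ hx'
      exact Set.disjoint_left.1 (hd j i hj) hx hx'
  rw [h1]
  exact (isOpen_biUnion fun j _ => hW j).preimage continuous_subtype_val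

/-- **Exactly `n` components.** -/
theorem card_eq [FiniteDimensional ℝ E] {n : ℕ} (hE : finrank ℝ E = n + 1)
    {S : Fin (n + 1) → Set E} (hSc : ∀ i, Convex ℝ (S i)) (hSn : ∀ i, (S i).Nonempty)
    (hs : StrictlySeparated S) (ht : Tame S) :
    numComponents (visualHull (⋃ i, S i)) = (n + 1 : ℕ) := by
  obtain ⟨W, hWo, hSW, hWd, hcov⟩ := exists_open_partition hE hs ht
  choose p hp using hSn
  have hpX : ∀ i, p i ∈ visualHull (⋃ i, S i) := fun i =>
    subset_hull _ (mem_iUnion.2 ⟨i, hp i⟩)
  let φ : Fin (n + 1) → ConnectedComponents (visualHull (⋃ i, S i)) := fun i =>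
    ConnectedComponents.mk ⟨p i, hpX i⟩
  have hφ : Function.Bijective φ := by
    constructor
    · intro i j hij
      by_contra hne
      exact mk_ne_of_clopen (isClopen_of_partition hWo hWd hcov i) (hSW i (hp i))
        (fun h => Set.disjoint_left.1 (hWd i j hne) h (hSW j (hp j))) hij
    · intro y
      obtain ⟨⟨x, hx⟩, rfl⟩ := ConnectedComponents.surjective_coe y
      obtain ⟨i, q, hq, hseg⟩ := exists_segment hE hSc ht hx
      refine ⟨i, ?_⟩
      have hqX : q ∈ visualHull (⋃ i, S i) := subset_hull _ (mem_iUnion.2 ⟨i, hq⟩)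
      have e1 : (ConnectedComponents.mk (⟨x, hx⟩ : visualHull (⋃ i, S i))) =
          ConnectedComponents.mk ⟨q, hqX⟩ :=
        mk_eq_of_preconnected (convex_segment x q).isPreconnected hseg (left_mem_segment ℝ x q)
          (right_mem_segment ℝ x q)
      have e2 : (ConnectedComponents.mk (⟨p i, hpX i⟩ : visualHull (⋃ i, S i))) =
          ConnectedComponents.mk ⟨q, hqX⟩ :=
        mk_eq_of_preconnected (hSc i).isPreconnected
          ((subset_iUnion S i).trans (subset_hull _)) (hp i) hq
      exact e2.trans e1.symm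
  rw [numComponents, ← ENat.card_congr (Equiv.ofBijective φ hφ)]
  simp

/-- compact convex sets form a tame family -/
theorem tame_of_compact {ι : Type} {S : ι → Set E} (hS : ∀ i, IsCompact (S i))
    (hc : ∀ i, Convex ℝ (S i)) (hn : ∀ i, (S i).Nonempty) : Tame S :=
  fun _ hx => ⟨S, hS, hc, hn, fun _ => subset_rfl, hx⟩

/-- open convex sets form a tame family -/
theorem tame_of_open [FiniteDimensional ℝ E] {ι : Type} [Nonempty ι] {S : ι → Set E} (hS : ∀ i, IsOpen (S i))
    (hc : ∀ i, Convex ℝ (S i)) (hn : ∀ i, (S i).Nonempty) : Tame S := by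
  classical
  intro x hx
  rw [mem_hull_iff] at hx
  choose p hp using hn
  -- for each unit vector a body, a closed ball in it and a neighbourhood
  have h1 : ∀ v : E, v ∈ Metric.sphere (0 : E) 1 → ∃ (i : ι) (q : E) (ε : ℝ), 
      Metric.closedBall q ε ⊆ S i ∧ ∃ t : ℝ, ∀ᶠ w in 𝓝 v, x + t • w ∈ Metric.closedBall q ε := by
    intro v hv
    obtain ⟨t, ht⟩ := hx v (by rintro rfl; simp at hv)
    obtain ⟨i, hi⟩ := mem_iUnion.1 ht
    obtain ⟨ε, hε, hb⟩ := Metric.nhds_basis_closedBall.mem_iff.1 ((hS i).mem_nhds hi)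
    refine ⟨i, x + t • v, ε, hb, t, ?_⟩
    have hcont : Continuous fun w : E => x + t • w := by fun_prop
    exact hcont.continuousAt.preimage_mem_nhds (Metric.closedBall_mem_nhds _ hε)
  choose! i q ε hsub t ht using h1
  have hcomp := isCompact_sphere (0 : E) 1
  obtain ⟨F, hF, hcov⟩ := hcomp.elim_nhds_subcover
    (fun v => {w | x + t v • w ∈ Metric.closedBall (q v) (ε v)}) (fun v hv => ht v hv)
  let B : ι → Set E := fun j => {p j} ∪ ⋃ v ∈ F.filter (fun v => i v = j), Metric.closedBall (q v) (ε v)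
  have hB : ∀ j, IsCompact (B j) := fun j =>
    isCompact_singleton.union (Finset.isCompact_biUnion _ fun v _ => isCompact_closedBall _ _)
  have hBS : ∀ j, B j ⊆ S j := by
    rintro j y (rfl | hy)
    · exact hp j
    · simp only [mem_iUnion, exists_prop, Finset.mem_filter] at hy
      obtain ⟨v, ⟨hv, rfl⟩, hy⟩ := hy
      exact hsub v (hF v hv) hy
  refine ⟨fun j => convexHull ℝ (B j), fun j => Pool.Agent.Y98.EC.isCompact_hull (hB j),
    fun j => convex_convexHull ℝ _, fun j => ⟨p j, subset_convexHull ℝ _ (Or.inl rfl)⟩,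
    fun j => convexHull_min (hBS j) (hc j), ?_⟩
  rw [mem_hull_iff]
  intro v hv
  have hn : 0 < ‖v‖ := norm_pos_iff.2 hv
  have hmem : ‖v‖⁻¹ • v ∈ Metric.sphere (0 : E) 1 := by
    rw [mem_sphere_zero_iff_norm, norm_smul, norm_inv, norm_norm]; field_simp
  obtain ⟨w, hw⟩ := mem_iUnion.1 (hcov hmem)
  obtain ⟨hwF, hw2⟩ := mem_iUnion.1 hw
  refine ⟨t w * ‖v‖⁻¹, mem_iUnion.2 ⟨i w, subset_convexHull ℝ _ (Or.inr ?_)⟩⟩
  simp only [mem_iUnion, exists_prop, Finset.mem_filter]
  refine ⟨w, ⟨hwF, rfl⟩, ?_⟩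
  rw [mul_smul]
  exact hw2

end Q190.VH
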