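import Mathlib
import Pool.Agent.Q190.VH3

/-!
# Three separated bodies in space whose visual hull has an isolated point
-/

set_option autoImplicit false
set_option linter.unusedSectionVars false

open Set Module Topology

namespace Q190.VH

/-- A body: a bounded convex set with nonempty interior. -/
structure IsBody {E : Type} [NormedAddCommGroup E] [NormedSpace ℝ E] (S : Set E) : Prop where
  convex : Convex ℝ S
  bounded : Bornology.IsBounded S
  interior_nonempty : (interior S).Nonempty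

abbrev P3 : Type := EuclideanSpace ℝ (Fin 3)

/-- the point with given coordinates -/
def pt (a b c : ℝ) : P3 := !₂[a, b, c]

@[simp] theorem pt_0 (a b c : ℝ) : pt a b c 0 = a := rfl
@[simp] theorem pt_1 (a b c : ℝ) : pt a b c 1 = b := rfl
@[simp] theorem pt_2 (a b c : ℝ) : pt a b c 2 = c := rfl

/-- the interiors of the three bodies -/
def O : Fin 3 → Set P3 := ![
  {p | 0 < p 2 ∧ 0 < p 0 + 3 * p 1 + p 2 ∧ 0 < 3 * p 1 - p 0 + p 2 ∧ 1 < p 1 + p 2 ∧ p 1 + p 2 < 2},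
  {p | p 2 < 0 ∧ p 0 + p 2 < 0 ∧ p 0 - p 1 + p 2 < 0 ∧ 20 < -2 * p 0 + p 1 - 3 * p 2 ∧
    -2 * p 0 + p 1 - 3 * p 2 < 30},
  {p | 0 < p 2 ∧ p 0 + p 1 < p 2 ∧ 4 * p 0 + p 1 < p 2 ∧ 100 < -2 * p 0 - p 1 + 2 * p 2 ∧
    -2 * p 0 - p 1 + 2 * p 2 < 200}]

/-- the closed polyhedra -/
def T : Fin 3 → Set P3 := ![
  {p | 0 ≤ p 2 ∧ 0 ≤ p 0 + 3 * p 1 + p 2 ∧ 0 ≤ 3 * p 1 - p 0 + p 2 ∧ 1 ≤ p 1 + p 2 ∧ p 1 + p 2 ≤ 2},
  {p | p 2 ≤ 0 ∧ p 0 + p 2 ≤ 0 ∧ p 0 - p 1 + p 2 ≤ 0 ∧ 20 ≤ -2 * p 0 + p 1 - 3 * p 2 ∧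
    -2 * p 0 + p 1 - 3 * p 2 ≤ 30},
  {p | 0 ≤ p 2 ∧ p 0 + p 1 ≤ p 2 ∧ 4 * p 0 + p 1 ≤ p 2 ∧ 100 ≤ -2 * p 0 - p 1 + 2 * p 2 ∧
    -2 * p 0 - p 1 + 2 * p 2 ≤ 200}]

/-- three horizontal segments -/
def F : Fin 3 → Set P3 := ![
  {p | p 2 = 0 ∧ p 1 = 1 ∧ 1 / 2 ≤ p 0 ∧ p 0 ≤ 1},
  {p | p 2 = 0 ∧ -2 * p 0 + p 1 = 25 ∧ -25 ≤ p 0 ∧ p 0 ≤ 0},
  {p | p 2 = 0 ∧ -2 * p 0 - p 1 = 120 ∧ -30 ≤ p 0 ∧ p 0 ≤ 0}]

/-- the three bodies -/
def B (i : Fin 3) : Set P3 := O i ∪ F i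

theorem O_sub_T (i : Fin 3) : O i ⊆ T i := by
  fin_cases i
  all_goals
    rintro p ⟨h1, h2, h3, h4, h5⟩
    exact ⟨h1.le, h2.le, h3.le, h4.le, h5.le⟩

theorem F_sub_T (i : Fin 3) : F i ⊆ T i := by
  fin_cases i
  all_goals
    rintro p ⟨h1, h2, h3, h4⟩
    refine ⟨?_, ?_, ?_, ?_, ?_⟩ <;> linarith

theorem B_sub_T (i : Fin 3) : B i ⊆ T i := union_subset (O_sub_T i) (F_sub_T i)

theorem T_convex (i : Fin 3) : Convex ℝ (T i) := by
  fin_cases i
  all_goals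
    rintro p ⟨h1, h2, h3, h4, h5⟩ q ⟨k1, k2, k3, k4, k5⟩ a b ha hb hab
    have hb' : b = 1 - a := by linarith
    subst hb'
    refine ⟨?_, ?_, ?_, ?_, ?_⟩ <;>
      simp only [PiLp.add_apply, PiLp.smul_apply, smul_eq_mul] <;> nlinarith

theorem F_convex (i : Fin 3) : Convex ℝ (F i) := by
  fin_cases i
  all_goals
    rintro p ⟨h1, h2, h3, h4⟩ q ⟨k1, k2, k3, k4⟩ a b ha hb hab
    have hb' : b = 1 - a := by linarith
    subst hb'
    refine ⟨?_, ?_, ?_, ?_⟩ <;>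
      simp only [PiLp.add_apply, PiLp.smul_apply, smul_eq_mul] <;> nlinarith

theorem OT_comb (i : Fin 3) : ∀ p ∈ O i, ∀ q ∈ T i, ∀ a b : ℝ, 0 < a → 0 ≤ b → a + b = 1 →
    a • p + b • q ∈ O i := by
  fin_cases i
  all_goals
    rintro p ⟨h1, h2, h3, h4, h5⟩ q ⟨k1, k2, k3, k4, k5⟩ a b ha hb hab
    have hb' : b = 1 - a := by linarith
    subst hb'
    have m1 := mul_pos ha (sub_pos.2 h1)
    have m2 := mul_pos ha (sub_pos.2 h2)
    have m3 := mul_pos ha (sub_pos.2 h3)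
    have m4 := mul_pos ha (sub_pos.2 h4)
    have m5 := mul_pos ha (sub_pos.2 h5)
    have n1 := mul_nonneg hb (sub_nonneg.2 k1)
    have n2 := mul_nonneg hb (sub_nonneg.2 k2)
    have n3 := mul_nonneg hb (sub_nonneg.2 k3)
    have n4 := mul_nonneg hb (sub_nonneg.2 k4)
    have n5 := mul_nonneg hb (sub_nonneg.2 k5)
    refine ⟨?_, ?_, ?_, ?_, ?_⟩ <;>
      simp only [PiLp.add_apply, PiLp.smul_apply, smul_eq_mul] <;> nlinarith

theorem B_convex (i : Fin 3) : Convex ℝ (B i) := by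
  rintro p hp q hq a b ha hb hab
  rcases ha.eq_or_lt with rfl | ha
  · have : b = 1 := by linarith
    subst this
    simpa using hq
  rcases hb.eq_or_lt with rfl | hb
  · have : a = 1 := by linarith
    subst this
    simpa using hp
  rcases hp with hp | hp
  · exact Or.inl (OT_comb i p hp q (B_sub_T i hq) a b ha hb.le hab)
  · rcases hq with hq | hq
    · left
      rw [add_comm]
      exact OT_comb i q hq p (F_sub_T i hp) b a hb ha.le (by linarith)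
    · exact Or.inr (F_convex i hp hq ha.le hb.le hab)

theorem T_closed (i : Fin 3) : IsClosed (T i) := by
  fin_cases i
  all_goals
    refine IsClosed.and ?_ (IsClosed.and ?_ (IsClosed.and ?_ (IsClosed.and ?_ ?_))) <;>
      exact isClosed_le (by fun_prop) (by fun_prop)

theorem O_open (i : Fin 3) : IsOpen (O i) := by
  fin_cases i
  all_goals
    refine IsOpen.and ?_ (IsOpen.and ?_ (IsOpen.and ?_ (IsOpen.and ?_ ?_))) <;>
      exact isOpen_lt (by fun_prop) (by fun_prop)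

theorem T_bounded (i : Fin 3) : Bornology.IsBounded (T i) := by
  have key : ∀ p : P3, |p 0| ≤ 400 → |p 1| ≤ 400 → |p 2| ≤ 400 → p ∈ Metric.closedBall (0 : P3) 1000 := by
    intro p h0 h1 h2
    rw [mem_closedBall_zero_iff, EuclideanSpace.norm_eq, Real.sqrt_le_left (by norm_num),
      Fin.sum_univ_three]
    simp only [Real.norm_eq_abs, sq_abs]
    have a0 := sq_le_sq' (abs_le.1 h0).1 (abs_le.1 h0).2
    have a1 := sq_le_sq' (abs_le.1 h1).1 (abs_le.1 h1).2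
    have a2 := sq_le_sq' (abs_le.1 h2).1 (abs_le.1 h2).2
    nlinarith
  refine Metric.isBounded_closedBall.subset (fun p hp => key p ?_ ?_ ?_) <;>
  · fin_cases i <;>
    · obtain ⟨h1, h2, h3, h4, h5⟩ := hp
      rw [abs_le]
      constructor <;> linarith

theorem T_compact (i : Fin 3) : IsCompact (T i) :=
  Metric.isCompact_of_isClosed_isBounded (T_closed i) (T_bounded i)

theorem O_nonempty (i : Fin 3) : (O i).Nonempty := by
  fin_cases i
  · refine ⟨pt 0 1 (1 / 2), ?_, ?_, ?_, ?_, ?_⟩ <;> simp only [pt_0, pt_1, pt_2] <;> norm_num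
  · refine ⟨pt 0 22 (-1), ?_, ?_, ?_, ?_, ?_⟩ <;> simp only [pt_0, pt_1, pt_2] <;> norm_num
  · refine ⟨pt 0 (-120) 1, ?_, ?_, ?_, ?_, ?_⟩ <;> simp only [pt_0, pt_1, pt_2] <;> norm_num

theorem B_body (i : Fin 3) : IsBody (B i) :=
  ⟨B_convex i, (T_bounded i).subset (B_sub_T i),
    (O_nonempty i).mono (interior_maximal subset_union_left (O_open i))⟩

/-! ### Strict separation -/

/-- a functional by its coefficients -/
noncomputable def fn (a b c : ℝ) : P3 →L[ℝ] ℝ :=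
  a • EuclideanSpace.proj 0 + b • EuclideanSpace.proj 1 + c • EuclideanSpace.proj 2

theorem fn_apply (a b c : ℝ) (p : P3) : fn a b c p = a * p 0 + b * p 1 + c * p 2 := by
  simp [fn]

theorem fn_ne {a b c : ℝ} (h : a ≠ 0) : fn a b c ≠ 0 := by
  intro h0
  have h1 := congrArg (fun f : P3 →L[ℝ] ℝ => f (pt 1 0 0)) h0
  simp only [fn_apply, pt_0, pt_1, pt_2, zero_apply] at h1
  apply h
  linarith

theorem T_sep : StrictlySeparated T := by
  have h01 : (∀ x ∈ T 0, fn (-2) 1 (-3) x < 17) ∧ ∀ x ∈ T 1, 17 < fn (-2) 1 (-3) x := by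
    constructor
    · rintro p ⟨h1, h2, h3, h4, h5⟩
      rw [fn_apply]; linarith
    · rintro p ⟨h1, h2, h3, h4, h5⟩
      rw [fn_apply]; linarith
  have h02 : (∀ x ∈ T 0, fn (-2) (-1) 2 x < 95) ∧ ∀ x ∈ T 2, 95 < fn (-2) (-1) 2 x := by
    constructor
    · rintro p ⟨h1, h2, h3, h4, h5⟩
      rw [fn_apply]; linarith
    · rintro p ⟨h1, h2, h3, h4, h5⟩
      rw [fn_apply]; linarith
  have h12 : (∀ x ∈ T 1, fn (-2) (-1) 2 x < 95) ∧ ∀ x ∈ T 2, 95 < fn (-2) (-1) 2 x := by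
    constructor
    · rintro p ⟨h1, h2, h3, h4, h5⟩
      rw [fn_apply]; linarith
    · exact h02.2
  have hneg : ∀ {i j : Fin 3} {f : P3 →L[ℝ] ℝ} {c : ℝ}, f ≠ 0 →
      ((∀ x ∈ T i, f x < c) ∧ ∀ x ∈ T j, c < f x) →
      ∃ (f : P3 →L[ℝ] ℝ) (c : ℝ), f ≠ 0 ∧ (∀ x ∈ T j, f x < c) ∧ ∀ x ∈ T i, c < f x := by
    intro i j f c hf h
    refine ⟨-f, -c, neg_ne_zero.2 hf, fun x hx => ?_, fun x hx => ?_⟩
    · have := h.2 x hx
      rw [neg_apply]; linarith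
    · have := h.1 x hx
      rw [neg_apply]; linarith
  have ne1 : fn (-2) 1 (-3) ≠ 0 := fn_ne (by norm_num)
  have ne2 : fn (-2) (-1) 2 ≠ 0 := fn_ne (by norm_num)
  intro i j hij
  fin_cases i <;> fin_cases j
  · exact absurd rfl hij
  · exact ⟨_, _, ne1, h01⟩
  · exact ⟨_, _, ne2, h02⟩
  · exact hneg ne1 h01
  · exact absurd rfl hij
  · exact ⟨_, _, ne2, h12⟩
  · exact hneg ne2 h02
  · exact hneg ne2 h12
  · exact absurd rfl hij

theorem B_sep : StrictlySeparated B := by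
  intro i j hij
  obtain ⟨f, c, hf, h1, h2⟩ := T_sep i j hij
  exact ⟨f, c, hf, fun x hx => h1 x (B_sub_T i hx), fun x hx => h2 x (B_sub_T j hx)⟩

/-! ### The origin lies in the visual hull -/

theorem mem0 {p : P3} (h : p ∈ O 0 ∨ p ∈ F 0) : p ∈ ⋃ i, B i := mem_iUnion.2 ⟨0, h⟩
theorem mem1 {p : P3} (h : p ∈ O 1 ∨ p ∈ F 1) : p ∈ ⋃ i, B i := mem_iUnion.2 ⟨1, h⟩
theorem mem2 {p : P3} (h : p ∈ O 2 ∨ p ∈ F 2) : p ∈ ⋃ i, B i := mem_iUnion.2 ⟨2, h⟩

theorem hit_up (v : P3) (h : 0 < v 2) : ∃ t : ℝ, t • v ∈ ⋃ i, B i := by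
  by_cases c1 : 0 < v 0 + 3 * v 1 + v 2 ∧ 0 < 3 * v 1 - v 0 + v 2
  · obtain ⟨a1, a2⟩ := c1
    have hg : 0 < v 1 + v 2 := by linarith
    set t : ℝ := 3 / 2 / (v 1 + v 2) with ht
    have ht0 : 0 < t := by positivity
    have e : t * (v 1 + v 2) = 3 / 2 := by rw [ht]; field_simp
    refine ⟨t, mem0 (Or.inl ⟨?_, ?_, ?_, ?_, ?_⟩)⟩ <;> simp only [PiLp.smul_apply, smul_eq_mul]
    · positivity
    · nlinarith [mul_pos ht0 a1]
    · nlinarith [mul_pos ht0 a2]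
    · linarith
    · linarith
  by_cases c2 : v 0 + v 1 < v 2 ∧ 4 * v 0 + v 1 < v 2
  · obtain ⟨a1, a2⟩ := c2
    have hg : 0 < -2 * v 0 - v 1 + 2 * v 2 := by linarith
    set t : ℝ := 150 / (-2 * v 0 - v 1 + 2 * v 2) with ht
    have ht0 : 0 < t := by positivity
    have e : t * (-2 * v 0 - v 1 + 2 * v 2) = 150 := div_mul_cancel₀ _ hg.ne'
    refine ⟨t, mem2 (Or.inl ⟨?_, ?_, ?_, ?_, ?_⟩)⟩ <;> simp only [PiLp.smul_apply, smul_eq_mul]
    · positivity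
    · nlinarith [mul_pos ht0 (sub_pos.2 a1)]
    · nlinarith [mul_pos ht0 (sub_pos.2 a2)]
    · linarith
    · linarith
  have c3 : 0 < v 0 + v 2 ∧ 0 < v 0 - v 1 + v 2 := by
    rw [not_and_or, not_lt, not_lt] at c1 c2
    rcases c1 with c1 | c1 <;> rcases c2 with c2 | c2 <;> constructor <;> linarith
  obtain ⟨a1, a2⟩ := c3
  have hg : 0 < 2 * v 0 - v 1 + 3 * v 2 := by linarith
  set t : ℝ := 25 / (2 * v 0 - v 1 + 3 * v 2) with ht
  have ht0 : 0 < t := by positivity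
  have e : t * (2 * v 0 - v 1 + 3 * v 2) = 25 := by rw [ht]; field_simp
  refine ⟨-t, mem1 (Or.inl ⟨?_, ?_, ?_, ?_, ?_⟩)⟩ <;> simp only [PiLp.smul_apply, smul_eq_mul]
  · nlinarith [mul_pos ht0 h]
  · nlinarith [mul_pos ht0 a1]
  · nlinarith [mul_pos ht0 a2]
  · linarith
  · linarith

theorem hit_flat (v : P3) (h : v 2 = 0) (h1 : 0 < v 1) : ∃ t : ℝ, t • v ∈ ⋃ i, B i := by
  rcases le_total (v 0) 0 with c | c
  · -- hits `F 1`
    have hg : 0 < v 1 - 2 * v 0 := by linarith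
    set t : ℝ := 25 / (v 1 - 2 * v 0) with ht
    have ht0 : 0 < t := by positivity
    have e : t * (v 1 - 2 * v 0) = 25 := by rw [ht]; field_simp
    refine ⟨t, mem1 (Or.inr ⟨?_, ?_, ?_, ?_⟩)⟩ <;> simp only [PiLp.smul_apply, smul_eq_mul]
    · rw [h, mul_zero]
    · linarith
    · nlinarith
    · nlinarith
  rcases le_total (2 * v 0) (v 1) with c1 | c1
  · -- hits `F 2`
    have hg : 0 < v 1 + 2 * v 0 := by linarith
    set t : ℝ := 120 / (v 1 + 2 * v 0) with ht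
    have ht0 : 0 < t := by positivity
    have e : t * (v 1 + 2 * v 0) = 120 := by rw [ht]; field_simp
    refine ⟨-t, mem2 (Or.inr ⟨?_, ?_, ?_, ?_⟩)⟩ <;> simp only [PiLp.smul_apply, smul_eq_mul]
    · rw [h, mul_zero]
    · linarith
    · nlinarith
    · nlinarith
  rcases le_total (v 0) (v 1) with c2 | c2
  · -- hits `F 0`
    set t : ℝ := 1 / v 1 with ht
    have ht0 : 0 < t := by positivity
    have e : t * v 1 = 1 := by rw [ht]; field_simp
    refine ⟨t, mem0 (Or.inr ⟨?_, ?_, ?_, ?_⟩)⟩ <;> simp only [PiLp.smul_apply, smul_eq_mul]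
    · rw [h, mul_zero]
    · exact e
    · nlinarith
    · nlinarith
  · -- hits `F 1`
    have hg : 0 < 2 * v 0 - v 1 := by linarith
    set t : ℝ := 25 / (2 * v 0 - v 1) with ht
    have ht0 : 0 < t := by positivity
    have e : t * (2 * v 0 - v 1) = 25 := by rw [ht]; field_simp
    refine ⟨-t, mem1 (Or.inr ⟨?_, ?_, ?_, ?_⟩)⟩ <;> simp only [PiLp.smul_apply, smul_eq_mul]
    · rw [h, mul_zero]
    · linarith
    · nlinarith
    · nlinarith

theorem zero_mem : (0 : P3) ∈ visualHull (⋃ i, B i) := by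
  rw [mem_hull_iff]
  intro v hv
  have key : ∃ t : ℝ, t • v ∈ ⋃ i, B i := by
    rcases lt_trichotomy (v 2) 0 with h | h | h
    · obtain ⟨t, ht⟩ := hit_up (-v) (by rw [PiLp.neg_apply]; linarith)
      exact ⟨-t, by rw [neg_smul, ← smul_neg]; exact ht⟩
    · rcases lt_trichotomy (v 1) 0 with h1 | h1 | h1
      · obtain ⟨t, ht⟩ := hit_flat (-v) (by rw [PiLp.neg_apply, h, neg_zero])
          (by rw [PiLp.neg_apply]; linarith)
        exact ⟨-t, by rw [neg_smul, ← smul_neg]; exact ht⟩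
      · have h0 : v 0 ≠ 0 := by
          intro h0
          apply hv
          ext i
          fin_cases i
          · exact h0
          · exact h1
          · exact h
        refine ⟨-(25 / 2) / v 0, mem1 (Or.inr ⟨?_, ?_, ?_, ?_⟩)⟩ <;>
          simp only [PiLp.smul_apply, smul_eq_mul]
        · rw [h, mul_zero]
        · rw [h1]; field_simp; norm_num
        · field_simp; norm_num
        · field_simp; norm_num
      · exact hit_flat v h h1
    · exact hit_up v h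
  obtain ⟨t, ht⟩ := key
  exact ⟨t, by rw [zero_add]; exact ht⟩

end Q190.VH
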