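import Mathlib
import Pool.Agent.Q190.VH4

/-!
# The origin is isolated in the visual hull of the three bodies
-/

set_option autoImplicit false
set_option linter.unusedSectionVars false

open Set Module Topology

namespace Q190.VH

theorem cases_mem {p : P3} (h : p ∈ ⋃ i, B i) :
    (p ∈ O 0 ∨ p ∈ F 0) ∨ (p ∈ O 1 ∨ p ∈ F 1) ∨ (p ∈ O 2 ∨ p ∈ F 2) := by
  obtain ⟨i, hi⟩ := mem_iUnion.1 h
  fin_cases i
  · exact Or.inl hi
  · exact Or.inr (Or.inl hi)
  · exact Or.inr (Or.inr hi)

theorem isolated {y : P3} (hy : y ∈ visualHull (⋃ i, B i)) (h0 : |y 0| < 1 / 20)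
    (h1 : |y 1| < 1 / 20) (h2 : |y 2| < 1 / 20) : y = 0 := by
  rw [mem_hull_iff] at hy
  obtain ⟨a0, b0⟩ := abs_lt.1 h0
  obtain ⟨a1, b1⟩ := abs_lt.1 h1
  obtain ⟨a2, b2⟩ := abs_lt.1 h2
  have nz : ∀ a b c : ℝ, (a ≠ 0 ∨ b ≠ 0) → pt a b c ≠ 0 := by
    intro a b c h h'
    have e0 := congrArg (fun p : P3 => p 0) h'
    have e1 := congrArg (fun p : P3 => p 1) h'
    simp only [pt_0, pt_1, PiLp.zero_apply] at e0 e1
    rcases h with h | h
    · exact h e0
    · exact h e1
  have hz : y 2 = 0 := by
    by_contra hne
    rcases lt_or_gt_of_ne hne with hlt | hgt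
    · -- below the plane: a horizontal line
      obtain ⟨t, ht⟩ := hy (pt 1 2 0) (nz _ _ _ (Or.inl one_ne_zero))
      rcases cases_mem ht with (h | h) | (h | h) | (h | h)
      · have := h.1
        simp only [PiLp.add_apply, PiLp.smul_apply, smul_eq_mul, pt_2] at this
        linarith
      · have := h.1
        simp only [PiLp.add_apply, PiLp.smul_apply, smul_eq_mul, pt_2] at this
        linarith
      · have := h.2.2.2.1
        simp only [PiLp.add_apply, PiLp.smul_apply, smul_eq_mul, pt_0, pt_1, pt_2] at this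
        linarith
      · have := h.1
        simp only [PiLp.add_apply, PiLp.smul_apply, smul_eq_mul, pt_2] at this
        linarith
      · have := h.1
        simp only [PiLp.add_apply, PiLp.smul_apply, smul_eq_mul, pt_2] at this
        linarith
      · have := h.1
        simp only [PiLp.add_apply, PiLp.smul_apply, smul_eq_mul, pt_2] at this
        linarith
    · -- above the plane: the line through `(-30, 0, 0)`
      obtain ⟨t, ht⟩ := hy (pt (-30 - y 0) (-y 1) (-y 2)) (nz _ _ _ (Or.inl (by linarith)))
      obtain ⟨k, rfl⟩ : ∃ k, t = 1 - k := ⟨1 - t, by ring⟩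
      rcases cases_mem ht with (h | h) | (h | h) | (h | h)
      · obtain ⟨c1, c2, c3, c4, c5⟩ := h
        simp only [PiLp.add_apply, PiLp.smul_apply, smul_eq_mul, pt_0, pt_1, pt_2] at c1 c3 c4
        have hk : 0 < k := by
          by_contra hk
          push Not at hk
          nlinarith [mul_nonneg (neg_nonneg.2 hk) hgt.le]
        have d1 : 1 < k * (y 1 + y 2) := by linarith
        have d2 : 10 < k := by
          by_contra h10
          push Not at h10
          nlinarith
        nlinarith
      · obtain ⟨c1, c2, c3, c4⟩ := h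
        simp only [PiLp.add_apply, PiLp.smul_apply, smul_eq_mul, pt_0, pt_1, pt_2] at c1 c2
        have hk : k = 0 := by
          have : k * y 2 = 0 := by linarith
          rcases mul_eq_zero.1 this with h | h
          · exact h
          · exact absurd h hne
        subst hk
        linarith
      · obtain ⟨c1, c2, c3, c4, c5⟩ := h
        simp only [PiLp.add_apply, PiLp.smul_apply, smul_eq_mul, pt_0, pt_1, pt_2] at c1 c5
        have hk : k < 0 := by
          by_contra hk
          push Not at hk
          nlinarith [mul_nonneg hk hgt.le]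
        nlinarith
      · obtain ⟨c1, c2, c3, c4⟩ := h
        simp only [PiLp.add_apply, PiLp.smul_apply, smul_eq_mul, pt_0, pt_1, pt_2] at c1 c2
        have hk : k = 0 := by
          have : k * y 2 = 0 := by linarith
          rcases mul_eq_zero.1 this with h | h
          · exact h
          · exact absurd h hne
        subst hk
        linarith
      · obtain ⟨c1, c2, c3, c4, c5⟩ := h
        simp only [PiLp.add_apply, PiLp.smul_apply, smul_eq_mul, pt_0, pt_1, pt_2] at c1 c4
        have hk : 0 < k := by
          by_contra hk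
          push Not at hk
          nlinarith [mul_nonneg (neg_nonneg.2 hk) hgt.le]
        nlinarith
      · obtain ⟨c1, c2, c3, c4⟩ := h
        simp only [PiLp.add_apply, PiLp.smul_apply, smul_eq_mul, pt_0, pt_1, pt_2] at c1 c2
        have hk : k = 0 := by
          have : k * y 2 = 0 := by linarith
          rcases mul_eq_zero.1 this with h | h
          · exact h
          · exact absurd h hne
        subst hk
        linarith
  -- in the plane
  have hO : ∀ (a b t : ℝ), y + t • pt a b 0 ∈ (⋃ i, B i) →
      y + t • pt a b 0 ∈ F 0 ∨ y + t • pt a b 0 ∈ F 1 ∨ y + t • pt a b 0 ∈ F 2 := by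
    intro a b t h
    have e : (y + t • pt a b 0) 2 = 0 := by
      simp only [PiLp.add_apply, PiLp.smul_apply, smul_eq_mul, pt_2]
      linarith
    rcases cases_mem h with (h | h) | (h | h) | (h | h)
    · have := h.1
      linarith
    · exact Or.inl h
    · have := h.1
      linarith
    · exact Or.inr (Or.inl h)
    · have := h.1
      linarith
    · exact Or.inr (Or.inr h)
  have u0 : y 0 ≤ 0 := by
    by_contra hpos
    push Not at hpos
    obtain ⟨t, ht⟩ := hy (pt 0 1 0) (nz _ _ _ (Or.inr one_ne_zero))
    rcases hO 0 1 t ht with h | h | h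
    all_goals
      obtain ⟨c1, c2, c3, c4⟩ := h
      simp only [PiLp.add_apply, PiLp.smul_apply, smul_eq_mul, pt_0, pt_1, pt_2] at c1 c2 c3 c4
      linarith
  have u1 : y 0 ≤ y 1 := by
    by_contra hpos
    push Not at hpos
    obtain ⟨t, ht⟩ := hy (pt 1 1 0) (nz _ _ _ (Or.inl one_ne_zero))
    rcases hO 1 1 t ht with h | h | h
    all_goals
      obtain ⟨c1, c2, c3, c4⟩ := h
      simp only [PiLp.add_apply, PiLp.smul_apply, smul_eq_mul, pt_0, pt_1, pt_2] at c1 c2 c3 c4
      linarith
  have u2 : y 1 ≤ 2 * y 0 := by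
    by_contra hpos
    push Not at hpos
    obtain ⟨t, ht⟩ := hy (pt 1 2 0) (nz _ _ _ (Or.inl one_ne_zero))
    rcases hO 1 2 t ht with h | h | h
    all_goals
      obtain ⟨c1, c2, c3, c4⟩ := h
      simp only [PiLp.add_apply, PiLp.smul_apply, smul_eq_mul, pt_0, pt_1, pt_2] at c1 c2 c3 c4
      linarith
  ext i
  fin_cases i
  · show y 0 = 0
    linarith
  · show y 1 = 0
    linarith
  · exact hz

theorem zero_not_mem_T (i : Fin 3) : (0 : P3) ∉ T i := by
  fin_cases i
  all_goals
    rintro ⟨h1, h2, h3, h4, h5⟩
    simp only [PiLp.zero_apply] at h4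
    linarith

theorem four_le : 4 ≤ numComponents (visualHull (⋃ i, B i)) := by
  have hTne : ∀ i, (T i).Nonempty := fun i => (O_nonempty i).mono (O_sub_T i)
  have hcard : finrank ℝ P3 = 2 + 1 := by simp
  obtain ⟨W, hWo, hTW, hWd, hcov⟩ := exists_open_partition (n := 2) hcard T_sep
    (tame_of_compact T_compact T_convex hTne)
  have hX : visualHull (⋃ i, B i) ⊆ ⋃ i, W i :=
    (hull_mono (iUnion_mono B_sub_T)).trans hcov
  have hBne : ∀ i, (B i).Nonempty := fun i => (O_nonempty i).mono subset_union_left
  choose p hp using hBne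
  have hpX : ∀ i, p i ∈ visualHull (⋃ i, B i) := fun i => subset_hull _ (mem_iUnion.2 ⟨i, hp i⟩)
  let φ : Option (Fin 3) → ConnectedComponents (visualHull (⋃ i, B i)) := fun o =>
    match o with
    | none => ConnectedComponents.mk ⟨0, zero_mem⟩
    | some i => ConnectedComponents.mk ⟨p i, hpX i⟩
  have hclopen0 : IsClopen ((↑) ⁻¹' ({0} : Set P3) : Set (visualHull (⋃ i, B i))) := by
    constructor
    · exact isClosed_singleton.preimage continuous_subtype_val
    · have h1 : ((↑) ⁻¹' ({0} : Set P3) : Set (visualHull (⋃ i, B i))) =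
          (↑) ⁻¹' {y : P3 | |y 0| < 1 / 20 ∧ |y 1| < 1 / 20 ∧ |y 2| < 1 / 20} := by
        ext ⟨y, hy⟩
        constructor
        · rintro (rfl : y = 0)
          simp
        · rintro ⟨h0, h1, h2⟩
          exact isolated hy h0 h1 h2
      rw [h1]
      refine IsOpen.preimage continuous_subtype_val ?_
      refine IsOpen.and ?_ (IsOpen.and ?_ ?_) <;> exact isOpen_lt (by fun_prop) (by fun_prop)
  have hp0 : ∀ i, p i ≠ 0 := by
    intro i h
    exact zero_not_mem_T i (h ▸ B_sub_T i (hp i))
  have hφ : Function.Injective φ := by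
    rintro (_ | i) (_ | j) h
    · rfl
    · exact absurd h (mk_ne_of_clopen hclopen0 rfl (fun h' => hp0 j h'))
    · exact absurd h.symm (mk_ne_of_clopen hclopen0 rfl (fun h' => hp0 i h'))
    · by_cases hij : i = j
      · rw [hij]
      · exact absurd h (mk_ne_of_clopen (isClopen_of_partition hWo hWd hX i)
          (hTW i (B_sub_T i (hp i)))
          (fun h' => Set.disjoint_left.1 (hWd i j hij) h' (hTW j (B_sub_T j (hp j)))))
  have h2 := ENat.card_le_card_of_injective hφ
  have h3 : ENat.card (Option (Fin 3)) = 4 := by simp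
  rw [h3] at h2
  exact h2

end Q190.VH
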